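import Pool.Agent.GCI.Tab2

/-!
# MP_f1ab9c: the list of the good stars of weight at least 3, up to permutations of the colours

Written by the program gci_mt.cpp: all 503 canonical stars.
-/

set_option autoImplicit false

namespace Pool.Agent.GCI

/-- the canonical good stars -/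
def tab : List St := [
  ⟨.m, 7, 0, 0, []⟩,
  ⟨.m, 3, 0, 0, [⟨.m, 1, 0, []⟩]⟩,
  ⟨.m, 3, 0, 0, [⟨.m, 4, 0, []⟩]⟩,
  ⟨.m, 3, 0, 0, [⟨.m, 0, 0, []⟩]⟩,
  ⟨.m, 3, 0, 0, [⟨.c, 1, 0, []⟩]⟩,
  ⟨.m, 3, 0, 0, [⟨.c, 4, 0, []⟩]⟩,
  ⟨.m, 3, 0, 0, [⟨.c, 1, 1, []⟩]⟩,
  ⟨.m, 3, 0, 0, [⟨.c, 4, 1, []⟩]⟩,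
  ⟨.m, 3, 0, 0, [⟨.c, 0, 0, []⟩]⟩,
  ⟨.m, 3, 0, 0, [⟨.x, 1, 0, []⟩]⟩,
  ⟨.m, 3, 0, 0, [⟨.x, 4, 0, []⟩]⟩,
  ⟨.m, 3, 0, 0, [⟨.x, 0, 0, []⟩]⟩,
  ⟨.m, 3, 1, 0, []⟩,
  ⟨.m, 1, 0, 0, [⟨.m, 1, 0, []⟩, ⟨.m, 1, 0, []⟩]⟩,
  ⟨.m, 1, 0, 0, [⟨.m, 1, 0, []⟩, ⟨.m, 2, 0, []⟩]⟩,
  ⟨.m, 1, 0, 0, [⟨.m, 0, 0, []⟩, ⟨.m, 1, 0, []⟩]⟩,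
  ⟨.m, 1, 0, 0, [⟨.m, 1, 0, []⟩, ⟨.c, 1, 0, []⟩]⟩,
  ⟨.m, 1, 0, 0, [⟨.m, 1, 0, []⟩, ⟨.c, 2, 0, []⟩]⟩,
  ⟨.m, 1, 0, 0, [⟨.m, 1, 0, []⟩, ⟨.c, 1, 1, []⟩]⟩,
  ⟨.m, 1, 0, 0, [⟨.m, 1, 0, []⟩, ⟨.c, 2, 1, []⟩]⟩,
  ⟨.m, 1, 0, 0, [⟨.m, 1, 0, []⟩, ⟨.c, 0, 0, []⟩]⟩,
  ⟨.m, 1, 0, 0, [⟨.m, 1, 0, []⟩, ⟨.x, 1, 0, []⟩]⟩,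
  ⟨.m, 1, 0, 0, [⟨.m, 1, 0, []⟩, ⟨.x, 2, 0, []⟩]⟩,
  ⟨.m, 1, 0, 0, [⟨.m, 1, 0, []⟩, ⟨.x, 0, 0, []⟩]⟩,
  ⟨.m, 1, 1, 0, [⟨.m, 1, 0, []⟩]⟩,
  ⟨.m, 1, 0, 0, [⟨.m, 2, 0, []⟩, ⟨.m, 2, 0, []⟩]⟩,
  ⟨.m, 1, 0, 0, [⟨.m, 2, 0, []⟩, ⟨.m, 4, 0, []⟩]⟩,
  ⟨.m, 1, 0, 0, [⟨.m, 0, 0, []⟩, ⟨.m, 2, 0, []⟩]⟩,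
  ⟨.m, 1, 0, 0, [⟨.m, 2, 0, []⟩, ⟨.c, 1, 0, []⟩]⟩,
  ⟨.m, 1, 0, 0, [⟨.m, 2, 0, []⟩, ⟨.c, 2, 0, []⟩]⟩,
  ⟨.m, 1, 0, 0, [⟨.m, 2, 0, []⟩, ⟨.c, 4, 0, []⟩]⟩,
  ⟨.m, 1, 0, 0, [⟨.m, 2, 0, []⟩, ⟨.c, 1, 1, []⟩]⟩,
  ⟨.m, 1, 0, 0, [⟨.m, 2, 0, []⟩, ⟨.c, 2, 1, []⟩]⟩,
  ⟨.m, 1, 0, 0, [⟨.m, 2, 0, []⟩, ⟨.c, 4, 1, []⟩]⟩,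
  ⟨.m, 1, 0, 0, [⟨.m, 2, 0, []⟩, ⟨.c, 0, 0, []⟩]⟩,
  ⟨.m, 1, 0, 0, [⟨.m, 2, 0, []⟩, ⟨.x, 1, 0, []⟩]⟩,
  ⟨.m, 1, 0, 0, [⟨.m, 2, 0, []⟩, ⟨.x, 2, 0, []⟩]⟩,
  ⟨.m, 1, 0, 0, [⟨.m, 2, 0, []⟩, ⟨.x, 4, 0, []⟩]⟩,
  ⟨.m, 1, 0, 0, [⟨.m, 2, 0, []⟩, ⟨.x, 0, 0, []⟩]⟩,
  ⟨.m, 1, 1, 0, [⟨.m, 2, 0, []⟩]⟩,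
  ⟨.m, 1, 0, 0, [⟨.m, 0, 0, []⟩, ⟨.m, 0, 0, []⟩]⟩,
  ⟨.m, 1, 0, 0, [⟨.m, 0, 0, []⟩, ⟨.c, 1, 0, []⟩]⟩,
  ⟨.m, 1, 0, 0, [⟨.m, 0, 0, []⟩, ⟨.c, 2, 0, []⟩]⟩,
  ⟨.m, 1, 0, 0, [⟨.m, 0, 0, []⟩, ⟨.c, 1, 1, []⟩]⟩,
  ⟨.m, 1, 0, 0, [⟨.m, 0, 0, []⟩, ⟨.c, 2, 1, []⟩]⟩,
  ⟨.m, 1, 0, 0, [⟨.m, 0, 0, []⟩, ⟨.c, 0, 0, []⟩]⟩,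
  ⟨.m, 1, 0, 0, [⟨.m, 0, 0, []⟩, ⟨.x, 1, 0, []⟩]⟩,
  ⟨.m, 1, 0, 0, [⟨.m, 0, 0, []⟩, ⟨.x, 2, 0, []⟩]⟩,
  ⟨.m, 1, 0, 0, [⟨.m, 0, 0, []⟩, ⟨.x, 0, 0, []⟩]⟩,
  ⟨.m, 1, 1, 0, [⟨.m, 0, 0, []⟩]⟩,
  ⟨.m, 1, 0, 0, [⟨.c, 1, 0, []⟩, ⟨.c, 1, 0, []⟩]⟩,
  ⟨.m, 1, 0, 0, [⟨.c, 1, 0, []⟩, ⟨.c, 2, 0, []⟩]⟩,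
  ⟨.m, 1, 0, 0, [⟨.c, 1, 0, []⟩, ⟨.c, 1, 1, []⟩]⟩,
  ⟨.m, 1, 0, 0, [⟨.c, 1, 0, []⟩, ⟨.c, 2, 1, []⟩]⟩,
  ⟨.m, 1, 0, 0, [⟨.c, 0, 0, []⟩, ⟨.c, 1, 0, []⟩]⟩,
  ⟨.m, 1, 0, 0, [⟨.c, 1, 0, []⟩, ⟨.x, 1, 0, []⟩]⟩,
  ⟨.m, 1, 0, 0, [⟨.c, 1, 0, []⟩, ⟨.x, 2, 0, []⟩]⟩,
  ⟨.m, 1, 0, 0, [⟨.c, 1, 0, []⟩, ⟨.x, 0, 0, []⟩]⟩,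
  ⟨.m, 1, 1, 0, [⟨.c, 1, 0, []⟩]⟩,
  ⟨.m, 1, 0, 0, [⟨.c, 2, 0, []⟩, ⟨.c, 2, 0, []⟩]⟩,
  ⟨.m, 1, 0, 0, [⟨.c, 2, 0, []⟩, ⟨.c, 4, 0, []⟩]⟩,
  ⟨.m, 1, 0, 0, [⟨.c, 1, 1, []⟩, ⟨.c, 2, 0, []⟩]⟩,
  ⟨.m, 1, 0, 0, [⟨.c, 2, 0, []⟩, ⟨.c, 2, 1, []⟩]⟩,
  ⟨.m, 1, 0, 0, [⟨.c, 2, 0, []⟩, ⟨.c, 4, 1, []⟩]⟩,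
  ⟨.m, 1, 0, 0, [⟨.c, 0, 0, []⟩, ⟨.c, 2, 0, []⟩]⟩,
  ⟨.m, 1, 0, 0, [⟨.c, 2, 0, []⟩, ⟨.x, 1, 0, []⟩]⟩,
  ⟨.m, 1, 0, 0, [⟨.c, 2, 0, []⟩, ⟨.x, 2, 0, []⟩]⟩,
  ⟨.m, 1, 0, 0, [⟨.c, 2, 0, []⟩, ⟨.x, 4, 0, []⟩]⟩,
  ⟨.m, 1, 0, 0, [⟨.c, 2, 0, []⟩, ⟨.x, 0, 0, []⟩]⟩,
  ⟨.m, 1, 1, 0, [⟨.c, 2, 0, []⟩]⟩,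
  ⟨.m, 1, 0, 0, [⟨.c, 1, 1, []⟩, ⟨.c, 1, 1, []⟩]⟩,
  ⟨.m, 1, 0, 0, [⟨.c, 1, 1, []⟩, ⟨.c, 2, 1, []⟩]⟩,
  ⟨.m, 1, 0, 0, [⟨.c, 0, 0, []⟩, ⟨.c, 1, 1, []⟩]⟩,
  ⟨.m, 1, 0, 0, [⟨.c, 1, 1, []⟩, ⟨.x, 1, 0, []⟩]⟩,
  ⟨.m, 1, 0, 0, [⟨.c, 1, 1, []⟩, ⟨.x, 2, 0, []⟩]⟩,
  ⟨.m, 1, 0, 0, [⟨.c, 1, 1, []⟩, ⟨.x, 0, 0, []⟩]⟩,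
  ⟨.m, 1, 1, 0, [⟨.c, 1, 1, []⟩]⟩,
  ⟨.m, 1, 0, 0, [⟨.c, 2, 1, []⟩, ⟨.c, 2, 1, []⟩]⟩,
  ⟨.m, 1, 0, 0, [⟨.c, 2, 1, []⟩, ⟨.c, 4, 1, []⟩]⟩,
  ⟨.m, 1, 0, 0, [⟨.c, 0, 0, []⟩, ⟨.c, 2, 1, []⟩]⟩,
  ⟨.m, 1, 0, 0, [⟨.c, 2, 1, []⟩, ⟨.x, 1, 0, []⟩]⟩,
  ⟨.m, 1, 0, 0, [⟨.c, 2, 1, []⟩, ⟨.x, 2, 0, []⟩]⟩,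
  ⟨.m, 1, 0, 0, [⟨.c, 2, 1, []⟩, ⟨.x, 4, 0, []⟩]⟩,
  ⟨.m, 1, 0, 0, [⟨.c, 2, 1, []⟩, ⟨.x, 0, 0, []⟩]⟩,
  ⟨.m, 1, 1, 0, [⟨.c, 2, 1, []⟩]⟩,
  ⟨.m, 1, 0, 0, [⟨.c, 0, 0, []⟩, ⟨.c, 0, 0, []⟩]⟩,
  ⟨.m, 1, 0, 0, [⟨.c, 0, 0, []⟩, ⟨.x, 1, 0, []⟩]⟩,
  ⟨.m, 1, 0, 0, [⟨.c, 0, 0, []⟩, ⟨.x, 2, 0, []⟩]⟩,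
  ⟨.m, 1, 0, 0, [⟨.c, 0, 0, []⟩, ⟨.x, 0, 0, []⟩]⟩,
  ⟨.m, 1, 1, 0, [⟨.c, 0, 0, []⟩]⟩,
  ⟨.m, 1, 0, 0, [⟨.x, 1, 0, []⟩, ⟨.x, 1, 0, []⟩]⟩,
  ⟨.m, 1, 0, 0, [⟨.x, 1, 0, []⟩, ⟨.x, 2, 0, []⟩]⟩,
  ⟨.m, 1, 0, 0, [⟨.x, 0, 0, []⟩, ⟨.x, 1, 0, []⟩]⟩,
  ⟨.m, 1, 1, 0, [⟨.x, 1, 0, []⟩]⟩,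
  ⟨.m, 1, 0, 0, [⟨.x, 2, 0, []⟩, ⟨.x, 2, 0, []⟩]⟩,
  ⟨.m, 1, 0, 0, [⟨.x, 2, 0, []⟩, ⟨.x, 4, 0, []⟩]⟩,
  ⟨.m, 1, 0, 0, [⟨.x, 0, 0, []⟩, ⟨.x, 2, 0, []⟩]⟩,
  ⟨.m, 1, 1, 0, [⟨.x, 2, 0, []⟩]⟩,
  ⟨.m, 1, 0, 0, [⟨.x, 0, 0, []⟩, ⟨.x, 0, 0, []⟩]⟩,
  ⟨.m, 1, 1, 0, [⟨.x, 0, 0, []⟩]⟩,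
  ⟨.m, 0, 0, 0, [⟨.m, 1, 0, []⟩, ⟨.m, 1, 0, []⟩, ⟨.m, 1, 0, []⟩]⟩,
  ⟨.m, 0, 0, 0, [⟨.m, 1, 0, []⟩, ⟨.m, 1, 0, []⟩, ⟨.m, 2, 0, []⟩]⟩,
  ⟨.m, 0, 0, 0, [⟨.m, 0, 0, []⟩, ⟨.m, 1, 0, []⟩, ⟨.m, 1, 0, []⟩]⟩,
  ⟨.m, 0, 0, 0, [⟨.m, 1, 0, []⟩, ⟨.m, 1, 0, []⟩, ⟨.c, 1, 0, []⟩]⟩,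
  ⟨.m, 0, 0, 0, [⟨.m, 1, 0, []⟩, ⟨.m, 1, 0, []⟩, ⟨.c, 2, 0, []⟩]⟩,
  ⟨.m, 0, 0, 0, [⟨.m, 1, 0, []⟩, ⟨.m, 1, 0, []⟩, ⟨.c, 1, 1, []⟩]⟩,
  ⟨.m, 0, 0, 0, [⟨.m, 1, 0, []⟩, ⟨.m, 1, 0, []⟩, ⟨.c, 2, 1, []⟩]⟩,
  ⟨.m, 0, 0, 0, [⟨.m, 1, 0, []⟩, ⟨.m, 1, 0, []⟩, ⟨.c, 0, 0, []⟩]⟩,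
  ⟨.m, 0, 0, 0, [⟨.m, 1, 0, []⟩, ⟨.m, 1, 0, []⟩, ⟨.x, 1, 0, []⟩]⟩,
  ⟨.m, 0, 0, 0, [⟨.m, 1, 0, []⟩, ⟨.m, 1, 0, []⟩, ⟨.x, 2, 0, []⟩]⟩,
  ⟨.m, 0, 0, 0, [⟨.m, 1, 0, []⟩, ⟨.m, 1, 0, []⟩, ⟨.x, 0, 0, []⟩]⟩,
  ⟨.m, 0, 0, 0, [⟨.m, 1, 0, []⟩, ⟨.m, 2, 0, []⟩, ⟨.m, 4, 0, []⟩]⟩,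
  ⟨.m, 0, 0, 0, [⟨.m, 0, 0, []⟩, ⟨.m, 1, 0, []⟩, ⟨.m, 2, 0, []⟩]⟩,
  ⟨.m, 0, 0, 0, [⟨.m, 1, 0, []⟩, ⟨.m, 2, 0, []⟩, ⟨.c, 1, 0, []⟩]⟩,
  ⟨.m, 0, 0, 0, [⟨.m, 1, 0, []⟩, ⟨.m, 2, 0, []⟩, ⟨.c, 4, 0, []⟩]⟩,
  ⟨.m, 0, 0, 0, [⟨.m, 1, 0, []⟩, ⟨.m, 2, 0, []⟩, ⟨.c, 1, 1, []⟩]⟩,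
  ⟨.m, 0, 0, 0, [⟨.m, 1, 0, []⟩, ⟨.m, 2, 0, []⟩, ⟨.c, 4, 1, []⟩]⟩,
  ⟨.m, 0, 0, 0, [⟨.m, 1, 0, []⟩, ⟨.m, 2, 0, []⟩, ⟨.c, 0, 0, []⟩]⟩,
  ⟨.m, 0, 0, 0, [⟨.m, 1, 0, []⟩, ⟨.m, 2, 0, []⟩, ⟨.x, 1, 0, []⟩]⟩,
  ⟨.m, 0, 0, 0, [⟨.m, 1, 0, []⟩, ⟨.m, 2, 0, []⟩, ⟨.x, 4, 0, []⟩]⟩,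
  ⟨.m, 0, 0, 0, [⟨.m, 1, 0, []⟩, ⟨.m, 2, 0, []⟩, ⟨.x, 0, 0, []⟩]⟩,
  ⟨.m, 0, 0, 0, [⟨.m, 0, 0, []⟩, ⟨.m, 0, 0, []⟩, ⟨.m, 1, 0, []⟩]⟩,
  ⟨.m, 0, 0, 0, [⟨.m, 0, 0, []⟩, ⟨.m, 1, 0, []⟩, ⟨.c, 1, 0, []⟩]⟩,
  ⟨.m, 0, 0, 0, [⟨.m, 0, 0, []⟩, ⟨.m, 1, 0, []⟩, ⟨.c, 2, 0, []⟩]⟩,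
  ⟨.m, 0, 0, 0, [⟨.m, 0, 0, []⟩, ⟨.m, 1, 0, []⟩, ⟨.c, 1, 1, []⟩]⟩,
  ⟨.m, 0, 0, 0, [⟨.m, 0, 0, []⟩, ⟨.m, 1, 0, []⟩, ⟨.c, 2, 1, []⟩]⟩,
  ⟨.m, 0, 0, 0, [⟨.m, 0, 0, []⟩, ⟨.m, 1, 0, []⟩, ⟨.c, 0, 0, []⟩]⟩,
  ⟨.m, 0, 0, 0, [⟨.m, 0, 0, []⟩, ⟨.m, 1, 0, []⟩, ⟨.x, 1, 0, []⟩]⟩,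
  ⟨.m, 0, 0, 0, [⟨.m, 0, 0, []⟩, ⟨.m, 1, 0, []⟩, ⟨.x, 2, 0, []⟩]⟩,
  ⟨.m, 0, 0, 0, [⟨.m, 0, 0, []⟩, ⟨.m, 1, 0, []⟩, ⟨.x, 0, 0, []⟩]⟩,
  ⟨.m, 0, 0, 0, [⟨.m, 1, 0, []⟩, ⟨.c, 1, 0, []⟩, ⟨.c, 1, 0, []⟩]⟩,
  ⟨.m, 0, 0, 0, [⟨.m, 1, 0, []⟩, ⟨.c, 1, 0, []⟩, ⟨.c, 2, 0, []⟩]⟩,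
  ⟨.m, 0, 0, 0, [⟨.m, 1, 0, []⟩, ⟨.c, 1, 0, []⟩, ⟨.c, 1, 1, []⟩]⟩,
  ⟨.m, 0, 0, 0, [⟨.m, 1, 0, []⟩, ⟨.c, 1, 0, []⟩, ⟨.c, 2, 1, []⟩]⟩,
  ⟨.m, 0, 0, 0, [⟨.m, 1, 0, []⟩, ⟨.c, 0, 0, []⟩, ⟨.c, 1, 0, []⟩]⟩,
  ⟨.m, 0, 0, 0, [⟨.m, 1, 0, []⟩, ⟨.c, 1, 0, []⟩, ⟨.x, 1, 0, []⟩]⟩,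
  ⟨.m, 0, 0, 0, [⟨.m, 1, 0, []⟩, ⟨.c, 1, 0, []⟩, ⟨.x, 2, 0, []⟩]⟩,
  ⟨.m, 0, 0, 0, [⟨.m, 1, 0, []⟩, ⟨.c, 1, 0, []⟩, ⟨.x, 0, 0, []⟩]⟩,
  ⟨.m, 0, 0, 0, [⟨.m, 1, 0, []⟩, ⟨.c, 2, 0, []⟩, ⟨.c, 2, 0, []⟩]⟩,
  ⟨.m, 0, 0, 0, [⟨.m, 1, 0, []⟩, ⟨.c, 2, 0, []⟩, ⟨.c, 4, 0, []⟩]⟩,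
  ⟨.m, 0, 0, 0, [⟨.m, 1, 0, []⟩, ⟨.c, 1, 1, []⟩, ⟨.c, 2, 0, []⟩]⟩,
  ⟨.m, 0, 0, 0, [⟨.m, 1, 0, []⟩, ⟨.c, 2, 0, []⟩, ⟨.c, 2, 1, []⟩]⟩,
  ⟨.m, 0, 0, 0, [⟨.m, 1, 0, []⟩, ⟨.c, 2, 0, []⟩, ⟨.c, 4, 1, []⟩]⟩,
  ⟨.m, 0, 0, 0, [⟨.m, 1, 0, []⟩, ⟨.c, 0, 0, []⟩, ⟨.c, 2, 0, []⟩]⟩,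
  ⟨.m, 0, 0, 0, [⟨.m, 1, 0, []⟩, ⟨.c, 2, 0, []⟩, ⟨.x, 1, 0, []⟩]⟩,
  ⟨.m, 0, 0, 0, [⟨.m, 1, 0, []⟩, ⟨.c, 2, 0, []⟩, ⟨.x, 2, 0, []⟩]⟩,
  ⟨.m, 0, 0, 0, [⟨.m, 1, 0, []⟩, ⟨.c, 2, 0, []⟩, ⟨.x, 4, 0, []⟩]⟩,
  ⟨.m, 0, 0, 0, [⟨.m, 1, 0, []⟩, ⟨.c, 2, 0, []⟩, ⟨.x, 0, 0, []⟩]⟩,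
  ⟨.m, 0, 0, 0, [⟨.m, 1, 0, []⟩, ⟨.c, 1, 1, []⟩, ⟨.c, 1, 1, []⟩]⟩,
  ⟨.m, 0, 0, 0, [⟨.m, 1, 0, []⟩, ⟨.c, 1, 1, []⟩, ⟨.c, 2, 1, []⟩]⟩,
  ⟨.m, 0, 0, 0, [⟨.m, 1, 0, []⟩, ⟨.c, 0, 0, []⟩, ⟨.c, 1, 1, []⟩]⟩,
  ⟨.m, 0, 0, 0, [⟨.m, 1, 0, []⟩, ⟨.c, 1, 1, []⟩, ⟨.x, 1, 0, []⟩]⟩,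
  ⟨.m, 0, 0, 0, [⟨.m, 1, 0, []⟩, ⟨.c, 1, 1, []⟩, ⟨.x, 2, 0, []⟩]⟩,
  ⟨.m, 0, 0, 0, [⟨.m, 1, 0, []⟩, ⟨.c, 1, 1, []⟩, ⟨.x, 0, 0, []⟩]⟩,
  ⟨.m, 0, 0, 0, [⟨.m, 1, 0, []⟩, ⟨.c, 2, 1, []⟩, ⟨.c, 2, 1, []⟩]⟩,
  ⟨.m, 0, 0, 0, [⟨.m, 1, 0, []⟩, ⟨.c, 2, 1, []⟩, ⟨.c, 4, 1, []⟩]⟩,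
  ⟨.m, 0, 0, 0, [⟨.m, 1, 0, []⟩, ⟨.c, 0, 0, []⟩, ⟨.c, 2, 1, []⟩]⟩,
  ⟨.m, 0, 0, 0, [⟨.m, 1, 0, []⟩, ⟨.c, 2, 1, []⟩, ⟨.x, 1, 0, []⟩]⟩,
  ⟨.m, 0, 0, 0, [⟨.m, 1, 0, []⟩, ⟨.c, 2, 1, []⟩, ⟨.x, 2, 0, []⟩]⟩,
  ⟨.m, 0, 0, 0, [⟨.m, 1, 0, []⟩, ⟨.c, 2, 1, []⟩, ⟨.x, 4, 0, []⟩]⟩,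
  ⟨.m, 0, 0, 0, [⟨.m, 1, 0, []⟩, ⟨.c, 2, 1, []⟩, ⟨.x, 0, 0, []⟩]⟩,
  ⟨.m, 0, 0, 0, [⟨.m, 1, 0, []⟩, ⟨.c, 0, 0, []⟩, ⟨.c, 0, 0, []⟩]⟩,
  ⟨.m, 0, 0, 0, [⟨.m, 1, 0, []⟩, ⟨.c, 0, 0, []⟩, ⟨.x, 1, 0, []⟩]⟩,
  ⟨.m, 0, 0, 0, [⟨.m, 1, 0, []⟩, ⟨.c, 0, 0, []⟩, ⟨.x, 2, 0, []⟩]⟩,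
  ⟨.m, 0, 0, 0, [⟨.m, 1, 0, []⟩, ⟨.c, 0, 0, []⟩, ⟨.x, 0, 0, []⟩]⟩,
  ⟨.m, 0, 0, 0, [⟨.m, 1, 0, []⟩, ⟨.x, 1, 0, []⟩, ⟨.x, 1, 0, []⟩]⟩,
  ⟨.m, 0, 0, 0, [⟨.m, 1, 0, []⟩, ⟨.x, 1, 0, []⟩, ⟨.x, 2, 0, []⟩]⟩,
  ⟨.m, 0, 0, 0, [⟨.m, 1, 0, []⟩, ⟨.x, 0, 0, []⟩, ⟨.x, 1, 0, []⟩]⟩,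
  ⟨.m, 0, 0, 0, [⟨.m, 1, 0, []⟩, ⟨.x, 2, 0, []⟩, ⟨.x, 2, 0, []⟩]⟩,
  ⟨.m, 0, 0, 0, [⟨.m, 1, 0, []⟩, ⟨.x, 2, 0, []⟩, ⟨.x, 4, 0, []⟩]⟩,
  ⟨.m, 0, 0, 0, [⟨.m, 1, 0, []⟩, ⟨.x, 0, 0, []⟩, ⟨.x, 2, 0, []⟩]⟩,
  ⟨.m, 0, 0, 0, [⟨.m, 1, 0, []⟩, ⟨.x, 0, 0, []⟩, ⟨.x, 0, 0, []⟩]⟩,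
  ⟨.m, 0, 0, 0, [⟨.m, 0, 0, []⟩, ⟨.m, 0, 0, []⟩, ⟨.m, 0, 0, []⟩]⟩,
  ⟨.m, 0, 0, 0, [⟨.m, 0, 0, []⟩, ⟨.m, 0, 0, []⟩, ⟨.c, 1, 0, []⟩]⟩,
  ⟨.m, 0, 0, 0, [⟨.m, 0, 0, []⟩, ⟨.m, 0, 0, []⟩, ⟨.c, 1, 1, []⟩]⟩,
  ⟨.m, 0, 0, 0, [⟨.m, 0, 0, []⟩, ⟨.m, 0, 0, []⟩, ⟨.c, 0, 0, []⟩]⟩,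
  ⟨.m, 0, 0, 0, [⟨.m, 0, 0, []⟩, ⟨.m, 0, 0, []⟩, ⟨.x, 1, 0, []⟩]⟩,
  ⟨.m, 0, 0, 0, [⟨.m, 0, 0, []⟩, ⟨.m, 0, 0, []⟩, ⟨.x, 0, 0, []⟩]⟩,
  ⟨.m, 0, 0, 0, [⟨.m, 0, 0, []⟩, ⟨.c, 1, 0, []⟩, ⟨.c, 1, 0, []⟩]⟩,
  ⟨.m, 0, 0, 0, [⟨.m, 0, 0, []⟩, ⟨.c, 1, 0, []⟩, ⟨.c, 2, 0, []⟩]⟩,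
  ⟨.m, 0, 0, 0, [⟨.m, 0, 0, []⟩, ⟨.c, 1, 0, []⟩, ⟨.c, 1, 1, []⟩]⟩,
  ⟨.m, 0, 0, 0, [⟨.m, 0, 0, []⟩, ⟨.c, 1, 0, []⟩, ⟨.c, 2, 1, []⟩]⟩,
  ⟨.m, 0, 0, 0, [⟨.m, 0, 0, []⟩, ⟨.c, 0, 0, []⟩, ⟨.c, 1, 0, []⟩]⟩,
  ⟨.m, 0, 0, 0, [⟨.m, 0, 0, []⟩, ⟨.c, 1, 0, []⟩, ⟨.x, 1, 0, []⟩]⟩,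
  ⟨.m, 0, 0, 0, [⟨.m, 0, 0, []⟩, ⟨.c, 1, 0, []⟩, ⟨.x, 2, 0, []⟩]⟩,
  ⟨.m, 0, 0, 0, [⟨.m, 0, 0, []⟩, ⟨.c, 1, 0, []⟩, ⟨.x, 0, 0, []⟩]⟩,
  ⟨.m, 0, 0, 0, [⟨.m, 0, 0, []⟩, ⟨.c, 1, 1, []⟩, ⟨.c, 1, 1, []⟩]⟩,
  ⟨.m, 0, 0, 0, [⟨.m, 0, 0, []⟩, ⟨.c, 1, 1, []⟩, ⟨.c, 2, 1, []⟩]⟩,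
  ⟨.m, 0, 0, 0, [⟨.m, 0, 0, []⟩, ⟨.c, 0, 0, []⟩, ⟨.c, 1, 1, []⟩]⟩,
  ⟨.m, 0, 0, 0, [⟨.m, 0, 0, []⟩, ⟨.c, 1, 1, []⟩, ⟨.x, 1, 0, []⟩]⟩,
  ⟨.m, 0, 0, 0, [⟨.m, 0, 0, []⟩, ⟨.c, 1, 1, []⟩, ⟨.x, 2, 0, []⟩]⟩,
  ⟨.m, 0, 0, 0, [⟨.m, 0, 0, []⟩, ⟨.c, 1, 1, []⟩, ⟨.x, 0, 0, []⟩]⟩,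
  ⟨.m, 0, 0, 0, [⟨.m, 0, 0, []⟩, ⟨.c, 0, 0, []⟩, ⟨.c, 0, 0, []⟩]⟩,
  ⟨.m, 0, 0, 0, [⟨.m, 0, 0, []⟩, ⟨.c, 0, 0, []⟩, ⟨.x, 1, 0, []⟩]⟩,
  ⟨.m, 0, 0, 0, [⟨.m, 0, 0, []⟩, ⟨.c, 0, 0, []⟩, ⟨.x, 0, 0, []⟩]⟩,
  ⟨.m, 0, 0, 0, [⟨.m, 0, 0, []⟩, ⟨.x, 1, 0, []⟩, ⟨.x, 1, 0, []⟩]⟩,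
  ⟨.m, 0, 0, 0, [⟨.m, 0, 0, []⟩, ⟨.x, 1, 0, []⟩, ⟨.x, 2, 0, []⟩]⟩,
  ⟨.m, 0, 0, 0, [⟨.m, 0, 0, []⟩, ⟨.x, 0, 0, []⟩, ⟨.x, 1, 0, []⟩]⟩,
  ⟨.m, 0, 0, 0, [⟨.m, 0, 0, []⟩, ⟨.x, 0, 0, []⟩, ⟨.x, 0, 0, []⟩]⟩,
  ⟨.m, 0, 0, 0, [⟨.c, 1, 0, []⟩, ⟨.c, 1, 0, []⟩, ⟨.c, 1, 0, []⟩]⟩,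
  ⟨.m, 0, 0, 0, [⟨.c, 1, 0, []⟩, ⟨.c, 1, 0, []⟩, ⟨.c, 2, 0, []⟩]⟩,
  ⟨.m, 0, 0, 0, [⟨.c, 1, 0, []⟩, ⟨.c, 1, 0, []⟩, ⟨.c, 1, 1, []⟩]⟩,
  ⟨.m, 0, 0, 0, [⟨.c, 1, 0, []⟩, ⟨.c, 1, 0, []⟩, ⟨.c, 2, 1, []⟩]⟩,
  ⟨.m, 0, 0, 0, [⟨.c, 0, 0, []⟩, ⟨.c, 1, 0, []⟩, ⟨.c, 1, 0, []⟩]⟩,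
  ⟨.m, 0, 0, 0, [⟨.c, 1, 0, []⟩, ⟨.c, 1, 0, []⟩, ⟨.x, 1, 0, []⟩]⟩,
  ⟨.m, 0, 0, 0, [⟨.c, 1, 0, []⟩, ⟨.c, 1, 0, []⟩, ⟨.x, 2, 0, []⟩]⟩,
  ⟨.m, 0, 0, 0, [⟨.c, 1, 0, []⟩, ⟨.c, 1, 0, []⟩, ⟨.x, 0, 0, []⟩]⟩,
  ⟨.m, 0, 0, 0, [⟨.c, 1, 0, []⟩, ⟨.c, 2, 0, []⟩, ⟨.c, 4, 0, []⟩]⟩,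
  ⟨.m, 0, 0, 0, [⟨.c, 1, 0, []⟩, ⟨.c, 1, 1, []⟩, ⟨.c, 2, 0, []⟩]⟩,
  ⟨.m, 0, 0, 0, [⟨.c, 1, 0, []⟩, ⟨.c, 2, 0, []⟩, ⟨.c, 4, 1, []⟩]⟩,
  ⟨.m, 0, 0, 0, [⟨.c, 0, 0, []⟩, ⟨.c, 1, 0, []⟩, ⟨.c, 2, 0, []⟩]⟩,
  ⟨.m, 0, 0, 0, [⟨.c, 1, 0, []⟩, ⟨.c, 2, 0, []⟩, ⟨.x, 1, 0, []⟩]⟩,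
  ⟨.m, 0, 0, 0, [⟨.c, 1, 0, []⟩, ⟨.c, 2, 0, []⟩, ⟨.x, 4, 0, []⟩]⟩,
  ⟨.m, 0, 0, 0, [⟨.c, 1, 0, []⟩, ⟨.c, 2, 0, []⟩, ⟨.x, 0, 0, []⟩]⟩,
  ⟨.m, 0, 0, 0, [⟨.c, 1, 0, []⟩, ⟨.c, 1, 1, []⟩, ⟨.c, 1, 1, []⟩]⟩,
  ⟨.m, 0, 0, 0, [⟨.c, 1, 0, []⟩, ⟨.c, 1, 1, []⟩, ⟨.c, 2, 1, []⟩]⟩,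
  ⟨.m, 0, 0, 0, [⟨.c, 0, 0, []⟩, ⟨.c, 1, 0, []⟩, ⟨.c, 1, 1, []⟩]⟩,
  ⟨.m, 0, 0, 0, [⟨.c, 1, 0, []⟩, ⟨.c, 1, 1, []⟩, ⟨.x, 1, 0, []⟩]⟩,
  ⟨.m, 0, 0, 0, [⟨.c, 1, 0, []⟩, ⟨.c, 1, 1, []⟩, ⟨.x, 2, 0, []⟩]⟩,
  ⟨.m, 0, 0, 0, [⟨.c, 1, 0, []⟩, ⟨.c, 1, 1, []⟩, ⟨.x, 0, 0, []⟩]⟩,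
  ⟨.m, 0, 0, 0, [⟨.c, 1, 0, []⟩, ⟨.c, 2, 1, []⟩, ⟨.c, 2, 1, []⟩]⟩,
  ⟨.m, 0, 0, 0, [⟨.c, 1, 0, []⟩, ⟨.c, 2, 1, []⟩, ⟨.c, 4, 1, []⟩]⟩,
  ⟨.m, 0, 0, 0, [⟨.c, 0, 0, []⟩, ⟨.c, 1, 0, []⟩, ⟨.c, 2, 1, []⟩]⟩,
  ⟨.m, 0, 0, 0, [⟨.c, 1, 0, []⟩, ⟨.c, 2, 1, []⟩, ⟨.x, 1, 0, []⟩]⟩,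
  ⟨.m, 0, 0, 0, [⟨.c, 1, 0, []⟩, ⟨.c, 2, 1, []⟩, ⟨.x, 2, 0, []⟩]⟩,
  ⟨.m, 0, 0, 0, [⟨.c, 1, 0, []⟩, ⟨.c, 2, 1, []⟩, ⟨.x, 4, 0, []⟩]⟩,
  ⟨.m, 0, 0, 0, [⟨.c, 1, 0, []⟩, ⟨.c, 2, 1, []⟩, ⟨.x, 0, 0, []⟩]⟩,
  ⟨.m, 0, 0, 0, [⟨.c, 0, 0, []⟩, ⟨.c, 0, 0, []⟩, ⟨.c, 1, 0, []⟩]⟩,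
  ⟨.m, 0, 0, 0, [⟨.c, 0, 0, []⟩, ⟨.c, 1, 0, []⟩, ⟨.x, 1, 0, []⟩]⟩,
  ⟨.m, 0, 0, 0, [⟨.c, 0, 0, []⟩, ⟨.c, 1, 0, []⟩, ⟨.x, 2, 0, []⟩]⟩,
  ⟨.m, 0, 0, 0, [⟨.c, 0, 0, []⟩, ⟨.c, 1, 0, []⟩, ⟨.x, 0, 0, []⟩]⟩,
  ⟨.m, 0, 0, 0, [⟨.c, 1, 0, []⟩, ⟨.x, 1, 0, []⟩, ⟨.x, 1, 0, []⟩]⟩,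
  ⟨.m, 0, 0, 0, [⟨.c, 1, 0, []⟩, ⟨.x, 1, 0, []⟩, ⟨.x, 2, 0, []⟩]⟩,
  ⟨.m, 0, 0, 0, [⟨.c, 1, 0, []⟩, ⟨.x, 0, 0, []⟩, ⟨.x, 1, 0, []⟩]⟩,
  ⟨.m, 0, 0, 0, [⟨.c, 1, 0, []⟩, ⟨.x, 2, 0, []⟩, ⟨.x, 2, 0, []⟩]⟩,
  ⟨.m, 0, 0, 0, [⟨.c, 1, 0, []⟩, ⟨.x, 2, 0, []⟩, ⟨.x, 4, 0, []⟩]⟩,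
  ⟨.m, 0, 0, 0, [⟨.c, 1, 0, []⟩, ⟨.x, 0, 0, []⟩, ⟨.x, 2, 0, []⟩]⟩,
  ⟨.m, 0, 0, 0, [⟨.c, 1, 0, []⟩, ⟨.x, 0, 0, []⟩, ⟨.x, 0, 0, []⟩]⟩,
  ⟨.m, 0, 0, 0, [⟨.c, 1, 1, []⟩, ⟨.c, 1, 1, []⟩, ⟨.c, 1, 1, []⟩]⟩,
  ⟨.m, 0, 0, 0, [⟨.c, 1, 1, []⟩, ⟨.c, 1, 1, []⟩, ⟨.c, 2, 1, []⟩]⟩,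
  ⟨.m, 0, 0, 0, [⟨.c, 0, 0, []⟩, ⟨.c, 1, 1, []⟩, ⟨.c, 1, 1, []⟩]⟩,
  ⟨.m, 0, 0, 0, [⟨.c, 1, 1, []⟩, ⟨.c, 1, 1, []⟩, ⟨.x, 1, 0, []⟩]⟩,
  ⟨.m, 0, 0, 0, [⟨.c, 1, 1, []⟩, ⟨.c, 1, 1, []⟩, ⟨.x, 2, 0, []⟩]⟩,
  ⟨.m, 0, 0, 0, [⟨.c, 1, 1, []⟩, ⟨.c, 1, 1, []⟩, ⟨.x, 0, 0, []⟩]⟩,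
  ⟨.m, 0, 0, 0, [⟨.c, 1, 1, []⟩, ⟨.c, 2, 1, []⟩, ⟨.c, 4, 1, []⟩]⟩,
  ⟨.m, 0, 0, 0, [⟨.c, 0, 0, []⟩, ⟨.c, 1, 1, []⟩, ⟨.c, 2, 1, []⟩]⟩,
  ⟨.m, 0, 0, 0, [⟨.c, 1, 1, []⟩, ⟨.c, 2, 1, []⟩, ⟨.x, 1, 0, []⟩]⟩,
  ⟨.m, 0, 0, 0, [⟨.c, 1, 1, []⟩, ⟨.c, 2, 1, []⟩, ⟨.x, 4, 0, []⟩]⟩,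
  ⟨.m, 0, 0, 0, [⟨.c, 1, 1, []⟩, ⟨.c, 2, 1, []⟩, ⟨.x, 0, 0, []⟩]⟩,
  ⟨.m, 0, 0, 0, [⟨.c, 0, 0, []⟩, ⟨.c, 0, 0, []⟩, ⟨.c, 1, 1, []⟩]⟩,
  ⟨.m, 0, 0, 0, [⟨.c, 0, 0, []⟩, ⟨.c, 1, 1, []⟩, ⟨.x, 1, 0, []⟩]⟩,
  ⟨.m, 0, 0, 0, [⟨.c, 0, 0, []⟩, ⟨.c, 1, 1, []⟩, ⟨.x, 2, 0, []⟩]⟩,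
  ⟨.m, 0, 0, 0, [⟨.c, 0, 0, []⟩, ⟨.c, 1, 1, []⟩, ⟨.x, 0, 0, []⟩]⟩,
  ⟨.m, 0, 0, 0, [⟨.c, 1, 1, []⟩, ⟨.x, 1, 0, []⟩, ⟨.x, 1, 0, []⟩]⟩,
  ⟨.m, 0, 0, 0, [⟨.c, 1, 1, []⟩, ⟨.x, 1, 0, []⟩, ⟨.x, 2, 0, []⟩]⟩,
  ⟨.m, 0, 0, 0, [⟨.c, 1, 1, []⟩, ⟨.x, 0, 0, []⟩, ⟨.x, 1, 0, []⟩]⟩,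
  ⟨.m, 0, 0, 0, [⟨.c, 1, 1, []⟩, ⟨.x, 2, 0, []⟩, ⟨.x, 2, 0, []⟩]⟩,
  ⟨.m, 0, 0, 0, [⟨.c, 1, 1, []⟩, ⟨.x, 2, 0, []⟩, ⟨.x, 4, 0, []⟩]⟩,
  ⟨.m, 0, 0, 0, [⟨.c, 1, 1, []⟩, ⟨.x, 0, 0, []⟩, ⟨.x, 2, 0, []⟩]⟩,
  ⟨.m, 0, 0, 0, [⟨.c, 1, 1, []⟩, ⟨.x, 0, 0, []⟩, ⟨.x, 0, 0, []⟩]⟩,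
  ⟨.m, 0, 0, 0, [⟨.c, 0, 0, []⟩, ⟨.c, 0, 0, []⟩, ⟨.c, 0, 0, []⟩]⟩,
  ⟨.m, 0, 0, 0, [⟨.c, 0, 0, []⟩, ⟨.c, 0, 0, []⟩, ⟨.x, 1, 0, []⟩]⟩,
  ⟨.m, 0, 0, 0, [⟨.c, 0, 0, []⟩, ⟨.c, 0, 0, []⟩, ⟨.x, 0, 0, []⟩]⟩,
  ⟨.m, 0, 0, 0, [⟨.c, 0, 0, []⟩, ⟨.x, 1, 0, []⟩, ⟨.x, 1, 0, []⟩]⟩,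
  ⟨.m, 0, 0, 0, [⟨.c, 0, 0, []⟩, ⟨.x, 1, 0, []⟩, ⟨.x, 2, 0, []⟩]⟩,
  ⟨.m, 0, 0, 0, [⟨.c, 0, 0, []⟩, ⟨.x, 0, 0, []⟩, ⟨.x, 1, 0, []⟩]⟩,
  ⟨.m, 0, 0, 0, [⟨.c, 0, 0, []⟩, ⟨.x, 0, 0, []⟩, ⟨.x, 0, 0, []⟩]⟩,
  ⟨.m, 0, 0, 0, [⟨.x, 1, 0, []⟩, ⟨.x, 1, 0, []⟩, ⟨.x, 1, 0, []⟩]⟩,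
  ⟨.m, 0, 0, 0, [⟨.x, 1, 0, []⟩, ⟨.x, 1, 0, []⟩, ⟨.x, 2, 0, []⟩]⟩,
  ⟨.m, 0, 0, 0, [⟨.x, 0, 0, []⟩, ⟨.x, 1, 0, []⟩, ⟨.x, 1, 0, []⟩]⟩,
  ⟨.m, 0, 0, 0, [⟨.x, 1, 0, []⟩, ⟨.x, 2, 0, []⟩, ⟨.x, 4, 0, []⟩]⟩,
  ⟨.m, 0, 0, 0, [⟨.x, 0, 0, []⟩, ⟨.x, 1, 0, []⟩, ⟨.x, 2, 0, []⟩]⟩,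
  ⟨.m, 0, 0, 0, [⟨.x, 0, 0, []⟩, ⟨.x, 0, 0, []⟩, ⟨.x, 1, 0, []⟩]⟩,
  ⟨.m, 0, 0, 0, [⟨.x, 0, 0, []⟩, ⟨.x, 0, 0, []⟩, ⟨.x, 0, 0, []⟩]⟩,
  ⟨.c, 7, 0, 0, []⟩,
  ⟨.c, 7, 0, 1, []⟩,
  ⟨.c, 7, 0, 0, [⟨.m, 0, 0, []⟩]⟩,
  ⟨.c, 7, 0, 0, [⟨.x, 1, 0, []⟩]⟩,
  ⟨.c, 7, 0, 0, [⟨.x, 0, 0, []⟩]⟩,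
  ⟨.c, 3, 0, 0, [⟨.m, 1, 0, []⟩]⟩,
  ⟨.c, 3, 0, 1, [⟨.m, 1, 0, []⟩]⟩,
  ⟨.c, 3, 0, 0, [⟨.m, 4, 0, []⟩]⟩,
  ⟨.c, 3, 0, 1, [⟨.m, 4, 0, []⟩]⟩,
  ⟨.c, 3, 0, 0, [⟨.m, 4, 0, []⟩, ⟨.m, 4, 0, []⟩]⟩,
  ⟨.c, 3, 0, 0, [⟨.m, 0, 0, []⟩]⟩,
  ⟨.c, 3, 0, 1, [⟨.m, 0, 0, []⟩]⟩,
  ⟨.c, 3, 0, 0, [⟨.m, 0, 0, []⟩, ⟨.m, 0, 0, []⟩]⟩,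
  ⟨.c, 3, 0, 0, [⟨.m, 0, 0, []⟩, ⟨.x, 1, 0, []⟩]⟩,
  ⟨.c, 3, 0, 0, [⟨.m, 0, 0, []⟩, ⟨.x, 0, 0, []⟩]⟩,
  ⟨.c, 3, 0, 0, [⟨.x, 1, 0, []⟩]⟩,
  ⟨.c, 3, 0, 1, [⟨.x, 1, 0, []⟩]⟩,
  ⟨.c, 3, 0, 0, [⟨.x, 1, 0, []⟩, ⟨.x, 1, 0, []⟩]⟩,
  ⟨.c, 3, 0, 0, [⟨.x, 1, 0, []⟩, ⟨.x, 4, 0, []⟩]⟩,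
  ⟨.c, 3, 0, 0, [⟨.x, 0, 0, []⟩, ⟨.x, 1, 0, []⟩]⟩,
  ⟨.c, 3, 0, 1, [⟨.x, 4, 0, []⟩]⟩,
  ⟨.c, 3, 0, 0, [⟨.x, 0, 0, []⟩]⟩,
  ⟨.c, 3, 0, 1, [⟨.x, 0, 0, []⟩]⟩,
  ⟨.c, 3, 0, 0, [⟨.x, 0, 0, []⟩, ⟨.x, 0, 0, []⟩]⟩,
  ⟨.c, 1, 0, 0, [⟨.m, 1, 0, []⟩, ⟨.m, 1, 0, []⟩]⟩,
  ⟨.c, 1, 0, 1, [⟨.m, 1, 0, []⟩, ⟨.m, 1, 0, []⟩]⟩,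
  ⟨.c, 1, 0, 0, [⟨.m, 1, 0, []⟩, ⟨.m, 2, 0, []⟩]⟩,
  ⟨.c, 1, 0, 1, [⟨.m, 1, 0, []⟩, ⟨.m, 2, 0, []⟩]⟩,
  ⟨.c, 1, 0, 0, [⟨.m, 0, 0, []⟩, ⟨.m, 1, 0, []⟩]⟩,
  ⟨.c, 1, 0, 1, [⟨.m, 0, 0, []⟩, ⟨.m, 1, 0, []⟩]⟩,
  ⟨.c, 1, 0, 0, [⟨.m, 1, 0, []⟩, ⟨.x, 1, 0, []⟩]⟩,
  ⟨.c, 1, 0, 1, [⟨.m, 1, 0, []⟩, ⟨.x, 1, 0, []⟩]⟩,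
  ⟨.c, 1, 0, 0, [⟨.m, 1, 0, []⟩, ⟨.x, 2, 0, []⟩]⟩,
  ⟨.c, 1, 0, 1, [⟨.m, 1, 0, []⟩, ⟨.x, 2, 0, []⟩]⟩,
  ⟨.c, 1, 0, 0, [⟨.m, 1, 0, []⟩, ⟨.x, 0, 0, []⟩]⟩,
  ⟨.c, 1, 0, 1, [⟨.m, 1, 0, []⟩, ⟨.x, 0, 0, []⟩]⟩,
  ⟨.c, 1, 0, 0, [⟨.m, 2, 0, []⟩, ⟨.m, 2, 0, []⟩]⟩,
  ⟨.c, 1, 0, 1, [⟨.m, 2, 0, []⟩, ⟨.m, 2, 0, []⟩]⟩,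
  ⟨.c, 1, 0, 0, [⟨.m, 2, 0, []⟩, ⟨.m, 2, 0, []⟩, ⟨.m, 2, 0, []⟩]⟩,
  ⟨.c, 1, 0, 0, [⟨.m, 2, 0, []⟩, ⟨.m, 4, 0, []⟩]⟩,
  ⟨.c, 1, 0, 1, [⟨.m, 2, 0, []⟩, ⟨.m, 4, 0, []⟩]⟩,
  ⟨.c, 1, 0, 0, [⟨.m, 0, 0, []⟩, ⟨.m, 2, 0, []⟩]⟩,
  ⟨.c, 1, 0, 1, [⟨.m, 0, 0, []⟩, ⟨.m, 2, 0, []⟩]⟩,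
  ⟨.c, 1, 0, 0, [⟨.m, 2, 0, []⟩, ⟨.x, 1, 0, []⟩]⟩,
  ⟨.c, 1, 0, 1, [⟨.m, 2, 0, []⟩, ⟨.x, 1, 0, []⟩]⟩,
  ⟨.c, 1, 0, 1, [⟨.m, 2, 0, []⟩, ⟨.x, 2, 0, []⟩]⟩,
  ⟨.c, 1, 0, 0, [⟨.m, 2, 0, []⟩, ⟨.x, 4, 0, []⟩]⟩,
  ⟨.c, 1, 0, 1, [⟨.m, 2, 0, []⟩, ⟨.x, 4, 0, []⟩]⟩,
  ⟨.c, 1, 0, 0, [⟨.m, 2, 0, []⟩, ⟨.x, 0, 0, []⟩]⟩,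
  ⟨.c, 1, 0, 1, [⟨.m, 2, 0, []⟩, ⟨.x, 0, 0, []⟩]⟩,
  ⟨.c, 1, 0, 0, [⟨.m, 0, 0, []⟩, ⟨.m, 0, 0, []⟩]⟩,
  ⟨.c, 1, 0, 1, [⟨.m, 0, 0, []⟩, ⟨.m, 0, 0, []⟩]⟩,
  ⟨.c, 1, 0, 0, [⟨.m, 0, 0, []⟩, ⟨.m, 0, 0, []⟩, ⟨.m, 0, 0, []⟩]⟩,
  ⟨.c, 1, 0, 0, [⟨.m, 0, 0, []⟩, ⟨.m, 0, 0, []⟩, ⟨.x, 1, 0, []⟩]⟩,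
  ⟨.c, 1, 0, 0, [⟨.m, 0, 0, []⟩, ⟨.x, 1, 0, []⟩]⟩,
  ⟨.c, 1, 0, 1, [⟨.m, 0, 0, []⟩, ⟨.x, 1, 0, []⟩]⟩,
  ⟨.c, 1, 0, 1, [⟨.m, 0, 0, []⟩, ⟨.x, 2, 0, []⟩]⟩,
  ⟨.c, 1, 0, 0, [⟨.m, 0, 0, []⟩, ⟨.x, 0, 0, []⟩]⟩,
  ⟨.c, 1, 0, 1, [⟨.m, 0, 0, []⟩, ⟨.x, 0, 0, []⟩]⟩,
  ⟨.c, 1, 0, 0, [⟨.m, 0, 0, []⟩, ⟨.x, 0, 0, []⟩, ⟨.x, 0, 0, []⟩]⟩,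
  ⟨.c, 1, 0, 0, [⟨.x, 1, 0, []⟩, ⟨.x, 1, 0, []⟩]⟩,
  ⟨.c, 1, 0, 1, [⟨.x, 1, 0, []⟩, ⟨.x, 1, 0, []⟩]⟩,
  ⟨.c, 1, 0, 0, [⟨.x, 1, 0, []⟩, ⟨.x, 1, 0, []⟩, ⟨.x, 1, 0, []⟩]⟩,
  ⟨.c, 1, 0, 0, [⟨.x, 1, 0, []⟩, ⟨.x, 1, 0, []⟩, ⟨.x, 2, 0, []⟩]⟩,
  ⟨.c, 1, 0, 0, [⟨.x, 0, 0, []⟩, ⟨.x, 1, 0, []⟩, ⟨.x, 1, 0, []⟩]⟩,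
  ⟨.c, 1, 0, 0, [⟨.x, 1, 0, []⟩, ⟨.x, 2, 0, []⟩]⟩,
  ⟨.c, 1, 0, 1, [⟨.x, 1, 0, []⟩, ⟨.x, 2, 0, []⟩]⟩,
  ⟨.c, 1, 0, 0, [⟨.x, 0, 0, []⟩, ⟨.x, 1, 0, []⟩]⟩,
  ⟨.c, 1, 0, 1, [⟨.x, 0, 0, []⟩, ⟨.x, 1, 0, []⟩]⟩,
  ⟨.c, 1, 0, 0, [⟨.x, 2, 0, []⟩, ⟨.x, 4, 0, []⟩]⟩,
  ⟨.c, 1, 0, 1, [⟨.x, 2, 0, []⟩, ⟨.x, 4, 0, []⟩]⟩,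
  ⟨.c, 1, 0, 0, [⟨.x, 2, 0, []⟩, ⟨.x, 4, 0, []⟩, ⟨.x, 8, 0, []⟩]⟩,
  ⟨.c, 1, 0, 0, [⟨.x, 0, 0, []⟩, ⟨.x, 2, 0, []⟩, ⟨.x, 4, 0, []⟩]⟩,
  ⟨.c, 1, 0, 0, [⟨.x, 0, 0, []⟩, ⟨.x, 2, 0, []⟩]⟩,
  ⟨.c, 1, 0, 1, [⟨.x, 0, 0, []⟩, ⟨.x, 2, 0, []⟩]⟩,
  ⟨.c, 1, 0, 0, [⟨.x, 0, 0, []⟩, ⟨.x, 0, 0, []⟩]⟩,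
  ⟨.c, 1, 0, 1, [⟨.x, 0, 0, []⟩, ⟨.x, 0, 0, []⟩]⟩,
  ⟨.c, 1, 0, 0, [⟨.x, 0, 0, []⟩, ⟨.x, 0, 0, []⟩, ⟨.x, 0, 0, []⟩]⟩,
  ⟨.c, 0, 0, 0, [⟨.m, 1, 0, []⟩, ⟨.m, 1, 0, []⟩, ⟨.m, 1, 0, []⟩]⟩,
  ⟨.c, 0, 0, 0, [⟨.m, 1, 0, []⟩, ⟨.m, 1, 0, []⟩, ⟨.m, 2, 0, []⟩]⟩,
  ⟨.c, 0, 0, 0, [⟨.m, 0, 0, []⟩, ⟨.m, 1, 0, []⟩, ⟨.m, 1, 0, []⟩]⟩,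
  ⟨.c, 0, 0, 0, [⟨.m, 1, 0, []⟩, ⟨.m, 1, 0, []⟩, ⟨.x, 2, 0, []⟩]⟩,
  ⟨.c, 0, 0, 0, [⟨.m, 1, 0, []⟩, ⟨.m, 1, 0, []⟩, ⟨.x, 0, 0, []⟩]⟩,
  ⟨.c, 0, 0, 0, [⟨.m, 1, 0, []⟩, ⟨.m, 2, 0, []⟩, ⟨.m, 4, 0, []⟩]⟩,
  ⟨.c, 0, 0, 0, [⟨.m, 0, 0, []⟩, ⟨.m, 1, 0, []⟩, ⟨.m, 2, 0, []⟩]⟩,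
  ⟨.c, 0, 0, 0, [⟨.m, 1, 0, []⟩, ⟨.m, 2, 0, []⟩, ⟨.x, 1, 0, []⟩]⟩,
  ⟨.c, 0, 0, 0, [⟨.m, 1, 0, []⟩, ⟨.m, 2, 0, []⟩, ⟨.x, 4, 0, []⟩]⟩,
  ⟨.c, 0, 0, 0, [⟨.m, 1, 0, []⟩, ⟨.m, 2, 0, []⟩, ⟨.x, 0, 0, []⟩]⟩,
  ⟨.c, 0, 0, 0, [⟨.m, 0, 0, []⟩, ⟨.m, 0, 0, []⟩, ⟨.m, 1, 0, []⟩]⟩,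
  ⟨.c, 0, 0, 0, [⟨.m, 0, 0, []⟩, ⟨.m, 1, 0, []⟩, ⟨.x, 2, 0, []⟩]⟩,
  ⟨.c, 0, 0, 0, [⟨.m, 0, 0, []⟩, ⟨.m, 1, 0, []⟩, ⟨.x, 0, 0, []⟩]⟩,
  ⟨.c, 0, 0, 0, [⟨.m, 1, 0, []⟩, ⟨.x, 1, 0, []⟩, ⟨.x, 2, 0, []⟩]⟩,
  ⟨.c, 0, 0, 0, [⟨.m, 1, 0, []⟩, ⟨.x, 0, 0, []⟩, ⟨.x, 1, 0, []⟩]⟩,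
  ⟨.c, 0, 0, 0, [⟨.m, 1, 0, []⟩, ⟨.x, 2, 0, []⟩, ⟨.x, 2, 0, []⟩]⟩,
  ⟨.c, 0, 0, 0, [⟨.m, 1, 0, []⟩, ⟨.x, 2, 0, []⟩, ⟨.x, 4, 0, []⟩]⟩,
  ⟨.c, 0, 0, 0, [⟨.m, 1, 0, []⟩, ⟨.x, 0, 0, []⟩, ⟨.x, 2, 0, []⟩]⟩,
  ⟨.c, 0, 0, 0, [⟨.m, 1, 0, []⟩, ⟨.x, 0, 0, []⟩, ⟨.x, 0, 0, []⟩]⟩,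
  ⟨.c, 0, 0, 0, [⟨.m, 0, 0, []⟩, ⟨.m, 0, 0, []⟩, ⟨.m, 0, 0, []⟩]⟩,
  ⟨.c, 0, 0, 0, [⟨.m, 0, 0, []⟩, ⟨.m, 0, 0, []⟩, ⟨.x, 0, 0, []⟩]⟩,
  ⟨.c, 0, 0, 0, [⟨.m, 0, 0, []⟩, ⟨.x, 1, 0, []⟩, ⟨.x, 2, 0, []⟩]⟩,
  ⟨.c, 0, 0, 0, [⟨.m, 0, 0, []⟩, ⟨.x, 0, 0, []⟩, ⟨.x, 1, 0, []⟩]⟩,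
  ⟨.c, 0, 0, 0, [⟨.m, 0, 0, []⟩, ⟨.x, 0, 0, []⟩, ⟨.x, 0, 0, []⟩]⟩,
  ⟨.c, 0, 0, 0, [⟨.x, 1, 0, []⟩, ⟨.x, 1, 0, []⟩, ⟨.x, 2, 0, []⟩]⟩,
  ⟨.c, 0, 0, 0, [⟨.x, 0, 0, []⟩, ⟨.x, 1, 0, []⟩, ⟨.x, 1, 0, []⟩]⟩,
  ⟨.c, 0, 0, 0, [⟨.x, 1, 0, []⟩, ⟨.x, 2, 0, []⟩, ⟨.x, 4, 0, []⟩]⟩,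
  ⟨.c, 0, 0, 0, [⟨.x, 0, 0, []⟩, ⟨.x, 1, 0, []⟩, ⟨.x, 2, 0, []⟩]⟩,
  ⟨.c, 0, 0, 0, [⟨.x, 0, 0, []⟩, ⟨.x, 0, 0, []⟩, ⟨.x, 1, 0, []⟩]⟩,
  ⟨.c, 0, 0, 0, [⟨.x, 0, 0, []⟩, ⟨.x, 0, 0, []⟩, ⟨.x, 0, 0, []⟩]⟩,
  ⟨.x, 7, 0, 0, []⟩,
  ⟨.x, 7, 0, 1, []⟩,
  ⟨.x, 7, 0, 0, [⟨.m, 0, 0, []⟩]⟩,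
  ⟨.x, 3, 0, 0, [⟨.m, 1, 0, []⟩]⟩,
  ⟨.x, 3, 0, 1, [⟨.m, 1, 0, []⟩]⟩,
  ⟨.x, 3, 0, 0, [⟨.m, 4, 0, []⟩]⟩,
  ⟨.x, 3, 0, 1, [⟨.m, 4, 0, []⟩]⟩,
  ⟨.x, 3, 0, 0, [⟨.m, 4, 0, []⟩, ⟨.m, 4, 0, []⟩]⟩,
  ⟨.x, 3, 0, 0, [⟨.m, 0, 0, []⟩, ⟨.m, 4, 0, []⟩]⟩,
  ⟨.x, 3, 0, 0, [⟨.m, 0, 0, []⟩]⟩,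
  ⟨.x, 3, 0, 1, [⟨.m, 0, 0, []⟩]⟩,
  ⟨.x, 3, 0, 0, [⟨.m, 0, 0, []⟩, ⟨.m, 0, 0, []⟩]⟩,
  ⟨.x, 3, 0, 0, [⟨.c, 1, 0, []⟩]⟩,
  ⟨.x, 3, 0, 1, [⟨.c, 1, 0, []⟩]⟩,
  ⟨.x, 3, 0, 0, [⟨.c, 4, 0, []⟩]⟩,
  ⟨.x, 3, 0, 1, [⟨.c, 4, 0, []⟩]⟩,
  ⟨.x, 3, 0, 0, [⟨.c, 1, 1, []⟩]⟩,
  ⟨.x, 3, 0, 1, [⟨.c, 1, 1, []⟩]⟩,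
  ⟨.x, 3, 0, 0, [⟨.c, 4, 1, []⟩]⟩,
  ⟨.x, 3, 0, 1, [⟨.c, 4, 1, []⟩]⟩,
  ⟨.x, 3, 0, 0, [⟨.c, 0, 0, []⟩]⟩,
  ⟨.x, 3, 0, 1, [⟨.c, 0, 0, []⟩]⟩,
  ⟨.x, 1, 0, 0, [⟨.m, 1, 0, []⟩, ⟨.m, 1, 0, []⟩]⟩,
  ⟨.x, 1, 0, 0, [⟨.m, 1, 0, []⟩, ⟨.m, 2, 0, []⟩]⟩,
  ⟨.x, 1, 0, 0, [⟨.m, 1, 0, []⟩, ⟨.m, 2, 0, []⟩, ⟨.m, 4, 0, []⟩]⟩,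
  ⟨.x, 1, 0, 0, [⟨.m, 0, 0, []⟩, ⟨.m, 1, 0, []⟩]⟩,
  ⟨.x, 1, 0, 0, [⟨.m, 1, 0, []⟩, ⟨.c, 1, 0, []⟩]⟩,
  ⟨.x, 1, 0, 0, [⟨.m, 1, 0, []⟩, ⟨.c, 2, 0, []⟩]⟩,
  ⟨.x, 1, 0, 0, [⟨.m, 1, 0, []⟩, ⟨.c, 1, 1, []⟩]⟩,
  ⟨.x, 1, 0, 0, [⟨.m, 1, 0, []⟩, ⟨.c, 2, 1, []⟩]⟩,
  ⟨.x, 1, 0, 0, [⟨.m, 1, 0, []⟩, ⟨.c, 0, 0, []⟩]⟩,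
  ⟨.x, 1, 0, 0, [⟨.m, 2, 0, []⟩, ⟨.m, 2, 0, []⟩]⟩,
  ⟨.x, 1, 0, 0, [⟨.m, 2, 0, []⟩, ⟨.m, 2, 0, []⟩, ⟨.m, 2, 0, []⟩]⟩,
  ⟨.x, 1, 0, 0, [⟨.m, 2, 0, []⟩, ⟨.m, 2, 0, []⟩, ⟨.m, 4, 0, []⟩]⟩,
  ⟨.x, 1, 0, 0, [⟨.m, 0, 0, []⟩, ⟨.m, 2, 0, []⟩, ⟨.m, 2, 0, []⟩]⟩,
  ⟨.x, 1, 0, 0, [⟨.m, 2, 0, []⟩, ⟨.m, 4, 0, []⟩]⟩,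
  ⟨.x, 1, 0, 0, [⟨.m, 0, 0, []⟩, ⟨.m, 2, 0, []⟩, ⟨.m, 4, 0, []⟩]⟩,
  ⟨.x, 1, 0, 0, [⟨.m, 0, 0, []⟩, ⟨.m, 2, 0, []⟩]⟩,
  ⟨.x, 1, 0, 0, [⟨.m, 0, 0, []⟩, ⟨.m, 0, 0, []⟩, ⟨.m, 2, 0, []⟩]⟩,
  ⟨.x, 1, 0, 0, [⟨.m, 2, 0, []⟩, ⟨.c, 1, 0, []⟩]⟩,
  ⟨.x, 1, 0, 0, [⟨.m, 2, 0, []⟩, ⟨.c, 2, 0, []⟩]⟩,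
  ⟨.x, 1, 0, 0, [⟨.m, 2, 0, []⟩, ⟨.c, 4, 0, []⟩]⟩,
  ⟨.x, 1, 0, 0, [⟨.m, 2, 0, []⟩, ⟨.c, 1, 1, []⟩]⟩,
  ⟨.x, 1, 0, 0, [⟨.m, 2, 0, []⟩, ⟨.c, 2, 1, []⟩]⟩,
  ⟨.x, 1, 0, 0, [⟨.m, 2, 0, []⟩, ⟨.c, 4, 1, []⟩]⟩,
  ⟨.x, 1, 0, 0, [⟨.m, 2, 0, []⟩, ⟨.c, 0, 0, []⟩]⟩,
  ⟨.x, 1, 0, 0, [⟨.m, 0, 0, []⟩, ⟨.m, 0, 0, []⟩]⟩,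
  ⟨.x, 1, 0, 0, [⟨.m, 0, 0, []⟩, ⟨.m, 0, 0, []⟩, ⟨.m, 0, 0, []⟩]⟩,
  ⟨.x, 1, 0, 0, [⟨.m, 0, 0, []⟩, ⟨.c, 1, 0, []⟩]⟩,
  ⟨.x, 1, 0, 0, [⟨.m, 0, 0, []⟩, ⟨.c, 2, 0, []⟩]⟩,
  ⟨.x, 1, 0, 0, [⟨.m, 0, 0, []⟩, ⟨.c, 1, 1, []⟩]⟩,
  ⟨.x, 1, 0, 0, [⟨.m, 0, 0, []⟩, ⟨.c, 2, 1, []⟩]⟩,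
  ⟨.x, 1, 0, 0, [⟨.m, 0, 0, []⟩, ⟨.c, 0, 0, []⟩]⟩,
  ⟨.x, 0, 0, 0, [⟨.m, 1, 0, []⟩, ⟨.m, 1, 0, []⟩, ⟨.m, 1, 0, []⟩]⟩,
  ⟨.x, 0, 0, 0, [⟨.m, 1, 0, []⟩, ⟨.m, 1, 0, []⟩, ⟨.m, 2, 0, []⟩]⟩,
  ⟨.x, 0, 0, 0, [⟨.m, 0, 0, []⟩, ⟨.m, 1, 0, []⟩, ⟨.m, 1, 0, []⟩]⟩,
  ⟨.x, 0, 0, 0, [⟨.m, 1, 0, []⟩, ⟨.m, 1, 0, []⟩, ⟨.c, 1, 0, []⟩]⟩,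
  ⟨.x, 0, 0, 0, [⟨.m, 1, 0, []⟩, ⟨.m, 1, 0, []⟩, ⟨.c, 2, 0, []⟩]⟩,
  ⟨.x, 0, 0, 0, [⟨.m, 1, 0, []⟩, ⟨.m, 1, 0, []⟩, ⟨.c, 1, 1, []⟩]⟩,
  ⟨.x, 0, 0, 0, [⟨.m, 1, 0, []⟩, ⟨.m, 1, 0, []⟩, ⟨.c, 2, 1, []⟩]⟩,
  ⟨.x, 0, 0, 0, [⟨.m, 1, 0, []⟩, ⟨.m, 1, 0, []⟩, ⟨.c, 0, 0, []⟩]⟩,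
  ⟨.x, 0, 0, 0, [⟨.m, 1, 0, []⟩, ⟨.m, 2, 0, []⟩, ⟨.m, 4, 0, []⟩]⟩,
  ⟨.x, 0, 0, 0, [⟨.m, 0, 0, []⟩, ⟨.m, 1, 0, []⟩, ⟨.m, 2, 0, []⟩]⟩,
  ⟨.x, 0, 0, 0, [⟨.m, 1, 0, []⟩, ⟨.m, 2, 0, []⟩, ⟨.c, 1, 0, []⟩]⟩,
  ⟨.x, 0, 0, 0, [⟨.m, 1, 0, []⟩, ⟨.m, 2, 0, []⟩, ⟨.c, 4, 0, []⟩]⟩,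
  ⟨.x, 0, 0, 0, [⟨.m, 1, 0, []⟩, ⟨.m, 2, 0, []⟩, ⟨.c, 1, 1, []⟩]⟩,
  ⟨.x, 0, 0, 0, [⟨.m, 1, 0, []⟩, ⟨.m, 2, 0, []⟩, ⟨.c, 4, 1, []⟩]⟩,
  ⟨.x, 0, 0, 0, [⟨.m, 1, 0, []⟩, ⟨.m, 2, 0, []⟩, ⟨.c, 0, 0, []⟩]⟩,
  ⟨.x, 0, 0, 0, [⟨.m, 0, 0, []⟩, ⟨.m, 0, 0, []⟩, ⟨.m, 1, 0, []⟩]⟩,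
  ⟨.x, 0, 0, 0, [⟨.m, 0, 0, []⟩, ⟨.m, 1, 0, []⟩, ⟨.c, 1, 0, []⟩]⟩,
  ⟨.x, 0, 0, 0, [⟨.m, 0, 0, []⟩, ⟨.m, 1, 0, []⟩, ⟨.c, 2, 0, []⟩]⟩,
  ⟨.x, 0, 0, 0, [⟨.m, 0, 0, []⟩, ⟨.m, 1, 0, []⟩, ⟨.c, 1, 1, []⟩]⟩,
  ⟨.x, 0, 0, 0, [⟨.m, 0, 0, []⟩, ⟨.m, 1, 0, []⟩, ⟨.c, 2, 1, []⟩]⟩,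
  ⟨.x, 0, 0, 0, [⟨.m, 0, 0, []⟩, ⟨.m, 1, 0, []⟩, ⟨.c, 0, 0, []⟩]⟩,
  ⟨.x, 0, 0, 0, [⟨.m, 0, 0, []⟩, ⟨.m, 0, 0, []⟩, ⟨.m, 0, 0, []⟩]⟩,
  ⟨.x, 0, 0, 0, [⟨.m, 0, 0, []⟩, ⟨.m, 0, 0, []⟩, ⟨.c, 1, 0, []⟩]⟩,
  ⟨.x, 0, 0, 0, [⟨.m, 0, 0, []⟩, ⟨.m, 0, 0, []⟩, ⟨.c, 1, 1, []⟩]⟩,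
  ⟨.x, 0, 0, 0, [⟨.m, 0, 0, []⟩, ⟨.m, 0, 0, []⟩, ⟨.c, 0, 0, []⟩]⟩,
  ⟨.c, 1, 0, 0, [⟨.x, 1, 0, []⟩, ⟨.x, 3, 0, []⟩]⟩,
  ⟨.c, 1, 0, 0, [⟨.x, 1, 0, []⟩, ⟨.x, 3, 1, []⟩]⟩,
  ⟨.c, 1, 0, 0, [⟨.x, 1, 0, []⟩, ⟨.x, 1, 0, [⟨.m, 1, 0⟩]⟩]⟩,
  ⟨.c, 1, 0, 0, [⟨.x, 1, 0, []⟩, ⟨.x, 1, 0, [⟨.m, 2, 0⟩]⟩]⟩,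
  ⟨.c, 1, 0, 0, [⟨.x, 1, 0, []⟩, ⟨.x, 1, 0, [⟨.m, 0, 0⟩]⟩]⟩,
  ⟨.c, 1, 0, 0, [⟨.x, 1, 0, []⟩, ⟨.x, 1, 0, []⟩, ⟨.x, 3, 0, []⟩]⟩,
  ⟨.c, 1, 0, 0, [⟨.x, 1, 0, []⟩, ⟨.x, 1, 0, []⟩, ⟨.x, 3, 1, []⟩]⟩,
  ⟨.c, 1, 0, 0, [⟨.x, 1, 0, []⟩, ⟨.x, 1, 0, []⟩, ⟨.x, 1, 0, [⟨.m, 1, 0⟩]⟩]⟩,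
  ⟨.c, 1, 0, 0, [⟨.x, 1, 0, []⟩, ⟨.x, 1, 0, []⟩, ⟨.x, 1, 0, [⟨.m, 2, 0⟩]⟩]⟩,
  ⟨.c, 1, 0, 0, [⟨.x, 1, 0, []⟩, ⟨.x, 1, 0, []⟩, ⟨.x, 1, 0, [⟨.m, 0, 0⟩]⟩]⟩,
  ⟨.c, 1, 0, 1, [⟨.x, 1, 0, []⟩, ⟨.x, 3, 0, []⟩]⟩,
  ⟨.c, 1, 0, 1, [⟨.x, 1, 0, []⟩, ⟨.x, 3, 1, []⟩]⟩,
  ⟨.c, 1, 0, 1, [⟨.x, 1, 0, []⟩, ⟨.x, 1, 0, [⟨.m, 1, 0⟩]⟩]⟩,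
  ⟨.c, 1, 0, 1, [⟨.x, 1, 0, []⟩, ⟨.x, 1, 0, [⟨.m, 2, 0⟩]⟩]⟩,
  ⟨.c, 1, 0, 1, [⟨.x, 1, 0, []⟩, ⟨.x, 1, 0, [⟨.m, 0, 0⟩]⟩]⟩,
  ⟨.c, 3, 0, 0, [⟨.x, 5, 0, []⟩]⟩,
  ⟨.c, 3, 0, 0, [⟨.x, 1, 0, [⟨.m, 1, 0⟩]⟩]⟩,
  ⟨.c, 3, 0, 0, [⟨.x, 1, 0, [⟨.m, 4, 0⟩]⟩]⟩,
  ⟨.c, 3, 0, 0, [⟨.x, 1, 0, [⟨.m, 0, 0⟩]⟩]⟩,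
  ⟨.c, 3, 0, 0, [⟨.x, 1, 0, []⟩, ⟨.x, 3, 1, []⟩]⟩,
  ⟨.c, 3, 0, 0, [⟨.x, 1, 0, []⟩, ⟨.x, 5, 0, []⟩]⟩,
  ⟨.c, 3, 0, 0, [⟨.x, 1, 0, []⟩, ⟨.x, 5, 1, []⟩]⟩,
  ⟨.c, 3, 0, 0, [⟨.x, 1, 0, []⟩, ⟨.x, 1, 0, [⟨.m, 1, 0⟩]⟩]⟩,
  ⟨.c, 3, 0, 0, [⟨.x, 1, 0, []⟩, ⟨.x, 1, 0, [⟨.m, 2, 0⟩]⟩]⟩,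
  ⟨.c, 3, 0, 0, [⟨.x, 1, 0, []⟩, ⟨.x, 1, 0, [⟨.m, 4, 0⟩]⟩]⟩,
  ⟨.c, 3, 0, 0, [⟨.x, 1, 0, []⟩, ⟨.x, 1, 0, [⟨.m, 0, 0⟩]⟩]⟩,
  ⟨.c, 3, 0, 0, [⟨.x, 3, 1, []⟩, ⟨.x, 5, 0, []⟩]⟩,
  ⟨.c, 3, 0, 0, [⟨.x, 1, 0, [⟨.m, 2, 0⟩]⟩, ⟨.x, 3, 1, []⟩]⟩,
  ⟨.c, 3, 0, 0, [⟨.x, 4, 0, []⟩, ⟨.x, 7, 0, []⟩]⟩,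
  ⟨.c, 3, 0, 0, [⟨.x, 5, 0, []⟩, ⟨.x, 7, 0, []⟩]⟩,
  ⟨.c, 3, 0, 0, [⟨.x, 5, 1, []⟩, ⟨.x, 7, 0, []⟩]⟩,
  ⟨.c, 3, 0, 1, [⟨.x, 5, 0, []⟩]⟩,
  ⟨.c, 3, 0, 1, [⟨.x, 5, 1, []⟩]⟩,
  ⟨.c, 3, 0, 1, [⟨.x, 1, 0, [⟨.m, 1, 0⟩]⟩]⟩,
  ⟨.c, 3, 0, 1, [⟨.x, 1, 0, [⟨.m, 4, 0⟩]⟩]⟩,
  ⟨.c, 3, 0, 1, [⟨.x, 1, 0, [⟨.m, 0, 0⟩]⟩]⟩,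
  ⟨.c, 7, 0, 0, [⟨.x, 3, 0, []⟩]⟩,
  ⟨.c, 7, 0, 0, [⟨.x, 3, 1, []⟩]⟩,
  ⟨.c, 7, 0, 0, [⟨.x, 11, 0, []⟩]⟩,
  ⟨.c, 7, 0, 0, [⟨.x, 1, 0, [⟨.m, 1, 0⟩]⟩]⟩,
  ⟨.c, 7, 0, 0, [⟨.x, 1, 0, [⟨.m, 8, 0⟩]⟩]⟩,
  ⟨.c, 7, 0, 0, [⟨.x, 1, 0, [⟨.m, 0, 0⟩]⟩]⟩,
  ⟨.c, 7, 0, 0, [⟨.x, 3, 0, [⟨.m, 4, 0⟩]⟩]⟩]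

end Pool.Agent.GCI
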