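import Pool.Agent.GCI.Tab2
import Pool.Agent.GCI.TabList

/-!
# MP_f1ab9c: Boolean versions of the conditions on the table (definitions)

Everything here is written for the evaluation by the kernel.
-/

set_option autoImplicit false

namespace Pool.Agent.GCI

/-! ### Arithmetic of masks -/

/-- the numbers of colours of the masks `0, ..., 31` in base `16` -/
def pcT : ℕ := 0x54434332433232214332322132212110

/-- number of colours -/
def pcf (n : ℕ) : ℕ :=
  cond (Nat.ble n 31) (Nat.land (Nat.shiftRight pcT (Nat.mul 4 n)) 15) (pc n)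

/-- the colour belongs to the mask -/
def bt (n a : ℕ) : Bool := Nat.beq (Nat.land (Nat.shiftRight n a) 1) 1

/-- the mask with a further colour -/
def adf (n a : ℕ) : ℕ := Nat.lor n (Nat.shiftLeft 1 a)

/-- there is a common colour -/
def com (m n : ℕ) : Bool := !(Nat.beq (Nat.land (Nat.land m n) 31) 0)

/-- the label is `m` -/
def L3.isM : L3 → Bool
  | .m => true
  | .c => false
  | .x => false

/-- the same label -/
def L3.eqb : L3 → L3 → Bool
  | .m, .m => true
  | .c, .c => true
  | .x, .x => true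
  | _, _ => false

/-- the number of a label -/
def L3.n : L3 → ℕ
  | .m => 0
  | .c => 1
  | .x => 2

/-- an edge `?` may be created -/
def qNewb (l : L3) (s : ℕ) : Bool :=
  match l with
  | .m => false
  | .c => true
  | .x => Nat.ble 2 (pcf s)

/-! ### Weights -/

/-- weight of a sub-branch -/
def wt0f (z : K0) : ℕ := cond (Nat.beq z.s 0) 1 (pcf z.s)

/-- weight of sub-branches -/
def sum0f : List K0 → ℕ
  | [] => 0
  | z :: τ => Nat.add (wt0f z) (sum0f τ)

/-- weight of a child -/
def wtKf (k : Kd) : ℕ :=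
  match k.t with
  | [] => cond (Nat.beq k.s 0) 1 (pcf k.s)
  | z :: τ => Nat.add (pcf k.s) (sum0f (z :: τ))

/-- weight of children -/
def sumKf : List Kd → ℕ
  | [] => 0
  | k :: κ => Nat.add (wtKf k) (sumKf κ)

/-- weight of a star -/
def wtf (R : St) : ℕ := Nat.add (Nat.add (pcf R.s) R.w) (sumKf R.k)

/-- length -/
def len {α : Type} : List α → ℕ
  | [] => 0
  | _ :: l => Nat.succ (len l)

/-- used directions -/
def usedf (R : St) : ℕ := Nat.add (Nat.add (Nat.add (pcf R.s) R.w) R.q) (len R.k)

/-! ### Keys -/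

/-- the spread masks in base `2 ^ 40` -/
def sprT : ℕ := 0x1010101010101010100010101000101010100000101000101010100010001010000010101000000010001010101000101000100010001010001000001000001010100000100010000000101000000000001010101000101010000010100010001010000000100010100010001000001000001000100000000000101010000010100000001000100000100000000000101000000010000000000010000000000

/-- spread of a mask -/
def spr (m : ℕ) : ℕ := Nat.land (Nat.shiftRight sprT (Nat.mul 40 m)) 0xffffffffff

/-- signatures of the sub-branches -/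
def vec0 (v : ℕ) : List K0 → ℕ
  | [] => v
  | z :: τ => vec0 (Nat.add (Nat.mul 2 v) (spr z.s)) τ

/-- signatures of the children -/
def vecK (v : ℕ) : List Kd → ℕ
  | [] => v
  | k :: κ => vecK (vec0 (Nat.add (Nat.mul 2 v) (spr k.s)) k.t) κ

/-- signatures of the colours -/
def vec (R : St) : ℕ := vecK (spr R.s) R.k

/-- `8 ^ x` -/
def pw (x : ℕ) : ℕ := Nat.shiftLeft 1 (Nat.mul 3 x)

/-- the multiset of the signatures -/
def mcode (v : ℕ) : ℕ :=
  Nat.add (pw (Nat.land v 255)) (Nat.add (pw (Nat.land (Nat.shiftRight v 8) 255))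
    (Nat.add (pw (Nat.land (Nat.shiftRight v 16) 255))
      (Nat.add (pw (Nat.land (Nat.shiftRight v 24) 255))
        (pw (Nat.land (Nat.shiftRight v 32) 255)))))

/-- hash of the sub-branches -/
def sh0 (h : ℕ) : List K0 → ℕ
  | [] => h
  | z :: τ => sh0 (Nat.add (Nat.mul 64 h) (Nat.add (Nat.add z.l.n 32) (Nat.mul 4 z.q))) τ

/-- hash of the children -/
def shK (h : ℕ) : List Kd → ℕ
  | [] => h
  | k :: κ => shK (sh0 (Nat.add (Nat.mul 64 h) (Nat.add (Nat.add k.l.n 16) (Nat.mul 4 k.q))) k.t) κ

/-- hash of the shape -/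
def shf (R : St) : ℕ :=
  shK (Nat.add (Nat.add R.l.n (Nat.mul 16 R.w)) (Nat.mul 4 R.q)) R.k

/-- the key -/
def key (R : St) : ℕ :=
  Nat.add (Nat.shiftLeft (mcode (vec R)) 40) (Nat.land (shf R) 0xffffffffff)

/-- search trees -/
inductive BT
  | nil
  | node (key i : ℕ) (R : St) (l r : BT)

/-- search -/
def BT.find (x : ℕ) : BT → Option St
  | .nil => none
  | .node k _ R l r => cond (Nat.beq x k) (some R) (cond (Nat.ble x k) (l.find x) (r.find x))

/-- same shape, the second one has masks less than `32` -/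
def sh0b : List K0 → List K0 → Bool
  | [], [] => true
  | z :: τ, z' :: τ' => z.l.eqb z'.l && Nat.beq z.q z'.q && Nat.ble z.s 31 && sh0b τ τ'
  | _, _ => false

/-- same shape -/
def shKb : List Kd → List Kd → Bool
  | [], [] => true
  | k :: κ, k' :: κ' => k.l.eqb k'.l && Nat.beq k.q k'.q && Nat.ble k.s 31 && sh0b k.t k'.t &&
      shKb κ κ'
  | _, _ => false

/-- same shape -/
def shb (R R' : St) : Bool :=
  R.l.eqb R'.l && Nat.beq R.w R'.w && Nat.beq R.q R'.q && Nat.ble R.s 31 && shKb R.k R'.k

/-! ### The Boolean version of `OKs` -/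

/-- the element with the number `i` and the others -/
def pick {α : Type} : ℕ → List α → Option (α × List α)
  | _, [] => none
  | 0, x :: l => some (x, l)
  | i + 1, x :: l => (pick i l).map fun p => (p.1, x :: p.2)

/-- all elements with the others -/
def sel {α : Type} : List α → List (α × List α)
  | [] => []
  | x :: l => (x, l) :: (sel l).map fun p => (p.1, x :: p.2)

/-- a sub-branch as a child -/
def ups : List K0 → List Kd
  | [] => []
  | z :: τ => ⟨z.l, z.s, z.q, []⟩ :: ups τ

/-- children without sub-branches as sub-branches -/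
def downs : List Kd → Option (List K0)
  | [] => some []
  | k :: κ => match k.t with
    | [] => (downs κ).map fun τ => ⟨k.l, k.s, k.q⟩ :: τ
    | _ :: _ => none

/-- the list is empty -/
def emp {α : Type} : List α → Bool
  | [] => true
  | _ :: _ => false

variable (look : St → Bool)

/-- the simple cases -/
def base (R : St) : Bool :=
  look R || (Nat.ble (wtf R) 2 && Nat.ble R.w 1 && Nat.ble R.q 1) ||
    (emp R.k && Nat.beq (usedf R) R.l.deg)

/-- cutting or folding at the sub-branches of a child -/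
def stepT (g : St → Bool) (R : St) (k : Kd) (κ : List Kd) : List (K0 × List K0) → Bool
  | [] => false
  | (z, τ) :: r =>
    (z.l.isM && qNewb k.l k.s && Nat.beq k.q 0 && com k.s z.s &&
      g ⟨R.l, R.s, R.w, R.q, ⟨k.l, k.s, 1, τ⟩ :: κ⟩ && g ⟨.m, z.s, 1, 0, []⟩) ||
    (Nat.beq k.s 0 && emp τ && Nat.beq (wt0f z) 1 && g ⟨R.l, R.s, R.w, R.q, ⟨k.l, 0, k.q, []⟩ :: κ⟩) ||
    stepT g R k κ r

/-- the cuts at a child, another root -/
def stepK (g : St → Bool) (R : St) : List (Kd × List Kd) → Bool
  | [] => false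
  | (k, κ) :: r =>
    (com R.s k.s && ((k.l.isM && qNewb R.l R.s && Nat.beq R.q 0 && g ⟨R.l, R.s, R.w, 1, κ⟩ &&
        g ⟨.m, k.s, 1, 0, ups k.t⟩) ||
      (R.l.isM && qNewb k.l k.s && Nat.beq k.q 0 && g ⟨R.l, R.s, Nat.succ R.w, R.q, κ⟩ &&
        g ⟨k.l, k.s, 0, 1, ups k.t⟩))) ||
    stepT g R k κ (sel k.t) ||
    ((!(Nat.beq k.s 0 && emp k.t)) && Nat.beq R.w 0 && (!(Nat.beq R.s 0 && emp κ)) &&
      match downs κ with
      | none => false
      | some τ => g ⟨k.l, k.s, 0, k.q, ⟨R.l, R.s, R.q, τ⟩ :: ups k.t⟩) ||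
    stepK g R r

/-- one more step -/
def okS (g : St → Bool) (R : St) : Bool := base look R || stepK g R (sel R.k)

/-- no step -/
def ok0 (R : St) : Bool := base look R

/-- one step -/
def ok1 (R : St) : Bool := okS look (ok0 look) R

/-- two steps -/
def ok2 (R : St) : Bool := okS look (ok1 look) R

/-- three steps -/
def ok3 (R : St) : Bool := okS look (ok2 look) R

/-- four steps -/
def ok4 (R : St) : Bool := okS look (ok3 look) R

/-! ### Moves of Alice -/

variable (ok : St → Bool)

/-- the answer with the code `c = t + 8 * i + 32 * a + 256 * j` -/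
def ansC (c : ℕ) (R : St) : Bool :=
  let t := Nat.land c 7
  let i := Nat.land (Nat.shiftRight c 3) 3
  let a := Nat.land (Nat.shiftRight c 5) 7
  let j := Nat.shiftRight c 8
  match t with
  | 0 => ok R
  | 1 => Nat.ble a 4 && !(bt R.s a) && match pick i R.k with
    | none => false
    | some (k, κ) => ok ⟨R.l, adf R.s a, R.w, R.q, κ⟩ &&
        ((Nat.beq k.s 0 && emp k.t) || (!(bt k.s a) && ok ⟨k.l, adf k.s a, 0, k.q, ups k.t⟩))
  | 2 => Nat.ble a 4 && !(bt R.s a) && !(R.l.isM) && Nat.ble (usedf R) 3 &&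
      ok ⟨R.l, adf R.s a, R.w, R.q, R.k⟩
  | 3 => match pick i R.k with
    | none => false
    | some (k, κ) => Nat.ble a 4 && !(bt k.s a) && !(Nat.beq k.s 0 && emp k.t) && !(k.l.isM) &&
        Nat.ble (Nat.add (Nat.add (pcf k.s) k.q) (len k.t)) 2 &&
        ok ⟨R.l, R.s, R.w, R.q, ⟨k.l, adf k.s a, k.q, k.t⟩ :: κ⟩
  | 4 => match pick i R.k with
    | none => false
    | some (k, κ) => match pick j k.t with
      | none => false
      | some (z, τ) => Nat.ble a 4 && !(bt k.s a) && !(bt z.s a) &&
          ok ⟨R.l, R.s, R.w, R.q, ⟨k.l, adf k.s a, k.q, τ⟩ :: κ⟩ &&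
          (Nat.beq z.s 0 || ok ⟨z.l, adf z.s a, 0, z.q, []⟩)
  | 5 => match pick i R.k with
    | none => false
    | some (k, κ) => qNewb R.l R.s && Nat.beq R.q 0 && k.l.isM && Nat.beq (pcf k.s) 1 && emp k.t &&
        Nat.ble R.s 31 && !(Nat.beq (Nat.lor R.s k.s) k.s) && ok ⟨R.l, R.s, R.w, 1, κ⟩
  | 6 => match pick i R.k with
    | none => false
    | some (k, κ) => match pick j k.t with
      | none => false
      | some (z, τ) => qNewb k.l k.s && Nat.beq k.q 0 && z.l.isM && Nat.beq (pcf z.s) 1 &&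
        Nat.ble k.s 31 && !(Nat.beq (Nat.lor k.s z.s) z.s) &&
        ok ⟨R.l, R.s, R.w, R.q, ⟨k.l, k.s, 1, τ⟩ :: κ⟩
  | _ => false

end Pool.Agent.GCI
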