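import Pool.Agent.GCI.Chk

/-!
# MP_f1ab9c: the obligations of a star (definitions)
-/

set_option autoImplicit false

namespace Pool.Agent.GCI

/-! ### FIELDS -/

/-- the colours -/
def colL : List ℕ := [0, 1, 2, 3, 4]

/-- masks with at most one colour -/
def mskL : List ℕ := [0, 1, 2, 4, 8, 16]

/-- new sub-branches -/
def newL : List K0 :=
  (mskL.map fun s => ⟨.m, s, 0⟩) ++ (mskL.map fun s => ⟨.c, s, 0⟩) ++ mskL.map fun s => ⟨.x, s, 0⟩

/-- sub-branches of weight `1` -/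
def oneL : List K0 :=
  (mskL.map fun s => ⟨.m, s, 0⟩) ++ (mskL.map fun s => ⟨.c, s, 0⟩) ++
    ([1, 2, 4, 8, 16].map fun s => ⟨.c, s, 1⟩) ++ mskL.map fun s => ⟨.x, s, 0⟩

/-- number of labels `c` -/
def cntC : List L3 → ℕ
  | [] => 0
  | l :: L => cond (l.eqb .c) (Nat.succ (cntC L)) (cntC L)

/-- no label `x` -/
def noX : List L3 → Bool
  | [] => true
  | l :: L => !(l.eqb .x) && noX L

/-- Boolean version of `nbOK` -/
def nbb (l : L3) (L : List L3) : Bool :=
  Nat.ble (len L) l.deg && match l with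
    | .m => true
    | .c => Nat.beq (cntC L) 0
    | .x => noX L && Nat.ble (cntC L) 1

/-- labels of children -/
def lbK (κ : List Kd) : List L3 := κ.map fun k => k.l

/-- labels of sub-branches -/
def lb0 (τ : List K0) : List L3 := τ.map fun z => z.l

/-- the branch is far -/
def Kd.farb (k : Kd) : Bool := Nat.beq k.s 0 && emp k.t

/-- list with at most one element -/
def opt (b : Bool) (R : St) : List St := cond b [R] []

/-- used directions at a child -/
def usK (k : Kd) : ℕ := Nat.add (Nat.add (pcf k.s) k.q) (len k.t)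

/-- all obligations of the kind `AnsS` except those for the branching of far branches -/
def obs0 (R : St) : List St :=
  (colL.flatMap fun a => opt (Nat.beq R.q 1 && !(bt R.s a)) ⟨R.l, adf R.s a, R.w, 0, R.k⟩) ++
  (colL.flatMap fun a => opt (Nat.ble (Nat.succ (usedf R)) R.l.deg && !(bt R.s a))
    ⟨R.l, adf R.s a, R.w, R.q, R.k⟩) ++
  cond (Nat.ble (Nat.succ (usedf R)) R.l.deg) (newL.flatMap fun n => opt (nbb R.l (n.l :: lbK R.k))
    ⟨R.l, R.s, R.w, R.q, ⟨n.l, n.s, n.q, []⟩ :: R.k⟩) []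

/-- the obligations at a sub-branch -/
def obsT (R : St) (k : Kd) (κ : List Kd) (p : K0 × List K0) : List St :=
  let z := p.1
  let τ := p.2
  (colL.flatMap fun a => opt (!(bt k.s a) && !(bt z.s a))
    ⟨R.l, R.s, R.w, R.q, ⟨k.l, adf k.s a, k.q, τ⟩ :: κ⟩) ++
  cond (Nat.beq z.s 0)
    (colL.flatMap fun a => [⟨R.l, R.s, R.w, R.q, ⟨k.l, k.s, k.q, ⟨z.l, Nat.shiftLeft 1 a, 0⟩ :: τ⟩ :: κ⟩])
    (colL.flatMap fun a => opt (Nat.ble (Nat.succ (Nat.succ (Nat.add (pcf z.s) z.q))) z.l.deg &&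
      !(bt z.s a)) ⟨R.l, R.s, R.w, R.q, ⟨k.l, k.s, k.q, ⟨z.l, adf z.s a, z.q⟩ :: τ⟩ :: κ⟩)

/-- the obligations at a child -/
def obsK (R : St) (p : Kd × List Kd) : List St :=
  let k := p.1
  let κ := p.2
  (colL.flatMap fun a => opt (Nat.beq k.q 1 && !(bt k.s a))
    ⟨R.l, R.s, R.w, R.q, ⟨k.l, adf k.s a, 0, k.t⟩ :: κ⟩) ++
  cond k.farb
    ((colL.flatMap fun a => opt (!(bt R.s a)) ⟨R.l, adf R.s a, R.w, R.q, κ⟩) ++
      colL.flatMap fun a => [⟨R.l, R.s, R.w, R.q, ⟨k.l, Nat.shiftLeft 1 a, 0, []⟩ :: κ⟩])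
    (cond (Nat.ble (Nat.succ (Nat.succ (usK k))) k.l.deg)
      ((colL.flatMap fun a => opt (!(bt k.s a))
        ⟨R.l, R.s, R.w, R.q, ⟨k.l, adf k.s a, k.q, k.t⟩ :: κ⟩) ++
      newL.flatMap fun n => opt (nbb k.l (R.l :: n.l :: lb0 k.t))
        ⟨R.l, R.s, R.w, R.q, ⟨k.l, k.s, k.q, n :: k.t⟩ :: κ⟩) []) ++
  (sel k.t).flatMap fun r => obsT R k κ r

/-- all obligations of the kind `AnsS` except those for the branching of far branches -/
def obs (R : St) : List St := obs0 R ++ (sel R.k).flatMap fun p => obsK R p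

variable (ok : St → Bool)

/-- check of obligations with the digits of a certificate -/
def goA : List St → ℕ → Bool
  | [], _ => true
  | R :: L, c => ansC ok (Nat.land c 511) R && goA L (Nat.shiftRight c 9)

/-- obligations for the edges to the children -/
def obsN (R : St) : List (St × St) :=
  (sel R.k).flatMap fun p => cond p.1.farb [] (colL.flatMap fun a =>
    cond (!(bt R.s a) && !(bt p.1.s a))
      [(⟨R.l, adf R.s a, R.w, R.q, p.2⟩, ⟨p.1.l, adf p.1.s a, 0, p.1.q, ups p.1.t⟩)] [])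

/-- check of the obligations for the edges to the children -/
def goN : List (St × St) → ℕ → Bool
  | [], _ => true
  | (A, B) :: L, c =>
    let x := Nat.land c 511
    let y := Nat.land (Nat.shiftRight c 9) 511
    (Nat.beq x 0 || Nat.beq y 0) && ansC ok x A && ansC ok y B && goN L (Nat.shiftRight c 18)

/-- all colours of the mask `m` have the property -/
def allC (m : ℕ) (f : ℕ → Bool) : Bool := Nat.ble m 31 && colL.all fun a => !(bt m a) || f a

/-- the colours for the edge to a far branch -/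
def mN1 (l : L3) (h : K0) (a m : ℕ) : Bool :=
  allC m fun b => !(Nat.beq a b) && ok ⟨l, adf (Nat.shiftLeft 1 a) b, 0, 0, [⟨h.l, h.s, h.q, []⟩]⟩

/-- the colours for the edge to a far branch -/
def mN2 (l : L3) (h n : K0) (m : ℕ) : Bool :=
  allC m fun b => ok ⟨l, Nat.shiftLeft 1 b, 0, 0, [⟨h.l, h.s, h.q, []⟩, ⟨n.l, n.s, n.q, []⟩]⟩

/-- the possible `(h, a)` -/
def n1L : List (K0 × ℕ) := oneL.flatMap fun h => colL.map fun a => (h, a)

/-- the possible `(h, n)` -/
def n2L : List (K0 × K0) := oneL.flatMap fun h => newL.map fun n => (h, n)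

/-- check of the first table of masks -/
def chN1 (l : L3) : List (K0 × ℕ) → List ℕ → Bool
  | [], [] => true
  | (h, a) :: L, m :: M => mN1 ok l h a m && chN1 l L M
  | _, _ => false

/-- check of the second table of masks -/
def chN2 (l : L3) : List (K0 × K0) → List ℕ → Bool
  | [], [] => true
  | (h, n) :: L, m :: M => mN2 ok l h n m && chN2 l L M
  | _, _ => false

/-- there is a common colour -/
def int (m n : ℕ) : Bool := !(Nat.beq (Nat.land m n) 0)

/-- the obligations `atf1` -/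
def goF1 (R : St) (k : Kd) (κ : List Kd) (B : ℕ) : List (K0 × ℕ) → List ℕ → ℕ → Bool
  | [], _, _ => true
  | _ :: _, [], _ => false
  | (h, a) :: L, m :: M, c =>
    cond (int m B || !(nbb k.l [R.l, h.l])) (goF1 R k κ B L M c)
      (ansC ok (Nat.land c 511) ⟨R.l, R.s, R.w, R.q, ⟨k.l, Nat.shiftLeft 1 a, 0, [h]⟩ :: κ⟩ &&
        goF1 R k κ B L M (Nat.shiftRight c 9))

/-- the obligations `atf2` -/
def goF2 (R : St) (k : Kd) (κ : List Kd) (B : ℕ) : List (K0 × K0) → List ℕ → ℕ → Bool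
  | [], _, _ => true
  | _ :: _, [], _ => false
  | (h, n) :: L, m :: M, c =>
    cond (int m B || !(nbb k.l [R.l, h.l, n.l])) (goF2 R k κ B L M c)
      (ansC ok (Nat.land c 511) ⟨R.l, R.s, R.w, R.q, ⟨k.l, 0, 0, [h, n]⟩ :: κ⟩ &&
        goF2 R k κ B L M (Nat.shiftRight c 9))

/-- the obligations `hid1` -/
def goH (l r : L3) (B0 B1 : ℕ) : List (L3 × ℕ × ℕ) → Bool
  | [] => true
  | (e, m0, m1) :: L => (!(nbb l [r, e]) || int m0 B0 || int m1 B1) && goH l r B0 B1 L

/-- tables of masks -/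
structure MT where
  n1 : L3 → List ℕ
  n2 : L3 → List ℕ
  d : L3 → List (L3 × ℕ × ℕ)

variable (X : MT)

/-- all obligations at a far child; `c = B0 + 32 * B1 + 1024 * c1 + ...` -/
def chF (R : St) (p : Kd × List Kd) (B0 B1 c1 c2 : ℕ) : Bool :=
  let k := p.1
  let κ := p.2
  allC B0 (fun a => ok ⟨R.l, R.s, R.w, R.q, ⟨k.l, Nat.shiftLeft 1 a, 0, []⟩ :: κ⟩) &&
  allC B1 (fun a => !(bt R.s a) && ok ⟨R.l, adf R.s a, R.w, R.q, κ⟩) &&
  goF1 ok R k κ B1 n1L (X.n1 k.l) c1 && goF2 ok R k κ B1 n2L (X.n2 k.l) c2 &&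
  goH k.l R.l B0 B1 (X.d k.l)

/-- all obligations at the far children -/
def goF (R : St) : List (Kd × List Kd) → List (ℕ × ℕ × ℕ × ℕ) → Bool
  | [], _ => true
  | p :: L, C => cond p.1.farb (match C with
    | [] => false
    | (B0, B1, c1, c2) :: C => chF ok X R p B0 B1 c1 c2 && goF R L C) (goF R L C)

/-- Boolean version of `Path` -/
def pathb (c : ℕ) (R : St) (κ : List Kd) (k : Kd) (τ : List K0) (Z : St) : Bool :=
  cond (Nat.ble c 4)
    (!(bt k.s c) && !(bt Z.s c) && ok ⟨R.l, R.s, R.w, R.q, ⟨k.l, adf k.s c, k.q, τ⟩ :: κ⟩ &&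
      ok ⟨Z.l, adf Z.s c, Z.w, Z.q, Z.k⟩)
    (qNewb k.l k.s && Nat.beq k.q 0 && Z.l.isM && com k.s Z.s &&
      ok ⟨R.l, R.s, R.w, R.q, ⟨k.l, k.s, 1, τ⟩ :: κ⟩ && ok ⟨Z.l, Z.s, Nat.succ Z.w, Z.q, Z.k⟩)

/-- the obligations `satt` -/
def goS (R : St) (k : Kd) (κ : List Kd) (z : K0) (τ : List K0) : List K0 → ℕ → Bool
  | [], _ => true
  | n :: L, c => cond (nbb z.l [k.l, n.l])
      (pathb ok (Nat.land c 7) R κ k τ ⟨z.l, z.s, 0, z.q, [⟨n.l, n.s, n.q, []⟩]⟩ &&
        goS R k κ z τ L (Nat.shiftRight c 3))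
      (goS R k κ z τ L c)

/-- the obligations `satf1` -/
def goS1 (R : St) (k : Kd) (κ : List Kd) (z : K0) (τ : List K0) (B : ℕ) :
    List (K0 × ℕ) → List ℕ → ℕ → Bool
  | [], _, _ => true
  | _ :: _, [], _ => false
  | (h, a) :: L, m :: M, c =>
    cond (int m B || !(nbb z.l [k.l, h.l])) (goS1 R k κ z τ B L M c)
      (pathb ok (Nat.land c 7) R κ k τ ⟨z.l, Nat.shiftLeft 1 a, 0, 0, [⟨h.l, h.s, h.q, []⟩]⟩ &&
        goS1 R k κ z τ B L M (Nat.shiftRight c 3))

/-- the obligations `satf2` -/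
def goS2 (R : St) (k : Kd) (κ : List Kd) (z : K0) (τ : List K0) (B : ℕ) :
    List (K0 × K0) → List ℕ → ℕ → Bool
  | [], _, _ => true
  | _ :: _, [], _ => false
  | (h, n) :: L, m :: M, c =>
    cond (int m B || !(nbb z.l [k.l, h.l, n.l])) (goS2 R k κ z τ B L M c)
      (pathb ok (Nat.land c 7) R κ k τ
        ⟨z.l, 0, 0, 0, [⟨h.l, h.s, h.q, []⟩, ⟨n.l, n.s, n.q, []⟩]⟩ &&
        goS2 R k κ z τ B L M (Nat.shiftRight c 3))

/-- the obligations below a sub-branch -/
def chT (R : St) (p : Kd × List Kd) (r : K0 × List K0) (B0 B1 c0 c1 c2 : ℕ) : Bool :=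
  let k := p.1
  let κ := p.2
  let z := r.1
  let τ := r.2
  cond (Nat.beq z.s 0)
    (allC B0 (fun a => ok ⟨R.l, R.s, R.w, R.q, ⟨k.l, k.s, k.q, ⟨z.l, Nat.shiftLeft 1 a, 0⟩ :: τ⟩ :: κ⟩) &&
      allC B1 (fun a => !(bt k.s a) && ok ⟨R.l, R.s, R.w, R.q, ⟨k.l, adf k.s a, k.q, τ⟩ :: κ⟩) &&
      goS1 ok R k κ z τ B1 n1L (X.n1 z.l) c1 && goS2 ok R k κ z τ B1 n2L (X.n2 z.l) c2 &&
      goH z.l k.l B0 B1 (X.d z.l))
    (goS ok R k κ z τ newL c0)

/-- all sub-branches with the others -/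
def selT (R : St) : List ((Kd × List Kd) × (K0 × List K0)) :=
  (sel R.k).flatMap fun p => (sel p.1.t).map fun r => (p, r)

/-- all obligations below the sub-branches -/
def goT (R : St) : List ((Kd × List Kd) × (K0 × List K0)) → List (ℕ × ℕ × ℕ × ℕ × ℕ) → Bool
  | [], _ => true
  | _ :: _, [] => false
  | (p, r) :: L, (B0, B1, c0, c1, c2) :: C => chT ok X R p r B0 B1 c0 c1 c2 && goT R L C

/-- no dead edges -/
def liveb (R : St) : Bool :=
  R.k.all fun k => !(Nat.beq (Nat.land (Nat.lor R.s k.s) 31) 31) &&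
    k.t.all fun z => !(Nat.beq (Nat.land (Nat.lor k.s z.s) 31) 31)

/-- the remaining simple conditions at a star; `c` is the code of a neutral move -/
def chO (R : St) (c : ℕ) : Bool :=
  Nat.ble R.w 1 && Nat.ble R.q 1 && liveb R &&
  (!(Nat.beq R.w 1) || colL.all fun a => bt R.s a || ok ⟨R.l, adf R.s a, 0, R.q, R.k⟩) &&
  ((Nat.beq (usedf R) R.l.deg && emp R.k) || (!(Nat.beq (Nat.land c 7) 0) && ansC ok c R))

/-- certificates of a star -/
structure CT where
  n : ℕ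
  a : ℕ
  o : ℕ
  f : List (ℕ × ℕ × ℕ × ℕ)
  t : List (ℕ × ℕ × ℕ × ℕ × ℕ)

/-- all conditions at a star -/
def chR (R : St) (C : CT) : Bool :=
  chO ok R C.o && goA ok (obs R) C.a && goN ok (obsN R) C.n && goF ok X R (sel R.k) C.f &&
    goT ok X R (selT R) C.t

/-- masks with `n` colours -/
def mskN (n : ℕ) : List ℕ :=
  [0, 1, 2, 3, 4, 5, 6, 7, 8, 9, 10, 11, 12, 13, 14, 15, 16, 17, 18, 19, 20, 21, 22, 23, 24, 25, 26,
    27, 28, 29, 30, 31].filter fun s => Nat.beq (pcf s) n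

/-- the elements with the rest of the list beginning with them -/
def tlP {α : Type} : List α → List (α × List α)
  | [] => []
  | x :: l => (x, x :: l) :: tlP l

/-- all multisets with `n` elements -/
def mult {α : Type} : ℕ → List α → List (List α)
  | 0, _ => [[]]
  | n + 1, l => (tlP l).flatMap fun p => (mult n p.2).map fun y => p.1 :: y

/-- the stars of attacked vertices on far branches -/
def endL (l : L3) : List St :=
  [L3.m, L3.c, L3.x].flatMap fun e => cond (nbb l [e]) ([0, 1, 2].flatMap fun n =>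
    (mskN (2 - n)).flatMap fun s => (mult n oneL).flatMap fun τ =>
      cond (nbb e (l :: lb0 τ)) ([0, 1].flatMap fun q =>
        opt (Nat.beq q 0 || (qNewb e s && !(Nat.beq s 0) &&
          Nat.ble (Nat.succ (Nat.add (Nat.add (pcf s) q) (len τ))) e.deg)) ⟨e, s, 0, q, ups τ⟩) []) []

/-- check of the masks of an attacked vertex -/
def mE (l : L3) (E : St) (m0 m1 : ℕ) : Bool :=
  allC m0 (fun a => !(bt E.s a) && ok ⟨E.l, adf E.s a, E.w, E.q, E.k⟩) && !(Nat.beq m0 0) &&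
  allC m1 (fun a => ok ⟨E.l, E.s, E.w, E.q, ⟨l, Nat.shiftLeft 1 a, 0, []⟩ :: E.k⟩)

/-- search for a triple -/
def inD (e : L3) (m0 m1 : ℕ) : List (L3 × ℕ × ℕ) → Bool
  | [] => false
  | (e', m0', m1') :: L => (e.eqb e' && Nat.beq m0 m0' && Nat.beq m1 m1') || inD e m0 m1 L

/-- check of the masks of the attacked vertices -/
def chE (l : L3) : List St → List (ℕ × ℕ) → Bool
  | [], _ => true
  | _ :: _, [] => false
  | E :: L, (m0, m1) :: M => mE ok l E m0 m1 && inD E.l m0 m1 (X.d l) && chE l L M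

/-- all stars of weight `3` -/
def g1L : List St :=
  [L3.m, L3.c, L3.x].flatMap fun e => [0, 1, 2, 3].flatMap fun n => (mult n oneL).flatMap fun τ =>
    cond (nbb e (lb0 τ)) ([0, 1].flatMap fun w => (mskN (3 - n - w)).flatMap fun s =>
      [0, 1].flatMap fun q => opt ((Nat.beq w 0 || (e.isM && !(Nat.beq s 0))) &&
        Nat.ble (Nat.add n w) 3 &&
        (Nat.beq q 0 || (qNewb e s && !(Nat.beq s 0) &&
          Nat.ble (Nat.add (Nat.add (pcf s) q) (len τ)) e.deg))) ⟨e, s, w, q, ups τ⟩) []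

end Pool.Agent.GCI
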