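import Pool.Agent.GCI.ChkS

/-!
# MP_f1ab9c: soundness of the search tree
-/

set_option autoImplicit false

namespace Pool.Agent.GCI

/-! ### Powers of `8` -/

theorem pow8_split {α : Type} (f : α → ℕ) (s : Finset α) (k : ℕ) :
    ∃ A B : ℕ, ∑ a ∈ s, 8 ^ f a = A + 8 ^ k * ((s.filter fun a => f a = k).card + 8 * B) ∧
      A * 8 ≤ 8 ^ k * s.card := by
  classical
  induction s using Finset.induction_on with
  | empty => exact ⟨0, 0, by simp, by simp⟩
  | insert x s hx ih =>
    obtain ⟨A, B, h1, h2⟩ := ih
    rw [Finset.sum_insert hx, h1, Finset.filter_insert, Finset.card_insert_of_notMem hx]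
    rcases lt_trichotomy (f x) k with h | h | h
    · refine ⟨8 ^ f x + A, B, ?_, ?_⟩
      · rw [if_neg (by omega)]
        ring
      · have h3 : 8 ^ f x * 8 ≤ 8 ^ k := by
          rw [← pow_succ]
          exact Nat.pow_le_pow_right (by norm_num) (by omega)
        calc (8 ^ f x + A) * 8 = 8 ^ f x * 8 + A * 8 := by ring
          _ ≤ 8 ^ k + 8 ^ k * s.card := Nat.add_le_add h3 h2
          _ = 8 ^ k * (s.card + 1) := by ring
    · refine ⟨A, B, ?_, ?_⟩
      · rw [if_pos h, Finset.card_insert_of_notMem fun hc => hx (Finset.mem_filter.1 hc).1, h]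
        ring
      · exact h2.trans (Nat.mul_le_mul_left _ (by omega))
    · refine ⟨A, B + 8 ^ (f x - k - 1), ?_, ?_⟩
      · rw [if_neg (by omega)]
        have h3 : (8 : ℕ) ^ f x = 8 ^ k * (8 * 8 ^ (f x - k - 1)) := by
          rw [← pow_succ', ← pow_add]
          congr 1
          omega
        rw [h3]
        ring
      · exact h2.trans (Nat.mul_le_mul_left _ (by omega))

theorem pow8_digit (f : Fin 5 → ℕ) (k : ℕ) :
    (∑ a, 8 ^ f a) / 8 ^ k % 8 = (Finset.univ.filter fun a => f a = k).card := by
  obtain ⟨A, B, h1, h2⟩ := pow8_split f Finset.univ k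
  rw [Finset.card_univ, Fintype.card_fin] at h2
  have hpos : 0 < 8 ^ k := by positivity
  have hA : A < 8 ^ k := by omega
  have hc : (Finset.univ.filter fun a => f a = k).card ≤ 5 := by
    refine (Finset.card_le_univ _).trans ?_
    rw [Fintype.card_fin]
  rw [h1, Nat.add_mul_div_left _ _ hpos, Nat.div_eq_of_lt hA, Nat.zero_add, Nat.add_mul_mod_self_left]
  exact Nat.mod_eq_of_lt (by omega)

theorem pow8_perm {f g : Fin 5 → ℕ} (h : ∑ a, 8 ^ f a = ∑ a, 8 ^ g a) :
    ∃ π : Equiv.Perm (Fin 5), ∀ a, g (π a) = f a := by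
  classical
  have hc : ∀ k, Nonempty ({a // f a = k} ≃ {a // g a = k}) := by
    intro k
    refine ⟨Fintype.equivOfCardEq ?_⟩
    rw [Fintype.card_subtype, Fintype.card_subtype, ← pow8_digit f k, ← pow8_digit g k, h]
  exact ⟨Equiv.ofFiberEquiv fun k => (hc k).some, fun a => Equiv.ofFiberEquiv_map _ _⟩

/-! ### Signatures -/

theorem toNat_inj' {a b : Bool} (h : a.toNat = b.toNat) : a = b := by
  cases a <;> cases b <;> first | rfl | cases h

/-- signature of a colour -/
def sg (a : ℕ) : ℕ → List ℕ → ℕ
  | v, [] => v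
  | v, m :: ms => sg a (2 * v + (m.testBit a).toNat) ms

/-- sum of spread masks -/
def sv : ℕ → List ℕ → ℕ
  | v, [] => v
  | v, m :: ms => sv (2 * v + spr m) ms

/-- five numbers as one -/
def cmb (f : ℕ → ℕ) : ℕ :=
  f 0 + 256 * f 1 + 65536 * f 2 + 16777216 * f 3 + 4294967296 * f 4

theorem spr_eq {m : ℕ} (h : m ≤ 31) : spr m = cmb fun a => (m.testBit a).toNat := by
  interval_cases m <;> rfl

theorem sv_eq (f : ℕ → ℕ) (ms : List ℕ) (h : ∀ m ∈ ms, m ≤ 31) :
    sv (cmb f) ms = cmb fun a => sg a (f a) ms := by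
  induction ms generalizing f with
  | nil => rfl
  | cons m ms ih =>
    have h1 : 2 * cmb f + spr m = cmb fun a => 2 * f a + (m.testBit a).toNat := by
      rw [spr_eq (h m List.mem_cons_self)]
      unfold cmb
      ring
    change sv (2 * cmb f + spr m) ms = _
    rw [h1, ih _ fun x hx => h x (List.mem_cons_of_mem _ hx)]
    rfl

theorem sg_lt (a v : ℕ) (ms : List ℕ) : sg a v ms < (v + 1) * 2 ^ ms.length := by
  induction ms generalizing v with
  | nil =>
    change v < (v + 1) * 2 ^ 0
    omega
  | cons m ms ih =>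
    have hb : (m.testBit a).toNat ≤ 1 := Bool.toNat_le _
    calc sg a v (m :: ms) < (2 * v + (m.testBit a).toNat + 1) * 2 ^ ms.length := ih _
      _ ≤ ((v + 1) * 2) * 2 ^ ms.length := Nat.mul_le_mul_right _ (by omega)
      _ = (v + 1) * 2 ^ (m :: ms).length := by
        rw [List.length_cons, pow_succ]
        ring

theorem pw_eq (x : ℕ) : pw x = 8 ^ x := by
  unfold pw
  rw [shl_eq]
  change 2 ^ (3 * x) = _
  rw [pow_mul]
  norm_num

theorem and255 (v : ℕ) : Nat.land v 255 = v % 256 := by
  change v &&& 255 = _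
  exact Nat.and_two_pow_sub_one_eq_mod v 8

theorem shr_eq (v a : ℕ) : Nat.shiftRight v a = v / 2 ^ a := by
  change v >>> a = _
  rw [Nat.shiftRight_eq_div_pow]

theorem mcode_eq {f : ℕ → ℕ} (h : ∀ a, f a < 256) : mcode (cmb f) = ∑ a : Fin 5, 8 ^ f a := by
  have h0 := h 0
  have h1 := h 1
  have h2 := h 2
  have h3 := h 3
  have h4 := h 4
  have e0 : cmb f % 256 = f 0 := by unfold cmb; omega
  have e1 : cmb f / 2 ^ 8 % 256 = f 1 := by unfold cmb; norm_num; omega
  have e2 : cmb f / 2 ^ 16 % 256 = f 2 := by unfold cmb; norm_num; omega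
  have e3 : cmb f / 2 ^ 24 % 256 = f 3 := by unfold cmb; norm_num; omega
  have e4 : cmb f / 2 ^ 32 % 256 = f 4 := by unfold cmb; norm_num; omega
  unfold mcode
  rw [and255, and255, and255, and255, and255, shr_eq, shr_eq, shr_eq, shr_eq, e0, e1, e2, e3, e4,
    pw_eq, pw_eq, pw_eq, pw_eq, pw_eq, Fin.sum_univ_five]
  change 8 ^ f 0 + (8 ^ f 1 + (8 ^ f 2 + (8 ^ f 3 + 8 ^ f 4))) = _
  change _ = 8 ^ f 0 + 8 ^ f 1 + 8 ^ f 2 + 8 ^ f 3 + 8 ^ f 4
  ring

/-- the masks of the children -/
def msK : List Kd → List ℕ
  | [] => []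
  | k :: κ => k.s :: (k.t.map K0.s ++ msK κ)

theorem sv_append (v : ℕ) (a b : List ℕ) : sv v (a ++ b) = sv (sv v a) b := by
  induction a generalizing v with
  | nil => rfl
  | cons m a ih => exact ih _

theorem vec0_eq (v : ℕ) (τ : List K0) : vec0 v τ = sv v (τ.map K0.s) := by
  induction τ generalizing v with
  | nil => rfl
  | cons z τ ih => exact ih _

theorem vecK_eq (v : ℕ) (κ : List Kd) : vecK v κ = sv v (msK κ) := by
  induction κ generalizing v with
  | nil => rfl
  | cons k κ ih =>
    change vecK (vec0 (2 * v + spr k.s) k.t) κ = sv (2 * v + spr k.s) (k.t.map K0.s ++ msK κ)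
    rw [sv_append, ih, vec0_eq]

theorem sg_inj {a a' v v' : ℕ} {ms ms' : List ℕ} (hl : ms.length = ms'.length)
    (h : sg a v ms = sg a' v' ms') :
    v = v' ∧ List.Forall₂ (fun m m' => m.testBit a = m'.testBit a') ms ms' := by
  induction ms generalizing v v' ms' with
  | nil =>
    cases ms' with
    | nil => exact ⟨h, .nil⟩
    | cons m' ms' => cases hl
  | cons m ms ih =>
    cases ms' with
    | nil => cases hl
    | cons m' ms' =>
      change sg a (2 * v + (m.testBit a).toNat) ms = sg a' (2 * v' + (m'.testBit a').toNat) ms' at h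
      rw [List.length_cons, List.length_cons] at hl
      obtain ⟨h1, h2⟩ := ih (by omega) h
      have hb : (m.testBit a).toNat ≤ 1 := Bool.toNat_le _
      have hb' : (m'.testBit a').toNat ≤ 1 := Bool.toNat_le _
      have h3 : (m.testBit a).toNat = (m'.testBit a').toNat := by omega
      refine ⟨by omega, .cons (toNat_inj' h3) h2⟩

theorem mask_hs {m : ℕ} (h : m ≤ 31) : mask (Finset.univ.filter fun i => hs m i) = m := by
  interval_cases m <;> rfl

theorem pmask_eq {π : Equiv.Perm (Fin 5)} {m m' : ℕ} (hm : m' ≤ 31)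
    (h : ∀ a : Fin 5, m.testBit a = m'.testBit (π a)) : pmask π m = m' := by
  unfold pmask
  have : (Finset.univ.filter fun i => hs m i).image π = Finset.univ.filter fun i => hs m' i := by
    ext i
    rw [Finset.mem_image, Finset.mem_filter]
    constructor
    · rintro ⟨a, ha, rfl⟩
      rw [Finset.mem_filter] at ha
      refine ⟨Finset.mem_univ _, ?_⟩
      unfold hs at ha ⊢
      rw [← h a]
      exact ha.2
    · intro hi
      refine ⟨π.symm i, ?_, π.apply_symm_apply i⟩
      rw [Finset.mem_filter]
      refine ⟨Finset.mem_univ _, ?_⟩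
      unfold hs at hi ⊢
      rw [h, π.apply_symm_apply]
      exact hi.2
  rw [this, mask_hs hm]

theorem forall2_all {ms ms' : List ℕ} {π : Equiv.Perm (Fin 5)}
    (h : ∀ a : Fin 5, List.Forall₂ (fun m m' => m.testBit a = m'.testBit (π a)) ms ms')
    (hm : ∀ m ∈ ms', m ≤ 31) : List.Forall₂ (fun m m' => pmask π m = m') ms ms' := by
  induction ms generalizing ms' with
  | nil =>
    cases h 0
    exact .nil
  | cons m ms ih =>
    cases ms' with
    | nil => cases h 0
    | cons m' ms' =>
      refine .cons (pmask_eq (hm _ List.mem_cons_self) fun a => ?_) (ih (fun a => ?_) fun x hx =>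
        hm x (List.mem_cons_of_mem _ hx))
      · have := h a
        rw [List.forall₂_cons] at this
        exact this.1
      · have := h a
        rw [List.forall₂_cons] at this
        exact this.2

/-! ### Shapes -/

theorem sh0b_spec {τ τ' : List K0} {π : Equiv.Perm (Fin 5)} (h : sh0b τ τ' = true) :
    (∀ z ∈ τ, z.s ≤ 31) ∧ τ.length = τ'.length ∧
      (List.Forall₂ (fun m m' => pmask π m = m') (τ.map K0.s) (τ'.map K0.s) →
        τ.map (fun z => { z with s := pmask π z.s }) = τ') := by
  induction τ generalizing τ' with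
  | nil =>
    cases τ' with
    | nil => exact ⟨fun z hz => (by cases hz), rfl, fun _ => rfl⟩
    | cons z τ' => exact absurd h Bool.false_ne_true
  | cons z τ ih =>
    cases τ' with
    | nil => exact absurd h Bool.false_ne_true
    | cons z' τ' =>
      obtain ⟨l, s, q⟩ := z
      obtain ⟨l', s', q'⟩ := z'
      unfold sh0b at h
      simp only [Bool.and_eq_true] at h
      obtain ⟨⟨⟨h1, h2⟩, h3⟩, h4⟩ := h
      obtain ⟨i1, i2, i3⟩ := ih h4
      have e1 := eqb_spec h1
      have e2 := beq_eq h2
      have e3 := Nat.le_of_ble_eq_true h3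
      refine ⟨?_, by rw [List.length_cons, List.length_cons, i2], ?_⟩
      · intro x hx
        rw [List.mem_cons] at hx
        rcases hx with rfl | hx
        · exact e3
        · exact i1 x hx
      · intro hf
        rw [List.map_cons, List.map_cons, List.forall₂_cons] at hf
        rw [List.map_cons, i3 hf.2]
        change (⟨l, pmask π s, q⟩ : K0) :: τ' = _
        rw [show pmask π s = s' from hf.1]
        change l = l' at e1
        change q = q' at e2
        rw [e1, e2]

theorem msK_length_cons (k : Kd) (κ : List Kd) :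
    (msK (k :: κ)).length = 1 + (k.t.length + (msK κ).length) := by
  change (k.s :: (k.t.map K0.s ++ msK κ)).length = _
  rw [List.length_cons, List.length_append, List.length_map]
  omega

theorem shKb_spec {κ κ' : List Kd} {π : Equiv.Perm (Fin 5)} (h : shKb κ κ' = true) :
    (∀ m ∈ msK κ, m ≤ 31) ∧ (msK κ).length = (msK κ').length ∧
      (List.Forall₂ (fun m m' => pmask π m = m') (msK κ) (msK κ') →
        (κ.map fun k => { k with s := pmask π k.s, t := k.t.map fun z =>
          { z with s := pmask π z.s } }) = κ') := by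
  induction κ generalizing κ' with
  | nil =>
    cases κ' with
    | nil => exact ⟨fun z hz => (by cases hz), rfl, fun _ => rfl⟩
    | cons z τ' => exact absurd h Bool.false_ne_true
  | cons z κ ih =>
    cases κ' with
    | nil => exact absurd h Bool.false_ne_true
    | cons z' κ' =>
      obtain ⟨l, s, q, t⟩ := z
      obtain ⟨l', s', q', t'⟩ := z'
      unfold shKb at h
      simp only [Bool.and_eq_true] at h
      obtain ⟨⟨⟨⟨h1, h2⟩, h3⟩, h5⟩, h4⟩ := h
      obtain ⟨i1, i2, i3⟩ := ih h4
      obtain ⟨j1, j2, j3⟩ := sh0b_spec (π := π) h5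
      have e1 := eqb_spec h1
      have e2 := beq_eq h2
      have e3 := Nat.le_of_ble_eq_true h3
      change t.length = t'.length at j2
      refine ⟨?_, ?_, ?_⟩
      · intro x hx
        change x ∈ s :: (t.map K0.s ++ msK κ) at hx
        rw [List.mem_cons, List.mem_append, List.mem_map] at hx
        rcases hx with rfl | ⟨z, hz, rfl⟩ | hx
        · exact e3
        · exact j1 z hz
        · exact i1 x hx
      · rw [msK_length_cons, msK_length_cons, i2]
        change 1 + (t.length + _) = 1 + (t'.length + _)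
        rw [j2]
      · intro hf
        change List.Forall₂ _ (s :: (t.map K0.s ++ msK κ)) (s' :: (t'.map K0.s ++ msK κ')) at hf
        rw [List.forall₂_cons] at hf
        obtain ⟨f1, f2⟩ := hf
        have f3 := List.forall₂_take t.length f2
        have f4 := List.forall₂_drop t.length f2
        rw [List.take_left' (by rw [List.length_map]),
          List.take_left' (by rw [List.length_map, j2])] at f3
        rw [List.drop_left' (by rw [List.length_map]),
          List.drop_left' (by rw [List.length_map, j2])] at f4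
        rw [List.map_cons, i3 f4]
        change (⟨l, pmask π s, q, t.map _⟩ : Kd) :: κ' = _
        change l = l' at e1
        change q = q' at e2
        have j4 := j3 f3
        change t.map _ = t' at j4
        rw [j4, f1, e1, e2]

/-- the masks of a star -/
def msS (R : St) : List ℕ := R.s :: msK R.k

/-- the signature of a colour -/
def sig (R : St) (a : ℕ) : ℕ := sg a (R.s.testBit a).toNat (msK R.k)

theorem vec_eq {R : St} (h : ∀ m ∈ msS R, m ≤ 31) : vec R = cmb (sig R) := by
  unfold vec
  rw [vecK_eq, spr_eq (h _ List.mem_cons_self), sv_eq _ _ fun m hm => h m (List.mem_cons_of_mem _ hm)]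
  rfl

theorem sig_lt {R : St} (h : (msS R).length ≤ 8) (a : ℕ) : sig R a < 256 := by
  have hb : (R.s.testBit a).toNat ≤ 1 := Bool.toNat_le _
  have h1 := sg_lt a (R.s.testBit a).toNat (msK R.k)
  have h2 : (msK R.k).length ≤ 7 := by
    have : (msS R).length = (msK R.k).length + 1 := List.length_cons
    omega
  calc sig R a < ((R.s.testBit a).toNat + 1) * 2 ^ (msK R.k).length := h1
    _ ≤ 2 * 2 ^ 7 := Nat.mul_le_mul (by omega) (Nat.pow_le_pow_right (by norm_num) h2)
    _ = 256 := by norm_num

/-- Stars with the same shape and the same key differ by a permutation of the colours. -/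
theorem col_of_shb {R R' : St} (h : shb R R' = true) (hm : mcode (vec R) = mcode (vec R'))
    (hl : (msS R').length ≤ 8) (hs' : ∀ m ∈ msS R', m ≤ 31) :
    ∃ π : Equiv.Perm (Fin 5), R.col π = R' := by
  unfold shb at h
  simp only [Bool.and_eq_true] at h
  obtain ⟨⟨⟨⟨h1, h2⟩, h3⟩, h4⟩, h5⟩ := h
  obtain ⟨i1, i2, -⟩ := shKb_spec (π := 1) h5
  have e1 := eqb_spec h1
  have e2 := beq_eq h2
  have e3 := beq_eq h3
  have e4 := Nat.le_of_ble_eq_true h4
  have hR : ∀ m ∈ msS R, m ≤ 31 := by
    intro m hm
    unfold msS at hm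
    rw [List.mem_cons] at hm
    rcases hm with rfl | hm
    · exact e4
    · exact i1 m hm
  have hlR : (msS R).length ≤ 8 := by
    unfold msS at hl ⊢
    rw [List.length_cons] at hl ⊢
    omega
  rw [vec_eq hR, vec_eq hs', mcode_eq (sig_lt hlR), mcode_eq (sig_lt hl)] at hm
  obtain ⟨π, hπ⟩ := pow8_perm hm
  refine ⟨π, ?_⟩
  have hall : ∀ a : Fin 5, (R.s.testBit a).toNat = (R'.s.testBit (π a)).toNat ∧
      List.Forall₂ (fun m m' => m.testBit a = m'.testBit (π a)) (msK R.k) (msK R'.k) :=
    fun a => sg_inj i2 (hπ a).symm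
  obtain ⟨-, -, i3⟩ := shKb_spec (π := π) h5
  have i4 := i3 (forall2_all (fun a => (hall a).2) fun m hm => hs' m (List.mem_cons_of_mem _ hm))
  have i5 : pmask π R.s = R'.s := pmask_eq (hs' _ List.mem_cons_self) fun a =>
    toNat_inj' (hall a).1
  unfold St.col
  rw [i4, i5, e1, e2, e3]

/-! ### The search tree -/

/-- all entries of the search tree have the property -/
def BT.all (f : ℕ → ℕ → St → Bool) : BT → Bool
  | .nil => true
  | .node k i R l r => f k i R && (l.all f && r.all f)

theorem BT.find_spec {f : ℕ → ℕ → St → Bool} {x : ℕ} {R : St} {b : BT} (h : b.all f = true)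
    (hf : b.find x = some R) : ∃ i, f x i R = true := by
  induction b with
  | nil => cases hf
  | node k i R' l r ihl ihr =>
    unfold BT.all at h
    simp only [Bool.and_eq_true] at h
    obtain ⟨h1, h2, h3⟩ := h
    unfold BT.find at hf
    cases hx : Nat.beq x k with
    | true =>
      rw [hx, cond_true] at hf
      cases hf
      rw [beq_eq hx]
      exact ⟨i, h1⟩
    | false =>
      rw [hx, cond_false] at hf
      cases hy : Nat.ble x k with
      | true =>
        rw [hy, cond_true] at hf
        exact ihl h2 hf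
      | false =>
        rw [hy, cond_false] at hf
        exact ihr h3 hf

end Pool.Agent.GCI
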