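import Pool.Agent.GCI.ChkL

/-!
# MP_f1ab9c: soundness of the Boolean versions of `OKs` and `AnsS`
-/

set_option autoImplicit false

namespace Pool.Agent.GCI

variable {T : St → Prop}

theorem not_far_spec {k : Kd} (h : (!(Nat.beq k.s 0 && emp k.t)) = true) : ¬ k.Far := by
  rintro ⟨h1, h2⟩
  rw [h1, h2] at h
  exact absurd h Bool.false_ne_true

theorem far_spec {k : Kd} (h : (Nat.beq k.s 0 && emp k.t) = true) : k.Far := by
  rw [Bool.and_eq_true] at h
  exact ⟨beq_eq h.1, emp_spec h.2⟩

theorem base_sound {look : St → Bool} (hl : ∀ R, look R = true → OKs T R) {R : St}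
    (h : base look R = true) : OKs T R := by
  unfold base at h
  simp only [Bool.or_eq_true, Bool.and_eq_true] at h
  rcases h with (h | h) | h
  · exact hl R h
  · refine OKs.small ?_ (Nat.le_of_ble_eq_true h.1.2) (Nat.le_of_ble_eq_true h.2)
    rw [← wtf_eq]
    exact Nat.le_of_ble_eq_true h.1.1
  · refine OKs.full ?_ (emp_spec h.1)
    rw [← usedf_eq]
    exact beq_eq h.2

theorem stepT_sound {g : St → Bool} (hg : ∀ R, g R = true → OKs T R) {R : St} {k : Kd}
    {κ : List Kd} (hp : R.k.Perm (k :: κ)) {L : List (K0 × List K0)}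
    (hL : ∀ p ∈ L, k.t.Perm (p.1 :: p.2)) (h : stepT g R k κ L = true) : OKs T R := by
  induction L with
  | nil => exact absurd h Bool.false_ne_true
  | cons p L ih =>
    obtain ⟨z, τ⟩ := p
    unfold stepT at h
    rw [Bool.or_eq_true, Bool.or_eq_true] at h
    have hz := hL _ List.mem_cons_self
    rcases h with (h | h) | h
    · simp only [Bool.and_eq_true] at h
      obtain ⟨⟨⟨⟨⟨h1, h2⟩, h3⟩, h4⟩, h5⟩, h6⟩ := h
      refine OKs.perm (k :: κ) hp ?_
      refine OKs.permt (z :: τ) rfl hz ?_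
      exact OKs.cutk rfl rfl (qNewb_spec h2) (beq_eq h3) (isM_spec h1) (com_spec h4) (hg _ h5)
        (hg _ h6)
    · simp only [Bool.and_eq_true] at h
      obtain ⟨⟨⟨h1, h2⟩, h3⟩, h4⟩ := h
      have h2' := emp_spec h2
      subst h2'
      refine OKs.perm (k :: κ) hp ?_
      refine OKs.permt [z] rfl hz ?_
      refine OKs.fold rfl (beq_eq h1) rfl ?_ (hg _ h4)
      rw [← wt0f_eq]
      exact beq_eq h3
    · exact ih (fun p hp => hL p (List.mem_cons_of_mem _ hp)) h

theorem stepK_sound {g : St → Bool} (hg : ∀ R, g R = true → OKs T R) {R : St}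
    {L : List (Kd × List Kd)} (hL : ∀ p ∈ L, R.k.Perm (p.1 :: p.2)) (h : stepK g R L = true) :
    OKs T R := by
  induction L with
  | nil => exact absurd h Bool.false_ne_true
  | cons p L ih =>
    obtain ⟨k, κ⟩ := p
    unfold stepK at h
    rw [Bool.or_eq_true, Bool.or_eq_true, Bool.or_eq_true] at h
    have hz : R.k.Perm (k :: κ) := hL _ List.mem_cons_self
    rcases h with ((h | h) | h) | h
    · rw [Bool.and_eq_true, Bool.or_eq_true] at h
      obtain ⟨h0, h⟩ := h
      rcases h with h | h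
      · simp only [Bool.and_eq_true] at h
        obtain ⟨⟨⟨⟨h1, h2⟩, h3⟩, h4⟩, h5⟩ := h
        rw [ups_eq] at h5
        refine OKs.perm (k :: κ) hz ?_
        exact OKs.cutm rfl (qNewb_spec h2) (beq_eq h3) (isM_spec h1) (com_spec h0) (hg _ h4)
          (hg _ h5)
      · simp only [Bool.and_eq_true] at h
        obtain ⟨⟨⟨⟨h1, h2⟩, h3⟩, h4⟩, h5⟩ := h
        rw [ups_eq] at h5
        refine OKs.perm (k :: κ) hz ?_
        exact OKs.cutv rfl (isM_spec h1) (qNewb_spec h2) (beq_eq h3) (com_spec h0) (hg _ h4)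
          (hg _ h5)
    · exact stepT_sound hg hz (fun p hp => sel_perm hp) h
    · rw [Bool.and_eq_true, Bool.and_eq_true, Bool.and_eq_true] at h
      obtain ⟨⟨⟨h1, h2⟩, h3⟩, h4⟩ := h
      cases hd : downs κ with
      | none =>
        rw [hd] at h4
        exact absurd h4 Bool.false_ne_true
      | some τ =>
        rw [hd] at h4
        have hκ := downs_spec hd
        rw [ups_eq] at h4
        refine OKs.perm (k :: κ) hz ?_
        refine OKs.rr (κ := τ) (by rw [← hκ]) (not_far_spec h1) ?_ (beq_eq h2) (hg _ h4)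
        by_cases hs : R.s = 0
        · right
          rintro rfl
          rw [hκ, hs] at h3
          exact absurd h3 Bool.false_ne_true
        · exact Or.inl hs
    · exact ih (fun p hp => hL p (List.mem_cons_of_mem _ hp)) h

theorem okS_sound {look g : St → Bool} (hl : ∀ R, look R = true → OKs T R)
    (hg : ∀ R, g R = true → OKs T R) {R : St} (h : okS look g R = true) : OKs T R := by
  unfold okS at h
  rw [Bool.or_eq_true] at h
  rcases h with h | h
  · exact base_sound hl h
  · exact stepK_sound hg (fun p hp => sel_perm hp) h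

theorem ok2_sound {look : St → Bool} (hl : ∀ R, look R = true → OKs T R) {R : St}
    (h : ok2 look R = true) : OKs T R :=
  okS_sound hl (fun _ h => okS_sound hl (fun _ h => base_sound hl h) h) h

theorem ab5 {a : ℕ} (h : Nat.ble a 4 = true) : ∃ b : Fin 5, b.1 = a :=
  ⟨⟨a, by have := Nat.le_of_ble_eq_true h; omega⟩, rfl⟩

theorem not_bt {n : ℕ} {a : Fin 5} (h : (!(bt n a.1)) = true) : ¬ hs n a := by
  rw [bt_hs] at h
  intro h1
  rw [h1] at h
  exact Bool.false_ne_true h

theorem bt_not {n : ℕ} {a : Fin 5} (h : ¬ hs n a) : (!(bt n a.1)) = true := by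
  rw [bt_hs]
  cases hh : hs n a with
  | true => exact absurd hh h
  | false => rfl

/-- a colour of the first mask which is not in the second mask -/
theorem exists_diff {m n : ℕ} (hm : m ≤ 31) (h : Nat.lor m n ≠ n) :
    ∃ a : Fin 5, hs m a ∧ ¬ hs n a := by
  by_contra hc
  push Not at hc
  apply h
  change m ||| n = n
  apply Nat.eq_of_testBit_eq
  intro i
  rw [Nat.testBit_or]
  by_cases hi : i < 5
  · cases hb : m.testBit i with
    | false => rw [Bool.false_or]
    | true =>
      have := hc ⟨i, hi⟩ hb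
      unfold hs at this
      rw [show n.testBit i = true from this]
      rfl
  · have h32 : m < 2 ^ i := lt_of_lt_of_le (by omega : m < 2 ^ 5)
      (Nat.pow_le_pow_right (by norm_num) (by omega))
    rw [Nat.testBit_eq_false_of_lt h32, Bool.false_or]

theorem ansC_sound {ok : St → Bool} (hok : ∀ R, ok R = true → OKs T R) {c : ℕ} {R : St}
    (h : ansC ok c R = true) : (Nat.land c 7 = 0 ∧ OKs T R) ∨ (Nat.land c 7 ≠ 0 ∧ MvS T R) := by
  unfold ansC at h
  dsimp only at h
  split at h
  next h0 => exact Or.inl ⟨h0, hok _ h⟩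
  next h0 =>
    refine Or.inr ⟨by omega, ?_⟩
    simp only [Bool.and_eq_true] at h
    obtain ⟨⟨ha, hb⟩, h⟩ := h
    obtain ⟨a, ha'⟩ := ab5 ha
    rw [← ha'] at h hb
    split at h
    next => exact absurd h Bool.false_ne_true
    next k κ hp =>
      rw [Bool.and_eq_true, Bool.or_eq_true] at h
      obtain ⟨h1, h2⟩ := h
      rw [adf_eq] at h1
      refine ⟨_, Or.inl ?_, hok _ h1⟩
      rcases h2 with h2 | h2
      · exact Mv.far a (pick_spec hp) (far_spec h2) (not_bt hb)
      · rw [Bool.and_eq_true] at h2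
        obtain ⟨h2, h3⟩ := h2
        rw [ups_eq, adf_eq] at h3
        by_cases hf : k.Far
        · exact Mv.far a (pick_spec hp) hf (not_bt hb)
        · exact Mv.near a (pick_spec hp) hf (not_bt hb) (not_bt h2) (hok _ h3)
  next h0 =>
    refine Or.inr ⟨by omega, ?_⟩
    simp only [Bool.and_eq_true] at h
    obtain ⟨⟨⟨⟨ha, hb⟩, h1⟩, h2⟩, h3⟩ := h
    obtain ⟨a, ha'⟩ := ab5 ha
    rw [← ha'] at h3 hb
    rw [adf_eq] at h3
    refine ⟨_, Or.inl (Mv.free a (not_isM_spec h1) ?_ (not_bt hb)), hok _ h3⟩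
    rw [← usedf_eq]
    exact Nat.lt_succ_of_le (Nat.le_of_ble_eq_true h2)
  next h0 =>
    refine Or.inr ⟨by omega, ?_⟩
    split at h
    next => exact absurd h Bool.false_ne_true
    next k κ hp =>
      simp only [Bool.and_eq_true] at h
      obtain ⟨⟨⟨⟨⟨ha, hb⟩, h1⟩, h2⟩, h3⟩, h4⟩ := h
      obtain ⟨a, ha'⟩ := ab5 ha
      rw [← ha'] at h4 hb
      rw [adf_eq] at h4
      refine ⟨_, Or.inl (Mv.fkid a (pick_spec hp) (not_far_spec h1) (not_isM_spec h2) ?_
        (not_bt hb)), hok _ h4⟩
      rw [← pcf_eq, ← len_eq]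
      exact Nat.lt_succ_of_le (Nat.le_of_ble_eq_true h3)
  next h0 =>
    refine Or.inr ⟨by omega, ?_⟩
    split at h
    next => exact absurd h Bool.false_ne_true
    next k κ hp =>
      split at h
      next => exact absurd h Bool.false_ne_true
      next z τ hp' =>
        rw [Bool.and_eq_true, Bool.and_eq_true, Bool.and_eq_true, Bool.and_eq_true,
          Bool.or_eq_true] at h
        obtain ⟨⟨⟨⟨ha, hb⟩, h1⟩, h2⟩, h3⟩ := h
        obtain ⟨a, ha'⟩ := ab5 ha
        rw [← ha'] at h1 h2 h3 hb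
        rw [adf_eq] at h2 h3
        refine ⟨_, Or.inl (Mv.sub a (pick_spec hp) (pick_spec hp') (not_bt hb) (not_bt h1) ?_),
          hok _ h2⟩
        intro hz
        rcases h3 with h3 | h3
        · exact absurd (beq_eq h3) hz
        · exact hok _ h3
  next h0 =>
    refine Or.inr ⟨by omega, ?_⟩
    split at h
    next => exact absurd h Bool.false_ne_true
    next k κ hp =>
      simp only [Bool.and_eq_true] at h
      obtain ⟨⟨⟨⟨⟨⟨⟨h1, h2⟩, h3⟩, h4⟩, h5⟩, h6⟩, h7⟩, h8⟩ := h
      obtain ⟨a, ha1, ha2⟩ := exists_diff (Nat.le_of_ble_eq_true h6) (beq_ne h7)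
      have h4' := beq_eq h4
      rw [pcf_eq] at h4'
      exact ⟨_, Or.inr (Cmp.root (pick_spec hp) (qNewb_spec h1) (beq_eq h2) (isM_spec h3) h4'
        (emp_spec h5) ha1 ha2), hok _ h8⟩
  next h0 =>
    refine Or.inr ⟨by omega, ?_⟩
    split at h
    next => exact absurd h Bool.false_ne_true
    next k κ hp =>
      split at h
      next => exact absurd h Bool.false_ne_true
      next z τ hp' =>
        simp only [Bool.and_eq_true] at h
        obtain ⟨⟨⟨⟨⟨⟨h1, h2⟩, h3⟩, h4⟩, h6⟩, h7⟩, h8⟩ := h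
        obtain ⟨a, ha1, ha2⟩ := exists_diff (Nat.le_of_ble_eq_true h6) (beq_ne h7)
        have h4' := beq_eq h4
        rw [pcf_eq] at h4'
        exact ⟨_, Or.inr (Cmp.sub (pick_spec hp) (pick_spec hp') (qNewb_spec h1) (beq_eq h2)
          (isM_spec h3) h4' ha1 ha2), hok _ h8⟩
  next => exact absurd h Bool.false_ne_true

theorem ansC_ans {ok : St → Bool} (hok : ∀ R, ok R = true → OKs T R) {c : ℕ} {R : St}
    (h : ansC ok c R = true) : AnsS T R := by
  rcases ansC_sound hok h with h | h
  · exact Or.inl h.2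
  · exact Or.inr h.2

end Pool.Agent.GCI
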