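import Pool.Agent.GCI.ChkM

/-!
# MP_f1ab9c: soundness of the conditions at a star, first part
-/

set_option autoImplicit false

namespace Pool.Agent.GCI

variable {T : St → Prop}

/-! ### Permutations of the children -/

theorem OKs.pm {l : L3} {s w q : ℕ} {κ κ' : List Kd} (h : OKs T ⟨l, s, w, q, κ⟩)
    (hp : κ.Perm κ') : OKs T ⟨l, s, w, q, κ'⟩ :=
  OKs.perm (R := ⟨l, s, w, q, κ'⟩) κ hp.symm h

theorem MvS.pm {l : L3} {s w q : ℕ} {κ κ' : List Kd} (h : MvS T ⟨l, s, w, q, κ⟩)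
    (hp : κ.Perm κ') : MvS T ⟨l, s, w, q, κ'⟩ := by
  obtain ⟨R', hm, ho⟩ := h
  rcases hm with hm | hm
  · cases hm with
    | near a h1 h2 h3 h4 h5 => exact ⟨_, Or.inl (Mv.near a (hp.symm.trans h1) h2 h3 h4 h5), ho⟩
    | far a h1 h2 h3 => exact ⟨_, Or.inl (Mv.far a (hp.symm.trans h1) h2 h3), ho⟩
    | free a h1 h2 h3 =>
      refine ⟨_, Or.inl (Mv.free a h1 ?_ h3), ho.pm hp⟩
      unfold St.used at h2 ⊢
      rw [← hp.length_eq]
      exact h2
    | fkid a h1 h2 h3 h4 h5 => exact ⟨_, Or.inl (Mv.fkid a (hp.symm.trans h1) h2 h3 h4 h5), ho⟩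
    | sub a h1 h2 h3 h4 h5 => exact ⟨_, Or.inl (Mv.sub a (hp.symm.trans h1) h2 h3 h4 h5), ho⟩
  · cases hm with
    | root h1 h2 h3 h4 h5 h6 h7 h8 =>
      exact ⟨_, Or.inr (Cmp.root (hp.symm.trans h1) h2 h3 h4 h5 h6 h7 h8), ho⟩
    | sub h1 h2 h3 h4 h5 h6 h7 h8 =>
      exact ⟨_, Or.inr (Cmp.sub (hp.symm.trans h1) h2 h3 h4 h5 h6 h7 h8), ho⟩

theorem AnsS.pm {l : L3} {s w q : ℕ} {κ κ' : List Kd} (h : AnsS T ⟨l, s, w, q, κ⟩)
    (hp : κ.Perm κ') : AnsS T ⟨l, s, w, q, κ'⟩ := by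
  rcases h with h | h
  · exact Or.inl (h.pm hp)
  · exact Or.inr (h.pm hp)

theorem Path.pm {R : St} {κ κ' : List Kd} {k : Kd} {τ : List K0} {Z : St}
    (h : Path T R κ k τ Z) (hp : κ.Perm κ') : Path T R κ' k τ Z := by
  rcases h with ⟨a, h1, h2, h3, h4⟩ | ⟨h1, h2, h3, h4, h5, h6⟩
  · exact Or.inl ⟨a, h1, h2, h3.pm (hp.cons _), h4⟩
  · exact Or.inr ⟨h1, h2, h3, h4, h5.pm (hp.cons _), h6⟩

/-! ### Lists -/

theorem mem_col (a : Fin 5) : a.1 ∈ colL := by
  fin_cases a <;> decide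

theorem mem_flat {α β : Type} {f : α → List β} {L : List α} {x : α} {y : β} (hx : x ∈ L)
    (hy : y ∈ f x) : y ∈ L.flatMap f := List.mem_flatMap.2 ⟨x, hx, hy⟩

theorem mem_opt {b : Bool} {R : St} (h : b = true) : R ∈ opt b R := by
  rw [h]
  exact List.mem_cons_self

theorem mem_cond_t {α : Type} {b : Bool} {L M : List α} {x : α} (h : b = true) (hx : x ∈ L) :
    x ∈ cond b L M := by
  rw [h]
  exact hx

theorem mem_cond_f {α : Type} {b : Bool} {L M : List α} {x : α} (h : b = false) (hx : x ∈ M) :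
    x ∈ cond b L M := by
  rw [h]
  exact hx

theorem beq_of {m n : ℕ} (h : m = n) : Nat.beq m n = true := by
  rw [h]
  exact Nat.beq_refl n

theorem beq_of_ne {m n : ℕ} (h : m ≠ n) : Nat.beq m n = false := by
  rw [← Bool.not_eq_true]
  exact fun h1 => h (beq_eq h1)

theorem ble_of {m n : ℕ} (h : m ≤ n) : Nat.ble m n = true := Nat.ble_eq_true_of_le h

theorem cntC_eq (L : List L3) : cntC L = L.count .c := by
  induction L with
  | nil => rfl
  | cons l L ih =>
    rw [List.count_cons, ← ih]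
    cases l <;> rfl

theorem noX_iff (L : List L3) : noX L = true ↔ .x ∉ L := by
  induction L with
  | nil => exact ⟨fun _ h => (by cases h), fun _ => rfl⟩
  | cons l L ih =>
    unfold noX
    rw [Bool.and_eq_true, ih, List.mem_cons]
    cases l
    · simp [L3.eqb]
    · simp [L3.eqb]
    · simp [L3.eqb]

theorem nbb_iff (l : L3) (L : List L3) : nbb l L = true ↔ nbOK l L := by
  unfold nbb nbOK
  rw [Bool.and_eq_true, Nat.ble_eq, len_eq]
  refine and_congr_right fun _ => ?_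
  cases l with
  | m => exact ⟨fun _ => ⟨fun h => (by cases h), fun h => (by cases h)⟩, fun _ => rfl⟩
  | c =>
    change Nat.beq (cntC L) 0 = true ↔ _
    rw [Nat.beq_eq, cntC_eq, List.count_eq_zero]
    exact ⟨fun h2 => ⟨fun _ => h2, fun h => (by cases h)⟩, fun h => h.1 rfl⟩
  | x =>
    change (noX L && Nat.ble (cntC L) 1) = true ↔ _
    rw [Bool.and_eq_true, noX_iff, Nat.ble_eq, cntC_eq]
    exact ⟨fun h2 => ⟨fun h => (by cases h), fun _ => h2⟩, fun h => h.2 rfl⟩

theorem nbOK_perm {l : L3} {L L' : List L3} (hp : L.Perm L') (h : nbOK l L) : nbOK l L' := by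
  unfold nbOK at h ⊢
  rw [← hp.length_eq, ← hp.count_eq, ← hp.mem_iff, ← hp.mem_iff]
  exact h

theorem farb_iff (k : Kd) : k.farb = true ↔ k.Far := by
  constructor
  · exact far_spec
  · rintro ⟨h1, h2⟩
    unfold Kd.farb
    rw [h1, h2]
    rfl

theorem farb_false {k : Kd} (h : ¬ k.Far) : k.farb = false := by
  rw [← Bool.not_eq_true, farb_iff]
  exact h

theorem usK_eq (k : Kd) : usK k = pc k.s + k.q + k.t.length := by
  unfold usK
  rw [len_eq, pcf_eq]
  rfl

theorem msk_of {s : ℕ} (h : s < 32) (h1 : s = 0 ∨ pc s = 1) : s ∈ mskL := by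
  revert h1
  interval_cases s <;> decide

theorem mem_newL {n : K0} (h : n.New) (hs : n.s < 32) : n ∈ newL := by
  obtain ⟨l, s, q⟩ := n
  obtain ⟨h1, h2⟩ := h
  change q = 0 at h1
  subst h1
  have := msk_of hs h2
  unfold newL
  rw [List.mem_append, List.mem_append]
  cases l
  · exact Or.inl (Or.inl (List.mem_map.2 ⟨s, this, rfl⟩))
  · exact Or.inl (Or.inr (List.mem_map.2 ⟨s, this, rfl⟩))
  · exact Or.inr (List.mem_map.2 ⟨s, this, rfl⟩)

theorem msk_pos {s : ℕ} (h : s < 32) (h1 : pc s = 1) : s ∈ [1, 2, 4, 8, 16] := by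
  revert h1
  interval_cases s <;> decide

theorem mem_oneL {n : K0} (h : n.One) (hs : n.s < 32) : n ∈ oneL := by
  obtain ⟨l, s, q⟩ := n
  obtain ⟨⟨h1, h2⟩, h3⟩ := h
  change q ≤ 1 at h1
  change q = 1 → l ≠ .m ∧ s ≠ 0 ∧ (l = .x → 2 ≤ pc s) at h2
  change s = 0 ∨ pc s = 1 at h3
  have hm := msk_of hs h3
  unfold oneL
  rw [List.mem_append, List.mem_append, List.mem_append]
  have hq : q = 0 ∨ q = 1 := by omega
  rcases hq with rfl | rfl
  · cases l
    · exact Or.inl (Or.inl (Or.inl (List.mem_map.2 ⟨s, hm, rfl⟩)))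
    · exact Or.inl (Or.inl (Or.inr (List.mem_map.2 ⟨s, hm, rfl⟩)))
    · exact Or.inr (List.mem_map.2 ⟨s, hm, rfl⟩)
  · obtain ⟨h4, h5, h6⟩ := h2 rfl
    have hp : pc s = 1 := by
      rcases h3 with h3 | h3
      · exact absurd h3 h5
      · exact h3
    cases l
    · exact absurd rfl h4
    · exact Or.inl (Or.inr (List.mem_map.2 ⟨s, msk_pos hs hp, rfl⟩))
    · have := h6 rfl
      omega

/-! ### Masks of colours -/

theorem allC_spec {m : ℕ} {f : ℕ → Bool} (h : allC m f = true) :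
    m ≤ 31 ∧ ∀ a : Fin 5, bt m a.1 = true → f a.1 = true := by
  unfold allC at h
  rw [Bool.and_eq_true, List.all_eq_true] at h
  refine ⟨Nat.le_of_ble_eq_true h.1, fun a ha => ?_⟩
  have := h.2 _ (mem_col a)
  rw [ha] at this
  exact this

theorem int_spec {m n : ℕ} (h : int m n = true) (hm : m ≤ 31) :
    ∃ a : Fin 5, bt m a.1 = true ∧ bt n a.1 = true := by
  obtain ⟨i, hi⟩ := Nat.exists_testBit_of_ne_zero (beq_ne h)
  change (m &&& n).testBit i = true at hi
  rw [Nat.testBit_and, Bool.and_eq_true] at hi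
  have hi5 : i < 5 := by
    by_contra hc
    have h32 : m < 2 ^ i := lt_of_lt_of_le (by omega : m < 2 ^ 5)
      (Nat.pow_le_pow_right (by norm_num) (by omega))
    rw [Nat.testBit_eq_false_of_lt h32] at hi
    exact Bool.false_ne_true hi.1
  exact ⟨⟨i, hi5⟩, by rw [bt_eq]; exact hi.1, by rw [bt_eq]; exact hi.2⟩

/-! ### Obligations -/

theorem goA_sound {ok : St → Bool} (hok : ∀ R, ok R = true → OKs T R) {L : List St} {c : ℕ}
    (h : goA ok L c = true) : ∀ S ∈ L, AnsS T S := by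
  induction L generalizing c with
  | nil => exact fun S hS => by cases hS
  | cons R L ih =>
    unfold goA at h
    rw [Bool.and_eq_true] at h
    intro S hS
    rw [List.mem_cons] at hS
    rcases hS with rfl | hS
    · exact ansC_ans hok h.1
    · exact ih h.2 S hS

theorem goN_sound {ok : St → Bool} (hok : ∀ R, ok R = true → OKs T R) {L : List (St × St)}
    {c : ℕ} (h : goN ok L c = true) : ∀ p ∈ L, (OKs T p.1 ∧ AnsS T p.2) ∨
      (AnsS T p.1 ∧ OKs T p.2) := by
  induction L generalizing c with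
  | nil => exact fun S hS => by cases hS
  | cons p L ih =>
    obtain ⟨A, B⟩ := p
    unfold goN at h
    dsimp only at h
    rw [Bool.and_eq_true, Bool.and_eq_true, Bool.and_eq_true, Bool.or_eq_true] at h
    obtain ⟨⟨⟨h1, h2⟩, h3⟩, h4⟩ := h
    intro p hp
    rw [List.mem_cons] at hp
    rcases hp with rfl | hp
    · rcases h1 with h1 | h1
      · left
        refine ⟨?_, ansC_ans hok h3⟩
        rcases ansC_sound hok h2 with h5 | h5
        · exact h5.2
        · exact absurd (by rw [beq_eq h1]; rfl) h5.1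
      · right
        refine ⟨ansC_ans hok h2, ?_⟩
        rcases ansC_sound hok h3 with h5 | h5
        · exact h5.2
        · exact absurd (by rw [beq_eq h1]; rfl) h5.1
    · exact ih h4 p hp

/-- the obligations of the star are satisfied -/
def ObsOK (T : St → Prop) (R : St) : Prop := ∀ S ∈ obs R, AnsS T S

theorem ObsOK.conv {R : St} (h : ObsOK T R) (a : Fin 5) (hq : R.q = 1) (ha : ¬ hs R.s a) :
    AnsS T { R with s := ad R.s a, q := 0 } := by
  have := h ⟨R.l, adf R.s a.1, R.w, 0, R.k⟩ (List.mem_append_left _ (List.mem_append_left _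
    (List.mem_append_left _ (mem_flat (mem_col a) (mem_opt (by
      rw [Bool.and_eq_true]
      exact ⟨beq_of hq, bt_not ha⟩))))))
  rw [adf_eq] at this
  exact this

theorem ObsOK.free {R : St} (h : ObsOK T R) (a : Fin 5) (hu : R.used < R.l.deg)
    (ha : ¬ hs R.s a) : AnsS T { R with s := ad R.s a } := by
  have := h ⟨R.l, adf R.s a.1, R.w, R.q, R.k⟩ (List.mem_append_left _ (List.mem_append_left _
    (List.mem_append_right _ (mem_flat (mem_col a) (mem_opt (by
      rw [Bool.and_eq_true]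
      exact ⟨ble_of (by rw [usedf_eq]; exact hu), bt_not ha⟩))))))
  rw [adf_eq] at this
  exact this

theorem ObsOK.new {R : St} (h : ObsOK T R) {n : K0}
    (hV : ({ R with k := n.up :: R.k } : St).V []) (hn : n.New) :
    AnsS T { R with k := n.up :: R.k } := by
  obtain ⟨h1, h2, -, -, -, -, h7⟩ := hV
  have hs : n.s < 32 := (h7 n.up List.mem_cons_self).2.2.2.1
  refine h _ (List.mem_append_left _ (List.mem_append_right _ ?_))
  refine mem_cond_t (ble_of ?_) (mem_flat (mem_newL hn hs) (mem_opt ?_))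
  · rw [usedf_eq]
    unfold St.used at h1 ⊢
    simp only [List.length_cons, List.length_nil] at h1
    omega
  · rw [nbb_iff]
    exact h2

/-- the obligations at a child -/
theorem ObsOK.kid {R : St} (h : ObsOK T R) {k : Kd} {κ : List Kd} (hp : (k, κ) ∈ sel R.k) {S : St}
    (hS : S ∈ obsK R (k, κ)) : AnsS T S := h S (List.mem_append_right _ (mem_flat hp hS))

theorem ObsOK.kconv {R : St} (h : ObsOK T R) {k : Kd} {κ : List Kd} (hp : (k, κ) ∈ sel R.k)
    (a : Fin 5) (hq : k.q = 1) (ha : ¬ hs k.s a) :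
    AnsS T { R with k := { k with s := ad k.s a, q := 0 } :: κ } := by
  have := h.kid hp (S := ⟨R.l, R.s, R.w, R.q, ⟨k.l, adf k.s a.1, 0, k.t⟩ :: κ⟩)
    (List.mem_append_left _ (List.mem_append_left _ (mem_flat (mem_col a) (mem_opt (by
      rw [Bool.and_eq_true]
      exact ⟨beq_of hq, bt_not ha⟩)))))
  rw [adf_eq] at this
  exact this

theorem ObsOK.far {R : St} (h : ObsOK T R) {k : Kd} {κ : List Kd} (hp : (k, κ) ∈ sel R.k)
    (a : Fin 5) (hf : k.Far) (ha : ¬ hs R.s a) :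
    AnsS T { R with s := ad R.s a, k := κ } := by
  have := h.kid hp (S := ⟨R.l, adf R.s a.1, R.w, R.q, κ⟩)
    (List.mem_append_left _ (List.mem_append_right _ (mem_cond_t ((farb_iff k).2 hf)
      (List.mem_append_left _ (mem_flat (mem_col a) (mem_opt (bt_not ha)))))))
  rw [adf_eq] at this
  exact this

theorem ObsOK.low {R : St} (h : ObsOK T R) {k : Kd} {κ : List Kd} (hp : (k, κ) ∈ sel R.k)
    (a : Fin 5) (hf : k.Far) : AnsS T { R with k := ⟨k.l, 2 ^ a.1, 0, []⟩ :: κ } := by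
  have := h.kid hp (S := ⟨R.l, R.s, R.w, R.q, ⟨k.l, Nat.shiftLeft 1 a.1, 0, []⟩ :: κ⟩)
    (List.mem_append_left _ (List.mem_append_right _ (mem_cond_t ((farb_iff k).2 hf)
      (List.mem_append_right _ (mem_flat (mem_col a) List.mem_cons_self)))))
  rw [shl_eq] at this
  exact this

theorem ObsOK.kfree {R : St} (h : ObsOK T R) {k : Kd} {κ : List Kd} (hp : (k, κ) ∈ sel R.k)
    (a : Fin 5) (hf : ¬ k.Far) (hu : pc k.s + k.q + k.t.length + 1 < k.l.deg) (ha : ¬ hs k.s a) :
    AnsS T { R with k := { k with s := ad k.s a } :: κ } := by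
  have := h.kid hp (S := ⟨R.l, R.s, R.w, R.q, ⟨k.l, adf k.s a.1, k.q, k.t⟩ :: κ⟩)
    (List.mem_append_left _ (List.mem_append_right _ (mem_cond_f (farb_false hf)
      (mem_cond_t (ble_of (by rw [usK_eq]; exact hu))
      (List.mem_append_left _ (mem_flat (mem_col a) (mem_opt (bt_not ha))))))))
  rw [adf_eq] at this
  exact this

theorem ObsOK.att {R : St} (h : ObsOK T R) {k : Kd} {κ : List Kd} (hp : (k, κ) ∈ sel R.k)
    (hf : ¬ k.Far) {n : K0} (hn : n.New) (hV : ({ k with t := n :: k.t } : Kd).V R.l) :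
    AnsS T { R with k := { k with t := n :: k.t } :: κ } := by
  obtain ⟨h1, -, h3, -, h5⟩ := hV
  have hs : n.s < 32 := (h5 n List.mem_cons_self).2.2.2
  refine h.kid hp (List.mem_append_left _ (List.mem_append_right _ (mem_cond_f (farb_false hf)
      (mem_cond_t (ble_of ?_) (List.mem_append_right _ (mem_flat (mem_newL hn hs) (mem_opt ?_)))))))
  · rw [usK_eq]
    change pc k.s + k.q + (n :: k.t).length < k.l.deg at h3
    rw [List.length_cons] at h3
    change pc k.s + k.q + k.t.length + 2 ≤ k.l.deg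
    omega
  · rw [nbb_iff]
    exact h1

theorem ObsOK.sub {R : St} (h : ObsOK T R) {k : Kd} {κ : List Kd} (hp : (k, κ) ∈ sel R.k)
    {z : K0} {τ : List K0} (hz : (z, τ) ∈ sel k.t) {S : St} (hS : S ∈ obsT R k κ (z, τ)) :
    AnsS T S := h.kid hp (List.mem_append_right _ (mem_flat hz hS))

theorem ObsOK.scol {R : St} (h : ObsOK T R) {k : Kd} {κ : List Kd} (hp : (k, κ) ∈ sel R.k)
    {z : K0} {τ : List K0} (hz : (z, τ) ∈ sel k.t) (a : Fin 5) (h1 : ¬ hs k.s a)
    (h2 : ¬ hs z.s a) : AnsS T { R with k := { k with s := ad k.s a, t := τ } :: κ } := by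
  have := h.sub hp hz (S := ⟨R.l, R.s, R.w, R.q, ⟨k.l, adf k.s a.1, k.q, τ⟩ :: κ⟩)
    (List.mem_append_left _ (mem_flat (mem_col a) (mem_opt (by
      rw [Bool.and_eq_true]
      exact ⟨bt_not h1, bt_not h2⟩))))
  rw [adf_eq] at this
  exact this

theorem ObsOK.slow {R : St} (h : ObsOK T R) {k : Kd} {κ : List Kd} (hp : (k, κ) ∈ sel R.k)
    {z : K0} {τ : List K0} (hz : (z, τ) ∈ sel k.t) (a : Fin 5) (h1 : z.s = 0) :
    AnsS T { R with k := { k with t := ⟨z.l, 2 ^ a.1, 0⟩ :: τ } :: κ } := by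
  have := h.sub hp hz
    (S := ⟨R.l, R.s, R.w, R.q, ⟨k.l, k.s, k.q, ⟨z.l, Nat.shiftLeft 1 a.1, 0⟩ :: τ⟩ :: κ⟩)
    (List.mem_append_right _ (mem_cond_t (beq_of h1) (mem_flat (mem_col a) List.mem_cons_self)))
  rw [shl_eq] at this
  exact this

theorem ObsOK.sfree {R : St} (h : ObsOK T R) {k : Kd} {κ : List Kd} (hp : (k, κ) ∈ sel R.k)
    {z : K0} {τ : List K0} (hz : (z, τ) ∈ sel k.t) (a : Fin 5) (h1 : z.s ≠ 0)
    (h2 : pc z.s + z.q + 1 < z.l.deg) (h3 : ¬ hs z.s a) :
    AnsS T { R with k := { k with t := { z with s := ad z.s a } :: τ } :: κ } := by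
  have := h.sub hp hz
    (S := ⟨R.l, R.s, R.w, R.q, ⟨k.l, k.s, k.q, ⟨z.l, adf z.s a.1, z.q⟩ :: τ⟩ :: κ⟩)
    (List.mem_append_right _ (mem_cond_f (beq_of_ne h1) (mem_flat (mem_col a) (mem_opt (by
      rw [Bool.and_eq_true]
      refine ⟨ble_of ?_, bt_not h3⟩
      rw [pcf_eq]
      change pc z.s + z.q + 2 ≤ z.l.deg
      omega)))))
  rw [adf_eq] at this
  exact this

end Pool.Agent.GCI
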