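import Pool.Agent.GCI.ChkN

/-!
# MP_f1ab9c: soundness of the conditions at a star, second part
-/

set_option autoImplicit false

namespace Pool.Agent.GCI

variable {T : St → Prop}

/-! ### Tables of masks -/

theorem not_hs_pow {a b : Fin 5} (h : a.1 ≠ b.1) : ¬ hs (2 ^ a.1) b := by
  unfold hs
  rw [Nat.testBit_two_pow]
  simpa using h

theorem not_hs_zero (b : Fin 5) : ¬ hs 0 b := by
  unfold hs
  rw [Nat.zero_testBit]
  exact Bool.false_ne_true

/-- the obligations `atf1` -/
theorem goF1_sound {ok : St → Bool} (hok : ∀ R, ok R = true → OKs T R) {R : St} {k : Kd}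
    {κ : List Kd} {B : ℕ}
    (hB : ∀ b : Fin 5, bt B b.1 = true → ¬ hs R.s b ∧ OKs T ⟨R.l, ad R.s b, R.w, R.q, κ⟩)
    {L : List (K0 × ℕ)} {M : List ℕ} {c : ℕ} (hN : chN1 ok k.l L M = true)
    (h : goF1 ok R k κ B L M c = true) :
    ∀ (x : K0) (a : Fin 5), (x, a.1) ∈ L → nbOK k.l [R.l, x.l] →
      AnsS T ⟨R.l, R.s, R.w, R.q, ⟨k.l, 2 ^ a.1, 0, [x]⟩ :: κ⟩ := by
  induction L generalizing M c with
  | nil => exact fun x a hx => by cases hx
  | cons p L ih =>
    obtain ⟨y, b⟩ := p
    cases M with
    | nil => exact absurd hN Bool.false_ne_true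
    | cons m M =>
      unfold chN1 at hN
      rw [Bool.and_eq_true] at hN
      obtain ⟨hN1, hN2⟩ := hN
      unfold goF1 at h
      intro x a hx hnb
      rw [List.mem_cons] at hx
      cases hc : (int m B || !(nbb k.l [R.l, y.l])) with
      | false =>
        rw [hc, cond_false, Bool.and_eq_true] at h
        rcases hx with hx | hx
        · cases hx
          have := ansC_ans hok h.1
          rw [shl_eq] at this
          exact this
        · exact ih hN2 h.2 x a hx hnb
      | true =>
        rw [hc, cond_true] at h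
        rcases hx with hx | hx
        · cases hx
          rw [Bool.or_eq_true] at hc
          rcases hc with hc | hc
          · unfold mN1 at hN1
            obtain ⟨h31, h2⟩ := allC_spec hN1
            obtain ⟨d, hd1, hd2⟩ := int_spec hc h31
            have h3 := h2 d hd1
            rw [Bool.and_eq_true, shl_eq, adf_eq] at h3
            obtain ⟨h4, h5⟩ := h3
            obtain ⟨h6, h7⟩ := hB d hd2
            right
            refine ⟨_, Or.inl (Mv.near d (List.Perm.refl _) ?_ h6 (not_hs_pow (beq_ne h4))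
              (hok _ h5)), h7⟩
            rintro ⟨-, h8⟩
            cases h8
          · rw [(nbb_iff _ _).2 hnb] at hc
            exact absurd hc Bool.false_ne_true
        · exact ih hN2 h x a hx hnb

/-- the obligations `atf2` -/
theorem goF2_sound {ok : St → Bool} (hok : ∀ R, ok R = true → OKs T R) {R : St} {k : Kd}
    {κ : List Kd} {B : ℕ}
    (hB : ∀ b : Fin 5, bt B b.1 = true → ¬ hs R.s b ∧ OKs T ⟨R.l, ad R.s b, R.w, R.q, κ⟩)
    {L : List (K0 × K0)} {M : List ℕ} {c : ℕ} (hN : chN2 ok k.l L M = true)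
    (h : goF2 ok R k κ B L M c = true) :
    ∀ (x n : K0), (x, n) ∈ L → nbOK k.l [R.l, x.l, n.l] →
      AnsS T ⟨R.l, R.s, R.w, R.q, ⟨k.l, 0, 0, [x, n]⟩ :: κ⟩ := by
  induction L generalizing M c with
  | nil => exact fun x a hx => by cases hx
  | cons p L ih =>
    obtain ⟨y, b⟩ := p
    cases M with
    | nil => exact absurd hN Bool.false_ne_true
    | cons m M =>
      unfold chN2 at hN
      rw [Bool.and_eq_true] at hN
      obtain ⟨hN1, hN2⟩ := hN
      unfold goF2 at h
      intro x n hx hnb
      rw [List.mem_cons] at hx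
      cases hc : (int m B || !(nbb k.l [R.l, y.l, b.l])) with
      | false =>
        rw [hc, cond_false, Bool.and_eq_true] at h
        rcases hx with hx | hx
        · cases hx
          exact ansC_ans hok h.1
        · exact ih hN2 h.2 x n hx hnb
      | true =>
        rw [hc, cond_true] at h
        rcases hx with hx | hx
        · cases hx
          rw [Bool.or_eq_true] at hc
          rcases hc with hc | hc
          · unfold mN2 at hN1
            obtain ⟨h31, h2⟩ := allC_spec hN1
            obtain ⟨d, hd1, hd2⟩ := int_spec hc h31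
            have h3 := h2 d hd1
            rw [shl_eq] at h3
            obtain ⟨h6, h7⟩ := hB d hd2
            right
            have h5 := hok _ h3
            refine ⟨_, Or.inl (Mv.near d (List.Perm.refl _) ?_ h6 (not_hs_zero d) ?_), h7⟩
            · rintro ⟨-, h8⟩
              cases h8
            · have : ad 0 d = 2 ^ d.1 := by
                unfold ad
                rw [Nat.zero_or]
              change OKs T ⟨k.l, ad 0 d, 0, 0, _⟩
              rw [this]
              exact h5
          · rw [(nbb_iff _ _).2 hnb] at hc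
            exact absurd hc Bool.false_ne_true
        · exact ih hN2 h x n hx hnb

theorem goH_sound {l r : L3} {B0 B1 : ℕ} {L : List (L3 × ℕ × ℕ)}
    (h : goH l r B0 B1 L = true) (e : L3) (m0 m1 : ℕ) (he : inD e m0 m1 L = true)
    (hnb : nbOK l [r, e]) : int m0 B0 = true ∨ int m1 B1 = true := by
  induction L with
  | nil => exact absurd he Bool.false_ne_true
  | cons p L ih =>
    obtain ⟨e', m0', m1'⟩ := p
    unfold goH at h
    rw [Bool.and_eq_true, Bool.or_eq_true, Bool.or_eq_true] at h
    unfold inD at he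
    rw [Bool.or_eq_true] at he
    rcases he with he | he
    · rw [Bool.and_eq_true, Bool.and_eq_true] at he
      obtain ⟨⟨h1, h2⟩, h3⟩ := he
      have e1 := eqb_spec h1
      have e2 := beq_eq h2
      have e3 := beq_eq h3
      subst e1 e2 e3
      rcases h.1 with (h4 | h4) | h4
      · rw [(nbb_iff _ _).2 hnb] at h4
        exact absurd h4 Bool.false_ne_true
      · exact Or.inl h4
      · exact Or.inr h4
    · exact ih h.2 he

/-! ### Multisets -/

theorem mem_mult {α : Type} [DecidableEq α] (n : ℕ) (L : List α) (τ : List α) (hl : τ.length = n)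
    (h : ∀ z ∈ τ, z ∈ L) : ∃ τ' ∈ mult n L, τ'.Perm τ := by
  induction n generalizing L τ with
  | zero =>
    rw [List.length_eq_zero_iff] at hl
    subst hl
    exact ⟨[], List.mem_cons_self, List.Perm.refl _⟩
  | succ n ihn =>
    induction L with
    | nil =>
      cases τ with
      | nil => cases hl
      | cons z τ => exact absurd (h z List.mem_cons_self) (List.not_mem_nil)
    | cons x L ihL =>
      by_cases hx : x ∈ τ
      · obtain ⟨τ1, hτ1⟩ : ∃ τ1, τ.Perm (x :: τ1) := ⟨τ.erase x, List.perm_cons_erase hx⟩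
        have hl1 : τ1.length = n := by
          have := hτ1.length_eq
          rw [List.length_cons] at this
          omega
        obtain ⟨τ', h1, h2⟩ := ihn (x :: L) τ1 hl1 fun z hz =>
          h z (hτ1.mem_iff.2 (List.mem_cons_of_mem _ hz))
        refine ⟨x :: τ', ?_, (h2.cons x).trans hτ1.symm⟩
        exact mem_flat (x := (x, x :: L)) List.mem_cons_self (List.mem_map.2 ⟨τ', h1, rfl⟩)
      · obtain ⟨τ', h1, h2⟩ := ihL fun z hz => by
          have := h z hz
          rw [List.mem_cons] at this
          rcases this with rfl | this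
          · exact absurd hz hx
          · exact this
        refine ⟨τ', ?_, h2⟩
        obtain ⟨p, hp1, hp2⟩ := List.mem_flatMap.1 h1
        exact List.mem_flatMap.2 ⟨p, List.mem_cons_of_mem _ hp1, hp2⟩

theorem mem_mskN {s n : ℕ} (hs : s < 32) (h : pc s = n) : s ∈ mskN n := by
  unfold mskN
  rw [List.mem_filter]
  refine ⟨?_, beq_of (by rw [pcf_eq]; exact h)⟩
  interval_cases s <;> decide

/-- children without sub-branches -/
theorem kids_up {κ : List Kd} (h : ∀ k ∈ κ, k.t = []) :
    κ = (κ.map fun k => (⟨k.l, k.s, k.q⟩ : K0)).map K0.up := by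
  induction κ with
  | nil => rfl
  | cons k κ ih =>
    rw [List.map_cons, List.map_cons, ← ih fun x hx => h x (List.mem_cons_of_mem _ hx)]
    have := h k List.mem_cons_self
    obtain ⟨l, s, q, t⟩ := k
    change t = [] at this
    subst this
    rfl

theorem wt_one {k : Kd} (ht : k.t = []) (h : (⟨k.l, k.s, k.q⟩ : K0).One) : k.wt = 1 := by
  unfold Kd.wt
  rw [ht]
  by_cases hs : k.s = 0
  · rw [if_pos ⟨hs, rfl⟩]
  · rw [if_neg fun h1 => hs h1.1]
    rcases h.2 with h1 | h1
    · exact absurd h1 hs
    · change pc k.s = 1 at h1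
      rw [h1]
      rfl

theorem wt_ones {κ : List Kd} (h : ∀ k ∈ κ, k.t = [] ∧ (⟨k.l, k.s, k.q⟩ : K0).One) :
    (κ.map Kd.wt).sum = κ.length := by
  induction κ with
  | nil => rfl
  | cons k κ ih =>
    obtain ⟨h1, h2⟩ := h k List.mem_cons_self
    rw [List.map_cons, List.sum_cons, ih fun x hx => h x (List.mem_cons_of_mem _ hx),
      wt_one h1 h2, List.length_cons]
    omega

theorem lb_eq (τ : List K0) : lb0 τ = (τ.map K0.up).map Kd.l := by
  rw [List.map_map]
  rfl

/-- the attacked vertices are in the list -/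
theorem mem_endL {E : St} {l : L3} (hE : E.End) (hV : E.V [l]) :
    ∃ κ, (⟨E.l, E.s, 0, E.q, κ⟩ : St) ∈ endL l ∧ κ.Perm E.k := by
  obtain ⟨e, s, w, q, ks⟩ := E
  obtain ⟨h1, h2, h3⟩ := hE
  change w = 0 at h2
  subst h2
  change ∀ k ∈ ks, k.t = [] ∧ (⟨k.l, k.s, k.q⟩ : K0).One at h3
  obtain ⟨v1, v2, -, -, v5, v6, v7⟩ := hV
  have h4 : pc s + 0 + (ks.map Kd.wt).sum = 2 := h1
  rw [wt_ones h3] at h4
  have h5 : pc s + 0 + q + ks.length + 1 ≤ e.deg := v1
  change nbOK e (l :: ks.map Kd.l) at v2
  change qOK e s q at v5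
  change s < 32 at v6
  change ∀ k ∈ ks, k.V e at v7
  have hks := kids_up fun k hk => (h3 k hk).1
  obtain ⟨τ, hτ1, hτ2⟩ := mem_mult ks.length oneL (ks.map fun k => (⟨k.l, k.s, k.q⟩ : K0))
    (List.length_map _) fun z hz => by
      obtain ⟨k, hk, rfl⟩ := List.mem_map.1 hz
      exact mem_oneL (h3 k hk).2 (v7 k hk).2.2.2.1
  have hp : (τ.map K0.up).Perm ks := by
    rw [hks]
    exact hτ2.map _
  refine ⟨ups τ, ?_, by rw [ups_eq]; exact hp⟩
  have hlen : τ.length = ks.length := by
    rw [hτ2.length_eq, List.length_map]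
  unfold endL
  refine mem_flat (x := e) (by cases e <;> decide) (mem_cond_t ?_ ?_)
  · rw [nbb_iff]
    obtain ⟨a1, a2, a3⟩ := v2
    refine ⟨?_, ?_, ?_⟩
    · change 1 ≤ l.deg
      cases l <;> decide
    · rintro rfl hc
      rw [List.mem_singleton] at hc
      subst hc
      exact a2 rfl List.mem_cons_self
    · rintro rfl
      constructor
      · intro hc
        rw [List.mem_singleton] at hc
        subst hc
        exact (a3 rfl).1 List.mem_cons_self
      · rw [List.count_cons, List.count_nil]
        split <;> omega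
  · refine mem_flat (x := ks.length) ?_ (mem_flat (mem_mskN v6 (by omega)) (mem_flat hτ1
      (mem_cond_t ?_ ?_)))
    · have : ks.length ≤ 2 := by omega
      interval_cases ks.length <;> decide
    · rw [nbb_iff, lb_eq]
      exact nbOK_perm ((hp.symm.map Kd.l).cons l) v2
    · refine mem_flat (x := q) ?_ (mem_opt ?_)
      · have := v5.1
        interval_cases q <;> decide
      · rw [Bool.or_eq_true]
        by_cases hq : q = 0
        · exact Or.inl (beq_of hq)
        · right
          have hq1 : q = 1 := by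
            have := v5.1
            omega
          obtain ⟨b1, b2, b3⟩ := v5.2 hq1
          rw [Bool.and_eq_true, Bool.and_eq_true]
          refine ⟨⟨qNewb_of ⟨b1, b3⟩, ?_⟩, ble_of ?_⟩
          · rw [beq_of_ne b2]
            rfl
          · rw [pcf_eq, len_eq, hlen]
            change pc s + q + ks.length + 1 ≤ e.deg
            omega

/-- the stars of weight `3` are in the list -/
theorem mem_g1L {E : St} (hV : E.V []) (h1 : E.wt = 3)
    (h3 : ∀ k ∈ E.k, k.t = [] ∧ (⟨k.l, k.s, k.q⟩ : K0).One) :
    ∃ κ, (⟨E.l, E.s, E.w, E.q, κ⟩ : St) ∈ g1L ∧ κ.Perm E.k := by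
  obtain ⟨e, s, w, q, ks⟩ := E
  change ∀ k ∈ ks, k.t = [] ∧ (⟨k.l, k.s, k.q⟩ : K0).One at h3
  obtain ⟨v1, v2, v3, v4, v5, v6, v7⟩ := hV
  have h4 : pc s + w + (ks.map Kd.wt).sum = 3 := h1
  rw [wt_ones h3] at h4
  have h5 : pc s + w + q + ks.length ≤ e.deg := v1
  change nbOK e (ks.map Kd.l) at v2
  change w ≤ 1 at v3
  change w = 1 → e = .m ∧ s ≠ 0 at v4
  change qOK e s q at v5
  change s < 32 at v6
  change ∀ k ∈ ks, k.V e at v7
  have hks := kids_up fun k hk => (h3 k hk).1
  obtain ⟨τ, hτ1, hτ2⟩ := mem_mult ks.length oneL (ks.map fun k => (⟨k.l, k.s, k.q⟩ : K0))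
    (List.length_map _) fun z hz => by
      obtain ⟨k, hk, rfl⟩ := List.mem_map.1 hz
      exact mem_oneL (h3 k hk).2 (v7 k hk).2.2.2.1
  have hp : (τ.map K0.up).Perm ks := by
    rw [hks]
    exact hτ2.map _
  refine ⟨ups τ, ?_, by rw [ups_eq]; exact hp⟩
  have hlen : τ.length = ks.length := by
    rw [hτ2.length_eq, List.length_map]
  unfold g1L
  refine mem_flat (x := e) (by cases e <;> decide) (mem_flat (x := ks.length) ?_
    (mem_flat hτ1 (mem_cond_t ?_ (mem_flat (x := w) ?_ (mem_flat (mem_mskN v6 (by omega))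
      (mem_flat (x := q) ?_ (mem_opt ?_)))))))
  · have : ks.length ≤ 3 := by omega
    interval_cases ks.length <;> decide
  · rw [nbb_iff, lb_eq]
    exact nbOK_perm (hp.symm.map Kd.l) v2
  · interval_cases w <;> decide
  · have := v5.1
    interval_cases q <;> decide
  · rw [Bool.and_eq_true, Bool.and_eq_true, Bool.or_eq_true, Bool.or_eq_true]
    refine ⟨⟨?_, ble_of ?_⟩, ?_⟩
    · by_cases hw : w = 0
      · exact Or.inl (beq_of hw)
      · right
        obtain ⟨b1, b2⟩ := v4 (by omega)
        subst b1
        rw [Bool.and_eq_true, beq_of_ne b2]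
        exact ⟨rfl, rfl⟩
    · change ks.length + w ≤ 3
      omega
    · by_cases hq : q = 0
      · exact Or.inl (beq_of hq)
      · right
        have hq1 : q = 1 := by
          have := v5.1
          omega
        obtain ⟨b1, b2, b3⟩ := v5.2 hq1
        rw [Bool.and_eq_true, Bool.and_eq_true]
        refine ⟨⟨qNewb_of ⟨b1, b3⟩, ?_⟩, ble_of ?_⟩
        · rw [beq_of_ne b2]
          rfl
        · rw [pcf_eq, len_eq, hlen]
          change pc s + q + ks.length ≤ e.deg
          omega

end Pool.Agent.GCI
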