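import Pool.Agent.GCI.ChkO

/-!
# MP_f1ab9c: soundness of the conditions on the table
-/

set_option autoImplicit false

namespace Pool.Agent.GCI

variable {T : St → Prop}

theorem goF_spec {ok : St → Bool} {X : MT} {R : St} {L : List (Kd × List Kd)}
    {C : List (ℕ × ℕ × ℕ × ℕ)} (h : goF ok X R L C = true) : ∀ p ∈ L, p.1.farb = true →
      ∃ B0 B1 c1 c2, chF ok X R p B0 B1 c1 c2 = true := by
  induction L generalizing C with
  | nil => exact fun p hp => by cases hp
  | cons x L ih =>
    intro p hp hf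
    unfold goF at h
    rw [List.mem_cons] at hp
    cases hx : x.1.farb with
    | false =>
      rw [hx, cond_false] at h
      rcases hp with rfl | hp
      · rw [hx] at hf
        exact absurd hf Bool.false_ne_true
      · exact ih h p hp hf
    | true =>
      rw [hx, cond_true] at h
      cases C with
      | nil => exact absurd h Bool.false_ne_true
      | cons c C =>
        obtain ⟨B0, B1, c1, c2⟩ := c
        change (chF ok X R x B0 B1 c1 c2 && goF ok X R L C) = true at h
        rw [Bool.and_eq_true] at h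
        rcases hp with rfl | hp
        · exact ⟨B0, B1, c1, c2, h.1⟩
        · exact ih h.2 p hp hf

theorem goT_spec {ok : St → Bool} {X : MT} {R : St} {L : List ((Kd × List Kd) × (K0 × List K0))}
    {C : List (ℕ × ℕ × ℕ × ℕ × ℕ)} (h : goT ok X R L C = true) : ∀ x ∈ L,
      ∃ B0 B1 c0 c1 c2, chT ok X R x.1 x.2 B0 B1 c0 c1 c2 = true := by
  induction L generalizing C with
  | nil => exact fun p hp => by cases hp
  | cons y L ih =>
    obtain ⟨p, r⟩ := y
    intro x hx
    cases C with
    | nil => exact absurd h Bool.false_ne_true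
    | cons c C =>
      obtain ⟨B0, B1, c0, c1, c2⟩ := c
      unfold goT at h
      rw [Bool.and_eq_true] at h
      rw [List.mem_cons] at hx
      rcases hx with rfl | hx
      · exact ⟨B0, B1, c0, c1, c2, h.1⟩
      · exact ih h.2 x hx

theorem chE_spec {ok : St → Bool} {X : MT} {l : L3} {L : List St} {M : List (ℕ × ℕ)}
    (h : chE ok X l L M = true) : ∀ E ∈ L, ∃ m0 m1, mE ok l E m0 m1 = true ∧
      inD E.l m0 m1 (X.d l) = true := by
  induction L generalizing M with
  | nil => exact fun p hp => by cases hp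
  | cons F L ih =>
    intro E hE
    cases M with
    | nil => exact absurd h Bool.false_ne_true
    | cons m M =>
      obtain ⟨m0, m1⟩ := m
      unfold chE at h
      rw [Bool.and_eq_true, Bool.and_eq_true] at h
      rw [List.mem_cons] at hE
      rcases hE with rfl | hE
      · exact ⟨m0, m1, h.1.1, h.1.2⟩
      · exact ih h.2 E hE

/-- what the masks of an attacked vertex mean -/
theorem mE_spec {ok : St → Bool} (hok : ∀ R, ok R = true → OKs T R) {l : L3} {E : St} {m0 m1 : ℕ}
    (h : mE ok l E m0 m1 = true) :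
    m0 ≤ 31 ∧ m1 ≤ 31 ∧ m0 ≠ 0 ∧
    (∀ a : Fin 5, bt m0 a.1 = true → ¬ hs E.s a ∧ OKs T ⟨E.l, ad E.s a, E.w, E.q, E.k⟩) ∧
    (∀ a : Fin 5, bt m1 a.1 = true → OKs T ⟨E.l, E.s, E.w, E.q, ⟨l, 2 ^ a.1, 0, []⟩ :: E.k⟩) := by
  unfold mE at h
  rw [Bool.and_eq_true, Bool.and_eq_true] at h
  obtain ⟨⟨h1, h2⟩, h3⟩ := h
  obtain ⟨a1, a2⟩ := allC_spec h1
  obtain ⟨b1, b2⟩ := allC_spec h3
  refine ⟨a1, b1, beq_ne h2, fun a ha => ?_, fun a ha => ?_⟩
  · have := a2 a ha
    rw [Bool.and_eq_true, adf_eq] at this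
    exact ⟨not_bt this.1, hok _ this.2⟩
  · have := b2 a ha
    rw [shl_eq] at this
    exact hok _ this

theorem pathb_sound {ok : St → Bool} (hok : ∀ R, ok R = true → OKs T R) {c : ℕ} {R : St}
    {κ : List Kd} {k : Kd} {τ : List K0} {Z : St} (h : pathb ok c R κ k τ Z = true) :
    Path T R κ k τ Z := by
  unfold pathb at h
  cases hc : Nat.ble c 4 with
  | true =>
    rw [hc, cond_true] at h
    obtain ⟨a, ha⟩ := ab5 hc
    rw [← ha] at h
    simp only [Bool.and_eq_true] at h
    obtain ⟨⟨⟨h1, h2⟩, h3⟩, h4⟩ := h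
    rw [adf_eq] at h3 h4
    exact Or.inl ⟨a, not_bt h1, not_bt h2, hok _ h3, hok _ h4⟩
  | false =>
    rw [hc, cond_false] at h
    simp only [Bool.and_eq_true] at h
    obtain ⟨⟨⟨⟨⟨h1, h2⟩, h3⟩, h4⟩, h5⟩, h6⟩ := h
    exact Or.inr ⟨qNewb_spec h1, beq_eq h2, isM_spec h3, com_spec h4, hok _ h5, hok _ h6⟩

theorem goS_sound {ok : St → Bool} (hok : ∀ R, ok R = true → OKs T R) {R : St} {k : Kd}
    {κ : List Kd} {z : K0} {τ : List K0} {L : List K0} {c : ℕ}
    (h : goS ok R k κ z τ L c = true) : ∀ n ∈ L, nbOK z.l [k.l, n.l] →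
      Path T R κ k τ ⟨z.l, z.s, 0, z.q, [n.up]⟩ := by
  induction L generalizing c with
  | nil => exact fun p hp => by cases hp
  | cons m L ih =>
    intro n hn hnb
    unfold goS at h
    rw [List.mem_cons] at hn
    cases hc : nbb z.l [k.l, m.l] with
    | true =>
      rw [hc, cond_true, Bool.and_eq_true] at h
      rcases hn with rfl | hn
      · exact pathb_sound hok h.1
      · exact ih h.2 n hn hnb
    | false =>
      rw [hc, cond_false] at h
      rcases hn with rfl | hn
      · rw [(nbb_iff _ _).2 hnb] at hc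
        cases hc
      · exact ih h n hn hnb

/-- the obligations `satf1` -/
theorem goS1_sound {ok : St → Bool} (hok : ∀ R, ok R = true → OKs T R) {R : St} {k : Kd}
    {κ : List Kd} {z : K0} {τ : List K0} {B : ℕ}
    (hB : ∀ b : Fin 5, bt B b.1 = true → ¬ hs k.s b ∧
      OKs T ⟨R.l, R.s, R.w, R.q, ⟨k.l, ad k.s b, k.q, τ⟩ :: κ⟩)
    {L : List (K0 × ℕ)} {M : List ℕ} {c : ℕ} (hN : chN1 ok z.l L M = true)
    (h : goS1 ok R k κ z τ B L M c = true) :
    ∀ (x : K0) (a : Fin 5), (x, a.1) ∈ L → nbOK z.l [k.l, x.l] →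
      Path T R κ k τ ⟨z.l, 2 ^ a.1, 0, 0, [x.up]⟩ := by
  induction L generalizing M c with
  | nil => exact fun x a hx => by cases hx
  | cons p L ih =>
    obtain ⟨y, b⟩ := p
    cases M with
    | nil => exact absurd hN Bool.false_ne_true
    | cons m M =>
      unfold chN1 at hN
      rw [Bool.and_eq_true] at hN
      obtain ⟨hN1, hN2⟩ := hN
      unfold goS1 at h
      intro x a hx hnb
      rw [List.mem_cons] at hx
      cases hc : (int m B || !(nbb z.l [k.l, y.l])) with
      | false =>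
        rw [hc, cond_false, Bool.and_eq_true] at h
        rcases hx with hx | hx
        · cases hx
          have := pathb_sound hok h.1
          rw [shl_eq] at this
          exact this
        · exact ih hN2 h.2 x a hx hnb
      | true =>
        rw [hc, cond_true] at h
        rcases hx with hx | hx
        · cases hx
          rw [Bool.or_eq_true] at hc
          rcases hc with hc | hc
          · unfold mN1 at hN1
            obtain ⟨h31, h2⟩ := allC_spec hN1
            obtain ⟨d, hd1, hd2⟩ := int_spec hc h31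
            have h3 := h2 d hd1
            rw [Bool.and_eq_true, shl_eq, adf_eq] at h3
            obtain ⟨h4, h5⟩ := h3
            obtain ⟨h6, h7⟩ := hB d hd2
            exact Or.inl ⟨d, h6, not_hs_pow (beq_ne h4), h7, hok _ h5⟩
          · rw [(nbb_iff _ _).2 hnb] at hc
            exact absurd hc Bool.false_ne_true
        · exact ih hN2 h x a hx hnb

/-- the obligations `satf2` -/
theorem goS2_sound {ok : St → Bool} (hok : ∀ R, ok R = true → OKs T R) {R : St} {k : Kd}
    {κ : List Kd} {z : K0} {τ : List K0} {B : ℕ}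
    (hB : ∀ b : Fin 5, bt B b.1 = true → ¬ hs k.s b ∧
      OKs T ⟨R.l, R.s, R.w, R.q, ⟨k.l, ad k.s b, k.q, τ⟩ :: κ⟩)
    {L : List (K0 × K0)} {M : List ℕ} {c : ℕ} (hN : chN2 ok z.l L M = true)
    (h : goS2 ok R k κ z τ B L M c = true) :
    ∀ (x n : K0), (x, n) ∈ L → nbOK z.l [k.l, x.l, n.l] →
      Path T R κ k τ ⟨z.l, 0, 0, 0, [x.up, n.up]⟩ := by
  induction L generalizing M c with
  | nil => exact fun x a hx => by cases hx
  | cons p L ih =>
    obtain ⟨y, b⟩ := p
    cases M with
    | nil => exact absurd hN Bool.false_ne_true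
    | cons m M =>
      unfold chN2 at hN
      rw [Bool.and_eq_true] at hN
      obtain ⟨hN1, hN2⟩ := hN
      unfold goS2 at h
      intro x n hx hnb
      rw [List.mem_cons] at hx
      cases hc : (int m B || !(nbb z.l [k.l, y.l, b.l])) with
      | false =>
        rw [hc, cond_false, Bool.and_eq_true] at h
        rcases hx with hx | hx
        · cases hx
          exact pathb_sound hok h.1
        · exact ih hN2 h.2 x n hx hnb
      | true =>
        rw [hc, cond_true] at h
        rcases hx with hx | hx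
        · cases hx
          rw [Bool.or_eq_true] at hc
          rcases hc with hc | hc
          · unfold mN2 at hN1
            obtain ⟨h31, h2⟩ := allC_spec hN1
            obtain ⟨d, hd1, hd2⟩ := int_spec hc h31
            have h3 := h2 d hd1
            rw [shl_eq] at h3
            obtain ⟨h6, h7⟩ := hB d hd2
            have h5 := hok _ h3
            have : ad 0 d = 2 ^ d.1 := by
              unfold ad
              rw [Nat.zero_or]
            refine Or.inl ⟨d, h6, not_hs_zero d, h7, ?_⟩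
            change OKs T ⟨z.l, ad 0 d, 0, 0, _⟩
            rw [this]
            exact h5
          · rw [(nbb_iff _ _).2 hnb] at hc
            exact absurd hc Bool.false_ne_true
        · exact ih hN2 h x n hx hnb

theorem mem_n1L {h : K0} (hh : h ∈ oneL) (a : Fin 5) : (h, a.1) ∈ n1L :=
  mem_flat hh (List.mem_map.2 ⟨a.1, mem_col a, rfl⟩)

theorem mem_n2L {h n : K0} (hh : h ∈ oneL) (hn : n ∈ newL) : (h, n) ∈ n2L :=
  mem_flat hh (List.mem_map.2 ⟨n, hn, rfl⟩)

/-- the colours in the masks of a far child -/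
theorem chF_spec {ok : St → Bool} (hok : ∀ R, ok R = true → OKs T R) {X : MT} {R : St} {k : Kd}
    {κ : List Kd} {B0 B1 c1 c2 : ℕ} (h : chF ok X R (k, κ) B0 B1 c1 c2 = true) :
    (∀ a : Fin 5, bt B0 a.1 = true → OKs T ⟨R.l, R.s, R.w, R.q, ⟨k.l, 2 ^ a.1, 0, []⟩ :: κ⟩) ∧
    (∀ a : Fin 5, bt B1 a.1 = true → ¬ hs R.s a ∧ OKs T ⟨R.l, ad R.s a, R.w, R.q, κ⟩) ∧
    goF1 ok R k κ B1 n1L (X.n1 k.l) c1 = true ∧ goF2 ok R k κ B1 n2L (X.n2 k.l) c2 = true ∧
    goH k.l R.l B0 B1 (X.d k.l) = true := by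
  unfold chF at h
  dsimp only at h
  rw [Bool.and_eq_true, Bool.and_eq_true, Bool.and_eq_true, Bool.and_eq_true] at h
  obtain ⟨⟨⟨⟨h1, h2⟩, h3⟩, h4⟩, h5⟩ := h
  refine ⟨fun a ha => ?_, fun a ha => ?_, h3, h4, h5⟩
  · have := (allC_spec h1).2 a ha
    rw [shl_eq] at this
    exact hok _ this
  · have := (allC_spec h2).2 a ha
    rw [Bool.and_eq_true, adf_eq] at this
    exact ⟨not_bt this.1, hok _ this.2⟩

/-- the colours in the masks of a far sub-branch -/
theorem chT_spec {ok : St → Bool} (hok : ∀ R, ok R = true → OKs T R) {X : MT} {R : St} {k : Kd}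
    {κ : List Kd} {z : K0} {τ : List K0} {B0 B1 c0 c1 c2 : ℕ} (hz : z.s = 0)
    (h : chT ok X R (k, κ) (z, τ) B0 B1 c0 c1 c2 = true) :
    (∀ a : Fin 5, bt B0 a.1 = true →
      OKs T ⟨R.l, R.s, R.w, R.q, ⟨k.l, k.s, k.q, ⟨z.l, 2 ^ a.1, 0⟩ :: τ⟩ :: κ⟩) ∧
    (∀ a : Fin 5, bt B1 a.1 = true → ¬ hs k.s a ∧
      OKs T ⟨R.l, R.s, R.w, R.q, ⟨k.l, ad k.s a, k.q, τ⟩ :: κ⟩) ∧
    goS1 ok R k κ z τ B1 n1L (X.n1 z.l) c1 = true ∧
    goS2 ok R k κ z τ B1 n2L (X.n2 z.l) c2 = true ∧ goH z.l k.l B0 B1 (X.d z.l) = true := by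
  unfold chT at h
  dsimp only at h
  rw [beq_of hz, cond_true, Bool.and_eq_true, Bool.and_eq_true, Bool.and_eq_true,
    Bool.and_eq_true] at h
  obtain ⟨⟨⟨⟨h1, h2⟩, h3⟩, h4⟩, h5⟩ := h
  refine ⟨fun a ha => ?_, fun a ha => ?_, h3, h4, h5⟩
  · have := (allC_spec h1).2 a ha
    rw [shl_eq] at this
    exact hok _ this
  · have := (allC_spec h2).2 a ha
    rw [Bool.and_eq_true, adf_eq] at this
    exact ⟨not_bt this.1, hok _ this.2⟩

theorem chT_near {ok : St → Bool} {X : MT} {R : St} {k : Kd}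
    {κ : List Kd} {z : K0} {τ : List K0} {B0 B1 c0 c1 c2 : ℕ} (hz : z.s ≠ 0)
    (h : chT ok X R (k, κ) (z, τ) B0 B1 c0 c1 c2 = true) :
    goS ok R k κ z τ newL c0 = true := by
  unfold chT at h
  dsimp only at h
  rw [beq_of_ne hz, cond_false] at h
  exact h

theorem ne31_spec {m : ℕ} (h : (!(Nat.beq (Nat.land m 31) 31)) = true) :
    ∃ a : Fin 5, m.testBit a.1 = false := by
  by_contra hc
  push Not at hc
  apply beq_ne h
  change m &&& 31 = 31
  apply Nat.eq_of_testBit_eq
  intro i
  rw [Nat.testBit_and]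
  by_cases hi : i < 5
  · have h1 : m.testBit i = true := by
      cases hb : m.testBit i with
      | true => rfl
      | false => exact absurd hb (hc ⟨i, hi⟩)
    rw [h1, Bool.true_and]
  · have h32 : (31 : ℕ) < 2 ^ i := lt_of_lt_of_le (by norm_num : (31 : ℕ) < 2 ^ 5)
      (Nat.pow_le_pow_right (by norm_num) (by omega))
    rw [Nat.testBit_eq_false_of_lt h32, Bool.and_false]

theorem live_spec {m n : ℕ} (h : (!(Nat.beq (Nat.land (Nat.lor m n) 31) 31)) = true) :
    ∃ a : Fin 5, ¬ hs m a ∧ ¬ hs n a := by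
  obtain ⟨a, ha⟩ := ne31_spec h
  change (m ||| n).testBit a.1 = false at ha
  rw [Nat.testBit_or, Bool.or_eq_false_iff] at ha
  refine ⟨a, ?_, ?_⟩
  · unfold hs
    rw [ha.1]
    exact Bool.false_ne_true
  · unfold hs
    rw [ha.2]
    exact Bool.false_ne_true

/-- no sub-branches except new ones, at most one at every child -/
def subb (R : St) : Bool :=
  R.k.all fun k => match k.t with
    | [] => true
    | [z] => Nat.beq z.q 0 && (Nat.beq z.s 0 || Nat.beq (pcf z.s) 1)
    | _ :: _ :: _ => false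

theorem subb_spec {R : St} (h : subb R = true) {k : Kd} (hk : k ∈ R.k) {z : K0} {τ : List K0}
    (hp : k.t.Perm (z :: τ)) : k.t = [z] ∧ τ = [] ∧ z.New := by
  unfold subb at h
  rw [List.all_eq_true] at h
  have hk' := h k hk
  obtain ⟨l, s, q, t⟩ := k
  change t.Perm (z :: τ) at hp
  cases t with
  | nil => exact absurd hp.length_eq (by simp)
  | cons y t =>
    cases t with
    | nil =>
      have h1 := hp.length_eq
      rw [List.length_cons, List.length_cons, List.length_nil] at h1
      have h2 : τ = [] := List.length_eq_zero_iff.1 (by omega)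
      subst h2
      have h3 := List.perm_singleton.1 hp.symm
      cases h3
      refine ⟨rfl, rfl, ?_⟩
      change (Nat.beq z.q 0 && (Nat.beq z.s 0 || Nat.beq (pcf z.s) 1)) = true at hk'
      rw [Bool.and_eq_true, Bool.or_eq_true] at hk'
      refine ⟨beq_eq hk'.1, ?_⟩
      rcases hk'.2 with h4 | h4
      · exact Or.inl (beq_eq h4)
      · right
        rw [← pcf_eq]
        exact beq_eq h4
    | cons y' t => exact absurd hk' Bool.false_ne_true

end Pool.Agent.GCI
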