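import Pool.Agent.GCI.ChkP

/-!
# MP_f1ab9c: the Boolean conditions imply the conditions on the table
-/

set_option autoImplicit false

namespace Pool.Agent.GCI

theorem pc_pow (a : Fin 5) : pc (2 ^ a.1) = 1 := by
  fin_cases a <;> decide

theorem pow_lt (a : Fin 5) : 2 ^ a.1 < 32 := by
  fin_cases a <;> decide

/-- The conditions on the table follow from the Boolean ones. -/
theorem tab_of {L : List St} {ok : St → Bool} (hok : ∀ R, ok R = true → OKs (fun R => R ∈ L) R)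
    (X : MT) (hR : ∀ R ∈ L, ∃ C, chR ok X R C = true) (hS : ∀ R ∈ L, subb R = true)
    (hN1 : ∀ l, chN1 ok l n1L (X.n1 l) = true) (hN2 : ∀ l, chN2 ok l n2L (X.n2 l) = true)
    (hE : ∀ l, ∀ E ∈ endL l, ∃ m0 m1, mE ok l E m0 m1 = true ∧ inD E.l m0 m1 (X.d l) = true)
    (hg : ∀ S ∈ g1L, AnsS (fun R => R ∈ L) S)
    (hz : ∀ s < 32, pc s = 3 → ok ⟨.c, s, 0, 0, []⟩ = true ∧ ok ⟨.x, s, 0, 0, []⟩ = true) :
    Tab fun R => R ∈ L := by
  have hO : ∀ R ∈ L, ObsOK (fun R => R ∈ L) R := by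
    intro R hRL
    obtain ⟨C, hC⟩ := hR R hRL
    unfold chR at hC
    rw [Bool.and_eq_true, Bool.and_eq_true, Bool.and_eq_true, Bool.and_eq_true] at hC
    exact goA_sound hok hC.1.1.1.2
  have hO1 : ∀ R ∈ L, ∃ c, chO ok R c = true := by
    intro R hRL
    obtain ⟨C, hC⟩ := hR R hRL
    unfold chR at hC
    rw [Bool.and_eq_true, Bool.and_eq_true, Bool.and_eq_true, Bool.and_eq_true] at hC
    exact ⟨_, hC.1.1.1.1⟩
  have hNr : ∀ R ∈ L, ∀ p ∈ obsN R, (OKs (fun R => R ∈ L) p.1 ∧ AnsS (fun R => R ∈ L) p.2) ∨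
      (AnsS (fun R => R ∈ L) p.1 ∧ OKs (fun R => R ∈ L) p.2) := by
    intro R hRL
    obtain ⟨C, hC⟩ := hR R hRL
    unfold chR at hC
    rw [Bool.and_eq_true, Bool.and_eq_true, Bool.and_eq_true, Bool.and_eq_true] at hC
    exact goN_sound hok hC.1.1.2
  have hF : ∀ R ∈ L, ∀ (k : Kd) (κ : List Kd), (k, κ) ∈ sel R.k → k.Far →
      ∃ B0 B1 c1 c2, chF ok X R (k, κ) B0 B1 c1 c2 = true := by
    intro R hRL k κ hk hf
    obtain ⟨C, hC⟩ := hR R hRL
    unfold chR at hC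
    rw [Bool.and_eq_true, Bool.and_eq_true, Bool.and_eq_true, Bool.and_eq_true] at hC
    exact goF_spec hC.1.2 _ hk ((farb_iff k).2 hf)
  have hT : ∀ R ∈ L, ∀ (k : Kd) (κ : List Kd) (z : K0) (τ : List K0), (k, κ) ∈ sel R.k →
      (z, τ) ∈ sel k.t → ∃ B0 B1 c0 c1 c2, chT ok X R (k, κ) (z, τ) B0 B1 c0 c1 c2 = true := by
    intro R hRL k κ z τ hk hz
    obtain ⟨C, hC⟩ := hR R hRL
    unfold chR at hC
    rw [Bool.and_eq_true, Bool.and_eq_true, Bool.and_eq_true, Bool.and_eq_true] at hC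
    exact goT_spec hC.2 ((k, κ), (z, τ)) (mem_flat hk (List.mem_map.2 ⟨_, hz, rfl⟩))
  have hsub : ∀ R ∈ L, ∀ (k : Kd) (κ : List Kd) (z : K0) (τ : List K0), R.k.Perm (k :: κ) →
      k.t.Perm (z :: τ) → k.t = [z] ∧ τ = [] ∧ z.New := by
    intro R hRL k κ z τ hp hz
    exact subb_spec (hS R hRL) (hp.mem_iff.2 List.mem_cons_self) hz
  have hmask : ∀ (l : L3) (E : St), E.End → E.V [l] → ∃ m0 m1, m0 ≤ 31 ∧ m1 ≤ 31 ∧ m0 ≠ 0 ∧
      inD E.l m0 m1 (X.d l) = true ∧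
      (∀ a : Fin 5, bt m0 a.1 = true → ¬ hs E.s a ∧ OKs (fun R => R ∈ L) { E with s := ad E.s a }) ∧
      (∀ a : Fin 5, bt m1 a.1 = true →
        OKs (fun R => R ∈ L) { E with k := ⟨l, 2 ^ a.1, 0, []⟩ :: E.k }) := by
    intro l E hEnd hV
    obtain ⟨κ, h1, h2⟩ := mem_endL hEnd hV
    obtain ⟨m0, m1, h3, h4⟩ := hE l _ h1
    obtain ⟨a1, a2, a3, a4, a5⟩ := mE_spec hok h3
    obtain ⟨e, s, w, q, ks⟩ := E
    have hw : w = 0 := hEnd.2.1
    subst hw
    refine ⟨m0, m1, a1, a2, a3, h4, fun a ha => ?_, fun a ha => ?_⟩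
    · obtain ⟨b1, b2⟩ := a4 a ha
      exact ⟨b1, b2.pm h2⟩
    · exact (a5 a ha).pm (h2.cons _)
  refine
    { wf := ?_, g1 := ?_, z3 := ?_, rev := ?_, conv := ?_, kconv := ?_, free := ?_, new := ?_,
      near := ?_, far := ?_, kfree := ?_, att := ?_, scol := ?_, sfree := ?_, satt := ?_,
      low := ?_, atf1 := ?_, atf2 := ?_, hid1 := ?_, slow := ?_, satf1 := ?_, satf2 := ?_,
      shid1 := ?_, hid2 := ?_, live := ?_, neut := ?_ }
  · -- wf
    intro R hRL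
    obtain ⟨c, hc⟩ := hO1 R hRL
    unfold chO at hc
    rw [Bool.and_eq_true, Bool.and_eq_true, Bool.and_eq_true, Bool.and_eq_true] at hc
    refine ⟨Nat.le_of_ble_eq_true hc.1.1.1.1, Nat.le_of_ble_eq_true hc.1.1.1.2, ?_⟩
    intro k hk z hz
    obtain ⟨τ, hτ⟩ := mem_sel hz
    exact (subb_spec (hS R hRL) hk (sel_perm hτ)).2.2
  · -- g1
    intro R hV hw hk
    obtain ⟨κ, h1, h2⟩ := mem_g1L hV hw hk
    exact (hg _ h1).pm h2
  · -- z3
    intro l s hl hs h3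
    cases l
    · exact absurd rfl hl
    · exact hok _ (hz s hs h3).1
    · exact hok _ (hz s hs h3).2
  · -- rev
    intro R a hRL _ hw ha
    obtain ⟨c, hc⟩ := hO1 R hRL
    unfold chO at hc
    rw [Bool.and_eq_true, Bool.and_eq_true] at hc
    have h1 := hc.1.2
    rw [beq_of hw, Bool.not_true, Bool.false_or, List.all_eq_true] at h1
    have h2 := h1 _ (mem_col a)
    rw [Bool.or_eq_true] at h2
    rcases h2 with h2 | h2
    · rw [bt_hs] at h2
      exact absurd h2 ha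
    · rw [adf_eq] at h2
      exact hok _ h2
  · -- conv
    intro R a hRL _ hq ha
    exact (hO R hRL).conv a hq ha
  · -- kconv
    intro R k κ a hRL _ hp hq ha
    obtain ⟨κ', h1, h2⟩ := sel_of_perm hp
    exact ((hO R hRL).kconv h1 a hq ha).pm (h2.cons _)
  · -- free
    intro R a hRL _ hu ha
    exact (hO R hRL).free a hu ha
  · -- new
    intro R n hRL hV hn
    exact (hO R hRL).new hV hn
  · -- near
    intro R k κ a hRL _ hp hf h1 h2
    obtain ⟨κ', h3, h4⟩ := sel_of_perm hp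
    have := hNr R hRL (⟨R.l, adf R.s a.1, R.w, R.q, κ'⟩, ⟨k.l, adf k.s a.1, 0, k.q, ups k.t⟩)
      (mem_flat h3 (mem_cond_f (farb_false hf) (mem_flat (mem_col a) (mem_cond_t (by
        rw [Bool.and_eq_true]
        exact ⟨bt_not h1, bt_not h2⟩) List.mem_cons_self))))
    rw [adf_eq, adf_eq, ups_eq] at this
    rcases this with h5 | h5
    · exact Or.inl ⟨h5.1.pm h4, h5.2⟩
    · exact Or.inr ⟨h5.1.pm h4, h5.2⟩
  · -- far
    intro R k κ a hRL _ hp hf ha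
    obtain ⟨κ', h1, h2⟩ := sel_of_perm hp
    exact ((hO R hRL).far h1 a hf ha).pm h2
  · -- kfree
    intro R k κ a hRL _ hp hf hu ha
    obtain ⟨κ', h1, h2⟩ := sel_of_perm hp
    exact ((hO R hRL).kfree h1 a hf hu ha).pm (h2.cons _)
  · -- att
    intro R k κ n hRL _ hp hf hn hV
    obtain ⟨κ', h1, h2⟩ := sel_of_perm hp
    exact ((hO R hRL).att h1 hf hn hV).pm (h2.cons _)
  · -- scol
    intro R k κ z τ a hRL _ hp hz h3 h4
    obtain ⟨κ', h1, h2⟩ := sel_of_perm hp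
    obtain ⟨t1, t2, -⟩ := hsub R hRL k κ z τ hp hz
    subst t2
    exact ((hO R hRL).scol h1 (z := z) (τ := []) (by rw [t1]; exact List.mem_cons_self) a h3
      h4).pm (h2.cons _)
  · -- sfree
    intro R k κ z τ a hRL _ hp hz h3 h4 h5
    obtain ⟨κ', h1, h2⟩ := sel_of_perm hp
    obtain ⟨t1, t2, -⟩ := hsub R hRL k κ z τ hp hz
    subst t2
    exact ((hO R hRL).sfree h1 (z := z) (τ := []) (by rw [t1]; exact List.mem_cons_self) a h3
      h4 h5).pm (h2.cons _)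
  · -- satt
    intro R k κ z τ n hRL _ hp hz h3 hn hV
    obtain ⟨κ', h1, h2⟩ := sel_of_perm hp
    obtain ⟨t1, t2, -⟩ := hsub R hRL k κ z τ hp hz
    subst t2
    obtain ⟨B0, B1, c0, c1, c2, hc⟩ := hT R hRL k κ' z [] h1 (by
      rw [t1]
      exact List.mem_cons_self)
    have hs : n.s < 32 := (hV.2.2.2.2.2.2 n.up List.mem_cons_self).2.2.2.1
    exact (goS_sound hok (chT_near h3 hc) n (mem_newL hn hs) hV.2.1).pm h2
  · -- low
    intro R k κ a hRL _ hp hf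
    obtain ⟨κ', h1, h2⟩ := sel_of_perm hp
    exact ((hO R hRL).low h1 a hf).pm (h2.cons _)
  · -- atf1
    intro R k κ h a hRL _ hp hf hh hV
    obtain ⟨κ', h1, h2⟩ := sel_of_perm hp
    obtain ⟨B0, B1, c1, c2, hc⟩ := hF R hRL k κ' h1 hf
    obtain ⟨-, b2, b3, -, -⟩ := chF_spec hok hc
    have hs : h.s < 32 := (hV.2.2.2.2 h List.mem_cons_self).2.2.2
    exact (goF1_sound hok b2 (hN1 k.l) b3 h a (mem_n1L (mem_oneL hh hs) a) hV.1).pm (h2.cons _)
  · -- atf2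
    intro R k κ h n hRL _ hp hf hh hn hV
    obtain ⟨κ', h1, h2⟩ := sel_of_perm hp
    obtain ⟨B0, B1, c1, c2, hc⟩ := hF R hRL k κ' h1 hf
    obtain ⟨-, b2, -, b4, -⟩ := chF_spec hok hc
    have hs : h.s < 32 := (hV.2.2.2.2 h List.mem_cons_self).2.2.2
    have hs' : n.s < 32 := (hV.2.2.2.2 n (List.mem_cons_of_mem _ List.mem_cons_self)).2.2.2
    exact (goF2_sound hok b2 (hN2 k.l) b4 h n (mem_n2L (mem_oneL hh hs) (mem_newL hn hs'))
      hV.1).pm (h2.cons _)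
  · -- hid1
    intro R k κ E hRL _ hp hf hEnd hV hnb
    obtain ⟨κ', h1, h2⟩ := sel_of_perm hp
    obtain ⟨B0, B1, c1, c2, hc⟩ := hF R hRL k κ' h1 hf
    obtain ⟨b1, b2, -, -, b5⟩ := chF_spec hok hc
    obtain ⟨m0, m1, i1, i2, -, i4, i5, i6⟩ := hmask k.l E hEnd hV
    rcases goH_sound b5 E.l m0 m1 i4 hnb with hh | hh
    · obtain ⟨a, a1, a2⟩ := int_spec hh i1
      exact Or.inl ⟨a, (i5 a a1).1, (b1 a a2).pm (h2.cons _), (i5 a a1).2⟩
    · obtain ⟨a, a1, a2⟩ := int_spec hh i2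
      exact Or.inr ⟨a, (b2 a a2).1, (b2 a a2).2.pm h2, i6 a a1⟩
  · -- slow
    intro R k κ z τ a hRL _ hp hz h3
    obtain ⟨κ', h1, h2⟩ := sel_of_perm hp
    obtain ⟨t1, t2, -⟩ := hsub R hRL k κ z τ hp hz
    subst t2
    exact ((hO R hRL).slow h1 (z := z) (τ := []) (by rw [t1]; exact List.mem_cons_self) a h3).pm
      (h2.cons _)
  · -- satf1
    intro R k κ z τ h a hRL _ hp hz h3 hh hV
    obtain ⟨κ', h1, h2⟩ := sel_of_perm hp
    obtain ⟨t1, t2, -⟩ := hsub R hRL k κ z τ hp hz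
    subst t2
    obtain ⟨B0, B1, c0, c1, c2, hc⟩ := hT R hRL k κ' z [] h1 (by
      rw [t1]
      exact List.mem_cons_self)
    obtain ⟨-, b2, b3, -, -⟩ := chT_spec hok h3 hc
    have hs : h.s < 32 := (hV.2.2.2.2.2.2 h.up List.mem_cons_self).2.2.2.1
    exact (goS1_sound hok b2 (hN1 z.l) b3 h a (mem_n1L (mem_oneL hh hs) a) hV.2.1).pm h2
  · -- satf2
    intro R k κ z τ h n hRL _ hp hz h3 hh hn hV
    obtain ⟨κ', h1, h2⟩ := sel_of_perm hp
    obtain ⟨t1, t2, -⟩ := hsub R hRL k κ z τ hp hz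
    subst t2
    obtain ⟨B0, B1, c0, c1, c2, hc⟩ := hT R hRL k κ' z [] h1 (by
      rw [t1]
      exact List.mem_cons_self)
    obtain ⟨-, b2, -, b4, -⟩ := chT_spec hok h3 hc
    have hs : h.s < 32 := (hV.2.2.2.2.2.2 h.up List.mem_cons_self).2.2.2.1
    have hs' : n.s < 32 := (hV.2.2.2.2.2.2 n.up (List.mem_cons_of_mem _
      List.mem_cons_self)).2.2.2.1
    exact (goS2_sound hok b2 (hN2 z.l) b4 h n (mem_n2L (mem_oneL hh hs) (mem_newL hn hs'))
      hV.2.1).pm h2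
  · -- shid1
    intro R k κ z τ E hRL _ hp hz h3 hEnd hV hnb
    obtain ⟨κ', h1, h2⟩ := sel_of_perm hp
    obtain ⟨t1, t2, -⟩ := hsub R hRL k κ z τ hp hz
    subst t2
    obtain ⟨B0, B1, c0, c1, c2, hc⟩ := hT R hRL k κ' z [] h1 (by
      rw [t1]
      exact List.mem_cons_self)
    obtain ⟨b1, b2, -, -, b5⟩ := chT_spec hok h3 hc
    obtain ⟨m0, m1, i1, i2, -, i4, i5, i6⟩ := hmask z.l E hEnd hV
    rcases goH_sound b5 E.l m0 m1 i4 hnb with hh | hh
    · obtain ⟨a, a1, a2⟩ := int_spec hh i1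
      exact Or.inl ⟨a, (i5 a a1).1, (b1 a a2).pm (h2.cons _), (i5 a a1).2⟩
    · obtain ⟨a, a1, a2⟩ := int_spec hh i2
      exact Or.inr ⟨a, (b2 a a2).1, (b2 a a2).2.pm (h2.cons _), i6 a a1⟩
  · -- hid2
    intro E l hEnd hV
    obtain ⟨m0, m1, i1, i2, i3, i4, i5, i6⟩ := hmask l E hEnd hV
    have hi : int m0 31 = true := by
      unfold int
      rw [beq_of_ne]
      · rfl
      · intro h0
        apply i3
        have h1 : m0 &&& 31 = m0 % 32 := Nat.and_two_pow_sub_one_eq_mod m0 5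
        have h2 : m0 &&& 31 = 0 := h0
        omega
    obtain ⟨a, a1, -⟩ := int_spec hi i1
    exact ⟨a, (i5 a a1).1, (i5 a a1).2⟩
  · -- live
    intro R k hRL _ hk
    obtain ⟨c, hc⟩ := hO1 R hRL
    unfold chO at hc
    rw [Bool.and_eq_true, Bool.and_eq_true, Bool.and_eq_true] at hc
    have h1 := hc.1.1.2
    unfold liveb at h1
    rw [List.all_eq_true] at h1
    have h2 := h1 k hk
    rw [Bool.and_eq_true, List.all_eq_true] at h2
    exact ⟨live_spec h2.1, fun z hz => live_spec (h2.2 z hz)⟩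
  · -- neut
    intro R hRL _ hu
    obtain ⟨c, hc⟩ := hO1 R hRL
    unfold chO at hc
    rw [Bool.and_eq_true, Bool.or_eq_true] at hc
    rcases hc.2 with h1 | h1
    · rw [Bool.and_eq_true] at h1
      have h2 := beq_eq h1.1
      rw [usedf_eq] at h2
      rcases hu with hu | hu
      · omega
      · exact absurd (emp_spec h1.2) hu
    · rw [Bool.and_eq_true] at h1
      rcases ansC_sound hok h1.2 with h2 | h2
      · exact absurd h2.1 (beq_ne h1.1)
      · exact h2.2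

end Pool.Agent.GCI
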