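import Pool.Agent.GCI.ChkQ
import Pool.Agent.GCI.ChkD

/-!
# MP_f1ab9c: the search tree of the table, soundness of `okA`
-/

set_option autoImplicit false

namespace Pool.Agent.GCI

/-- equality of sub-branches -/
def eq0b : List K0 → List K0 → Bool
  | [], [] => true
  | z :: τ, z' :: τ' => z.l.eqb z'.l && Nat.beq z.s z'.s && Nat.beq z.q z'.q && eq0b τ τ'
  | _, _ => false

/-- equality of children -/
def eqKb (k k' : Kd) : Bool :=
  k.l.eqb k'.l && Nat.beq k.s k'.s && Nat.beq k.q k'.q && eq0b k.t k'.t

/-- remove a child -/
def delK (k : Kd) : List Kd → Option (List Kd)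
  | [] => none
  | k' :: κ => cond (eqKb k k') (some κ) (match delK k κ with
    | none => none
    | some κ' => some (k' :: κ'))

/-- the lists are permutations of each other -/
def permK : List Kd → List Kd → Bool
  | [], κ' => emp κ'
  | k :: κ, κ' => match delK k κ' with
    | none => false
    | some κ'' => permK κ κ''

/-- the star with the number `i` -/
def nth : List St → ℕ → Option St
  | [], _ => none
  | R :: _, 0 => some R
  | _ :: L, i + 1 => nth L i

/-- masks of sub-branches -/
def lt0b : List K0 → Bool
  | [] => true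
  | z :: τ => Nat.ble z.s 31 && lt0b τ

/-- masks of children -/
def ltKb : List Kd → Bool
  | [] => true
  | k :: κ => Nat.ble k.s 31 && lt0b k.t && ltKb κ

/-- number of the masks of children -/
def nmK : List Kd → ℕ
  | [] => 0
  | k :: κ => Nat.add (Nat.succ (len k.t)) (nmK κ)

/-- the check of an entry of the search tree -/
def entb (x i : ℕ) (R : St) : Bool :=
  Nat.beq x (key R) && Nat.ble R.s 31 && ltKb R.k && Nat.ble (nmK R.k) 7 && match nth tab i with
    | none => false
    | some R0 => R0.l.eqb R.l && Nat.beq R0.s R.s && Nat.beq R0.w R.w && Nat.beq R0.q R.q &&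
      permK R0.k R.k

theorem eq0b_spec {τ τ' : List K0} (h : eq0b τ τ' = true) : τ = τ' := by
  induction τ generalizing τ' with
  | nil =>
    cases τ' with
    | nil => rfl
    | cons z τ' => exact absurd h Bool.false_ne_true
  | cons z τ ih =>
    cases τ' with
    | nil => exact absurd h Bool.false_ne_true
    | cons z' τ' =>
      obtain ⟨l, s, q⟩ := z
      obtain ⟨l', s', q'⟩ := z'
      unfold eq0b at h
      rw [Bool.and_eq_true, Bool.and_eq_true, Bool.and_eq_true] at h
      obtain ⟨⟨⟨h1, h2⟩, h3⟩, h4⟩ := h
      have e1 : l = l' := eqb_spec h1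
      have e2 : s = s' := beq_eq h2
      have e3 : q = q' := beq_eq h3
      rw [e1, e2, e3, ih h4]

theorem eqKb_spec {k k' : Kd} (h : eqKb k k' = true) : k = k' := by
  obtain ⟨l, s, q, t⟩ := k
  obtain ⟨l', s', q', t'⟩ := k'
  unfold eqKb at h
  rw [Bool.and_eq_true, Bool.and_eq_true, Bool.and_eq_true] at h
  obtain ⟨⟨⟨h1, h2⟩, h3⟩, h4⟩ := h
  have e1 : l = l' := eqb_spec h1
  have e2 : s = s' := beq_eq h2
  have e3 : q = q' := beq_eq h3
  have e4 : t = t' := eq0b_spec h4
  rw [e1, e2, e3, e4]

theorem delK_spec {k : Kd} {κ κ' : List Kd} (h : delK k κ = some κ') : κ.Perm (k :: κ') := by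
  induction κ generalizing κ' with
  | nil => cases h
  | cons y κ ih =>
    unfold delK at h
    cases he : eqKb k y with
    | true =>
      rw [he, cond_true] at h
      cases h
      rw [eqKb_spec he]
    | false =>
      rw [he, cond_false] at h
      cases hd : delK k κ with
      | none =>
        rw [hd] at h
        cases h
      | some κ'' =>
        rw [hd] at h
        cases h
        exact ((ih hd).cons y).trans (List.Perm.swap _ _ _)

theorem permK_spec {κ κ' : List Kd} (h : permK κ κ' = true) : κ.Perm κ' := by
  induction κ generalizing κ' with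
  | nil => rw [emp_spec h]
  | cons k κ ih =>
    unfold permK at h
    cases hd : delK k κ' with
    | none =>
      rw [hd] at h
      exact absurd h Bool.false_ne_true
    | some κ'' =>
      rw [hd] at h
      exact ((ih h).cons k).trans (delK_spec hd).symm

theorem nth_mem {L : List St} {i : ℕ} {R : St} (h : nth L i = some R) : R ∈ L := by
  induction L generalizing i with
  | nil => cases i <;> cases h
  | cons x L ih =>
    cases i with
    | zero =>
      cases h
      exact List.mem_cons_self
    | succ i => exact List.mem_cons_of_mem _ (ih h)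

theorem lt0b_spec {τ : List K0} (h : lt0b τ = true) : ∀ m ∈ τ.map K0.s, m ≤ 31 := by
  induction τ with
  | nil => exact fun m hm => by cases hm
  | cons z τ ih =>
    unfold lt0b at h
    rw [Bool.and_eq_true] at h
    intro m hm
    rw [List.map_cons, List.mem_cons] at hm
    rcases hm with rfl | hm
    · exact Nat.le_of_ble_eq_true h.1
    · exact ih h.2 m hm

theorem ltKb_spec {κ : List Kd} (h : ltKb κ = true) : ∀ m ∈ msK κ, m ≤ 31 := by
  induction κ with
  | nil => exact fun m hm => by cases hm
  | cons k κ ih =>
    unfold ltKb at h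
    rw [Bool.and_eq_true, Bool.and_eq_true] at h
    intro m hm
    change m ∈ k.s :: (k.t.map K0.s ++ msK κ) at hm
    rw [List.mem_cons, List.mem_append] at hm
    rcases hm with rfl | hm | hm
    · exact Nat.le_of_ble_eq_true h.1.1
    · exact lt0b_spec h.1.2 m hm
    · exact ih h.2 m hm

theorem nmK_eq (κ : List Kd) : nmK κ = (msK κ).length := by
  induction κ with
  | nil => rfl
  | cons k κ ih =>
    rw [msK_length_cons]
    unfold nmK
    change (len k.t + 1) + nmK κ = _
    rw [len_eq, ih]
    omega

theorem key_div {R : St} : key R / 2 ^ 40 = mcode (vec R) := by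
  have h1 : Nat.land (shf R) 0xffffffffff < 2 ^ 40 := by
    change shf R &&& 1099511627775 < _
    have h2 : shf R &&& 1099511627775 = shf R % 2 ^ 40 := Nat.and_two_pow_sub_one_eq_mod _ 40
    rw [h2]
    exact Nat.mod_lt _ (by norm_num)
  have h2 : key R = mcode (vec R) * 2 ^ 40 + Nat.land (shf R) 0xffffffffff := by
    unfold key
    have : Nat.shiftLeft (mcode (vec R)) 40 = mcode (vec R) * 2 ^ 40 := by
      change mcode (vec R) <<< 40 = _
      exact Nat.shiftLeft_eq _ _
    rw [this]
    rfl
  rw [h2]
  omega

theorem lookb_sound (hT : theBT.all entb = true) {R : St} (h : lookb R = true) :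
    OKs (fun R => R ∈ tab) R := by
  unfold lookb at h
  cases hf : BT.find (key R) theBT with
  | none =>
    rw [hf] at h
    exact absurd h Bool.false_ne_true
  | some R' =>
    rw [hf] at h
    obtain ⟨i, hi⟩ := BT.find_spec hT hf
    unfold entb at hi
    rw [Bool.and_eq_true, Bool.and_eq_true, Bool.and_eq_true, Bool.and_eq_true] at hi
    obtain ⟨⟨⟨⟨h1, h2⟩, h3⟩, h4⟩, h5⟩ := hi
    have hk := beq_eq h1
    have hm : mcode (vec R) = mcode (vec R') := by
      rw [← key_div, ← key_div, hk]
    have hl : (msS R').length ≤ 8 := by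
      have := Nat.le_of_ble_eq_true h4
      rw [nmK_eq] at this
      unfold msS
      rw [List.length_cons]
      omega
    have hs : ∀ m ∈ msS R', m ≤ 31 := by
      intro m hm
      unfold msS at hm
      rw [List.mem_cons] at hm
      rcases hm with rfl | hm
      · exact Nat.le_of_ble_eq_true h2
      · exact ltKb_spec h3 m hm
    obtain ⟨π, hπ⟩ := col_of_shb h hm hl hs
    refine OKs.col π ?_
    rw [hπ]
    cases hn : nth tab i with
    | none =>
      rw [hn] at h5
      exact absurd h5 Bool.false_ne_true
    | some R0 =>
      rw [hn] at h5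
      change (R0.l.eqb R'.l && Nat.beq R0.s R'.s && Nat.beq R0.w R'.w && Nat.beq R0.q R'.q &&
        permK R0.k R'.k) = true at h5
      rw [Bool.and_eq_true, Bool.and_eq_true, Bool.and_eq_true, Bool.and_eq_true] at h5
      obtain ⟨⟨⟨⟨e1, e2⟩, e3⟩, e4⟩, e5⟩ := h5
      have h0 : OKs (fun R => R ∈ tab) R0 := OKs.tab (nth_mem hn)
      obtain ⟨l, s, w, q, k⟩ := R'
      obtain ⟨l0, s0, w0, q0, k0⟩ := R0
      have f1 : l0 = l := eqb_spec e1
      have f2 : s0 = s := beq_eq e2
      have f3 : w0 = w := beq_eq e3
      have f4 : q0 = q := beq_eq e4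
      subst f1 f2 f3 f4
      exact h0.pm (permK_spec e5)

theorem tree_ok : theBT.all entb = true := by decide +kernel

theorem okA_sound {R : St} (h : okA R = true) : OKs (fun R => R ∈ tab) R :=
  ok2_sound (fun _ h => lookb_sound tree_ok h) h

/-- check of a list of stars -/
def chL : List St → List CT → Bool
  | _, [] => true
  | [], _ :: _ => false
  | R :: L, C :: M => chR okA theX R C && chL L M

theorem chL_spec {L : List St} {M : List CT} (h : chL L M = true) :
    ∀ R ∈ L.take M.length, ∃ C, chR okA theX R C = true := by
  induction M generalizing L with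
  | nil =>
    intro R hR
    rw [List.length_nil, List.take_zero] at hR
    cases hR
  | cons C M ih =>
    cases L with
    | nil =>
      intro R hR
      rw [List.take_nil] at hR
      cases hR
    | cons S L =>
      unfold chL at h
      rw [Bool.and_eq_true] at h
      intro R hR
      rw [List.length_cons, List.take_succ_cons, List.mem_cons] at hR
      rcases hR with rfl | hR
      · exact ⟨C, h.1⟩
      · exact ih h.2 R hR

theorem mem_td {α : Type} {L : List α} {x : α} (n : ℕ) (h : x ∈ L) :
    x ∈ L.take n ∨ x ∈ L.drop n := by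
  rw [← List.mem_append, List.take_append_drop]
  exact h

end Pool.Agent.GCI
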