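import Pool.Agent.GCI.ChkF

/-!
# MP_f1ab9c: soundness of the Boolean conditions, first part
-/

set_option autoImplicit false

namespace Pool.Agent.GCI

/-! ### Masks -/

theorem pcf_eq (n : ℕ) : pcf n = pc n := by
  unfold pcf
  by_cases h : Nat.ble n 31 = true
  · rw [h, cond_true]
    have h' : n ≤ 31 := Nat.le_of_ble_eq_true h
    interval_cases n <;> rfl
  · rw [Bool.not_eq_true] at h
    rw [h, cond_false]

theorem bt_eq (n a : ℕ) : bt n a = n.testBit a := by
  have h : Nat.land (Nat.shiftRight n a) 1 = n / 2 ^ a % 2 := by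
    change (n >>> a) &&& 1 = _
    rw [Nat.and_one_is_mod, Nat.shiftRight_eq_div_pow]
  unfold bt
  rw [h, Nat.testBit_eq_decide_div_mod_eq]
  rcases Nat.mod_two_eq_zero_or_one (n / 2 ^ a) with h1 | h1 <;> rw [h1] <;> rfl

theorem bt_hs (n : ℕ) (a : Fin 5) : bt n a.1 = hs n a := bt_eq n a.1

theorem adf_eq (n : ℕ) (a : Fin 5) : adf n a.1 = ad n a := by
  unfold adf ad
  change n ||| (1 <<< a.1) = _
  rw [Nat.one_shiftLeft]

theorem shl_eq (a : ℕ) : Nat.shiftLeft 1 a = 2 ^ a := by
  change 1 <<< a = _
  rw [Nat.one_shiftLeft]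

theorem exists_bit {n : ℕ} (h : n &&& 31 ≠ 0) : ∃ a : Fin 5, hs n a := by
  obtain ⟨i, hi⟩ := Nat.exists_testBit_of_ne_zero h
  rw [Nat.testBit_and, Bool.and_eq_true] at hi
  have hi5 : i < 5 := by
    by_contra hc
    have h32 : (31 : ℕ) < 2 ^ i := lt_of_lt_of_le (by norm_num : (31 : ℕ) < 2 ^ 5)
      (Nat.pow_le_pow_right (by norm_num) (by omega))
    rw [Nat.testBit_eq_false_of_lt h32] at hi
    exact Bool.false_ne_true hi.2
  exact ⟨⟨i, hi5⟩, hi.1⟩

theorem beq_eq {m n : ℕ} (h : Nat.beq m n = true) : m = n := Nat.eq_of_beq_eq_true h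

theorem beq_ne {m n : ℕ} (h : (!(Nat.beq m n)) = true) : m ≠ n := by
  intro h1
  subst h1
  rw [Nat.beq_refl] at h
  exact Bool.false_ne_true h

theorem com_spec {m n : ℕ} (h : com m n = true) : ∃ a : Fin 5, hs m a ∧ hs n a := by
  obtain ⟨a, ha⟩ := exists_bit (n := m &&& n) (beq_ne h)
  unfold hs at ha
  rw [Nat.testBit_and, Bool.and_eq_true] at ha
  exact ⟨a, ha⟩

theorem isM_spec {l : L3} (h : l.isM = true) : l = .m := by
  cases l <;> first | rfl | exact absurd h Bool.false_ne_true

theorem not_isM_spec {l : L3} (h : (!l.isM) = true) : l ≠ .m := by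
  rintro rfl
  exact absurd h Bool.false_ne_true

theorem eqb_spec {l l' : L3} (h : l.eqb l' = true) : l = l' := by
  cases l <;> cases l' <;> first | rfl | exact absurd h Bool.false_ne_true

theorem eqb_iff {l l' : L3} : l.eqb l' = true ↔ l = l' := by
  constructor
  · exact eqb_spec
  · rintro rfl
    cases l <;> rfl

theorem qNewb_spec {l : L3} {s : ℕ} (h : qNewb l s = true) : qNew l s := by
  cases l
  · exact absurd h Bool.false_ne_true
  · exact ⟨by decide, fun h => by cases h⟩
  · refine ⟨by decide, fun _ => ?_⟩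
    rw [← pcf_eq]
    exact Nat.le_of_ble_eq_true h

theorem qNewb_of {l : L3} {s : ℕ} (h : qNew l s) : qNewb l s = true := by
  cases l
  · exact absurd rfl h.1
  · rfl
  · have := h.2 rfl
    rw [← pcf_eq] at this
    exact Nat.ble_eq_true_of_le this

/-! ### Weights -/

theorem wt0f_eq (z : K0) : wt0f z = z.wt := by
  unfold wt0f K0.wt
  by_cases h : z.s = 0
  · rw [if_pos h, h]
    rfl
  · rw [if_neg h, pcf_eq]
    have : Nat.beq z.s 0 = false := by
      rw [← Bool.not_eq_true]
      intro h1
      exact h (beq_eq h1)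
    rw [this, cond_false]

theorem sum0f_eq (τ : List K0) : sum0f τ = (τ.map K0.wt).sum := by
  induction τ with
  | nil => rfl
  | cons z τ ih =>
    rw [List.map_cons, List.sum_cons, ← ih, ← wt0f_eq]
    rfl

theorem wtKf_eq (k : Kd) : wtKf k = k.wt := by
  obtain ⟨l, s, q, t⟩ := k
  unfold wtKf Kd.wt
  cases t with
  | nil =>
    by_cases h : s = 0
    · rw [if_pos ⟨h, rfl⟩, h]
      rfl
    · rw [if_neg fun h1 => h h1.1]
      have : Nat.beq s 0 = false := by
        rw [← Bool.not_eq_true]
        intro h1
        exact h (beq_eq h1)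
      change cond (Nat.beq s 0) 1 (pcf s) = _
      rw [this, cond_false, pcf_eq]
      rfl
  | cons z τ =>
    rw [if_neg fun h1 => by cases h1.2]
    change pcf s + sum0f (z :: τ) = _
    rw [pcf_eq, sum0f_eq]

theorem sumKf_eq (κ : List Kd) : sumKf κ = (κ.map Kd.wt).sum := by
  induction κ with
  | nil => rfl
  | cons z τ ih =>
    rw [List.map_cons, List.sum_cons, ← ih, ← wtKf_eq]
    rfl

theorem wtf_eq (R : St) : wtf R = R.wt := by
  unfold wtf St.wt
  rw [sumKf_eq, pcf_eq]
  rfl

theorem len_eq {α : Type} (l : List α) : len l = l.length := by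
  induction l with
  | nil => rfl
  | cons x l ih =>
    rw [List.length_cons, ← ih]
    rfl

theorem usedf_eq (R : St) : usedf R = R.used := by
  unfold usedf St.used
  rw [len_eq, pcf_eq]
  rfl

theorem emp_spec {α : Type} {l : List α} (h : emp l = true) : l = [] := by
  cases l with
  | nil => rfl
  | cons x l => exact absurd h Bool.false_ne_true

theorem ups_eq (τ : List K0) : ups τ = τ.map K0.up := by
  induction τ with
  | nil => rfl
  | cons z τ ih =>
    rw [List.map_cons, ← ih]
    rfl

theorem downs_spec {κ : List Kd} {τ : List K0} (h : downs κ = some τ) : κ = τ.map K0.up := by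
  induction κ generalizing τ with
  | nil =>
    cases h
    rfl
  | cons k κ ih =>
    obtain ⟨l, s, q, t⟩ := k
    cases t with
    | nil =>
      cases hd : downs κ with
      | none =>
        have : downs (⟨l, s, q, []⟩ :: κ) = none := by
          change (downs κ).map _ = none
          rw [hd]
          rfl
        rw [this] at h
        cases h
      | some τ' =>
        have : downs (⟨l, s, q, []⟩ :: κ) = some (⟨l, s, q⟩ :: τ') := by
          change (downs κ).map _ = _
          rw [hd]
          rfl
        rw [this] at h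
        cases h
        rw [List.map_cons, ← ih hd]
        rfl
    | cons z t => cases h

/-! ### Selections -/

theorem pick_spec {α : Type} {i : ℕ} {l κ : List α} {x : α} (h : pick i l = some (x, κ)) :
    l.Perm (x :: κ) := by
  induction l generalizing i κ with
  | nil =>
    cases i <;> cases h
  | cons y l ih =>
    cases i with
    | zero =>
      cases h
      exact List.Perm.refl _
    | succ i =>
      change (pick i l).map _ = _ at h
      cases hp : pick i l with
      | none =>
        rw [hp] at h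
        cases h
      | some p =>
        obtain ⟨z, τ⟩ := p
        rw [hp] at h
        cases h
        exact ((ih hp).cons y).trans (List.Perm.swap _ _ _)

theorem sel_perm {α : Type} {l κ : List α} {x : α} (h : (x, κ) ∈ sel l) : l.Perm (x :: κ) := by
  induction l generalizing κ with
  | nil => cases h
  | cons y l ih =>
    unfold sel at h
    rw [List.mem_cons] at h
    rcases h with h | h
    · cases h
      exact List.Perm.refl _
    · rw [List.mem_map] at h
      obtain ⟨p, hp, h⟩ := h
      obtain ⟨z, τ⟩ := p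
      cases h
      exact ((ih hp).cons y).trans (List.Perm.swap _ _ _)

theorem mem_sel {α : Type} {l : List α} {x : α} (h : x ∈ l) : ∃ κ, (x, κ) ∈ sel l := by
  induction l with
  | nil => cases h
  | cons y l ih =>
    rw [List.mem_cons] at h
    rcases h with rfl | h
    · exact ⟨l, List.mem_cons_self⟩
    · obtain ⟨κ, hκ⟩ := ih h
      exact ⟨y :: κ, List.mem_cons_of_mem _ (List.mem_map.2 ⟨_, hκ, rfl⟩)⟩

theorem sel_of_perm {α : Type} [DecidableEq α] {l κ : List α} {x : α} (h : l.Perm (x :: κ)) :
    ∃ κ', (x, κ') ∈ sel l ∧ κ'.Perm κ := by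
  obtain ⟨κ', hκ'⟩ := mem_sel (h.mem_iff.2 List.mem_cons_self)
  refine ⟨κ', hκ', ?_⟩
  exact (List.perm_cons x).1 ((sel_perm hκ').symm.trans h)

end Pool.Agent.GCI
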