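import Pool.Agent.GCI.ChkF

/-!
# MP_f1ab9c: the search tree of the good stars
-/

set_option autoImplicit false

namespace Pool.Agent.GCI

/-- a part of the search tree -/
def bt00000 : BT :=
  (.node 5497558213712 194 ⟨.m, 0, 0, 0, [⟨.x, 0, 0, []⟩, ⟨.c, 0, 0, []⟩, ⟨.m, 0, 0, []⟩]⟩
(.node 5497558209553 192 ⟨.m, 0, 0, 0, [⟨.c, 0, 0, []⟩, ⟨.m, 0, 0, []⟩, ⟨.c, 0, 0, []⟩]⟩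
(.node 5497558205522 194 ⟨.m, 0, 0, 0, [⟨.m, 0, 0, []⟩, ⟨.c, 0, 0, []⟩, ⟨.x, 0, 0, []⟩]⟩
(.node 5497558205458 177 ⟨.m, 0, 0, 0, [⟨.m, 0, 0, []⟩, ⟨.m, 0, 0, []⟩, ⟨.x, 0, 0, []⟩]⟩
(.node 5497558205457 175 ⟨.m, 0, 0, 0, [⟨.m, 0, 0, []⟩, ⟨.m, 0, 0, []⟩, ⟨.c, 0, 0, []⟩]⟩
(.node 5497558205456 172 ⟨.m, 0, 0, 0, [⟨.m, 0, 0, []⟩, ⟨.m, 0, 0, []⟩, ⟨.m, 0, 0, []⟩]⟩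
.nil
.nil)
.nil)
(.node 5497558205521 192 ⟨.m, 0, 0, 0, [⟨.m, 0, 0, []⟩, ⟨.c, 0, 0, []⟩, ⟨.c, 0, 0, []⟩]⟩
(.node 5497558205520 175 ⟨.m, 0, 0, 0, [⟨.m, 0, 0, []⟩, ⟨.c, 0, 0, []⟩, ⟨.m, 0, 0, []⟩]⟩
.nil
.nil)
.nil))
(.node 5497558205586 198 ⟨.m, 0, 0, 0, [⟨.m, 0, 0, []⟩, ⟨.x, 0, 0, []⟩, ⟨.x, 0, 0, []⟩]⟩
(.node 5497558205585 194 ⟨.m, 0, 0, 0, [⟨.m, 0, 0, []⟩, ⟨.x, 0, 0, []⟩, ⟨.c, 0, 0, []⟩]⟩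
(.node 5497558205584 177 ⟨.m, 0, 0, 0, [⟨.m, 0, 0, []⟩, ⟨.x, 0, 0, []⟩, ⟨.m, 0, 0, []⟩]⟩
.nil
.nil)
.nil)
(.node 5497558209552 175 ⟨.m, 0, 0, 0, [⟨.c, 0, 0, []⟩, ⟨.m, 0, 0, []⟩, ⟨.m, 0, 0, []⟩]⟩
.nil
.nil)))
(.node 5497558209681 262 ⟨.m, 0, 0, 0, [⟨.c, 0, 0, []⟩, ⟨.x, 0, 0, []⟩, ⟨.c, 0, 0, []⟩]⟩
(.node 5497558209617 260 ⟨.m, 0, 0, 0, [⟨.c, 0, 0, []⟩, ⟨.c, 0, 0, []⟩, ⟨.c, 0, 0, []⟩]⟩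
(.node 5497558209616 192 ⟨.m, 0, 0, 0, [⟨.c, 0, 0, []⟩, ⟨.c, 0, 0, []⟩, ⟨.m, 0, 0, []⟩]⟩
(.node 5497558209554 194 ⟨.m, 0, 0, 0, [⟨.c, 0, 0, []⟩, ⟨.m, 0, 0, []⟩, ⟨.x, 0, 0, []⟩]⟩
.nil
.nil)
.nil)
(.node 5497558209680 194 ⟨.m, 0, 0, 0, [⟨.c, 0, 0, []⟩, ⟨.x, 0, 0, []⟩, ⟨.m, 0, 0, []⟩]⟩
(.node 5497558209618 262 ⟨.m, 0, 0, 0, [⟨.c, 0, 0, []⟩, ⟨.c, 0, 0, []⟩, ⟨.x, 0, 0, []⟩]⟩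
.nil
.nil)
.nil))
(.node 5497558213649 194 ⟨.m, 0, 0, 0, [⟨.x, 0, 0, []⟩, ⟨.m, 0, 0, []⟩, ⟨.c, 0, 0, []⟩]⟩
(.node 5497558213648 177 ⟨.m, 0, 0, 0, [⟨.x, 0, 0, []⟩, ⟨.m, 0, 0, []⟩, ⟨.m, 0, 0, []⟩]⟩
(.node 5497558209682 266 ⟨.m, 0, 0, 0, [⟨.c, 0, 0, []⟩, ⟨.x, 0, 0, []⟩, ⟨.x, 0, 0, []⟩]⟩
.nil
.nil)
.nil)
(.node 5497558213650 198 ⟨.m, 0, 0, 0, [⟨.x, 0, 0, []⟩, ⟨.m, 0, 0, []⟩, ⟨.x, 0, 0, []⟩]⟩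
.nil
.nil))))
(.node 5497558475794 375 ⟨.c, 0, 0, 0, [⟨.x, 0, 0, []⟩, ⟨.m, 0, 0, []⟩, ⟨.x, 0, 0, []⟩]⟩
(.node 5497558467600 371 ⟨.c, 0, 0, 0, [⟨.m, 0, 0, []⟩, ⟨.m, 0, 0, []⟩, ⟨.m, 0, 0, []⟩]⟩
(.node 5497558213776 198 ⟨.m, 0, 0, 0, [⟨.x, 0, 0, []⟩, ⟨.x, 0, 0, []⟩, ⟨.m, 0, 0, []⟩]⟩
(.node 5497558213714 266 ⟨.m, 0, 0, 0, [⟨.x, 0, 0, []⟩, ⟨.c, 0, 0, []⟩, ⟨.x, 0, 0, []⟩]⟩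
(.node 5497558213713 262 ⟨.m, 0, 0, 0, [⟨.x, 0, 0, []⟩, ⟨.c, 0, 0, []⟩, ⟨.c, 0, 0, []⟩]⟩
.nil
.nil)
.nil)
(.node 5497558213778 273 ⟨.m, 0, 0, 0, [⟨.x, 0, 0, []⟩, ⟨.x, 0, 0, []⟩, ⟨.x, 0, 0, []⟩]⟩
(.node 5497558213777 266 ⟨.m, 0, 0, 0, [⟨.x, 0, 0, []⟩, ⟨.x, 0, 0, []⟩, ⟨.c, 0, 0, []⟩]⟩
.nil
.nil)
.nil))
(.node 5497558467730 375 ⟨.c, 0, 0, 0, [⟨.m, 0, 0, []⟩, ⟨.x, 0, 0, []⟩, ⟨.x, 0, 0, []⟩]⟩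
(.node 5497558467728 372 ⟨.c, 0, 0, 0, [⟨.m, 0, 0, []⟩, ⟨.x, 0, 0, []⟩, ⟨.m, 0, 0, []⟩]⟩
(.node 5497558467602 372 ⟨.c, 0, 0, 0, [⟨.m, 0, 0, []⟩, ⟨.m, 0, 0, []⟩, ⟨.x, 0, 0, []⟩]⟩
.nil
.nil)
.nil)
(.node 5497558475792 372 ⟨.c, 0, 0, 0, [⟨.x, 0, 0, []⟩, ⟨.m, 0, 0, []⟩, ⟨.m, 0, 0, []⟩]⟩
.nil
.nil)))
(.node 5497558733840 459 ⟨.x, 0, 0, 0, [⟨.c, 0, 0, []⟩, ⟨.m, 0, 0, []⟩, ⟨.m, 0, 0, []⟩]⟩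
(.node 5497558729744 456 ⟨.x, 0, 0, 0, [⟨.m, 0, 0, []⟩, ⟨.m, 0, 0, []⟩, ⟨.m, 0, 0, []⟩]⟩
(.node 5497558475922 381 ⟨.c, 0, 0, 0, [⟨.x, 0, 0, []⟩, ⟨.x, 0, 0, []⟩, ⟨.x, 0, 0, []⟩]⟩
(.node 5497558475920 375 ⟨.c, 0, 0, 0, [⟨.x, 0, 0, []⟩, ⟨.x, 0, 0, []⟩, ⟨.m, 0, 0, []⟩]⟩
.nil
.nil)
.nil)
(.node 5497558729808 459 ⟨.x, 0, 0, 0, [⟨.m, 0, 0, []⟩, ⟨.c, 0, 0, []⟩, ⟨.m, 0, 0, []⟩]⟩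
(.node 5497558729745 459 ⟨.x, 0, 0, 0, [⟨.m, 0, 0, []⟩, ⟨.m, 0, 0, []⟩, ⟨.c, 0, 0, []⟩]⟩
.nil
.nil)
.nil))
(.node 13194139599890 176 ⟨.m, 0, 0, 0, [⟨.m, 0, 0, []⟩, ⟨.m, 0, 0, []⟩, ⟨.x, 1, 0, []⟩]⟩
(.node 13194139599889 173 ⟨.m, 0, 0, 0, [⟨.m, 0, 0, []⟩, ⟨.m, 0, 0, []⟩, ⟨.c, 1, 0, []⟩]⟩
(.node 13194139599888 121 ⟨.m, 0, 0, 0, [⟨.m, 0, 0, []⟩, ⟨.m, 0, 0, []⟩, ⟨.m, 1, 0, []⟩]⟩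
.nil
.nil)
.nil)
(.node 13194139599893 174 ⟨.m, 0, 0, 0, [⟨.m, 0, 0, []⟩, ⟨.m, 0, 0, []⟩, ⟨.c, 1, 1, []⟩]⟩
.nil
.nil)))))

/-- a part of the search tree -/
def bt00001 : BT :=
  (.node 13194139608082 197 ⟨.m, 0, 0, 0, [⟨.x, 0, 0, []⟩, ⟨.m, 0, 0, []⟩, ⟨.x, 1, 0, []⟩]⟩
(.node 13194139603989 188 ⟨.m, 0, 0, 0, [⟨.c, 0, 0, []⟩, ⟨.m, 0, 0, []⟩, ⟨.c, 1, 1, []⟩]⟩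
(.node 13194139600018 197 ⟨.m, 0, 0, 0, [⟨.m, 0, 0, []⟩, ⟨.x, 0, 0, []⟩, ⟨.x, 1, 0, []⟩]⟩
(.node 13194139599957 188 ⟨.m, 0, 0, 0, [⟨.m, 0, 0, []⟩, ⟨.c, 0, 0, []⟩, ⟨.c, 1, 1, []⟩]⟩
(.node 13194139599954 193 ⟨.m, 0, 0, 0, [⟨.m, 0, 0, []⟩, ⟨.c, 0, 0, []⟩, ⟨.x, 1, 0, []⟩]⟩
(.node 13194139599953 182 ⟨.m, 0, 0, 0, [⟨.m, 0, 0, []⟩, ⟨.c, 0, 0, []⟩, ⟨.c, 1, 0, []⟩]⟩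
.nil
.nil)
.nil)
(.node 13194139600017 185 ⟨.m, 0, 0, 0, [⟨.m, 0, 0, []⟩, ⟨.x, 0, 0, []⟩, ⟨.c, 1, 0, []⟩]⟩
(.node 13194139600016 129 ⟨.m, 0, 0, 0, [⟨.m, 0, 0, []⟩, ⟨.x, 0, 0, []⟩, ⟨.m, 1, 0, []⟩]⟩
.nil
.nil)
.nil))
(.node 13194139603985 182 ⟨.m, 0, 0, 0, [⟨.c, 0, 0, []⟩, ⟨.m, 0, 0, []⟩, ⟨.c, 1, 0, []⟩]⟩
(.node 13194139603984 126 ⟨.m, 0, 0, 0, [⟨.c, 0, 0, []⟩, ⟨.m, 0, 0, []⟩, ⟨.m, 1, 0, []⟩]⟩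
(.node 13194139600021 191 ⟨.m, 0, 0, 0, [⟨.m, 0, 0, []⟩, ⟨.x, 0, 0, []⟩, ⟨.c, 1, 1, []⟩]⟩
.nil
.nil)
.nil)
(.node 13194139603986 193 ⟨.m, 0, 0, 0, [⟨.c, 0, 0, []⟩, ⟨.m, 0, 0, []⟩, ⟨.x, 1, 0, []⟩]⟩
.nil
.nil)))
(.node 13194139604113 230 ⟨.m, 0, 0, 0, [⟨.c, 0, 0, []⟩, ⟨.x, 0, 0, []⟩, ⟨.c, 1, 0, []⟩]⟩
(.node 13194139604050 261 ⟨.m, 0, 0, 0, [⟨.c, 0, 0, []⟩, ⟨.c, 0, 0, []⟩, ⟨.x, 1, 0, []⟩]⟩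
(.node 13194139604049 227 ⟨.m, 0, 0, 0, [⟨.c, 0, 0, []⟩, ⟨.c, 0, 0, []⟩, ⟨.c, 1, 0, []⟩]⟩
(.node 13194139604048 161 ⟨.m, 0, 0, 0, [⟨.c, 0, 0, []⟩, ⟨.c, 0, 0, []⟩, ⟨.m, 1, 0, []⟩]⟩
.nil
.nil)
.nil)
(.node 13194139604112 164 ⟨.m, 0, 0, 0, [⟨.c, 0, 0, []⟩, ⟨.x, 0, 0, []⟩, ⟨.m, 1, 0, []⟩]⟩
(.node 13194139604053 249 ⟨.m, 0, 0, 0, [⟨.c, 0, 0, []⟩, ⟨.c, 0, 0, []⟩, ⟨.c, 1, 1, []⟩]⟩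
.nil
.nil)
.nil))
(.node 13194139608080 129 ⟨.m, 0, 0, 0, [⟨.x, 0, 0, []⟩, ⟨.m, 0, 0, []⟩, ⟨.m, 1, 0, []⟩]⟩
(.node 13194139604117 252 ⟨.m, 0, 0, 0, [⟨.c, 0, 0, []⟩, ⟨.x, 0, 0, []⟩, ⟨.c, 1, 1, []⟩]⟩
(.node 13194139604114 265 ⟨.m, 0, 0, 0, [⟨.c, 0, 0, []⟩, ⟨.x, 0, 0, []⟩, ⟨.x, 1, 0, []⟩]⟩
.nil
.nil)
.nil)
(.node 13194139608081 185 ⟨.m, 0, 0, 0, [⟨.x, 0, 0, []⟩, ⟨.m, 0, 0, []⟩, ⟨.c, 1, 0, []⟩]⟩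
.nil
.nil))))
(.node 13194139862160 364 ⟨.c, 0, 0, 0, [⟨.m, 0, 0, []⟩, ⟨.x, 0, 0, []⟩, ⟨.m, 1, 0, []⟩]⟩
(.node 13194139608208 171 ⟨.m, 0, 0, 0, [⟨.x, 0, 0, []⟩, ⟨.x, 0, 0, []⟩, ⟨.m, 1, 0, []⟩]⟩
(.node 13194139608145 230 ⟨.m, 0, 0, 0, [⟨.x, 0, 0, []⟩, ⟨.c, 0, 0, []⟩, ⟨.c, 1, 0, []⟩]⟩
(.node 13194139608144 164 ⟨.m, 0, 0, 0, [⟨.x, 0, 0, []⟩, ⟨.c, 0, 0, []⟩, ⟨.m, 1, 0, []⟩]⟩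
(.node 13194139608085 191 ⟨.m, 0, 0, 0, [⟨.x, 0, 0, []⟩, ⟨.m, 0, 0, []⟩, ⟨.c, 1, 1, []⟩]⟩
.nil
.nil)
.nil)
(.node 13194139608149 252 ⟨.m, 0, 0, 0, [⟨.x, 0, 0, []⟩, ⟨.c, 0, 0, []⟩, ⟨.c, 1, 1, []⟩]⟩
(.node 13194139608146 265 ⟨.m, 0, 0, 0, [⟨.x, 0, 0, []⟩, ⟨.c, 0, 0, []⟩, ⟨.x, 1, 0, []⟩]⟩
.nil
.nil)
.nil))
(.node 13194139608213 259 ⟨.m, 0, 0, 0, [⟨.x, 0, 0, []⟩, ⟨.x, 0, 0, []⟩, ⟨.c, 1, 1, []⟩]⟩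
(.node 13194139608210 272 ⟨.m, 0, 0, 0, [⟨.x, 0, 0, []⟩, ⟨.x, 0, 0, []⟩, ⟨.x, 1, 0, []⟩]⟩
(.node 13194139608209 237 ⟨.m, 0, 0, 0, [⟨.x, 0, 0, []⟩, ⟨.x, 0, 0, []⟩, ⟨.c, 1, 0, []⟩]⟩
.nil
.nil)
.nil)
(.node 13194139862032 362 ⟨.c, 0, 0, 0, [⟨.m, 0, 0, []⟩, ⟨.m, 0, 0, []⟩, ⟨.m, 1, 0, []⟩]⟩
.nil
.nil)))
(.node 13194139870354 380 ⟨.c, 0, 0, 0, [⟨.x, 0, 0, []⟩, ⟨.x, 0, 0, []⟩, ⟨.x, 1, 0, []⟩]⟩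
(.node 13194139870226 374 ⟨.c, 0, 0, 0, [⟨.x, 0, 0, []⟩, ⟨.m, 0, 0, []⟩, ⟨.x, 1, 0, []⟩]⟩
(.node 13194139870224 364 ⟨.c, 0, 0, 0, [⟨.x, 0, 0, []⟩, ⟨.m, 0, 0, []⟩, ⟨.m, 1, 0, []⟩]⟩
(.node 13194139862162 374 ⟨.c, 0, 0, 0, [⟨.m, 0, 0, []⟩, ⟨.x, 0, 0, []⟩, ⟨.x, 1, 0, []⟩]⟩
.nil
.nil)
.nil)
(.node 13194139870352 370 ⟨.c, 0, 0, 0, [⟨.x, 0, 0, []⟩, ⟨.x, 0, 0, []⟩, ⟨.m, 1, 0, []⟩]⟩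
.nil
.nil))
(.node 13194140124181 458 ⟨.x, 0, 0, 0, [⟨.m, 0, 0, []⟩, ⟨.m, 0, 0, []⟩, ⟨.c, 1, 1, []⟩]⟩
(.node 13194140124177 457 ⟨.x, 0, 0, 0, [⟨.m, 0, 0, []⟩, ⟨.m, 0, 0, []⟩, ⟨.c, 1, 0, []⟩]⟩
(.node 13194140124176 450 ⟨.x, 0, 0, 0, [⟨.m, 0, 0, []⟩, ⟨.m, 0, 0, []⟩, ⟨.m, 1, 0, []⟩]⟩
.nil
.nil)
.nil)
(.node 13194140124240 455 ⟨.x, 0, 0, 0, [⟨.m, 0, 0, []⟩, ⟨.c, 0, 0, []⟩, ⟨.m, 1, 0, []⟩]⟩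
.nil
.nil)))))

/-- a part of the search tree -/
def bt00010 : BT :=
  (.node 74766790759440 126 ⟨.m, 0, 0, 0, [⟨.c, 0, 0, []⟩, ⟨.m, 1, 0, []⟩, ⟨.m, 0, 0, []⟩]⟩
(.node 74766790755345 126 ⟨.m, 0, 0, 0, [⟨.m, 0, 0, []⟩, ⟨.m, 1, 0, []⟩, ⟨.c, 0, 0, []⟩]⟩
(.node 28587302322182 383 ⟨.x, 7, 0, 1, []⟩
(.node 28587302322177 274 ⟨.c, 7, 0, 0, []⟩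
(.node 28587302322176 0 ⟨.m, 7, 0, 0, []⟩
(.node 20890720927760 12 ⟨.m, 3, 1, 0, []⟩
.nil
.nil)
.nil)
(.node 28587302322181 275 ⟨.c, 7, 0, 1, []⟩
(.node 28587302322178 382 ⟨.x, 7, 0, 0, []⟩
.nil
.nil)
.nil))
(.node 74766790689810 99 ⟨.m, 1, 1, 0, [⟨.x, 0, 0, []⟩]⟩
(.node 74766790689809 89 ⟨.m, 1, 1, 0, [⟨.c, 0, 0, []⟩]⟩
(.node 74766790689808 49 ⟨.m, 1, 1, 0, [⟨.m, 0, 0, []⟩]⟩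
.nil
.nil)
.nil)
(.node 74766790755344 121 ⟨.m, 0, 0, 0, [⟨.m, 0, 0, []⟩, ⟨.m, 1, 0, []⟩, ⟨.m, 0, 0, []⟩]⟩
.nil
.nil)))
(.node 74766790755473 193 ⟨.m, 0, 0, 0, [⟨.m, 0, 0, []⟩, ⟨.x, 1, 0, []⟩, ⟨.c, 0, 0, []⟩]⟩
(.node 74766790755409 182 ⟨.m, 0, 0, 0, [⟨.m, 0, 0, []⟩, ⟨.c, 1, 0, []⟩, ⟨.c, 0, 0, []⟩]⟩
(.node 74766790755408 173 ⟨.m, 0, 0, 0, [⟨.m, 0, 0, []⟩, ⟨.c, 1, 0, []⟩, ⟨.m, 0, 0, []⟩]⟩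
(.node 74766790755346 129 ⟨.m, 0, 0, 0, [⟨.m, 0, 0, []⟩, ⟨.m, 1, 0, []⟩, ⟨.x, 0, 0, []⟩]⟩
.nil
.nil)
.nil)
(.node 74766790755472 176 ⟨.m, 0, 0, 0, [⟨.m, 0, 0, []⟩, ⟨.x, 1, 0, []⟩, ⟨.m, 0, 0, []⟩]⟩
(.node 74766790755410 185 ⟨.m, 0, 0, 0, [⟨.m, 0, 0, []⟩, ⟨.c, 1, 0, []⟩, ⟨.x, 0, 0, []⟩]⟩
.nil
.nil)
.nil))
(.node 74766790755665 188 ⟨.m, 0, 0, 0, [⟨.m, 0, 0, []⟩, ⟨.c, 1, 1, []⟩, ⟨.c, 0, 0, []⟩]⟩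
(.node 74766790755664 174 ⟨.m, 0, 0, 0, [⟨.m, 0, 0, []⟩, ⟨.c, 1, 1, []⟩, ⟨.m, 0, 0, []⟩]⟩
(.node 74766790755474 197 ⟨.m, 0, 0, 0, [⟨.m, 0, 0, []⟩, ⟨.x, 1, 0, []⟩, ⟨.x, 0, 0, []⟩]⟩
.nil
.nil)
.nil)
(.node 74766790755666 191 ⟨.m, 0, 0, 0, [⟨.m, 0, 0, []⟩, ⟨.c, 1, 1, []⟩, ⟨.x, 0, 0, []⟩]⟩
.nil
.nil))))
(.node 74766790759762 252 ⟨.m, 0, 0, 0, [⟨.c, 0, 0, []⟩, ⟨.c, 1, 1, []⟩, ⟨.x, 0, 0, []⟩]⟩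
(.node 74766790759568 193 ⟨.m, 0, 0, 0, [⟨.c, 0, 0, []⟩, ⟨.x, 1, 0, []⟩, ⟨.m, 0, 0, []⟩]⟩
(.node 74766790759504 182 ⟨.m, 0, 0, 0, [⟨.c, 0, 0, []⟩, ⟨.c, 1, 0, []⟩, ⟨.m, 0, 0, []⟩]⟩
(.node 74766790759442 164 ⟨.m, 0, 0, 0, [⟨.c, 0, 0, []⟩, ⟨.m, 1, 0, []⟩, ⟨.x, 0, 0, []⟩]⟩
(.node 74766790759441 161 ⟨.m, 0, 0, 0, [⟨.c, 0, 0, []⟩, ⟨.m, 1, 0, []⟩, ⟨.c, 0, 0, []⟩]⟩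
.nil
.nil)
.nil)
(.node 74766790759506 230 ⟨.m, 0, 0, 0, [⟨.c, 0, 0, []⟩, ⟨.c, 1, 0, []⟩, ⟨.x, 0, 0, []⟩]⟩
(.node 74766790759505 227 ⟨.m, 0, 0, 0, [⟨.c, 0, 0, []⟩, ⟨.c, 1, 0, []⟩, ⟨.c, 0, 0, []⟩]⟩
.nil
.nil)
.nil))
(.node 74766790759760 188 ⟨.m, 0, 0, 0, [⟨.c, 0, 0, []⟩, ⟨.c, 1, 1, []⟩, ⟨.m, 0, 0, []⟩]⟩
(.node 74766790759570 265 ⟨.m, 0, 0, 0, [⟨.c, 0, 0, []⟩, ⟨.x, 1, 0, []⟩, ⟨.x, 0, 0, []⟩]⟩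
(.node 74766790759569 261 ⟨.m, 0, 0, 0, [⟨.c, 0, 0, []⟩, ⟨.x, 1, 0, []⟩, ⟨.c, 0, 0, []⟩]⟩
.nil
.nil)
.nil)
(.node 74766790759761 249 ⟨.m, 0, 0, 0, [⟨.c, 0, 0, []⟩, ⟨.c, 1, 1, []⟩, ⟨.c, 0, 0, []⟩]⟩
.nil
.nil)))
(.node 74766790763601 230 ⟨.m, 0, 0, 0, [⟨.x, 0, 0, []⟩, ⟨.c, 1, 0, []⟩, ⟨.c, 0, 0, []⟩]⟩
(.node 74766790763538 171 ⟨.m, 0, 0, 0, [⟨.x, 0, 0, []⟩, ⟨.m, 1, 0, []⟩, ⟨.x, 0, 0, []⟩]⟩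
(.node 74766790763537 164 ⟨.m, 0, 0, 0, [⟨.x, 0, 0, []⟩, ⟨.m, 1, 0, []⟩, ⟨.c, 0, 0, []⟩]⟩
(.node 74766790763536 129 ⟨.m, 0, 0, 0, [⟨.x, 0, 0, []⟩, ⟨.m, 1, 0, []⟩, ⟨.m, 0, 0, []⟩]⟩
.nil
.nil)
.nil)
(.node 74766790763600 185 ⟨.m, 0, 0, 0, [⟨.x, 0, 0, []⟩, ⟨.c, 1, 0, []⟩, ⟨.m, 0, 0, []⟩]⟩
.nil
.nil))
(.node 74766790763665 265 ⟨.m, 0, 0, 0, [⟨.x, 0, 0, []⟩, ⟨.x, 1, 0, []⟩, ⟨.c, 0, 0, []⟩]⟩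
(.node 74766790763664 197 ⟨.m, 0, 0, 0, [⟨.x, 0, 0, []⟩, ⟨.x, 1, 0, []⟩, ⟨.m, 0, 0, []⟩]⟩
(.node 74766790763602 237 ⟨.m, 0, 0, 0, [⟨.x, 0, 0, []⟩, ⟨.c, 1, 0, []⟩, ⟨.x, 0, 0, []⟩]⟩
.nil
.nil)
.nil)
(.node 74766790763666 272 ⟨.m, 0, 0, 0, [⟨.x, 0, 0, []⟩, ⟨.x, 1, 0, []⟩, ⟨.x, 0, 0, []⟩]⟩
.nil
.nil)))))

/-- a part of the search tree -/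
def bt00011 : BT :=
  (.node 82463372149781 125 ⟨.m, 0, 0, 0, [⟨.m, 0, 0, []⟩, ⟨.m, 1, 0, []⟩, ⟨.c, 2, 1, []⟩]⟩
(.node 74766791279633 455 ⟨.x, 0, 0, 0, [⟨.m, 0, 0, []⟩, ⟨.m, 1, 0, []⟩, ⟨.c, 0, 0, []⟩]⟩
(.node 74766791025680 364 ⟨.c, 0, 0, 0, [⟨.x, 0, 0, []⟩, ⟨.m, 1, 0, []⟩, ⟨.m, 0, 0, []⟩]⟩
(.node 74766791017488 362 ⟨.c, 0, 0, 0, [⟨.m, 0, 0, []⟩, ⟨.m, 1, 0, []⟩, ⟨.m, 0, 0, []⟩]⟩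
(.node 74766790763858 259 ⟨.m, 0, 0, 0, [⟨.x, 0, 0, []⟩, ⟨.c, 1, 1, []⟩, ⟨.x, 0, 0, []⟩]⟩
(.node 74766790763857 252 ⟨.m, 0, 0, 0, [⟨.x, 0, 0, []⟩, ⟨.c, 1, 1, []⟩, ⟨.c, 0, 0, []⟩]⟩
.nil
.nil)
.nil)
(.node 74766791017618 374 ⟨.c, 0, 0, 0, [⟨.m, 0, 0, []⟩, ⟨.x, 1, 0, []⟩, ⟨.x, 0, 0, []⟩]⟩
(.node 74766791017490 364 ⟨.c, 0, 0, 0, [⟨.m, 0, 0, []⟩, ⟨.m, 1, 0, []⟩, ⟨.x, 0, 0, []⟩]⟩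
.nil
.nil)
.nil))
(.node 74766791025810 380 ⟨.c, 0, 0, 0, [⟨.x, 0, 0, []⟩, ⟨.x, 1, 0, []⟩, ⟨.x, 0, 0, []⟩]⟩
(.node 74766791025808 374 ⟨.c, 0, 0, 0, [⟨.x, 0, 0, []⟩, ⟨.x, 1, 0, []⟩, ⟨.m, 0, 0, []⟩]⟩
(.node 74766791025682 370 ⟨.c, 0, 0, 0, [⟨.x, 0, 0, []⟩, ⟨.m, 1, 0, []⟩, ⟨.x, 0, 0, []⟩]⟩
.nil
.nil)
.nil)
(.node 74766791279632 450 ⟨.x, 0, 0, 0, [⟨.m, 0, 0, []⟩, ⟨.m, 1, 0, []⟩, ⟨.m, 0, 0, []⟩]⟩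
.nil
.nil)))
(.node 82463372084242 97 ⟨.m, 1, 1, 0, [⟨.x, 2, 0, []⟩]⟩
(.node 74766791283728 455 ⟨.x, 0, 0, 0, [⟨.c, 0, 0, []⟩, ⟨.m, 1, 0, []⟩, ⟨.m, 0, 0, []⟩]⟩
(.node 74766791279952 458 ⟨.x, 0, 0, 0, [⟨.m, 0, 0, []⟩, ⟨.c, 1, 1, []⟩, ⟨.m, 0, 0, []⟩]⟩
(.node 74766791279696 457 ⟨.x, 0, 0, 0, [⟨.m, 0, 0, []⟩, ⟨.c, 1, 0, []⟩, ⟨.m, 0, 0, []⟩]⟩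
.nil
.nil)
.nil)
(.node 82463372084241 69 ⟨.m, 1, 1, 0, [⟨.c, 2, 0, []⟩]⟩
(.node 82463372084240 39 ⟨.m, 1, 1, 0, [⟨.m, 2, 0, []⟩]⟩
.nil
.nil)
.nil))
(.node 82463372149777 123 ⟨.m, 0, 0, 0, [⟨.m, 0, 0, []⟩, ⟨.m, 1, 0, []⟩, ⟨.c, 2, 0, []⟩]⟩
(.node 82463372149776 112 ⟨.m, 0, 0, 0, [⟨.m, 0, 0, []⟩, ⟨.m, 1, 0, []⟩, ⟨.m, 2, 0, []⟩]⟩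
(.node 82463372084245 84 ⟨.m, 1, 1, 0, [⟨.c, 2, 1, []⟩]⟩
.nil
.nil)
.nil)
(.node 82463372149778 128 ⟨.m, 0, 0, 0, [⟨.m, 0, 0, []⟩, ⟨.m, 1, 0, []⟩, ⟨.x, 2, 0, []⟩]⟩
.nil
.nil))))
(.node 82463372150098 190 ⟨.m, 0, 0, 0, [⟨.m, 0, 0, []⟩, ⟨.c, 1, 1, []⟩, ⟨.x, 2, 0, []⟩]⟩
(.node 82463372149905 184 ⟨.m, 0, 0, 0, [⟨.m, 0, 0, []⟩, ⟨.x, 2, 0, []⟩, ⟨.c, 1, 0, []⟩]⟩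
(.node 82463372149842 184 ⟨.m, 0, 0, 0, [⟨.m, 0, 0, []⟩, ⟨.c, 1, 0, []⟩, ⟨.x, 2, 0, []⟩]⟩
(.node 82463372149841 179 ⟨.m, 0, 0, 0, [⟨.m, 0, 0, []⟩, ⟨.c, 1, 0, []⟩, ⟨.c, 2, 0, []⟩]⟩
(.node 82463372149840 123 ⟨.m, 0, 0, 0, [⟨.m, 0, 0, []⟩, ⟨.c, 2, 0, []⟩, ⟨.m, 1, 0, []⟩]⟩
.nil
.nil)
.nil)
(.node 82463372149904 128 ⟨.m, 0, 0, 0, [⟨.m, 0, 0, []⟩, ⟨.x, 2, 0, []⟩, ⟨.m, 1, 0, []⟩]⟩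
(.node 82463372149845 181 ⟨.m, 0, 0, 0, [⟨.m, 0, 0, []⟩, ⟨.c, 1, 0, []⟩, ⟨.c, 2, 1, []⟩]⟩
.nil
.nil)
.nil))
(.node 82463372150096 125 ⟨.m, 0, 0, 0, [⟨.m, 0, 0, []⟩, ⟨.c, 2, 1, []⟩, ⟨.m, 1, 0, []⟩]⟩
(.node 82463372149909 190 ⟨.m, 0, 0, 0, [⟨.m, 0, 0, []⟩, ⟨.x, 2, 0, []⟩, ⟨.c, 1, 1, []⟩]⟩
(.node 82463372149906 196 ⟨.m, 0, 0, 0, [⟨.m, 0, 0, []⟩, ⟨.x, 1, 0, []⟩, ⟨.x, 2, 0, []⟩]⟩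
.nil
.nil)
.nil)
(.node 82463372150097 181 ⟨.m, 0, 0, 0, [⟨.m, 0, 0, []⟩, ⟨.c, 2, 1, []⟩, ⟨.c, 1, 0, []⟩]⟩
.nil
.nil)))
(.node 82463372153877 156 ⟨.m, 0, 0, 0, [⟨.c, 0, 0, []⟩, ⟨.m, 1, 0, []⟩, ⟨.c, 2, 1, []⟩]⟩
(.node 82463372153873 143 ⟨.m, 0, 0, 0, [⟨.c, 0, 0, []⟩, ⟨.m, 1, 0, []⟩, ⟨.c, 2, 0, []⟩]⟩
(.node 82463372153872 117 ⟨.m, 0, 0, 0, [⟨.c, 0, 0, []⟩, ⟨.m, 1, 0, []⟩, ⟨.m, 2, 0, []⟩]⟩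
(.node 82463372150101 187 ⟨.m, 0, 0, 0, [⟨.m, 0, 0, []⟩, ⟨.c, 1, 1, []⟩, ⟨.c, 2, 1, []⟩]⟩
.nil
.nil)
.nil)
(.node 82463372153874 163 ⟨.m, 0, 0, 0, [⟨.c, 0, 0, []⟩, ⟨.m, 1, 0, []⟩, ⟨.x, 2, 0, []⟩]⟩
.nil
.nil))
(.node 82463372153938 229 ⟨.m, 0, 0, 0, [⟨.c, 0, 0, []⟩, ⟨.c, 1, 0, []⟩, ⟨.x, 2, 0, []⟩]⟩
(.node 82463372153937 210 ⟨.m, 0, 0, 0, [⟨.c, 0, 0, []⟩, ⟨.c, 1, 0, []⟩, ⟨.c, 2, 0, []⟩]⟩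
(.node 82463372153936 143 ⟨.m, 0, 0, 0, [⟨.c, 0, 0, []⟩, ⟨.c, 2, 0, []⟩, ⟨.m, 1, 0, []⟩]⟩
.nil
.nil)
.nil)
(.node 82463372153941 222 ⟨.m, 0, 0, 0, [⟨.c, 0, 0, []⟩, ⟨.c, 1, 0, []⟩, ⟨.c, 2, 1, []⟩]⟩
.nil
.nil)))))

/-- a part of the search tree -/
def bt00100 : BT :=
  (.node 82463372158290 258 ⟨.m, 0, 0, 0, [⟨.x, 0, 0, []⟩, ⟨.c, 1, 1, []⟩, ⟨.x, 2, 0, []⟩]⟩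
(.node 82463372157973 160 ⟨.m, 0, 0, 0, [⟨.x, 0, 0, []⟩, ⟨.m, 1, 0, []⟩, ⟨.c, 2, 1, []⟩]⟩
(.node 82463372154194 251 ⟨.m, 0, 0, 0, [⟨.c, 0, 0, []⟩, ⟨.c, 1, 1, []⟩, ⟨.x, 2, 0, []⟩]⟩
(.node 82463372154005 251 ⟨.m, 0, 0, 0, [⟨.c, 0, 0, []⟩, ⟨.x, 2, 0, []⟩, ⟨.c, 1, 1, []⟩]⟩
(.node 82463372154002 264 ⟨.m, 0, 0, 0, [⟨.c, 0, 0, []⟩, ⟨.x, 1, 0, []⟩, ⟨.x, 2, 0, []⟩]⟩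
(.node 82463372154001 229 ⟨.m, 0, 0, 0, [⟨.c, 0, 0, []⟩, ⟨.x, 2, 0, []⟩, ⟨.c, 1, 0, []⟩]⟩
.nil
.nil)
.nil)
(.node 82463372154193 222 ⟨.m, 0, 0, 0, [⟨.c, 0, 0, []⟩, ⟨.c, 2, 1, []⟩, ⟨.c, 1, 0, []⟩]⟩
(.node 82463372154192 156 ⟨.m, 0, 0, 0, [⟨.c, 0, 0, []⟩, ⟨.c, 2, 1, []⟩, ⟨.m, 1, 0, []⟩]⟩
.nil
.nil)
.nil))
(.node 82463372157969 147 ⟨.m, 0, 0, 0, [⟨.x, 0, 0, []⟩, ⟨.m, 1, 0, []⟩, ⟨.c, 2, 0, []⟩]⟩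
(.node 82463372157968 120 ⟨.m, 0, 0, 0, [⟨.x, 0, 0, []⟩, ⟨.m, 1, 0, []⟩, ⟨.m, 2, 0, []⟩]⟩
(.node 82463372154197 245 ⟨.m, 0, 0, 0, [⟨.c, 0, 0, []⟩, ⟨.c, 1, 1, []⟩, ⟨.c, 2, 1, []⟩]⟩
.nil
.nil)
.nil)
(.node 82463372157970 170 ⟨.m, 0, 0, 0, [⟨.x, 0, 0, []⟩, ⟨.m, 1, 0, []⟩, ⟨.x, 2, 0, []⟩]⟩
.nil
.nil)))
(.node 82463372158097 236 ⟨.m, 0, 0, 0, [⟨.x, 0, 0, []⟩, ⟨.x, 2, 0, []⟩, ⟨.c, 1, 0, []⟩]⟩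
(.node 82463372158034 236 ⟨.m, 0, 0, 0, [⟨.x, 0, 0, []⟩, ⟨.c, 1, 0, []⟩, ⟨.x, 2, 0, []⟩]⟩
(.node 82463372158033 213 ⟨.m, 0, 0, 0, [⟨.x, 0, 0, []⟩, ⟨.c, 1, 0, []⟩, ⟨.c, 2, 0, []⟩]⟩
(.node 82463372158032 147 ⟨.m, 0, 0, 0, [⟨.x, 0, 0, []⟩, ⟨.c, 2, 0, []⟩, ⟨.m, 1, 0, []⟩]⟩
.nil
.nil)
.nil)
(.node 82463372158096 170 ⟨.m, 0, 0, 0, [⟨.x, 0, 0, []⟩, ⟨.x, 2, 0, []⟩, ⟨.m, 1, 0, []⟩]⟩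
(.node 82463372158037 226 ⟨.m, 0, 0, 0, [⟨.x, 0, 0, []⟩, ⟨.c, 1, 0, []⟩, ⟨.c, 2, 1, []⟩]⟩
.nil
.nil)
.nil))
(.node 82463372158288 160 ⟨.m, 0, 0, 0, [⟨.x, 0, 0, []⟩, ⟨.c, 2, 1, []⟩, ⟨.m, 1, 0, []⟩]⟩
(.node 82463372158101 258 ⟨.m, 0, 0, 0, [⟨.x, 0, 0, []⟩, ⟨.x, 2, 0, []⟩, ⟨.c, 1, 1, []⟩]⟩
(.node 82463372158098 271 ⟨.m, 0, 0, 0, [⟨.x, 0, 0, []⟩, ⟨.x, 1, 0, []⟩, ⟨.x, 2, 0, []⟩]⟩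
.nil
.nil)
.nil)
(.node 82463372158289 226 ⟨.m, 0, 0, 0, [⟨.x, 0, 0, []⟩, ⟨.c, 2, 1, []⟩, ⟨.c, 1, 0, []⟩]⟩
.nil
.nil))))
(.node 82463372674065 452 ⟨.x, 0, 0, 0, [⟨.m, 0, 0, []⟩, ⟨.m, 1, 0, []⟩, ⟨.c, 2, 0, []⟩]⟩
(.node 82463372420112 361 ⟨.c, 0, 0, 0, [⟨.x, 0, 0, []⟩, ⟨.m, 1, 0, []⟩, ⟨.m, 2, 0, []⟩]⟩
(.node 82463372411922 363 ⟨.c, 0, 0, 0, [⟨.m, 0, 0, []⟩, ⟨.m, 1, 0, []⟩, ⟨.x, 2, 0, []⟩]⟩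
(.node 82463372411920 358 ⟨.c, 0, 0, 0, [⟨.m, 0, 0, []⟩, ⟨.m, 1, 0, []⟩, ⟨.m, 2, 0, []⟩]⟩
(.node 82463372158293 248 ⟨.m, 0, 0, 0, [⟨.x, 0, 0, []⟩, ⟨.c, 1, 1, []⟩, ⟨.c, 2, 1, []⟩]⟩
.nil
.nil)
.nil)
(.node 82463372412050 373 ⟨.c, 0, 0, 0, [⟨.m, 0, 0, []⟩, ⟨.x, 1, 0, []⟩, ⟨.x, 2, 0, []⟩]⟩
(.node 82463372412048 363 ⟨.c, 0, 0, 0, [⟨.m, 0, 0, []⟩, ⟨.x, 2, 0, []⟩, ⟨.m, 1, 0, []⟩]⟩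
.nil
.nil)
.nil))
(.node 82463372420242 379 ⟨.c, 0, 0, 0, [⟨.x, 0, 0, []⟩, ⟨.x, 1, 0, []⟩, ⟨.x, 2, 0, []⟩]⟩
(.node 82463372420240 369 ⟨.c, 0, 0, 0, [⟨.x, 0, 0, []⟩, ⟨.x, 2, 0, []⟩, ⟨.m, 1, 0, []⟩]⟩
(.node 82463372420114 369 ⟨.c, 0, 0, 0, [⟨.x, 0, 0, []⟩, ⟨.m, 1, 0, []⟩, ⟨.x, 2, 0, []⟩]⟩
.nil
.nil)
.nil)
(.node 82463372674064 444 ⟨.x, 0, 0, 0, [⟨.m, 0, 0, []⟩, ⟨.m, 1, 0, []⟩, ⟨.m, 2, 0, []⟩]⟩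
.nil
.nil)))
(.node 144036023238672 3 ⟨.m, 3, 0, 0, [⟨.m, 0, 0, []⟩]⟩
(.node 82463372674384 454 ⟨.x, 0, 0, 0, [⟨.m, 0, 0, []⟩, ⟨.c, 2, 1, []⟩, ⟨.m, 1, 0, []⟩]⟩
(.node 82463372674128 452 ⟨.x, 0, 0, 0, [⟨.m, 0, 0, []⟩, ⟨.c, 2, 0, []⟩, ⟨.m, 1, 0, []⟩]⟩
(.node 82463372674069 454 ⟨.x, 0, 0, 0, [⟨.m, 0, 0, []⟩, ⟨.m, 1, 0, []⟩, ⟨.c, 2, 1, []⟩]⟩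
.nil
.nil)
.nil)
(.node 82463372678160 449 ⟨.x, 0, 0, 0, [⟨.c, 0, 0, []⟩, ⟨.m, 1, 0, []⟩, ⟨.m, 2, 0, []⟩]⟩
.nil
.nil))
(.node 144036023238736 284 ⟨.c, 3, 0, 0, [⟨.m, 0, 0, []⟩]⟩
(.node 144036023238674 11 ⟨.m, 3, 0, 0, [⟨.x, 0, 0, []⟩]⟩
(.node 144036023238673 8 ⟨.m, 3, 0, 0, [⟨.c, 0, 0, []⟩]⟩
.nil
.nil)
.nil)
(.node 144036023238738 295 ⟨.c, 3, 0, 0, [⟨.x, 0, 0, []⟩]⟩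
.nil
.nil)))))

/-- a part of the search tree -/
def bt00101 : BT :=
  (.node 567347999933456 24 ⟨.m, 1, 1, 0, [⟨.m, 1, 0, []⟩]⟩
(.node 151732604633232 387 ⟨.x, 3, 0, 0, [⟨.m, 4, 0, []⟩]⟩
(.node 151732604633104 2 ⟨.m, 3, 0, 0, [⟨.m, 4, 0, []⟩]⟩
(.node 144036023238994 296 ⟨.c, 3, 0, 1, [⟨.x, 0, 0, []⟩]⟩
(.node 144036023238992 285 ⟨.c, 3, 0, 1, [⟨.m, 0, 0, []⟩]⟩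
(.node 144036023238801 402 ⟨.x, 3, 0, 0, [⟨.c, 0, 0, []⟩]⟩
.nil
.nil)
.nil)
(.node 144036023239057 403 ⟨.x, 3, 0, 1, [⟨.c, 0, 0, []⟩]⟩
(.node 144036023239056 392 ⟨.x, 3, 0, 1, [⟨.m, 0, 0, []⟩]⟩
.nil
.nil)
.nil))
(.node 151732604633109 7 ⟨.m, 3, 0, 0, [⟨.c, 4, 1, []⟩]⟩
(.node 151732604633106 10 ⟨.m, 3, 0, 0, [⟨.x, 4, 0, []⟩]⟩
(.node 151732604633105 5 ⟨.m, 3, 0, 0, [⟨.c, 4, 0, []⟩]⟩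
.nil
.nil)
.nil)
(.node 151732604633168 281 ⟨.c, 3, 0, 0, [⟨.m, 4, 0, []⟩]⟩
.nil
.nil)))
(.node 151732604633489 397 ⟨.x, 3, 0, 1, [⟨.c, 4, 0, []⟩]⟩
(.node 151732604633424 282 ⟨.c, 3, 0, 1, [⟨.m, 4, 0, []⟩]⟩
(.node 151732604633237 400 ⟨.x, 3, 0, 0, [⟨.c, 4, 1, []⟩]⟩
(.node 151732604633233 396 ⟨.x, 3, 0, 0, [⟨.c, 4, 0, []⟩]⟩
.nil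
.nil)
.nil)
(.node 151732604633488 388 ⟨.x, 3, 0, 1, [⟨.m, 4, 0, []⟩]⟩
(.node 151732604633426 294 ⟨.c, 3, 0, 1, [⟨.x, 4, 0, []⟩]⟩
.nil
.nil)
.nil))
(.node 213305255788626 278 ⟨.c, 7, 0, 0, [⟨.x, 0, 0, []⟩]⟩
(.node 213305255788624 276 ⟨.c, 7, 0, 0, [⟨.m, 0, 0, []⟩]⟩
(.node 151732604633493 401 ⟨.x, 3, 0, 1, [⟨.c, 4, 1, []⟩]⟩
.nil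
.nil)
.nil)
(.node 213305255788688 384 ⟨.x, 7, 0, 0, [⟨.m, 0, 0, []⟩]⟩
.nil
.nil))))
(.node 567347999999061 180 ⟨.m, 0, 0, 0, [⟨.m, 0, 0, []⟩, ⟨.c, 1, 0, []⟩, ⟨.c, 1, 1, []⟩]⟩
(.node 567347999998994 127 ⟨.m, 0, 0, 0, [⟨.m, 0, 0, []⟩, ⟨.m, 1, 0, []⟩, ⟨.x, 1, 0, []⟩]⟩
(.node 567347999933461 76 ⟨.m, 1, 1, 0, [⟨.c, 1, 1, []⟩]⟩
(.node 567347999933458 93 ⟨.m, 1, 1, 0, [⟨.x, 1, 0, []⟩]⟩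
(.node 567347999933457 58 ⟨.m, 1, 1, 0, [⟨.c, 1, 0, []⟩]⟩
.nil
.nil)
.nil)
(.node 567347999998993 122 ⟨.m, 0, 0, 0, [⟨.m, 0, 0, []⟩, ⟨.m, 1, 0, []⟩, ⟨.c, 1, 0, []⟩]⟩
(.node 567347999998992 102 ⟨.m, 0, 0, 0, [⟨.m, 0, 0, []⟩, ⟨.m, 1, 0, []⟩, ⟨.m, 1, 0, []⟩]⟩
.nil
.nil)
.nil))
(.node 567347999999057 178 ⟨.m, 0, 0, 0, [⟨.m, 0, 0, []⟩, ⟨.c, 1, 0, []⟩, ⟨.c, 1, 0, []⟩]⟩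
(.node 567347999999056 122 ⟨.m, 0, 0, 0, [⟨.m, 0, 0, []⟩, ⟨.c, 1, 0, []⟩, ⟨.m, 1, 0, []⟩]⟩
(.node 567347999998997 124 ⟨.m, 0, 0, 0, [⟨.m, 0, 0, []⟩, ⟨.m, 1, 0, []⟩, ⟨.c, 1, 1, []⟩]⟩
.nil
.nil)
.nil)
(.node 567347999999058 183 ⟨.m, 0, 0, 0, [⟨.m, 0, 0, []⟩, ⟨.c, 1, 0, []⟩, ⟨.x, 1, 0, []⟩]⟩
.nil
.nil)))
(.node 567347999999312 124 ⟨.m, 0, 0, 0, [⟨.m, 0, 0, []⟩, ⟨.c, 1, 1, []⟩, ⟨.m, 1, 0, []⟩]⟩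
(.node 567347999999122 195 ⟨.m, 0, 0, 0, [⟨.m, 0, 0, []⟩, ⟨.x, 1, 0, []⟩, ⟨.x, 1, 0, []⟩]⟩
(.node 567347999999121 183 ⟨.m, 0, 0, 0, [⟨.m, 0, 0, []⟩, ⟨.x, 1, 0, []⟩, ⟨.c, 1, 0, []⟩]⟩
(.node 567347999999120 127 ⟨.m, 0, 0, 0, [⟨.m, 0, 0, []⟩, ⟨.x, 1, 0, []⟩, ⟨.m, 1, 0, []⟩]⟩
.nil
.nil)
.nil)
(.node 567347999999125 189 ⟨.m, 0, 0, 0, [⟨.m, 0, 0, []⟩, ⟨.x, 1, 0, []⟩, ⟨.c, 1, 1, []⟩]⟩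
.nil
.nil))
(.node 567347999999317 186 ⟨.m, 0, 0, 0, [⟨.m, 0, 0, []⟩, ⟨.c, 1, 1, []⟩, ⟨.c, 1, 1, []⟩]⟩
(.node 567347999999314 189 ⟨.m, 0, 0, 0, [⟨.m, 0, 0, []⟩, ⟨.c, 1, 1, []⟩, ⟨.x, 1, 0, []⟩]⟩
(.node 567347999999313 180 ⟨.m, 0, 0, 0, [⟨.m, 0, 0, []⟩, ⟨.c, 1, 1, []⟩, ⟨.c, 1, 0, []⟩]⟩
.nil
.nil)
.nil)
(.node 567348000003088 107 ⟨.m, 0, 0, 0, [⟨.c, 0, 0, []⟩, ⟨.m, 1, 0, []⟩, ⟨.m, 1, 0, []⟩]⟩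
.nil
.nil)))))

/-- a part of the search tree -/
def bt00110 : BT :=
  (.node 567348000007253 219 ⟨.m, 0, 0, 0, [⟨.x, 0, 0, []⟩, ⟨.c, 1, 0, []⟩, ⟨.c, 1, 1, []⟩]⟩
(.node 567348000003408 150 ⟨.m, 0, 0, 0, [⟨.c, 0, 0, []⟩, ⟨.c, 1, 1, []⟩, ⟨.m, 1, 0, []⟩]⟩
(.node 567348000003157 216 ⟨.m, 0, 0, 0, [⟨.c, 0, 0, []⟩, ⟨.c, 1, 0, []⟩, ⟨.c, 1, 1, []⟩]⟩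
(.node 567348000003152 134 ⟨.m, 0, 0, 0, [⟨.c, 0, 0, []⟩, ⟨.c, 1, 0, []⟩, ⟨.m, 1, 0, []⟩]⟩
(.node 567348000003093 150 ⟨.m, 0, 0, 0, [⟨.c, 0, 0, []⟩, ⟨.m, 1, 0, []⟩, ⟨.c, 1, 1, []⟩]⟩
(.node 567348000003090 162 ⟨.m, 0, 0, 0, [⟨.c, 0, 0, []⟩, ⟨.m, 1, 0, []⟩, ⟨.x, 1, 0, []⟩]⟩
.nil
.nil)
.nil)
(.node 567348000003154 228 ⟨.m, 0, 0, 0, [⟨.c, 0, 0, []⟩, ⟨.c, 1, 0, []⟩, ⟨.x, 1, 0, []⟩]⟩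
(.node 567348000003153 203 ⟨.m, 0, 0, 0, [⟨.c, 0, 0, []⟩, ⟨.c, 1, 0, []⟩, ⟨.c, 1, 0, []⟩]⟩
.nil
.nil)
.nil))
(.node 567348000003218 263 ⟨.m, 0, 0, 0, [⟨.c, 0, 0, []⟩, ⟨.x, 1, 0, []⟩, ⟨.x, 1, 0, []⟩]⟩
(.node 567348000003217 228 ⟨.m, 0, 0, 0, [⟨.c, 0, 0, []⟩, ⟨.x, 1, 0, []⟩, ⟨.c, 1, 0, []⟩]⟩
(.node 567348000003216 162 ⟨.m, 0, 0, 0, [⟨.c, 0, 0, []⟩, ⟨.x, 1, 0, []⟩, ⟨.m, 1, 0, []⟩]⟩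
.nil
.nil)
.nil)
(.node 567348000003221 250 ⟨.m, 0, 0, 0, [⟨.c, 0, 0, []⟩, ⟨.x, 1, 0, []⟩, ⟨.c, 1, 1, []⟩]⟩
.nil
.nil)))
(.node 567348000007186 167 ⟨.m, 0, 0, 0, [⟨.x, 0, 0, []⟩, ⟨.m, 1, 0, []⟩, ⟨.x, 1, 0, []⟩]⟩
(.node 567348000003413 240 ⟨.m, 0, 0, 0, [⟨.c, 0, 0, []⟩, ⟨.c, 1, 1, []⟩, ⟨.c, 1, 1, []⟩]⟩
(.node 567348000003410 250 ⟨.m, 0, 0, 0, [⟨.c, 0, 0, []⟩, ⟨.c, 1, 1, []⟩, ⟨.x, 1, 0, []⟩]⟩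
(.node 567348000003409 216 ⟨.m, 0, 0, 0, [⟨.c, 0, 0, []⟩, ⟨.c, 1, 1, []⟩, ⟨.c, 1, 0, []⟩]⟩
.nil
.nil)
.nil)
(.node 567348000007185 137 ⟨.m, 0, 0, 0, [⟨.x, 0, 0, []⟩, ⟨.m, 1, 0, []⟩, ⟨.c, 1, 0, []⟩]⟩
(.node 567348000007184 110 ⟨.m, 0, 0, 0, [⟨.x, 0, 0, []⟩, ⟨.m, 1, 0, []⟩, ⟨.m, 1, 0, []⟩]⟩
.nil
.nil)
.nil))
(.node 567348000007249 206 ⟨.m, 0, 0, 0, [⟨.x, 0, 0, []⟩, ⟨.c, 1, 0, []⟩, ⟨.c, 1, 0, []⟩]⟩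
(.node 567348000007248 137 ⟨.m, 0, 0, 0, [⟨.x, 0, 0, []⟩, ⟨.c, 1, 0, []⟩, ⟨.m, 1, 0, []⟩]⟩
(.node 567348000007189 153 ⟨.m, 0, 0, 0, [⟨.x, 0, 0, []⟩, ⟨.m, 1, 0, []⟩, ⟨.c, 1, 1, []⟩]⟩
.nil
.nil)
.nil)
(.node 567348000007250 233 ⟨.m, 0, 0, 0, [⟨.x, 0, 0, []⟩, ⟨.c, 1, 0, []⟩, ⟨.x, 1, 0, []⟩]⟩
.nil
.nil))))
(.node 567348000269330 366 ⟨.c, 0, 0, 0, [⟨.x, 0, 0, []⟩, ⟨.m, 1, 0, []⟩, ⟨.x, 1, 0, []⟩]⟩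
(.node 567348000007505 219 ⟨.m, 0, 0, 0, [⟨.x, 0, 0, []⟩, ⟨.c, 1, 1, []⟩, ⟨.c, 1, 0, []⟩]⟩
(.node 567348000007314 269 ⟨.m, 0, 0, 0, [⟨.x, 0, 0, []⟩, ⟨.x, 1, 0, []⟩, ⟨.x, 1, 0, []⟩]⟩
(.node 567348000007313 233 ⟨.m, 0, 0, 0, [⟨.x, 0, 0, []⟩, ⟨.x, 1, 0, []⟩, ⟨.c, 1, 0, []⟩]⟩
(.node 567348000007312 167 ⟨.m, 0, 0, 0, [⟨.x, 0, 0, []⟩, ⟨.x, 1, 0, []⟩, ⟨.m, 1, 0, []⟩]⟩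
.nil
.nil)
.nil)
(.node 567348000007504 153 ⟨.m, 0, 0, 0, [⟨.x, 0, 0, []⟩, ⟨.c, 1, 1, []⟩, ⟨.m, 1, 0, []⟩]⟩
(.node 567348000007317 255 ⟨.m, 0, 0, 0, [⟨.x, 0, 0, []⟩, ⟨.x, 1, 0, []⟩, ⟨.c, 1, 1, []⟩]⟩
.nil
.nil)
.nil))
(.node 567348000261136 354 ⟨.c, 0, 0, 0, [⟨.m, 0, 0, []⟩, ⟨.m, 1, 0, []⟩, ⟨.m, 1, 0, []⟩]⟩
(.node 567348000007509 243 ⟨.m, 0, 0, 0, [⟨.x, 0, 0, []⟩, ⟨.c, 1, 1, []⟩, ⟨.c, 1, 1, []⟩]⟩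
(.node 567348000007506 255 ⟨.m, 0, 0, 0, [⟨.x, 0, 0, []⟩, ⟨.c, 1, 1, []⟩, ⟨.x, 1, 0, []⟩]⟩
.nil
.nil)
.nil)
(.node 567348000269328 356 ⟨.c, 0, 0, 0, [⟨.x, 0, 0, []⟩, ⟨.m, 1, 0, []⟩, ⟨.m, 1, 0, []⟩]⟩
.nil
.nil)))
(.node 567348000523285 453 ⟨.x, 0, 0, 0, [⟨.m, 0, 0, []⟩, ⟨.m, 1, 0, []⟩, ⟨.c, 1, 1, []⟩]⟩
(.node 567348000523280 437 ⟨.x, 0, 0, 0, [⟨.m, 0, 0, []⟩, ⟨.m, 1, 0, []⟩, ⟨.m, 1, 0, []⟩]⟩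
(.node 567348000269458 377 ⟨.c, 0, 0, 0, [⟨.x, 0, 0, []⟩, ⟨.x, 1, 0, []⟩, ⟨.x, 1, 0, []⟩]⟩
(.node 567348000269456 366 ⟨.c, 0, 0, 0, [⟨.x, 0, 0, []⟩, ⟨.x, 1, 0, []⟩, ⟨.m, 1, 0, []⟩]⟩
.nil
.nil)
.nil)
(.node 567348000523281 451 ⟨.x, 0, 0, 0, [⟨.m, 0, 0, []⟩, ⟨.m, 1, 0, []⟩, ⟨.c, 1, 0, []⟩]⟩
.nil
.nil))
(.node 567348000527376 442 ⟨.x, 0, 0, 0, [⟨.c, 0, 0, []⟩, ⟨.m, 1, 0, []⟩, ⟨.m, 1, 0, []⟩]⟩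
(.node 567348000523600 453 ⟨.x, 0, 0, 0, [⟨.m, 0, 0, []⟩, ⟨.c, 1, 1, []⟩, ⟨.m, 1, 0, []⟩]⟩
(.node 567348000523344 451 ⟨.x, 0, 0, 0, [⟨.m, 0, 0, []⟩, ⟨.c, 1, 0, []⟩, ⟨.m, 1, 0, []⟩]⟩
.nil
.nil)
.nil)
(.node 636617232482320 1 ⟨.m, 3, 0, 0, [⟨.m, 1, 0, []⟩]⟩
.nil
.nil)))))

/-- a part of the search tree -/
def bt00111 : BT :=
  (.node 4507997673882642 48 ⟨.m, 1, 0, 0, [⟨.m, 0, 0, []⟩, ⟨.x, 0, 0, []⟩]⟩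
(.node 636617232482705 395 ⟨.x, 3, 0, 1, [⟨.c, 1, 0, []⟩]⟩
(.node 636617232482449 394 ⟨.x, 3, 0, 0, [⟨.c, 1, 0, []⟩]⟩
(.node 636617232482384 279 ⟨.c, 3, 0, 0, [⟨.m, 1, 0, []⟩]⟩
(.node 636617232482325 6 ⟨.m, 3, 0, 0, [⟨.c, 1, 1, []⟩]⟩
(.node 636617232482322 9 ⟨.m, 3, 0, 0, [⟨.x, 1, 0, []⟩]⟩
.nil
.nil)
.nil)
(.node 636617232482448 385 ⟨.x, 3, 0, 0, [⟨.m, 1, 0, []⟩]⟩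
(.node 636617232482386 289 ⟨.c, 3, 0, 0, [⟨.x, 1, 0, []⟩]⟩
.nil
.nil)
.nil))
(.node 636617232482642 290 ⟨.c, 3, 0, 1, [⟨.x, 1, 0, []⟩]⟩
(.node 636617232482640 280 ⟨.c, 3, 0, 1, [⟨.m, 1, 0, []⟩]⟩
(.node 636617232482453 398 ⟨.x, 3, 0, 0, [⟨.c, 1, 1, []⟩]⟩
.nil
.nil)
.nil)
(.node 636617232482704 386 ⟨.x, 3, 0, 1, [⟨.m, 1, 0, []⟩]⟩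
.nil
.nil)))
(.node 1198467674275922 496 ⟨.c, 7, 0, 0, [⟨.x, 3, 0, []⟩]⟩
(.node 644313813877074 491 ⟨.c, 3, 0, 1, [⟨.x, 5, 0, []⟩]⟩
(.node 644313813876818 475 ⟨.c, 3, 0, 0, [⟨.x, 5, 0, []⟩]⟩
(.node 636617232482709 399 ⟨.x, 3, 0, 1, [⟨.c, 1, 1, []⟩]⟩
.nil
.nil)
.nil)
(.node 705886465032274 277 ⟨.c, 7, 0, 0, [⟨.x, 1, 0, []⟩]⟩
(.node 644313813877078 492 ⟨.c, 3, 0, 1, [⟨.x, 5, 1, []⟩]⟩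
.nil
.nil)
.nil))
(.node 4507997673882640 40 ⟨.m, 1, 0, 0, [⟨.m, 0, 0, []⟩, ⟨.m, 0, 0, []⟩]⟩
(.node 1206164255670354 498 ⟨.c, 7, 0, 0, [⟨.x, 11, 0, []⟩]⟩
(.node 1198467674275926 497 ⟨.c, 7, 0, 0, [⟨.x, 3, 1, []⟩]⟩
.nil
.nil)
.nil)
(.node 4507997673882641 45 ⟨.m, 1, 0, 0, [⟨.m, 0, 0, []⟩, ⟨.c, 0, 0, []⟩]⟩
.nil
.nil))))
(.node 4507997673890832 428 ⟨.x, 1, 0, 0, [⟨.m, 0, 0, []⟩, ⟨.m, 0, 0, []⟩]⟩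
(.node 4507997673882770 98 ⟨.m, 1, 0, 0, [⟨.x, 0, 0, []⟩, ⟨.x, 0, 0, []⟩]⟩
(.node 4507997673882706 88 ⟨.m, 1, 0, 0, [⟨.c, 0, 0, []⟩, ⟨.x, 0, 0, []⟩]⟩
(.node 4507997673882705 85 ⟨.m, 1, 0, 0, [⟨.c, 0, 0, []⟩, ⟨.c, 0, 0, []⟩]⟩
(.node 4507997673882704 45 ⟨.m, 1, 0, 0, [⟨.c, 0, 0, []⟩, ⟨.m, 0, 0, []⟩]⟩
.nil
.nil)
.nil)
(.node 4507997673882769 88 ⟨.m, 1, 0, 0, [⟨.x, 0, 0, []⟩, ⟨.c, 0, 0, []⟩]⟩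
(.node 4507997673882768 48 ⟨.m, 1, 0, 0, [⟨.x, 0, 0, []⟩, ⟨.m, 0, 0, []⟩]⟩
.nil
.nil)
.nil))
(.node 4507997673886864 331 ⟨.c, 1, 0, 0, [⟨.x, 0, 0, []⟩, ⟨.m, 0, 0, []⟩]⟩
(.node 4507997673886738 331 ⟨.c, 1, 0, 0, [⟨.m, 0, 0, []⟩, ⟨.x, 0, 0, []⟩]⟩
(.node 4507997673886736 324 ⟨.c, 1, 0, 0, [⟨.m, 0, 0, []⟩, ⟨.m, 0, 0, []⟩]⟩
.nil
.nil)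
.nil)
(.node 4507997673886866 349 ⟨.c, 1, 0, 0, [⟨.x, 0, 0, []⟩, ⟨.x, 0, 0, []⟩]⟩
.nil
.nil)))
(.node 4507997673903248 332 ⟨.c, 1, 0, 1, [⟨.x, 0, 0, []⟩, ⟨.m, 0, 0, []⟩]⟩
(.node 4507997673903120 325 ⟨.c, 1, 0, 1, [⟨.m, 0, 0, []⟩, ⟨.m, 0, 0, []⟩]⟩
(.node 4507997673890896 434 ⟨.x, 1, 0, 0, [⟨.c, 0, 0, []⟩, ⟨.m, 0, 0, []⟩]⟩
(.node 4507997673890833 434 ⟨.x, 1, 0, 0, [⟨.m, 0, 0, []⟩, ⟨.c, 0, 0, []⟩]⟩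
.nil
.nil)
.nil)
(.node 4507997673903122 332 ⟨.c, 1, 0, 1, [⟨.m, 0, 0, []⟩, ⟨.x, 0, 0, []⟩]⟩
.nil
.nil))
(.node 4507997673948177 126 ⟨.m, 0, 0, 0, [⟨.m, 1, 0, []⟩, ⟨.m, 0, 0, []⟩, ⟨.c, 0, 0, []⟩]⟩
(.node 4507997673948176 121 ⟨.m, 0, 0, 0, [⟨.m, 1, 0, []⟩, ⟨.m, 0, 0, []⟩, ⟨.m, 0, 0, []⟩]⟩
(.node 4507997673903250 350 ⟨.c, 1, 0, 1, [⟨.x, 0, 0, []⟩, ⟨.x, 0, 0, []⟩]⟩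
.nil
.nil)
.nil)
(.node 4507997673948178 129 ⟨.m, 0, 0, 0, [⟨.m, 1, 0, []⟩, ⟨.m, 0, 0, []⟩, ⟨.x, 0, 0, []⟩]⟩
.nil
.nil)))))

/-- a part of the search tree -/
def bt01000 : BT :=
  (.node 4507997673956497 265 ⟨.m, 0, 0, 0, [⟨.x, 1, 0, []⟩, ⟨.x, 0, 0, []⟩, ⟨.c, 0, 0, []⟩]⟩
(.node 4507997673952338 230 ⟨.m, 0, 0, 0, [⟨.c, 1, 0, []⟩, ⟨.c, 0, 0, []⟩, ⟨.x, 0, 0, []⟩]⟩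
(.node 4507997673952272 173 ⟨.m, 0, 0, 0, [⟨.c, 1, 0, []⟩, ⟨.m, 0, 0, []⟩, ⟨.m, 0, 0, []⟩]⟩
(.node 4507997673948304 129 ⟨.m, 0, 0, 0, [⟨.m, 1, 0, []⟩, ⟨.x, 0, 0, []⟩, ⟨.m, 0, 0, []⟩]⟩
(.node 4507997673948242 164 ⟨.m, 0, 0, 0, [⟨.m, 1, 0, []⟩, ⟨.c, 0, 0, []⟩, ⟨.x, 0, 0, []⟩]⟩
(.node 4507997673948241 161 ⟨.m, 0, 0, 0, [⟨.m, 1, 0, []⟩, ⟨.c, 0, 0, []⟩, ⟨.c, 0, 0, []⟩]⟩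
.nil
.nil)
.nil)
(.node 4507997673948306 171 ⟨.m, 0, 0, 0, [⟨.m, 1, 0, []⟩, ⟨.x, 0, 0, []⟩, ⟨.x, 0, 0, []⟩]⟩
(.node 4507997673948305 164 ⟨.m, 0, 0, 0, [⟨.m, 1, 0, []⟩, ⟨.x, 0, 0, []⟩, ⟨.c, 0, 0, []⟩]⟩
.nil
.nil)
.nil))
(.node 4507997673952336 182 ⟨.m, 0, 0, 0, [⟨.c, 1, 0, []⟩, ⟨.c, 0, 0, []⟩, ⟨.m, 0, 0, []⟩]⟩
(.node 4507997673952274 185 ⟨.m, 0, 0, 0, [⟨.c, 1, 0, []⟩, ⟨.m, 0, 0, []⟩, ⟨.x, 0, 0, []⟩]⟩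
(.node 4507997673952273 182 ⟨.m, 0, 0, 0, [⟨.c, 1, 0, []⟩, ⟨.m, 0, 0, []⟩, ⟨.c, 0, 0, []⟩]⟩
.nil
.nil)
.nil)
(.node 4507997673952337 227 ⟨.m, 0, 0, 0, [⟨.c, 1, 0, []⟩, ⟨.c, 0, 0, []⟩, ⟨.c, 0, 0, []⟩]⟩
.nil
.nil)))
(.node 4507997673956370 197 ⟨.m, 0, 0, 0, [⟨.x, 1, 0, []⟩, ⟨.m, 0, 0, []⟩, ⟨.x, 0, 0, []⟩]⟩
(.node 4507997673952402 237 ⟨.m, 0, 0, 0, [⟨.c, 1, 0, []⟩, ⟨.x, 0, 0, []⟩, ⟨.x, 0, 0, []⟩]⟩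
(.node 4507997673952401 230 ⟨.m, 0, 0, 0, [⟨.c, 1, 0, []⟩, ⟨.x, 0, 0, []⟩, ⟨.c, 0, 0, []⟩]⟩
(.node 4507997673952400 185 ⟨.m, 0, 0, 0, [⟨.c, 1, 0, []⟩, ⟨.x, 0, 0, []⟩, ⟨.m, 0, 0, []⟩]⟩
.nil
.nil)
.nil)
(.node 4507997673956369 193 ⟨.m, 0, 0, 0, [⟨.x, 1, 0, []⟩, ⟨.m, 0, 0, []⟩, ⟨.c, 0, 0, []⟩]⟩
(.node 4507997673956368 176 ⟨.m, 0, 0, 0, [⟨.x, 1, 0, []⟩, ⟨.m, 0, 0, []⟩, ⟨.m, 0, 0, []⟩]⟩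
.nil
.nil)
.nil))
(.node 4507997673956434 265 ⟨.m, 0, 0, 0, [⟨.x, 1, 0, []⟩, ⟨.c, 0, 0, []⟩, ⟨.x, 0, 0, []⟩]⟩
(.node 4507997673956433 261 ⟨.m, 0, 0, 0, [⟨.x, 1, 0, []⟩, ⟨.c, 0, 0, []⟩, ⟨.c, 0, 0, []⟩]⟩
(.node 4507997673956432 193 ⟨.m, 0, 0, 0, [⟨.x, 1, 0, []⟩, ⟨.c, 0, 0, []⟩, ⟨.m, 0, 0, []⟩]⟩
.nil
.nil)
.nil)
(.node 4507997673956496 197 ⟨.m, 0, 0, 0, [⟨.x, 1, 0, []⟩, ⟨.x, 0, 0, []⟩, ⟨.m, 0, 0, []⟩]⟩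
.nil
.nil))))
(.node 4507997674210320 362 ⟨.c, 0, 0, 0, [⟨.m, 1, 0, []⟩, ⟨.m, 0, 0, []⟩, ⟨.m, 0, 0, []⟩]⟩
(.node 4507997673968721 249 ⟨.m, 0, 0, 0, [⟨.c, 1, 1, []⟩, ⟨.c, 0, 0, []⟩, ⟨.c, 0, 0, []⟩]⟩
(.node 4507997673968657 188 ⟨.m, 0, 0, 0, [⟨.c, 1, 1, []⟩, ⟨.m, 0, 0, []⟩, ⟨.c, 0, 0, []⟩]⟩
(.node 4507997673968656 174 ⟨.m, 0, 0, 0, [⟨.c, 1, 1, []⟩, ⟨.m, 0, 0, []⟩, ⟨.m, 0, 0, []⟩]⟩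
(.node 4507997673956498 272 ⟨.m, 0, 0, 0, [⟨.x, 1, 0, []⟩, ⟨.x, 0, 0, []⟩, ⟨.x, 0, 0, []⟩]⟩
.nil
.nil)
.nil)
(.node 4507997673968720 188 ⟨.m, 0, 0, 0, [⟨.c, 1, 1, []⟩, ⟨.c, 0, 0, []⟩, ⟨.m, 0, 0, []⟩]⟩
(.node 4507997673968658 191 ⟨.m, 0, 0, 0, [⟨.c, 1, 1, []⟩, ⟨.m, 0, 0, []⟩, ⟨.x, 0, 0, []⟩]⟩
.nil
.nil)
.nil))
(.node 4507997673968785 252 ⟨.m, 0, 0, 0, [⟨.c, 1, 1, []⟩, ⟨.x, 0, 0, []⟩, ⟨.c, 0, 0, []⟩]⟩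
(.node 4507997673968784 191 ⟨.m, 0, 0, 0, [⟨.c, 1, 1, []⟩, ⟨.x, 0, 0, []⟩, ⟨.m, 0, 0, []⟩]⟩
(.node 4507997673968722 252 ⟨.m, 0, 0, 0, [⟨.c, 1, 1, []⟩, ⟨.c, 0, 0, []⟩, ⟨.x, 0, 0, []⟩]⟩
.nil
.nil)
.nil)
(.node 4507997673968786 259 ⟨.m, 0, 0, 0, [⟨.c, 1, 1, []⟩, ⟨.x, 0, 0, []⟩, ⟨.x, 0, 0, []⟩]⟩
.nil
.nil)))
(.node 4507997674218640 374 ⟨.c, 0, 0, 0, [⟨.x, 1, 0, []⟩, ⟨.x, 0, 0, []⟩, ⟨.m, 0, 0, []⟩]⟩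
(.node 4507997674210450 370 ⟨.c, 0, 0, 0, [⟨.m, 1, 0, []⟩, ⟨.x, 0, 0, []⟩, ⟨.x, 0, 0, []⟩]⟩
(.node 4507997674210448 364 ⟨.c, 0, 0, 0, [⟨.m, 1, 0, []⟩, ⟨.x, 0, 0, []⟩, ⟨.m, 0, 0, []⟩]⟩
(.node 4507997674210322 364 ⟨.c, 0, 0, 0, [⟨.m, 1, 0, []⟩, ⟨.m, 0, 0, []⟩, ⟨.x, 0, 0, []⟩]⟩
.nil
.nil)
.nil)
(.node 4507997674218514 374 ⟨.c, 0, 0, 0, [⟨.x, 1, 0, []⟩, ⟨.m, 0, 0, []⟩, ⟨.x, 0, 0, []⟩]⟩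
.nil
.nil))
(.node 4507997674472465 455 ⟨.x, 0, 0, 0, [⟨.m, 1, 0, []⟩, ⟨.m, 0, 0, []⟩, ⟨.c, 0, 0, []⟩]⟩
(.node 4507997674472464 450 ⟨.x, 0, 0, 0, [⟨.m, 1, 0, []⟩, ⟨.m, 0, 0, []⟩, ⟨.m, 0, 0, []⟩]⟩
(.node 4507997674218642 380 ⟨.c, 0, 0, 0, [⟨.x, 1, 0, []⟩, ⟨.x, 0, 0, []⟩, ⟨.x, 0, 0, []⟩]⟩
.nil
.nil)
.nil)
(.node 4507997674472528 455 ⟨.x, 0, 0, 0, [⟨.m, 1, 0, []⟩, ⟨.c, 0, 0, []⟩, ⟨.m, 0, 0, []⟩]⟩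
.nil
.nil)))))

/-- a part of the search tree -/
def bt01001 : BT :=
  (.node 4515694255297554 330 ⟨.c, 1, 0, 1, [⟨.m, 0, 0, []⟩, ⟨.x, 2, 0, []⟩]⟩
(.node 4515694255277201 68 ⟨.m, 1, 0, 0, [⟨.x, 0, 0, []⟩, ⟨.c, 2, 0, []⟩]⟩
(.node 4515694255277136 34 ⟨.m, 1, 0, 0, [⟨.c, 0, 0, []⟩, ⟨.m, 2, 0, []⟩]⟩
(.node 4515694255277073 42 ⟨.m, 1, 0, 0, [⟨.m, 0, 0, []⟩, ⟨.c, 2, 0, []⟩]⟩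
(.node 4515694255277072 27 ⟨.m, 1, 0, 0, [⟨.m, 0, 0, []⟩, ⟨.m, 2, 0, []⟩]⟩
(.node 4507997674492944 458 ⟨.x, 0, 0, 0, [⟨.c, 1, 1, []⟩, ⟨.m, 0, 0, []⟩, ⟨.m, 0, 0, []⟩]⟩
.nil
.nil)
.nil)
(.node 4515694255277077 44 ⟨.m, 1, 0, 0, [⟨.m, 0, 0, []⟩, ⟨.c, 2, 1, []⟩]⟩
(.node 4515694255277074 47 ⟨.m, 1, 0, 0, [⟨.m, 0, 0, []⟩, ⟨.x, 2, 0, []⟩]⟩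
.nil
.nil)
.nil))
(.node 4515694255277141 79 ⟨.m, 1, 0, 0, [⟨.c, 0, 0, []⟩, ⟨.c, 2, 1, []⟩]⟩
(.node 4515694255277138 87 ⟨.m, 1, 0, 0, [⟨.c, 0, 0, []⟩, ⟨.x, 2, 0, []⟩]⟩
(.node 4515694255277137 64 ⟨.m, 1, 0, 0, [⟨.c, 0, 0, []⟩, ⟨.c, 2, 0, []⟩]⟩
.nil
.nil)
.nil)
(.node 4515694255277200 38 ⟨.m, 1, 0, 0, [⟨.x, 0, 0, []⟩, ⟨.m, 2, 0, []⟩]⟩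
.nil
.nil)))
(.node 4515694255285264 419 ⟨.x, 1, 0, 0, [⟨.m, 0, 0, []⟩, ⟨.m, 2, 0, []⟩]⟩
(.node 4515694255281168 315 ⟨.c, 1, 0, 0, [⟨.m, 0, 0, []⟩, ⟨.m, 2, 0, []⟩]⟩
(.node 4515694255277205 83 ⟨.m, 1, 0, 0, [⟨.x, 0, 0, []⟩, ⟨.c, 2, 1, []⟩]⟩
(.node 4515694255277202 96 ⟨.m, 1, 0, 0, [⟨.x, 0, 0, []⟩, ⟨.x, 2, 0, []⟩]⟩
.nil
.nil)
.nil)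
(.node 4515694255281298 347 ⟨.c, 1, 0, 0, [⟨.x, 0, 0, []⟩, ⟨.x, 2, 0, []⟩]⟩
(.node 4515694255281296 322 ⟨.c, 1, 0, 0, [⟨.x, 0, 0, []⟩, ⟨.m, 2, 0, []⟩]⟩
.nil
.nil)
.nil))
(.node 4515694255285328 427 ⟨.x, 1, 0, 0, [⟨.c, 0, 0, []⟩, ⟨.m, 2, 0, []⟩]⟩
(.node 4515694255285269 433 ⟨.x, 1, 0, 0, [⟨.m, 0, 0, []⟩, ⟨.c, 2, 1, []⟩]⟩
(.node 4515694255285265 431 ⟨.x, 1, 0, 0, [⟨.m, 0, 0, []⟩, ⟨.c, 2, 0, []⟩]⟩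
.nil
.nil)
.nil)
(.node 4515694255297552 316 ⟨.c, 1, 0, 1, [⟨.m, 0, 0, []⟩, ⟨.m, 2, 0, []⟩]⟩
.nil
.nil))))
(.node 4515694255342736 120 ⟨.m, 0, 0, 0, [⟨.m, 2, 0, []⟩, ⟨.x, 0, 0, []⟩, ⟨.m, 1, 0, []⟩]⟩
(.node 4515694255342613 125 ⟨.m, 0, 0, 0, [⟨.m, 1, 0, []⟩, ⟨.m, 0, 0, []⟩, ⟨.c, 2, 1, []⟩]⟩
(.node 4515694255342608 112 ⟨.m, 0, 0, 0, [⟨.m, 1, 0, []⟩, ⟨.m, 0, 0, []⟩, ⟨.m, 2, 0, []⟩]⟩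
(.node 4515694255297682 348 ⟨.c, 1, 0, 1, [⟨.x, 0, 0, []⟩, ⟨.x, 2, 0, []⟩]⟩
(.node 4515694255297680 323 ⟨.c, 1, 0, 1, [⟨.x, 0, 0, []⟩, ⟨.m, 2, 0, []⟩]⟩
.nil
.nil)
.nil)
(.node 4515694255342610 128 ⟨.m, 0, 0, 0, [⟨.m, 1, 0, []⟩, ⟨.m, 0, 0, []⟩, ⟨.x, 2, 0, []⟩]⟩
(.node 4515694255342609 123 ⟨.m, 0, 0, 0, [⟨.m, 1, 0, []⟩, ⟨.m, 0, 0, []⟩, ⟨.c, 2, 0, []⟩]⟩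
.nil
.nil)
.nil))
(.node 4515694255342674 163 ⟨.m, 0, 0, 0, [⟨.m, 1, 0, []⟩, ⟨.c, 0, 0, []⟩, ⟨.x, 2, 0, []⟩]⟩
(.node 4515694255342673 143 ⟨.m, 0, 0, 0, [⟨.m, 1, 0, []⟩, ⟨.c, 0, 0, []⟩, ⟨.c, 2, 0, []⟩]⟩
(.node 4515694255342672 117 ⟨.m, 0, 0, 0, [⟨.m, 2, 0, []⟩, ⟨.c, 0, 0, []⟩, ⟨.m, 1, 0, []⟩]⟩
.nil
.nil)
.nil)
(.node 4515694255342677 156 ⟨.m, 0, 0, 0, [⟨.m, 1, 0, []⟩, ⟨.c, 0, 0, []⟩, ⟨.c, 2, 1, []⟩]⟩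
.nil
.nil)))
(.node 4515694255346705 179 ⟨.m, 0, 0, 0, [⟨.c, 1, 0, []⟩, ⟨.m, 0, 0, []⟩, ⟨.c, 2, 0, []⟩]⟩
(.node 4515694255342741 160 ⟨.m, 0, 0, 0, [⟨.m, 1, 0, []⟩, ⟨.x, 0, 0, []⟩, ⟨.c, 2, 1, []⟩]⟩
(.node 4515694255342738 170 ⟨.m, 0, 0, 0, [⟨.m, 1, 0, []⟩, ⟨.x, 0, 0, []⟩, ⟨.x, 2, 0, []⟩]⟩
(.node 4515694255342737 147 ⟨.m, 0, 0, 0, [⟨.m, 1, 0, []⟩, ⟨.x, 0, 0, []⟩, ⟨.c, 2, 0, []⟩]⟩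
.nil
.nil)
.nil)
(.node 4515694255346704 123 ⟨.m, 0, 0, 0, [⟨.c, 2, 0, []⟩, ⟨.m, 0, 0, []⟩, ⟨.m, 1, 0, []⟩]⟩
.nil
.nil))
(.node 4515694255346768 143 ⟨.m, 0, 0, 0, [⟨.c, 2, 0, []⟩, ⟨.c, 0, 0, []⟩, ⟨.m, 1, 0, []⟩]⟩
(.node 4515694255346709 181 ⟨.m, 0, 0, 0, [⟨.c, 1, 0, []⟩, ⟨.m, 0, 0, []⟩, ⟨.c, 2, 1, []⟩]⟩
(.node 4515694255346706 184 ⟨.m, 0, 0, 0, [⟨.c, 1, 0, []⟩, ⟨.m, 0, 0, []⟩, ⟨.x, 2, 0, []⟩]⟩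
.nil
.nil)
.nil)
(.node 4515694255346769 210 ⟨.m, 0, 0, 0, [⟨.c, 1, 0, []⟩, ⟨.c, 0, 0, []⟩, ⟨.c, 2, 0, []⟩]⟩
.nil
.nil)))))

/-- a part of the search tree -/
def bt01010 : BT :=
  (.node 4515694255363152 156 ⟨.m, 0, 0, 0, [⟨.c, 2, 1, []⟩, ⟨.c, 0, 0, []⟩, ⟨.m, 1, 0, []⟩]⟩
(.node 4515694255350865 229 ⟨.m, 0, 0, 0, [⟨.x, 2, 0, []⟩, ⟨.c, 0, 0, []⟩, ⟨.c, 1, 0, []⟩]⟩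
(.node 4515694255350800 128 ⟨.m, 0, 0, 0, [⟨.x, 2, 0, []⟩, ⟨.m, 0, 0, []⟩, ⟨.m, 1, 0, []⟩]⟩
(.node 4515694255346833 213 ⟨.m, 0, 0, 0, [⟨.c, 2, 0, []⟩, ⟨.x, 0, 0, []⟩, ⟨.c, 1, 0, []⟩]⟩
(.node 4515694255346832 147 ⟨.m, 0, 0, 0, [⟨.c, 2, 0, []⟩, ⟨.x, 0, 0, []⟩, ⟨.m, 1, 0, []⟩]⟩
(.node 4515694255346773 222 ⟨.m, 0, 0, 0, [⟨.c, 1, 0, []⟩, ⟨.c, 0, 0, []⟩, ⟨.c, 2, 1, []⟩]⟩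
.nil
.nil)
.nil)
(.node 4515694255346837 226 ⟨.m, 0, 0, 0, [⟨.c, 1, 0, []⟩, ⟨.x, 0, 0, []⟩, ⟨.c, 2, 1, []⟩]⟩
(.node 4515694255346834 236 ⟨.m, 0, 0, 0, [⟨.c, 1, 0, []⟩, ⟨.x, 0, 0, []⟩, ⟨.x, 2, 0, []⟩]⟩
.nil
.nil)
.nil))
(.node 4515694255350805 190 ⟨.m, 0, 0, 0, [⟨.x, 2, 0, []⟩, ⟨.m, 0, 0, []⟩, ⟨.c, 1, 1, []⟩]⟩
(.node 4515694255350802 196 ⟨.m, 0, 0, 0, [⟨.x, 1, 0, []⟩, ⟨.m, 0, 0, []⟩, ⟨.x, 2, 0, []⟩]⟩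
(.node 4515694255350801 184 ⟨.m, 0, 0, 0, [⟨.x, 2, 0, []⟩, ⟨.m, 0, 0, []⟩, ⟨.c, 1, 0, []⟩]⟩
.nil
.nil)
.nil)
(.node 4515694255350864 163 ⟨.m, 0, 0, 0, [⟨.x, 2, 0, []⟩, ⟨.c, 0, 0, []⟩, ⟨.m, 1, 0, []⟩]⟩
.nil
.nil)))
(.node 4515694255350933 258 ⟨.m, 0, 0, 0, [⟨.x, 2, 0, []⟩, ⟨.x, 0, 0, []⟩, ⟨.c, 1, 1, []⟩]⟩
(.node 4515694255350928 170 ⟨.m, 0, 0, 0, [⟨.x, 2, 0, []⟩, ⟨.x, 0, 0, []⟩, ⟨.m, 1, 0, []⟩]⟩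
(.node 4515694255350869 251 ⟨.m, 0, 0, 0, [⟨.x, 2, 0, []⟩, ⟨.c, 0, 0, []⟩, ⟨.c, 1, 1, []⟩]⟩
(.node 4515694255350866 264 ⟨.m, 0, 0, 0, [⟨.x, 1, 0, []⟩, ⟨.c, 0, 0, []⟩, ⟨.x, 2, 0, []⟩]⟩
.nil
.nil)
.nil)
(.node 4515694255350930 271 ⟨.m, 0, 0, 0, [⟨.x, 1, 0, []⟩, ⟨.x, 0, 0, []⟩, ⟨.x, 2, 0, []⟩]⟩
(.node 4515694255350929 236 ⟨.m, 0, 0, 0, [⟨.x, 2, 0, []⟩, ⟨.x, 0, 0, []⟩, ⟨.c, 1, 0, []⟩]⟩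
.nil
.nil)
.nil))
(.node 4515694255363090 190 ⟨.m, 0, 0, 0, [⟨.c, 1, 1, []⟩, ⟨.m, 0, 0, []⟩, ⟨.x, 2, 0, []⟩]⟩
(.node 4515694255363089 181 ⟨.m, 0, 0, 0, [⟨.c, 2, 1, []⟩, ⟨.m, 0, 0, []⟩, ⟨.c, 1, 0, []⟩]⟩
(.node 4515694255363088 125 ⟨.m, 0, 0, 0, [⟨.c, 2, 1, []⟩, ⟨.m, 0, 0, []⟩, ⟨.m, 1, 0, []⟩]⟩
.nil
.nil)
.nil)
(.node 4515694255363093 187 ⟨.m, 0, 0, 0, [⟨.c, 1, 1, []⟩, ⟨.m, 0, 0, []⟩, ⟨.c, 2, 1, []⟩]⟩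
.nil
.nil))))
(.node 4515694255604882 369 ⟨.c, 0, 0, 0, [⟨.m, 1, 0, []⟩, ⟨.x, 0, 0, []⟩, ⟨.x, 2, 0, []⟩]⟩
(.node 4515694255363218 258 ⟨.m, 0, 0, 0, [⟨.c, 1, 1, []⟩, ⟨.x, 0, 0, []⟩, ⟨.x, 2, 0, []⟩]⟩
(.node 4515694255363157 245 ⟨.m, 0, 0, 0, [⟨.c, 1, 1, []⟩, ⟨.c, 0, 0, []⟩, ⟨.c, 2, 1, []⟩]⟩
(.node 4515694255363154 251 ⟨.m, 0, 0, 0, [⟨.c, 1, 1, []⟩, ⟨.c, 0, 0, []⟩, ⟨.x, 2, 0, []⟩]⟩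
(.node 4515694255363153 222 ⟨.m, 0, 0, 0, [⟨.c, 2, 1, []⟩, ⟨.c, 0, 0, []⟩, ⟨.c, 1, 0, []⟩]⟩
.nil
.nil)
.nil)
(.node 4515694255363217 226 ⟨.m, 0, 0, 0, [⟨.c, 2, 1, []⟩, ⟨.x, 0, 0, []⟩, ⟨.c, 1, 0, []⟩]⟩
(.node 4515694255363216 160 ⟨.m, 0, 0, 0, [⟨.c, 2, 1, []⟩, ⟨.x, 0, 0, []⟩, ⟨.m, 1, 0, []⟩]⟩
.nil
.nil)
.nil))
(.node 4515694255604754 363 ⟨.c, 0, 0, 0, [⟨.m, 1, 0, []⟩, ⟨.m, 0, 0, []⟩, ⟨.x, 2, 0, []⟩]⟩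
(.node 4515694255604752 358 ⟨.c, 0, 0, 0, [⟨.m, 1, 0, []⟩, ⟨.m, 0, 0, []⟩, ⟨.m, 2, 0, []⟩]⟩
(.node 4515694255363221 248 ⟨.m, 0, 0, 0, [⟨.c, 2, 1, []⟩, ⟨.x, 0, 0, []⟩, ⟨.c, 1, 1, []⟩]⟩
.nil
.nil)
.nil)
(.node 4515694255604880 361 ⟨.c, 0, 0, 0, [⟨.m, 2, 0, []⟩, ⟨.x, 0, 0, []⟩, ⟨.m, 1, 0, []⟩]⟩
.nil
.nil)))
(.node 4515694255866896 444 ⟨.x, 0, 0, 0, [⟨.m, 1, 0, []⟩, ⟨.m, 0, 0, []⟩, ⟨.m, 2, 0, []⟩]⟩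
(.node 4515694255613072 369 ⟨.c, 0, 0, 0, [⟨.x, 2, 0, []⟩, ⟨.x, 0, 0, []⟩, ⟨.m, 1, 0, []⟩]⟩
(.node 4515694255612946 373 ⟨.c, 0, 0, 0, [⟨.x, 1, 0, []⟩, ⟨.m, 0, 0, []⟩, ⟨.x, 2, 0, []⟩]⟩
(.node 4515694255612944 363 ⟨.c, 0, 0, 0, [⟨.x, 2, 0, []⟩, ⟨.m, 0, 0, []⟩, ⟨.m, 1, 0, []⟩]⟩
.nil
.nil)
.nil)
(.node 4515694255613074 379 ⟨.c, 0, 0, 0, [⟨.x, 1, 0, []⟩, ⟨.x, 0, 0, []⟩, ⟨.x, 2, 0, []⟩]⟩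
.nil
.nil))
(.node 4515694255866960 449 ⟨.x, 0, 0, 0, [⟨.m, 2, 0, []⟩, ⟨.c, 0, 0, []⟩, ⟨.m, 1, 0, []⟩]⟩
(.node 4515694255866901 454 ⟨.x, 0, 0, 0, [⟨.m, 1, 0, []⟩, ⟨.m, 0, 0, []⟩, ⟨.c, 2, 1, []⟩]⟩
(.node 4515694255866897 452 ⟨.x, 0, 0, 0, [⟨.m, 1, 0, []⟩, ⟨.m, 0, 0, []⟩, ⟨.c, 2, 0, []⟩]⟩
.nil
.nil)
.nil)
(.node 4515694255870992 452 ⟨.x, 0, 0, 0, [⟨.c, 2, 0, []⟩, ⟨.m, 0, 0, []⟩, ⟨.m, 1, 0, []⟩]⟩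
.nil
.nil)))))

/-- a part of the search tree -/
def bt01011 : BT :=
  (.node 4577266906453136 330 ⟨.c, 1, 0, 1, [⟨.x, 2, 0, []⟩, ⟨.m, 0, 0, []⟩]⟩
(.node 4577266906432849 79 ⟨.m, 1, 0, 0, [⟨.c, 2, 1, []⟩, ⟨.c, 0, 0, []⟩]⟩
(.node 4577266906432594 68 ⟨.m, 1, 0, 0, [⟨.c, 2, 0, []⟩, ⟨.x, 0, 0, []⟩]⟩
(.node 4577266906432530 38 ⟨.m, 1, 0, 0, [⟨.m, 2, 0, []⟩, ⟨.x, 0, 0, []⟩]⟩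
(.node 4577266906432529 34 ⟨.m, 1, 0, 0, [⟨.m, 2, 0, []⟩, ⟨.c, 0, 0, []⟩]⟩
(.node 4577266906432528 27 ⟨.m, 1, 0, 0, [⟨.m, 2, 0, []⟩, ⟨.m, 0, 0, []⟩]⟩
.nil
.nil)
.nil)
(.node 4577266906432593 64 ⟨.m, 1, 0, 0, [⟨.c, 2, 0, []⟩, ⟨.c, 0, 0, []⟩]⟩
(.node 4577266906432592 42 ⟨.m, 1, 0, 0, [⟨.c, 2, 0, []⟩, ⟨.m, 0, 0, []⟩]⟩
.nil
.nil)
.nil))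
(.node 4577266906432658 96 ⟨.m, 1, 0, 0, [⟨.x, 2, 0, []⟩, ⟨.x, 0, 0, []⟩]⟩
(.node 4577266906432657 87 ⟨.m, 1, 0, 0, [⟨.x, 2, 0, []⟩, ⟨.c, 0, 0, []⟩]⟩
(.node 4577266906432656 47 ⟨.m, 1, 0, 0, [⟨.x, 2, 0, []⟩, ⟨.m, 0, 0, []⟩]⟩
.nil
.nil)
.nil)
(.node 4577266906432848 44 ⟨.m, 1, 0, 0, [⟨.c, 2, 1, []⟩, ⟨.m, 0, 0, []⟩]⟩
.nil
.nil)))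
(.node 4577266906440721 427 ⟨.x, 1, 0, 0, [⟨.m, 2, 0, []⟩, ⟨.c, 0, 0, []⟩]⟩
(.node 4577266906436626 322 ⟨.c, 1, 0, 0, [⟨.m, 2, 0, []⟩, ⟨.x, 0, 0, []⟩]⟩
(.node 4577266906436624 315 ⟨.c, 1, 0, 0, [⟨.m, 2, 0, []⟩, ⟨.m, 0, 0, []⟩]⟩
(.node 4577266906432850 83 ⟨.m, 1, 0, 0, [⟨.c, 2, 1, []⟩, ⟨.x, 0, 0, []⟩]⟩
.nil
.nil)
.nil)
(.node 4577266906440720 419 ⟨.x, 1, 0, 0, [⟨.m, 2, 0, []⟩, ⟨.m, 0, 0, []⟩]⟩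
(.node 4577266906436754 347 ⟨.c, 1, 0, 0, [⟨.x, 2, 0, []⟩, ⟨.x, 0, 0, []⟩]⟩
.nil
.nil)
.nil))
(.node 4577266906453008 316 ⟨.c, 1, 0, 1, [⟨.m, 2, 0, []⟩, ⟨.m, 0, 0, []⟩]⟩
(.node 4577266906441040 433 ⟨.x, 1, 0, 0, [⟨.c, 2, 1, []⟩, ⟨.m, 0, 0, []⟩]⟩
(.node 4577266906440784 431 ⟨.x, 1, 0, 0, [⟨.c, 2, 0, []⟩, ⟨.m, 0, 0, []⟩]⟩
.nil
.nil)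
.nil)
(.node 4577266906453010 323 ⟨.c, 1, 0, 1, [⟨.m, 2, 0, []⟩, ⟨.x, 0, 0, []⟩]⟩
.nil
.nil))))
(.node 4577266906498384 125 ⟨.m, 0, 0, 0, [⟨.m, 1, 0, []⟩, ⟨.c, 2, 1, []⟩, ⟨.m, 0, 0, []⟩]⟩
(.node 4577266906498129 143 ⟨.m, 0, 0, 0, [⟨.m, 1, 0, []⟩, ⟨.c, 2, 0, []⟩, ⟨.c, 0, 0, []⟩]⟩
(.node 4577266906498065 117 ⟨.m, 0, 0, 0, [⟨.m, 1, 0, []⟩, ⟨.m, 2, 0, []⟩, ⟨.c, 0, 0, []⟩]⟩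
(.node 4577266906498064 112 ⟨.m, 0, 0, 0, [⟨.m, 1, 0, []⟩, ⟨.m, 2, 0, []⟩, ⟨.m, 0, 0, []⟩]⟩
(.node 4577266906453138 348 ⟨.c, 1, 0, 1, [⟨.x, 2, 0, []⟩, ⟨.x, 0, 0, []⟩]⟩
.nil
.nil)
.nil)
(.node 4577266906498128 123 ⟨.m, 0, 0, 0, [⟨.m, 1, 0, []⟩, ⟨.c, 2, 0, []⟩, ⟨.m, 0, 0, []⟩]⟩
(.node 4577266906498066 120 ⟨.m, 0, 0, 0, [⟨.m, 1, 0, []⟩, ⟨.m, 2, 0, []⟩, ⟨.x, 0, 0, []⟩]⟩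
.nil
.nil)
.nil))
(.node 4577266906498193 163 ⟨.m, 0, 0, 0, [⟨.m, 1, 0, []⟩, ⟨.x, 2, 0, []⟩, ⟨.c, 0, 0, []⟩]⟩
(.node 4577266906498192 128 ⟨.m, 0, 0, 0, [⟨.m, 1, 0, []⟩, ⟨.x, 2, 0, []⟩, ⟨.m, 0, 0, []⟩]⟩
(.node 4577266906498130 147 ⟨.m, 0, 0, 0, [⟨.m, 1, 0, []⟩, ⟨.c, 2, 0, []⟩, ⟨.x, 0, 0, []⟩]⟩
.nil
.nil)
.nil)
(.node 4577266906498194 170 ⟨.m, 0, 0, 0, [⟨.m, 1, 0, []⟩, ⟨.x, 2, 0, []⟩, ⟨.x, 0, 0, []⟩]⟩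
.nil
.nil)))
(.node 4577266906502162 147 ⟨.m, 0, 0, 0, [⟨.c, 2, 0, []⟩, ⟨.m, 1, 0, []⟩, ⟨.x, 0, 0, []⟩]⟩
(.node 4577266906502160 123 ⟨.m, 0, 0, 0, [⟨.c, 2, 0, []⟩, ⟨.m, 1, 0, []⟩, ⟨.m, 0, 0, []⟩]⟩
(.node 4577266906498386 160 ⟨.m, 0, 0, 0, [⟨.m, 1, 0, []⟩, ⟨.c, 2, 1, []⟩, ⟨.x, 0, 0, []⟩]⟩
(.node 4577266906498385 156 ⟨.m, 0, 0, 0, [⟨.m, 1, 0, []⟩, ⟨.c, 2, 1, []⟩, ⟨.c, 0, 0, []⟩]⟩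
.nil
.nil)
.nil)
(.node 4577266906502161 143 ⟨.m, 0, 0, 0, [⟨.c, 2, 0, []⟩, ⟨.m, 1, 0, []⟩, ⟨.c, 0, 0, []⟩]⟩
.nil
.nil))
(.node 4577266906502226 213 ⟨.m, 0, 0, 0, [⟨.c, 1, 0, []⟩, ⟨.c, 2, 0, []⟩, ⟨.x, 0, 0, []⟩]⟩
(.node 4577266906502225 210 ⟨.m, 0, 0, 0, [⟨.c, 1, 0, []⟩, ⟨.c, 2, 0, []⟩, ⟨.c, 0, 0, []⟩]⟩
(.node 4577266906502224 179 ⟨.m, 0, 0, 0, [⟨.c, 1, 0, []⟩, ⟨.c, 2, 0, []⟩, ⟨.m, 0, 0, []⟩]⟩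
.nil
.nil)
.nil)
(.node 4577266906502288 184 ⟨.m, 0, 0, 0, [⟨.c, 1, 0, []⟩, ⟨.x, 2, 0, []⟩, ⟨.m, 0, 0, []⟩]⟩
.nil
.nil)))))

/-- a part of the search tree -/
def bt01100 : BT :=
  (.node 4577266906518610 226 ⟨.m, 0, 0, 0, [⟨.c, 2, 1, []⟩, ⟨.c, 1, 0, []⟩, ⟨.x, 0, 0, []⟩]⟩
(.node 4577266906506384 196 ⟨.m, 0, 0, 0, [⟨.x, 1, 0, []⟩, ⟨.x, 2, 0, []⟩, ⟨.m, 0, 0, []⟩]⟩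
(.node 4577266906506257 163 ⟨.m, 0, 0, 0, [⟨.x, 2, 0, []⟩, ⟨.m, 1, 0, []⟩, ⟨.c, 0, 0, []⟩]⟩
(.node 4577266906502481 222 ⟨.m, 0, 0, 0, [⟨.c, 1, 0, []⟩, ⟨.c, 2, 1, []⟩, ⟨.c, 0, 0, []⟩]⟩
(.node 4577266906502480 181 ⟨.m, 0, 0, 0, [⟨.c, 1, 0, []⟩, ⟨.c, 2, 1, []⟩, ⟨.m, 0, 0, []⟩]⟩
(.node 4577266906502290 236 ⟨.m, 0, 0, 0, [⟨.c, 1, 0, []⟩, ⟨.x, 2, 0, []⟩, ⟨.x, 0, 0, []⟩]⟩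
.nil
.nil)
.nil)
(.node 4577266906506256 128 ⟨.m, 0, 0, 0, [⟨.x, 2, 0, []⟩, ⟨.m, 1, 0, []⟩, ⟨.m, 0, 0, []⟩]⟩
(.node 4577266906502482 226 ⟨.m, 0, 0, 0, [⟨.c, 1, 0, []⟩, ⟨.c, 2, 1, []⟩, ⟨.x, 0, 0, []⟩]⟩
.nil
.nil)
.nil))
(.node 4577266906506321 229 ⟨.m, 0, 0, 0, [⟨.x, 2, 0, []⟩, ⟨.c, 1, 0, []⟩, ⟨.c, 0, 0, []⟩]⟩
(.node 4577266906506320 184 ⟨.m, 0, 0, 0, [⟨.x, 2, 0, []⟩, ⟨.c, 1, 0, []⟩, ⟨.m, 0, 0, []⟩]⟩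
(.node 4577266906506258 170 ⟨.m, 0, 0, 0, [⟨.x, 2, 0, []⟩, ⟨.m, 1, 0, []⟩, ⟨.x, 0, 0, []⟩]⟩
.nil
.nil)
.nil)
(.node 4577266906506322 236 ⟨.m, 0, 0, 0, [⟨.x, 2, 0, []⟩, ⟨.c, 1, 0, []⟩, ⟨.x, 0, 0, []⟩]⟩
.nil
.nil)))
(.node 4577266906518544 125 ⟨.m, 0, 0, 0, [⟨.c, 2, 1, []⟩, ⟨.m, 1, 0, []⟩, ⟨.m, 0, 0, []⟩]⟩
(.node 4577266906506576 190 ⟨.m, 0, 0, 0, [⟨.x, 2, 0, []⟩, ⟨.c, 1, 1, []⟩, ⟨.m, 0, 0, []⟩]⟩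
(.node 4577266906506386 271 ⟨.m, 0, 0, 0, [⟨.x, 1, 0, []⟩, ⟨.x, 2, 0, []⟩, ⟨.x, 0, 0, []⟩]⟩
(.node 4577266906506385 264 ⟨.m, 0, 0, 0, [⟨.x, 1, 0, []⟩, ⟨.x, 2, 0, []⟩, ⟨.c, 0, 0, []⟩]⟩
.nil
.nil)
.nil)
(.node 4577266906506578 258 ⟨.m, 0, 0, 0, [⟨.x, 2, 0, []⟩, ⟨.c, 1, 1, []⟩, ⟨.x, 0, 0, []⟩]⟩
(.node 4577266906506577 251 ⟨.m, 0, 0, 0, [⟨.x, 2, 0, []⟩, ⟨.c, 1, 1, []⟩, ⟨.c, 0, 0, []⟩]⟩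
.nil
.nil)
.nil))
(.node 4577266906518608 181 ⟨.m, 0, 0, 0, [⟨.c, 2, 1, []⟩, ⟨.c, 1, 0, []⟩, ⟨.m, 0, 0, []⟩]⟩
(.node 4577266906518546 160 ⟨.m, 0, 0, 0, [⟨.c, 2, 1, []⟩, ⟨.m, 1, 0, []⟩, ⟨.x, 0, 0, []⟩]⟩
(.node 4577266906518545 156 ⟨.m, 0, 0, 0, [⟨.c, 2, 1, []⟩, ⟨.m, 1, 0, []⟩, ⟨.c, 0, 0, []⟩]⟩
.nil
.nil)
.nil)
(.node 4577266906518609 222 ⟨.m, 0, 0, 0, [⟨.c, 2, 1, []⟩, ⟨.c, 1, 0, []⟩, ⟨.c, 0, 0, []⟩]⟩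
.nil
.nil))))
(.node 4577266906768400 363 ⟨.c, 0, 0, 0, [⟨.x, 2, 0, []⟩, ⟨.m, 1, 0, []⟩, ⟨.m, 0, 0, []⟩]⟩
(.node 4577266906518866 248 ⟨.m, 0, 0, 0, [⟨.c, 1, 1, []⟩, ⟨.c, 2, 1, []⟩, ⟨.x, 0, 0, []⟩]⟩
(.node 4577266906518674 258 ⟨.m, 0, 0, 0, [⟨.c, 1, 1, []⟩, ⟨.x, 2, 0, []⟩, ⟨.x, 0, 0, []⟩]⟩
(.node 4577266906518673 251 ⟨.m, 0, 0, 0, [⟨.c, 1, 1, []⟩, ⟨.x, 2, 0, []⟩, ⟨.c, 0, 0, []⟩]⟩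
(.node 4577266906518672 190 ⟨.m, 0, 0, 0, [⟨.c, 1, 1, []⟩, ⟨.x, 2, 0, []⟩, ⟨.m, 0, 0, []⟩]⟩
.nil
.nil)
.nil)
(.node 4577266906518865 245 ⟨.m, 0, 0, 0, [⟨.c, 1, 1, []⟩, ⟨.c, 2, 1, []⟩, ⟨.c, 0, 0, []⟩]⟩
(.node 4577266906518864 187 ⟨.m, 0, 0, 0, [⟨.c, 1, 1, []⟩, ⟨.c, 2, 1, []⟩, ⟨.m, 0, 0, []⟩]⟩
.nil
.nil)
.nil))
(.node 4577266906760336 363 ⟨.c, 0, 0, 0, [⟨.m, 1, 0, []⟩, ⟨.x, 2, 0, []⟩, ⟨.m, 0, 0, []⟩]⟩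
(.node 4577266906760210 361 ⟨.c, 0, 0, 0, [⟨.m, 1, 0, []⟩, ⟨.m, 2, 0, []⟩, ⟨.x, 0, 0, []⟩]⟩
(.node 4577266906760208 358 ⟨.c, 0, 0, 0, [⟨.m, 1, 0, []⟩, ⟨.m, 2, 0, []⟩, ⟨.m, 0, 0, []⟩]⟩
.nil
.nil)
.nil)
(.node 4577266906760338 369 ⟨.c, 0, 0, 0, [⟨.m, 1, 0, []⟩, ⟨.x, 2, 0, []⟩, ⟨.x, 0, 0, []⟩]⟩
.nil
.nil)))
(.node 4577266907022353 449 ⟨.x, 0, 0, 0, [⟨.m, 1, 0, []⟩, ⟨.m, 2, 0, []⟩, ⟨.c, 0, 0, []⟩]⟩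
(.node 4577266906768530 379 ⟨.c, 0, 0, 0, [⟨.x, 1, 0, []⟩, ⟨.x, 2, 0, []⟩, ⟨.x, 0, 0, []⟩]⟩
(.node 4577266906768528 373 ⟨.c, 0, 0, 0, [⟨.x, 1, 0, []⟩, ⟨.x, 2, 0, []⟩, ⟨.m, 0, 0, []⟩]⟩
(.node 4577266906768402 369 ⟨.c, 0, 0, 0, [⟨.x, 2, 0, []⟩, ⟨.m, 1, 0, []⟩, ⟨.x, 0, 0, []⟩]⟩
.nil
.nil)
.nil)
(.node 4577266907022352 444 ⟨.x, 0, 0, 0, [⟨.m, 1, 0, []⟩, ⟨.m, 2, 0, []⟩, ⟨.m, 0, 0, []⟩]⟩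
.nil
.nil))
(.node 4577266907026448 452 ⟨.x, 0, 0, 0, [⟨.c, 2, 0, []⟩, ⟨.m, 1, 0, []⟩, ⟨.m, 0, 0, []⟩]⟩
(.node 4577266907022672 454 ⟨.x, 0, 0, 0, [⟨.m, 1, 0, []⟩, ⟨.c, 2, 1, []⟩, ⟨.m, 0, 0, []⟩]⟩
(.node 4577266907022416 452 ⟨.x, 0, 0, 0, [⟨.m, 1, 0, []⟩, ⟨.c, 2, 0, []⟩, ⟨.m, 0, 0, []⟩]⟩
.nil
.nil)
.nil)
(.node 4577266907042832 454 ⟨.x, 0, 0, 0, [⟨.c, 2, 1, []⟩, ⟨.m, 1, 0, []⟩, ⟨.m, 0, 0, []⟩]⟩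
.nil
.nil)))))

/-- a part of the search tree -/
def bt01101 : BT :=
  (.node 4584963487835157 426 ⟨.x, 1, 0, 0, [⟨.m, 2, 0, []⟩, ⟨.c, 4, 1, []⟩]⟩
(.node 4584963487827093 82 ⟨.m, 1, 0, 0, [⟨.x, 4, 0, []⟩, ⟨.c, 2, 1, []⟩]⟩
(.node 4584963487827026 67 ⟨.m, 1, 0, 0, [⟨.c, 2, 0, []⟩, ⟨.x, 4, 0, []⟩]⟩
(.node 4584963487826965 33 ⟨.m, 1, 0, 0, [⟨.m, 2, 0, []⟩, ⟨.c, 4, 1, []⟩]⟩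
(.node 4584963487826962 37 ⟨.m, 1, 0, 0, [⟨.m, 2, 0, []⟩, ⟨.x, 4, 0, []⟩]⟩
(.node 4584963487826961 30 ⟨.m, 1, 0, 0, [⟨.m, 2, 0, []⟩, ⟨.c, 4, 0, []⟩]⟩
.nil
.nil)
.nil)
(.node 4584963487827025 60 ⟨.m, 1, 0, 0, [⟨.c, 2, 0, []⟩, ⟨.c, 4, 0, []⟩]⟩
(.node 4584963487827024 30 ⟨.m, 1, 0, 0, [⟨.c, 4, 0, []⟩, ⟨.m, 2, 0, []⟩]⟩
.nil
.nil)
.nil))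
(.node 4584963487827089 67 ⟨.m, 1, 0, 0, [⟨.x, 4, 0, []⟩, ⟨.c, 2, 0, []⟩]⟩
(.node 4584963487827088 37 ⟨.m, 1, 0, 0, [⟨.x, 4, 0, []⟩, ⟨.m, 2, 0, []⟩]⟩
(.node 4584963487827029 63 ⟨.m, 1, 0, 0, [⟨.c, 2, 0, []⟩, ⟨.c, 4, 1, []⟩]⟩
.nil
.nil)
.nil)
(.node 4584963487827090 95 ⟨.m, 1, 0, 0, [⟨.x, 2, 0, []⟩, ⟨.x, 4, 0, []⟩]⟩
.nil
.nil)))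
(.node 4584963487831058 320 ⟨.c, 1, 0, 0, [⟨.m, 2, 0, []⟩, ⟨.x, 4, 0, []⟩]⟩
(.node 4584963487827282 82 ⟨.m, 1, 0, 0, [⟨.c, 2, 1, []⟩, ⟨.x, 4, 0, []⟩]⟩
(.node 4584963487827281 63 ⟨.m, 1, 0, 0, [⟨.c, 4, 1, []⟩, ⟨.c, 2, 0, []⟩]⟩
(.node 4584963487827280 33 ⟨.m, 1, 0, 0, [⟨.c, 4, 1, []⟩, ⟨.m, 2, 0, []⟩]⟩
.nil
.nil)
.nil)
(.node 4584963487831056 313 ⟨.c, 1, 0, 0, [⟨.m, 2, 0, []⟩, ⟨.m, 4, 0, []⟩]⟩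
(.node 4584963487827285 78 ⟨.m, 1, 0, 0, [⟨.c, 2, 1, []⟩, ⟨.c, 4, 1, []⟩]⟩
.nil
.nil)
.nil))
(.node 4584963487835152 417 ⟨.x, 1, 0, 0, [⟨.m, 2, 0, []⟩, ⟨.m, 4, 0, []⟩]⟩
(.node 4584963487831186 343 ⟨.c, 1, 0, 0, [⟨.x, 2, 0, []⟩, ⟨.x, 4, 0, []⟩]⟩
(.node 4584963487831184 320 ⟨.c, 1, 0, 0, [⟨.x, 4, 0, []⟩, ⟨.m, 2, 0, []⟩]⟩
.nil
.nil)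
.nil)
(.node 4584963487835153 423 ⟨.x, 1, 0, 0, [⟨.m, 2, 0, []⟩, ⟨.c, 4, 0, []⟩]⟩
.nil
.nil))))
(.node 4584963487892560 114 ⟨.m, 0, 0, 0, [⟨.m, 2, 0, []⟩, ⟨.c, 4, 0, []⟩, ⟨.m, 1, 0, []⟩]⟩
(.node 4584963487847570 344 ⟨.c, 1, 0, 1, [⟨.x, 2, 0, []⟩, ⟨.x, 4, 0, []⟩]⟩
(.node 4584963487847440 314 ⟨.c, 1, 0, 1, [⟨.m, 2, 0, []⟩, ⟨.m, 4, 0, []⟩]⟩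
(.node 4584963487835472 426 ⟨.x, 1, 0, 0, [⟨.c, 4, 1, []⟩, ⟨.m, 2, 0, []⟩]⟩
(.node 4584963487835216 423 ⟨.x, 1, 0, 0, [⟨.c, 4, 0, []⟩, ⟨.m, 2, 0, []⟩]⟩
.nil
.nil)
.nil)
(.node 4584963487847568 321 ⟨.c, 1, 0, 1, [⟨.x, 4, 0, []⟩, ⟨.m, 2, 0, []⟩]⟩
(.node 4584963487847442 321 ⟨.c, 1, 0, 1, [⟨.m, 2, 0, []⟩, ⟨.x, 4, 0, []⟩]⟩
.nil
.nil)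
.nil))
(.node 4584963487892498 119 ⟨.m, 0, 0, 0, [⟨.m, 1, 0, []⟩, ⟨.m, 2, 0, []⟩, ⟨.x, 4, 0, []⟩]⟩
(.node 4584963487892497 114 ⟨.m, 0, 0, 0, [⟨.m, 1, 0, []⟩, ⟨.m, 2, 0, []⟩, ⟨.c, 4, 0, []⟩]⟩
(.node 4584963487892496 111 ⟨.m, 0, 0, 0, [⟨.m, 1, 0, []⟩, ⟨.m, 2, 0, []⟩, ⟨.m, 4, 0, []⟩]⟩
.nil
.nil)
.nil)
(.node 4584963487892501 116 ⟨.m, 0, 0, 0, [⟨.m, 1, 0, []⟩, ⟨.m, 2, 0, []⟩, ⟨.c, 4, 1, []⟩]⟩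
.nil
.nil)))
(.node 4584963487892625 146 ⟨.m, 0, 0, 0, [⟨.m, 1, 0, []⟩, ⟨.x, 4, 0, []⟩, ⟨.c, 2, 0, []⟩]⟩
(.node 4584963487892565 142 ⟨.m, 0, 0, 0, [⟨.m, 1, 0, []⟩, ⟨.c, 2, 0, []⟩, ⟨.c, 4, 1, []⟩]⟩
(.node 4584963487892562 146 ⟨.m, 0, 0, 0, [⟨.m, 1, 0, []⟩, ⟨.c, 2, 0, []⟩, ⟨.x, 4, 0, []⟩]⟩
(.node 4584963487892561 139 ⟨.m, 0, 0, 0, [⟨.m, 1, 0, []⟩, ⟨.c, 2, 0, []⟩, ⟨.c, 4, 0, []⟩]⟩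
.nil
.nil)
.nil)
(.node 4584963487892624 119 ⟨.m, 0, 0, 0, [⟨.m, 2, 0, []⟩, ⟨.x, 4, 0, []⟩, ⟨.m, 1, 0, []⟩]⟩
.nil
.nil))
(.node 4584963487892816 116 ⟨.m, 0, 0, 0, [⟨.m, 2, 0, []⟩, ⟨.c, 4, 1, []⟩, ⟨.m, 1, 0, []⟩]⟩
(.node 4584963487892629 159 ⟨.m, 0, 0, 0, [⟨.m, 1, 0, []⟩, ⟨.x, 4, 0, []⟩, ⟨.c, 2, 1, []⟩]⟩
(.node 4584963487892626 169 ⟨.m, 0, 0, 0, [⟨.m, 1, 0, []⟩, ⟨.x, 2, 0, []⟩, ⟨.x, 4, 0, []⟩]⟩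
.nil
.nil)
.nil)
(.node 4584963487892817 142 ⟨.m, 0, 0, 0, [⟨.m, 1, 0, []⟩, ⟨.c, 4, 1, []⟩, ⟨.c, 2, 0, []⟩]⟩
.nil
.nil)))))

/-- a part of the search tree -/
def bt01110 : BT :=
  (.node 4584963487900752 146 ⟨.m, 0, 0, 0, [⟨.x, 4, 0, []⟩, ⟨.c, 2, 0, []⟩, ⟨.m, 1, 0, []⟩]⟩
(.node 4584963487896721 212 ⟨.m, 0, 0, 0, [⟨.c, 2, 0, []⟩, ⟨.x, 4, 0, []⟩, ⟨.c, 1, 0, []⟩]⟩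
(.node 4584963487896656 139 ⟨.m, 0, 0, 0, [⟨.c, 2, 0, []⟩, ⟨.c, 4, 0, []⟩, ⟨.m, 1, 0, []⟩]⟩
(.node 4584963487896593 139 ⟨.m, 0, 0, 0, [⟨.c, 2, 0, []⟩, ⟨.m, 1, 0, []⟩, ⟨.c, 4, 0, []⟩]⟩
(.node 4584963487896592 114 ⟨.m, 0, 0, 0, [⟨.c, 4, 0, []⟩, ⟨.m, 1, 0, []⟩, ⟨.m, 2, 0, []⟩]⟩
(.node 4584963487892821 155 ⟨.m, 0, 0, 0, [⟨.m, 1, 0, []⟩, ⟨.c, 2, 1, []⟩, ⟨.c, 4, 1, []⟩]⟩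
.nil
.nil)
.nil)
(.node 4584963487896597 142 ⟨.m, 0, 0, 0, [⟨.c, 2, 0, []⟩, ⟨.m, 1, 0, []⟩, ⟨.c, 4, 1, []⟩]⟩
(.node 4584963487896594 146 ⟨.m, 0, 0, 0, [⟨.c, 2, 0, []⟩, ⟨.m, 1, 0, []⟩, ⟨.x, 4, 0, []⟩]⟩
.nil
.nil)
.nil))
(.node 4584963487896661 209 ⟨.m, 0, 0, 0, [⟨.c, 1, 0, []⟩, ⟨.c, 2, 0, []⟩, ⟨.c, 4, 1, []⟩]⟩
(.node 4584963487896658 212 ⟨.m, 0, 0, 0, [⟨.c, 1, 0, []⟩, ⟨.c, 2, 0, []⟩, ⟨.x, 4, 0, []⟩]⟩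
(.node 4584963487896657 207 ⟨.m, 0, 0, 0, [⟨.c, 1, 0, []⟩, ⟨.c, 2, 0, []⟩, ⟨.c, 4, 0, []⟩]⟩
.nil
.nil)
.nil)
(.node 4584963487896720 146 ⟨.m, 0, 0, 0, [⟨.c, 2, 0, []⟩, ⟨.x, 4, 0, []⟩, ⟨.m, 1, 0, []⟩]⟩
.nil
.nil)))
(.node 4584963487896917 221 ⟨.m, 0, 0, 0, [⟨.c, 1, 0, []⟩, ⟨.c, 2, 1, []⟩, ⟨.c, 4, 1, []⟩]⟩
(.node 4584963487896912 142 ⟨.m, 0, 0, 0, [⟨.c, 2, 0, []⟩, ⟨.c, 4, 1, []⟩, ⟨.m, 1, 0, []⟩]⟩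
(.node 4584963487896725 225 ⟨.m, 0, 0, 0, [⟨.c, 1, 0, []⟩, ⟨.x, 4, 0, []⟩, ⟨.c, 2, 1, []⟩]⟩
(.node 4584963487896722 235 ⟨.m, 0, 0, 0, [⟨.c, 1, 0, []⟩, ⟨.x, 2, 0, []⟩, ⟨.x, 4, 0, []⟩]⟩
.nil
.nil)
.nil)
(.node 4584963487896914 225 ⟨.m, 0, 0, 0, [⟨.c, 1, 0, []⟩, ⟨.c, 2, 1, []⟩, ⟨.x, 4, 0, []⟩]⟩
(.node 4584963487896913 209 ⟨.m, 0, 0, 0, [⟨.c, 2, 0, []⟩, ⟨.c, 4, 1, []⟩, ⟨.c, 1, 0, []⟩]⟩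
.nil
.nil)
.nil))
(.node 4584963487900690 169 ⟨.m, 0, 0, 0, [⟨.x, 2, 0, []⟩, ⟨.m, 1, 0, []⟩, ⟨.x, 4, 0, []⟩]⟩
(.node 4584963487900689 146 ⟨.m, 0, 0, 0, [⟨.x, 4, 0, []⟩, ⟨.m, 1, 0, []⟩, ⟨.c, 2, 0, []⟩]⟩
(.node 4584963487900688 119 ⟨.m, 0, 0, 0, [⟨.x, 4, 0, []⟩, ⟨.m, 1, 0, []⟩, ⟨.m, 2, 0, []⟩]⟩
.nil
.nil)
.nil)
(.node 4584963487900693 159 ⟨.m, 0, 0, 0, [⟨.x, 4, 0, []⟩, ⟨.m, 1, 0, []⟩, ⟨.c, 2, 1, []⟩]⟩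
.nil
.nil))))
(.node 4584963487901013 247 ⟨.m, 0, 0, 0, [⟨.x, 4, 0, []⟩, ⟨.c, 1, 1, []⟩, ⟨.c, 2, 1, []⟩]⟩
(.node 4584963487900818 270 ⟨.m, 0, 0, 0, [⟨.x, 1, 0, []⟩, ⟨.x, 2, 0, []⟩, ⟨.x, 4, 0, []⟩]⟩
(.node 4584963487900757 225 ⟨.m, 0, 0, 0, [⟨.x, 4, 0, []⟩, ⟨.c, 1, 0, []⟩, ⟨.c, 2, 1, []⟩]⟩
(.node 4584963487900754 235 ⟨.m, 0, 0, 0, [⟨.x, 2, 0, []⟩, ⟨.c, 1, 0, []⟩, ⟨.x, 4, 0, []⟩]⟩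
(.node 4584963487900753 212 ⟨.m, 0, 0, 0, [⟨.x, 4, 0, []⟩, ⟨.c, 1, 0, []⟩, ⟨.c, 2, 0, []⟩]⟩
.nil
.nil)
.nil)
(.node 4584963487900817 235 ⟨.m, 0, 0, 0, [⟨.x, 2, 0, []⟩, ⟨.x, 4, 0, []⟩, ⟨.c, 1, 0, []⟩]⟩
(.node 4584963487900816 169 ⟨.m, 0, 0, 0, [⟨.x, 2, 0, []⟩, ⟨.x, 4, 0, []⟩, ⟨.m, 1, 0, []⟩]⟩
.nil
.nil)
.nil))
(.node 4584963487901009 225 ⟨.m, 0, 0, 0, [⟨.x, 4, 0, []⟩, ⟨.c, 2, 1, []⟩, ⟨.c, 1, 0, []⟩]⟩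
(.node 4584963487901008 159 ⟨.m, 0, 0, 0, [⟨.x, 4, 0, []⟩, ⟨.c, 2, 1, []⟩, ⟨.m, 1, 0, []⟩]⟩
(.node 4584963487900821 257 ⟨.m, 0, 0, 0, [⟨.x, 2, 0, []⟩, ⟨.x, 4, 0, []⟩, ⟨.c, 1, 1, []⟩]⟩
.nil
.nil)
.nil)
(.node 4584963487901010 257 ⟨.m, 0, 0, 0, [⟨.x, 2, 0, []⟩, ⟨.c, 1, 1, []⟩, ⟨.x, 4, 0, []⟩]⟩
.nil
.nil)))
(.node 4584963487913040 142 ⟨.m, 0, 0, 0, [⟨.c, 4, 1, []⟩, ⟨.c, 2, 0, []⟩, ⟨.m, 1, 0, []⟩]⟩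
(.node 4584963487912978 159 ⟨.m, 0, 0, 0, [⟨.c, 2, 1, []⟩, ⟨.m, 1, 0, []⟩, ⟨.x, 4, 0, []⟩]⟩
(.node 4584963487912977 142 ⟨.m, 0, 0, 0, [⟨.c, 4, 1, []⟩, ⟨.m, 1, 0, []⟩, ⟨.c, 2, 0, []⟩]⟩
(.node 4584963487912976 116 ⟨.m, 0, 0, 0, [⟨.c, 4, 1, []⟩, ⟨.m, 1, 0, []⟩, ⟨.m, 2, 0, []⟩]⟩
.nil
.nil)
.nil)
(.node 4584963487912981 155 ⟨.m, 0, 0, 0, [⟨.c, 2, 1, []⟩, ⟨.m, 1, 0, []⟩, ⟨.c, 4, 1, []⟩]⟩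
.nil
.nil))
(.node 4584963487913045 221 ⟨.m, 0, 0, 0, [⟨.c, 2, 1, []⟩, ⟨.c, 1, 0, []⟩, ⟨.c, 4, 1, []⟩]⟩
(.node 4584963487913042 225 ⟨.m, 0, 0, 0, [⟨.c, 2, 1, []⟩, ⟨.c, 1, 0, []⟩, ⟨.x, 4, 0, []⟩]⟩
(.node 4584963487913041 209 ⟨.m, 0, 0, 0, [⟨.c, 4, 1, []⟩, ⟨.c, 1, 0, []⟩, ⟨.c, 2, 0, []⟩]⟩
.nil
.nil)
.nil)
(.node 4584963487913104 159 ⟨.m, 0, 0, 0, [⟨.c, 2, 1, []⟩, ⟨.x, 4, 0, []⟩, ⟨.m, 1, 0, []⟩]⟩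
.nil
.nil)))))

/-- a part of the search tree -/
def bt01111 : BT :=
  (.node 5069848115676176 25 ⟨.m, 1, 0, 0, [⟨.m, 2, 0, []⟩, ⟨.m, 2, 0, []⟩]⟩
(.node 4584963488162832 360 ⟨.c, 0, 0, 0, [⟨.x, 4, 0, []⟩, ⟨.m, 1, 0, []⟩, ⟨.m, 2, 0, []⟩]⟩
(.node 4584963487913301 244 ⟨.m, 0, 0, 0, [⟨.c, 1, 1, []⟩, ⟨.c, 2, 1, []⟩, ⟨.c, 4, 1, []⟩]⟩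
(.node 4584963487913296 155 ⟨.m, 0, 0, 0, [⟨.c, 2, 1, []⟩, ⟨.c, 4, 1, []⟩, ⟨.m, 1, 0, []⟩]⟩
(.node 4584963487913109 247 ⟨.m, 0, 0, 0, [⟨.c, 2, 1, []⟩, ⟨.x, 4, 0, []⟩, ⟨.c, 1, 1, []⟩]⟩
(.node 4584963487913106 257 ⟨.m, 0, 0, 0, [⟨.c, 1, 1, []⟩, ⟨.x, 2, 0, []⟩, ⟨.x, 4, 0, []⟩]⟩
.nil
.nil)
.nil)
(.node 4584963487913298 247 ⟨.m, 0, 0, 0, [⟨.c, 1, 1, []⟩, ⟨.c, 2, 1, []⟩, ⟨.x, 4, 0, []⟩]⟩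
(.node 4584963487913297 221 ⟨.m, 0, 0, 0, [⟨.c, 2, 1, []⟩, ⟨.c, 4, 1, []⟩, ⟨.c, 1, 0, []⟩]⟩
.nil
.nil)
.nil))
(.node 4584963488154768 360 ⟨.c, 0, 0, 0, [⟨.m, 2, 0, []⟩, ⟨.x, 4, 0, []⟩, ⟨.m, 1, 0, []⟩]⟩
(.node 4584963488154642 360 ⟨.c, 0, 0, 0, [⟨.m, 1, 0, []⟩, ⟨.m, 2, 0, []⟩, ⟨.x, 4, 0, []⟩]⟩
(.node 4584963488154640 357 ⟨.c, 0, 0, 0, [⟨.m, 1, 0, []⟩, ⟨.m, 2, 0, []⟩, ⟨.m, 4, 0, []⟩]⟩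
.nil
.nil)
.nil)
(.node 4584963488154770 368 ⟨.c, 0, 0, 0, [⟨.m, 1, 0, []⟩, ⟨.x, 2, 0, []⟩, ⟨.x, 4, 0, []⟩]⟩
.nil
.nil)))
(.node 4584963488416789 448 ⟨.x, 0, 0, 0, [⟨.m, 1, 0, []⟩, ⟨.m, 2, 0, []⟩, ⟨.c, 4, 1, []⟩]⟩
(.node 4584963488162962 378 ⟨.c, 0, 0, 0, [⟨.x, 1, 0, []⟩, ⟨.x, 2, 0, []⟩, ⟨.x, 4, 0, []⟩]⟩
(.node 4584963488162960 368 ⟨.c, 0, 0, 0, [⟨.x, 2, 0, []⟩, ⟨.x, 4, 0, []⟩, ⟨.m, 1, 0, []⟩]⟩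
(.node 4584963488162834 368 ⟨.c, 0, 0, 0, [⟨.x, 2, 0, []⟩, ⟨.m, 1, 0, []⟩, ⟨.x, 4, 0, []⟩]⟩
.nil
.nil)
.nil)
(.node 4584963488416785 446 ⟨.x, 0, 0, 0, [⟨.m, 1, 0, []⟩, ⟨.m, 2, 0, []⟩, ⟨.c, 4, 0, []⟩]⟩
(.node 4584963488416784 443 ⟨.x, 0, 0, 0, [⟨.m, 1, 0, []⟩, ⟨.m, 2, 0, []⟩, ⟨.m, 4, 0, []⟩]⟩
.nil
.nil)
.nil))
(.node 4584963488420880 446 ⟨.x, 0, 0, 0, [⟨.c, 4, 0, []⟩, ⟨.m, 1, 0, []⟩, ⟨.m, 2, 0, []⟩]⟩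
(.node 4584963488417104 448 ⟨.x, 0, 0, 0, [⟨.m, 2, 0, []⟩, ⟨.c, 4, 1, []⟩, ⟨.m, 1, 0, []⟩]⟩
(.node 4584963488416848 446 ⟨.x, 0, 0, 0, [⟨.m, 2, 0, []⟩, ⟨.c, 4, 0, []⟩, ⟨.m, 1, 0, []⟩]⟩
.nil
.nil)
.nil)
(.node 4584963488437264 448 ⟨.x, 0, 0, 0, [⟨.c, 4, 1, []⟩, ⟨.m, 1, 0, []⟩, ⟨.m, 2, 0, []⟩]⟩
.nil
.nil))))
(.node 5069848115676309 81 ⟨.m, 1, 0, 0, [⟨.x, 2, 0, []⟩, ⟨.c, 2, 1, []⟩]⟩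
(.node 5069848115676242 66 ⟨.m, 1, 0, 0, [⟨.c, 2, 0, []⟩, ⟨.x, 2, 0, []⟩]⟩
(.node 5069848115676181 32 ⟨.m, 1, 0, 0, [⟨.m, 2, 0, []⟩, ⟨.c, 2, 1, []⟩]⟩
(.node 5069848115676178 36 ⟨.m, 1, 0, 0, [⟨.m, 2, 0, []⟩, ⟨.x, 2, 0, []⟩]⟩
(.node 5069848115676177 29 ⟨.m, 1, 0, 0, [⟨.m, 2, 0, []⟩, ⟨.c, 2, 0, []⟩]⟩
.nil
.nil)
.nil)
(.node 5069848115676241 59 ⟨.m, 1, 0, 0, [⟨.c, 2, 0, []⟩, ⟨.c, 2, 0, []⟩]⟩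
(.node 5069848115676240 29 ⟨.m, 1, 0, 0, [⟨.c, 2, 0, []⟩, ⟨.m, 2, 0, []⟩]⟩
.nil
.nil)
.nil))
(.node 5069848115676305 66 ⟨.m, 1, 0, 0, [⟨.x, 2, 0, []⟩, ⟨.c, 2, 0, []⟩]⟩
(.node 5069848115676304 36 ⟨.m, 1, 0, 0, [⟨.x, 2, 0, []⟩, ⟨.m, 2, 0, []⟩]⟩
(.node 5069848115676245 62 ⟨.m, 1, 0, 0, [⟨.c, 2, 0, []⟩, ⟨.c, 2, 1, []⟩]⟩
.nil
.nil)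
.nil)
(.node 5069848115676306 94 ⟨.m, 1, 0, 0, [⟨.x, 2, 0, []⟩, ⟨.x, 2, 0, []⟩]⟩
.nil
.nil)))
(.node 5069848115680272 310 ⟨.c, 1, 0, 0, [⟨.m, 2, 0, []⟩, ⟨.m, 2, 0, []⟩]⟩
(.node 5069848115676498 81 ⟨.m, 1, 0, 0, [⟨.c, 2, 1, []⟩, ⟨.x, 2, 0, []⟩]⟩
(.node 5069848115676497 62 ⟨.m, 1, 0, 0, [⟨.c, 2, 1, []⟩, ⟨.c, 2, 0, []⟩]⟩
(.node 5069848115676496 32 ⟨.m, 1, 0, 0, [⟨.c, 2, 1, []⟩, ⟨.m, 2, 0, []⟩]⟩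
.nil
.nil)
.nil)
(.node 5069848115676501 77 ⟨.m, 1, 0, 0, [⟨.c, 2, 1, []⟩, ⟨.c, 2, 1, []⟩]⟩
.nil
.nil))
(.node 5069848115684373 425 ⟨.x, 1, 0, 0, [⟨.m, 2, 0, []⟩, ⟨.c, 2, 1, []⟩]⟩
(.node 5069848115684369 422 ⟨.x, 1, 0, 0, [⟨.m, 2, 0, []⟩, ⟨.c, 2, 0, []⟩]⟩
(.node 5069848115684368 413 ⟨.x, 1, 0, 0, [⟨.m, 2, 0, []⟩, ⟨.m, 2, 0, []⟩]⟩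
.nil
.nil)
.nil)
(.node 5069848115684432 422 ⟨.x, 1, 0, 0, [⟨.c, 2, 0, []⟩, ⟨.m, 2, 0, []⟩]⟩
.nil
.nil)))))

/-- a part of the search tree -/
def bt10000 : BT :=
  (.node 5069848115745810 144 ⟨.m, 0, 0, 0, [⟨.c, 2, 0, []⟩, ⟨.m, 1, 0, []⟩, ⟨.x, 1, 0, []⟩]⟩
(.node 5069848115741781 141 ⟨.m, 0, 0, 0, [⟨.m, 1, 0, []⟩, ⟨.c, 2, 0, []⟩, ⟨.c, 2, 1, []⟩]⟩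
(.node 5069848115741714 118 ⟨.m, 0, 0, 0, [⟨.m, 2, 0, []⟩, ⟨.m, 1, 0, []⟩, ⟨.x, 1, 0, []⟩]⟩
(.node 5069848115696784 319 ⟨.c, 1, 0, 1, [⟨.x, 2, 0, []⟩, ⟨.m, 2, 0, []⟩]⟩
(.node 5069848115696658 319 ⟨.c, 1, 0, 1, [⟨.m, 2, 0, []⟩, ⟨.x, 2, 0, []⟩]⟩
(.node 5069848115696656 311 ⟨.c, 1, 0, 1, [⟨.m, 2, 0, []⟩, ⟨.m, 2, 0, []⟩]⟩
.nil
.nil)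
.nil)
(.node 5069848115741713 113 ⟨.m, 0, 0, 0, [⟨.m, 2, 0, []⟩, ⟨.m, 1, 0, []⟩, ⟨.c, 1, 0, []⟩]⟩
(.node 5069848115741712 101 ⟨.m, 0, 0, 0, [⟨.m, 2, 0, []⟩, ⟨.m, 1, 0, []⟩, ⟨.m, 1, 0, []⟩]⟩
.nil
.nil)
.nil))
(.node 5069848115741777 138 ⟨.m, 0, 0, 0, [⟨.m, 1, 0, []⟩, ⟨.c, 2, 0, []⟩, ⟨.c, 2, 0, []⟩]⟩
(.node 5069848115741776 113 ⟨.m, 0, 0, 0, [⟨.m, 2, 0, []⟩, ⟨.c, 1, 0, []⟩, ⟨.m, 1, 0, []⟩]⟩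
(.node 5069848115741717 115 ⟨.m, 0, 0, 0, [⟨.m, 2, 0, []⟩, ⟨.m, 1, 0, []⟩, ⟨.c, 1, 1, []⟩]⟩
.nil
.nil)
.nil)
(.node 5069848115741778 145 ⟨.m, 0, 0, 0, [⟨.m, 1, 0, []⟩, ⟨.c, 2, 0, []⟩, ⟨.x, 2, 0, []⟩]⟩
.nil
.nil)))
(.node 5069848115742033 141 ⟨.m, 0, 0, 0, [⟨.m, 1, 0, []⟩, ⟨.c, 2, 1, []⟩, ⟨.c, 2, 0, []⟩]⟩
(.node 5069848115741842 168 ⟨.m, 0, 0, 0, [⟨.m, 1, 0, []⟩, ⟨.x, 2, 0, []⟩, ⟨.x, 2, 0, []⟩]⟩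
(.node 5069848115741841 145 ⟨.m, 0, 0, 0, [⟨.m, 1, 0, []⟩, ⟨.x, 2, 0, []⟩, ⟨.c, 2, 0, []⟩]⟩
(.node 5069848115741840 118 ⟨.m, 0, 0, 0, [⟨.m, 2, 0, []⟩, ⟨.x, 1, 0, []⟩, ⟨.m, 1, 0, []⟩]⟩
.nil
.nil)
.nil)
(.node 5069848115742032 115 ⟨.m, 0, 0, 0, [⟨.m, 2, 0, []⟩, ⟨.c, 1, 1, []⟩, ⟨.m, 1, 0, []⟩]⟩
(.node 5069848115741845 158 ⟨.m, 0, 0, 0, [⟨.m, 1, 0, []⟩, ⟨.x, 2, 0, []⟩, ⟨.c, 2, 1, []⟩]⟩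
.nil
.nil)
.nil))
(.node 5069848115745808 104 ⟨.m, 0, 0, 0, [⟨.c, 2, 0, []⟩, ⟨.m, 1, 0, []⟩, ⟨.m, 1, 0, []⟩]⟩
(.node 5069848115742037 154 ⟨.m, 0, 0, 0, [⟨.m, 1, 0, []⟩, ⟨.c, 2, 1, []⟩, ⟨.c, 2, 1, []⟩]⟩
(.node 5069848115742034 158 ⟨.m, 0, 0, 0, [⟨.m, 1, 0, []⟩, ⟨.c, 2, 1, []⟩, ⟨.x, 2, 0, []⟩]⟩
.nil
.nil)
.nil)
(.node 5069848115745809 131 ⟨.m, 0, 0, 0, [⟨.c, 2, 0, []⟩, ⟨.m, 1, 0, []⟩, ⟨.c, 1, 0, []⟩]⟩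
.nil
.nil))))
(.node 5069848115746129 208 ⟨.m, 0, 0, 0, [⟨.c, 2, 0, []⟩, ⟨.c, 1, 1, []⟩, ⟨.c, 1, 0, []⟩]⟩
(.node 5069848115745936 144 ⟨.m, 0, 0, 0, [⟨.c, 2, 0, []⟩, ⟨.x, 1, 0, []⟩, ⟨.m, 1, 0, []⟩]⟩
(.node 5069848115745873 200 ⟨.m, 0, 0, 0, [⟨.c, 2, 0, []⟩, ⟨.c, 1, 0, []⟩, ⟨.c, 1, 0, []⟩]⟩
(.node 5069848115745872 131 ⟨.m, 0, 0, 0, [⟨.c, 2, 0, []⟩, ⟨.c, 1, 0, []⟩, ⟨.m, 1, 0, []⟩]⟩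
(.node 5069848115745813 140 ⟨.m, 0, 0, 0, [⟨.c, 2, 0, []⟩, ⟨.m, 1, 0, []⟩, ⟨.c, 1, 1, []⟩]⟩
.nil
.nil)
.nil)
(.node 5069848115745877 208 ⟨.m, 0, 0, 0, [⟨.c, 2, 0, []⟩, ⟨.c, 1, 0, []⟩, ⟨.c, 1, 1, []⟩]⟩
(.node 5069848115745874 211 ⟨.m, 0, 0, 0, [⟨.c, 2, 0, []⟩, ⟨.c, 1, 0, []⟩, ⟨.x, 1, 0, []⟩]⟩
.nil
.nil)
.nil))
(.node 5069848115745941 224 ⟨.m, 0, 0, 0, [⟨.c, 1, 0, []⟩, ⟨.x, 2, 0, []⟩, ⟨.c, 2, 1, []⟩]⟩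
(.node 5069848115745938 234 ⟨.m, 0, 0, 0, [⟨.c, 1, 0, []⟩, ⟨.x, 2, 0, []⟩, ⟨.x, 2, 0, []⟩]⟩
(.node 5069848115745937 211 ⟨.m, 0, 0, 0, [⟨.c, 2, 0, []⟩, ⟨.x, 1, 0, []⟩, ⟨.c, 1, 0, []⟩]⟩
.nil
.nil)
.nil)
(.node 5069848115746128 140 ⟨.m, 0, 0, 0, [⟨.c, 2, 0, []⟩, ⟨.c, 1, 1, []⟩, ⟨.m, 1, 0, []⟩]⟩
.nil
.nil)))
(.node 5069848115749906 166 ⟨.m, 0, 0, 0, [⟨.x, 2, 0, []⟩, ⟨.m, 1, 0, []⟩, ⟨.x, 1, 0, []⟩]⟩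
(.node 5069848115749904 109 ⟨.m, 0, 0, 0, [⟨.x, 2, 0, []⟩, ⟨.m, 1, 0, []⟩, ⟨.m, 1, 0, []⟩]⟩
(.node 5069848115746133 220 ⟨.m, 0, 0, 0, [⟨.c, 1, 0, []⟩, ⟨.c, 2, 1, []⟩, ⟨.c, 2, 1, []⟩]⟩
(.node 5069848115746130 224 ⟨.m, 0, 0, 0, [⟨.c, 1, 0, []⟩, ⟨.c, 2, 1, []⟩, ⟨.x, 2, 0, []⟩]⟩
.nil
.nil)
.nil)
(.node 5069848115749905 136 ⟨.m, 0, 0, 0, [⟨.x, 2, 0, []⟩, ⟨.m, 1, 0, []⟩, ⟨.c, 1, 0, []⟩]⟩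
.nil
.nil))
(.node 5069848115749969 205 ⟨.m, 0, 0, 0, [⟨.x, 2, 0, []⟩, ⟨.c, 1, 0, []⟩, ⟨.c, 1, 0, []⟩]⟩
(.node 5069848115749968 136 ⟨.m, 0, 0, 0, [⟨.x, 2, 0, []⟩, ⟨.c, 1, 0, []⟩, ⟨.m, 1, 0, []⟩]⟩
(.node 5069848115749909 152 ⟨.m, 0, 0, 0, [⟨.x, 2, 0, []⟩, ⟨.m, 1, 0, []⟩, ⟨.c, 1, 1, []⟩]⟩
.nil
.nil)
.nil)
(.node 5069848115749970 232 ⟨.m, 0, 0, 0, [⟨.x, 2, 0, []⟩, ⟨.c, 1, 0, []⟩, ⟨.x, 1, 0, []⟩]⟩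
.nil
.nil)))))

/-- a part of the search tree -/
def bt10001 : BT :=
  (.node 5069848115762513 215 ⟨.m, 0, 0, 0, [⟨.c, 2, 1, []⟩, ⟨.c, 1, 1, []⟩, ⟨.c, 1, 0, []⟩]⟩
(.node 5069848115762194 157 ⟨.m, 0, 0, 0, [⟨.c, 2, 1, []⟩, ⟨.m, 1, 0, []⟩, ⟨.x, 1, 0, []⟩]⟩
(.node 5069848115750225 218 ⟨.m, 0, 0, 0, [⟨.x, 2, 0, []⟩, ⟨.c, 1, 1, []⟩, ⟨.c, 1, 0, []⟩]⟩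
(.node 5069848115750034 268 ⟨.m, 0, 0, 0, [⟨.x, 2, 0, []⟩, ⟨.x, 1, 0, []⟩, ⟨.x, 1, 0, []⟩]⟩
(.node 5069848115750033 232 ⟨.m, 0, 0, 0, [⟨.x, 2, 0, []⟩, ⟨.x, 1, 0, []⟩, ⟨.c, 1, 0, []⟩]⟩
(.node 5069848115750032 166 ⟨.m, 0, 0, 0, [⟨.x, 2, 0, []⟩, ⟨.x, 1, 0, []⟩, ⟨.m, 1, 0, []⟩]⟩
.nil
.nil)
.nil)
(.node 5069848115750224 152 ⟨.m, 0, 0, 0, [⟨.x, 2, 0, []⟩, ⟨.c, 1, 1, []⟩, ⟨.m, 1, 0, []⟩]⟩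
(.node 5069848115750037 254 ⟨.m, 0, 0, 0, [⟨.x, 2, 0, []⟩, ⟨.x, 1, 0, []⟩, ⟨.c, 1, 1, []⟩]⟩
.nil
.nil)
.nil))
(.node 5069848115762192 106 ⟨.m, 0, 0, 0, [⟨.c, 2, 1, []⟩, ⟨.m, 1, 0, []⟩, ⟨.m, 1, 0, []⟩]⟩
(.node 5069848115750229 242 ⟨.m, 0, 0, 0, [⟨.x, 2, 0, []⟩, ⟨.c, 1, 1, []⟩, ⟨.c, 1, 1, []⟩]⟩
(.node 5069848115750226 254 ⟨.m, 0, 0, 0, [⟨.x, 2, 0, []⟩, ⟨.c, 1, 1, []⟩, ⟨.x, 1, 0, []⟩]⟩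
.nil
.nil)
.nil)
(.node 5069848115762193 133 ⟨.m, 0, 0, 0, [⟨.c, 2, 1, []⟩, ⟨.m, 1, 0, []⟩, ⟨.c, 1, 0, []⟩]⟩
.nil
.nil)))
(.node 5069848115762320 157 ⟨.m, 0, 0, 0, [⟨.c, 2, 1, []⟩, ⟨.x, 1, 0, []⟩, ⟨.m, 1, 0, []⟩]⟩
(.node 5069848115762257 202 ⟨.m, 0, 0, 0, [⟨.c, 2, 1, []⟩, ⟨.c, 1, 0, []⟩, ⟨.c, 1, 0, []⟩]⟩
(.node 5069848115762256 133 ⟨.m, 0, 0, 0, [⟨.c, 2, 1, []⟩, ⟨.c, 1, 0, []⟩, ⟨.m, 1, 0, []⟩]⟩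
(.node 5069848115762197 149 ⟨.m, 0, 0, 0, [⟨.c, 2, 1, []⟩, ⟨.m, 1, 0, []⟩, ⟨.c, 1, 1, []⟩]⟩
.nil
.nil)
.nil)
(.node 5069848115762261 215 ⟨.m, 0, 0, 0, [⟨.c, 2, 1, []⟩, ⟨.c, 1, 0, []⟩, ⟨.c, 1, 1, []⟩]⟩
(.node 5069848115762258 223 ⟨.m, 0, 0, 0, [⟨.c, 2, 1, []⟩, ⟨.c, 1, 0, []⟩, ⟨.x, 1, 0, []⟩]⟩
.nil
.nil)
.nil))
(.node 5069848115762325 246 ⟨.m, 0, 0, 0, [⟨.c, 2, 1, []⟩, ⟨.x, 1, 0, []⟩, ⟨.c, 1, 1, []⟩]⟩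
(.node 5069848115762322 256 ⟨.m, 0, 0, 0, [⟨.c, 1, 1, []⟩, ⟨.x, 2, 0, []⟩, ⟨.x, 2, 0, []⟩]⟩
(.node 5069848115762321 223 ⟨.m, 0, 0, 0, [⟨.c, 2, 1, []⟩, ⟨.x, 1, 0, []⟩, ⟨.c, 1, 0, []⟩]⟩
.nil
.nil)
.nil)
(.node 5069848115762512 149 ⟨.m, 0, 0, 0, [⟨.c, 2, 1, []⟩, ⟨.c, 1, 1, []⟩, ⟨.m, 1, 0, []⟩]⟩
.nil
.nil))))
(.node 5069848116266000 436 ⟨.x, 0, 0, 0, [⟨.m, 2, 0, []⟩, ⟨.m, 1, 0, []⟩, ⟨.m, 1, 0, []⟩]⟩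
(.node 5069848116003986 367 ⟨.c, 0, 0, 0, [⟨.m, 1, 0, []⟩, ⟨.x, 2, 0, []⟩, ⟨.x, 2, 0, []⟩]⟩
(.node 5069848116003856 353 ⟨.c, 0, 0, 0, [⟨.m, 2, 0, []⟩, ⟨.m, 1, 0, []⟩, ⟨.m, 1, 0, []⟩]⟩
(.node 5069848115762517 239 ⟨.m, 0, 0, 0, [⟨.c, 2, 1, []⟩, ⟨.c, 1, 1, []⟩, ⟨.c, 1, 1, []⟩]⟩
(.node 5069848115762514 246 ⟨.m, 0, 0, 0, [⟨.c, 2, 1, []⟩, ⟨.c, 1, 1, []⟩, ⟨.x, 1, 0, []⟩]⟩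
.nil
.nil)
.nil)
(.node 5069848116003984 359 ⟨.c, 0, 0, 0, [⟨.m, 2, 0, []⟩, ⟨.x, 1, 0, []⟩, ⟨.m, 1, 0, []⟩]⟩
(.node 5069848116003858 359 ⟨.c, 0, 0, 0, [⟨.m, 2, 0, []⟩, ⟨.m, 1, 0, []⟩, ⟨.x, 1, 0, []⟩]⟩
.nil
.nil)
.nil))
(.node 5069848116012176 365 ⟨.c, 0, 0, 0, [⟨.x, 2, 0, []⟩, ⟨.x, 1, 0, []⟩, ⟨.m, 1, 0, []⟩]⟩
(.node 5069848116012050 365 ⟨.c, 0, 0, 0, [⟨.x, 2, 0, []⟩, ⟨.m, 1, 0, []⟩, ⟨.x, 1, 0, []⟩]⟩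
(.node 5069848116012048 355 ⟨.c, 0, 0, 0, [⟨.x, 2, 0, []⟩, ⟨.m, 1, 0, []⟩, ⟨.m, 1, 0, []⟩]⟩
.nil
.nil)
.nil)
(.node 5069848116012178 376 ⟨.c, 0, 0, 0, [⟨.x, 2, 0, []⟩, ⟨.x, 1, 0, []⟩, ⟨.x, 1, 0, []⟩]⟩
.nil
.nil)))
(.node 5069848116270096 439 ⟨.x, 0, 0, 0, [⟨.c, 2, 0, []⟩, ⟨.m, 1, 0, []⟩, ⟨.m, 1, 0, []⟩]⟩
(.node 5069848116266064 445 ⟨.x, 0, 0, 0, [⟨.m, 2, 0, []⟩, ⟨.c, 1, 0, []⟩, ⟨.m, 1, 0, []⟩]⟩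
(.node 5069848116266005 447 ⟨.x, 0, 0, 0, [⟨.m, 2, 0, []⟩, ⟨.m, 1, 0, []⟩, ⟨.c, 1, 1, []⟩]⟩
(.node 5069848116266001 445 ⟨.x, 0, 0, 0, [⟨.m, 2, 0, []⟩, ⟨.m, 1, 0, []⟩, ⟨.c, 1, 0, []⟩]⟩
.nil
.nil)
.nil)
(.node 5069848116266320 447 ⟨.x, 0, 0, 0, [⟨.m, 2, 0, []⟩, ⟨.c, 1, 1, []⟩, ⟨.m, 1, 0, []⟩]⟩
.nil
.nil))
(.node 9010497789629458 288 ⟨.c, 3, 0, 0, [⟨.m, 0, 0, []⟩, ⟨.x, 0, 0, []⟩]⟩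
(.node 9010497789629456 286 ⟨.c, 3, 0, 0, [⟨.m, 0, 0, []⟩, ⟨.m, 0, 0, []⟩]⟩
(.node 5069848116286480 441 ⟨.x, 0, 0, 0, [⟨.c, 2, 1, []⟩, ⟨.m, 1, 0, []⟩, ⟨.m, 1, 0, []⟩]⟩
.nil
.nil)
.nil)
(.node 9010497789629584 288 ⟨.c, 3, 0, 0, [⟨.x, 0, 0, []⟩, ⟨.m, 0, 0, []⟩]⟩
.nil
.nil)))))

/-- a part of the search tree -/
def bt10010 : BT :=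
  (.node 36033195065484304 407 ⟨.x, 1, 0, 0, [⟨.m, 0, 0, []⟩, ⟨.m, 1, 0, []⟩]⟩
(.node 36033195065476177 54 ⟨.m, 1, 0, 0, [⟨.c, 0, 0, []⟩, ⟨.c, 1, 0, []⟩]⟩
(.node 36033195065476112 15 ⟨.m, 1, 0, 0, [⟨.m, 0, 0, []⟩, ⟨.m, 1, 0, []⟩]⟩
(.node 9079767022183440 390 ⟨.x, 3, 0, 0, [⟨.m, 4, 0, []⟩, ⟨.m, 0, 0, []⟩]⟩
(.node 9018194371027984 390 ⟨.x, 3, 0, 0, [⟨.m, 0, 0, []⟩, ⟨.m, 4, 0, []⟩]⟩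
(.node 9010497789633552 393 ⟨.x, 3, 0, 0, [⟨.m, 0, 0, []⟩, ⟨.m, 0, 0, []⟩]⟩
.nil
.nil)
.nil)
(.node 9572348231427088 389 ⟨.x, 3, 0, 0, [⟨.m, 4, 0, []⟩, ⟨.m, 4, 0, []⟩]⟩
(.node 9572348231422992 283 ⟨.c, 3, 0, 0, [⟨.m, 4, 0, []⟩, ⟨.m, 4, 0, []⟩]⟩
.nil
.nil)
.nil))
(.node 36033195065476117 43 ⟨.m, 1, 0, 0, [⟨.m, 0, 0, []⟩, ⟨.c, 1, 1, []⟩]⟩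
(.node 36033195065476114 46 ⟨.m, 1, 0, 0, [⟨.m, 0, 0, []⟩, ⟨.x, 1, 0, []⟩]⟩
(.node 36033195065476113 41 ⟨.m, 1, 0, 0, [⟨.m, 0, 0, []⟩, ⟨.c, 1, 0, []⟩]⟩
.nil
.nil)
.nil)
(.node 36033195065476176 20 ⟨.m, 1, 0, 0, [⟨.c, 0, 0, []⟩, ⟨.m, 1, 0, []⟩]⟩
.nil
.nil)))
(.node 36033195065476245 75 ⟨.m, 1, 0, 0, [⟨.x, 0, 0, []⟩, ⟨.c, 1, 1, []⟩]⟩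
(.node 36033195065476240 23 ⟨.m, 1, 0, 0, [⟨.x, 0, 0, []⟩, ⟨.m, 1, 0, []⟩]⟩
(.node 36033195065476181 72 ⟨.m, 1, 0, 0, [⟨.c, 0, 0, []⟩, ⟨.c, 1, 1, []⟩]⟩
(.node 36033195065476178 86 ⟨.m, 1, 0, 0, [⟨.c, 0, 0, []⟩, ⟨.x, 1, 0, []⟩]⟩
.nil
.nil)
.nil)
(.node 36033195065476242 92 ⟨.m, 1, 0, 0, [⟨.x, 0, 0, []⟩, ⟨.x, 1, 0, []⟩]⟩
(.node 36033195065476241 57 ⟨.m, 1, 0, 0, [⟨.x, 0, 0, []⟩, ⟨.c, 1, 0, []⟩]⟩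
.nil
.nil)
.nil))
(.node 36033195065480336 308 ⟨.c, 1, 0, 0, [⟨.x, 0, 0, []⟩, ⟨.m, 1, 0, []⟩]⟩
(.node 36033195065480210 328 ⟨.c, 1, 0, 0, [⟨.m, 0, 0, []⟩, ⟨.x, 1, 0, []⟩]⟩
(.node 36033195065480208 302 ⟨.c, 1, 0, 0, [⟨.m, 0, 0, []⟩, ⟨.m, 1, 0, []⟩]⟩
.nil
.nil)
.nil)
(.node 36033195065480338 341 ⟨.c, 1, 0, 0, [⟨.x, 0, 0, []⟩, ⟨.x, 1, 0, []⟩]⟩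
.nil
.nil))))
(.node 36033195065541653 124 ⟨.m, 0, 0, 0, [⟨.m, 1, 0, []⟩, ⟨.m, 0, 0, []⟩, ⟨.c, 1, 1, []⟩]⟩
(.node 36033195065496720 309 ⟨.c, 1, 0, 1, [⟨.x, 0, 0, []⟩, ⟨.m, 1, 0, []⟩]⟩
(.node 36033195065484368 412 ⟨.x, 1, 0, 0, [⟨.c, 0, 0, []⟩, ⟨.m, 1, 0, []⟩]⟩
(.node 36033195065484309 432 ⟨.x, 1, 0, 0, [⟨.m, 0, 0, []⟩, ⟨.c, 1, 1, []⟩]⟩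
(.node 36033195065484305 430 ⟨.x, 1, 0, 0, [⟨.m, 0, 0, []⟩, ⟨.c, 1, 0, []⟩]⟩
.nil
.nil)
.nil)
(.node 36033195065496594 329 ⟨.c, 1, 0, 1, [⟨.m, 0, 0, []⟩, ⟨.x, 1, 0, []⟩]⟩
(.node 36033195065496592 303 ⟨.c, 1, 0, 1, [⟨.m, 0, 0, []⟩, ⟨.m, 1, 0, []⟩]⟩
.nil
.nil)
.nil))
(.node 36033195065541649 122 ⟨.m, 0, 0, 0, [⟨.m, 1, 0, []⟩, ⟨.m, 0, 0, []⟩, ⟨.c, 1, 0, []⟩]⟩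
(.node 36033195065541648 102 ⟨.m, 0, 0, 0, [⟨.m, 1, 0, []⟩, ⟨.m, 0, 0, []⟩, ⟨.m, 1, 0, []⟩]⟩
(.node 36033195065496722 342 ⟨.c, 1, 0, 1, [⟨.x, 0, 0, []⟩, ⟨.x, 1, 0, []⟩]⟩
.nil
.nil)
.nil)
(.node 36033195065541650 127 ⟨.m, 0, 0, 0, [⟨.m, 1, 0, []⟩, ⟨.m, 0, 0, []⟩, ⟨.x, 1, 0, []⟩]⟩
.nil
.nil)))
(.node 36033195065541776 110 ⟨.m, 0, 0, 0, [⟨.m, 1, 0, []⟩, ⟨.x, 0, 0, []⟩, ⟨.m, 1, 0, []⟩]⟩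
(.node 36033195065541714 162 ⟨.m, 0, 0, 0, [⟨.m, 1, 0, []⟩, ⟨.c, 0, 0, []⟩, ⟨.x, 1, 0, []⟩]⟩
(.node 36033195065541713 134 ⟨.m, 0, 0, 0, [⟨.m, 1, 0, []⟩, ⟨.c, 0, 0, []⟩, ⟨.c, 1, 0, []⟩]⟩
(.node 36033195065541712 107 ⟨.m, 0, 0, 0, [⟨.m, 1, 0, []⟩, ⟨.c, 0, 0, []⟩, ⟨.m, 1, 0, []⟩]⟩
.nil
.nil)
.nil)
(.node 36033195065541717 150 ⟨.m, 0, 0, 0, [⟨.m, 1, 0, []⟩, ⟨.c, 0, 0, []⟩, ⟨.c, 1, 1, []⟩]⟩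
.nil
.nil))
(.node 36033195065541781 153 ⟨.m, 0, 0, 0, [⟨.m, 1, 0, []⟩, ⟨.x, 0, 0, []⟩, ⟨.c, 1, 1, []⟩]⟩
(.node 36033195065541778 167 ⟨.m, 0, 0, 0, [⟨.m, 1, 0, []⟩, ⟨.x, 0, 0, []⟩, ⟨.x, 1, 0, []⟩]⟩
(.node 36033195065541777 137 ⟨.m, 0, 0, 0, [⟨.m, 1, 0, []⟩, ⟨.x, 0, 0, []⟩, ⟨.c, 1, 0, []⟩]⟩
.nil
.nil)
.nil)
(.node 36033195065545744 122 ⟨.m, 0, 0, 0, [⟨.c, 1, 0, []⟩, ⟨.m, 0, 0, []⟩, ⟨.m, 1, 0, []⟩]⟩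
.nil
.nil)))))

/-- a part of the search tree -/
def bt10011 : BT :=
  (.node 36033195065549973 255 ⟨.m, 0, 0, 0, [⟨.x, 1, 0, []⟩, ⟨.x, 0, 0, []⟩, ⟨.c, 1, 1, []⟩]⟩
(.node 36033195065549840 127 ⟨.m, 0, 0, 0, [⟨.x, 1, 0, []⟩, ⟨.m, 0, 0, []⟩, ⟨.m, 1, 0, []⟩]⟩
(.node 36033195065545813 216 ⟨.m, 0, 0, 0, [⟨.c, 1, 0, []⟩, ⟨.c, 0, 0, []⟩, ⟨.c, 1, 1, []⟩]⟩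
(.node 36033195065545808 134 ⟨.m, 0, 0, 0, [⟨.c, 1, 0, []⟩, ⟨.c, 0, 0, []⟩, ⟨.m, 1, 0, []⟩]⟩
(.node 36033195065545749 180 ⟨.m, 0, 0, 0, [⟨.c, 1, 0, []⟩, ⟨.m, 0, 0, []⟩, ⟨.c, 1, 1, []⟩]⟩
(.node 36033195065545746 183 ⟨.m, 0, 0, 0, [⟨.c, 1, 0, []⟩, ⟨.m, 0, 0, []⟩, ⟨.x, 1, 0, []⟩]⟩
.nil
.nil)
.nil)
(.node 36033195065545810 228 ⟨.m, 0, 0, 0, [⟨.c, 1, 0, []⟩, ⟨.c, 0, 0, []⟩, ⟨.x, 1, 0, []⟩]⟩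
(.node 36033195065545809 203 ⟨.m, 0, 0, 0, [⟨.c, 1, 0, []⟩, ⟨.c, 0, 0, []⟩, ⟨.c, 1, 0, []⟩]⟩
.nil
.nil)
.nil))
(.node 36033195065545874 233 ⟨.m, 0, 0, 0, [⟨.c, 1, 0, []⟩, ⟨.x, 0, 0, []⟩, ⟨.x, 1, 0, []⟩]⟩
(.node 36033195065545873 206 ⟨.m, 0, 0, 0, [⟨.c, 1, 0, []⟩, ⟨.x, 0, 0, []⟩, ⟨.c, 1, 0, []⟩]⟩
(.node 36033195065545872 137 ⟨.m, 0, 0, 0, [⟨.c, 1, 0, []⟩, ⟨.x, 0, 0, []⟩, ⟨.m, 1, 0, []⟩]⟩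
.nil
.nil)
.nil)
(.node 36033195065545877 219 ⟨.m, 0, 0, 0, [⟨.c, 1, 0, []⟩, ⟨.x, 0, 0, []⟩, ⟨.c, 1, 1, []⟩]⟩
.nil
.nil)))
(.node 36033195065549906 263 ⟨.m, 0, 0, 0, [⟨.x, 1, 0, []⟩, ⟨.c, 0, 0, []⟩, ⟨.x, 1, 0, []⟩]⟩
(.node 36033195065549845 189 ⟨.m, 0, 0, 0, [⟨.x, 1, 0, []⟩, ⟨.m, 0, 0, []⟩, ⟨.c, 1, 1, []⟩]⟩
(.node 36033195065549842 195 ⟨.m, 0, 0, 0, [⟨.x, 1, 0, []⟩, ⟨.m, 0, 0, []⟩, ⟨.x, 1, 0, []⟩]⟩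
(.node 36033195065549841 183 ⟨.m, 0, 0, 0, [⟨.x, 1, 0, []⟩, ⟨.m, 0, 0, []⟩, ⟨.c, 1, 0, []⟩]⟩
.nil
.nil)
.nil)
(.node 36033195065549905 228 ⟨.m, 0, 0, 0, [⟨.x, 1, 0, []⟩, ⟨.c, 0, 0, []⟩, ⟨.c, 1, 0, []⟩]⟩
(.node 36033195065549904 162 ⟨.m, 0, 0, 0, [⟨.x, 1, 0, []⟩, ⟨.c, 0, 0, []⟩, ⟨.m, 1, 0, []⟩]⟩
.nil
.nil)
.nil))
(.node 36033195065549969 233 ⟨.m, 0, 0, 0, [⟨.x, 1, 0, []⟩, ⟨.x, 0, 0, []⟩, ⟨.c, 1, 0, []⟩]⟩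
(.node 36033195065549968 167 ⟨.m, 0, 0, 0, [⟨.x, 1, 0, []⟩, ⟨.x, 0, 0, []⟩, ⟨.m, 1, 0, []⟩]⟩
(.node 36033195065549909 250 ⟨.m, 0, 0, 0, [⟨.x, 1, 0, []⟩, ⟨.c, 0, 0, []⟩, ⟨.c, 1, 1, []⟩]⟩
.nil
.nil)
.nil)
(.node 36033195065549970 269 ⟨.m, 0, 0, 0, [⟨.x, 1, 0, []⟩, ⟨.x, 0, 0, []⟩, ⟨.x, 1, 0, []⟩]⟩
.nil
.nil))))
(.node 36033195065562258 255 ⟨.m, 0, 0, 0, [⟨.c, 1, 1, []⟩, ⟨.x, 0, 0, []⟩, ⟨.x, 1, 0, []⟩]⟩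
(.node 36033195065562193 216 ⟨.m, 0, 0, 0, [⟨.c, 1, 1, []⟩, ⟨.c, 0, 0, []⟩, ⟨.c, 1, 0, []⟩]⟩
(.node 36033195065562130 189 ⟨.m, 0, 0, 0, [⟨.c, 1, 1, []⟩, ⟨.m, 0, 0, []⟩, ⟨.x, 1, 0, []⟩]⟩
(.node 36033195065562129 180 ⟨.m, 0, 0, 0, [⟨.c, 1, 1, []⟩, ⟨.m, 0, 0, []⟩, ⟨.c, 1, 0, []⟩]⟩
(.node 36033195065562128 124 ⟨.m, 0, 0, 0, [⟨.c, 1, 1, []⟩, ⟨.m, 0, 0, []⟩, ⟨.m, 1, 0, []⟩]⟩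
.nil
.nil)
.nil)
(.node 36033195065562192 150 ⟨.m, 0, 0, 0, [⟨.c, 1, 1, []⟩, ⟨.c, 0, 0, []⟩, ⟨.m, 1, 0, []⟩]⟩
(.node 36033195065562133 186 ⟨.m, 0, 0, 0, [⟨.c, 1, 1, []⟩, ⟨.m, 0, 0, []⟩, ⟨.c, 1, 1, []⟩]⟩
.nil
.nil)
.nil))
(.node 36033195065562256 153 ⟨.m, 0, 0, 0, [⟨.c, 1, 1, []⟩, ⟨.x, 0, 0, []⟩, ⟨.m, 1, 0, []⟩]⟩
(.node 36033195065562197 240 ⟨.m, 0, 0, 0, [⟨.c, 1, 1, []⟩, ⟨.c, 0, 0, []⟩, ⟨.c, 1, 1, []⟩]⟩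
(.node 36033195065562194 250 ⟨.m, 0, 0, 0, [⟨.c, 1, 1, []⟩, ⟨.c, 0, 0, []⟩, ⟨.x, 1, 0, []⟩]⟩
.nil
.nil)
.nil)
(.node 36033195065562257 219 ⟨.m, 0, 0, 0, [⟨.c, 1, 1, []⟩, ⟨.x, 0, 0, []⟩, ⟨.c, 1, 0, []⟩]⟩
.nil
.nil)))
(.node 36033195065812112 366 ⟨.c, 0, 0, 0, [⟨.x, 1, 0, []⟩, ⟨.x, 0, 0, []⟩, ⟨.m, 1, 0, []⟩]⟩
(.node 36033195065803920 356 ⟨.c, 0, 0, 0, [⟨.m, 1, 0, []⟩, ⟨.x, 0, 0, []⟩, ⟨.m, 1, 0, []⟩]⟩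
(.node 36033195065803792 354 ⟨.c, 0, 0, 0, [⟨.m, 1, 0, []⟩, ⟨.m, 0, 0, []⟩, ⟨.m, 1, 0, []⟩]⟩
(.node 36033195065562261 243 ⟨.m, 0, 0, 0, [⟨.c, 1, 1, []⟩, ⟨.x, 0, 0, []⟩, ⟨.c, 1, 1, []⟩]⟩
.nil
.nil)
.nil)
(.node 36033195065803922 366 ⟨.c, 0, 0, 0, [⟨.m, 1, 0, []⟩, ⟨.x, 0, 0, []⟩, ⟨.x, 1, 0, []⟩]⟩
.nil
.nil))
(.node 36033195066065937 451 ⟨.x, 0, 0, 0, [⟨.m, 1, 0, []⟩, ⟨.m, 0, 0, []⟩, ⟨.c, 1, 0, []⟩]⟩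
(.node 36033195066065936 437 ⟨.x, 0, 0, 0, [⟨.m, 1, 0, []⟩, ⟨.m, 0, 0, []⟩, ⟨.m, 1, 0, []⟩]⟩
(.node 36033195065812114 377 ⟨.c, 0, 0, 0, [⟨.x, 1, 0, []⟩, ⟨.x, 0, 0, []⟩, ⟨.x, 1, 0, []⟩]⟩
.nil
.nil)
.nil)
(.node 36033195066065941 453 ⟨.x, 0, 0, 0, [⟨.m, 1, 0, []⟩, ⟨.m, 0, 0, []⟩, ⟨.c, 1, 1, []⟩]⟩
.nil
.nil)))))

/-- a part of the search tree -/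
def bt10100 : BT :=
  (.node 36102464298030226 339 ⟨.c, 1, 0, 0, [⟨.x, 2, 0, []⟩, ⟨.x, 1, 0, []⟩]⟩
(.node 36102464298026128 22 ⟨.m, 1, 0, 0, [⟨.x, 2, 0, []⟩, ⟨.m, 1, 0, []⟩]⟩
(.node 36102464298026005 31 ⟨.m, 1, 0, 0, [⟨.m, 2, 0, []⟩, ⟨.c, 1, 1, []⟩]⟩
(.node 36102464298026000 14 ⟨.m, 1, 0, 0, [⟨.m, 2, 0, []⟩, ⟨.m, 1, 0, []⟩]⟩
(.node 36033195066086416 453 ⟨.x, 0, 0, 0, [⟨.c, 1, 1, []⟩, ⟨.m, 0, 0, []⟩, ⟨.m, 1, 0, []⟩]⟩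
(.node 36033195066070032 451 ⟨.x, 0, 0, 0, [⟨.c, 1, 0, []⟩, ⟨.m, 0, 0, []⟩, ⟨.m, 1, 0, []⟩]⟩
.nil
.nil)
.nil)
(.node 36102464298026002 35 ⟨.m, 1, 0, 0, [⟨.m, 2, 0, []⟩, ⟨.x, 1, 0, []⟩]⟩
(.node 36102464298026001 28 ⟨.m, 1, 0, 0, [⟨.m, 2, 0, []⟩, ⟨.c, 1, 0, []⟩]⟩
.nil
.nil)
.nil))
(.node 36102464298026066 65 ⟨.m, 1, 0, 0, [⟨.c, 2, 0, []⟩, ⟨.x, 1, 0, []⟩]⟩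
(.node 36102464298026065 51 ⟨.m, 1, 0, 0, [⟨.c, 2, 0, []⟩, ⟨.c, 1, 0, []⟩]⟩
(.node 36102464298026064 17 ⟨.m, 1, 0, 0, [⟨.c, 2, 0, []⟩, ⟨.m, 1, 0, []⟩]⟩
.nil
.nil)
.nil)
(.node 36102464298026069 61 ⟨.m, 1, 0, 0, [⟨.c, 2, 0, []⟩, ⟨.c, 1, 1, []⟩]⟩
.nil
.nil)))
(.node 36102464298026322 80 ⟨.m, 1, 0, 0, [⟨.c, 2, 1, []⟩, ⟨.x, 1, 0, []⟩]⟩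
(.node 36102464298026133 74 ⟨.m, 1, 0, 0, [⟨.x, 2, 0, []⟩, ⟨.c, 1, 1, []⟩]⟩
(.node 36102464298026130 91 ⟨.m, 1, 0, 0, [⟨.x, 2, 0, []⟩, ⟨.x, 1, 0, []⟩]⟩
(.node 36102464298026129 56 ⟨.m, 1, 0, 0, [⟨.x, 2, 0, []⟩, ⟨.c, 1, 0, []⟩]⟩
.nil
.nil)
.nil)
(.node 36102464298026321 53 ⟨.m, 1, 0, 0, [⟨.c, 2, 1, []⟩, ⟨.c, 1, 0, []⟩]⟩
(.node 36102464298026320 19 ⟨.m, 1, 0, 0, [⟨.c, 2, 1, []⟩, ⟨.m, 1, 0, []⟩]⟩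
.nil
.nil)
.nil))
(.node 36102464298030098 317 ⟨.c, 1, 0, 0, [⟨.m, 2, 0, []⟩, ⟨.x, 1, 0, []⟩]⟩
(.node 36102464298030096 300 ⟨.c, 1, 0, 0, [⟨.m, 2, 0, []⟩, ⟨.m, 1, 0, []⟩]⟩
(.node 36102464298026325 71 ⟨.m, 1, 0, 0, [⟨.c, 2, 1, []⟩, ⟨.c, 1, 1, []⟩]⟩
.nil
.nil)
.nil)
(.node 36102464298030224 306 ⟨.c, 1, 0, 0, [⟨.x, 2, 0, []⟩, ⟨.m, 1, 0, []⟩]⟩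
.nil
.nil))))
(.node 36102464298091537 113 ⟨.m, 0, 0, 0, [⟨.m, 1, 0, []⟩, ⟨.m, 2, 0, []⟩, ⟨.c, 1, 0, []⟩]⟩
(.node 36102464298046480 301 ⟨.c, 1, 0, 1, [⟨.m, 2, 0, []⟩, ⟨.m, 1, 0, []⟩]⟩
(.node 36102464298034197 424 ⟨.x, 1, 0, 0, [⟨.m, 2, 0, []⟩, ⟨.c, 1, 1, []⟩]⟩
(.node 36102464298034193 421 ⟨.x, 1, 0, 0, [⟨.m, 2, 0, []⟩, ⟨.c, 1, 0, []⟩]⟩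
(.node 36102464298034192 405 ⟨.x, 1, 0, 0, [⟨.m, 2, 0, []⟩, ⟨.m, 1, 0, []⟩]⟩
.nil
.nil)
.nil)
(.node 36102464298034512 411 ⟨.x, 1, 0, 0, [⟨.c, 2, 1, []⟩, ⟨.m, 1, 0, []⟩]⟩
(.node 36102464298034256 409 ⟨.x, 1, 0, 0, [⟨.c, 2, 0, []⟩, ⟨.m, 1, 0, []⟩]⟩
.nil
.nil)
.nil))
(.node 36102464298046610 340 ⟨.c, 1, 0, 1, [⟨.x, 2, 0, []⟩, ⟨.x, 1, 0, []⟩]⟩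
(.node 36102464298046608 307 ⟨.c, 1, 0, 1, [⟨.x, 2, 0, []⟩, ⟨.m, 1, 0, []⟩]⟩
(.node 36102464298046482 318 ⟨.c, 1, 0, 1, [⟨.m, 2, 0, []⟩, ⟨.x, 1, 0, []⟩]⟩
.nil
.nil)
.nil)
(.node 36102464298091536 101 ⟨.m, 0, 0, 0, [⟨.m, 1, 0, []⟩, ⟨.m, 2, 0, []⟩, ⟨.m, 1, 0, []⟩]⟩
.nil
.nil)))
(.node 36102464298091602 144 ⟨.m, 0, 0, 0, [⟨.m, 1, 0, []⟩, ⟨.c, 2, 0, []⟩, ⟨.x, 1, 0, []⟩]⟩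
(.node 36102464298091600 104 ⟨.m, 0, 0, 0, [⟨.m, 1, 0, []⟩, ⟨.c, 2, 0, []⟩, ⟨.m, 1, 0, []⟩]⟩
(.node 36102464298091541 115 ⟨.m, 0, 0, 0, [⟨.m, 1, 0, []⟩, ⟨.m, 2, 0, []⟩, ⟨.c, 1, 1, []⟩]⟩
(.node 36102464298091538 118 ⟨.m, 0, 0, 0, [⟨.m, 1, 0, []⟩, ⟨.m, 2, 0, []⟩, ⟨.x, 1, 0, []⟩]⟩
.nil
.nil)
.nil)
(.node 36102464298091601 131 ⟨.m, 0, 0, 0, [⟨.m, 1, 0, []⟩, ⟨.c, 2, 0, []⟩, ⟨.c, 1, 0, []⟩]⟩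
.nil
.nil))
(.node 36102464298091665 136 ⟨.m, 0, 0, 0, [⟨.m, 1, 0, []⟩, ⟨.x, 2, 0, []⟩, ⟨.c, 1, 0, []⟩]⟩
(.node 36102464298091664 109 ⟨.m, 0, 0, 0, [⟨.m, 1, 0, []⟩, ⟨.x, 2, 0, []⟩, ⟨.m, 1, 0, []⟩]⟩
(.node 36102464298091605 140 ⟨.m, 0, 0, 0, [⟨.m, 1, 0, []⟩, ⟨.c, 2, 0, []⟩, ⟨.c, 1, 1, []⟩]⟩
.nil
.nil)
.nil)
(.node 36102464298091666 166 ⟨.m, 0, 0, 0, [⟨.m, 1, 0, []⟩, ⟨.x, 2, 0, []⟩, ⟨.x, 1, 0, []⟩]⟩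
.nil
.nil)))))

/-- a part of the search tree -/
def bt10101 : BT :=
  (.node 36102464298099729 145 ⟨.m, 0, 0, 0, [⟨.x, 2, 0, []⟩, ⟨.m, 1, 0, []⟩, ⟨.c, 2, 0, []⟩]⟩
(.node 36102464298095698 211 ⟨.m, 0, 0, 0, [⟨.c, 1, 0, []⟩, ⟨.c, 2, 0, []⟩, ⟨.x, 1, 0, []⟩]⟩
(.node 36102464298095633 138 ⟨.m, 0, 0, 0, [⟨.c, 2, 0, []⟩, ⟨.m, 1, 0, []⟩, ⟨.c, 2, 0, []⟩]⟩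
(.node 36102464298091858 157 ⟨.m, 0, 0, 0, [⟨.m, 1, 0, []⟩, ⟨.c, 2, 1, []⟩, ⟨.x, 1, 0, []⟩]⟩
(.node 36102464298091857 133 ⟨.m, 0, 0, 0, [⟨.m, 1, 0, []⟩, ⟨.c, 2, 1, []⟩, ⟨.c, 1, 0, []⟩]⟩
(.node 36102464298091856 106 ⟨.m, 0, 0, 0, [⟨.m, 1, 0, []⟩, ⟨.c, 2, 1, []⟩, ⟨.m, 1, 0, []⟩]⟩
.nil
.nil)
.nil)
(.node 36102464298095632 113 ⟨.m, 0, 0, 0, [⟨.c, 1, 0, []⟩, ⟨.m, 2, 0, []⟩, ⟨.m, 1, 0, []⟩]⟩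
(.node 36102464298091861 149 ⟨.m, 0, 0, 0, [⟨.m, 1, 0, []⟩, ⟨.c, 2, 1, []⟩, ⟨.c, 1, 1, []⟩]⟩
.nil
.nil)
.nil))
(.node 36102464298095696 131 ⟨.m, 0, 0, 0, [⟨.c, 1, 0, []⟩, ⟨.c, 2, 0, []⟩, ⟨.m, 1, 0, []⟩]⟩
(.node 36102464298095637 141 ⟨.m, 0, 0, 0, [⟨.c, 2, 0, []⟩, ⟨.m, 1, 0, []⟩, ⟨.c, 2, 1, []⟩]⟩
(.node 36102464298095634 145 ⟨.m, 0, 0, 0, [⟨.c, 2, 0, []⟩, ⟨.m, 1, 0, []⟩, ⟨.x, 2, 0, []⟩]⟩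
.nil
.nil)
.nil)
(.node 36102464298095697 200 ⟨.m, 0, 0, 0, [⟨.c, 1, 0, []⟩, ⟨.c, 2, 0, []⟩, ⟨.c, 1, 0, []⟩]⟩
.nil
.nil)))
(.node 36102464298095952 133 ⟨.m, 0, 0, 0, [⟨.c, 1, 0, []⟩, ⟨.c, 2, 1, []⟩, ⟨.m, 1, 0, []⟩]⟩
(.node 36102464298095761 205 ⟨.m, 0, 0, 0, [⟨.c, 1, 0, []⟩, ⟨.x, 2, 0, []⟩, ⟨.c, 1, 0, []⟩]⟩
(.node 36102464298095760 136 ⟨.m, 0, 0, 0, [⟨.c, 1, 0, []⟩, ⟨.x, 2, 0, []⟩, ⟨.m, 1, 0, []⟩]⟩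
(.node 36102464298095701 208 ⟨.m, 0, 0, 0, [⟨.c, 1, 0, []⟩, ⟨.c, 2, 0, []⟩, ⟨.c, 1, 1, []⟩]⟩
.nil
.nil)
.nil)
(.node 36102464298095765 218 ⟨.m, 0, 0, 0, [⟨.c, 1, 0, []⟩, ⟨.x, 2, 0, []⟩, ⟨.c, 1, 1, []⟩]⟩
(.node 36102464298095762 232 ⟨.m, 0, 0, 0, [⟨.c, 1, 0, []⟩, ⟨.x, 2, 0, []⟩, ⟨.x, 1, 0, []⟩]⟩
.nil
.nil)
.nil))
(.node 36102464298095957 215 ⟨.m, 0, 0, 0, [⟨.c, 1, 0, []⟩, ⟨.c, 2, 1, []⟩, ⟨.c, 1, 1, []⟩]⟩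
(.node 36102464298095954 223 ⟨.m, 0, 0, 0, [⟨.c, 1, 0, []⟩, ⟨.c, 2, 1, []⟩, ⟨.x, 1, 0, []⟩]⟩
(.node 36102464298095953 202 ⟨.m, 0, 0, 0, [⟨.c, 1, 0, []⟩, ⟨.c, 2, 1, []⟩, ⟨.c, 1, 0, []⟩]⟩
.nil
.nil)
.nil)
(.node 36102464298099728 118 ⟨.m, 0, 0, 0, [⟨.x, 1, 0, []⟩, ⟨.m, 2, 0, []⟩, ⟨.m, 1, 0, []⟩]⟩
.nil
.nil))))
(.node 36102464298100048 157 ⟨.m, 0, 0, 0, [⟨.x, 1, 0, []⟩, ⟨.c, 2, 1, []⟩, ⟨.m, 1, 0, []⟩]⟩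
(.node 36102464298099797 224 ⟨.m, 0, 0, 0, [⟨.x, 2, 0, []⟩, ⟨.c, 1, 0, []⟩, ⟨.c, 2, 1, []⟩]⟩
(.node 36102464298099792 144 ⟨.m, 0, 0, 0, [⟨.x, 1, 0, []⟩, ⟨.c, 2, 0, []⟩, ⟨.m, 1, 0, []⟩]⟩
(.node 36102464298099733 158 ⟨.m, 0, 0, 0, [⟨.x, 2, 0, []⟩, ⟨.m, 1, 0, []⟩, ⟨.c, 2, 1, []⟩]⟩
(.node 36102464298099730 168 ⟨.m, 0, 0, 0, [⟨.x, 2, 0, []⟩, ⟨.m, 1, 0, []⟩, ⟨.x, 2, 0, []⟩]⟩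
.nil
.nil)
.nil)
(.node 36102464298099794 234 ⟨.m, 0, 0, 0, [⟨.x, 2, 0, []⟩, ⟨.c, 1, 0, []⟩, ⟨.x, 2, 0, []⟩]⟩
(.node 36102464298099793 211 ⟨.m, 0, 0, 0, [⟨.x, 1, 0, []⟩, ⟨.c, 2, 0, []⟩, ⟨.c, 1, 0, []⟩]⟩
.nil
.nil)
.nil))
(.node 36102464298099858 268 ⟨.m, 0, 0, 0, [⟨.x, 1, 0, []⟩, ⟨.x, 2, 0, []⟩, ⟨.x, 1, 0, []⟩]⟩
(.node 36102464298099857 232 ⟨.m, 0, 0, 0, [⟨.x, 1, 0, []⟩, ⟨.x, 2, 0, []⟩, ⟨.c, 1, 0, []⟩]⟩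
(.node 36102464298099856 166 ⟨.m, 0, 0, 0, [⟨.x, 1, 0, []⟩, ⟨.x, 2, 0, []⟩, ⟨.m, 1, 0, []⟩]⟩
.nil
.nil)
.nil)
(.node 36102464298099861 254 ⟨.m, 0, 0, 0, [⟨.x, 1, 0, []⟩, ⟨.x, 2, 0, []⟩, ⟨.c, 1, 1, []⟩]⟩
.nil
.nil)))
(.node 36102464298112017 141 ⟨.m, 0, 0, 0, [⟨.c, 2, 1, []⟩, ⟨.m, 1, 0, []⟩, ⟨.c, 2, 0, []⟩]⟩
(.node 36102464298100053 246 ⟨.m, 0, 0, 0, [⟨.x, 1, 0, []⟩, ⟨.c, 2, 1, []⟩, ⟨.c, 1, 1, []⟩]⟩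
(.node 36102464298100050 256 ⟨.m, 0, 0, 0, [⟨.x, 2, 0, []⟩, ⟨.c, 1, 1, []⟩, ⟨.x, 2, 0, []⟩]⟩
(.node 36102464298100049 223 ⟨.m, 0, 0, 0, [⟨.x, 1, 0, []⟩, ⟨.c, 2, 1, []⟩, ⟨.c, 1, 0, []⟩]⟩
.nil
.nil)
.nil)
(.node 36102464298112016 115 ⟨.m, 0, 0, 0, [⟨.c, 1, 1, []⟩, ⟨.m, 2, 0, []⟩, ⟨.m, 1, 0, []⟩]⟩
.nil
.nil))
(.node 36102464298112080 140 ⟨.m, 0, 0, 0, [⟨.c, 1, 1, []⟩, ⟨.c, 2, 0, []⟩, ⟨.m, 1, 0, []⟩]⟩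
(.node 36102464298112021 154 ⟨.m, 0, 0, 0, [⟨.c, 2, 1, []⟩, ⟨.m, 1, 0, []⟩, ⟨.c, 2, 1, []⟩]⟩
(.node 36102464298112018 158 ⟨.m, 0, 0, 0, [⟨.c, 2, 1, []⟩, ⟨.m, 1, 0, []⟩, ⟨.x, 2, 0, []⟩]⟩
.nil
.nil)
.nil)
(.node 36102464298112081 208 ⟨.m, 0, 0, 0, [⟨.c, 1, 1, []⟩, ⟨.c, 2, 0, []⟩, ⟨.c, 1, 0, []⟩]⟩
.nil
.nil)))))

/-- a part of the search tree -/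
def bt10110 : BT :=
  (.node 36102464298616144 441 ⟨.x, 0, 0, 0, [⟨.m, 1, 0, []⟩, ⟨.c, 2, 1, []⟩, ⟨.m, 1, 0, []⟩]⟩
(.node 36102464298353682 359 ⟨.c, 0, 0, 0, [⟨.m, 1, 0, []⟩, ⟨.m, 2, 0, []⟩, ⟨.x, 1, 0, []⟩]⟩
(.node 36102464298112336 149 ⟨.m, 0, 0, 0, [⟨.c, 1, 1, []⟩, ⟨.c, 2, 1, []⟩, ⟨.m, 1, 0, []⟩]⟩
(.node 36102464298112145 218 ⟨.m, 0, 0, 0, [⟨.c, 1, 1, []⟩, ⟨.x, 2, 0, []⟩, ⟨.c, 1, 0, []⟩]⟩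
(.node 36102464298112144 152 ⟨.m, 0, 0, 0, [⟨.c, 1, 1, []⟩, ⟨.x, 2, 0, []⟩, ⟨.m, 1, 0, []⟩]⟩
(.node 36102464298112085 220 ⟨.m, 0, 0, 0, [⟨.c, 2, 1, []⟩, ⟨.c, 1, 0, []⟩, ⟨.c, 2, 1, []⟩]⟩
.nil
.nil)
.nil)
(.node 36102464298112149 242 ⟨.m, 0, 0, 0, [⟨.c, 1, 1, []⟩, ⟨.x, 2, 0, []⟩, ⟨.c, 1, 1, []⟩]⟩
(.node 36102464298112146 254 ⟨.m, 0, 0, 0, [⟨.c, 1, 1, []⟩, ⟨.x, 2, 0, []⟩, ⟨.x, 1, 0, []⟩]⟩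
.nil
.nil)
.nil))
(.node 36102464298112341 239 ⟨.m, 0, 0, 0, [⟨.c, 1, 1, []⟩, ⟨.c, 2, 1, []⟩, ⟨.c, 1, 1, []⟩]⟩
(.node 36102464298112338 246 ⟨.m, 0, 0, 0, [⟨.c, 1, 1, []⟩, ⟨.c, 2, 1, []⟩, ⟨.x, 1, 0, []⟩]⟩
(.node 36102464298112337 215 ⟨.m, 0, 0, 0, [⟨.c, 1, 1, []⟩, ⟨.c, 2, 1, []⟩, ⟨.c, 1, 0, []⟩]⟩
.nil
.nil)
.nil)
(.node 36102464298353680 353 ⟨.c, 0, 0, 0, [⟨.m, 1, 0, []⟩, ⟨.m, 2, 0, []⟩, ⟨.m, 1, 0, []⟩]⟩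
.nil
.nil)))
(.node 36102464298362002 376 ⟨.c, 0, 0, 0, [⟨.x, 1, 0, []⟩, ⟨.x, 2, 0, []⟩, ⟨.x, 1, 0, []⟩]⟩
(.node 36102464298361872 359 ⟨.c, 0, 0, 0, [⟨.x, 1, 0, []⟩, ⟨.m, 2, 0, []⟩, ⟨.m, 1, 0, []⟩]⟩
(.node 36102464298353810 365 ⟨.c, 0, 0, 0, [⟨.m, 1, 0, []⟩, ⟨.x, 2, 0, []⟩, ⟨.x, 1, 0, []⟩]⟩
(.node 36102464298353808 355 ⟨.c, 0, 0, 0, [⟨.m, 1, 0, []⟩, ⟨.x, 2, 0, []⟩, ⟨.m, 1, 0, []⟩]⟩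
.nil
.nil)
.nil)
(.node 36102464298362000 365 ⟨.c, 0, 0, 0, [⟨.x, 1, 0, []⟩, ⟨.x, 2, 0, []⟩, ⟨.m, 1, 0, []⟩]⟩
(.node 36102464298361874 367 ⟨.c, 0, 0, 0, [⟨.x, 2, 0, []⟩, ⟨.m, 1, 0, []⟩, ⟨.x, 2, 0, []⟩]⟩
.nil
.nil)
.nil))
(.node 36102464298615829 447 ⟨.x, 0, 0, 0, [⟨.m, 1, 0, []⟩, ⟨.m, 2, 0, []⟩, ⟨.c, 1, 1, []⟩]⟩
(.node 36102464298615825 445 ⟨.x, 0, 0, 0, [⟨.m, 1, 0, []⟩, ⟨.m, 2, 0, []⟩, ⟨.c, 1, 0, []⟩]⟩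
(.node 36102464298615824 436 ⟨.x, 0, 0, 0, [⟨.m, 1, 0, []⟩, ⟨.m, 2, 0, []⟩, ⟨.m, 1, 0, []⟩]⟩
.nil
.nil)
.nil)
(.node 36102464298615888 439 ⟨.x, 0, 0, 0, [⟨.m, 1, 0, []⟩, ⟨.c, 2, 0, []⟩, ⟨.m, 1, 0, []⟩]⟩
.nil
.nil))))
(.node 288234774198223953 54 ⟨.m, 1, 0, 0, [⟨.c, 1, 0, []⟩, ⟨.c, 0, 0, []⟩]⟩
(.node 72622743014610066 488 ⟨.c, 3, 0, 0, [⟨.x, 4, 0, []⟩, ⟨.x, 7, 0, []⟩]⟩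
(.node 40535695181222930 287 ⟨.c, 3, 0, 0, [⟨.m, 0, 0, []⟩, ⟨.x, 1, 0, []⟩]⟩
(.node 36102464298636304 447 ⟨.x, 0, 0, 0, [⟨.c, 1, 1, []⟩, ⟨.m, 2, 0, []⟩, ⟨.m, 1, 0, []⟩]⟩
(.node 36102464298619920 445 ⟨.x, 0, 0, 0, [⟨.c, 1, 0, []⟩, ⟨.m, 2, 0, []⟩, ⟨.m, 1, 0, []⟩]⟩
.nil
.nil)
.nil)
(.node 40604964413772946 292 ⟨.c, 3, 0, 0, [⟨.x, 4, 0, []⟩, ⟨.x, 1, 0, []⟩]⟩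
(.node 40535695181223058 293 ⟨.c, 3, 0, 0, [⟨.x, 0, 0, []⟩, ⟨.x, 1, 0, []⟩]⟩
.nil
.nil)
.nil))
(.node 288234774198223890 23 ⟨.m, 1, 0, 0, [⟨.m, 1, 0, []⟩, ⟨.x, 0, 0, []⟩]⟩
(.node 288234774198223889 20 ⟨.m, 1, 0, 0, [⟨.m, 1, 0, []⟩, ⟨.c, 0, 0, []⟩]⟩
(.node 288234774198223888 15 ⟨.m, 1, 0, 0, [⟨.m, 1, 0, []⟩, ⟨.m, 0, 0, []⟩]⟩
.nil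
.nil)
.nil)
(.node 288234774198223952 41 ⟨.m, 1, 0, 0, [⟨.c, 1, 0, []⟩, ⟨.m, 0, 0, []⟩]⟩
.nil
.nil)))
(.node 288234774198224208 43 ⟨.m, 1, 0, 0, [⟨.c, 1, 1, []⟩, ⟨.m, 0, 0, []⟩]⟩
(.node 288234774198224017 86 ⟨.m, 1, 0, 0, [⟨.x, 1, 0, []⟩, ⟨.c, 0, 0, []⟩]⟩
(.node 288234774198224016 46 ⟨.m, 1, 0, 0, [⟨.x, 1, 0, []⟩, ⟨.m, 0, 0, []⟩]⟩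
(.node 288234774198223954 57 ⟨.m, 1, 0, 0, [⟨.c, 1, 0, []⟩, ⟨.x, 0, 0, []⟩]⟩
.nil
.nil)
.nil)
(.node 288234774198224018 92 ⟨.m, 1, 0, 0, [⟨.x, 1, 0, []⟩, ⟨.x, 0, 0, []⟩]⟩
.nil
.nil))
(.node 288234774198227984 302 ⟨.c, 1, 0, 0, [⟨.m, 1, 0, []⟩, ⟨.m, 0, 0, []⟩]⟩
(.node 288234774198224210 75 ⟨.m, 1, 0, 0, [⟨.c, 1, 1, []⟩, ⟨.x, 0, 0, []⟩]⟩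
(.node 288234774198224209 72 ⟨.m, 1, 0, 0, [⟨.c, 1, 1, []⟩, ⟨.c, 0, 0, []⟩]⟩
.nil
.nil)
.nil)
(.node 288234774198227986 308 ⟨.c, 1, 0, 0, [⟨.m, 1, 0, []⟩, ⟨.x, 0, 0, []⟩]⟩
.nil
.nil)))))

/-- a part of the search tree -/
def bt10111 : BT :=
  (.node 288234774198293520 122 ⟨.m, 0, 0, 0, [⟨.c, 1, 0, []⟩, ⟨.m, 1, 0, []⟩, ⟨.m, 0, 0, []⟩]⟩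
(.node 288234774198289425 107 ⟨.m, 0, 0, 0, [⟨.m, 1, 0, []⟩, ⟨.m, 1, 0, []⟩, ⟨.c, 0, 0, []⟩]⟩
(.node 288234774198244368 303 ⟨.c, 1, 0, 1, [⟨.m, 1, 0, []⟩, ⟨.m, 0, 0, []⟩]⟩
(.node 288234774198232081 412 ⟨.x, 1, 0, 0, [⟨.m, 1, 0, []⟩, ⟨.c, 0, 0, []⟩]⟩
(.node 288234774198232080 407 ⟨.x, 1, 0, 0, [⟨.m, 1, 0, []⟩, ⟨.m, 0, 0, []⟩]⟩
(.node 288234774198228114 341 ⟨.c, 1, 0, 0, [⟨.x, 1, 0, []⟩, ⟨.x, 0, 0, []⟩]⟩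
.nil
.nil)
.nil)
(.node 288234774198232400 432 ⟨.x, 1, 0, 0, [⟨.c, 1, 1, []⟩, ⟨.m, 0, 0, []⟩]⟩
(.node 288234774198232144 430 ⟨.x, 1, 0, 0, [⟨.c, 1, 0, []⟩, ⟨.m, 0, 0, []⟩]⟩
.nil
.nil)
.nil))
(.node 288234774198244498 342 ⟨.c, 1, 0, 1, [⟨.x, 1, 0, []⟩, ⟨.x, 0, 0, []⟩]⟩
(.node 288234774198244496 329 ⟨.c, 1, 0, 1, [⟨.x, 1, 0, []⟩, ⟨.m, 0, 0, []⟩]⟩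
(.node 288234774198244370 309 ⟨.c, 1, 0, 1, [⟨.m, 1, 0, []⟩, ⟨.x, 0, 0, []⟩]⟩
.nil
.nil)
.nil)
(.node 288234774198289424 102 ⟨.m, 0, 0, 0, [⟨.m, 1, 0, []⟩, ⟨.m, 1, 0, []⟩, ⟨.m, 0, 0, []⟩]⟩
.nil
.nil)))
(.node 288234774198289553 162 ⟨.m, 0, 0, 0, [⟨.m, 1, 0, []⟩, ⟨.x, 1, 0, []⟩, ⟨.c, 0, 0, []⟩]⟩
(.node 288234774198289489 134 ⟨.m, 0, 0, 0, [⟨.m, 1, 0, []⟩, ⟨.c, 1, 0, []⟩, ⟨.c, 0, 0, []⟩]⟩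
(.node 288234774198289488 122 ⟨.m, 0, 0, 0, [⟨.m, 1, 0, []⟩, ⟨.c, 1, 0, []⟩, ⟨.m, 0, 0, []⟩]⟩
(.node 288234774198289426 110 ⟨.m, 0, 0, 0, [⟨.m, 1, 0, []⟩, ⟨.m, 1, 0, []⟩, ⟨.x, 0, 0, []⟩]⟩
.nil
.nil)
.nil)
(.node 288234774198289552 127 ⟨.m, 0, 0, 0, [⟨.m, 1, 0, []⟩, ⟨.x, 1, 0, []⟩, ⟨.m, 0, 0, []⟩]⟩
(.node 288234774198289490 137 ⟨.m, 0, 0, 0, [⟨.m, 1, 0, []⟩, ⟨.c, 1, 0, []⟩, ⟨.x, 0, 0, []⟩]⟩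
.nil
.nil)
.nil))
(.node 288234774198289745 150 ⟨.m, 0, 0, 0, [⟨.m, 1, 0, []⟩, ⟨.c, 1, 1, []⟩, ⟨.c, 0, 0, []⟩]⟩
(.node 288234774198289744 124 ⟨.m, 0, 0, 0, [⟨.m, 1, 0, []⟩, ⟨.c, 1, 1, []⟩, ⟨.m, 0, 0, []⟩]⟩
(.node 288234774198289554 167 ⟨.m, 0, 0, 0, [⟨.m, 1, 0, []⟩, ⟨.x, 1, 0, []⟩, ⟨.x, 0, 0, []⟩]⟩
.nil
.nil)
.nil)
(.node 288234774198289746 153 ⟨.m, 0, 0, 0, [⟨.m, 1, 0, []⟩, ⟨.c, 1, 1, []⟩, ⟨.x, 0, 0, []⟩]⟩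
.nil
.nil))))
(.node 288234774198293842 219 ⟨.m, 0, 0, 0, [⟨.c, 1, 0, []⟩, ⟨.c, 1, 1, []⟩, ⟨.x, 0, 0, []⟩]⟩
(.node 288234774198293648 183 ⟨.m, 0, 0, 0, [⟨.c, 1, 0, []⟩, ⟨.x, 1, 0, []⟩, ⟨.m, 0, 0, []⟩]⟩
(.node 288234774198293584 178 ⟨.m, 0, 0, 0, [⟨.c, 1, 0, []⟩, ⟨.c, 1, 0, []⟩, ⟨.m, 0, 0, []⟩]⟩
(.node 288234774198293522 137 ⟨.m, 0, 0, 0, [⟨.c, 1, 0, []⟩, ⟨.m, 1, 0, []⟩, ⟨.x, 0, 0, []⟩]⟩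
(.node 288234774198293521 134 ⟨.m, 0, 0, 0, [⟨.c, 1, 0, []⟩, ⟨.m, 1, 0, []⟩, ⟨.c, 0, 0, []⟩]⟩
.nil
.nil)
.nil)
(.node 288234774198293586 206 ⟨.m, 0, 0, 0, [⟨.c, 1, 0, []⟩, ⟨.c, 1, 0, []⟩, ⟨.x, 0, 0, []⟩]⟩
(.node 288234774198293585 203 ⟨.m, 0, 0, 0, [⟨.c, 1, 0, []⟩, ⟨.c, 1, 0, []⟩, ⟨.c, 0, 0, []⟩]⟩
.nil
.nil)
.nil))
(.node 288234774198293840 180 ⟨.m, 0, 0, 0, [⟨.c, 1, 0, []⟩, ⟨.c, 1, 1, []⟩, ⟨.m, 0, 0, []⟩]⟩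
(.node 288234774198293650 233 ⟨.m, 0, 0, 0, [⟨.c, 1, 0, []⟩, ⟨.x, 1, 0, []⟩, ⟨.x, 0, 0, []⟩]⟩
(.node 288234774198293649 228 ⟨.m, 0, 0, 0, [⟨.c, 1, 0, []⟩, ⟨.x, 1, 0, []⟩, ⟨.c, 0, 0, []⟩]⟩
.nil
.nil)
.nil)
(.node 288234774198293841 216 ⟨.m, 0, 0, 0, [⟨.c, 1, 0, []⟩, ⟨.c, 1, 1, []⟩, ⟨.c, 0, 0, []⟩]⟩
.nil
.nil)))
(.node 288234774198297681 228 ⟨.m, 0, 0, 0, [⟨.x, 1, 0, []⟩, ⟨.c, 1, 0, []⟩, ⟨.c, 0, 0, []⟩]⟩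
(.node 288234774198297618 167 ⟨.m, 0, 0, 0, [⟨.x, 1, 0, []⟩, ⟨.m, 1, 0, []⟩, ⟨.x, 0, 0, []⟩]⟩
(.node 288234774198297617 162 ⟨.m, 0, 0, 0, [⟨.x, 1, 0, []⟩, ⟨.m, 1, 0, []⟩, ⟨.c, 0, 0, []⟩]⟩
(.node 288234774198297616 127 ⟨.m, 0, 0, 0, [⟨.x, 1, 0, []⟩, ⟨.m, 1, 0, []⟩, ⟨.m, 0, 0, []⟩]⟩
.nil
.nil)
.nil)
(.node 288234774198297680 183 ⟨.m, 0, 0, 0, [⟨.x, 1, 0, []⟩, ⟨.c, 1, 0, []⟩, ⟨.m, 0, 0, []⟩]⟩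
.nil
.nil))
(.node 288234774198297745 263 ⟨.m, 0, 0, 0, [⟨.x, 1, 0, []⟩, ⟨.x, 1, 0, []⟩, ⟨.c, 0, 0, []⟩]⟩
(.node 288234774198297744 195 ⟨.m, 0, 0, 0, [⟨.x, 1, 0, []⟩, ⟨.x, 1, 0, []⟩, ⟨.m, 0, 0, []⟩]⟩
(.node 288234774198297682 233 ⟨.m, 0, 0, 0, [⟨.x, 1, 0, []⟩, ⟨.c, 1, 0, []⟩, ⟨.x, 0, 0, []⟩]⟩
.nil
.nil)
.nil)
(.node 288234774198297746 269 ⟨.m, 0, 0, 0, [⟨.x, 1, 0, []⟩, ⟨.x, 1, 0, []⟩, ⟨.x, 0, 0, []⟩]⟩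
.nil
.nil)))))

/-- a part of the search tree -/
def bt11000 : BT :=
  (.node 288234774198813776 451 ⟨.x, 0, 0, 0, [⟨.m, 1, 0, []⟩, ⟨.c, 1, 0, []⟩, ⟨.m, 0, 0, []⟩]⟩
(.node 288234774198310034 255 ⟨.m, 0, 0, 0, [⟨.c, 1, 1, []⟩, ⟨.x, 1, 0, []⟩, ⟨.x, 0, 0, []⟩]⟩
(.node 288234774198309968 180 ⟨.m, 0, 0, 0, [⟨.c, 1, 1, []⟩, ⟨.c, 1, 0, []⟩, ⟨.m, 0, 0, []⟩]⟩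
(.node 288234774198309904 124 ⟨.m, 0, 0, 0, [⟨.c, 1, 1, []⟩, ⟨.m, 1, 0, []⟩, ⟨.m, 0, 0, []⟩]⟩
(.node 288234774198297938 255 ⟨.m, 0, 0, 0, [⟨.x, 1, 0, []⟩, ⟨.c, 1, 1, []⟩, ⟨.x, 0, 0, []⟩]⟩
(.node 288234774198297937 250 ⟨.m, 0, 0, 0, [⟨.x, 1, 0, []⟩, ⟨.c, 1, 1, []⟩, ⟨.c, 0, 0, []⟩]⟩
.nil
.nil)
.nil)
(.node 288234774198309906 153 ⟨.m, 0, 0, 0, [⟨.c, 1, 1, []⟩, ⟨.m, 1, 0, []⟩, ⟨.x, 0, 0, []⟩]⟩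
(.node 288234774198309905 150 ⟨.m, 0, 0, 0, [⟨.c, 1, 1, []⟩, ⟨.m, 1, 0, []⟩, ⟨.c, 0, 0, []⟩]⟩
.nil
.nil)
.nil))
(.node 288234774198310032 189 ⟨.m, 0, 0, 0, [⟨.c, 1, 1, []⟩, ⟨.x, 1, 0, []⟩, ⟨.m, 0, 0, []⟩]⟩
(.node 288234774198309970 219 ⟨.m, 0, 0, 0, [⟨.c, 1, 1, []⟩, ⟨.c, 1, 0, []⟩, ⟨.x, 0, 0, []⟩]⟩
(.node 288234774198309969 216 ⟨.m, 0, 0, 0, [⟨.c, 1, 1, []⟩, ⟨.c, 1, 0, []⟩, ⟨.c, 0, 0, []⟩]⟩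
.nil
.nil)
.nil)
(.node 288234774198310033 250 ⟨.m, 0, 0, 0, [⟨.c, 1, 1, []⟩, ⟨.x, 1, 0, []⟩, ⟨.c, 0, 0, []⟩]⟩
.nil
.nil)))
(.node 288234774198551698 366 ⟨.c, 0, 0, 0, [⟨.m, 1, 0, []⟩, ⟨.x, 1, 0, []⟩, ⟨.x, 0, 0, []⟩]⟩
(.node 288234774198310226 243 ⟨.m, 0, 0, 0, [⟨.c, 1, 1, []⟩, ⟨.c, 1, 1, []⟩, ⟨.x, 0, 0, []⟩]⟩
(.node 288234774198310225 240 ⟨.m, 0, 0, 0, [⟨.c, 1, 1, []⟩, ⟨.c, 1, 1, []⟩, ⟨.c, 0, 0, []⟩]⟩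
(.node 288234774198310224 186 ⟨.m, 0, 0, 0, [⟨.c, 1, 1, []⟩, ⟨.c, 1, 1, []⟩, ⟨.m, 0, 0, []⟩]⟩
.nil
.nil)
.nil)
(.node 288234774198551570 356 ⟨.c, 0, 0, 0, [⟨.m, 1, 0, []⟩, ⟨.m, 1, 0, []⟩, ⟨.x, 0, 0, []⟩]⟩
(.node 288234774198551568 354 ⟨.c, 0, 0, 0, [⟨.m, 1, 0, []⟩, ⟨.m, 1, 0, []⟩, ⟨.m, 0, 0, []⟩]⟩
.nil
.nil)
.nil))
(.node 288234774198813712 437 ⟨.x, 0, 0, 0, [⟨.m, 1, 0, []⟩, ⟨.m, 1, 0, []⟩, ⟨.m, 0, 0, []⟩]⟩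
(.node 288234774198559890 377 ⟨.c, 0, 0, 0, [⟨.x, 1, 0, []⟩, ⟨.x, 1, 0, []⟩, ⟨.x, 0, 0, []⟩]⟩
(.node 288234774198559762 366 ⟨.c, 0, 0, 0, [⟨.x, 1, 0, []⟩, ⟨.m, 1, 0, []⟩, ⟨.x, 0, 0, []⟩]⟩
.nil
.nil)
.nil)
(.node 288234774198813713 442 ⟨.x, 0, 0, 0, [⟨.m, 1, 0, []⟩, ⟨.m, 1, 0, []⟩, ⟨.c, 0, 0, []⟩]⟩
.nil
.nil))))
(.node 288242470779618389 53 ⟨.m, 1, 0, 0, [⟨.c, 1, 0, []⟩, ⟨.c, 2, 1, []⟩]⟩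
(.node 288242470779618322 22 ⟨.m, 1, 0, 0, [⟨.m, 1, 0, []⟩, ⟨.x, 2, 0, []⟩]⟩
(.node 288234774198834192 453 ⟨.x, 0, 0, 0, [⟨.c, 1, 1, []⟩, ⟨.m, 1, 0, []⟩, ⟨.m, 0, 0, []⟩]⟩
(.node 288234774198817808 451 ⟨.x, 0, 0, 0, [⟨.c, 1, 0, []⟩, ⟨.m, 1, 0, []⟩, ⟨.m, 0, 0, []⟩]⟩
(.node 288234774198814032 453 ⟨.x, 0, 0, 0, [⟨.m, 1, 0, []⟩, ⟨.c, 1, 1, []⟩, ⟨.m, 0, 0, []⟩]⟩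
.nil
.nil)
.nil)
(.node 288242470779618321 17 ⟨.m, 1, 0, 0, [⟨.m, 1, 0, []⟩, ⟨.c, 2, 0, []⟩]⟩
(.node 288242470779618320 14 ⟨.m, 1, 0, 0, [⟨.m, 1, 0, []⟩, ⟨.m, 2, 0, []⟩]⟩
.nil
.nil)
.nil))
(.node 288242470779618385 51 ⟨.m, 1, 0, 0, [⟨.c, 1, 0, []⟩, ⟨.c, 2, 0, []⟩]⟩
(.node 288242470779618384 28 ⟨.m, 1, 0, 0, [⟨.c, 1, 0, []⟩, ⟨.m, 2, 0, []⟩]⟩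
(.node 288242470779618325 19 ⟨.m, 1, 0, 0, [⟨.m, 1, 0, []⟩, ⟨.c, 2, 1, []⟩]⟩
.nil
.nil)
.nil)
(.node 288242470779618386 56 ⟨.m, 1, 0, 0, [⟨.c, 1, 0, []⟩, ⟨.x, 2, 0, []⟩]⟩
.nil
.nil)))
(.node 288242470779618640 31 ⟨.m, 1, 0, 0, [⟨.c, 1, 1, []⟩, ⟨.m, 2, 0, []⟩]⟩
(.node 288242470779618450 91 ⟨.m, 1, 0, 0, [⟨.x, 1, 0, []⟩, ⟨.x, 2, 0, []⟩]⟩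
(.node 288242470779618449 65 ⟨.m, 1, 0, 0, [⟨.x, 1, 0, []⟩, ⟨.c, 2, 0, []⟩]⟩
(.node 288242470779618448 35 ⟨.m, 1, 0, 0, [⟨.x, 1, 0, []⟩, ⟨.m, 2, 0, []⟩]⟩
.nil
.nil)
.nil)
(.node 288242470779618453 80 ⟨.m, 1, 0, 0, [⟨.x, 1, 0, []⟩, ⟨.c, 2, 1, []⟩]⟩
.nil
.nil))
(.node 288242470779618645 71 ⟨.m, 1, 0, 0, [⟨.c, 1, 1, []⟩, ⟨.c, 2, 1, []⟩]⟩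
(.node 288242470779618642 74 ⟨.m, 1, 0, 0, [⟨.c, 1, 1, []⟩, ⟨.x, 2, 0, []⟩]⟩
(.node 288242470779618641 61 ⟨.m, 1, 0, 0, [⟨.c, 1, 1, []⟩, ⟨.c, 2, 0, []⟩]⟩
.nil
.nil)
.nil)
(.node 288242470779622416 300 ⟨.c, 1, 0, 0, [⟨.m, 1, 0, []⟩, ⟨.m, 2, 0, []⟩]⟩
.nil
.nil)))))

/-- a part of the search tree -/
def bt11001 : BT :=
  (.node 288242470779683986 166 ⟨.m, 0, 0, 0, [⟨.m, 1, 0, []⟩, ⟨.x, 1, 0, []⟩, ⟨.x, 2, 0, []⟩]⟩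
(.node 288242470779638930 340 ⟨.c, 1, 0, 1, [⟨.x, 1, 0, []⟩, ⟨.x, 2, 0, []⟩]⟩
(.node 288242470779626576 421 ⟨.x, 1, 0, 0, [⟨.c, 1, 0, []⟩, ⟨.m, 2, 0, []⟩]⟩
(.node 288242470779626512 405 ⟨.x, 1, 0, 0, [⟨.m, 1, 0, []⟩, ⟨.m, 2, 0, []⟩]⟩
(.node 288242470779622546 339 ⟨.c, 1, 0, 0, [⟨.x, 1, 0, []⟩, ⟨.x, 2, 0, []⟩]⟩
(.node 288242470779622544 317 ⟨.c, 1, 0, 0, [⟨.x, 1, 0, []⟩, ⟨.m, 2, 0, []⟩]⟩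
.nil
.nil)
.nil)
(.node 288242470779626517 411 ⟨.x, 1, 0, 0, [⟨.m, 1, 0, []⟩, ⟨.c, 2, 1, []⟩]⟩
(.node 288242470779626513 409 ⟨.x, 1, 0, 0, [⟨.m, 1, 0, []⟩, ⟨.c, 2, 0, []⟩]⟩
.nil
.nil)
.nil))
(.node 288242470779638802 307 ⟨.c, 1, 0, 1, [⟨.m, 1, 0, []⟩, ⟨.x, 2, 0, []⟩]⟩
(.node 288242470779638800 301 ⟨.c, 1, 0, 1, [⟨.m, 1, 0, []⟩, ⟨.m, 2, 0, []⟩]⟩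
(.node 288242470779626832 424 ⟨.x, 1, 0, 0, [⟨.c, 1, 1, []⟩, ⟨.m, 2, 0, []⟩]⟩
.nil
.nil)
.nil)
(.node 288242470779638928 318 ⟨.c, 1, 0, 1, [⟨.x, 1, 0, []⟩, ⟨.m, 2, 0, []⟩]⟩
.nil
.nil)))
(.node 288242470779683921 131 ⟨.m, 0, 0, 0, [⟨.m, 1, 0, []⟩, ⟨.c, 1, 0, []⟩, ⟨.c, 2, 0, []⟩]⟩
(.node 288242470779683858 109 ⟨.m, 0, 0, 0, [⟨.m, 1, 0, []⟩, ⟨.m, 1, 0, []⟩, ⟨.x, 2, 0, []⟩]⟩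
(.node 288242470779683857 104 ⟨.m, 0, 0, 0, [⟨.m, 1, 0, []⟩, ⟨.m, 1, 0, []⟩, ⟨.c, 2, 0, []⟩]⟩
(.node 288242470779683856 101 ⟨.m, 0, 0, 0, [⟨.m, 1, 0, []⟩, ⟨.m, 1, 0, []⟩, ⟨.m, 2, 0, []⟩]⟩
.nil
.nil)
.nil)
(.node 288242470779683920 113 ⟨.m, 0, 0, 0, [⟨.m, 1, 0, []⟩, ⟨.c, 1, 0, []⟩, ⟨.m, 2, 0, []⟩]⟩
(.node 288242470779683861 106 ⟨.m, 0, 0, 0, [⟨.m, 1, 0, []⟩, ⟨.m, 1, 0, []⟩, ⟨.c, 2, 1, []⟩]⟩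
.nil
.nil)
.nil))
(.node 288242470779683984 118 ⟨.m, 0, 0, 0, [⟨.m, 1, 0, []⟩, ⟨.x, 1, 0, []⟩, ⟨.m, 2, 0, []⟩]⟩
(.node 288242470779683925 133 ⟨.m, 0, 0, 0, [⟨.m, 1, 0, []⟩, ⟨.c, 1, 0, []⟩, ⟨.c, 2, 1, []⟩]⟩
(.node 288242470779683922 136 ⟨.m, 0, 0, 0, [⟨.m, 1, 0, []⟩, ⟨.c, 1, 0, []⟩, ⟨.x, 2, 0, []⟩]⟩
.nil
.nil)
.nil)
(.node 288242470779683985 144 ⟨.m, 0, 0, 0, [⟨.m, 1, 0, []⟩, ⟨.x, 1, 0, []⟩, ⟨.c, 2, 0, []⟩]⟩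
.nil
.nil))))
(.node 288242470779688017 200 ⟨.m, 0, 0, 0, [⟨.c, 1, 0, []⟩, ⟨.c, 1, 0, []⟩, ⟨.c, 2, 0, []⟩]⟩
(.node 288242470779687952 113 ⟨.m, 0, 0, 0, [⟨.c, 1, 0, []⟩, ⟨.m, 1, 0, []⟩, ⟨.m, 2, 0, []⟩]⟩
(.node 288242470779684177 140 ⟨.m, 0, 0, 0, [⟨.m, 1, 0, []⟩, ⟨.c, 1, 1, []⟩, ⟨.c, 2, 0, []⟩]⟩
(.node 288242470779684176 115 ⟨.m, 0, 0, 0, [⟨.m, 1, 0, []⟩, ⟨.c, 1, 1, []⟩, ⟨.m, 2, 0, []⟩]⟩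
(.node 288242470779683989 157 ⟨.m, 0, 0, 0, [⟨.m, 1, 0, []⟩, ⟨.x, 1, 0, []⟩, ⟨.c, 2, 1, []⟩]⟩
.nil
.nil)
.nil)
(.node 288242470779684181 149 ⟨.m, 0, 0, 0, [⟨.m, 1, 0, []⟩, ⟨.c, 1, 1, []⟩, ⟨.c, 2, 1, []⟩]⟩
(.node 288242470779684178 152 ⟨.m, 0, 0, 0, [⟨.m, 1, 0, []⟩, ⟨.c, 1, 1, []⟩, ⟨.x, 2, 0, []⟩]⟩
.nil
.nil)
.nil))
(.node 288242470779687957 133 ⟨.m, 0, 0, 0, [⟨.c, 1, 0, []⟩, ⟨.m, 1, 0, []⟩, ⟨.c, 2, 1, []⟩]⟩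
(.node 288242470779687954 136 ⟨.m, 0, 0, 0, [⟨.c, 1, 0, []⟩, ⟨.m, 1, 0, []⟩, ⟨.x, 2, 0, []⟩]⟩
(.node 288242470779687953 131 ⟨.m, 0, 0, 0, [⟨.c, 1, 0, []⟩, ⟨.m, 1, 0, []⟩, ⟨.c, 2, 0, []⟩]⟩
.nil
.nil)
.nil)
(.node 288242470779688016 138 ⟨.m, 0, 0, 0, [⟨.c, 2, 0, []⟩, ⟨.c, 2, 0, []⟩, ⟨.m, 1, 0, []⟩]⟩
.nil
.nil)))
(.node 288242470779688082 232 ⟨.m, 0, 0, 0, [⟨.c, 1, 0, []⟩, ⟨.x, 1, 0, []⟩, ⟨.x, 2, 0, []⟩]⟩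
(.node 288242470779688080 145 ⟨.m, 0, 0, 0, [⟨.c, 2, 0, []⟩, ⟨.x, 2, 0, []⟩, ⟨.m, 1, 0, []⟩]⟩
(.node 288242470779688021 202 ⟨.m, 0, 0, 0, [⟨.c, 1, 0, []⟩, ⟨.c, 1, 0, []⟩, ⟨.c, 2, 1, []⟩]⟩
(.node 288242470779688018 205 ⟨.m, 0, 0, 0, [⟨.c, 1, 0, []⟩, ⟨.c, 1, 0, []⟩, ⟨.x, 2, 0, []⟩]⟩
.nil
.nil)
.nil)
(.node 288242470779688081 211 ⟨.m, 0, 0, 0, [⟨.c, 1, 0, []⟩, ⟨.x, 1, 0, []⟩, ⟨.c, 2, 0, []⟩]⟩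
.nil
.nil))
(.node 288242470779688273 208 ⟨.m, 0, 0, 0, [⟨.c, 1, 0, []⟩, ⟨.c, 1, 1, []⟩, ⟨.c, 2, 0, []⟩]⟩
(.node 288242470779688272 141 ⟨.m, 0, 0, 0, [⟨.c, 2, 0, []⟩, ⟨.c, 2, 1, []⟩, ⟨.m, 1, 0, []⟩]⟩
(.node 288242470779688085 223 ⟨.m, 0, 0, 0, [⟨.c, 1, 0, []⟩, ⟨.x, 1, 0, []⟩, ⟨.c, 2, 1, []⟩]⟩
.nil
.nil)
.nil)
(.node 288242470779688274 218 ⟨.m, 0, 0, 0, [⟨.c, 1, 0, []⟩, ⟨.c, 1, 1, []⟩, ⟨.x, 2, 0, []⟩]⟩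
.nil
.nil)))))

/-- a part of the search tree -/
def bt11010 : BT :=
  (.node 288242470779704401 208 ⟨.m, 0, 0, 0, [⟨.c, 1, 1, []⟩, ⟨.c, 1, 0, []⟩, ⟨.c, 2, 0, []⟩]⟩
(.node 288242470779692178 268 ⟨.m, 0, 0, 0, [⟨.x, 1, 0, []⟩, ⟨.x, 1, 0, []⟩, ⟨.x, 2, 0, []⟩]⟩
(.node 288242470779692113 211 ⟨.m, 0, 0, 0, [⟨.x, 1, 0, []⟩, ⟨.c, 1, 0, []⟩, ⟨.c, 2, 0, []⟩]⟩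
(.node 288242470779692050 166 ⟨.m, 0, 0, 0, [⟨.x, 1, 0, []⟩, ⟨.m, 1, 0, []⟩, ⟨.x, 2, 0, []⟩]⟩
(.node 288242470779692049 144 ⟨.m, 0, 0, 0, [⟨.x, 1, 0, []⟩, ⟨.m, 1, 0, []⟩, ⟨.c, 2, 0, []⟩]⟩
(.node 288242470779692048 118 ⟨.m, 0, 0, 0, [⟨.x, 1, 0, []⟩, ⟨.m, 1, 0, []⟩, ⟨.m, 2, 0, []⟩]⟩
.nil
.nil)
.nil)
(.node 288242470779692112 145 ⟨.m, 0, 0, 0, [⟨.x, 2, 0, []⟩, ⟨.c, 2, 0, []⟩, ⟨.m, 1, 0, []⟩]⟩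
(.node 288242470779692053 157 ⟨.m, 0, 0, 0, [⟨.x, 1, 0, []⟩, ⟨.m, 1, 0, []⟩, ⟨.c, 2, 1, []⟩]⟩
.nil
.nil)
.nil))
(.node 288242470779692176 168 ⟨.m, 0, 0, 0, [⟨.x, 2, 0, []⟩, ⟨.x, 2, 0, []⟩, ⟨.m, 1, 0, []⟩]⟩
(.node 288242470779692117 223 ⟨.m, 0, 0, 0, [⟨.x, 1, 0, []⟩, ⟨.c, 1, 0, []⟩, ⟨.c, 2, 1, []⟩]⟩
(.node 288242470779692114 232 ⟨.m, 0, 0, 0, [⟨.x, 1, 0, []⟩, ⟨.c, 1, 0, []⟩, ⟨.x, 2, 0, []⟩]⟩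
.nil
.nil)
.nil)
(.node 288242470779692177 234 ⟨.m, 0, 0, 0, [⟨.x, 2, 0, []⟩, ⟨.x, 2, 0, []⟩, ⟨.c, 1, 0, []⟩]⟩
.nil
.nil)))
(.node 288242470779704336 115 ⟨.m, 0, 0, 0, [⟨.c, 1, 1, []⟩, ⟨.m, 1, 0, []⟩, ⟨.m, 2, 0, []⟩]⟩
(.node 288242470779692369 224 ⟨.m, 0, 0, 0, [⟨.x, 2, 0, []⟩, ⟨.c, 2, 1, []⟩, ⟨.c, 1, 0, []⟩]⟩
(.node 288242470779692368 158 ⟨.m, 0, 0, 0, [⟨.x, 2, 0, []⟩, ⟨.c, 2, 1, []⟩, ⟨.m, 1, 0, []⟩]⟩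
(.node 288242470779692181 256 ⟨.m, 0, 0, 0, [⟨.x, 2, 0, []⟩, ⟨.x, 2, 0, []⟩, ⟨.c, 1, 1, []⟩]⟩
.nil
.nil)
.nil)
(.node 288242470779692373 246 ⟨.m, 0, 0, 0, [⟨.x, 1, 0, []⟩, ⟨.c, 1, 1, []⟩, ⟨.c, 2, 1, []⟩]⟩
(.node 288242470779692370 254 ⟨.m, 0, 0, 0, [⟨.x, 1, 0, []⟩, ⟨.c, 1, 1, []⟩, ⟨.x, 2, 0, []⟩]⟩
.nil
.nil)
.nil))
(.node 288242470779704341 149 ⟨.m, 0, 0, 0, [⟨.c, 1, 1, []⟩, ⟨.m, 1, 0, []⟩, ⟨.c, 2, 1, []⟩]⟩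
(.node 288242470779704338 152 ⟨.m, 0, 0, 0, [⟨.c, 1, 1, []⟩, ⟨.m, 1, 0, []⟩, ⟨.x, 2, 0, []⟩]⟩
(.node 288242470779704337 140 ⟨.m, 0, 0, 0, [⟨.c, 1, 1, []⟩, ⟨.m, 1, 0, []⟩, ⟨.c, 2, 0, []⟩]⟩
.nil
.nil)
.nil)
(.node 288242470779704400 141 ⟨.m, 0, 0, 0, [⟨.c, 2, 1, []⟩, ⟨.c, 2, 0, []⟩, ⟨.m, 1, 0, []⟩]⟩
.nil
.nil))))
(.node 288242470779946000 353 ⟨.c, 0, 0, 0, [⟨.m, 1, 0, []⟩, ⟨.m, 1, 0, []⟩, ⟨.m, 2, 0, []⟩]⟩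
(.node 288242470779704469 246 ⟨.m, 0, 0, 0, [⟨.c, 1, 1, []⟩, ⟨.x, 1, 0, []⟩, ⟨.c, 2, 1, []⟩]⟩
(.node 288242470779704464 158 ⟨.m, 0, 0, 0, [⟨.c, 2, 1, []⟩, ⟨.x, 2, 0, []⟩, ⟨.m, 1, 0, []⟩]⟩
(.node 288242470779704405 215 ⟨.m, 0, 0, 0, [⟨.c, 1, 1, []⟩, ⟨.c, 1, 0, []⟩, ⟨.c, 2, 1, []⟩]⟩
(.node 288242470779704402 218 ⟨.m, 0, 0, 0, [⟨.c, 1, 1, []⟩, ⟨.c, 1, 0, []⟩, ⟨.x, 2, 0, []⟩]⟩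
.nil
.nil)
.nil)
(.node 288242470779704466 254 ⟨.m, 0, 0, 0, [⟨.c, 1, 1, []⟩, ⟨.x, 1, 0, []⟩, ⟨.x, 2, 0, []⟩]⟩
(.node 288242470779704465 224 ⟨.m, 0, 0, 0, [⟨.c, 2, 1, []⟩, ⟨.x, 2, 0, []⟩, ⟨.c, 1, 0, []⟩]⟩
.nil
.nil)
.nil))
(.node 288242470779704658 242 ⟨.m, 0, 0, 0, [⟨.c, 1, 1, []⟩, ⟨.c, 1, 1, []⟩, ⟨.x, 2, 0, []⟩]⟩
(.node 288242470779704657 220 ⟨.m, 0, 0, 0, [⟨.c, 2, 1, []⟩, ⟨.c, 2, 1, []⟩, ⟨.c, 1, 0, []⟩]⟩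
(.node 288242470779704656 154 ⟨.m, 0, 0, 0, [⟨.c, 2, 1, []⟩, ⟨.c, 2, 1, []⟩, ⟨.m, 1, 0, []⟩]⟩
.nil
.nil)
.nil)
(.node 288242470779704661 239 ⟨.m, 0, 0, 0, [⟨.c, 1, 1, []⟩, ⟨.c, 1, 1, []⟩, ⟨.c, 2, 1, []⟩]⟩
.nil
.nil)))
(.node 288242470779954194 365 ⟨.c, 0, 0, 0, [⟨.x, 1, 0, []⟩, ⟨.m, 1, 0, []⟩, ⟨.x, 2, 0, []⟩]⟩
(.node 288242470779946130 365 ⟨.c, 0, 0, 0, [⟨.m, 1, 0, []⟩, ⟨.x, 1, 0, []⟩, ⟨.x, 2, 0, []⟩]⟩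
(.node 288242470779946128 359 ⟨.c, 0, 0, 0, [⟨.m, 1, 0, []⟩, ⟨.x, 1, 0, []⟩, ⟨.m, 2, 0, []⟩]⟩
(.node 288242470779946002 355 ⟨.c, 0, 0, 0, [⟨.m, 1, 0, []⟩, ⟨.m, 1, 0, []⟩, ⟨.x, 2, 0, []⟩]⟩
.nil
.nil)
.nil)
(.node 288242470779954192 359 ⟨.c, 0, 0, 0, [⟨.x, 1, 0, []⟩, ⟨.m, 1, 0, []⟩, ⟨.m, 2, 0, []⟩]⟩
.nil
.nil))
(.node 288242470780208144 436 ⟨.x, 0, 0, 0, [⟨.m, 1, 0, []⟩, ⟨.m, 1, 0, []⟩, ⟨.m, 2, 0, []⟩]⟩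
(.node 288242470779954322 376 ⟨.c, 0, 0, 0, [⟨.x, 1, 0, []⟩, ⟨.x, 1, 0, []⟩, ⟨.x, 2, 0, []⟩]⟩
(.node 288242470779954320 367 ⟨.c, 0, 0, 0, [⟨.x, 2, 0, []⟩, ⟨.x, 2, 0, []⟩, ⟨.m, 1, 0, []⟩]⟩
.nil
.nil)
.nil)
(.node 288242470780208145 439 ⟨.x, 0, 0, 0, [⟨.m, 1, 0, []⟩, ⟨.m, 1, 0, []⟩, ⟨.c, 2, 0, []⟩]⟩
.nil
.nil)))))

/-- a part of the search tree -/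
def bt11011 : BT :=
  (.node 2305847407260206162 55 ⟨.m, 1, 0, 0, [⟨.c, 1, 0, []⟩, ⟨.x, 1, 0, []⟩]⟩
(.node 292744970895381664 494 ⟨.c, 3, 0, 1, [⟨.x, 1, 0, [⟨.m, 4, 0⟩]⟩]⟩
(.node 292737274313970834 293 ⟨.c, 3, 0, 0, [⟨.x, 1, 0, []⟩, ⟨.x, 0, 0, []⟩]⟩
(.node 288242470780212240 445 ⟨.x, 0, 0, 0, [⟨.c, 1, 0, []⟩, ⟨.m, 1, 0, []⟩, ⟨.m, 2, 0, []⟩]⟩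
(.node 288242470780208464 447 ⟨.x, 0, 0, 0, [⟨.m, 1, 0, []⟩, ⟨.c, 1, 1, []⟩, ⟨.m, 2, 0, []⟩]⟩
(.node 288242470780208208 445 ⟨.x, 0, 0, 0, [⟨.m, 1, 0, []⟩, ⟨.c, 1, 0, []⟩, ⟨.m, 2, 0, []⟩]⟩
.nil
.nil)
.nil)
(.node 292737274313970832 287 ⟨.c, 3, 0, 0, [⟨.x, 1, 0, []⟩, ⟨.m, 0, 0, []⟩]⟩
(.node 288242470780228624 447 ⟨.x, 0, 0, 0, [⟨.c, 1, 1, []⟩, ⟨.m, 1, 0, []⟩, ⟨.m, 2, 0, []⟩]⟩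
.nil
.nil)
.nil))
(.node 292744970895365266 292 ⟨.c, 3, 0, 0, [⟨.x, 1, 0, []⟩, ⟨.x, 4, 0, []⟩]⟩
(.node 292737274313987232 495 ⟨.c, 3, 0, 1, [⟨.x, 1, 0, [⟨.m, 0, 0⟩]⟩]⟩
(.node 292737274313970848 478 ⟨.c, 3, 0, 0, [⟨.x, 1, 0, [⟨.m, 0, 0⟩]⟩]⟩
.nil
.nil)
.nil)
(.node 292744970895365280 477 ⟨.c, 3, 0, 0, [⟨.x, 1, 0, [⟨.m, 4, 0⟩]⟩]⟩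
.nil
.nil)))
(.node 2305847407260206097 16 ⟨.m, 1, 0, 0, [⟨.m, 1, 0, []⟩, ⟨.c, 1, 0, []⟩]⟩
(.node 577025901280105618 488 ⟨.c, 3, 0, 0, [⟨.x, 7, 0, []⟩, ⟨.x, 4, 0, []⟩]⟩
(.node 297247471011108000 500 ⟨.c, 7, 0, 0, [⟨.x, 1, 0, [⟨.m, 8, 0⟩]⟩]⟩
(.node 297239774429713568 501 ⟨.c, 7, 0, 0, [⟨.x, 1, 0, [⟨.m, 0, 0⟩]⟩]⟩
.nil
.nil)
.nil)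
(.node 2305847407260206096 13 ⟨.m, 1, 0, 0, [⟨.m, 1, 0, []⟩, ⟨.m, 1, 0, []⟩]⟩
(.node 612491748345648288 502 ⟨.c, 7, 0, 0, [⟨.x, 3, 0, [⟨.m, 4, 0⟩]⟩]⟩
.nil
.nil)
.nil))
(.node 2305847407260206160 16 ⟨.m, 1, 0, 0, [⟨.c, 1, 0, []⟩, ⟨.m, 1, 0, []⟩]⟩
(.node 2305847407260206101 18 ⟨.m, 1, 0, 0, [⟨.m, 1, 0, []⟩, ⟨.c, 1, 1, []⟩]⟩
(.node 2305847407260206098 21 ⟨.m, 1, 0, 0, [⟨.m, 1, 0, []⟩, ⟨.x, 1, 0, []⟩]⟩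
.nil
.nil)
.nil)
(.node 2305847407260206161 50 ⟨.m, 1, 0, 0, [⟨.c, 1, 0, []⟩, ⟨.c, 1, 0, []⟩]⟩
.nil
.nil))))
(.node 2305847407260210194 304 ⟨.c, 1, 0, 0, [⟨.m, 1, 0, []⟩, ⟨.x, 1, 0, []⟩]⟩
(.node 2305847407260206416 18 ⟨.m, 1, 0, 0, [⟨.c, 1, 1, []⟩, ⟨.m, 1, 0, []⟩]⟩
(.node 2305847407260206225 55 ⟨.m, 1, 0, 0, [⟨.x, 1, 0, []⟩, ⟨.c, 1, 0, []⟩]⟩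
(.node 2305847407260206224 21 ⟨.m, 1, 0, 0, [⟨.x, 1, 0, []⟩, ⟨.m, 1, 0, []⟩]⟩
(.node 2305847407260206165 52 ⟨.m, 1, 0, 0, [⟨.c, 1, 0, []⟩, ⟨.c, 1, 1, []⟩]⟩
.nil
.nil)
.nil)
(.node 2305847407260206229 73 ⟨.m, 1, 0, 0, [⟨.x, 1, 0, []⟩, ⟨.c, 1, 1, []⟩]⟩
(.node 2305847407260206226 90 ⟨.m, 1, 0, 0, [⟨.x, 1, 0, []⟩, ⟨.x, 1, 0, []⟩]⟩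
.nil
.nil)
.nil))
(.node 2305847407260206421 70 ⟨.m, 1, 0, 0, [⟨.c, 1, 1, []⟩, ⟨.c, 1, 1, []⟩]⟩
(.node 2305847407260206418 73 ⟨.m, 1, 0, 0, [⟨.c, 1, 1, []⟩, ⟨.x, 1, 0, []⟩]⟩
(.node 2305847407260206417 52 ⟨.m, 1, 0, 0, [⟨.c, 1, 1, []⟩, ⟨.c, 1, 0, []⟩]⟩
.nil
.nil)
.nil)
(.node 2305847407260210192 298 ⟨.c, 1, 0, 0, [⟨.m, 1, 0, []⟩, ⟨.m, 1, 0, []⟩]⟩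
.nil
.nil)))
(.node 2305847407260214293 410 ⟨.x, 1, 0, 0, [⟨.m, 1, 0, []⟩, ⟨.c, 1, 1, []⟩]⟩
(.node 2305847407260214288 404 ⟨.x, 1, 0, 0, [⟨.m, 1, 0, []⟩, ⟨.m, 1, 0, []⟩]⟩
(.node 2305847407260210322 334 ⟨.c, 1, 0, 0, [⟨.x, 1, 0, []⟩, ⟨.x, 1, 0, []⟩]⟩
(.node 2305847407260210320 304 ⟨.c, 1, 0, 0, [⟨.x, 1, 0, []⟩, ⟨.m, 1, 0, []⟩]⟩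
.nil
.nil)
.nil)
(.node 2305847407260214289 408 ⟨.x, 1, 0, 0, [⟨.m, 1, 0, []⟩, ⟨.c, 1, 0, []⟩]⟩
.nil
.nil))
(.node 2305847407260226576 299 ⟨.c, 1, 0, 1, [⟨.m, 1, 0, []⟩, ⟨.m, 1, 0, []⟩]⟩
(.node 2305847407260214608 410 ⟨.x, 1, 0, 0, [⟨.c, 1, 1, []⟩, ⟨.m, 1, 0, []⟩]⟩
(.node 2305847407260214352 408 ⟨.x, 1, 0, 0, [⟨.c, 1, 0, []⟩, ⟨.m, 1, 0, []⟩]⟩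
.nil
.nil)
.nil)
(.node 2305847407260226578 305 ⟨.c, 1, 0, 1, [⟨.m, 1, 0, []⟩, ⟨.x, 1, 0, []⟩]⟩
.nil
.nil)))))

/-- a part of the search tree -/
def bt11100 : BT :=
  (.node 2305847407260275792 130 ⟨.m, 0, 0, 0, [⟨.c, 1, 0, []⟩, ⟨.c, 1, 0, []⟩, ⟨.m, 1, 0, []⟩]⟩
(.node 2305847407260271761 135 ⟨.m, 0, 0, 0, [⟨.m, 1, 0, []⟩, ⟨.x, 1, 0, []⟩, ⟨.c, 1, 0, []⟩]⟩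
(.node 2305847407260271696 103 ⟨.m, 0, 0, 0, [⟨.m, 1, 0, []⟩, ⟨.c, 1, 0, []⟩, ⟨.m, 1, 0, []⟩]⟩
(.node 2305847407260271633 103 ⟨.m, 0, 0, 0, [⟨.m, 1, 0, []⟩, ⟨.m, 1, 0, []⟩, ⟨.c, 1, 0, []⟩]⟩
(.node 2305847407260271632 100 ⟨.m, 0, 0, 0, [⟨.m, 1, 0, []⟩, ⟨.m, 1, 0, []⟩, ⟨.m, 1, 0, []⟩]⟩
(.node 2305847407260226706 335 ⟨.c, 1, 0, 1, [⟨.x, 1, 0, []⟩, ⟨.x, 1, 0, []⟩]⟩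
.nil
.nil)
.nil)
(.node 2305847407260271637 105 ⟨.m, 0, 0, 0, [⟨.m, 1, 0, []⟩, ⟨.m, 1, 0, []⟩, ⟨.c, 1, 1, []⟩]⟩
(.node 2305847407260271634 108 ⟨.m, 0, 0, 0, [⟨.m, 1, 0, []⟩, ⟨.m, 1, 0, []⟩, ⟨.x, 1, 0, []⟩]⟩
.nil
.nil)
.nil))
(.node 2305847407260271701 132 ⟨.m, 0, 0, 0, [⟨.m, 1, 0, []⟩, ⟨.c, 1, 0, []⟩, ⟨.c, 1, 1, []⟩]⟩
(.node 2305847407260271698 135 ⟨.m, 0, 0, 0, [⟨.m, 1, 0, []⟩, ⟨.c, 1, 0, []⟩, ⟨.x, 1, 0, []⟩]⟩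
(.node 2305847407260271697 130 ⟨.m, 0, 0, 0, [⟨.m, 1, 0, []⟩, ⟨.c, 1, 0, []⟩, ⟨.c, 1, 0, []⟩]⟩
.nil
.nil)
.nil)
(.node 2305847407260271760 108 ⟨.m, 0, 0, 0, [⟨.m, 1, 0, []⟩, ⟨.x, 1, 0, []⟩, ⟨.m, 1, 0, []⟩]⟩
.nil
.nil)))
(.node 2305847407260271957 148 ⟨.m, 0, 0, 0, [⟨.m, 1, 0, []⟩, ⟨.c, 1, 1, []⟩, ⟨.c, 1, 1, []⟩]⟩
(.node 2305847407260271952 105 ⟨.m, 0, 0, 0, [⟨.m, 1, 0, []⟩, ⟨.c, 1, 1, []⟩, ⟨.m, 1, 0, []⟩]⟩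
(.node 2305847407260271765 151 ⟨.m, 0, 0, 0, [⟨.m, 1, 0, []⟩, ⟨.x, 1, 0, []⟩, ⟨.c, 1, 1, []⟩]⟩
(.node 2305847407260271762 165 ⟨.m, 0, 0, 0, [⟨.m, 1, 0, []⟩, ⟨.x, 1, 0, []⟩, ⟨.x, 1, 0, []⟩]⟩
.nil
.nil)
.nil)
(.node 2305847407260271954 151 ⟨.m, 0, 0, 0, [⟨.m, 1, 0, []⟩, ⟨.c, 1, 1, []⟩, ⟨.x, 1, 0, []⟩]⟩
(.node 2305847407260271953 132 ⟨.m, 0, 0, 0, [⟨.m, 1, 0, []⟩, ⟨.c, 1, 1, []⟩, ⟨.c, 1, 0, []⟩]⟩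
.nil
.nil)
.nil))
(.node 2305847407260275730 135 ⟨.m, 0, 0, 0, [⟨.c, 1, 0, []⟩, ⟨.m, 1, 0, []⟩, ⟨.x, 1, 0, []⟩]⟩
(.node 2305847407260275729 130 ⟨.m, 0, 0, 0, [⟨.c, 1, 0, []⟩, ⟨.m, 1, 0, []⟩, ⟨.c, 1, 0, []⟩]⟩
(.node 2305847407260275728 103 ⟨.m, 0, 0, 0, [⟨.c, 1, 0, []⟩, ⟨.m, 1, 0, []⟩, ⟨.m, 1, 0, []⟩]⟩
.nil
.nil)
.nil)
(.node 2305847407260275733 132 ⟨.m, 0, 0, 0, [⟨.c, 1, 0, []⟩, ⟨.m, 1, 0, []⟩, ⟨.c, 1, 1, []⟩]⟩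
.nil
.nil))))
(.node 2305847407260276053 214 ⟨.m, 0, 0, 0, [⟨.c, 1, 0, []⟩, ⟨.c, 1, 1, []⟩, ⟨.c, 1, 1, []⟩]⟩
(.node 2305847407260275858 231 ⟨.m, 0, 0, 0, [⟨.c, 1, 0, []⟩, ⟨.x, 1, 0, []⟩, ⟨.x, 1, 0, []⟩]⟩
(.node 2305847407260275797 201 ⟨.m, 0, 0, 0, [⟨.c, 1, 0, []⟩, ⟨.c, 1, 0, []⟩, ⟨.c, 1, 1, []⟩]⟩
(.node 2305847407260275794 204 ⟨.m, 0, 0, 0, [⟨.c, 1, 0, []⟩, ⟨.c, 1, 0, []⟩, ⟨.x, 1, 0, []⟩]⟩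
(.node 2305847407260275793 199 ⟨.m, 0, 0, 0, [⟨.c, 1, 0, []⟩, ⟨.c, 1, 0, []⟩, ⟨.c, 1, 0, []⟩]⟩
.nil
.nil)
.nil)
(.node 2305847407260275857 204 ⟨.m, 0, 0, 0, [⟨.c, 1, 0, []⟩, ⟨.x, 1, 0, []⟩, ⟨.c, 1, 0, []⟩]⟩
(.node 2305847407260275856 135 ⟨.m, 0, 0, 0, [⟨.c, 1, 0, []⟩, ⟨.x, 1, 0, []⟩, ⟨.m, 1, 0, []⟩]⟩
.nil
.nil)
.nil))
(.node 2305847407260276049 201 ⟨.m, 0, 0, 0, [⟨.c, 1, 0, []⟩, ⟨.c, 1, 1, []⟩, ⟨.c, 1, 0, []⟩]⟩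
(.node 2305847407260276048 132 ⟨.m, 0, 0, 0, [⟨.c, 1, 0, []⟩, ⟨.c, 1, 1, []⟩, ⟨.m, 1, 0, []⟩]⟩
(.node 2305847407260275861 217 ⟨.m, 0, 0, 0, [⟨.c, 1, 0, []⟩, ⟨.x, 1, 0, []⟩, ⟨.c, 1, 1, []⟩]⟩
.nil
.nil)
.nil)
(.node 2305847407260276050 217 ⟨.m, 0, 0, 0, [⟨.c, 1, 0, []⟩, ⟨.c, 1, 1, []⟩, ⟨.x, 1, 0, []⟩]⟩
.nil
.nil)))
(.node 2305847407260279888 135 ⟨.m, 0, 0, 0, [⟨.x, 1, 0, []⟩, ⟨.c, 1, 0, []⟩, ⟨.m, 1, 0, []⟩]⟩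
(.node 2305847407260279826 165 ⟨.m, 0, 0, 0, [⟨.x, 1, 0, []⟩, ⟨.m, 1, 0, []⟩, ⟨.x, 1, 0, []⟩]⟩
(.node 2305847407260279825 135 ⟨.m, 0, 0, 0, [⟨.x, 1, 0, []⟩, ⟨.m, 1, 0, []⟩, ⟨.c, 1, 0, []⟩]⟩
(.node 2305847407260279824 108 ⟨.m, 0, 0, 0, [⟨.x, 1, 0, []⟩, ⟨.m, 1, 0, []⟩, ⟨.m, 1, 0, []⟩]⟩
.nil
.nil)
.nil)
(.node 2305847407260279829 151 ⟨.m, 0, 0, 0, [⟨.x, 1, 0, []⟩, ⟨.m, 1, 0, []⟩, ⟨.c, 1, 1, []⟩]⟩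
.nil
.nil))
(.node 2305847407260279893 217 ⟨.m, 0, 0, 0, [⟨.x, 1, 0, []⟩, ⟨.c, 1, 0, []⟩, ⟨.c, 1, 1, []⟩]⟩
(.node 2305847407260279890 231 ⟨.m, 0, 0, 0, [⟨.x, 1, 0, []⟩, ⟨.c, 1, 0, []⟩, ⟨.x, 1, 0, []⟩]⟩
(.node 2305847407260279889 204 ⟨.m, 0, 0, 0, [⟨.x, 1, 0, []⟩, ⟨.c, 1, 0, []⟩, ⟨.c, 1, 0, []⟩]⟩
.nil
.nil)
.nil)
(.node 2305847407260279952 165 ⟨.m, 0, 0, 0, [⟨.x, 1, 0, []⟩, ⟨.x, 1, 0, []⟩, ⟨.m, 1, 0, []⟩]⟩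
.nil
.nil)))))

/-- a part of the search tree -/
def bt11101 : BT :=
  (.node 2305847407260292437 238 ⟨.m, 0, 0, 0, [⟨.c, 1, 1, []⟩, ⟨.c, 1, 1, []⟩, ⟨.c, 1, 1, []⟩]⟩
(.node 2305847407260292176 132 ⟨.m, 0, 0, 0, [⟨.c, 1, 1, []⟩, ⟨.c, 1, 0, []⟩, ⟨.m, 1, 0, []⟩]⟩
(.node 2305847407260280149 241 ⟨.m, 0, 0, 0, [⟨.x, 1, 0, []⟩, ⟨.c, 1, 1, []⟩, ⟨.c, 1, 1, []⟩]⟩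
(.node 2305847407260280144 151 ⟨.m, 0, 0, 0, [⟨.x, 1, 0, []⟩, ⟨.c, 1, 1, []⟩, ⟨.m, 1, 0, []⟩]⟩
(.node 2305847407260279957 253 ⟨.m, 0, 0, 0, [⟨.x, 1, 0, []⟩, ⟨.x, 1, 0, []⟩, ⟨.c, 1, 1, []⟩]⟩
(.node 2305847407260279954 267 ⟨.m, 0, 0, 0, [⟨.x, 1, 0, []⟩, ⟨.x, 1, 0, []⟩, ⟨.x, 1, 0, []⟩]⟩
.nil
.nil)
.nil)
(.node 2305847407260280146 253 ⟨.m, 0, 0, 0, [⟨.x, 1, 0, []⟩, ⟨.c, 1, 1, []⟩, ⟨.x, 1, 0, []⟩]⟩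
(.node 2305847407260280145 217 ⟨.m, 0, 0, 0, [⟨.x, 1, 0, []⟩, ⟨.c, 1, 1, []⟩, ⟨.c, 1, 0, []⟩]⟩
.nil
.nil)
.nil))
(.node 2305847407260292114 151 ⟨.m, 0, 0, 0, [⟨.c, 1, 1, []⟩, ⟨.m, 1, 0, []⟩, ⟨.x, 1, 0, []⟩]⟩
(.node 2305847407260292113 132 ⟨.m, 0, 0, 0, [⟨.c, 1, 1, []⟩, ⟨.m, 1, 0, []⟩, ⟨.c, 1, 0, []⟩]⟩
(.node 2305847407260292112 105 ⟨.m, 0, 0, 0, [⟨.c, 1, 1, []⟩, ⟨.m, 1, 0, []⟩, ⟨.m, 1, 0, []⟩]⟩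
.nil
.nil)
.nil)
(.node 2305847407260292117 148 ⟨.m, 0, 0, 0, [⟨.c, 1, 1, []⟩, ⟨.m, 1, 0, []⟩, ⟨.c, 1, 1, []⟩]⟩
.nil
.nil)))
(.node 2305847407260292242 253 ⟨.m, 0, 0, 0, [⟨.c, 1, 1, []⟩, ⟨.x, 1, 0, []⟩, ⟨.x, 1, 0, []⟩]⟩
(.node 2305847407260292181 214 ⟨.m, 0, 0, 0, [⟨.c, 1, 1, []⟩, ⟨.c, 1, 0, []⟩, ⟨.c, 1, 1, []⟩]⟩
(.node 2305847407260292178 217 ⟨.m, 0, 0, 0, [⟨.c, 1, 1, []⟩, ⟨.c, 1, 0, []⟩, ⟨.x, 1, 0, []⟩]⟩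
(.node 2305847407260292177 201 ⟨.m, 0, 0, 0, [⟨.c, 1, 1, []⟩, ⟨.c, 1, 0, []⟩, ⟨.c, 1, 0, []⟩]⟩
.nil
.nil)
.nil)
(.node 2305847407260292241 217 ⟨.m, 0, 0, 0, [⟨.c, 1, 1, []⟩, ⟨.x, 1, 0, []⟩, ⟨.c, 1, 0, []⟩]⟩
(.node 2305847407260292240 151 ⟨.m, 0, 0, 0, [⟨.c, 1, 1, []⟩, ⟨.x, 1, 0, []⟩, ⟨.m, 1, 0, []⟩]⟩
.nil
.nil)
.nil))
(.node 2305847407260292433 214 ⟨.m, 0, 0, 0, [⟨.c, 1, 1, []⟩, ⟨.c, 1, 1, []⟩, ⟨.c, 1, 0, []⟩]⟩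
(.node 2305847407260292432 148 ⟨.m, 0, 0, 0, [⟨.c, 1, 1, []⟩, ⟨.c, 1, 1, []⟩, ⟨.m, 1, 0, []⟩]⟩
(.node 2305847407260292245 241 ⟨.m, 0, 0, 0, [⟨.c, 1, 1, []⟩, ⟨.x, 1, 0, []⟩, ⟨.c, 1, 1, []⟩]⟩
.nil
.nil)
.nil)
(.node 2305847407260292434 241 ⟨.m, 0, 0, 0, [⟨.c, 1, 1, []⟩, ⟨.c, 1, 1, []⟩, ⟨.x, 1, 0, []⟩]⟩
.nil
.nil))))
(.node 2305855103841621138 470 ⟨.c, 1, 0, 1, [⟨.x, 1, 0, []⟩, ⟨.x, 3, 0, []⟩]⟩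
(.node 2305847407260796240 440 ⟨.x, 0, 0, 0, [⟨.m, 1, 0, []⟩, ⟨.c, 1, 1, []⟩, ⟨.m, 1, 0, []⟩]⟩
(.node 2305847407260795921 438 ⟨.x, 0, 0, 0, [⟨.m, 1, 0, []⟩, ⟨.m, 1, 0, []⟩, ⟨.c, 1, 0, []⟩]⟩
(.node 2305847407260795920 435 ⟨.x, 0, 0, 0, [⟨.m, 1, 0, []⟩, ⟨.m, 1, 0, []⟩, ⟨.m, 1, 0, []⟩]⟩
(.node 2305847407260533776 352 ⟨.c, 0, 0, 0, [⟨.m, 1, 0, []⟩, ⟨.m, 1, 0, []⟩, ⟨.m, 1, 0, []⟩]⟩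
.nil
.nil)
.nil)
(.node 2305847407260795984 438 ⟨.x, 0, 0, 0, [⟨.m, 1, 0, []⟩, ⟨.c, 1, 0, []⟩, ⟨.m, 1, 0, []⟩]⟩
(.node 2305847407260795925 440 ⟨.x, 0, 0, 0, [⟨.m, 1, 0, []⟩, ⟨.m, 1, 0, []⟩, ⟨.c, 1, 1, []⟩]⟩
.nil
.nil)
.nil))
(.node 2305855103841604754 460 ⟨.c, 1, 0, 0, [⟨.x, 1, 0, []⟩, ⟨.x, 3, 0, []⟩]⟩
(.node 2305847407260816400 440 ⟨.x, 0, 0, 0, [⟨.c, 1, 1, []⟩, ⟨.m, 1, 0, []⟩, ⟨.m, 1, 0, []⟩]⟩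
(.node 2305847407260800016 438 ⟨.x, 0, 0, 0, [⟨.c, 1, 0, []⟩, ⟨.m, 1, 0, []⟩, ⟨.m, 1, 0, []⟩]⟩
.nil
.nil)
.nil)
(.node 2305855103841604758 461 ⟨.c, 1, 0, 0, [⟨.x, 1, 0, []⟩, ⟨.x, 3, 1, []⟩]⟩
.nil
.nil)))
(.node 2305916676492776850 471 ⟨.c, 1, 0, 1, [⟨.x, 3, 1, []⟩, ⟨.x, 1, 0, []⟩]⟩
(.node 2305916676492760466 461 ⟨.c, 1, 0, 0, [⟨.x, 3, 1, []⟩, ⟨.x, 1, 0, []⟩]⟩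
(.node 2305916676492760210 460 ⟨.c, 1, 0, 0, [⟨.x, 3, 0, []⟩, ⟨.x, 1, 0, []⟩]⟩
(.node 2305855103841621142 471 ⟨.c, 1, 0, 1, [⟨.x, 1, 0, []⟩, ⟨.x, 3, 1, []⟩]⟩
.nil
.nil)
.nil)
(.node 2305916676492776594 470 ⟨.c, 1, 0, 1, [⟨.x, 3, 0, []⟩, ⟨.x, 1, 0, []⟩]⟩
.nil
.nil))
(.node 2310349907375969440 493 ⟨.c, 3, 0, 1, [⟨.x, 1, 0, [⟨.m, 1, 0⟩]⟩]⟩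
(.node 2310349907375953056 476 ⟨.c, 3, 0, 0, [⟨.x, 1, 0, [⟨.m, 1, 0⟩]⟩]⟩
(.node 2310349907375953042 291 ⟨.c, 3, 0, 0, [⟨.x, 1, 0, []⟩, ⟨.x, 1, 0, []⟩]⟩
.nil
.nil)
.nil)
(.node 2310357603957347474 480 ⟨.c, 3, 0, 0, [⟨.x, 1, 0, []⟩, ⟨.x, 5, 0, []⟩]⟩
.nil
.nil)))))

/-- a part of the search tree -/
def bt11110 : BT :=
  (.node 18447310322198447120 416 ⟨.x, 1, 0, 0, [⟨.m, 0, 0, []⟩, ⟨.m, 2, 0, []⟩, ⟨.m, 2, 0, []⟩]⟩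
(.node 2594638534342087830 490 ⟨.c, 3, 0, 0, [⟨.x, 7, 0, []⟩, ⟨.x, 5, 1, []⟩]⟩
(.node 2342436955209340050 489 ⟨.c, 3, 0, 0, [⟨.x, 5, 0, []⟩, ⟨.x, 7, 0, []⟩]⟩
(.node 2314852407491695776 499 ⟨.c, 7, 0, 0, [⟨.x, 1, 0, [⟨.m, 1, 0⟩]⟩]⟩
(.node 2310419176608503186 481 ⟨.c, 3, 0, 0, [⟨.x, 5, 1, []⟩, ⟨.x, 1, 0, []⟩]⟩
(.node 2310419176608502930 480 ⟨.c, 3, 0, 0, [⟨.x, 5, 0, []⟩, ⟨.x, 1, 0, []⟩]⟩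
.nil
.nil)
.nil)
(.node 2341944374000096406 486 ⟨.c, 3, 0, 0, [⟨.x, 5, 0, []⟩, ⟨.x, 3, 1, []⟩]⟩
(.node 2341875104767546518 479 ⟨.c, 3, 0, 0, [⟨.x, 1, 0, []⟩, ⟨.x, 3, 1, []⟩]⟩
.nil
.nil)
.nil))
(.node 2594084380481688978 486 ⟨.c, 3, 0, 0, [⟨.x, 3, 1, []⟩, ⟨.x, 5, 0, []⟩]⟩
(.node 2594076683900294546 479 ⟨.c, 3, 0, 0, [⟨.x, 3, 1, []⟩, ⟨.x, 1, 0, []⟩]⟩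
(.node 2342436955209340306 490 ⟨.c, 3, 0, 0, [⟨.x, 5, 1, []⟩, ⟨.x, 7, 0, []⟩]⟩
.nil
.nil)
.nil)
(.node 2594638534342087826 489 ⟨.c, 3, 0, 0, [⟨.x, 7, 0, []⟩, ⟨.x, 5, 0, []⟩]⟩
.nil
.nil)))
(.node 18446748471756653584 429 ⟨.x, 1, 0, 0, [⟨.m, 0, 0, []⟩, ⟨.m, 0, 0, []⟩, ⟨.m, 0, 0, []⟩]⟩
(.node 18446748471756399634 333 ⟨.c, 1, 0, 0, [⟨.x, 0, 0, []⟩, ⟨.m, 0, 0, []⟩, ⟨.x, 0, 0, []⟩]⟩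
(.node 18446748471756391570 333 ⟨.c, 1, 0, 0, [⟨.m, 0, 0, []⟩, ⟨.x, 0, 0, []⟩, ⟨.x, 0, 0, []⟩]⟩
(.node 18446748471756391440 326 ⟨.c, 1, 0, 0, [⟨.m, 0, 0, []⟩, ⟨.m, 0, 0, []⟩, ⟨.m, 0, 0, []⟩]⟩
.nil
.nil)
.nil)
(.node 18446748471756399762 351 ⟨.c, 1, 0, 0, [⟨.x, 0, 0, []⟩, ⟨.x, 0, 0, []⟩, ⟨.x, 0, 0, []⟩]⟩
(.node 18446748471756399760 333 ⟨.c, 1, 0, 0, [⟨.x, 0, 0, []⟩, ⟨.x, 0, 0, []⟩, ⟨.m, 0, 0, []⟩]⟩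
.nil
.nil)
.nil))
(.node 18446825437570344082 346 ⟨.c, 1, 0, 0, [⟨.x, 0, 0, []⟩, ⟨.x, 2, 0, []⟩, ⟨.x, 4, 0, []⟩]⟩
(.node 18446817740989203472 420 ⟨.x, 1, 0, 0, [⟨.m, 0, 0, []⟩, ⟨.m, 2, 0, []⟩, ⟨.m, 0, 0, []⟩]⟩
(.node 18446756168338048016 420 ⟨.x, 1, 0, 0, [⟨.m, 0, 0, []⟩, ⟨.m, 0, 0, []⟩, ⟨.m, 2, 0, []⟩]⟩
.nil
.nil)
.nil)
(.node 18446825437570597904 418 ⟨.x, 1, 0, 0, [⟨.m, 0, 0, []⟩, ⟨.m, 2, 0, []⟩, ⟨.m, 4, 0, []⟩]⟩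
.nil
.nil))))
(.node 18734985444978131984 415 ⟨.x, 1, 0, 0, [⟨.m, 2, 0, []⟩, ⟨.m, 2, 0, []⟩, ⟨.m, 4, 0, []⟩]⟩
(.node 18451327937686086802 345 ⟨.c, 1, 0, 0, [⟨.x, 2, 0, []⟩, ⟨.x, 4, 0, []⟩, ⟨.x, 8, 0, []⟩]⟩
(.node 18451258668453790736 418 ⟨.x, 1, 0, 0, [⟨.m, 2, 0, []⟩, ⟨.m, 0, 0, []⟩, ⟨.m, 4, 0, []⟩]⟩
(.node 18451258668453536914 346 ⟨.c, 1, 0, 0, [⟨.x, 2, 0, []⟩, ⟨.x, 0, 0, []⟩, ⟨.x, 4, 0, []⟩]⟩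
(.node 18451250971872396304 420 ⟨.x, 1, 0, 0, [⟨.m, 2, 0, []⟩, ⟨.m, 0, 0, []⟩, ⟨.m, 0, 0, []⟩]⟩
.nil
.nil)
.nil)
(.node 18451320241104946192 418 ⟨.x, 1, 0, 0, [⟨.m, 2, 0, []⟩, ⟨.m, 4, 0, []⟩, ⟨.m, 0, 0, []⟩]⟩
(.node 18451320241104692370 346 ⟨.c, 1, 0, 0, [⟨.x, 2, 0, []⟩, ⟨.x, 4, 0, []⟩, ⟨.x, 0, 0, []⟩]⟩
.nil
.nil)
.nil))
(.node 18482845438496539664 415 ⟨.x, 1, 0, 0, [⟨.m, 2, 0, []⟩, ⟨.m, 4, 0, []⟩, ⟨.m, 2, 0, []⟩]⟩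
(.node 18482776169263989776 416 ⟨.x, 1, 0, 0, [⟨.m, 2, 0, []⟩, ⟨.m, 0, 0, []⟩, ⟨.m, 2, 0, []⟩]⟩
(.node 18451812822314189840 415 ⟨.x, 1, 0, 0, [⟨.m, 4, 0, []⟩, ⟨.m, 2, 0, []⟩, ⟨.m, 2, 0, []⟩]⟩
.nil
.nil)
.nil)
(.node 18734977748396737552 416 ⟨.x, 1, 0, 0, [⟨.m, 2, 0, []⟩, ⟨.m, 2, 0, []⟩, ⟨.m, 0, 0, []⟩]⟩
.nil
.nil)))
(.node 1180591625115458143376 327 ⟨.c, 1, 0, 0, [⟨.m, 0, 0, []⟩, ⟨.x, 1, 0, []⟩, ⟨.m, 0, 0, []⟩]⟩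
(.node 147573956987723252754 327 ⟨.c, 1, 0, 0, [⟨.m, 0, 0, []⟩, ⟨.m, 0, 0, []⟩, ⟨.x, 1, 0, []⟩]⟩
(.node 20752590381458719760 414 ⟨.x, 1, 0, 0, [⟨.m, 2, 0, []⟩, ⟨.m, 2, 0, []⟩, ⟨.m, 2, 0, []⟩]⟩
(.node 20752590381458457616 312 ⟨.c, 1, 0, 0, [⟨.m, 2, 0, []⟩, ⟨.m, 2, 0, []⟩, ⟨.m, 2, 0, []⟩]⟩
.nil
.nil)
.nil)
(.node 147578528757071807504 406 ⟨.x, 1, 0, 0, [⟨.m, 2, 0, []⟩, ⟨.m, 4, 0, []⟩, ⟨.m, 1, 0, []⟩]⟩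
.nil
.nil))
(.node 9444737472637453018258 337 ⟨.c, 1, 0, 0, [⟨.x, 2, 0, []⟩, ⟨.x, 1, 0, []⟩, ⟨.x, 1, 0, []⟩]⟩
(.node 9444732970137337275538 338 ⟨.c, 1, 0, 0, [⟨.x, 0, 0, []⟩, ⟨.x, 1, 0, []⟩, ⟨.x, 1, 0, []⟩]⟩
(.node 1180596135312155542544 406 ⟨.x, 1, 0, 0, [⟨.m, 2, 0, []⟩, ⟨.m, 1, 0, []⟩, ⟨.m, 4, 0, []⟩]⟩
.nil
.nil)
.nil)
(.node 75557863730312370267152 327 ⟨.c, 1, 0, 0, [⟨.x, 1, 0, []⟩, ⟨.m, 0, 0, []⟩, ⟨.m, 0, 0, []⟩]⟩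
.nil
.nil)))))

/-- a part of the search tree -/
def bt11111 : BT :=
  (.node 38685626227672531637445792 462 ⟨.c, 1, 0, 0, [⟨.x, 1, 0, []⟩, ⟨.x, 1, 0, [⟨.m, 1, 0⟩]⟩]⟩
(.node 4835703278462914745672850 338 ⟨.c, 1, 0, 0, [⟨.x, 1, 0, []⟩, ⟨.x, 1, 0, []⟩, ⟨.x, 0, 0, []⟩]⟩
(.node 604462909880981867800594 473 ⟨.c, 1, 0, 1, [⟨.x, 1, 0, [⟨.m, 2, 0⟩]⟩, ⟨.x, 1, 0, []⟩]⟩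
(.node 604462909811712635250706 474 ⟨.c, 1, 0, 1, [⟨.x, 1, 0, [⟨.m, 0, 0⟩]⟩, ⟨.x, 1, 0, []⟩]⟩
(.node 604462909811712634202130 464 ⟨.c, 1, 0, 0, [⟨.x, 1, 0, [⟨.m, 0, 0⟩]⟩, ⟨.x, 1, 0, []⟩]⟩
(.node 604462909811712634201234 338 ⟨.c, 1, 0, 0, [⟨.x, 1, 0, []⟩, ⟨.x, 0, 0, []⟩, ⟨.x, 1, 0, []⟩]⟩
.nil
.nil)
.nil)
(.node 604462909880981866752018 463 ⟨.c, 1, 0, 0, [⟨.x, 1, 0, [⟨.m, 2, 0⟩]⟩, ⟨.x, 1, 0, []⟩]⟩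
(.node 604462909880981866751122 337 ⟨.c, 1, 0, 0, [⟨.x, 1, 0, []⟩, ⟨.x, 2, 0, []⟩, ⟨.x, 1, 0, []⟩]⟩
.nil
.nil)
.nil))
(.node 605643501431330533877778 483 ⟨.c, 3, 0, 0, [⟨.x, 1, 0, [⟨.m, 2, 0⟩]⟩, ⟨.x, 1, 0, []⟩]⟩
(.node 604481356623956064675858 484 ⟨.c, 3, 0, 0, [⟨.x, 1, 0, [⟨.m, 4, 0⟩]⟩, ⟨.x, 1, 0, []⟩]⟩
(.node 604481356554686832125970 485 ⟨.c, 3, 0, 0, [⟨.x, 1, 0, [⟨.m, 0, 0⟩]⟩, ⟨.x, 1, 0, []⟩]⟩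
.nil
.nil)
.nil)
(.node 613907642776352413001750 487 ⟨.c, 3, 0, 0, [⟨.x, 1, 0, [⟨.m, 2, 0⟩]⟩, ⟨.x, 3, 1, []⟩]⟩
.nil
.nil)))
(.node 4835721725205888943596704 485 ⟨.c, 3, 0, 0, [⟨.x, 1, 0, []⟩, ⟨.x, 1, 0, [⟨.m, 0, 0⟩]⟩]⟩
(.node 4835703278470611327067282 337 ⟨.c, 1, 0, 0, [⟨.x, 1, 0, []⟩, ⟨.x, 1, 0, []⟩, ⟨.x, 2, 0, []⟩]⟩
(.node 4835703278462914746721440 474 ⟨.c, 1, 0, 1, [⟨.x, 1, 0, []⟩, ⟨.x, 1, 0, [⟨.m, 0, 0⟩]⟩]⟩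
(.node 4835703278462914745672864 464 ⟨.c, 1, 0, 0, [⟨.x, 1, 0, []⟩, ⟨.x, 1, 0, [⟨.m, 0, 0⟩]⟩]⟩
.nil
.nil)
.nil)
(.node 4835703278470611328115872 473 ⟨.c, 1, 0, 1, [⟨.x, 1, 0, []⟩, ⟨.x, 1, 0, [⟨.m, 2, 0⟩]⟩]⟩
(.node 4835703278470611327067296 463 ⟨.c, 1, 0, 0, [⟨.x, 1, 0, []⟩, ⟨.x, 1, 0, [⟨.m, 2, 0⟩]⟩]⟩
.nil
.nil)
.nil))
(.node 5440166188269129821414560 487 ⟨.c, 3, 0, 0, [⟨.x, 3, 1, []⟩, ⟨.x, 1, 0, [⟨.m, 2, 0⟩]⟩]⟩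
(.node 4835850852414404910458016 483 ⟨.c, 3, 0, 0, [⟨.x, 1, 0, []⟩, ⟨.x, 1, 0, [⟨.m, 2, 0⟩]⟩]⟩
(.node 4835721725213585524991136 484 ⟨.c, 3, 0, 0, [⟨.x, 1, 0, []⟩, ⟨.x, 1, 0, [⟨.m, 4, 0⟩]⟩]⟩
.nil
.nil)
.nil)
(.node 38685626227672531637445778 336 ⟨.c, 1, 0, 0, [⟨.x, 1, 0, []⟩, ⟨.x, 1, 0, []⟩, ⟨.x, 1, 0, []⟩]⟩
.nil
.nil))))
(.node 38685644674415505835370514 482 ⟨.c, 3, 0, 0, [⟨.x, 1, 0, [⟨.m, 1, 0⟩]⟩, ⟨.x, 1, 0, []⟩]⟩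
(.node 38685626227741800869995666 465 ⟨.c, 1, 0, 0, [⟨.x, 1, 0, []⟩, ⟨.x, 3, 0, []⟩, ⟨.x, 1, 0, []⟩]⟩
(.node 38685626227672531638495250 472 ⟨.c, 1, 0, 1, [⟨.x, 1, 0, [⟨.m, 1, 0⟩]⟩, ⟨.x, 1, 0, []⟩]⟩
(.node 38685626227672531638494368 472 ⟨.c, 1, 0, 1, [⟨.x, 1, 0, []⟩, ⟨.x, 1, 0, [⟨.m, 1, 0⟩]⟩]⟩
(.node 38685626227672531637446674 462 ⟨.c, 1, 0, 0, [⟨.x, 1, 0, [⟨.m, 1, 0⟩]⟩, ⟨.x, 1, 0, []⟩]⟩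
.nil
.nil)
.nil)
(.node 38685626227680228218840214 466 ⟨.c, 1, 0, 0, [⟨.x, 1, 0, []⟩, ⟨.x, 1, 0, []⟩, ⟨.x, 3, 1, []⟩]⟩
(.node 38685626227680228218840210 465 ⟨.c, 1, 0, 0, [⟨.x, 1, 0, []⟩, ⟨.x, 1, 0, []⟩, ⟨.x, 3, 0, []⟩]⟩
.nil
.nil)
.nil))
(.node 38685626232175031753204882 466 ⟨.c, 1, 0, 0, [⟨.x, 3, 1, []⟩, ⟨.x, 1, 0, []⟩, ⟨.x, 1, 0, []⟩]⟩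
(.node 38685626232175031753188498 465 ⟨.c, 1, 0, 0, [⟨.x, 3, 0, []⟩, ⟨.x, 1, 0, []⟩, ⟨.x, 1, 0, []⟩]⟩
(.node 38685626227741800869995922 466 ⟨.c, 1, 0, 0, [⟨.x, 1, 0, []⟩, ⟨.x, 3, 1, []⟩, ⟨.x, 1, 0, []⟩]⟩
.nil
.nil)
.nil)
(.node 38685644674415505835369632 482 ⟨.c, 3, 0, 0, [⟨.x, 1, 0, []⟩, ⟨.x, 1, 0, [⟨.m, 1, 0⟩]⟩]⟩
.nil
.nil)))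
(.node 1361129467683753853853498434125140927648 469 ⟨.c, 1, 0, 0, [⟨.x, 1, 0, []⟩, ⟨.x, 1, 0, []⟩, ⟨.x, 1, 0, [⟨.m, 0, 0⟩]⟩]⟩
(.node 170141183460469231731687308113952188434 469 ⟨.c, 1, 0, 0, [⟨.x, 1, 0, []⟩, ⟨.x, 1, 0, [⟨.m, 0, 0⟩]⟩, ⟨.x, 1, 0, []⟩]⟩
(.node 2658455991569831745812121018744571026 468 ⟨.c, 1, 0, 0, [⟨.x, 1, 0, [⟨.m, 2, 0⟩]⟩, ⟨.x, 1, 0, []⟩, ⟨.x, 1, 0, []⟩]⟩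
(.node 2658455991569831745807618518628828306 469 ⟨.c, 1, 0, 0, [⟨.x, 1, 0, [⟨.m, 0, 0⟩]⟩, ⟨.x, 1, 0, []⟩, ⟨.x, 1, 0, []⟩]⟩
.nil
.nil)
.nil)
(.node 170141183460469231731687377383184738322 468 ⟨.c, 1, 0, 0, [⟨.x, 1, 0, []⟩, ⟨.x, 1, 0, [⟨.m, 2, 0⟩]⟩, ⟨.x, 1, 0, []⟩]⟩
.nil
.nil))
(.node 10889035741470030830827987442214650849298 467 ⟨.c, 1, 0, 0, [⟨.x, 1, 0, []⟩, ⟨.x, 1, 0, [⟨.m, 1, 0⟩]⟩, ⟨.x, 1, 0, []⟩]⟩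
(.node 10889035741470030830827987442214650848416 467 ⟨.c, 1, 0, 0, [⟨.x, 1, 0, []⟩, ⟨.x, 1, 0, []⟩, ⟨.x, 1, 0, [⟨.m, 1, 0⟩]⟩]⟩
(.node 1361129467683753853853498441821722322080 468 ⟨.c, 1, 0, 0, [⟨.x, 1, 0, []⟩, ⟨.x, 1, 0, []⟩, ⟨.x, 1, 0, [⟨.m, 2, 0⟩]⟩]⟩
.nil
.nil)
.nil)
(.node 10889035741470030830827987442214650905746 467 ⟨.c, 1, 0, 0, [⟨.x, 1, 0, [⟨.m, 1, 0⟩]⟩, ⟨.x, 1, 0, []⟩, ⟨.x, 1, 0, []⟩]⟩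
.nil
.nil)))))

/-- the search tree -/
def theBT : BT :=
  (.node 5069848115684688 425 ⟨.x, 1, 0, 0, [⟨.c, 2, 1, []⟩, ⟨.m, 2, 0, []⟩]⟩ (.node 4507997673948240 126 ⟨.m, 0, 0, 0, [⟨.m, 1, 0, []⟩, ⟨.c, 0, 0, []⟩, ⟨.m, 0, 0, []⟩]⟩ (.node 82463372154000 163 ⟨.m, 0, 0, 0, [⟨.c, 0, 0, []⟩, ⟨.x, 2, 0, []⟩, ⟨.m, 1, 0, []⟩]⟩ (.node 13194140128272 455 ⟨.x, 0, 0, 0, [⟨.c, 0, 0, []⟩, ⟨.m, 0, 0, []⟩, ⟨.m, 1, 0, []⟩]⟩ (.node 13194139599952 126 ⟨.m, 0, 0, 0, [⟨.m, 0, 0, []⟩, ⟨.c, 0, 0, []⟩, ⟨.m, 1, 0, []⟩]⟩ bt00000 bt00001) (.node 74766790763856 191 ⟨.m, 0, 0, 0, [⟨.x, 0, 0, []⟩, ⟨.c, 1, 1, []⟩, ⟨.m, 0, 0, []⟩]⟩ bt00010 bt00011)) (.node 567348000003089 134 ⟨.m, 0, 0,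 0, [⟨.c, 0, 0, []⟩, ⟨.m, 1, 0, []⟩, ⟨.c, 1, 0, []⟩]⟩ (.node 144036023238800 391 ⟨.x, 3, 0, 0, [⟨.m, 0, 0, []⟩]⟩ bt00100 bt00101) (.node 636617232482321 4 ⟨.m, 3, 0, 0, [⟨.c, 1, 0, []⟩]⟩ bt00110 bt00111))) (.node 4577266906502289 229 ⟨.m, 0, 0, 0, [⟨.c, 1, 0, []⟩, ⟨.x, 2, 0, []⟩, ⟨.c, 0, 0, []⟩]⟩ (.node 4515694255346770 229 ⟨.m, 0, 0, 0, [⟨.c, 1, 0, []⟩, ⟨.c, 0, 0, []⟩, ⟨.x, 2, 0, []⟩]⟩ (.node 4507997674476560 457 ⟨.x, 0, 0, 0, [⟨.c, 1, 0, []⟩, ⟨.m, 0, 0, []⟩, ⟨.m, 0, 0, []⟩]⟩ bt01000 bt01001) (.node 4515694255887376 454 ⟨.x, 0, 0, 0, [⟨.c, 2, 1, []⟩, ⟨.m, 0, 0, []⟩, ⟨.m, 1, 0, []⟩]⟩ bt01010 bt01011)) (.node 4584963487892818 159 ⟨.m, 0, 0, 0, [⟨.m, 1,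 0, []⟩, ⟨.c, 2, 1, []⟩, ⟨.x, 4, 0, []⟩]⟩ (.node 4584963487826960 26 ⟨.m, 1, 0, 0, [⟨.m, 2, 0, []⟩, ⟨.m, 4, 0, []⟩]⟩ bt01100 bt01101) (.node 4584963487913105 225 ⟨.m, 0, 0, 0, [⟨.c, 2, 1, []⟩, ⟨.x, 4, 0, []⟩, ⟨.c, 1, 0, []⟩]⟩ bt01110 bt01111)))) (.node 288234774198297936 189 ⟨.m, 0, 0, 0, [⟨.x, 1, 0, []⟩, ⟨.c, 1, 1, []⟩, ⟨.m, 0, 0, []⟩]⟩ (.node 36033195066066000 442 ⟨.x, 0, 0, 0, [⟨.m, 1, 0, []⟩, ⟨.c, 0, 0, []⟩, ⟨.m, 1, 0, []⟩]⟩ (.node 9010497789629586 297 ⟨.c, 3, 0, 0, [⟨.x, 0, 0, []⟩, ⟨.x, 0, 0, []⟩]⟩ (.node 5069848115749973 218 ⟨.m, 0, 0, 0, [⟨.x, 2, 0, []⟩, ⟨.c, 1, 0, []⟩, ⟨.c, 1, 1, []⟩]⟩ bt10000 bt10001) (.node 36033195065545745 178 ⟨.m, 0, 0, 0,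 [⟨.c, 1, 0, []⟩, ⟨.m, 0, 0, []⟩, ⟨.c, 1, 0, []⟩]⟩ bt10010 bt10011)) (.node 36102464298112082 224 ⟨.m, 0, 0, 0, [⟨.c, 2, 1, []⟩, ⟨.c, 1, 0, []⟩, ⟨.x, 2, 0, []⟩]⟩ (.node 36102464298091669 152 ⟨.m, 0, 0, 0, [⟨.m, 1, 0, []⟩, ⟨.x, 2, 0, []⟩, ⟨.c, 1, 1, []⟩]⟩ bt10100 bt10101) (.node 288234774198228112 328 ⟨.c, 1, 0, 0, [⟨.x, 1, 0, []⟩, ⟨.m, 0, 0, []⟩]⟩ bt10110 bt10111))) (.node 2305847407260226704 305 ⟨.c, 1, 0, 1, [⟨.x, 1, 0, []⟩, ⟨.m, 1, 0, []⟩]⟩ (.node 288242470779688277 215 ⟨.m, 0, 0, 0, [⟨.c, 1, 0, []⟩, ⟨.c, 1, 1, []⟩, ⟨.c, 2, 1, []⟩]⟩ (.node 288242470779622418 306 ⟨.c, 1, 0, 0, [⟨.m, 1, 0, []⟩, ⟨.x, 2, 0, []⟩]⟩ bt11000 bt11001) (.node 288242470780208149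 441 ⟨.x, 0, 0, 0, [⟨.m, 1, 0, []⟩, ⟨.m, 1, 0, []⟩, ⟨.c, 2, 1, []⟩]⟩ bt11010 bt11011)) (.node 2310357603957347478 481 ⟨.c, 3, 0, 0, [⟨.x, 1, 0, []⟩, ⟨.x, 5, 1, []⟩]⟩ (.node 2305847407260279953 231 ⟨.m, 0, 0, 0, [⟨.x, 1, 0, []⟩, ⟨.x, 1, 0, []⟩, ⟨.c, 1, 0, []⟩]⟩ bt11100 bt11101) (.node 75557863807278184465424 406 ⟨.x, 1, 0, 0, [⟨.m, 1, 0, []⟩, ⟨.m, 2, 0, []⟩, ⟨.m, 4, 0, []⟩]⟩ bt11110 bt11111)))))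

/-- the star is in the table up to permutations -/
def lookb (R : St) : Bool :=
  match BT.find (key R) theBT with
  | none => false
  | some R' => shb R R'

/-- the Boolean version of `OKs` -/
def okA (R : St) : Bool := ok2 lookb R

end Pool.Agent.GCI
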