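import Pool.Agent.GCI.ChkR

/-!
# MP_f1ab9c: the stars with the numbers 0, ..., 62 satisfy all conditions
-/

set_option autoImplicit false

namespace Pool.Agent.GCI

theorem chV0 : chL (tab.drop 0) ct0 = true := by decide +kernel

theorem chV1 : chL (tab.drop 9) ct1 = true := by decide +kernel

theorem chV2 : chL (tab.drop 18) ct2 = true := by decide +kernel

theorem chV3 : chL (tab.drop 27) ct3 = true := by decide +kernel

theorem chV4 : chL (tab.drop 36) ct4 = true := by decide +kernel

theorem chV5 : chL (tab.drop 45) ct5 = true := by decide +kernel

theorem chV6 : chL (tab.drop 54) ct6 = true := by decide +kernel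

end Pool.Agent.GCI
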