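import Pool.Agent.GCI.ChkR

/-!
# MP_f1ab9c: the stars with the numbers 63, ..., 125 satisfy all conditions
-/

set_option autoImplicit false

namespace Pool.Agent.GCI

theorem chV7 : chL (tab.drop 63) ct7 = true := by decide +kernel

theorem chV8 : chL (tab.drop 72) ct8 = true := by decide +kernel

theorem chV9 : chL (tab.drop 81) ct9 = true := by decide +kernel

theorem chV10 : chL (tab.drop 90) ct10 = true := by decide +kernel

theorem chV11 : chL (tab.drop 99) ct11 = true := by decide +kernel

theorem chV12 : chL (tab.drop 108) ct12 = true := by decide +kernel

theorem chV13 : chL (tab.drop 117) ct13 = true := by decide +kernel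

end Pool.Agent.GCI
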