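import Pool.Agent.GCI.ChkR

/-!
# MP_f1ab9c: the stars with the numbers 126, ..., 188 satisfy all conditions
-/

set_option autoImplicit false

namespace Pool.Agent.GCI

theorem chV14 : chL (tab.drop 126) ct14 = true := by decide +kernel

theorem chV15 : chL (tab.drop 135) ct15 = true := by decide +kernel

theorem chV16 : chL (tab.drop 144) ct16 = true := by decide +kernel

theorem chV17 : chL (tab.drop 153) ct17 = true := by decide +kernel

theorem chV18 : chL (tab.drop 162) ct18 = true := by decide +kernel

theorem chV19 : chL (tab.drop 171) ct19 = true := by decide +kernel

theorem chV20 : chL (tab.drop 180) ct20 = true := by decide +kernel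

end Pool.Agent.GCI
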