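import Pool.Agent.GCI.ChkR

/-!
# MP_f1ab9c: the stars with the numbers 189, ..., 251 satisfy all conditions
-/

set_option autoImplicit false

namespace Pool.Agent.GCI

theorem chV21 : chL (tab.drop 189) ct21 = true := by decide +kernel

theorem chV22 : chL (tab.drop 198) ct22 = true := by decide +kernel

theorem chV23 : chL (tab.drop 207) ct23 = true := by decide +kernel

theorem chV24 : chL (tab.drop 216) ct24 = true := by decide +kernel

theorem chV25 : chL (tab.drop 225) ct25 = true := by decide +kernel

theorem chV26 : chL (tab.drop 234) ct26 = true := by decide +kernel

theorem chV27 : chL (tab.drop 243) ct27 = true := by decide +kernel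

end Pool.Agent.GCI
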