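import Pool.Agent.GCI.ChkV0

/-!
# MP_f1ab9c: the stars with the numbers 252, ..., 314 satisfy all conditions
-/

set_option autoImplicit false

namespace Pool.Agent.GCI

theorem chV28 : chL (tab.drop 252) ct28 = true := by decide +kernel

theorem chV29 : chL (tab.drop 261) ct29 = true := by decide +kernel

theorem chV30 : chL (tab.drop 270) ct30 = true := by decide +kernel

theorem chV31 : chL (tab.drop 279) ct31 = true := by decide +kernel

theorem chV32 : chL (tab.drop 288) ct32 = true := by decide +kernel

theorem chV33 : chL (tab.drop 297) ct33 = true := by decide +kernel

theorem chV34 : chL (tab.drop 306) ct34 = true := by decide +kernel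

end Pool.Agent.GCI
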