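import Pool.Agent.GCI.ChkV1

/-!
# MP_f1ab9c: the stars with the numbers 315, ..., 377 satisfy all conditions
-/

set_option autoImplicit false

namespace Pool.Agent.GCI

theorem chV35 : chL (tab.drop 315) ct35 = true := by decide +kernel

theorem chV36 : chL (tab.drop 324) ct36 = true := by decide +kernel

theorem chV37 : chL (tab.drop 333) ct37 = true := by decide +kernel

theorem chV38 : chL (tab.drop 342) ct38 = true := by decide +kernel

theorem chV39 : chL (tab.drop 351) ct39 = true := by decide +kernel

theorem chV40 : chL (tab.drop 360) ct40 = true := by decide +kernel

theorem chV41 : chL (tab.drop 369) ct41 = true := by decide +kernel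

end Pool.Agent.GCI
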