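import Pool.Agent.GCI.ChkV2

/-!
# MP_f1ab9c: the stars with the numbers 378, ..., 440 satisfy all conditions
-/

set_option autoImplicit false

namespace Pool.Agent.GCI

theorem chV42 : chL (tab.drop 378) ct42 = true := by decide +kernel

theorem chV43 : chL (tab.drop 387) ct43 = true := by decide +kernel

theorem chV44 : chL (tab.drop 396) ct44 = true := by decide +kernel

theorem chV45 : chL (tab.drop 405) ct45 = true := by decide +kernel

theorem chV46 : chL (tab.drop 414) ct46 = true := by decide +kernel

theorem chV47 : chL (tab.drop 423) ct47 = true := by decide +kernel

theorem chV48 : chL (tab.drop 432) ct48 = true := by decide +kernel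

end Pool.Agent.GCI
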