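import Pool.Agent.GCI.ChkV3

/-!
# MP_f1ab9c: the stars with the numbers 441, ..., 502 satisfy all conditions
-/

set_option autoImplicit false

namespace Pool.Agent.GCI

theorem chV49 : chL (tab.drop 441) ct49 = true := by decide +kernel

theorem chV50 : chL (tab.drop 450) ct50 = true := by decide +kernel

theorem chV51 : chL (tab.drop 459) ct51 = true := by decide +kernel

theorem chV52 : chL (tab.drop 468) ct52 = true := by decide +kernel

theorem chV53 : chL (tab.drop 477) ct53 = true := by decide +kernel

theorem chV54 : chL (tab.drop 486) ct54 = true := by decide +kernel

theorem chV55 : chL (tab.drop 495) ct55 = true := by decide +kernel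

end Pool.Agent.GCI
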