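import Pool.Agent.GCI.ChkV4

/-!
# MP_f1ab9c: the stars of weight `3`, part 1
-/

set_option autoImplicit false

namespace Pool.Agent.GCI

theorem chG0 : goA okA ((g1L.drop 0).take 500) g1c0 = true := by
  decide +kernel

theorem chG1 : goA okA ((g1L.drop 500).take 500) g1c1 = true := by
  decide +kernel

theorem chG2 : goA okA ((g1L.drop 1000).take 500) g1c2 = true := by
  decide +kernel

theorem chG3 : goA okA ((g1L.drop 1500).take 500) g1c3 = true := by
  decide +kernel

theorem chG4 : goA okA ((g1L.drop 2000).take 500) g1c4 = true := by
  decide +kernel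

theorem chG5 : goA okA ((g1L.drop 2500).take 500) g1c5 = true := by
  decide +kernel

theorem chG6 : goA okA ((g1L.drop 3000).take 500) g1c6 = true := by
  decide +kernel

end Pool.Agent.GCI
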