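import Pool.Agent.GCI.ChkV5

/-!
# MP_f1ab9c: the stars of weight `3`, part 2
-/

set_option autoImplicit false

namespace Pool.Agent.GCI

theorem chG7 : goA okA ((g1L.drop 3500).take 500) g1c7 = true := by
  decide +kernel

theorem chG8 : goA okA ((g1L.drop 4000).take 500) g1c8 = true := by
  decide +kernel

theorem chG9 : goA okA ((g1L.drop 4500).take 500) g1c9 = true := by
  decide +kernel

theorem chG10 : goA okA ((g1L.drop 5000).take 500) g1c10 = true := by
  decide +kernel

theorem chG11 : goA okA ((g1L.drop 5500).take 500) g1c11 = true := by
  decide +kernel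

theorem chG12 : goA okA ((g1L.drop 6000).take 500) g1c12 = true := by
  decide +kernel

theorem chG13 : goA okA ((g1L.drop 6500).take 500) g1c13 = true := by
  decide +kernel

end Pool.Agent.GCI
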