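import Pool.Agent.GCI.ChkV6

/-!
# MP_f1ab9c: the attacked vertices below a vertex with the label `m`
-/

set_option autoImplicit false

namespace Pool.Agent.GCI

theorem chEm0 : chE okA theX .m (((endL .m).drop 0).take 100) (enm.drop 0) = true := by
  decide +kernel

theorem chEm1 : chE okA theX .m (((endL .m).drop 100).take 100) (enm.drop 100) = true := by
  decide +kernel

theorem chEm2 : chE okA theX .m (((endL .m).drop 200).take 100) (enm.drop 200) = true := by
  decide +kernel

theorem chEm3 : chE okA theX .m (((endL .m).drop 300).take 100) (enm.drop 300) = true := by
  decide +kernel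

theorem chEm4 : chE okA theX .m (((endL .m).drop 400).take 100) (enm.drop 400) = true := by
  decide +kernel

theorem chEm5 : chE okA theX .m (((endL .m).drop 500).take 100) (enm.drop 500) = true := by
  decide +kernel

theorem chEm6 : chE okA theX .m (((endL .m).drop 600).take 100) (enm.drop 600) = true := by
  decide +kernel

theorem chEm7 : chE okA theX .m (((endL .m).drop 700).take 100) (enm.drop 700) = true := by
  decide +kernel

theorem chEm8 : chE okA theX .m (((endL .m).drop 800).take 100) (enm.drop 800) = true := by
  decide +kernel

end Pool.Agent.GCI
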