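import Pool.Agent.GCI.ChkV7

/-!
# MP_f1ab9c: the attacked vertices below a vertex with the label `c` or `x`
-/

set_option autoImplicit false

namespace Pool.Agent.GCI

theorem chEc0 : chE okA theX .c (((endL .c).drop 0).take 100) (enc.drop 0) = true := by
  decide +kernel

theorem chEc1 : chE okA theX .c (((endL .c).drop 100).take 100) (enc.drop 100) = true := by
  decide +kernel

theorem chEc2 : chE okA theX .c (((endL .c).drop 200).take 100) (enc.drop 200) = true := by
  decide +kernel

theorem chEc3 : chE okA theX .c (((endL .c).drop 300).take 100) (enc.drop 300) = true := by
  decide +kernel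

theorem chEc4 : chE okA theX .c (((endL .c).drop 400).take 100) (enc.drop 400) = true := by
  decide +kernel

theorem chEx0 : chE okA theX .x (((endL .x).drop 0).take 100) (enx.drop 0) = true := by
  decide +kernel

theorem chEx1 : chE okA theX .x (((endL .x).drop 100).take 100) (enx.drop 100) = true := by
  decide +kernel

theorem chEx2 : chE okA theX .x (((endL .x).drop 200).take 100) (enx.drop 200) = true := by
  decide +kernel

theorem chEx3 : chE okA theX .x (((endL .x).drop 300).take 100) (enx.drop 300) = true := by
  decide +kernel

theorem chEx4 : chE okA theX .x (((endL .x).drop 400).take 100) (enx.drop 400) = true := by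
  decide +kernel

theorem chEx5 : chE okA theX .x (((endL .x).drop 500).take 100) (enx.drop 500) = true := by
  decide +kernel

theorem chEx6 : chE okA theX .x (((endL .x).drop 600).take 100) (enx.drop 600) = true := by
  decide +kernel

end Pool.Agent.GCI
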