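import Pool.Agent.GCI.ChkR

/-!
# MP_f1ab9c: the tables of masks
-/

set_option autoImplicit false

namespace Pool.Agent.GCI

theorem chM1m : chN1 okA .m n1L n1m = true := by decide +kernel

theorem chM1c : chN1 okA .c n1L n1c = true := by decide +kernel

theorem chM1x : chN1 okA .x n1L n1x = true := by decide +kernel

theorem chM2m : chN2 okA .m n2L n2m = true := by decide +kernel

theorem chM2c : chN2 okA .c n2L n2c = true := by decide +kernel

theorem chM2x : chN2 okA .x n2L n2x = true := by decide +kernel

theorem chZ : ((mskN 3).all fun s => okA ⟨.c, s, 0, 0, []⟩ && okA ⟨.x, s, 0, 0, []⟩) = true := by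
  decide +kernel

theorem chSub : (tab.all subb) = true := by decide +kernel

theorem lenG : (g1L.drop 6531).length = 0 := by decide +kernel

theorem lenEm : ((endL .m).drop 811).length = 0 := by decide +kernel

theorem lenEc : ((endL .c).drop 472).length = 0 := by decide +kernel

theorem lenEx : ((endL .x).drop 619).length = 0 := by decide +kernel

end Pool.Agent.GCI
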