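import Pool.Agent.GCI.ChkW0
import Pool.Agent.GCI.ChkW1
import Pool.Agent.GCI.ChkW2
import Pool.Agent.GCI.ChkW3
import Pool.Agent.GCI.ChkW4

/-!
# MP_f1ab9c: the table satisfies all conditions
-/

set_option autoImplicit false

namespace Pool.Agent.GCI

/-- one step: a property of the elements of a list, from parts of the list -/
theorem all_step {α : Type} {P : α → Prop} {L : List α} {n m n' : ℕ}
    (h : ∀ x ∈ (L.drop n).take m, P x) (e : n + m = n') (h' : ∀ x ∈ L.drop n', P x) :
    ∀ x ∈ L.drop n, P x := by
  intro x hx
  rcases mem_td m hx with hx | hx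
  · exact h x hx
  · rw [List.drop_drop, e] at hx
    exact h' x hx

theorem all_end {α : Type} {P : α → Prop} {L : List α} {n : ℕ} (h : (L.drop n).length = 0) :
    ∀ x ∈ L.drop n, P x := by
  intro x hx
  rw [List.eq_nil_of_length_eq_zero h] at hx
  cases hx

theorem all_len {α : Type} {P : α → Prop} {L : List α} {n m : ℕ} (h : (L.drop n).length = 0)
    (hm : n ≤ m) : ∀ x ∈ L.drop m, P x := by
  intro x hx
  apply all_end h x
  have : L.drop m = (L.drop n).drop (m - n) := by
    rw [List.drop_drop]
    congr 1
    omega
  rw [this] at hx
  exact List.mem_of_mem_drop hx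

theorem tab_end : (tab.drop 503).length = 0 := by decide +kernel

theorem all_ok : ∀ R ∈ tab, ∃ C, chR okA theX R C = true := by
  have h56 : ∀ R ∈ tab.drop 503, ∃ C, chR okA theX R C = true := all_end tab_end
  have h55 := all_step (chL_spec chV55) (by decide +kernel) h56
  have h54 := all_step (chL_spec chV54) (by decide +kernel) h55
  have h53 := all_step (chL_spec chV53) (by decide +kernel) h54
  have h52 := all_step (chL_spec chV52) (by decide +kernel) h53
  have h51 := all_step (chL_spec chV51) (by decide +kernel) h52
  have h50 := all_step (chL_spec chV50) (by decide +kernel) h51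
  have h49 := all_step (chL_spec chV49) (by decide +kernel) h50
  have h48 := all_step (chL_spec chV48) (by decide +kernel) h49
  have h47 := all_step (chL_spec chV47) (by decide +kernel) h48
  have h46 := all_step (chL_spec chV46) (by decide +kernel) h47
  have h45 := all_step (chL_spec chV45) (by decide +kernel) h46
  have h44 := all_step (chL_spec chV44) (by decide +kernel) h45
  have h43 := all_step (chL_spec chV43) (by decide +kernel) h44
  have h42 := all_step (chL_spec chV42) (by decide +kernel) h43
  have h41 := all_step (chL_spec chV41) (by decide +kernel) h42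
  have h40 := all_step (chL_spec chV40) (by decide +kernel) h41
  have h39 := all_step (chL_spec chV39) (by decide +kernel) h40
  have h38 := all_step (chL_spec chV38) (by decide +kernel) h39
  have h37 := all_step (chL_spec chV37) (by decide +kernel) h38
  have h36 := all_step (chL_spec chV36) (by decide +kernel) h37
  have h35 := all_step (chL_spec chV35) (by decide +kernel) h36
  have h34 := all_step (chL_spec chV34) (by decide +kernel) h35
  have h33 := all_step (chL_spec chV33) (by decide +kernel) h34
  have h32 := all_step (chL_spec chV32) (by decide +kernel) h33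
  have h31 := all_step (chL_spec chV31) (by decide +kernel) h32
  have h30 := all_step (chL_spec chV30) (by decide +kernel) h31
  have h29 := all_step (chL_spec chV29) (by decide +kernel) h30
  have h28 := all_step (chL_spec chV28) (by decide +kernel) h29
  have h27 := all_step (chL_spec chV27) (by decide +kernel) h28
  have h26 := all_step (chL_spec chV26) (by decide +kernel) h27
  have h25 := all_step (chL_spec chV25) (by decide +kernel) h26
  have h24 := all_step (chL_spec chV24) (by decide +kernel) h25
  have h23 := all_step (chL_spec chV23) (by decide +kernel) h24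
  have h22 := all_step (chL_spec chV22) (by decide +kernel) h23
  have h21 := all_step (chL_spec chV21) (by decide +kernel) h22
  have h20 := all_step (chL_spec chV20) (by decide +kernel) h21
  have h19 := all_step (chL_spec chV19) (by decide +kernel) h20
  have h18 := all_step (chL_spec chV18) (by decide +kernel) h19
  have h17 := all_step (chL_spec chV17) (by decide +kernel) h18
  have h16 := all_step (chL_spec chV16) (by decide +kernel) h17
  have h15 := all_step (chL_spec chV15) (by decide +kernel) h16
  have h14 := all_step (chL_spec chV14) (by decide +kernel) h15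
  have h13 := all_step (chL_spec chV13) (by decide +kernel) h14
  have h12 := all_step (chL_spec chV12) (by decide +kernel) h13
  have h11 := all_step (chL_spec chV11) (by decide +kernel) h12
  have h10 := all_step (chL_spec chV10) (by decide +kernel) h11
  have h9 := all_step (chL_spec chV9) (by decide +kernel) h10
  have h8 := all_step (chL_spec chV8) (by decide +kernel) h9
  have h7 := all_step (chL_spec chV7) (by decide +kernel) h8
  have h6 := all_step (chL_spec chV6) (by decide +kernel) h7
  have h5 := all_step (chL_spec chV5) (by decide +kernel) h6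
  have h4 := all_step (chL_spec chV4) (by decide +kernel) h5
  have h3 := all_step (chL_spec chV3) (by decide +kernel) h4
  have h2 := all_step (chL_spec chV2) (by decide +kernel) h3
  have h1 := all_step (chL_spec chV1) (by decide +kernel) h2
  have h0 := all_step (chL_spec chV0) (by decide +kernel) h1
  exact h0

theorem all_g1 : ∀ S ∈ g1L, AnsS (fun R => R ∈ tab) S := by
  have hok : ∀ R, okA R = true → OKs (fun R => R ∈ tab) R := fun R h => okA_sound h
  have h14 : ∀ S ∈ g1L.drop 7000, AnsS (fun R => R ∈ tab) S :=
    all_len lenG (by norm_num)
  have h13 := all_step (goA_sound hok chG13) rfl h14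
  have h12 := all_step (goA_sound hok chG12) rfl h13
  have h11 := all_step (goA_sound hok chG11) rfl h12
  have h10 := all_step (goA_sound hok chG10) rfl h11
  have h9 := all_step (goA_sound hok chG9) rfl h10
  have h8 := all_step (goA_sound hok chG8) rfl h9
  have h7 := all_step (goA_sound hok chG7) rfl h8
  have h6 := all_step (goA_sound hok chG6) rfl h7
  have h5 := all_step (goA_sound hok chG5) rfl h6
  have h4 := all_step (goA_sound hok chG4) rfl h5
  have h3 := all_step (goA_sound hok chG3) rfl h4
  have h2 := all_step (goA_sound hok chG2) rfl h3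
  have h1 := all_step (goA_sound hok chG1) rfl h2
  have h0 := all_step (goA_sound hok chG0) rfl h1
  exact h0

theorem all_Em : ∀ E ∈ endL .m, ∃ m0 m1, mE okA .m E m0 m1 = true ∧
    inD E.l m0 m1 (theX.d .m) = true := by
  have h9 : ∀ E ∈ (endL .m).drop 900, ∃ m0 m1, mE okA .m E m0 m1 = true ∧
    inD E.l m0 m1 (theX.d .m) = true := all_len lenEm (by norm_num)
  have h8 := all_step (chE_spec chEm8) rfl h9
  have h7 := all_step (chE_spec chEm7) rfl h8
  have h6 := all_step (chE_spec chEm6) rfl h7
  have h5 := all_step (chE_spec chEm5) rfl h6
  have h4 := all_step (chE_spec chEm4) rfl h5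
  have h3 := all_step (chE_spec chEm3) rfl h4
  have h2 := all_step (chE_spec chEm2) rfl h3
  have h1 := all_step (chE_spec chEm1) rfl h2
  have h0 := all_step (chE_spec chEm0) rfl h1
  exact h0

theorem all_Ec : ∀ E ∈ endL .c, ∃ m0 m1, mE okA .c E m0 m1 = true ∧
    inD E.l m0 m1 (theX.d .c) = true := by
  have h5 : ∀ E ∈ (endL .c).drop 500, ∃ m0 m1, mE okA .c E m0 m1 = true ∧
    inD E.l m0 m1 (theX.d .c) = true := all_len lenEc (by norm_num)
  have h4 := all_step (chE_spec chEc4) rfl h5
  have h3 := all_step (chE_spec chEc3) rfl h4
  have h2 := all_step (chE_spec chEc2) rfl h3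
  have h1 := all_step (chE_spec chEc1) rfl h2
  have h0 := all_step (chE_spec chEc0) rfl h1
  exact h0

theorem all_Ex : ∀ E ∈ endL .x, ∃ m0 m1, mE okA .x E m0 m1 = true ∧
    inD E.l m0 m1 (theX.d .x) = true := by
  have h7 : ∀ E ∈ (endL .x).drop 700, ∃ m0 m1, mE okA .x E m0 m1 = true ∧
    inD E.l m0 m1 (theX.d .x) = true := all_len lenEx (by norm_num)
  have h6 := all_step (chE_spec chEx6) rfl h7
  have h5 := all_step (chE_spec chEx5) rfl h6
  have h4 := all_step (chE_spec chEx4) rfl h5
  have h3 := all_step (chE_spec chEx3) rfl h4
  have h2 := all_step (chE_spec chEx2) rfl h3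
  have h1 := all_step (chE_spec chEx1) rfl h2
  have h0 := all_step (chE_spec chEx0) rfl h1
  exact h0

/-- The table of the `503` stars satisfies all conditions. -/
theorem theTab : Tab fun R => R ∈ tab := by
  refine tab_of (fun R h => okA_sound h) theX all_ok ?_ ?_ ?_ ?_ all_g1 ?_
  · have := chSub
    rw [List.all_eq_true] at this
    exact this
  · intro l
    cases l
    · exact chM1m
    · exact chM1c
    · exact chM1x
  · intro l
    cases l
    · exact chM2m
    · exact chM2c
    · exact chM2x
  · intro l
    cases l
    · exact all_Em
    · exact all_Ec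
    · exact all_Ex
  · intro s hs h3
    have := chZ
    rw [List.all_eq_true] at this
    have h := this s (mem_mskN hs h3)
    rw [Bool.and_eq_true] at h
    exact h

end Pool.Agent.GCI
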