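import Mathlib

/-!
# MP_f1ab9c: the edge colouring game, and finite pieces

* `Legal`, `Wins`, `gameIndex`: the game of the problem.
* `Dat`, `Fo`: a rooted piece is a vertex datum together with a forest of children. A vertex datum is
  `(lab, S, w, q)`: the label, the set of colours of the coloured edges at the vertex, the number of
  cut edges of kind `*` and the number of cut edges of kind `?` at the vertex.
* `OK`, `Al`, `Fam`: the conditions on a family `Good` of pieces from which Alice wins.
-/

set_option autoImplicit false

namespace Pool.Agent.GCI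

/-! ## The game -/

/-- partial edge colourings with `k` colours -/
abbrev Col (V : Type) (k : ℕ) : Type := Sym2 V → Option (Fin k)

/-- The edge `e` is uncoloured and may be given the colour `a`. -/
def Legal {V : Type} (G : SimpleGraph V) {k : ℕ} (c : Col V k) (e : Sym2 V) (a : Fin k) : Prop :=
  e ∈ G.edgeSet ∧ c e = none ∧ ∀ e' ∈ G.edgeSet, (∃ v, v ∈ e ∧ v ∈ e') → c e' ≠ some a

/-- No uncoloured edge is without a legal colour. -/
def Live {V : Type} (G : SimpleGraph V) {k : ℕ} (c : Col V k) : Prop :=
  ∀ e ∈ G.edgeSet, c e = none → ∃ a, Legal G c e a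

/-- Alice wins from the position `c`; she is to move if and only if the Boolean is `true`. -/
inductive Wins {V : Type} [DecidableEq V] (G : SimpleGraph V) {k : ℕ} : Bool → Col V k → Prop
  | full (b : Bool) (c : Col V k) (h : ∀ e ∈ G.edgeSet, c e ≠ none) : Wins G b c
  | alice (c : Col V k) (e : Sym2 V) (a : Fin k) (hl : Live G c) (h : Legal G c e a)
      (hw : Wins G false (Function.update c e (some a))) : Wins G true c
  | bob (c : Col V k) (hl : Live G c)
      (hw : ∀ e a, Legal G c e a → Wins G true (Function.update c e (some a))) : Wins G false c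

/-- the game chromatic index -/
noncomputable def gameIndex {V : Type} [DecidableEq V] (G : SimpleGraph V) : ℕ :=
  sInf {k | Wins G true (fun _ => none : Col V k)}

/-! ## Pieces -/

/-- The labels: degree `1`, `2`, `3`, and the two kinds of vertices of degree `4`. -/
inductive Lab
  | one | two | three | ctr | leaf
  deriving DecidableEq

/-- the degree of a label -/
def Lab.deg : Lab → ℕ
  | .one => 1
  | .two => 2
  | .three => 3
  | .ctr => 4
  | .leaf => 4

/-- the datum of a vertex -/
structure Dat where
  lab : Lab
  S : Finset (Fin 5)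
  w : ℕ
  q : ℕ
  deriving DecidableEq

/-- ordered forests -/
inductive Fo
  | nil
  | cons (d : Dat) (kids rest : Fo)

/-- permutations of the trees of a forest -/
inductive Fp : Fo → Fo → Prop
  | refl (F : Fo) : Fp F F
  | swap (d e : Dat) (K L F : Fo) : Fp (.cons d K (.cons e L F)) (.cons e L (.cons d K F))
  | cons (d : Dat) (K : Fo) {F F' : Fo} : Fp F F' → Fp (.cons d K F) (.cons d K F')
  | trans {F F' F'' : Fo} : Fp F F' → Fp F' F'' → Fp F F''

/-- add a coloured edge -/
def Dat.add (d : Dat) (a : Fin 5) : Dat := { d with S := insert a d.S }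

/-- add a cut edge `*` -/
def Dat.star (d : Dat) : Dat := { d with w := d.w + 1 }

/-- add a cut edge `?` -/
def Dat.quest (d : Dat) : Dat := { d with q := d.q + 1 }

/-- one cut edge `*` gets the colour `a` -/
def Dat.reveal (d : Dat) (a : Fin 5) : Dat := { d with S := insert a d.S, w := d.w - 1 }

/-- one cut edge `?` gets the colour `a` -/
def Dat.answer (d : Dat) (a : Fin 5) : Dat := { d with S := insert a d.S, q := d.q - 1 }

/-- An uncoloured edge between `d` and `e` can never become dead. -/
def Imm (d e : Dat) : Prop := d.lab.deg + e.lab.deg ≤ 6 + (d.S ∩ e.S).card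

instance (d e : Dat) : Decidable (Imm d e) := by unfold Imm; infer_instance

/-- the piece has no edge, or is good, or can be cut along immune edges into such pieces -/
inductive OK (Good : Dat → Fo → Prop) : Dat → Fo → Prop
  | good {d : Dat} {F : Fo} : Good d F → OK Good d F
  | triv (d : Dat) : OK Good d .nil
  | perm {d : Dat} {F F' : Fo} : OK Good d F → Fp F F' → OK Good d F'
  | rr {d e : Dat} {F K : Fo} : OK Good d (.cons e K F) → OK Good e (.cons d F K)
  | cut {d e : Dat} {F K : Fo} : Imm d e → OK Good d.star F → OK Good e.quest K →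
      OK Good d (.cons e K F)

/-- Alice can colour an edge of the piece such that both parts are OK. -/
inductive Al (Good : Dat → Fo → Prop) : Dat → Fo → Prop
  | here {d e : Dat} {F K : Fo} (a : Fin 5) : a ∉ d.S → a ∉ e.S → OK Good (d.add a) F →
      OK Good (e.add a) K → Al Good d (.cons e K F)
  | perm {d : Dat} {F F' : Fo} : Al Good d F → Fp F F' → Al Good d F'
  | rr {d e : Dat} {F K : Fo} : Al Good d (.cons e K F) → Al Good e (.cons d F K)

/-- the labels of the roots of a forest -/
def Fo.labs : Fo → List Lab
  | .nil => []
  | .cons d _ F => d.lab :: F.labs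

/-- The conditions at a vertex with datum `d` whose neighbours in the piece have the labels `L`. -/
def NodeOK (d : Dat) (L : List Lab) : Prop :=
  d.S.card + d.w + d.q + L.length = d.lab.deg ∧
    (d.lab = .ctr → Lab.ctr ∉ L) ∧
    (d.lab = .leaf → Lab.leaf ∉ L ∧ L.count Lab.ctr ≤ 1)

instance (d : Dat) (L : List Lab) : Decidable (NodeOK d L) := by unfold NodeOK; infer_instance

/-- the conditions at all vertices of a forest whose roots are the children of a vertex with
label `p` -/
def Fo.Val : Lab → Fo → Prop
  | _, .nil => True
  | p, .cons d K F => NodeOK d (p :: K.labs) ∧ K.Val d.lab ∧ F.Val p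

/-- the conditions at all vertices of a piece -/
def Valid (d : Dat) (F : Fo) : Prop := NodeOK d F.labs ∧ F.Val d.lab

/-- no coloured edges and no cut edges -/
def Dat.Clean (d : Dat) : Prop := d.S = ∅ ∧ d.w = 0 ∧ d.q = 0

/-- no coloured edges and no cut edges at the vertices of the forest -/
def Fo.Clean : Fo → Prop
  | .nil => True
  | .cons d K F => d.Clean ∧ K.Clean ∧ F.Clean

/-- The conditions on a family of pieces. -/
structure Fam (Good : Dat → Fo → Prop) : Prop where
  /-- independent of the order of the children of the root -/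
  perm : ∀ {d : Dat} {F F' : Fo}, Good d F → Fp F F' → Good d F'
  /-- independent of the root -/
  rr : ∀ {d e : Dat} {F K : Fo}, Good d (.cons e K F) → Good e (.cons d F K)
  /-- an edge `*` is coloured -/
  rev : ∀ {d : Dat} {F : Fo} (a : Fin 5), Valid d F → Good d F → 0 < d.w → a ∉ d.S →
    OK Good (d.reveal a) F
  /-- no edge is dead -/
  live : ∀ {d e : Dat} {F K : Fo}, Valid d (.cons e K F) → Good d (.cons e K F) →
    ∃ a, a ∉ d.S ∧ a ∉ e.S
  /-- Bob colours an edge of the piece -/
  bobE : ∀ {d e : Dat} {F K : Fo} (a : Fin 5), Valid d (.cons e K F) → Good d (.cons e K F) →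
    a ∉ d.S → a ∉ e.S →
    (OK Good (d.add a) F ∧ OK Good (e.add a) K) ∨ (OK Good (d.add a) F ∧ Al Good (e.add a) K) ∨
      (Al Good (d.add a) F ∧ OK Good (e.add a) K)
  /-- Bob colours an edge `?` -/
  bobQ : ∀ {d : Dat} {F : Fo} (a : Fin 5), Valid d F → Good d F → 0 < d.q → a ∉ d.S →
    OK Good (d.answer a) F ∨ Al Good (d.answer a) F
  /-- Alice has a neutral move -/
  neut : ∀ {d e : Dat} {F K : Fo}, Valid d (.cons e K F) → Good d (.cons e K F) →
    Al Good d (.cons e K F)
  /-- the piece at the beginning -/
  init : ∀ {d : Dat} {F : Fo}, Valid d F → d.Clean → F.Clean → Good d F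

end Pool.Agent.GCI
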