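import Pool.Agent.GCI.LInv

/-!
# MP_f1ab9c: package LPart. The conditions hold for the parts after a move or a cut

Proofs. Unfold. `NodeOK d (l :: L)` says `d.S.card + d.w + d.q + (L.length + 1) = d.lab.deg`,
`d.lab = ctr → ctr ∉ l :: L`, `d.lab = leaf → leaf ∉ l :: L ∧ (l :: L).count ctr ≤ 1`; removing the
neighbour `l` and adding a colour (`(insert a d.S).card = d.S.card + 1`), an edge `*` or an edge `?` keeps
the sum, and the conditions on the labels get weaker. `W0` is kept by `add`; `reveal` and `answer` also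
keep the sum. In `Dat.W0` the sets of colours only grow.
-/

set_option autoImplicit false

namespace Pool.Agent.GCI

private theorem nodeOK_tail {d d' : Dat} {l : Lab} {L : List Lab} (h : NodeOK d (l :: L))
    (hl : d'.lab = d.lab)
    (hs : d'.S.card + d'.w + d'.q = d.S.card + d.w + d.q + 1) : NodeOK d' L := by
  obtain ⟨h1, h2, h3⟩ := h
  refine ⟨?_, fun hd hm => h2 (hl ▸ hd) (List.mem_cons_of_mem _ hm), fun hd => ?_⟩
  · rw [List.length_cons] at h1
    rw [hl]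
    omega
  · obtain ⟨h4, h5⟩ := h3 (hl ▸ hd)
    exact ⟨fun hm => h4 (List.mem_cons_of_mem _ hm), le_trans List.count_le_count_cons h5⟩

private theorem nodeOK_same {d d' : Dat} {L : List Lab} (h : NodeOK d L)
    (hl : d'.lab = d.lab)
    (hs : d'.S.card + d'.w + d'.q = d.S.card + d.w + d.q) : NodeOK d' L := by
  obtain ⟨h1, h2, h3⟩ := h
  refine ⟨?_, fun hd => h2 (hl ▸ hd), fun hd => h3 (hl ▸ hd)⟩
  rw [hl]
  omega

theorem NodeOK.add {d : Dat} {l : Lab} {L : List Lab} (h : NodeOK d (l :: L)) {a : Fin 5}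
    (ha : a ∉ d.S) : NodeOK (d.add a) L := by
  refine nodeOK_tail h rfl ?_
  simp only [Dat.add, Finset.card_insert_of_notMem ha]
  omega

theorem NodeOK.star {d : Dat} {l : Lab} {L : List Lab} (h : NodeOK d (l :: L)) :
    NodeOK d.star L := by
  refine nodeOK_tail h rfl ?_
  simp only [Dat.star]
  omega

theorem NodeOK.quest {d : Dat} {l : Lab} {L : List Lab} (h : NodeOK d (l :: L)) :
    NodeOK d.quest L := by
  refine nodeOK_tail h rfl ?_
  simp only [Dat.quest]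
  omega

theorem NodeOK.reveal {d : Dat} {L : List Lab} (h : NodeOK d L) {a : Fin 5}
    (ha : a ∉ d.S) (hw : 0 < d.w) : NodeOK (d.reveal a) L := by
  refine nodeOK_same h rfl ?_
  simp only [Dat.reveal, Finset.card_insert_of_notMem ha]
  omega

theorem NodeOK.answer {d : Dat} {L : List Lab} (h : NodeOK d L) {a : Fin 5}
    (ha : a ∉ d.S) (hw : 0 < d.q) : NodeOK (d.answer a) L := by
  refine nodeOK_same h rfl ?_
  simp only [Dat.answer, Finset.card_insert_of_notMem ha]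
  omega

theorem Dat.st_add {d : Dat} {a : Fin 5} (ha : a ∉ d.S) : (d.add a).st = d.st + 1 := by
  simp only [Dat.st, Dat.add, Finset.card_insert_of_notMem ha]
  omega

theorem Dat.st_answer {d : Dat} {a : Fin 5} (ha : a ∉ d.S) : (d.answer a).st = d.st + 1 := by
  simp only [Dat.st, Dat.answer, Finset.card_insert_of_notMem ha]
  omega

theorem Dat.st_reveal {d : Dat} {a : Fin 5} (ha : a ∉ d.S) (hw : 0 < d.w) :
    (d.reveal a).st = d.st := by
  simp only [Dat.st, Dat.reveal, Finset.card_insert_of_notMem ha]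
  omega

/-- a clean vertex: no coloured edges, no edges `*`, no edges `?` -/
theorem Dat.clean_of_st {d : Dat} (h : d.W0) (h0 : d.st = 0) : d.S = ∅ ∧ d.w = 0 ∧ d.q = 0 := by
  have hS : d.S = ∅ := by
    rw [← Finset.card_eq_zero]
    simp only [Dat.st] at h0
    omega
  exact ⟨hS, h.2.2.1 hS⟩

/-- a vertex with an edge `*` has weight at least `2` -/
theorem Dat.st_of_w {d : Dat} (h : d.W0) (h0 : 0 < d.w) : 2 ≤ d.st := by
  have hS : d.S.card ≠ 0 := by
    intro hc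
    have := (h.2.2.1 (Finset.card_eq_zero.1 hc)).1
    omega
  simp only [Dat.st]
  omega

theorem Dat.W0.add {d : Dat} (h : d.W0) (a : Fin 5) : (d.add a).W0 := by
  obtain ⟨h1, h2, h3, h4⟩ := h
  refine ⟨h1, h2, fun hS => absurd hS (Finset.insert_ne_empty _ _), fun hl hq => ?_⟩
  exact le_trans (h4 hl hq) (Finset.card_le_card (Finset.subset_insert _ _))

theorem Dat.W.add {d : Dat} (h : d.W) (a : Fin 5) : (d.add a).W :=
  ⟨h.1.add a, h.2.1, h.2.2⟩

theorem Dat.W.reveal {d : Dat} (h : d.W) (a : Fin 5) : (d.reveal a).W := by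
  obtain ⟨⟨h1, h2, h3, h4⟩, h5, h6⟩ := h
  refine ⟨⟨fun hd => ?_, h2, fun hS => absurd hS (Finset.insert_ne_empty _ _), fun hl hq => ?_⟩,
    ?_, h6⟩
  · have := h1 hd
    simp only [Dat.reveal]
    omega
  · exact le_trans (h4 hl hq) (Finset.card_le_card (Finset.subset_insert _ _))
  · simp only [Dat.reveal]
    omega

theorem Dat.W.answer {d : Dat} (h : d.W) (a : Fin 5) : (d.answer a).W := by
  obtain ⟨⟨h1, h2, h3, h4⟩, h5, h6⟩ := h
  refine ⟨⟨h1, fun hd => ?_, fun hS => absurd hS (Finset.insert_ne_empty _ _), fun hl hq => ?_⟩,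
    h5, ?_⟩
  · have := h2 hd
    simp only [Dat.answer]
    omega
  · have hq' : 0 < d.q := by
      simp only [Dat.answer] at hq
      omega
    exact le_trans (h4 hl hq') (Finset.card_le_card (Finset.subset_insert _ _))
  · simp only [Dat.answer]
    omega

theorem WV.wv1 {d : Dat} {F : Fo} (h : WV d F) : WV1 d F :=
  ⟨h.1, h.2.1.1, h.2.1.2.2, h.2.2⟩

theorem WV1.wv {d : Dat} {F : Fo} (h : WV1 d F) (hw : d.w ≤ 1) : WV d F :=
  ⟨h.1, ⟨h.2.1, hw, h.2.2.1⟩, h.2.2.2⟩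

theorem WV1.perm {d : Dat} {F F' : Fo} (h : WV1 d F) (hp : Fp F F') : WV1 d F' :=
  ⟨h.1.perm hp, h.2.1, h.2.2.1, hp.W h.2.2.2⟩

private theorem cls_m_deg {l : Lab} (h : l.cls = .m) : l.deg ≤ 3 := by
  cases l <;> simp_all [Lab.cls, Lab.deg]

private theorem cls_ne_m_deg {l : Lab} (h : l.cls ≠ .m) : l.deg = 4 := by
  cases l <;> simp_all [Lab.cls, Lab.deg]

private theorem deg_le (l : Lab) : l.deg ≤ 4 := by
  cases l <;> simp [Lab.deg]

/-- A root with edges `*` and with a child has only one edge `*`: the degree is at most `3` and there is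
a coloured edge. -/
theorem WV1.wle {d e : Dat} {F K : Fo} (h : WV1 d (.cons e K F)) : d.w ≤ 1 := by
  obtain ⟨⟨⟨h1, -, -⟩, -⟩, ⟨h2, h3, h4, -⟩, -, -⟩ := h
  by_cases hd : d.lab.deg = 4
  · have := h2 hd
    omega
  · by_contra hw
    have hS : d.S.card ≠ 0 := by
      intro hc
      have := (h4 (Finset.card_eq_zero.1 hc)).1
      omega
    have h5 := deg_le d.lab
    simp only [Fo.labs, List.length_cons] at h1
    omega

theorem WV1.rr {d e : Dat} {F K : Fo} (h : WV1 d (.cons e K F)) : WV1 e (.cons d F K) := by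
  have hw := h.wle
  obtain ⟨h1, h2, h3, h4, h5, h6⟩ := h
  exact ⟨h1.rr, h4.1, h4.2.2, ⟨h2, hw, h3⟩, h6, h5⟩

theorem WV1.eqv {d d' : Dat} {F F' : Fo} (h : WV1 d F) (he : Eqv d F d' F') : WV1 d' F' := by
  induction he with
  | refl => exact h
  | perm _ hp ih => exact (ih h).perm hp
  | rr _ ih => exact (ih h).rr

theorem WV.addl {d e : Dat} {F K : Fo} (h : WV d (.cons e K F)) {a : Fin 5} (ha : a ∉ d.S) :
    WV (d.add a) F :=
  ⟨⟨NodeOK.add h.1.1 ha, h.1.2.2.2⟩, h.2.1.add a, h.2.2.2.2⟩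

theorem WV.addr {d e : Dat} {F K : Fo} (h : WV d (.cons e K F)) {a : Fin 5} (ha : a ∉ e.S) :
    WV (e.add a) K :=
  ⟨⟨NodeOK.add h.1.2.1 ha, h.1.2.2.1⟩, h.2.2.1.add a, h.2.2.2.1⟩

theorem WV1.addl {d e : Dat} {F K : Fo} (h : WV1 d (.cons e K F)) {a : Fin 5} (ha : a ∉ d.S) :
    WV1 (d.add a) F :=
  ⟨⟨NodeOK.add h.1.1 ha, h.1.2.2.2⟩, h.2.1.add a, h.2.2.1, h.2.2.2.2.2⟩

theorem WV1.addr {d e : Dat} {F K : Fo} (h : WV1 d (.cons e K F)) {a : Fin 5} (ha : a ∉ e.S) :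
    WV (e.add a) K :=
  ⟨⟨NodeOK.add h.1.2.1 ha, h.1.2.2.1⟩, h.2.2.2.1.add a, h.2.2.2.2.1⟩

theorem WV.reveal {d : Dat} {F : Fo} (h : WV d F) {a : Fin 5} (ha : a ∉ d.S) (hw : 0 < d.w) :
    WV (d.reveal a) F :=
  ⟨⟨h.1.1.reveal ha hw, h.1.2⟩, h.2.1.reveal a, h.2.2⟩

theorem WV.answer {d : Dat} {F : Fo} (h : WV d F) {a : Fin 5} (ha : a ∉ d.S) (hw : 0 < d.q) :
    WV (d.answer a) F :=
  ⟨⟨h.1.1.answer ha hw, h.1.2⟩, h.2.1.answer a, h.2.2⟩

private theorem W0.quest {d : Dat} (h : d.W0) (h1 : d.lab.cls ≠ .m)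
    (h2 : d.S ≠ ∅) (h4 : d.lab.cls = .x → 2 ≤ d.S.card) : d.quest.W0 := by
  refine ⟨h.1, fun hd => absurd (cls_ne_m_deg h1) hd, fun hS => absurd hS h2, fun hl _ => ?_⟩
  refine h4 ?_
  have hl' : d.lab = .leaf := hl
  rw [hl']
  rfl

private theorem W0.star {d : Dat} (h : d.W0) (h1 : d.lab.cls = .m)
    (h2 : d.S ≠ ∅) : d.star.W0 := by
  have h3 := cls_m_deg h1
  refine ⟨fun hd => ?_, h.2.1, fun hS => absurd hS h2, fun hl _ => ?_⟩
  · have hd' : d.lab.deg = 4 := hd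
    omega
  · have hl' : d.lab = .leaf := hl
    rw [hl'] at h1
    cases h1

/-- the upper part after a cut with `?` at the upper vertex -/
theorem WV1.questl {d e : Dat} {F K : Fo} (h : WV1 d (.cons e K F)) (h1 : d.lab.cls ≠ .m)
    (h2 : d.S ≠ ∅) (h3 : d.q = 0) (h4 : d.lab.cls = .x → 2 ≤ d.S.card) : WV1 d.quest F := by
  refine ⟨⟨NodeOK.quest h.1.1, h.1.2.2.2⟩, W0.quest h.2.1 h1 h2 h4, ?_, h.2.2.2.2.2⟩
  simp only [Dat.quest]
  omega

/-- the lower part after a cut with `?` at the upper vertex -/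
theorem WV1.starr {d e : Dat} {F K : Fo} (h : WV1 d (.cons e K F)) (h1 : e.lab.cls = .m)
    (h2 : e.S ≠ ∅) : WV1 e.star K :=
  ⟨⟨NodeOK.star h.1.2.1, h.1.2.2.1⟩, W0.star h.2.2.2.1.1 h1 h2, h.2.2.2.1.2.2, h.2.2.2.2.1⟩

/-- the upper part after a cut with `*` at the upper vertex -/
theorem WV1.starl {d e : Dat} {F K : Fo} (h : WV1 d (.cons e K F)) (h1 : d.lab.cls = .m)
    (h2 : d.S ≠ ∅) : WV1 d.star F :=
  ⟨⟨NodeOK.star h.1.1, h.1.2.2.2⟩, W0.star h.2.1 h1 h2, h.2.2.1, h.2.2.2.2.2⟩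

/-- the lower part after a cut with `*` at the upper vertex -/
theorem WV1.questr {d e : Dat} {F K : Fo} (h : WV1 d (.cons e K F)) (h1 : e.lab.cls ≠ .m)
    (h2 : e.S ≠ ∅) (h3 : e.q = 0) (h4 : e.lab.cls = .x → 2 ≤ e.S.card) : WV1 e.quest K := by
  refine ⟨⟨NodeOK.quest h.1.2.1, h.1.2.2.1⟩, W0.quest h.2.2.2.1.1 h1 h2 h4, ?_, h.2.2.2.2.1⟩
  simp only [Dat.quest]
  omega

theorem Imm.of_cls {d e : Dat} (h1 : e.lab.cls = .m) {a : Fin 5} (hd : a ∈ d.S) (he : a ∈ e.S) :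
    Imm d e := by
  have h2 := cls_m_deg h1
  have h3 := deg_le d.lab
  have h4 : 0 < (d.S ∩ e.S).card := Finset.card_pos.2 ⟨a, Finset.mem_inter.2 ⟨hd, he⟩⟩
  simp only [Imm]
  omega

theorem Imm.symm {d e : Dat} (h : Imm d e) : Imm e d := by
  simp only [Imm] at h ⊢
  rw [Finset.inter_comm]
  omega

theorem Imm.add {d e : Dat} (h : Imm d e) (a : Fin 5) : Imm (d.add a) e := by
  have h1 : (d.S ∩ e.S).card ≤ (insert a d.S ∩ e.S).card :=
    Finset.card_le_card (Finset.inter_subset_inter_right (Finset.subset_insert _ _))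
  simp only [Imm, Dat.add] at h ⊢
  omega

/-- the conditions on the branches of a piece -/
theorem WV.bv {d e : Dat} {F K : Fo} (h : WV d (.cons e K F)) : BV d.lab e K :=
  ⟨h.1.2.1, h.1.2.2.1, h.2.2.1, h.2.2.2.1⟩

theorem BV.bv {p : Lab} {e f : Dat} {L M L0 : Fo} (h : BV p e L) (hp : Fp L (.cons f M L0)) :
    BV e.lab f M := by
  obtain ⟨-, h2, -, h4⟩ := h
  have h5 := hp.Val h2
  have h6 := hp.W h4
  exact ⟨h5.1, h5.2.1, h6.1, h6.2.1⟩

end Pool.Agent.GCI
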