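import Pool.Agent.GCI.LTra
import Pool.Agent.GCI.LPart

/-!
# MP_f1ab9c: package LGam. The upper part after a move

Bob colours the edge between `p` and `c` with `a`. The upper part `(p.add a, A)`, seen from `u`, is
the old piece with the branch `(e', L')` instead of `(e, L)`.

Proofs.
* `Loc.gamma`: induction on `Loc`. `here`: `p = e`, `Fp L (cons c K B)`, `A = cons u U B`:
  `e' = e.add a`, `L' = B`; `(e.add a, cons u U B)` is `Eqv` to `(u, cons (e.add a) B U)` (`rr`). In
  another environment `(u2, U2)`: `A2 = cons u2 U2 B`: `(e, cons c K (cons u2 U2 B))` is `Eqv` to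
  `(e, cons u2 U2 L)` by a permutation, then `rr`. Weights: `L.wt = c.st + K.wt + B.wt`.
  `down`: `Fp L (cons f M L0)`, `Loc p c K e (cons u U L0) f M A`; the induction hypothesis gives
  `(f', M')` and `Eqv (p.add a) A e (cons f' M' (cons u U L0))`, and this is `Eqv` to
  `(u, cons e (cons f' M' L0) U)` (`Eqv.branch`): `e' = e`, `L' = cons f' M' L0`. Weights: in both
  cases of the induction hypothesis `f'.st + M'.wt + (c.st + K.wt) = f.st + M.wt + 1` (`Dat.st_add`,
  in the first case `f = p`). In another environment `(u2, U2)` use the last part of the induction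
  hypothesis for the environment `(e, cons u2 U2 L0)` and again `Eqv.branch`, and the permutation
  `Fp L (cons f M L0)` of the children of `e` (go to the root `e`, permute, go back).
  `NW`: `L'` is obtained from `L` by removing a branch and adding a colour.
* `VLoc.gamma`: the same with `p.answer a` (`Dat.st_answer`): `here`: `e' = e.answer a`, `L' = L`.
* `VLoc.st_le`, `VLoc.q0`: induction.
-/

set_option autoImplicit false

namespace Pool.Agent.GCI

private theorem lgFpSymm {F F' : Fo} (h : Fp F F') : Fp F' F := fp_iff.2 (fp_iff.1 h).symm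

/-- permute the children of a child of the root -/
private theorem lgIn {u e : Dat} {U L L' : Fo} (h : Fp L L') :
    Eqv u (.cons e L U) u (.cons e L' U) := by
  have h1 : Eqv u (.cons e L U) e (.cons u U L) := Eqv.rr1 u e U L
  have h2 : Eqv e (.cons u U L) e (.cons u U L') := Eqv.ofFp (Fp.cons u U h)
  have h3 : Eqv e (.cons u U L') u (.cons e L' U) := Eqv.rr1 e u L' U
  exact (h1.trans h2).trans h3

theorem Loc.gamma {p c : Dat} {K : Fo} {u : Dat} {U : Fo} {e : Dat} {L A : Fo}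
    (h : Loc p c K u U e L A) {a : Fin 5} (ha : a ∉ p.S) : ∃ (e' : Dat) (L' : Fo),
      Eqv (p.add a) A u (.cons e' L' U) ∧ e'.lab = e.lab ∧ c.st + K.wt ≤ L.wt ∧
      ((p = e ∧ e' = e.add a ∧ L'.wt + (c.st + K.wt) = L.wt) ∨
        (e' = e ∧ L'.wt + (c.st + K.wt) = L.wt + 1)) ∧
      (L.NW → L'.NW) ∧
      ∀ (u2 : Dat) (U2 : Fo), ∃ A2, Eqv p (.cons c K A2) u2 (.cons e L U2) ∧
        Eqv (p.add a) A2 u2 (.cons e' L' U2) := by
  induction h with
  | @here u U L B hp =>
    have hw : L.wt = c.st + K.wt + B.wt := hp.wt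
    refine ⟨p.add a, B, Eqv.rr1 _ _ _ _, rfl, by omega, Or.inl ⟨rfl, rfl, by omega⟩,
      fun hn => (hp.NW hn).2.2, fun u2 U2 => ⟨.cons u2 U2 B, ?_, Eqv.rr1 _ _ _ _⟩⟩
    have h1 : Eqv p (.cons c K (.cons u2 U2 B)) p (.cons u2 U2 (.cons c K B)) :=
      Eqv.ofFp (Fp.swap c u2 K U2 B)
    have h2 : Eqv p (.cons u2 U2 (.cons c K B)) p (.cons u2 U2 L) :=
      Eqv.ofFp (Fp.cons u2 U2 (lgFpSymm hp))
    exact (h1.trans h2).trans (Eqv.rr1 _ _ _ _)
  | @down u e f U L M L0 A hp hl ih =>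
    obtain ⟨f', M', h1, h2, h3, h4, h5, h6⟩ := ih
    have hw : L.wt = f.st + M.wt + L0.wt := hp.wt
    have hw' : (Fo.cons f' M' L0).wt = f'.st + M'.wt + L0.wt := rfl
    refine ⟨e, .cons f' M' L0, h1.trans (Eqv.branch _ _ _ _ _ _), rfl, by omega, Or.inr ⟨rfl, ?_⟩,
      fun hn => ?_, fun u2 U2 => ?_⟩
    · rw [hw', hw]
      rcases h4 with ⟨h4, h7, h8⟩ | ⟨h7, h8⟩
      · subst h4
        rw [h7, Dat.st_add ha]
        omega
      · rw [h7]
        omega
    · obtain ⟨h7, h8, h9⟩ := hp.NW hn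
      refine ⟨?_, h5 h8, h9⟩
      rcases h4 with ⟨_, h10, _⟩ | ⟨h10, _⟩
      · rw [h10]
        exact h7
      · rw [h10]
        exact h7
    · obtain ⟨A2, h7, h8⟩ := h6 e (.cons u2 U2 L0)
      refine ⟨A2, ?_, h8.trans (Eqv.branch _ _ _ _ _ _)⟩
      exact (h7.trans (Eqv.branch _ _ _ _ _ _)).trans (lgIn (lgFpSymm hp))

theorem VLoc.gamma {p u : Dat} {U : Fo} {e : Dat} {L X : Fo} (h : VLoc p u U e L X) {a : Fin 5}
    (ha : a ∉ p.S) : ∃ (e' : Dat) (L' : Fo), Eqv (p.answer a) X u (.cons e' L' U) ∧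
      e'.lab = e.lab ∧ ((p = e ∧ e' = e.answer a ∧ L' = L) ∨ (e' = e ∧ L'.wt = L.wt + 1)) ∧
      (L.NW → L'.NW) := by
  induction h with
  | @here u U L =>
    exact ⟨p.answer a, L, Eqv.rr1 _ _ _ _, rfl, Or.inl ⟨rfl, rfl, rfl⟩, fun hn => hn⟩
  | @down u e f U L M L0 X hp hl ih =>
    obtain ⟨f', M', h1, h2, h4, h5⟩ := ih
    have hw : L.wt = f.st + M.wt + L0.wt := hp.wt
    have hw' : (Fo.cons f' M' L0).wt = f'.st + M'.wt + L0.wt := rfl
    refine ⟨e, .cons f' M' L0, h1.trans (Eqv.branch _ _ _ _ _ _), rfl, Or.inr ⟨rfl, ?_⟩,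
      fun hn => ?_⟩
    · rw [hw', hw]
      rcases h4 with ⟨h4, h7, h8⟩ | ⟨h7, h8⟩
      · subst h4
        rw [h7, h8, Dat.st_answer ha]
        omega
      · rw [h7]
        omega
    · obtain ⟨h7, h8, h9⟩ := hp.NW hn
      refine ⟨?_, h5 h8, h9⟩
      rcases h4 with ⟨_, h10, _⟩ | ⟨h10, _⟩
      · rw [h10]
        exact h7
      · rw [h10]
        exact h7

/-- the whole piece seen from the vertex -/
theorem VLoc.eqv {p u : Dat} {U : Fo} {e : Dat} {L X : Fo} (h : VLoc p u U e L X) :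
    Eqv p X u (.cons e L U) := by
  induction h with
  | here => exact Eqv.rr1 _ _ _ _
  | down hp hl ih => exact (ih.trans (Eqv.branch _ _ _ _ _ _)).trans (lgIn (lgFpSymm hp))

/-- the whole piece seen from the upper vertex of the edge -/
theorem Loc.eqv {p c : Dat} {K : Fo} {u : Dat} {U : Fo} {e : Dat} {L A : Fo}
    (h : Loc p c K u U e L A) : Eqv p (.cons c K A) u (.cons e L U) := by
  induction h with
  | @here u U L B hp =>
    have h1 : Eqv p (.cons c K (.cons u U B)) p (.cons u U (.cons c K B)) :=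
      Eqv.ofFp (Fp.swap c u K U B)
    have h2 : Eqv p (.cons u U (.cons c K B)) p (.cons u U L) :=
      Eqv.ofFp (Fp.cons u U (lgFpSymm hp))
    exact (h1.trans h2).trans (Eqv.rr1 _ _ _ _)
  | down hp hl ih => exact (ih.trans (Eqv.branch _ _ _ _ _ _)).trans (lgIn (lgFpSymm hp))

theorem LocR.eqv {p c : Dat} {K : Fo} {d : Dat} {F A : Fo}
    (h : LocR p c K d F A) : Eqv p (.cons c K A) d F := by
  cases h with
  | root hp => exact Eqv.ofFp (lgFpSymm hp)
  | down hp hl => exact hl.eqv.trans (Eqv.ofFp (lgFpSymm hp))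

theorem VLocR.eqv {p : Dat} {d : Dat} {F X : Fo} (h : VLocR p d F X) : Eqv p X d F := by
  cases h with
  | root hp => exact Eqv.ofFp (lgFpSymm hp)
  | down hp hl => exact hl.eqv.trans (Eqv.ofFp (lgFpSymm hp))

theorem VLoc.st_le {p u : Dat} {U : Fo} {e : Dat} {L X : Fo} (h : VLoc p u U e L X) :
    p.st ≤ e.st + L.wt := by
  induction h with
  | here => omega
  | @down u e f U L M L0 X hp hl ih =>
    have hw : L.wt = f.st + M.wt + L0.wt := hp.wt
    omega

/-- in a clean branch there are no edges `?` -/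
theorem VLoc.q0 {p u : Dat} {U : Fo} {e : Dat} {L X : Fo} (h : VLoc p u U e L X)
    (he : e.W) (hL : L.W) (h0 : e.st + L.wt = 0) : p.q = 0 := by
  induction h with
  | here => exact (Dat.clean_of_st he.1 (by omega)).2.2
  | @down u e f U L M L0 X hp hl ih =>
    have hw : L.wt = f.st + M.wt + L0.wt := hp.wt
    obtain ⟨h1, h2, _⟩ := hp.W hL
    exact ih h1 h2 (by omega)

/-- in a branch without edges `*` -/
theorem VLoc.w0 {p u : Dat} {U : Fo} {e : Dat} {L X : Fo} (h : VLoc p u U e L X)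
    (he : e.w = 0) (hL : L.NW) : p.w = 0 := by
  induction h with
  | here => exact he
  | @down u e f U L M L0 X hp hl ih =>
    obtain ⟨h1, h2, _⟩ := hp.NW hL
    exact ih h1 h2

theorem Loc.p_st {p c : Dat} {K : Fo} {u : Dat} {U : Fo} {e : Dat} {L A : Fo}
    (h : Loc p c K u U e L A) : p.st + c.st ≤ e.st + L.wt := by
  induction h with
  | @here u U L B hp =>
    have hw : L.wt = c.st + K.wt + B.wt := hp.wt
    omega
  | @down u e f U L M L0 A hp hl ih =>
    have hw : L.wt = f.st + M.wt + L0.wt := hp.wt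
    omega

end Pool.Agent.GCI
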