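import Pool.Agent.GCI.LCmp
import Pool.Agent.GCI.LGam

/-!
# MP_f1ab9c: package LB0. Bob colours an edge at the root, or in a clean branch at the root

Proofs.
* `bob_root`: `Ks.perm`, then `Ks.inv` for the forest `cons c K A`.
  - clean: `Tab.free`; `used < deg`: `NodeOK d (c.lab :: A.labs)` and `Ks.len` for `A`. Upper part
    `(d.add a, A)` described by `{ R with s := ad R.s a }` (`DS.add`): `AnsS.sound`. Lower part of weight `1`
    (`OK.small`).
  - `R.k.Perm (k :: κ)`, `IsK k c K`, `Ks κ A`. Not far: `Tab.near` (`DS.mem`, `DK.mem`): upper part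
    described by `{ R with s := ad R.s a, k := κ }`, lower part by `⟨k.l, ad k.s a, 0, k.q, k.t.map up⟩`
    (`K0s.up`, `DK.ds`). Far: `Tab.far`; the lower part has weight `1 + 1`.
* `bob_clean`: `Loc.gamma`: `Eqv (p.add a) A d (cons e' L' F0)`; `c.st + K.wt = 0`, `L'.wt = 0` or `L'.wt = 1`;
  `K0.new_of` gives `n`; the piece `(d, cons e' L' F0)` is described by `{ R with k := n.up :: R.k }`
  (`IsK0.up`, `Ks.addKid`): `Tab.new` (its condition `V` from `RS.V`), `AnsS.sound`, `OK.eqv`, `Al.eqv`.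
  `WV` of the upper part: `Loc.eqv`, `WV.eqv`, `WV.addl`. The lower part has weight `1` (`WV.addr`).
-/

set_option autoImplicit false

namespace Pool.Agent.GCI

theorem Tab.wf' {T : St → Prop} (hT : Tab T) : ∀ R : St, T R → R.w ≤ 1 ∧ R.q ≤ 1 :=
  fun R h => ⟨(hT.wf R h).1, (hT.wf R h).2.1⟩

theorem K0.New.wt {n : K0} (h : n.New) : n.wt = 1 := by
  obtain ⟨-, h | h⟩ := h
  · simp [K0.wt, h]
  · unfold K0.wt
    split_ifs with h0
    · rfl
    · exact h

private theorem deg_le_cls (l : Lab) : l.deg ≤ l.cls.deg := by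
  cases l <;> decide

theorem bob_root {T : St → Prop} (hT : Tab T) {R : St} (hR : T R) {d c : Dat} {F K A : Fo}
    (h : RS R d F) (hw : WV d F) (hF : Fp F (.cons c K A)) {a : Fin 5} (hd : a ∉ d.S)
    (hc : a ∉ c.S) : Ans2 (Gd T) (d.add a) A (c.add a) K := by
  have hV : R.V [] := RS.V h hw
  have hw' : WV d (.cons c K A) := hw.perm hF
  have hds : DS R d := ⟨h.1, h.2.1, h.2.2.1, h.2.2.2.1⟩
  have hks : Ks (R.k : Multiset Kd) (.cons c K A) := h.2.2.2.2.perm hF
  have haR : ¬ hs R.s a := (hds.mem a).2 hd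
  have hwl : WV (d.add a) A := hw'.addl hd
  have hwr : WV (c.add a) K := hw'.addr hc
  rcases hks.inv with ⟨h1, h2, h3⟩ | ⟨k, κ, hp, hk, hA⟩
  · have hlow : OK (Gd T) (c.add a) K := OK.small hwr (by rw [Dat.st_add hc]; omega)
    have hlt : R.used < R.l.deg := by
      have e1 : d.S.card + d.w + d.q + (A.labs.length + 1) = d.lab.deg := hw'.1.1.1
      have e2 := h3.len
      have e3 := deg_le_cls d.lab
      rw [hds.1] at e3
      have e4 : pc R.s = d.S.card := by rw [← hds.2.1, pc_mask]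
      have e5 := hds.2.2.1
      have e6 := hds.2.2.2
      unfold St.used
      omega
    have hRS : RS { R with s := ad R.s a } (d.add a) A := RS.mk' (hds.add a R.k) h3
    rcases (hT.free R a hR hV hlt haR).sound hT.wf' hRS hwl.wv1 with h | h
    · exact Or.inl ⟨h, hlow⟩
    · exact Or.inr (Or.inr ⟨h, hlow⟩)
  · have hRS : RS { R with s := ad R.s a, k := κ } (d.add a) A := RS.mk' (hds.add a κ) hA
    by_cases hf : k.Far
    · have hlow : OK (Gd T) (c.add a) K := by
        obtain ⟨-, -, -, h4, h5, -⟩ := hk.far hf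
        exact OK.small hwr (by rw [Dat.st_add hc]; omega)
      rcases (hT.far R k κ a hR hV hp hf haR).sound hT.wf' hRS hwl.wv1 with h | h
      · exact Or.inl ⟨h, hlow⟩
      · exact Or.inr (Or.inr ⟨h, hlow⟩)
    · obtain ⟨hdk, hkk⟩ := hk.near hf
      have hak : ¬ hs k.s a := (hdk.mem a).2 hc
      have hRS2 : RS ⟨k.l, ad k.s a, 0, k.q, k.t.map K0.up⟩ (c.add a) K :=
        RS.mk' (hdk.ds a (k.t.map K0.up)) hkk.up
      rcases hT.near R k κ a hR hV hp hf haR hak with ⟨g1, g2⟩ | ⟨g1, g2⟩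
      · have o1 := g1.sound hT.wf' hRS hwl.wv1
        rcases g2.sound hT.wf' hRS2 hwr.wv1 with o2 | o2
        · exact Or.inl ⟨o1, o2⟩
        · exact Or.inr (Or.inl ⟨o1, o2⟩)
      · have o2 := g2.sound hT.wf' hRS2 hwr.wv1
        rcases g1.sound hT.wf' hRS hwl.wv1 with o1 | o1
        · exact Or.inl ⟨o1, o2⟩
        · exact Or.inr (Or.inr ⟨o1, o2⟩)

theorem bob_clean {T : St → Prop} (hT : Tab T) {R : St} (hR : T R) {d e p c : Dat}
    {F0 L K A : Fo} (hd : DS R d) (hκ : Ks (R.k : Multiset Kd) F0) (he : e.st = 0)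
    (hL : L.wt = 0) (hw : WV d (.cons e L F0)) (hl : Loc p c K d F0 e L A) {a : Fin 5}
    (hp : a ∉ p.S) (hc : a ∉ c.S) : Ans2 (Gd T) (p.add a) A (c.add a) K := by
  obtain ⟨e', L', hE, hlab, hle, hcase, hnw, -⟩ := hl.gamma hp
  have hcK : c.st + K.wt = 0 := by omega
  have hw2 : WV p (.cons c K A) := hw.eqv hl.eqv.symm
  have hwu : WV (p.add a) A := hw2.addl hp
  have hwl : WV (c.add a) K := hw2.addr hc
  have hlow : OK (Gd T) (c.add a) K := OK.small hwl (by rw [Dat.st_add hc]; omega)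
  have heW0 : e.W0 := hw.2.2.1.1
  have hcase' : (e' = e.add a ∧ L'.wt = 0) ∨ (e' = e ∧ L'.wt = 1) := by
    rcases hcase with ⟨-, h1, h2⟩ | ⟨h1, h2⟩
    · exact Or.inl ⟨h1, by omega⟩
    · exact Or.inr ⟨h1, by omega⟩
  obtain ⟨n, hn, hnew, -⟩ := K0.new_of heW0 he hcase'
  have hks : Ks ((n.up :: R.k : List Kd) : Multiset Kd) (.cons e' L' F0) :=
    Ks.addKid (IsK0.up.2 hn) hκ
  have hRS : RS { R with k := n.up :: R.k } d (.cons e' L' F0) :=
    ⟨hd.1, hd.2.1, hd.2.2.1, hd.2.2.2, hks⟩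
  have hwE : WV d (.cons e' L' F0) := hwu.eqv hE
  have hV : ({ R with k := n.up :: R.k } : St).V [] := RS.V hRS hwE
  rcases (hT.new R n hR hV hnew).sound hT.wf' hRS hwE.wv1 with h | h
  · exact Or.inl ⟨h.eqv hE.symm, hlow⟩
  · exact Or.inr (Or.inr ⟨h.eqv hE.symm, hlow⟩)

end Pool.Agent.GCI
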