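import Pool.Agent.GCI.LB0

/-!
# MP_f1ab9c: package LB1. Bob colours an edge at an explicit kid, or in a clean branch at it

Setting: the root `d` is described by `R` (`T R`), `R.k.Perm (k :: κ)`, `k` not far, `Ks κ F0`, the kid `e` is
described by `k` and its branches `L` by `k.t`.
Proofs.
* `bob_kid_here`: `p = e`, the edge goes to the tree `(c, K)` of `L`, the upper part is
  `(e.add a, cons d F0 B)`, `Eqv` to `(d, cons (e.add a) B F0)`. `K0s.perm`, `K0s.inv` for `cons c K B`.
  - clean: `Tab.kfree`: `pc k.s + k.q + k.t.length + 1 < k.l.deg` from `NodeOK e (d.lab :: L.labs)`,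
    `L.labs.length = B.labs.length + 1`, `K0s.len`; star `{ R with k := { k with s := ad k.s a } :: κ }`
    (`IsK.of_near`, `DK.add`). Lower part of weight `1`.
  - `k.t.Perm (z :: τ)`, `IsK0 z c K`, `K0s τ B`: `Tab.scol`: star
    `{ R with k := { k with s := ad k.s a, t := τ } :: κ }`. Lower part of weight `z.wt + 1 = 2` (`Tab.wf`,
    `K0.New.wt`, `IsK0.wt`).
* `bob_kid_clean`: the edge lies in the clean branch `(f, M)` at `e`. `Loc.gamma`, `K0.new_of`: the new piece
  seen from `e` is `(e, cons f' M' (cons d F0 L0))`, `Eqv` to `(d, cons e (cons f' M' L0) F0)` (`Eqv.branch`),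
  described by `{ R with k := { k with t := n :: k.t } :: κ }` (`K0s.addKid`): `Tab.att` (its condition
  `Kd.V R.l` from `Kd.V_of`, `WV.bv`), `AnsS.sound`. Lower part of weight `1`.
-/

set_option autoImplicit false

namespace Pool.Agent.GCI

private theorem deg_le_cls (l : Lab) : l.deg ≤ l.cls.deg := by
  cases l <;> decide

theorem bob_kid_here {T : St → Prop} (hT : Tab T) {R : St} (hR : T R) {k : Kd} {κ : List Kd}
    (hk : R.k.Perm (k :: κ)) (hf : ¬ k.Far) {d e c : Dat} {F0 L K B : Fo} (hd : DS R d)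
    (hκ : Ks (κ : Multiset Kd) F0) (he : DK k e) (ht : K0s (k.t : Multiset K0) L)
    (hw : WV d (.cons e L F0)) (hL : Fp L (.cons c K B)) {a : Fin 5} (hp : a ∉ e.S)
    (hc : a ∉ c.S) : Ans2 (Gd T) (e.add a) (.cons d F0 B) (c.add a) K := by
  have hT' := Tab.wf' hT
  have hLw := hL.wt
  simp only [Fo.wt] at hLw
  -- the whole piece seen from `e`
  have hE : Eqv d (.cons e L F0) e (.cons c K (.cons d F0 B)) :=
    (((Eqv.refl d (.cons e L F0)).rr).perm (Fp.cons d F0 hL)).perm (Fp.swap _ _ _ _ _)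
  have hwp : WV e (.cons c K (.cons d F0 B)) := hw.eqv hE
  have hwl : WV (e.add a) (.cons d F0 B) := hwp.addl hp
  have hwr : WV (c.add a) K := hwp.addr hc
  have hKk : IsK k e L := IsK.of_near he ht hf
  have hV : R.V [] := RS.V (RS.mk' hd ((Ks.addKid hKk hκ).permList hk.symm)) hw
  have hE2 : Eqv (e.add a) (.cons d F0 B) d (.cons (e.add a) B F0) := Eqv.rr1 _ _ _ _
  have hw2 := hwl.eqv hE2
  have hak : ¬ hs k.s a := (he.mem a).2 hp
  have hbv : BV d.lab e L := hw.bv
  have ht' : K0s (k.t : Multiset K0) (.cons c K B) := ht.perm hL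
  have hfar : ∀ τ : List K0, ¬ ({ k with s := ad k.s a, t := τ } : Kd).Far := by
    rintro τ ⟨h, -⟩
    exact ad_ne_zero _ _ h
  rcases ht'.inv with ⟨h1, h2, h3⟩ | ⟨z, τ, hz, hzc, hτ⟩
  · have hlow : OK (Gd T) (c.add a) K := OK.small hwr (by rw [Dat.st_add hc]; omega)
    have hdeg : pc k.s + k.q + k.t.length + 1 < k.l.deg := by
      have e1 := hbv.1.1
      have e2 : L.labs.length = B.labs.length + 1 := by
        rw [hL.labs.length_eq]
        simp [Fo.labs]
      have e3 := deg_le_cls e.lab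
      rw [he.1] at e3
      have e4 : pc k.s = e.S.card := by rw [← he.2.1, pc_mask]
      have e5 : e.w = 0 := he.2.2.1
      have e6 : e.q = k.q := he.2.2.2
      have e7 := h3.len
      simp only [List.length_cons] at e1
      omega
    have hk2 : IsK { k with s := ad k.s a } (e.add a) B :=
      IsK.of_near (he.add a k.t) h3 (hfar k.t)
    have hR2 : RS { R with k := { k with s := ad k.s a } :: κ } d (.cons (e.add a) B F0) :=
      RS.mk' hd (Ks.addKid hk2 hκ)
    rcases AnsS.sound hT' (hT.kfree R k κ a hR hV hk hf hdeg hak) hR2 hw2.wv1 with h | h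
    · exact Or.inl ⟨h.eqv hE2.symm, hlow⟩
    · exact Or.inr (Or.inr ⟨h.eqv hE2.symm, hlow⟩)
  · have hzn : z.New :=
      (hT.wf R hR).2.2 k (hk.mem_iff.2 List.mem_cons_self) z
        (hz.mem_iff.2 List.mem_cons_self)
    have hlow : OK (Gd T) (c.add a) K := by
      have e1 := hzc.wt
      have e2 := hzn.wt
      exact OK.small hwr (by rw [Dat.st_add hc]; omega)
    have hk2 : IsK { k with s := ad k.s a, t := τ } (e.add a) B :=
      IsK.of_near (he.add a τ) hτ (hfar τ)
    have hR2 : RS { R with k := { k with s := ad k.s a, t := τ } :: κ } d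
        (.cons (e.add a) B F0) := RS.mk' hd (Ks.addKid hk2 hκ)
    have haz : ¬ hs z.s a := by
      rw [← hzc.2.1, hs_mask]
      exact hc
    rcases AnsS.sound hT' (hT.scol R k κ z τ a hR hV hk hz hak haz) hR2 hw2.wv1 with h | h
    · exact Or.inl ⟨h.eqv hE2.symm, hlow⟩
    · exact Or.inr (Or.inr ⟨h.eqv hE2.symm, hlow⟩)

theorem bob_kid_clean {T : St → Prop} (hT : Tab T) {R : St} (hR : T R) {k : Kd}
    {κ : List Kd} (hk : R.k.Perm (k :: κ)) (hf : ¬ k.Far) {d e f p c : Dat}
    {F0 L L0 M K A : Fo} (hd : DS R d) (hκ : Ks (κ : Multiset Kd) F0) (he : DK k e)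
    (hL : Fp L (.cons f M L0)) (ht : K0s (k.t : Multiset K0) L0) (hf0 : f.st = 0)
    (hM : M.wt = 0) (hw : WV d (.cons e L F0)) (hl : Loc p c K e (.cons d F0 L0) f M A)
    {a : Fin 5} (hp : a ∉ p.S) (hc : a ∉ c.S) : Ans2 (Gd T) (p.add a) A (c.add a) K := by
  have hT' := Tab.wf' hT
  -- the whole piece seen from `e`
  have hE : Eqv d (.cons e L F0) e (.cons f M (.cons d F0 L0)) :=
    (((Eqv.refl d (.cons e L F0)).rr).perm (Fp.cons d F0 hL)).perm (Fp.swap _ _ _ _ _)
  have hwp : WV p (.cons c K A) := hw.eqv (hE.trans hl.eqv.symm)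
  have hwl : WV (p.add a) A := hwp.addl hp
  have hwr : WV (c.add a) K := hwp.addr hc
  obtain ⟨f', M', hE1, -, hcK, hcase, -, -⟩ := hl.gamma hp
  have hlow : OK (Gd T) (c.add a) K := by
    refine OK.small hwr ?_
    rw [Dat.st_add hc]
    omega
  have htL : K0s (k.t : Multiset K0) L := (K0s.cln hf0 hM ht).perm hL.symm
  have hV : R.V [] :=
    RS.V (RS.mk' hd ((Ks.addKid (IsK.of_near he htL hf) hκ).permList hk.symm)) hw
  have hbf : BV e.lab f M := hw.bv.bv hL
  have hnew : (f' = f.add a ∧ M'.wt = 0) ∨ (f' = f ∧ M'.wt = 1) := by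
    rcases hcase with ⟨-, h1, h2⟩ | ⟨h1, h2⟩
    · exact Or.inl ⟨h1, by omega⟩
    · exact Or.inr ⟨h1, by omega⟩
  obtain ⟨n, hn, hnn, -⟩ := K0.new_of hbf.2.2.1.1 hf0 hnew
  have hE2 : Eqv (p.add a) A d (.cons e (.cons f' M' L0) F0) :=
    hE1.trans (Eqv.branch d e f' F0 M' L0)
  have hw2 := hwl.eqv hE2
  have hk2 : IsK { k with t := n :: k.t } e (.cons f' M' L0) := by
    refine IsK.of_near he (K0s.addKid hn ht) ?_
    rintro ⟨-, h⟩
    simp at h
  have hR2 : RS { R with k := { k with t := n :: k.t } :: κ } d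
      (.cons e (.cons f' M' L0) F0) := RS.mk' hd (Ks.addKid hk2 hκ)
  have hkV : ({ k with t := n :: k.t } : Kd).V R.l := by
    have h := Kd.V_of hw2.bv hk2
    rw [hd.1] at h
    exact h
  rcases AnsS.sound hT' (hT.att R k κ n hR hV hk hf hnn hkV) hR2 hw2.wv1 with h | h
  · exact Or.inl ⟨h.eqv hE2.symm, hlow⟩
  · exact Or.inr (Or.inr ⟨h.eqv hE2.symm, hlow⟩)

end Pool.Agent.GCI
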