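import Pool.Agent.GCI.LOKs

/-!
# MP_f1ab9c: package LPath. Soundness of `Path`

The piece is `(d, cons e (cons f M L0) F0)`: the root `d` is described by `R`, its kid `e` by `k` and the
vertex `f` below `e` is the root of the star `Z`. It is `Eqv` to `(e, cons f M (cons d F0 L0))`
(`Eqv.branch`).
* First alternative of `Path`: Alice colours the edge `e f` with `a`. Upper part
  `(e.add a, cons d F0 L0)`, `Eqv` to `(d, cons (e.add a) L0 F0)`, described by
  `{ R with k := { k with s := ad k.s a, t := τ } :: κ }` (`IsK.of_near`, `DK.add`, not far since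
  `ad k.s a ≠ 0`). Lower part `(f.add a, M)` described by `{ Z with s := ad Z.s a }`. Use `OKs.sound` twice
  and `Al.here`, `Al.eqv`. `WV1` of the parts: `WV1` of the whole piece and `d.w ≤ 1` give `WV` (`WV1.wv`),
  then `WV.eqv`, `WV.addl`, `WV.addr`.
* Second alternative: cut the edge with `?` at `e` (`OK.cut'`, `Imm.of_cls` since `Z.l = m`): upper part
  `(e.quest, cons d F0 L0)`, `Eqv` to `(d, cons e.quest L0 F0)`, described by
  `{ R with k := { k with q := 1, t := τ } :: κ }`, lower part `f.star` described by `{ Z with w := Z.w + 1 }`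
  (`WV1.questl`, `WV1.starr` for the piece seen from `e`; `qNew` gives the assumptions).
-/

set_option autoImplicit false

namespace Pool.Agent.GCI

theorem Path.sound {T : St → Prop} (hT : ∀ R : St, T R → R.w ≤ 1 ∧ R.q ≤ 1) {R Z : St}
    {κ : List Kd} {k : Kd} {τ : List K0} (h : Path T R κ k τ Z) {d e f : Dat} {F0 L0 M : Fo}
    (hd : DS R d) (hκ : Ks (κ : Multiset Kd) F0) (he : DK k e)
    (hτ : K0s (τ : Multiset K0) L0) (hZ : RS Z f M)
    (hw : WV d (.cons e (.cons f M L0) F0)) :
    OK (Gd T) d (.cons e (.cons f M L0) F0) ∨ Al (Gd T) d (.cons e (.cons f M L0) F0) := by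
  have E : Eqv e (.cons f M (.cons d F0 L0)) d (.cons e (.cons f M L0) F0) :=
    Eqv.branch d e f F0 M L0
  have hw' : WV e (.cons f M (.cons d F0 L0)) := hw.eqv E.symm
  have hZd : DS Z f := ⟨hZ.1, hZ.2.1, hZ.2.2.1, hZ.2.2.2.1⟩
  have hZk : Ks (Z.k : Multiset Kd) M := hZ.2.2.2.2
  rcases h with ⟨a, hka, hZa, h1, h2⟩ | ⟨hq, hkq, hZl, ⟨a, hka, hZa⟩, h1, h2⟩
  · -- Alice colours the edge
    right
    have hae : a ∉ e.S := (he.mem a).1 hka
    have haf : a ∉ f.S := (hZd.mem a).1 hZa
    have hup : WV (e.add a) (.cons d F0 L0) := hw'.addl hae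
    have hlo : WV (f.add a) M := hw'.addr haf
    have hk : IsK { k with s := ad k.s a, t := τ } (e.add a) L0 :=
      IsK.of_near (he.add a τ) hτ fun hf => ad_ne_zero _ _ hf.1
    have hR : RS { R with k := { k with s := ad k.s a, t := τ } :: κ } d
        (.cons (e.add a) L0 F0) := RS.mk' hd (Ks.addKid hk hκ)
    have hR' : RS { Z with s := ad Z.s a } (f.add a) M := RS.mk' (hZd.add a Z.k) hZk
    have o1 : OK (Gd T) d (.cons (e.add a) L0 F0) := h1.sound hT hR hup.rr.wv1
    have o2 : OK (Gd T) (f.add a) M := h2.sound hT hR' hlo.wv1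
    exact Al.of a E.symm hae haf (o1.eqv (Eqv.rr1 d (e.add a) F0 L0)) o2
  · -- the edge is cut
    left
    have hae : a ∈ e.S := (hs_mask _ _).1 (he.2.1 ▸ hka)
    have haf : a ∈ f.S := (hs_mask _ _).1 (hZd.2.1 ▸ hZa)
    have hes : e.S ≠ ∅ := Finset.ne_empty_of_mem hae
    have hfs : f.S ≠ ∅ := Finset.ne_empty_of_mem haf
    have heq : e.q = 0 := he.2.2.2.trans hkq
    have hec : e.lab.cls ≠ .m := by
      rw [he.1]
      exact hq.1
    have hex : e.lab.cls = .x → 2 ≤ e.S.card := by
      rw [he.1, ← pc_mask, he.2.1]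
      exact hq.2
    have hfm : f.lab.cls = .m := hZd.1.trans hZl
    have hi : Imm f e := (Imm.of_cls hfm hae haf).symm
    have hup : WV1 e.quest (.cons d F0 L0) := hw'.wv1.questl hec hes heq hex
    have hlo : WV1 f.star M := hw'.wv1.starr hfm hfs
    have hks : k.s ≠ 0 := by
      rw [← he.2.1]
      exact fun h0 => hes (mask_eq_zero.1 h0)
    have hk : IsK { k with q := 1, t := τ } e.quest L0 := by
      refine IsK.of_near ⟨he.1, he.2.1, he.2.2.1, ?_⟩ hτ fun hf => hks hf.1
      change e.q + 1 = 1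
      rw [heq]
    have hR : RS { R with k := { k with q := 1, t := τ } :: κ } d (.cons e.quest L0 F0) :=
      RS.mk' hd (Ks.addKid hk hκ)
    have hR' : RS { Z with w := Z.w + 1 } f.star M := by
      refine ⟨hZd.1, hZd.2.1, ?_, hZd.2.2.2, hZk⟩
      change f.w + 1 = Z.w + 1
      rw [hZd.2.2.1]
    have o1 : OK (Gd T) d (.cons e.quest L0 F0) := h1.sound hT hR hup.rr
    have o2 : OK (Gd T) f.star M := h2.sound hT hR' hlo
    exact (OK.cut' hi (o1.eqv (Eqv.rr1 d e.quest F0 L0)) o2).eqv E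

end Pool.Agent.GCI
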