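import Pool.Agent.GCI.LB0
import Pool.Agent.GCI.LPath

/-!
# MP_f1ab9c: package LB2. Bob colours an edge in a near sub-branch

Setting: the root `d` is described by `R` (`T R`), `R.k.Perm (k :: κ)`, `Ks κ F0`, `DK k e`,
`k.t.Perm (z :: τ)`, `Fp L (cons f M L0)`, `IsK0 z f M`, `K0s τ L0`, `z.s ≠ 0` (so `M.wt = 0`); the edge lies in
the branch `(f, M)` at the vertex `e`.
Proof: cases of `Loc`. The lower part has weight `1` in both cases.
* `here`, `p = f`, `Fp M (cons c K B)`: the upper part `(f.add a, cons e (cons d F0 L0) B)` is `Eqv` to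
  `(d, cons e (cons (f.add a) B L0) F0)`, described by
  `{ R with k := { k with t := { z with s := ad z.s a } :: τ } :: κ }`: `Tab.sfree`
  (`pc z.s + z.q + 1 < z.l.deg` from `NodeOK f (e.lab :: M.labs)`, `1 ≤ M.labs.length`), `AnsS.sound`.
* `down`, `Fp M (cons g N M0)`, the edge is in the clean branch `(g, N)` at `f`: `Loc.gamma`, `K0.new_of`: the
  new piece is `Eqv` to `(f, cons g' N' (cons e (cons d F0 L0) M0))` and to
  `(d, cons e (cons f (cons g' N' M0) L0) F0)`. `(f, cons g' N' M0)` is described by the star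
  `Z = ⟨z.l, z.s, 0, z.q, [n.up]⟩`: `Tab.satt` (`Z.V [k.l]` by `RS.V1`, `BV e.lab f (cons g' N' M0)` from
  `WV.bv`, `BV.bv`), `Path.sound`.
-/

set_option autoImplicit false

namespace Pool.Agent.GCI

private theorem deg_le_cls (l : Lab) : l.deg ≤ l.cls.deg := by
  cases l <;> decide

theorem bob_sub_near {T : St → Prop} (hT : Tab T) {R : St} (hR : T R) {k : Kd} {κ : List Kd}
    {z : K0} {τ : List K0} (hk : R.k.Perm (k :: κ)) (ht : k.t.Perm (z :: τ)) (hz : z.s ≠ 0)
    {d e f p c : Dat} {F0 L L0 M K A : Fo} (hd : DS R d) (hκ : Ks (κ : Multiset Kd) F0)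
    (he : DK k e) (hL : Fp L (.cons f M L0)) (hf : IsK0 z f M)
    (hτ : K0s (τ : Multiset K0) L0) (hw : WV d (.cons e L F0))
    (hl : Loc p c K e (.cons d F0 L0) f M A) {a : Fin 5} (hp : a ∉ p.S) (hc : a ∉ c.S) :
    Ans2 (Gd T) (p.add a) A (c.add a) K := by
  have hT' := Tab.wf' hT
  have hM0 : M.wt = 0 := by
    have h := hf.2.2.2.2
    rw [if_neg hz] at h
    exact h
  -- the whole piece seen from `e`
  have hE : Eqv d (.cons e L F0) e (.cons f M (.cons d F0 L0)) :=
    (((Eqv.refl d (.cons e L F0)).rr).perm (Fp.cons d F0 hL)).perm (Fp.swap _ _ _ _ _)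
  have hwp : WV p (.cons c K A) := hw.eqv (hE.trans hl.eqv.symm)
  have hwl : WV (p.add a) A := hwp.addl hp
  have hwr : WV (c.add a) K := hwp.addr hc
  have hcK : c.st + K.wt ≤ M.wt := by
    obtain ⟨_, _, _, _, h, _⟩ := hl.gamma hp
    exact h
  have hlow : OK (Gd T) (c.add a) K := by
    refine OK.small hwr ?_
    rw [Dat.st_add hc]
    omega
  have hfar : ¬ k.Far := by
    rintro ⟨-, h⟩
    rw [h] at ht
    exact absurd ht.nil_eq (by simp)
  have hKk : IsK k e L :=
    IsK.of_near he (((K0s.addKid hf hτ).perm hL.symm).permList ht.symm) hfar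
  have hV : R.V [] := RS.V (RS.mk' hd ((Ks.addKid hKk hκ).permList hk.symm)) hw
  have hbv : BV e.lab f M := hw.bv.bv hL
  have hup : OK (Gd T) (p.add a) A ∨ Al (Gd T) (p.add a) A := by
    cases hl with
    | @here _ _ _ B hM =>
      have hMw := hM.wt
      simp only [Fo.wt] at hMw
      have hE2 : Eqv (f.add a) (.cons e (.cons d F0 L0) B) d
          (.cons e (.cons (f.add a) B L0) F0) :=
        (Eqv.rr1 _ _ _ _).trans (Eqv.branch d e (f.add a) F0 B L0)
      have hf2 : IsK0 { z with s := ad z.s a } (f.add a) B := by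
        refine ⟨hf.1, ?_, hf.2.2.1, hf.2.2.2.1, ?_⟩
        · change mask (insert a f.S) = ad z.s a
          rw [← ad_mask, hf.2.1]
        · change B.wt = if ad z.s a = 0 then 1 else 0
          rw [if_neg (ad_ne_zero _ _)]
          omega
      have hk2 : IsK { k with t := { z with s := ad z.s a } :: τ } e
          (.cons (f.add a) B L0) := by
        refine IsK.of_near he (K0s.addKid hf2 hτ) ?_
        rintro ⟨-, h⟩
        simp at h
      have hR2 : RS { R with k := { k with t := { z with s := ad z.s a } :: τ } :: κ } d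
          (.cons e (.cons (f.add a) B L0) F0) :=
        RS.mk' hd (Ks.addKid hk2 hκ)
      have hdeg : pc z.s + z.q + 1 < z.l.deg := by
        have h1 := hbv.1.1
        have h2 : M.labs.length = B.labs.length + 1 := by
          rw [hM.labs.length_eq]
          simp [Fo.labs]
        have h3 := deg_le_cls f.lab
        rw [hf.1] at h3
        have h4 : f.S.card = pc z.s := by rw [← hf.2.1, pc_mask]
        have h5 : f.w = 0 := hf.2.2.1
        have h6 : f.q = z.q := hf.2.2.2.1
        simp only [List.length_cons] at h1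
        omega
      have hs1 : ¬ hs z.s a := by
        rw [← hf.2.1, hs_mask]
        exact hp
      have hans := hT.sfree R k κ z τ a hR hV hk ht hz hdeg hs1
      have hw2 := hwl.eqv hE2
      rcases AnsS.sound hT' hans hR2 hw2.wv1 with h | h
      · exact Or.inl (h.eqv hE2.symm)
      · exact Or.inr (h.eqv hE2.symm)
    | @down _ _ g _ _ N M0 _ hM hl2 =>
      have hMw := hM.wt
      simp only [Fo.wt] at hMw
      obtain ⟨g', N', hE1, hlab, hcN, hcase, -, -⟩ := hl2.gamma hp
      have hg0 : g.st = 0 := by omega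
      have hN0 : N.wt = 0 := by omega
      have hbg : BV f.lab g N := hbv.bv hM
      have hnew : (g' = g.add a ∧ N'.wt = 0) ∨ (g' = g ∧ N'.wt = 1) := by
        rcases hcase with ⟨-, h1, h2⟩ | ⟨h1, h2⟩
        · exact Or.inl ⟨h1, by omega⟩
        · exact Or.inr ⟨h1, by omega⟩
      obtain ⟨n, hn, hnn, -⟩ := K0.new_of hbg.2.2.1.1 hg0 hnew
      have hE2 : Eqv (p.add a) A d (.cons e (.cons f (.cons g' N' M0) L0) F0) :=
        ((hE1.perm (Fp.swap _ _ _ _ _)).trans (Eqv.rr1 _ _ _ _)).trans
          (Eqv.branch d e f F0 (.cons g' N' M0) L0)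
      have hw2 := hwl.eqv hE2
      have hM00 : M0.wt = 0 := by omega
      have hZ : RS ⟨z.l, z.s, 0, z.q, [n.up]⟩ f (.cons g' N' M0) :=
        ⟨hf.1, hf.2.1, hf.2.2.1, hf.2.2.2.1,
          Ks.addKid (κ := []) (IsK0.up.2 hn) (Ks.zero.2 hM00)⟩
      have hbZ : BV e.lab f (.cons g' N' M0) := hw2.bv.bv (Fp.refl _)
      have hZV : (⟨z.l, z.s, 0, z.q, [n.up]⟩ : St).V [k.l] := by
        have h := RS.V1 hZ hbZ
        rw [he.1] at h
        exact h
      have hpath := hT.satt R k κ z τ n hR hV hk ht hz hnn hZV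
      rcases Path.sound hT' hpath hd hκ he hτ hZ hw2 with h | h
      · exact Or.inl (h.eqv hE2.symm)
      · exact Or.inr (h.eqv hE2.symm)
  rcases hup with h | h
  · exact Or.inl ⟨h, hlow⟩
  · exact Or.inr (Or.inr ⟨h, hlow⟩)

end Pool.Agent.GCI
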