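import Pool.Agent.GCI.LDeep

/-!
# MP_f1ab9c: package LSHid. Attacks below the root of a far sub-branch

Setting: `R` is a star of the table which describes a piece with the root `d`, `R.k.Perm (k :: κ)`,
`k.t.Perm (z :: τ)`, `z.s = 0`; `DS R d`, `Ks κ F0`, `DK k e`, `K0s τ L0`, and `f` is a clean vertex with the
class `z.l` (the root of the far sub-branch): `DK z.up f`.
* `sfar_ok`: for every `M` of weight `1` the piece `(d, cons e (cons f M L0) F0)` is described by `R` (`k` is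
  not far since `k.t ≠ []`), so it is good.
* `Hid T f (cons e (cons d F0 L0) M0)` for `M0.wt = 0`: a branch `(g, N)` of weight `1` at `f`: the piece is
  `Eqv` to `(e, cons f (cons g N M0) (cons d F0 L0))` and to `(d, cons e (cons f (cons g N M0) L0) F0)`
  (`Eqv.branch` twice, with permutations), `sfar_ok`.
* `sfar_two`: the branch `(g, N)` at `f` has weight `2`. `exists_end` with the parent label `f.lab`.
  - `IsEnd E f.lab g N`: `Tab.shid1` for `E` (`E.V [z.l]`; `nbOK z.l [k.l, E.l]` from `nbOK_two` for the piece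
    seen from `e`). First alternative: Alice colours `f g` with `a`: lower part `(g.add a, N)` described by
    `{ E with s := ad E.s a }`; upper part seen from `d` is `(d, cons e (cons (f.add a) M0 L0) F0)`, described by
    `{ R with k := { k with t := ⟨z.l, 2 ^ a, 0⟩ :: τ } :: κ }`. Second alternative: Alice colours `e f` with `a`
    (`f.S = ∅`): upper part `(d, cons (e.add a) L0 F0)` described by
    `{ R with k := { k with s := ad k.s a, t := τ } :: κ }`; lower part `(f.add a, cons g N M0)` is `Eqv` to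
    `(g, cons (f.add a) M0 N)`, described by `{ E with k := ⟨z.l, 2 ^ a, 0, []⟩ :: E.k }`.
  - otherwise `g.st = 0` and `N` has a tree of weight `2`: `deep` for the environment
    `(f, cons e (cons d F0 L0) M0)`.
-/

set_option autoImplicit false

namespace Pool.Agent.GCI

private theorem is0_LSHid {z : K0} (hz : z.s = 0) {f : Dat} {M : Fo} (hf : DK z.up f)
    (hM : M.wt = 1) : IsK0 z f M := by
  obtain ⟨h1, h2, h3, h4⟩ := hf
  refine ⟨h1, h2, h3, h4, ?_⟩
  rw [if_pos hz, hM]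

private theorem isN_LSHid {z : K0} (hz : z.s = 0) {f : Dat} {M : Fo} (hf : DK z.up f)
    (hq : f.q = 0) (hM : M.wt = 0) (a : Fin 5) : IsK0 ⟨z.l, 2 ^ a.1, 0⟩ (f.add a) M := by
  obtain ⟨h1, h2, h3, _⟩ := hf
  have h0 : f.S = ∅ := mask_eq_zero.mp (h2.trans hz)
  refine ⟨h1, ?_, h3, hq, ?_⟩
  · show mask (insert a f.S) = 2 ^ a.1
    rw [← ad_mask, h0, mask_empty, ad_zero]
  · rw [if_neg (by positivity), hM]

theorem sfar_ok {T : St → Prop} {R : St} (hR : T R) {k : Kd} {κ : List Kd} {z : K0}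
    {τ : List K0} (hk : R.k.Perm (k :: κ)) (ht : k.t.Perm (z :: τ)) (hz : z.s = 0)
    {d e f : Dat} {F0 L0 M : Fo} (hd : DS R d) (hκ : Ks (κ : Multiset Kd) F0) (he : DK k e)
    (hτ : K0s (τ : Multiset K0) L0) (hf : DK z.up f) (hM : M.wt = 1)
    (hw : WV d (.cons e (.cons f M L0) F0)) : OK (Gd T) d (.cons e (.cons f M L0) F0) := by
  have h1 : K0s (k.t : Multiset K0) (.cons f M L0) :=
    (K0s.addKid (is0_LSHid hz hf hM) hτ).permList ht.symm
  have hnf : ¬ k.Far := by
    rintro ⟨_, h⟩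
    rw [h] at ht
    exact absurd ht.symm.eq_nil (List.cons_ne_nil z τ)
  have h2 : Ks (R.k : Multiset Kd) (.cons e (.cons f M L0) F0) :=
    (Ks.addKid (IsK.of_near he h1 hnf) hκ).permList hk.symm
  refine OK.good ⟨hw, Or.inr ⟨1, d, _, R, Eqv.refl _ _, ?_, hR⟩⟩
  rw [Dat.map_one, Fo.map_one]
  exact RS.mk' hd h2

private theorem eqv_LSHid (d e f g : Dat) (F0 L0 M0 N : Fo) :
    Eqv f (.cons g N (.cons e (.cons d F0 L0) M0)) d
      (.cons e (.cons f (.cons g N M0) L0) F0) :=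
  (Eqv.branch e f g (.cons d F0 L0) N M0).trans (Eqv.branch d e f F0 (.cons g N M0) L0)

theorem sfar_hid {T : St → Prop} {R : St} (hR : T R) {k : Kd} {κ : List Kd} {z : K0}
    {τ : List K0} (hk : R.k.Perm (k :: κ)) (ht : k.t.Perm (z :: τ)) (hz : z.s = 0)
    {d e f : Dat} {F0 L0 M0 : Fo} (hd : DS R d) (hκ : Ks (κ : Multiset Kd) F0) (he : DK k e)
    (hτ : K0s (τ : Multiset K0) L0) (hf : DK z.up f) (hM : M0.wt = 0) :
    Hid T f (.cons e (.cons d F0 L0) M0) := by
  intro g N hg hw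
  have he1 := eqv_LSHid d e f g F0 L0 M0 N
  have h1 : (Fo.cons g N M0).wt = 1 := by
    simp only [Fo.wt]
    omega
  exact (sfar_ok hR hk ht hz hd hκ he hτ hf h1 (hw.eqv he1)).eqv he1.symm

theorem sfar_two {T : St → Prop} (hT : Tab T) {R : St} (hR : T R) {k : Kd} {κ : List Kd}
    {z : K0} {τ : List K0} (hk : R.k.Perm (k :: κ)) (ht : k.t.Perm (z :: τ)) (hz : z.s = 0)
    {d e f g : Dat} {F0 L0 M0 N : Fo} (hd : DS R d) (hκ : Ks (κ : Multiset Kd) F0)
    (he : DK k e) (hτ : K0s (τ : Multiset K0) L0) (hf : DK z.up f) (hM : M0.wt = 0)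
    (h2 : g.st + N.wt = 2) (hn : g.w = 0) (hn' : N.NW) (hV : R.V [])
    (hw : WV d (.cons e (.cons f (.cons g N M0) L0) F0)) :
    Al (Gd T) d (.cons e (.cons f (.cons g N M0) L0) F0) := by
  have hT' : ∀ R : St, T R → R.w ≤ 1 ∧ R.q ≤ 1 := fun R hR =>
    ⟨(hT.wf R hR).1, (hT.wf R hR).2.1⟩
  have he1 := (eqv_LSHid d e f g F0 L0 M0 N).symm
  have he2 : Eqv d (.cons e (.cons f (.cons g N M0) L0) F0) e
      (.cons f (.cons g N M0) (.cons d F0 L0)) :=
    (Eqv.branch d e f F0 (.cons g N M0) L0).symm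
  have hw' : WV f (.cons g N (.cons e (.cons d F0 L0) M0)) := hw.eqv he1
  have hwe : WV e (.cons f (.cons g N M0) (.cons d F0 L0)) := hw.eqv he2
  have hfS : f.S = ∅ := mask_eq_zero.mp (hf.2.1.trans hz)
  have hfq : f.q = 0 := (hw'.2.1.1.2.2.1 hfS).2
  have haf : ∀ a : Fin 5, a ∉ f.S := fun a => by
    rw [hfS]
    exact Finset.notMem_empty a
  rcases exists_end h2 hn hn' hw'.bv with ⟨E, hRS, hEnd, hEV⟩ | ⟨hg0, h', H, N0, hNp, hh, hN0⟩
  · have hfl : f.lab.cls = z.l := hf.1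
    have hnb := nbOK_two hwe
    rw [hfl, he.1, hRS.1] at hnb
    rw [hfl] at hEV
    obtain ⟨hl, hm, hww, hq, hK⟩ := hRS
    rcases hT.shid1 R k κ z τ E hR hV hk ht hz hEnd hEV hnb with
      ⟨a, ha, hO1, hO2⟩ | ⟨a, ha, hO1, hO2⟩
    · have hag : a ∉ g.S := by
        rw [← hs_mask, hm]
        exact ha
      refine Al.of a he1 (haf a) hag ?_ ?_
      · have he3 : Eqv (f.add a) (.cons e (.cons d F0 L0) M0) d
            (.cons e (.cons (f.add a) M0 L0) F0) :=
          (Eqv.rr1 (f.add a) e M0 (.cons d F0 L0)).trans (Eqv.branch d e (f.add a) F0 M0 L0)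
        have hw2 : WV (f.add a) (.cons e (.cons d F0 L0) M0) := hw'.addl (haf a)
        have hk1 : K0s ((⟨z.l, 2 ^ a.1, 0⟩ :: τ : List K0) : Multiset K0)
            (.cons (f.add a) M0 L0) := K0s.addKid (isN_LSHid hz hf hfq hM a) hτ
        have hk2 : IsK { k with t := ⟨z.l, 2 ^ a.1, 0⟩ :: τ } e (.cons (f.add a) M0 L0) :=
          IsK.of_near he hk1 (fun h => absurd h.2 (List.cons_ne_nil _ _))
        exact (OKs.sound hT' hO1 (RS.mk' hd (Ks.addKid hk2 hκ)) (hw2.eqv he3).wv1).eqv he3.symm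
      · refine OKs.sound hT' hO2 (d := g.add a) (F := N) ?_ (hw'.addr hag).wv1
        refine ⟨hl, ?_, hww, hq, hK⟩
        show mask (insert a g.S) = ad E.s a
        rw [← ad_mask, hm]
    · have hae : a ∉ e.S := (he.mem a).mp ha
      refine Al.of a he2 hae (haf a) ?_ ?_
      · have he3 : Eqv (e.add a) (.cons d F0 L0) d (.cons (e.add a) L0 F0) :=
          Eqv.rr1 (e.add a) d L0 F0
        have hw2 : WV (e.add a) (.cons d F0 L0) := hwe.addl hae
        have hk2 : IsK { k with s := ad k.s a, t := τ } (e.add a) L0 :=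
          IsK.of_near (he.add a τ) hτ (fun h => absurd h.1 (ad_ne_zero _ _))
        exact (OKs.sound hT' hO1 (RS.mk' hd (Ks.addKid hk2 hκ)) (hw2.eqv he3).wv1).eqv he3.symm
      · have he3 : Eqv (f.add a) (.cons g N M0) g (.cons (f.add a) M0 N) :=
          Eqv.rr1 (f.add a) g M0 N
        have hw2 : WV (f.add a) (.cons g N M0) := hwe.addr (haf a)
        have hi := isN_LSHid hz hf hfq hM a
        have hk2 : IsK ⟨z.l, 2 ^ a.1, 0, []⟩ (f.add a) M0 :=
          IsK.of_near ⟨hi.1, hi.2.1, hi.2.2.1, hi.2.2.2.1⟩ (K0s.zero.mpr hM)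
            (fun h => absurd h.1 (by positivity))
        have hDS : DS { E with k := ⟨z.l, 2 ^ a.1, 0, []⟩ :: E.k } g := ⟨hl, hm, hww, hq⟩
        exact (OKs.sound hT' hO2 (RS.mk' hDS (Ks.addKid hk2 hK)) (hw2.eqv he3).wv1).eqv he3.symm
  · exact (deep hT (sfar_hid hR hk ht hz hd hκ he hτ hf hM) hg0 hNp hh hN0 hn' hw').eqv he1.symm

end Pool.Agent.GCI
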