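import Pool.Agent.GCI.LB0
import Pool.Agent.GCI.LPath
import Pool.Agent.GCI.LSHid

/-!
# MP_f1ab9c: package LB3. Bob colours an edge in a far sub-branch

Setting as in `LB2`, but `z.s = 0`: `f` is clean (`IsK0.far`; `f.q = 0` by `Dat.clean_of_st`, so
`z.q = 0`) and `M.wt = 1`. Proof: cases of `Loc`.
* `here`, `p = f`, `Fp M (cons c K B)`. The upper part is `Eqv` to `(d, cons e (cons (f.add a) B L0) F0)`.
  - `c.st + K.wt = 0`, `B.wt = 1`: `K0s.of_one`: `h`; `(f.add a, B)` is described by
    `Z = ⟨z.l, 2 ^ a, 0, 0, [h.up]⟩`: `Tab.satf1` (`V` by `RS.V1`), `Path.sound`. Lower part of weight `1`.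
  - `c.st + K.wt = 1`, `B.wt = 0`: `Tab.slow`: the star
    `{ R with k := { k with t := ⟨z.l, 2 ^ a, 0⟩ :: τ } :: κ }`. Lower part of weight `2`.
* `down`, `Fp M (cons g N M0)`, the edge is in the branch `(g, N)` at `f`; `Loc.gamma`: the new piece is `Eqv` to
  `(f, cons g' N' (cons e (cons d F0 L0) M0))` and to `(d, cons e (cons f (cons g' N' M0) L0) F0)`.
  - `g.st + N.wt = 0`, `M0.wt = 1`: `K0.new_of`: `n`, `K0s.of_one`: `h`; `Z = ⟨z.l, 0, 0, 0, [h.up, n.up]⟩`
    describes `(f, cons g' N' M0)` (`Ks.permList`): `Tab.satf2`, `Path.sound`. Lower part of weight `1`.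
  - `g.st + N.wt = 1`, `M0.wt = 0`: the weight of `(g', N')` plus `c.st + K.wt` is `2`
    (`Dat.st_add`). If `c.st + K.wt = 1`: the weight of `(g', N')` is `1`, `sfar_ok`; lower part of weight `2`.
    If `c.st + K.wt = 0`: weight `2`, `sfar_two` (`g.w = 0`, `N.NW` by `Fo.NW_of_wt` for `M`; `g'.w = g.w`);
    lower part of weight `1`. Other cases are impossible (`c.st + K.wt ≤ N.wt ≤ 1`).
-/

set_option autoImplicit false

namespace Pool.Agent.GCI

theorem bob_sub_far {T : St → Prop} (hT : Tab T) {R : St} (hR : T R) {k : Kd} {κ : List Kd}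
    {z : K0} {τ : List K0} (hk : R.k.Perm (k :: κ)) (ht : k.t.Perm (z :: τ)) (hz : z.s = 0)
    (hV : R.V []) {d e f p c : Dat} {F0 L L0 M K A : Fo} (hd : DS R d)
    (hκ : Ks (κ : Multiset Kd) F0) (he : DK k e) (hL : Fp L (.cons f M L0))
    (hf : IsK0 z f M) (hτ : K0s (τ : Multiset K0) L0) (hw : WV d (.cons e L F0))
    (hl : Loc p c K e (.cons d F0 L0) f M A) {a : Fin 5} (hp : a ∉ p.S) (hc : a ∉ c.S) :
    Ans2 (Gd T) (p.add a) A (c.add a) K := by
  have hT' := Tab.wf' hT
  have hM1 : M.wt = 1 := by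
    have h := hf.2.2.2.2
    rw [if_pos hz] at h
    exact h
  obtain ⟨hfl, hfS, hfst, -, hfw, hfq⟩ := hf.far hz
  -- the whole piece seen from `e`
  have hE : Eqv d (.cons e L F0) e (.cons f M (.cons d F0 L0)) :=
    (((Eqv.refl d (.cons e L F0)).rr).perm (Fp.cons d F0 hL)).perm (Fp.swap _ _ _ _ _)
  have hwp : WV p (.cons c K A) := hw.eqv (hE.trans hl.eqv.symm)
  have hwl : WV (p.add a) A := hwp.addl hp
  have hwr : WV (c.add a) K := hwp.addr hc
  have hcK : c.st + K.wt ≤ M.wt := by
    obtain ⟨_, _, _, _, h, _⟩ := hl.gamma hp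
    exact h
  have hlow : OK (Gd T) (c.add a) K := by
    refine OK.small hwr ?_
    rw [Dat.st_add hc]
    omega
  have hbv : BV e.lab f M := hw.bv.bv hL
  have hfq0 : f.q = 0 := (Dat.clean_of_st hbv.2.2.1.1 hfst).2.2
  have hzq : z.q = 0 := by rw [← hfq, hfq0]
  have hMNW : M.NW := Fo.NW_of_wt (by omega) hbv.2.2.2
  have hdk : DK z.up f := ⟨hfl, hf.2.1, hfw, hfq⟩
  have hup : OK (Gd T) (p.add a) A ∨ Al (Gd T) (p.add a) A := by
    cases hl with
    | @here _ _ _ B hM =>
      have hMw := hM.wt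
      simp only [Fo.wt] at hMw
      have hE2 : Eqv (f.add a) (.cons e (.cons d F0 L0) B) d
          (.cons e (.cons (f.add a) B L0) F0) :=
        (Eqv.rr1 _ _ _ _).trans (Eqv.branch d e (f.add a) F0 B L0)
      have hw2 := hwl.eqv hE2
      have hmask : mask (f.add a).S = 2 ^ a.1 := by
        change mask (insert a f.S) = 2 ^ a.1
        rw [hfS, ← mask_single a]
        rfl
      rcases Nat.eq_zero_or_pos (c.st + K.wt) with h0 | h0
      · have hB : B.wt = 1 := by omega
        have hbZ : BV e.lab (f.add a) B := hw2.bv.bv (Fp.refl _)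
        obtain ⟨h, hh, hone⟩ := K0s.of_one hB hbZ.2.2.2
        have hZ : RS ⟨z.l, 2 ^ a.1, 0, 0, [h.up]⟩ (f.add a) B :=
          ⟨hfl, hmask, hfw, hfq0, K0s.up hh⟩
        have hZV : (⟨z.l, 2 ^ a.1, 0, 0, [h.up]⟩ : St).V [k.l] := by
          have h1 := RS.V1 hZ hbZ
          rw [he.1] at h1
          exact h1
        have hpath := hT.satf1 R k κ z τ h a hR hV hk ht hz hone hZV
        rcases Path.sound hT' hpath hd hκ he hτ hZ hw2 with h1 | h1
        · exact Or.inl (h1.eqv hE2.symm)
        · exact Or.inr (h1.eqv hE2.symm)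
      · have hB : B.wt = 0 := by omega
        have hf2 : IsK0 ⟨z.l, 2 ^ a.1, 0⟩ (f.add a) B := by
          refine ⟨hfl, hmask, hfw, hfq0, ?_⟩
          have h2 : (2 : ℕ) ^ a.1 ≠ 0 := by positivity
          rw [if_neg h2]
          exact hB
        have hk2 : IsK { k with t := ⟨z.l, 2 ^ a.1, 0⟩ :: τ } e (.cons (f.add a) B L0) := by
          refine IsK.of_near he (K0s.addKid hf2 hτ) ?_
          rintro ⟨-, h⟩
          simp at h
        have hR2 : RS { R with k := { k with t := ⟨z.l, 2 ^ a.1, 0⟩ :: τ } :: κ } d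
            (.cons e (.cons (f.add a) B L0) F0) :=
          RS.mk' hd (Ks.addKid hk2 hκ)
        have hans := hT.slow R k κ z τ a hR hV hk ht hz
        rcases AnsS.sound hT' hans hR2 hw2.wv1 with h | h
        · exact Or.inl (h.eqv hE2.symm)
        · exact Or.inr (h.eqv hE2.symm)
    | @down _ _ g _ _ N M0 _ hM hl2 =>
      have hMw := hM.wt
      simp only [Fo.wt] at hMw
      obtain ⟨g', N', hE1, hlab, hcN, hcase, hNW, -⟩ := hl2.gamma hp
      have hbg : BV f.lab g N := hbv.bv hM
      have hE2 : Eqv (p.add a) A d (.cons e (.cons f (.cons g' N' M0) L0) F0) :=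
        ((hE1.perm (Fp.swap _ _ _ _ _)).trans (Eqv.rr1 _ _ _ _)).trans
          (Eqv.branch d e f F0 (.cons g' N' M0) L0)
      have hw2 := hwl.eqv hE2
      have hNW0 : (Fo.cons g N M0).NW := hM.NW hMNW
      have hstadd : ∀ (_ : p = g), (g.add a).st = g.st + 1 := fun h => by
        subst h
        exact Dat.st_add hp
      rcases Nat.eq_zero_or_pos M0.wt with hM00 | hM00
      · -- the weight of `(g, N)` is `1`
        have hg1 : g.st + N.wt = 1 := by omega
        rcases Nat.eq_zero_or_pos (c.st + K.wt) with h0 | h0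
        · have h2 : g'.st + N'.wt = 2 := by
            rcases hcase with ⟨h1, h2, h3⟩ | ⟨h2, h3⟩
            · rw [h2, hstadd h1]
              omega
            · rw [h2]
              omega
          have hgw : g'.w = 0 := by
            rcases hcase with ⟨h1, h2, h3⟩ | ⟨h2, h3⟩
            · rw [h2]
              exact hNW0.1
            · rw [h2]
              exact hNW0.1
          exact Or.inr ((sfar_two hT hR hk ht hz hd hκ he hτ hdk hM00 h2 hgw (hNW hNW0.2.1) hV
            hw2).eqv hE2.symm)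
        · have h2 : (Fo.cons g' N' M0).wt = 1 := by
            simp only [Fo.wt]
            rcases hcase with ⟨h1, h2, h3⟩ | ⟨h2, h3⟩
            · rw [h2, hstadd h1]
              omega
            · rw [h2]
              omega
          exact Or.inl ((sfar_ok hR hk ht hz hd hκ he hτ hdk h2 hw2).eqv hE2.symm)
      · have hg0 : g.st = 0 := by omega
        have hN0 : N.wt = 0 := by omega
        have hM01 : M0.wt = 1 := by omega
        have hnew : (g' = g.add a ∧ N'.wt = 0) ∨ (g' = g ∧ N'.wt = 1) := by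
          rcases hcase with ⟨-, h1, h2⟩ | ⟨h1, h2⟩
          · exact Or.inl ⟨h1, by omega⟩
          · exact Or.inr ⟨h1, by omega⟩
        obtain ⟨n, hn, hnn, -⟩ := K0.new_of hbg.2.2.1.1 hg0 hnew
        have hbZ : BV e.lab f (.cons g' N' M0) := hw2.bv.bv (Fp.refl _)
        obtain ⟨h, hh, hone⟩ := K0s.of_one hM01 hbZ.2.2.2.2.2
        have hZ : RS ⟨z.l, 0, 0, 0, [h.up, n.up]⟩ f (.cons g' N' M0) := by
          refine ⟨hfl, ?_, hfw, hfq0, ?_⟩
          · rw [hf.2.1, hz]
          · have h1 : Ks ((n.up :: [h.up] : List Kd) : Multiset Kd) (.cons g' N' M0) :=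
              Ks.addKid (IsK0.up.2 hn) (K0s.up hh)
            exact h1.permList (List.Perm.swap _ _ _)
        have hZV : (⟨z.l, 0, 0, 0, [h.up, n.up]⟩ : St).V [k.l] := by
          have h1 := RS.V1 hZ hbZ
          rw [he.1] at h1
          exact h1
        have hpath := hT.satf2 R k κ z τ h n hR hV hk ht hz hone hnn hZV
        rcases Path.sound hT' hpath hd hκ he hτ hZ hw2 with h1 | h1
        · exact Or.inl (h1.eqv hE2.symm)
        · exact Or.inr (h1.eqv hE2.symm)
  rcases hup with h | h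
  · exact Or.inl ⟨h, hlow⟩
  · exact Or.inr (Or.inr ⟨h, hlow⟩)

end Pool.Agent.GCI
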