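import Pool.Agent.GCI.LDeep

/-!
# MP_f1ab9c: package LHid. Attacks below the root of a far branch

Setting: `R` is a star of the table which describes a piece with the root `d`, `R.k.Perm (k :: κ)`, `k` far;
`DS R d`, `Ks κ F0`, and `e` is a clean vertex with the class `k.l` (the root of the far branch).
* `far_ok`: for every `L` of weight `1` the piece `(d, cons e L F0)` is described by `R` (`IsK.of_far`;
  `k.q = e.q`), so it is good: `OK.good`, `Gd` with the identity permutation (`Dat.map_one`, `Fo.map_one`).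
* `Hid T e (cons d F0 L0)` for `L0.wt = 0`: a branch `(f, M)` of weight `1` at `e`: the piece is `Eqv` to
  `(d, cons e (cons f M L0) F0)` (`Eqv.branch`), `far_ok`.
* `far_two`: the branch `(f, M)` at `e` has weight `2`. `exists_end` with the parent label `e.lab`
  (`BV` from `WV.bv`, `BV.bv`).
  - `IsEnd E e.lab f M`: `Tab.hid1` for `E` (`E.V [k.l]` since `e.lab.cls = k.l`; `nbOK_two`). First alternative:
    Alice colours `e f` with `a`: lower part `(f.add a, M)` described by `{ E with s := ad E.s a }`; upper part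
    `(e.add a, cons d F0 L0)`, `Eqv` to `(d, cons (e.add a) L0 F0)`, described by
    `{ R with k := ⟨k.l, 2 ^ a, 0, []⟩ :: κ }` (`e.S = ∅`, so `mask (insert a ∅) = 2 ^ a`; `L0.wt = 0`, so
    `K0s 0 L0`; `e.q = 0`). Second alternative: Alice colours `d e` with `a` (`a ∉ d.S`, `e.S = ∅`): upper part
    `(d.add a, F0)` described by `{ R with s := ad R.s a, k := κ }`; lower part `(e.add a, cons f M L0)` is `Eqv`
    to `(f, cons (e.add a) L0 M)`, described by `{ E with k := ⟨k.l, 2 ^ a, 0, []⟩ :: E.k }`.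
  - otherwise `f.st = 0` and `M` has a tree of weight `2`: `deep` for the environment `(e, cons d F0 L0)`.
-/

set_option autoImplicit false

namespace Pool.Agent.GCI

private theorem nil_LHid {k : Kd} (hf : k.Far) {e : Dat} (he : DK k e) : e.S = ∅ :=
  mask_eq_zero.mp (he.2.1.trans hf.1)

theorem far_ok {T : St → Prop} {R : St} (hR : T R) {k : Kd} {κ : List Kd}
    (hk : R.k.Perm (k :: κ)) (hf : k.Far) {d e : Dat} {F0 L : Fo} (hd : DS R d)
    (hκ : Ks (κ : Multiset Kd) F0) (he : DK k e) (hL : L.wt = 1)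
    (hw : WV d (.cons e L F0)) : OK (Gd T) d (.cons e L F0) := by
  have h2 : Ks (R.k : Multiset Kd) (.cons e L F0) :=
    (Ks.addKid (IsK.of_far he hf hL) hκ).permList hk.symm
  refine OK.good ⟨hw, Or.inr ⟨1, d, _, R, Eqv.refl _ _, ?_, hR⟩⟩
  rw [Dat.map_one, Fo.map_one]
  exact RS.mk' hd h2

theorem far_hid {T : St → Prop} {R : St} (hR : T R) {k : Kd} {κ : List Kd}
    (hk : R.k.Perm (k :: κ)) (hf : k.Far) {d e : Dat} {F0 L0 : Fo} (hd : DS R d)
    (hκ : Ks (κ : Multiset Kd) F0) (he : DK k e) (hL : L0.wt = 0) :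
    Hid T e (.cons d F0 L0) := by
  intro f M hf' hw
  have he1 := Eqv.branch d e f F0 M L0
  have h1 : (Fo.cons f M L0).wt = 1 := by
    simp only [Fo.wt]
    omega
  exact (far_ok hR hk hf hd hκ he h1 (hw.eqv he1)).eqv he1.symm

theorem far_two {T : St → Prop} (hT : Tab T) {R : St} (hR : T R) {k : Kd} {κ : List Kd}
    (hk : R.k.Perm (k :: κ)) (hf : k.Far) {d e f : Dat} {F0 L0 M : Fo} (hd : DS R d)
    (hκ : Ks (κ : Multiset Kd) F0) (he : DK k e) (hL : L0.wt = 0) (h2 : f.st + M.wt = 2)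
    (hn : f.w = 0) (hn' : M.NW) (hV : R.V []) (hw : WV d (.cons e (.cons f M L0) F0)) :
    Al (Gd T) d (.cons e (.cons f M L0) F0) := by
  have hT' : ∀ R : St, T R → R.w ≤ 1 ∧ R.q ≤ 1 := fun R hR =>
    ⟨(hT.wf R hR).1, (hT.wf R hR).2.1⟩
  have he1 : Eqv d (.cons e (.cons f M L0) F0) e (.cons f M (.cons d F0 L0)) :=
    (Eqv.branch d e f F0 M L0).symm
  have hwe : WV e (.cons f M (.cons d F0 L0)) := hw.eqv he1
  have heS : e.S = ∅ := nil_LHid hf he
  have heq : e.q = 0 := (hwe.2.1.1.2.2.1 heS).2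
  have hae : ∀ a : Fin 5, a ∉ e.S := fun a => by
    rw [heS]
    exact Finset.notMem_empty a
  have hnew : ∀ a : Fin 5, IsK ⟨k.l, 2 ^ a.1, 0, []⟩ (e.add a) L0 := fun a => by
    refine IsK.of_near ⟨he.1, ?_, he.2.2.1, heq⟩ (K0s.zero.mpr hL)
      (fun h => absurd h.1 (by positivity))
    show mask (insert a e.S) = 2 ^ a.1
    rw [← ad_mask, heS, mask_empty, ad_zero]
  rcases exists_end h2 hn hn' hwe.bv with ⟨E, hRS, hEnd, hEV⟩ | ⟨hg0, h', H, N0, hNp, hh, hN0⟩
  · have hel : e.lab.cls = k.l := he.1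
    have hnb := nbOK_two hw
    rw [hel, hd.1, hRS.1] at hnb
    rw [hel] at hEV
    obtain ⟨hl, hm, hww, hq, hK⟩ := hRS
    rcases hT.hid1 R k κ E hR hV hk hf hEnd hEV hnb with
      ⟨a, ha, hO1, hO2⟩ | ⟨a, ha, hO1, hO2⟩
    · have hag : a ∉ f.S := by
        rw [← hs_mask, hm]
        exact ha
      refine Al.of a he1 (hae a) hag ?_ ?_
      · have he3 : Eqv (e.add a) (.cons d F0 L0) d (.cons (e.add a) L0 F0) :=
          Eqv.rr1 (e.add a) d L0 F0
        have hw2 : WV (e.add a) (.cons d F0 L0) := hwe.addl (hae a)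
        exact (OKs.sound hT' hO1 (RS.mk' hd (Ks.addKid (hnew a) hκ))
          (hw2.eqv he3).wv1).eqv he3.symm
      · refine OKs.sound hT' hO2 (d := f.add a) (F := M) ?_ (hwe.addr hag).wv1
        refine ⟨hl, ?_, hww, hq, hK⟩
        show mask (insert a f.S) = ad E.s a
        rw [← ad_mask, hm]
    · have had : a ∉ d.S := (hd.mem a).mp ha
      refine Al.of a (Eqv.refl _ _) had (hae a) ?_ ?_
      · exact OKs.sound hT' hO1 (RS.mk' (hd.add a κ) hκ) (hw.addl had).wv1
      · have he3 : Eqv (e.add a) (.cons f M L0) f (.cons (e.add a) L0 M) :=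
          Eqv.rr1 (e.add a) f L0 M
        have hw2 : WV (e.add a) (.cons f M L0) := hw.addr (hae a)
        have hDS : DS { E with k := ⟨k.l, 2 ^ a.1, 0, []⟩ :: E.k } f := ⟨hl, hm, hww, hq⟩
        exact (OKs.sound hT' hO2 (RS.mk' hDS (Ks.addKid (hnew a) hK))
          (hw2.eqv he3).wv1).eqv he3.symm
  · exact (deep hT (far_hid hR hk hf hd hκ he hL) hg0 hNp hh hN0 hn' hwe).eqv he1.symm

end Pool.Agent.GCI
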