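import Pool.Agent.GCI.LB0
import Pool.Agent.GCI.LHid

/-!
# MP_f1ab9c: package LB4. Bob colours an edge in a far branch

Setting: the root `d` is described by `R` (`T R`), `R.k.Perm (k :: κ)`, `k` far, `Ks κ F0`, `IsK k e L`:
`e` is clean (`IsK.far`; `e.q = 0` by `Dat.clean_of_st`, so `k.q = 0`) and `L.wt = 1`. The edge lies in the
branch `(e, L)`. Proof: cases of `Loc`.
* `here`, `p = e`, `Fp L (cons c K B)`. The upper part is `Eqv` to `(d, cons (e.add a) B F0)`.
  - `c.st + K.wt = 0`, `B.wt = 1`: `K0s.of_one`: `h`; `(e.add a, B)` is described by the kid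
    `⟨k.l, 2 ^ a, 0, [h]⟩`: `Tab.atf1` (`Kd.V` by `Kd.V_of`), `AnsS.sound`. Lower part of weight `1`.
  - `c.st + K.wt = 1`, `B.wt = 0`: `Tab.low`. Lower part of weight `2`.
* `down`, `Fp L (cons f M L0)`, the edge is in the branch `(f, M)` at `e`; `Loc.gamma`: the new piece is `Eqv` to
  `(e, cons f' M' (cons d F0 L0))` and to `(d, cons e (cons f' M' L0) F0)` (`Eqv.branch`).
  - `f.st + M.wt = 0`, `L0.wt = 1`: `K0.new_of`: `n`, `K0s.of_one`: `h`; `(e, cons f' M' L0)` is described by the
    kid `⟨k.l, 0, 0, [h, n]⟩` (`K0s.permList`): `Tab.atf2`, `AnsS.sound`. Lower part of weight `1`.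
  - `f.st + M.wt = 1`, `L0.wt = 0`: the weight of `(f', M')` plus `c.st + K.wt` is `2` (`Dat.st_add`). If
    `c.st + K.wt = 1`: the weight of `(f', M')` is `1`, `far_ok`; lower part of weight `2`.
    If `c.st + K.wt = 0`: weight `2`, `far_two` (`f.w = 0`, `M.NW` by `Fo.NW_of_wt` for `L`; `f'.w = f.w`);
    lower part of weight `1`. Other cases are impossible (`c.st + K.wt ≤ M.wt ≤ 1`).
-/

set_option autoImplicit false

namespace Pool.Agent.GCI

theorem bob_far {T : St → Prop} (hT : Tab T) {R : St} (hR : T R) {k : Kd} {κ : List Kd}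
    (hk : R.k.Perm (k :: κ)) (hf : k.Far) (hV : R.V []) {d e p c : Dat} {F0 L K A : Fo}
    (hd : DS R d) (hκ : Ks (κ : Multiset Kd) F0) (he : IsK k e L)
    (hw : WV d (.cons e L F0)) (hl : Loc p c K d F0 e L A) {a : Fin 5} (hp : a ∉ p.S)
    (hc : a ∉ c.S) : Ans2 (Gd T) (p.add a) A (c.add a) K := by
  have hT' := Tab.wf' hT
  obtain ⟨hel, heS, hew, hest, hL1, heq⟩ := he.far hf
  have hwp : WV p (.cons c K A) := hw.eqv hl.eqv.symm
  have hwl : WV (p.add a) A := hwp.addl hp
  have hwr : WV (c.add a) K := hwp.addr hc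
  have hcK : c.st + K.wt ≤ L.wt := by
    obtain ⟨_, _, _, _, h, _⟩ := hl.gamma hp
    exact h
  have hlow : OK (Gd T) (c.add a) K := by
    refine OK.small hwr ?_
    rw [Dat.st_add hc]
    omega
  have hbv : BV d.lab e L := hw.bv
  have heq0 : e.q = 0 := (Dat.clean_of_st hbv.2.2.1.1 hest).2.2
  have hkq : k.q = 0 := by rw [← heq, heq0]
  have hLNW : L.NW := Fo.NW_of_wt (by omega) hbv.2.2.2
  have hdk : DK k e := ⟨hel, he.2.1, hew, heq⟩
  have hup : OK (Gd T) (p.add a) A ∨ Al (Gd T) (p.add a) A := by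
    cases hl with
    | @here _ _ _ B hL =>
      have hLw := hL.wt
      simp only [Fo.wt] at hLw
      have hE2 : Eqv (e.add a) (.cons d F0 B) d (.cons (e.add a) B F0) := Eqv.rr1 _ _ _ _
      have hw2 := hwl.eqv hE2
      have hmask : mask (e.add a).S = 2 ^ a.1 := by
        change mask (insert a e.S) = 2 ^ a.1
        rw [heS, ← mask_single a]
        rfl
      have h2a : (2 : ℕ) ^ a.1 ≠ 0 := by positivity
      rcases Nat.eq_zero_or_pos (c.st + K.wt) with h0 | h0
      · have hB : B.wt = 1 := by omega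
        have hbZ : BV d.lab (e.add a) B := hw2.bv
        obtain ⟨h, hh, hone⟩ := K0s.of_one hB hbZ.2.2.2
        have hk2 : IsK ⟨k.l, 2 ^ a.1, 0, [h]⟩ (e.add a) B :=
          IsK.of_near ⟨hel, hmask, hew, heq0⟩ hh (fun h => absurd h.1 h2a)
        have hkV : (⟨k.l, 2 ^ a.1, 0, [h]⟩ : Kd).V R.l := by
          have h1 := Kd.V_of hbZ hk2
          rw [hd.1] at h1
          exact h1
        have hans := hT.atf1 R k κ h a hR hV hk hf hone hkV
        rcases AnsS.sound hT' hans (RS.mk' hd (Ks.addKid hk2 hκ)) hw2.wv1 with h | h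
        · exact Or.inl (h.eqv hE2.symm)
        · exact Or.inr (h.eqv hE2.symm)
      · have hB : B.wt = 0 := by omega
        have hk2 : IsK ⟨k.l, 2 ^ a.1, 0, []⟩ (e.add a) B :=
          IsK.of_near ⟨hel, hmask, hew, heq0⟩ (K0s.zero.2 hB) (fun h => absurd h.1 h2a)
        have hans := hT.low R k κ a hR hV hk hf
        rcases AnsS.sound hT' hans (RS.mk' hd (Ks.addKid hk2 hκ)) hw2.wv1 with h | h
        · exact Or.inl (h.eqv hE2.symm)
        · exact Or.inr (h.eqv hE2.symm)
    | @down _ _ f _ _ M L0 _ hL hl2 =>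
      have hLw := hL.wt
      simp only [Fo.wt] at hLw
      obtain ⟨f', M', hE1, hlab, hcN, hcase, hNW, -⟩ := hl2.gamma hp
      have hbg : BV e.lab f M := hbv.bv hL
      have hE2 : Eqv (p.add a) A d (.cons e (.cons f' M' L0) F0) :=
        hE1.trans (Eqv.branch d e f' F0 M' L0)
      have hw2 := hwl.eqv hE2
      have hNW0 : (Fo.cons f M L0).NW := hL.NW hLNW
      have hstadd : ∀ (_ : p = f), (f.add a).st = f.st + 1 := fun h => by
        subst h
        exact Dat.st_add hp
      rcases Nat.eq_zero_or_pos L0.wt with hM00 | hM00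
      · -- the weight of `(f, M)` is `1`
        have hg1 : f.st + M.wt = 1 := by omega
        rcases Nat.eq_zero_or_pos (c.st + K.wt) with h0 | h0
        · have h2 : f'.st + M'.wt = 2 := by
            rcases hcase with ⟨h1, h2, h3⟩ | ⟨h2, h3⟩
            · rw [h2, hstadd h1]
              omega
            · rw [h2]
              omega
          have hgw : f'.w = 0 := by
            rcases hcase with ⟨h1, h2, h3⟩ | ⟨h2, h3⟩
            · rw [h2]
              exact hNW0.1
            · rw [h2]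
              exact hNW0.1
          exact Or.inr ((far_two hT hR hk hf hd hκ hdk hM00 h2 hgw (hNW hNW0.2.1) hV
            hw2).eqv hE2.symm)
        · have h2 : (Fo.cons f' M' L0).wt = 1 := by
            simp only [Fo.wt]
            rcases hcase with ⟨h1, h2, h3⟩ | ⟨h2, h3⟩
            · rw [h2, hstadd h1]
              omega
            · rw [h2]
              omega
          exact Or.inl ((far_ok hR hk hf hd hκ hdk h2 hw2).eqv hE2.symm)
      · have hg0 : f.st = 0 := by omega
        have hN0 : M.wt = 0 := by omega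
        have hM01 : L0.wt = 1 := by omega
        have hnew : (f' = f.add a ∧ M'.wt = 0) ∨ (f' = f ∧ M'.wt = 1) := by
          rcases hcase with ⟨-, h1, h2⟩ | ⟨h1, h2⟩
          · exact Or.inl ⟨h1, by omega⟩
          · exact Or.inr ⟨h1, by omega⟩
        obtain ⟨n, hn, hnn, -⟩ := K0.new_of hbg.2.2.1.1 hg0 hnew
        have hbZ : BV d.lab e (.cons f' M' L0) := hw2.bv
        obtain ⟨h, hh, hone⟩ := K0s.of_one hM01 hbZ.2.2.2.2.2
        have hk1 : K0s (([h, n] : List K0) : Multiset K0) (.cons f' M' L0) :=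
          (K0s.addKid hn hh).permList (List.Perm.swap _ _ _)
        have hk2 : IsK ⟨k.l, 0, 0, [h, n]⟩ e (.cons f' M' L0) :=
          IsK.of_near ⟨hel, by rw [heS, mask_empty], hew, heq0⟩ hk1
            (fun h => absurd h.2 (List.cons_ne_nil _ _))
        have hkV : (⟨k.l, 0, 0, [h, n]⟩ : Kd).V R.l := by
          have h1 := Kd.V_of hbZ hk2
          rw [hd.1] at h1
          exact h1
        have hans := hT.atf2 R k κ h n hR hV hk hf hone hnn hkV
        rcases AnsS.sound hT' hans (RS.mk' hd (Ks.addKid hk2 hκ)) hw2.wv1 with h | h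
        · exact Or.inl (h.eqv hE2.symm)
        · exact Or.inr (h.eqv hE2.symm)
  rcases hup with h | h
  · exact Or.inl ⟨h, hlow⟩
  · exact Or.inr (Or.inr ⟨h, hlow⟩)

end Pool.Agent.GCI
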