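import Pool.Agent.GCI.LB1
import Pool.Agent.GCI.LB2
import Pool.Agent.GCI.LB3
import Pool.Agent.GCI.LB4

/-!
# MP_f1ab9c: package LBob. Bob colours an edge of a piece with a star in the table

Proof: cases of `LocR`. `root`: `bob_root`. `down`, `Fp F (cons e L F0)`, `Loc p c K d F0 e L A`: `Ks.perm`,
`Ks.inv` for `cons e L F0`: clean: `bob_clean`. `IsK k e L`, `k` far: `bob_far` (`R.V []` by `RS.V`). Not far
(`IsK.near`): cases of `Loc`: `here`: `bob_kid_here` (the rest is `cons d F0 B`). `down`, `Fp L (cons f M L0)`: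
`K0s.perm`, `K0s.inv` for `cons f M L0`: clean: `bob_kid_clean`; `IsK0 z f M`: `bob_sub_near` if `z.s ≠ 0`,
`bob_sub_far` if `z.s = 0`. (`WV d (cons e L F0)` from `WV.perm`.)
-/

set_option autoImplicit false

namespace Pool.Agent.GCI

theorem bob_star {T : St → Prop} (hT : Tab T) {R : St} (hR : T R) {d p c : Dat} {F K A : Fo}
    (h : RS R d F) (hw : WV d F) (hl : LocR p c K d F A) {a : Fin 5} (hp : a ∉ p.S)
    (hc : a ∉ c.S) : Ans2 (Gd T) (p.add a) A (c.add a) K := by
  have hd : DS R d := ⟨h.1, h.2.1, h.2.2.1, h.2.2.2.1⟩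
  have hV : R.V [] := RS.V h hw
  cases hl with
  | root hF => exact bob_root hT hR h hw hF hp hc
  | @down _ e _ L F0 _ hF hl =>
    have hw' : WV d (.cons e L F0) := hw.perm hF
    rcases (h.2.2.2.2.perm hF).inv with ⟨he, hL, hκ⟩ | ⟨k, κ, hk, hK, hκ⟩
    · exact bob_clean hT hR hd hκ he hL hw' hl hp hc
    · by_cases hf : k.Far
      · exact bob_far hT hR hk hf hV hd hκ hK hw' hl hp hc
      · obtain ⟨he, ht⟩ := hK.near hf
        cases hl with
        | here hL => exact bob_kid_here hT hR hk hf hd hκ he ht hw' hL hp hc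
        | down hL hl =>
          rcases (ht.perm hL).inv with ⟨hf0, hM, ht0⟩ | ⟨z, τ, hz, hfz, hτ⟩
          · exact bob_kid_clean hT hR hk hf hd hκ he hL ht0 hf0 hM hw' hl hp hc
          · by_cases hs0 : z.s = 0
            · exact bob_sub_far hT hR hk hz hs0 hV hd hκ he hL hfz hτ hw' hl hp hc
            · exact bob_sub_near hT hR hk hz hs0 hd hκ he hL hfz hτ hw' hl hp hc

end Pool.Agent.GCI
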