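import Pool.Agent.GCI.LMv

/-!
# MP_f1ab9c: package LCmp. Soundness of `Cmp` and `AnsS`

Proofs.
* `Cmp.sound`. `root`: `IsK k e K`, `k.s ≠ 0` since `pc k.s = 1`, `K.wt = 0` (`k.t = []`), `e.lab.cls = m`,
  `e.S.card = 1`, `e.w = 0`, `e.q = 0` (`W0`), `NodeOK e (d.lab :: K.labs)`: `1 + 1 + K.labs.length =
  e.lab.deg ≤ 3`. If `K.labs.length = 1`: `e.lab = three`, `K = cons f M nil` clean; colour the edge `e f` with
  `a`: the lower part has weight `1`; the upper part `(e.add a, cons d F0 nil)` is `Eqv` to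
  `(d, cons (e.add a) nil F0)`: cut the edge `d (e.add a)` with `?` at `d` (`OK.cut'`, common colour `a`): the
  part of `d` is OK by the assumption on `R'`, the other part is `OK.triv`. If `K.labs = []`: `K = nil`,
  `e.lab.deg = 2`, `Imm` since `4 + 2 ≤ 6`: second alternative with the roles of the two vertices exchanged:
  `Eqv d F e (cons d F0 nil)`, `Imm e d`, `OK e.star nil` (`triv`), `OK d.quest F0`.
  `sub`: the same for the branch of `z` at the kid `e` (`Eqv` as in `fkid`).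
* `AnsS.sound`: from `OKs.sound`, `Mv.sound`, `Cmp.sound` (`OK.cut` in the last case).
-/

set_option autoImplicit false

namespace Pool.Agent.GCI

private theorem deg_m_LCmp {l : Lab} (h : l.cls = .m) : l.deg ≤ 3 := by
  cases l <;> simp_all [Lab.cls, Lab.deg]

private theorem deg_le_LCmp (l : Lab) : l.deg ≤ 4 := by
  cases l <;> simp [Lab.deg]

private theorem hs_zero_LCmp {n : ℕ} {a : Fin 5} (h : hs n a) : n ≠ 0 := by
  intro h0
  rw [h0] at h
  simp [hs] at h

/-- The completion of the vertex `v` with one coloured edge below the vertex `u`. -/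
private theorem core_LCmp {T : St → Prop} {u v : Dat} {K Y : Fo} {a : Fin 5}
    (hw : WV1 u (.cons v K Y)) (hv : v.lab.cls = .m) (hc : v.S.card = 1) (hv0 : v.w = 0)
    (hK : K.wt = 0) (hu : a ∈ u.S) (hva : a ∉ v.S) (hO : OK (Gd T) u.quest Y) :
    Al (Gd T) u (.cons v K Y) ∨ ∃ (d' e : Dat) (F' K' : Fo),
      Eqv u (.cons v K Y) d' (.cons e K' F') ∧ Imm d' e ∧
      OK (Gd T) d'.star F' ∧ OK (Gd T) e.quest K' := by
  have h3 := deg_m_LCmp hv
  have h4 := deg_le_LCmp u.lab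
  have hq : v.q = 0 := hw.2.2.2.1.1.2.1 (by omega)
  have hn : v.S.card + v.w + v.q + (u.lab :: K.labs).length = v.lab.deg := hw.1.2.1.1
  rw [List.length_cons, hc, hv0, hq] at hn
  cases K with
  | nil =>
    right
    refine ⟨v, u, .nil, Y, Eqv.rr1 _ _ _ _, ?_, OK.triv _, hO⟩
    have h5 : (Fo.labs .nil).length = 0 := rfl
    rw [h5] at hn
    unfold Imm
    omega
  | cons f M N =>
    left
    have h5 : (Fo.labs (.cons f M N)).length = N.labs.length + 1 := rfl
    rw [h5] at hn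
    have hN : N = .nil := by
      cases N with
      | nil => rfl
      | cons g P Q =>
        have h6 : (Fo.labs (.cons g P Q)).length = Q.labs.length + 1 := rfl
        rw [h6] at hn
        omega
    subst hN
    have hwt : f.st + M.wt + Fo.wt .nil = 0 := hK
    have hfS : f.S = ∅ := by
      have h6 : f.st = f.S.card + f.w := rfl
      exact Finset.card_eq_zero.1 (by omega)
    have hfa : a ∉ f.S := by
      rw [hfS]
      exact Finset.notMem_empty a
    have he : Eqv u (.cons v (.cons f M .nil) Y) v (.cons f M (.cons u Y .nil)) :=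
      .perm (Eqv.rr1 _ _ _ _) (.swap _ _ _ _ _)
    have hwe := hw.eqv he
    refine Al.of a he hva hfa ?_ ?_
    · refine OK.rr (OK.cut' ?_ hO (OK.triv _))
      refine Imm.symm (Imm.of_cls (a := a) ?_ hu ?_)
      · exact hv
      · exact Finset.mem_insert_self _ _
    · refine OK.small (hwe.addr hfa) ?_
      rw [Dat.st_add hfa]
      omega

private theorem tr_LCmp {T : St → Prop} {d u : Dat} {F G : Fo} (he : Eqv d F u G)
    (h : Al (Gd T) u G ∨ ∃ (d' e : Dat) (F' K : Fo), Eqv u G d' (.cons e K F') ∧ Imm d' e ∧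
      OK (Gd T) d'.star F' ∧ OK (Gd T) e.quest K) :
    Al (Gd T) d F ∨ ∃ (d' e : Dat) (F' K : Fo), Eqv d F d' (.cons e K F') ∧ Imm d' e ∧
      OK (Gd T) d'.star F' ∧ OK (Gd T) e.quest K := by
  rcases h with h | ⟨d', e, F', K, h1, h2⟩
  · exact Or.inl (h.eqv he.symm)
  · exact Or.inr ⟨d', e, F', K, he.trans h1, h2⟩

theorem Cmp.sound {T : St → Prop} (hT : ∀ R : St, T R → R.w ≤ 1 ∧ R.q ≤ 1) {R R' : St}
    (h : Cmp R R') (hR' : OKs T R') {d : Dat} {F : Fo} (hR : RS R d F) (hw : WV1 d F) :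
    Al (Gd T) d F ∨ ∃ (d' e : Dat) (F' K : Fo), Eqv d F d' (.cons e K F') ∧ Imm d' e ∧
      OK (Gd T) d'.star F' ∧ OK (Gd T) e.quest K := by
  have hds : DS R d := ⟨hR.1, hR.2.1, hR.2.2.1, hR.2.2.2.1⟩
  have hks : Ks (R.k : Multiset Kd) F := hR.2.2.2.2
  cases h with
  | @root k κ a hk hqn hq hkl hpc ht ha hka =>
    obtain ⟨e, K, F0, hp, hie, hF0⟩ := hks.get hk
    have hfar : ¬ k.Far := fun h => by
      rw [h.1, pc_zero] at hpc
      exact absurd hpc (by decide)
    obtain ⟨hdk, hK0⟩ := hie.near hfar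
    rw [ht] at hK0
    have hKw : K.wt = 0 := K0s.zero.1 hK0
    have hda : a ∈ d.S := by
      by_contra hn
      exact (hds.mem a).2 hn ha
    have hdS : d.S ≠ ∅ := Finset.ne_empty_of_mem hda
    have hdq : d.q = 0 := hR.2.2.2.1.trans hq
    refine tr_LCmp (Eqv.ofFp hp) (core_LCmp (a := a) (hw.perm hp) (hdk.1.trans hkl) ?_
      hdk.2.2.1 hKw hda ((hdk.mem a).1 hka) ?_)
    · rw [← pc_mask, hdk.2.1, hpc]
    · refine hR'.sound hT (RS.mk' ⟨hR.1, hR.2.1, hR.2.2.1, ?_⟩ hF0)
        ((hw.perm hp).questl ?_ hdS hdq fun hx => ?_)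
      · change d.q + 1 = 1
        rw [hdq]
      · rw [hR.1]
        exact hqn.1
      · rw [← pc_mask, hR.2.1]
        exact hqn.2 (by rw [← hR.1]; exact hx)
  | @sub k κ z τ a hk ht hqn hq hzl hpc ha hza =>
    obtain ⟨e, L, F0, hp, hie, hF0⟩ := hks.get hk
    have hks0 : k.s ≠ 0 := hs_zero_LCmp ha
    have hfar : ¬ k.Far := fun h => hks0 h.1
    obtain ⟨hdk, hK0⟩ := hie.near hfar
    obtain ⟨f, M, L0, hp2, hz, hL0⟩ := hK0.get ht
    have hdz : DK z.up f := ⟨hz.1, hz.2.1, hz.2.2.1, hz.2.2.2.1⟩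
    have hz0 : z.s ≠ 0 := fun h => by
      rw [h, pc_zero] at hpc
      exact absurd hpc (by decide)
    have hMw : M.wt = 0 := by
      have h1 := hz.2.2.2.2
      rwa [if_neg hz0] at h1
    have E : Eqv d F e (.cons f M (.cons d F0 L0)) :=
      .perm (.perm (.rr (Eqv.ofFp hp)) (hp2.cons d F0)) (.swap _ _ _ _ _)
    have hwE := hw.eqv E
    have hea : a ∈ e.S := by
      by_contra hn
      exact (hdk.mem a).2 hn ha
    have heS : e.S ≠ ∅ := Finset.ne_empty_of_mem hea
    have heq : e.q = 0 := hdk.2.2.2.trans hq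
    refine tr_LCmp E (core_LCmp (a := a) hwE (hz.1.trans hzl) ?_ hz.2.2.1 hMw hea
      ((hdz.mem a).1 hza) ?_)
    · rw [← pc_mask, hz.2.1, hpc]
    · have hw1 : WV1 e.quest (.cons d F0 L0) := by
        refine hwE.questl ?_ heS heq fun hx => ?_
        · rw [hdk.1]
          exact hqn.1
        · rw [← pc_mask, hdk.2.1]
          exact hqn.2 (by rw [← hdk.1]; exact hx)
      have hk' : IsK { k with q := 1, t := τ } e.quest L0 := by
        refine IsK.of_near ⟨hdk.1, hdk.2.1, hdk.2.2.1, ?_⟩ hL0 fun h => hks0 h.1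
        change e.q + 1 = 1
        rw [heq]
      refine OK.rr (hR'.sound hT ?_ hw1.rr)
      exact ⟨hR.1, hR.2.1, hR.2.2.1, hR.2.2.2.1, Ks.addKid hk' hF0⟩

theorem AnsS.sound {T : St → Prop} (hT : ∀ R : St, T R → R.w ≤ 1 ∧ R.q ≤ 1) {R : St}
    (h : AnsS T R) {d : Dat} {F : Fo} (hR : RS R d F) (hw : WV1 d F) :
    OK (Gd T) d F ∨ Al (Gd T) d F := by
  rcases h with h | ⟨R', h | h, hO⟩
  · exact Or.inl (h.sound hT hR hw)
  · exact Or.inr (h.sound hT hO hR hw)
  · rcases h.sound hT hO hR hw with h1 | ⟨d', e, F', K, h1, h2, h3, h4⟩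
    · exact Or.inr h1
    · exact Or.inl ((OK.cut h2 h3 h4).eqv h1.symm)

end Pool.Agent.GCI
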