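import Pool.Agent.GCI.LLoc
import Pool.Agent.GCI.LGam

/-!
# MP_f1ab9c: package LCut. A move of Alice in one part of a cut piece is a move in the whole piece

Proof of `Al.cutl`: `Al.nf` for `Al Good d.star F`: `Eqv d.star F p (cons c M A)`, colour `a`, both parts are OK.
By `descend` (for `Eqv.symm`) there are `A'`, `M'` with `LocR p c M' d.star F A'` (or `LocR c p A' d.star F M'`,
symmetric: exchange the names of `p`, `c`), `Feq` to `A`, `M`, so `(p.add a, A')` and `(c.add a, M')` are OK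
(`OK.feq`).
* `root`, `p = d.star`, `Fp F (cons c M' A')`: the whole piece `(d, cons e K F)` is a permutation of
  `(d, cons c M' (cons e K A'))`; Alice colours the edge `d c`. Upper part `(d.add a, cons e K A')`: cut the
  edge to `e`: `Imm (d.add a) e` (`Imm.add`), `(d.add a).star = d.star.add a` (`rfl`), `OK e.quest K`.
* `down`, `Fp F (cons e1 L1 F1)`, `Loc p c M' d.star F1 e1 L1 A'`: `Loc.gamma` gives `(e', L')` with
  `Eqv (p.add a) A' d.star (cons e' L' F1)`, and for the environment `u2 = d`, `U2 = cons e K F1` a forest `A2`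
  with `Eqv p (cons c M' A2) d (cons e1 L1 (cons e K F1))` and `Eqv (p.add a) A2 d (cons e' L' (cons e K F1))`.
  `(d, cons e' L' (cons e K F1))` is OK: permute, cut the edge to `e`; `(d.star, cons e' L' F1)` is `Eqv` to
  `(p.add a, A')`, OK. So `(p.add a, A2)` is OK (`OK.eqv`), and `Al.of`.
`Al.cutl'` is the same with `quest` and `star` exchanged (`OK.cut'`). `Al.cutr`, `Al.cutr'` follow by `Al.rr`,
`Imm.symm`.
-/

set_option autoImplicit false

namespace Pool.Agent.GCI

private theorem lcAux {Good : Dat → Fo → Prop} {d d1 e : Dat} {F K : Fo} (hS : d1.S = d.S)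
    (hc : ∀ X : Fo, OK Good d1 X → OK Good d (.cons e K X))
    (hca : ∀ (a : Fin 5) (X : Fo), OK Good (d1.add a) X → OK Good (d.add a) (.cons e K X))
    {p c : Dat} {M A : Fo} {a : Fin 5} (hl : LocR p c M d1 F A) (hp : a ∉ p.S) (hq : a ∉ c.S)
    (o1 : OK Good (p.add a) A) (o2 : OK Good (c.add a) M) : Al Good d (.cons e K F) := by
  cases hl with
  | root h =>
    refine Al.of a (Eqv.ofFp ((Fp.cons e K h).trans (Fp.swap _ _ _ _ _))) ?_ hq
      (hca a _ o1) o2
    rw [← hS]
    exact hp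
  | down h hL =>
    obtain ⟨e', L', g1, _, _, _, _, g2⟩ := hL.gamma hp
    obtain ⟨A2, g3, g4⟩ := g2 d (.cons e K _)
    have h3 := (hc _ (o1.eqv g1)).perm (Fp.swap _ _ _ _ _)
    exact Al.of a ((Eqv.ofFp ((Fp.cons e K h).trans (Fp.swap _ _ _ _ _))).trans g3.symm) hp hq
      (h3.eqv g4.symm) o2

private theorem lcMain {Good : Dat → Fo → Prop} {d d1 e : Dat} {F K : Fo} (hS : d1.S = d.S)
    (hc : ∀ X : Fo, OK Good d1 X → OK Good d (.cons e K X))
    (hca : ∀ (a : Fin 5) (X : Fo), OK Good (d1.add a) X → OK Good (d.add a) (.cons e K X))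
    (h1 : Al Good d1 F) : Al Good d (.cons e K F) := by
  obtain ⟨p, c, M, A, a, he, hp, hq, o1, o2⟩ := h1.nf
  rcases descend he.symm with ⟨A', M', hl, hA, hM⟩ | ⟨A', M', hl, hA, hM⟩
  · exact lcAux hS hc hca hl hp hq (o1.feq hA.symm) (o2.feq hM.symm)
  · exact lcAux hS hc hca hl hq hp (o2.feq hM.symm) (o1.feq hA.symm)

theorem Al.cutl {Good : Dat → Fo → Prop} {d e : Dat} {F K : Fo} (hi : Imm d e)
    (h1 : Al Good d.star F) (h2 : OK Good e.quest K) : Al Good d (.cons e K F) :=
  lcMain (d1 := d.star) rfl (fun _ hX => OK.cut hi hX h2) (fun a _ hX => OK.cut (hi.add a) hX h2) h1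

theorem Al.cutl' {Good : Dat → Fo → Prop} {d e : Dat} {F K : Fo} (hi : Imm d e)
    (h1 : Al Good d.quest F) (h2 : OK Good e.star K) : Al Good d (.cons e K F) :=
  lcMain (d1 := d.quest) rfl (fun _ hX => OK.cut' hi.symm hX h2)
    (fun a _ hX => OK.cut' (hi.add a).symm hX h2) h1

theorem Al.cutr {Good : Dat → Fo → Prop} {d e : Dat} {F K : Fo} (hi : Imm d e)
    (h1 : OK Good d.star F) (h2 : Al Good e.quest K) : Al Good d (.cons e K F) :=
  Al.rr (Al.cutl' hi.symm h2 h1)

end Pool.Agent.GCI
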