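import Pool.Agent.GCI.LCmp

/-!
# MP_f1ab9c: package LDeep. Attacks at hidden vertices of far branches

Proofs.
* `Hid.down`: a branch `(g, N)` of weight `1` at the vertex `f` with the other branches `cons u U M0`: the piece
  `(f, cons g N (cons u U M0))` is `Eqv` to `(u, cons f (cons g N M0) U)` (`Eqv.branch`), the branch at `u` has
  weight `0 + 1 + 0`. `WV.eqv`, `OK.eqv`.
* `deep`: strong induction on `M.size` (for all `u`, `U`, `f`). The piece is `(u, cons f M U)`, `Fp M (cons g N
  M0)`, `g.st + N.wt = 2`, `M0.wt = 0`, `f.st = 0` (so `f.S = ∅`). Apply `exists_end` to `(g, N)` with the parent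
  label `f.lab` (`BV` from `WV.bv`, `BV.bv`; `g.w = 0`, `N.NW` from `M.NW`).
  - `IsEnd E f.lab g N`: `Tab.hid2 E f.lab.cls`: a colour `a` with `¬ hs E.s a`, `OKs { E with s := ad E.s a }`.
    Alice colours the edge `f g` with `a`: seen from `f` the piece is `(f, cons g N (cons u U M0))`; lower part
    `(g.add a, N)`: `OKs.sound`; upper part `(f.add a, cons u U M0)` is `Eqv` to `(u, cons (f.add a) M0 U)`, a
    branch of weight `1` at `u`: `Hid`. `Al.of`.
  - otherwise `g.st = 0` and `N` has a tree `(h, H)` of weight `2`, `N0.wt = 0`: induction hypothesis for the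
    environment `(f, cons u U M0)` and the branch `(g, N)` (`N.size < M.size`, `Hid.down`), and `Al.eqv`.
-/

set_option autoImplicit false

namespace Pool.Agent.GCI

theorem Hid.down {T : St → Prop} {u : Dat} {U : Fo} (h : Hid T u U) {f : Dat} {M0 : Fo}
    (hf : f.st = 0) (hM : M0.wt = 0) : Hid T f (.cons u U M0) := by
  intro g N hg hw
  have he : Eqv f (.cons g N (.cons u U M0)) u (.cons f (.cons g N M0) U) :=
    Eqv.branch u f g U N M0
  have h1 : f.st + (Fo.cons g N M0).wt = 1 := by
    simp only [Fo.wt]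
    omega
  exact (h f (.cons g N M0) h1 (hw.eqv he)).eqv he.symm

private theorem deep_aux {T : St → Prop} (hT : Tab T) : ∀ (n : ℕ) {u : Dat} {U : Fo}
    (_ : Hid T u U) {f g : Dat} {M N M0 : Fo} (_ : f.st = 0) (_ : Fp M (.cons g N M0))
    (_ : g.st + N.wt = 2) (_ : M0.wt = 0) (_ : M.NW) (_ : WV u (.cons f M U)) (_ : M.size ≤ n),
    Al (Gd T) u (.cons f M U) := by
  intro n
  induction n with
  | zero =>
    intro u U _ f g M N M0 _ hM _ _ _ _ hn
    exfalso
    have hs := hM.size
    simp only [Fo.size] at hs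
    omega
  | succ n ih =>
    intro u U h f g M N M0 hf hM hg h0 hn hw hsz
    have hT' : ∀ R : St, T R → R.w ≤ 1 ∧ R.q ≤ 1 := fun R hR =>
      ⟨(hT.wf R hR).1, (hT.wf R hR).2.1⟩
    have he1 : Eqv u (.cons f M U) f (.cons g N (.cons u U M0)) :=
      ((Eqv.rr1 u f U M).perm (Fp.cons u U hM)).perm (Fp.swap u g U N M0)
    have hw' : WV f (.cons g N (.cons u U M0)) := hw.eqv he1
    have hNW := hM.NW hn
    obtain ⟨hgw, hN, _⟩ := hNW
    have hsN : N.size ≤ n := by
      have hs := hM.size
      simp only [Fo.size] at hs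
      omega
    rcases exists_end hg hgw hN hw'.bv with ⟨E, hRS, hEnd, hV⟩ | ⟨hg0, h', H, N0, hNp, hh, hN0⟩
    · obtain ⟨a, ha, hO⟩ := hT.hid2 E f.lab.cls hEnd hV
      obtain ⟨hl, hm, hww, hq, hK⟩ := hRS
      have hag : a ∉ g.S := by
        rw [← hs_mask, hm]
        exact ha
      have hfS : f.S = ∅ := by
        have : f.S.card = 0 := by
          unfold Dat.st at hf
          omega
        exact Finset.card_eq_zero.mp this
      have haf : a ∉ f.S := by
        rw [hfS]
        exact Finset.notMem_empty a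
      refine Al.of a he1 haf hag ?_ ?_
      · have he2 : Eqv (f.add a) (.cons u U M0) u (.cons (f.add a) M0 U) :=
          Eqv.rr1 (f.add a) u M0 U
        have hw2 : WV (f.add a) (.cons u U M0) := hw'.addl haf
        refine (h (f.add a) M0 ?_ (hw2.eqv he2)).eqv he2.symm
        rw [Dat.st_add haf, hf, h0]
      · refine OKs.sound hT' hO (d := g.add a) (F := N) ?_ (hw'.addr hag).wv1
        refine ⟨hl, ?_, hww, hq, hK⟩
        show mask (insert a g.S) = ad E.s a
        rw [← ad_mask, hm]
    · exact (ih (h.down hf h0) hg0 hNp hh hN0 hN hw' hsN).eqv he1.symm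

theorem deep {T : St → Prop} (hT : Tab T) {u : Dat} {U : Fo} (h : Hid T u U) {f g : Dat}
    {M N M0 : Fo} (hf : f.st = 0) (hM : Fp M (.cons g N M0)) (hg : g.st + N.wt = 2)
    (h0 : M0.wt = 0) (hn : M.NW) (hw : WV u (.cons f M U)) : Al (Gd T) u (.cons f M U) :=
  deep_aux hT M.size h hf hM hg h0 hn hw le_rfl

end Pool.Agent.GCI
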