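import Pool.Agent.GCI.Game

/-!
# MP_f1ab9c: positions and their pieces

A position on a tree `G` is a colouring together with a set of cut edges `o x y` (an uncoloured edge
`x y` which counts as `*` at `x` and as `?` at `y`). `Rep P v d F`: the piece of `P` containing `v`,
rooted at `v`, is `(d, F)`.
-/

set_option autoImplicit false
set_option linter.unusedSectionVars false

namespace Pool.Agent.GCI

open Relation

/-- a position: a colouring and a set of oriented cut edges -/
structure Pos (V : Type) where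
  c : Col V 5
  o : V → V → Prop

variable {V : Type} [Fintype V] [DecidableEq V] (G : SimpleGraph V) (lab : V → Lab)

namespace Pos

variable {G}

/-- uncoloured edges which are not cut -/
def H (G : SimpleGraph V) (P : Pos V) (x y : V) : Prop :=
  G.Adj x y ∧ P.c s(x, y) = none ∧ ¬ P.o x y ∧ ¬ P.o y x

open Classical in
/-- the colours of the edges at a vertex -/
noncomputable def S (G : SimpleGraph V) (P : Pos V) (x : V) : Finset (Fin 5) :=
  Finset.univ.filter fun a => ∃ y, G.Adj x y ∧ P.c s(x, y) = some a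

open Classical in
/-- the number of edges `*` at a vertex -/
noncomputable def wn (G : SimpleGraph V) (P : Pos V) (x : V) : ℕ :=
  (Finset.univ.filter fun y => G.Adj x y ∧ P.c s(x, y) = none ∧ P.o x y).card

open Classical in
/-- the number of edges `?` at a vertex -/
noncomputable def qn (G : SimpleGraph V) (P : Pos V) (x : V) : ℕ :=
  (Finset.univ.filter fun y => G.Adj x y ∧ P.c s(x, y) = none ∧ P.o y x).card

/-- the datum of a vertex -/
noncomputable def dat (G : SimpleGraph V) (lab : V → Lab) (P : Pos V) (x : V) : Dat :=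
  ⟨lab x, P.S G x, P.wn G x, P.qn G x⟩

theorem H.symm {P : Pos V} {x y : V} (h : P.H G x y) : P.H G y x :=
  ⟨h.1.symm, by rw [Sym2.eq_swap]; exact h.2.1, h.2.2.2, h.2.2.1⟩

end Pos

open Pos

/-- The trees rooted at the vertices `us`, neighbours of `v`, away from `v`, form the forest. -/
inductive RF (P : Pos V) : V → List V → Fo → Prop
  | nil (v : V) : RF P v [] .nil
  | cons (v u : V) (us kus : List V) (K F : Fo) : kus.Nodup →
      (∀ x, x ∈ kus ↔ P.H G u x ∧ x ≠ v) → RF P u kus K → RF P v us F →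
      RF P v (u :: us) (.cons (P.dat G lab u) K F)

/-- `(d, F)` is the piece of the vertex `v`, rooted at `v`. -/
def Rep (P : Pos V) (v : V) (d : Dat) (F : Fo) : Prop :=
  d = P.dat G lab v ∧ ∃ us : List V, us.Nodup ∧ (∀ x, x ∈ us ↔ P.H G v x) ∧ RF G lab P v us F

variable {G lab}

/-- two positions agree at a vertex -/
def Agree (G : SimpleGraph V) (lab : V → Lab) (P Q : Pos V) (x : V) : Prop :=
  P.dat G lab x = Q.dat G lab x ∧ ∀ y, P.H G x y ↔ Q.H G x y

theorem Agree.symm {P Q : Pos V} {x : V} (h : Agree G lab P Q x) : Agree G lab Q P x :=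
  ⟨h.1.symm, fun y => (h.2 y).symm⟩

theorem Agree.trans {P Q R : Pos V} {x : V} (h : Agree G lab P Q x) (h' : Agree G lab Q R x) :
    Agree G lab P R x :=
  ⟨h.1.trans h'.1, fun y => (h.2 y).trans (h'.2 y)⟩

/-! ### Distances in trees -/

/-- in a tree, if `x` is beyond `w` seen from `u` and `w ≠ v` then `x` is beyond `u` seen from `v` -/
theorem side_step (hG : G.IsTree) {v u w x : V} (h1 : G.Adj v u) (h2 : G.Adj u w) (h3 : w ≠ v)
    (h : G.dist x w < G.dist x u) : G.dist x u < G.dist x v := by
  by_contra hv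
  have hv' : G.dist x v < G.dist x u :=
    lt_of_le_of_ne (not_lt.1 hv) (hG.dist_ne_of_adj x h1)
  have key : ∀ {y : V} (hy : G.Adj y u), G.dist x y < G.dist x u →
      ∃ p : G.Walk x u, p.IsPath ∧ p.penultimate = y := by
    intro y hy hd
    obtain ⟨p, hp, hl⟩ := hG.connected.exists_path_of_dist x y
    refine ⟨p.concat hy, hp.concat ?_ hy, SimpleGraph.Walk.penultimate_concat p hy⟩
    intro hu
    have h5 : G.dist x u ≤ (p.takeUntil u hu).length := SimpleGraph.dist_le _
    have h6 := p.length_takeUntil_le_length hu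
    omega
  obtain ⟨p, hp, hpy⟩ := key h1 hv'
  obtain ⟨q, hq, hqy⟩ := key h2.symm h
  obtain ⟨r, -, hr⟩ := hG.existsUnique_path x u
  apply h3
  rw [← hpy, ← hqy, hr p hp, hr q hq]

theorem not_side_self {v u : V} : ¬ G.dist v u < G.dist v v := by
  simp

theorem side_self {v u : V} (h : G.Adj v u) : G.dist u u < G.dist u v := by
  rw [SimpleGraph.dist_self, SimpleGraph.dist_comm, SimpleGraph.dist_eq_one_iff_adj.2 h]
  exact one_pos

/-- the side of `w` seen from `u` does not contain another neighbour `v` of `u` -/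
theorem not_side_nbr (hG : G.IsTree) {v u w : V} (h1 : G.Adj v u) (h2 : G.Adj u w) (h3 : w ≠ v) :
    ¬ G.dist v w < G.dist v u := by
  intro h
  have := side_step hG h1 h2 h3 h
  simp at this

/-! ### Congruence -/

theorem RF.congr (hG : G.IsTree) {P Q : Pos V} {v : V} {us : List V} {F : Fo}
    (h : RF G lab P v us F) (hus : ∀ u ∈ us, P.H G v u)
    (hA : ∀ x, (∃ u ∈ us, G.dist x u < G.dist x v) → ReflTransGen (P.H G) v x →
      Agree G lab P Q x) : RF G lab Q v us F := by
  induction h with
  | nil v => exact .nil v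
  | cons v u us kus K F hn hk hK hF ihK ihF =>
    have hu : P.H G v u := hus u List.mem_cons_self
    have hau : Agree G lab P Q u := hA u ⟨u, List.mem_cons_self, side_self hu.1⟩
      (ReflTransGen.single hu)
    rw [hau.1]
    refine .cons v u us kus K F hn ?_ (ihK ?_ ?_) (ihF ?_ ?_)
    · intro x
      rw [hk, hau.2]
    · intro x hx
      exact ((hk x).1 hx).1
    · rintro x ⟨w, hw, hx⟩ hr
      have hw' := (hk w).1 hw
      exact hA x ⟨u, List.mem_cons_self, side_step hG hu.1 hw'.1.1 hw'.2 hx⟩
        (ReflTransGen.head hu hr)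
    · intro x hx
      exact hus x (List.mem_cons_of_mem _ hx)
    · rintro x ⟨w, hw, hx⟩ hr
      exact hA x ⟨w, List.mem_cons_of_mem _ hw, hx⟩ hr

theorem Rep.congr (hG : G.IsTree) {P Q : Pos V} {v : V} {d : Dat} {F : Fo}
    (h : Rep G lab P v d F) (hA : ∀ x, ReflTransGen (P.H G) v x → Agree G lab P Q x) :
    Rep G lab Q v d F := by
  obtain ⟨rfl, us, hn, hu, hF⟩ := h
  have hv := hA v .refl
  refine ⟨hv.1, us, hn, fun x => ?_, hF.congr hG (fun u hx => (hu u).1 hx) fun x _ hr => hA x hr⟩
  rw [hu, hv.2]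

/-! ### Permutations and change of the root -/

theorem Fp.symm {F F' : Fo} (h : Fp F F') : Fp F' F := by
  induction h with
  | refl F => exact .refl F
  | swap d e K L F => exact .swap e d L K F
  | cons d K _ ih => exact .cons d K ih
  | trans _ _ ih1 ih2 => exact .trans ih2 ih1

theorem RF.perm {P : Pos V} {F F' : Fo} (hp : Fp F F') :
    ∀ {v : V} {us : List V}, RF G lab P v us F → ∃ us' : List V, us.Perm us' ∧
      RF G lab P v us' F' := by
  induction hp with
  | refl F => exact fun h => ⟨_, .refl _, h⟩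
  | swap d e K L F =>
    intro v us h
    cases h with
    | cons v u us kus K _ hn hk hK hF =>
      cases hF with
      | cons v u' us kus' L _ hn' hk' hL hF =>
        exact ⟨u' :: u :: us, List.Perm.swap _ _ _, .cons v u' _ kus' L _ hn' hk' hL
          (.cons v u us kus K _ hn hk hK hF)⟩
  | cons d K _ ih =>
    intro v us h
    cases h with
    | cons v u us kus K _ hn hk hK hF =>
      obtain ⟨us', hp, hF'⟩ := ih hF
      exact ⟨u :: us', hp.cons u, .cons v u us' kus K _ hn hk hK hF'⟩
  | trans _ _ ih1 ih2 =>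
    intro v us h
    obtain ⟨us', hp, h'⟩ := ih1 h
    obtain ⟨us'', hp', h''⟩ := ih2 h'
    exact ⟨us'', hp.trans hp', h''⟩

theorem RF.perm_list {P : Pos V} {us us' : List V} (hp : us.Perm us') :
    ∀ {v : V} {F : Fo}, RF G lab P v us F → ∃ F' : Fo, Fp F F' ∧ RF G lab P v us' F' := by
  induction hp with
  | nil => exact fun h => ⟨_, .refl _, h⟩
  | cons x _ ih =>
    intro v F h
    cases h with
    | cons v _ us kus K F hn hk hK hF =>
      obtain ⟨F', hp, hF'⟩ := ih hF
      exact ⟨_, .cons _ K hp, .cons v x _ kus K F' hn hk hK hF'⟩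
  | swap x y l =>
    intro v F h
    cases h with
    | cons v _ us kus K F hn hk hK hF =>
      cases hF with
      | cons v _ us kus' L F hn' hk' hL hF =>
        exact ⟨_, .swap _ _ _ _ _, .cons v x _ kus' L _ hn' hk' hL
          (.cons v y _ kus K F hn hk hK hF)⟩
  | trans _ _ ih1 ih2 =>
    intro v F h
    obtain ⟨F', hp, h'⟩ := ih1 h
    obtain ⟨F'', hp', h''⟩ := ih2 h'
    exact ⟨F'', hp.trans hp', h''⟩

theorem Rep.perm {P : Pos V} {v : V} {d : Dat} {F F' : Fo} (h : Rep G lab P v d F)
    (hp : Fp F F') : Rep G lab P v d F' := by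
  obtain ⟨hd, us, hn, hu, hF⟩ := h
  obtain ⟨us', hp', hF'⟩ := hF.perm hp
  exact ⟨hd, us', (hp'.nodup_iff).1 hn, fun x => by rw [← hp'.mem_iff]; exact hu x, hF'⟩

/-- bring the child `u` to the front -/
theorem Rep.front {P : Pos V} {v u : V} {d : Dat} {F : Fo} (h : Rep G lab P v d F)
    (hu : P.H G v u) : ∃ (K F' : Fo) (us kus : List V), Fp F (.cons (P.dat G lab u) K F') ∧
      (u :: us).Nodup ∧ (∀ x, x ∈ u :: us ↔ P.H G v x) ∧ kus.Nodup ∧
      (∀ x, x ∈ kus ↔ P.H G u x ∧ x ≠ v) ∧ RF G lab P u kus K ∧ RF G lab P v us F' := by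
  obtain ⟨hd, us, hn, hus, hF⟩ := h
  have hp : us.Perm (u :: us.erase u) := List.perm_cons_erase ((hus u).2 hu)
  obtain ⟨F', hp', hF'⟩ := hF.perm_list hp
  cases hF' with
  | cons v u _ kus K F' hn' hk hK hF' =>
    exact ⟨K, F', us.erase u, kus, hp', hp.nodup_iff.1 hn,
      fun x => by rw [← hp.mem_iff]; exact hus x, hn', hk, hK, hF'⟩

theorem Rep.rr {P : Pos V} {v : V} {d e : Dat} {K F : Fo} (h : Rep G lab P v d (.cons e K F)) :
    ∃ u, P.H G v u ∧ Rep G lab P u e (.cons d F K) := by
  obtain ⟨hd, us, hn, hus, hF⟩ := h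
  cases hF with
  | cons v u us kus K F hn' hk hK hF =>
    have hvu : P.H G v u := (hus u).1 List.mem_cons_self
    refine ⟨u, hvu, rfl, v :: kus, ?_, ?_, ?_⟩
    · refine List.nodup_cons.2 ⟨fun hv => ((hk v).1 hv).2 rfl, hn'⟩
    · intro x
      rw [List.mem_cons, hk]
      constructor
      · rintro (rfl | hx)
        · exact hvu.symm
        · exact hx.1
      · intro hx
        by_cases hxv : x = v
        · exact Or.inl hxv
        · exact Or.inr ⟨hx, hxv⟩
    · rw [hd]
      refine .cons u v kus us F K (List.nodup_cons.1 hn).2 (fun x => ?_) hF hK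
      rw [← hus, List.mem_cons]
      constructor
      · intro hx
        exact ⟨Or.inr hx, fun hxu => (List.nodup_cons.1 hn).1 (hxu ▸ hx)⟩
      · rintro ⟨hx | hx, hxu⟩
        · exact absurd hx hxu
        · exact hx

theorem Rep.nil_iff {P : Pos V} {v : V} {d : Dat} (h : Rep G lab P v d .nil) (x : V) :
    ¬ P.H G v x := by
  obtain ⟨-, us, -, hus, hF⟩ := h
  cases hF
  rw [← hus]
  simp

end Pool.Agent.GCI
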