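import Pool.Agent.GCI.Tab2
import Pool.Agent.GCI.Rep

/-!
# MP_f1ab9c: location of an edge or of a vertex in a rooted piece (definitions)

* `Feq F F'`: the forests are equal up to permutations at all levels (semantic version).
* `Loc p c K u U e L A`: the edge between `p` and its lower neighbour `c` (with the branch `(c, K)`) lies
  in the branch `(e, L)`, which is attached to a vertex `u` with the other branches `U`; `A` is the rest
  of the piece, seen from `p`. So the whole piece is `(u, cons e L U)`, seen from `p` it is
  `(p, cons c K A)`, both up to permutations.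
* `LocR p c K d F A`: the same for the whole rooted piece `(d, F)`.
* `VLoc`, `VLocR`: the same for a vertex `p`; `X` is the piece seen from `p`.
-/

set_option autoImplicit false

namespace Pool.Agent.GCI

/-- append two forests -/
def Fo.app : Fo → Fo → Fo
  | .nil, G => G
  | .cons d K F, G => .cons d K (F.app G)

/-- the number of vertices -/
def Fo.size : Fo → ℕ
  | .nil => 0
  | .cons _ K F => K.size + F.size + 1

/-- the list of the trees -/
def Fo.trees : Fo → List (Dat × Fo)
  | .nil => []
  | .cons d K F => (d, K) :: F.trees

/-- no edges `*` -/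
def Fo.NW : Fo → Prop
  | .nil => True
  | .cons d K F => d.w = 0 ∧ K.NW ∧ F.NW

/-- equal up to permutations at all levels -/
def Feq (F F' : Fo) : Prop := ∀ (x : Dat) (G : Fo), Eqv x (F.app G) x (F'.app G)

/-- The edge between `p` and its lower neighbour `c` lies in the branch `(e, L)` at the vertex `u` with
the other branches `U`. -/
inductive Loc (p c : Dat) (K : Fo) : Dat → Fo → Dat → Fo → Fo → Prop
  | here {u : Dat} {U L B : Fo} : Fp L (.cons c K B) → Loc p c K u U p L (.cons u U B)
  | down {u e f : Dat} {U L M L0 A : Fo} : Fp L (.cons f M L0) →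
      Loc p c K e (.cons u U L0) f M A → Loc p c K u U e L A

/-- The edge between `p` and its lower neighbour `c` in the rooted piece `(d, F)`. -/
inductive LocR (p c : Dat) (K : Fo) : Dat → Fo → Fo → Prop
  | root {F A : Fo} : Fp F (.cons c K A) → LocR p c K p F A
  | down {d e : Dat} {F L F0 A : Fo} : Fp F (.cons e L F0) → Loc p c K d F0 e L A →
      LocR p c K d F A

/-- The vertex `p` lies in the branch `(e, L)` at the vertex `u` with the other branches `U`. -/
inductive VLoc (p : Dat) : Dat → Fo → Dat → Fo → Fo → Prop
  | here {u : Dat} {U L : Fo} : VLoc p u U p L (.cons u U L)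
  | down {u e f : Dat} {U L M L0 X : Fo} : Fp L (.cons f M L0) →
      VLoc p e (.cons u U L0) f M X → VLoc p u U e L X

/-- The vertex `p` in the rooted piece `(d, F)`. -/
inductive VLocR (p : Dat) : Dat → Fo → Fo → Prop
  | root {F X : Fo} : Fp F X → VLocR p p F X
  | down {d e : Dat} {F L F0 X : Fo} : Fp F (.cons e L F0) → VLoc p d F0 e L X → VLocR p d F X

/-- the conditions on a piece; the root may have several edges `*` -/
def WV1 (d : Dat) (F : Fo) : Prop := Valid d F ∧ d.W0 ∧ d.q ≤ 1 ∧ F.W

/-- the conditions on a branch whose parent has the label `p` -/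
def BV (p : Lab) (d : Dat) (F : Fo) : Prop := NodeOK d (p :: F.labs) ∧ F.Val d.lab ∧ d.W ∧ F.W

/-- the root `d` is described by the star -/
def DS (R : St) (d : Dat) : Prop := d.lab.cls = R.l ∧ mask d.S = R.s ∧ d.w = R.w ∧ d.q = R.q

/-- the root `e` of a branch is described by `k` -/
def DK (k : Kd) (e : Dat) : Prop := e.lab.cls = k.l ∧ mask e.S = k.s ∧ e.w = 0 ∧ e.q = k.q

/-- all branches of weight `1` at the vertex `u` with the other branches `U` give OK pieces -/
def Hid (T : St → Prop) (u : Dat) (U : Fo) : Prop :=
  ∀ (f : Dat) (M : Fo), f.st + M.wt = 1 → WV u (.cons f M U) → OK (Gd T) u (.cons f M U)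

/-- the star belongs to the attacked end of a branch -/
def IsEnd (E : St) (p : Lab) (g : Dat) (N : Fo) : Prop := RS E g N ∧ E.End ∧ E.V [p.cls]

end Pool.Agent.GCI
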