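import Pool.Agent.GCI.LV

/-!
# MP_f1ab9c: package LDes. Description of branches and forests of small weight

Proofs.
* `exists_tree`: induction on `F`: the weight of `F` is positive, so one of the trees has positive weight
  (swap it to the front).
* `IsK0.of_one`: weight `1` means `e.st = 1`, `K.wt = 0` or `e.st = 0`, `K.wt = 1`; since a vertex with
  `*` has weight at least `2` (`Dat.st_of_w`) we have `e.w = 0`; `h = ⟨e.lab.cls, mask e.S, e.q⟩`. In the
  second case `e.q = 0` (`Dat.clean_of_st`). `One` follows from `W0`: `qOK` is the translation of `W0` and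
  `q ≤ 1` (`cls = m ↔ deg ≠ 4`, `cls = x ↔ lab = leaf`).
* `one_of_wt`, `two_of_wt`: `exists_tree` and the weight of the remaining trees.
* `exists_end`: weight `2` at the vertex `g`: `g.st = 2`; or `g.st = 1` and one tree of weight `1`; or
  `g.st = 0` and two trees of weight `1`; or one tree of weight `2` (second alternative). In the first
  three cases `E = ⟨g.lab.cls, mask g.S, 0, g.q, trees⟩` where the trees are `h.up` with `h` of
  `IsK0.of_one`; `g.w = 0` is assumed; `E.V [p.cls]` is `RS.V1`.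
-/

set_option autoImplicit false

namespace Pool.Agent.GCI

theorem exists_tree {F : Fo} (h : 0 < F.wt) : ∃ (e : Dat) (L F0 : Fo), Fp F (.cons e L F0) ∧
    0 < e.st + L.wt := by
  induction F with
  | nil => exact absurd h (by simp [Fo.wt])
  | cons d K F _ ih =>
    by_cases h1 : 0 < d.st + K.wt
    · exact ⟨d, K, F, .refl _, h1⟩
    · have h2 : 0 < F.wt := by
        simp only [Fo.wt] at h
        omega
      obtain ⟨e, L, F0, hp, hw⟩ := ih h2
      exact ⟨e, L, .cons d K F0, (Fp.cons d K hp).trans (.swap d e K L F0), hw⟩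

private theorem cls_m {l : Lab} (h : l.cls = .m) : l.deg ≠ 4 := by
  cases l <;> simp_all [Lab.cls, Lab.deg]

private theorem cls_x {l : Lab} (h : l.cls = .x) : l = .leaf := by
  cases l <;> simp_all [Lab.cls]

theorem IsK0.of_one {e : Dat} {K : Fo} (h : e.st + K.wt = 1) (hw : e.W) :
    ∃ z : K0, IsK0 z e K ∧ z.One ∧ z.l = e.lab.cls ∧ z.s = mask e.S ∧ z.q = e.q := by
  have hw0 : e.w = 0 := by
    by_contra h0
    have := Dat.st_of_w hw.1 (Nat.pos_of_ne_zero h0)
    omega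
  have hst : e.st = e.S.card := by simp [Dat.st, hw0]
  refine ⟨⟨e.lab.cls, mask e.S, e.q⟩, ⟨rfl, rfl, hw0, rfl, ?_⟩, ⟨⟨hw.2.2, ?_⟩, ?_⟩, rfl, rfl, rfl⟩
  · show K.wt = if mask e.S = 0 then 1 else 0
    by_cases hS : e.S = ∅
    · rw [if_pos (mask_eq_zero.2 hS)]
      rw [hS, Finset.card_empty] at hst
      omega
    · rw [if_neg (fun h0 => hS (mask_eq_zero.1 h0))]
      have := Finset.card_pos.2 (Finset.nonempty_iff_ne_empty.2 hS)
      omega
  · intro hq
    change e.q = 1 at hq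
    obtain ⟨-, h2, h3, h4⟩ := hw.1
    refine ⟨fun hm => ?_, fun hs => ?_, fun hx => ?_⟩
    · have := h2 (cls_m hm)
      omega
    · have := (h3 (mask_eq_zero.1 hs)).2
      omega
    · show 2 ≤ pc (mask e.S)
      rw [pc_mask]
      exact h4 (cls_x hx) (by omega)
  · show mask e.S = 0 ∨ pc (mask e.S) = 1
    rw [pc_mask]
    by_cases hS : e.S = ∅
    · exact Or.inl (mask_eq_zero.2 hS)
    · have := Finset.card_pos.2 (Finset.nonempty_iff_ne_empty.2 hS)
      right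
      omega

theorem one_of_wt {F : Fo} (h : F.wt = 1) : ∃ (e : Dat) (L F0 : Fo), Fp F (.cons e L F0) ∧
    e.st + L.wt = 1 ∧ F0.wt = 0 := by
  obtain ⟨e, L, F0, hp, hw⟩ := exists_tree (F := F) (by omega)
  have h1 := hp.wt
  simp only [Fo.wt] at h1
  exact ⟨e, L, F0, hp, by omega, by omega⟩

theorem K0s.of_one {F : Fo} (h : F.wt = 1) (hw : F.W) : ∃ z : K0,
    K0s (([z] : List K0) : Multiset K0) F ∧ z.One := by
  obtain ⟨e, L, F0, hp, h1, h2⟩ := one_of_wt h
  have hW := hp.W hw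
  simp only [Fo.W] at hW
  obtain ⟨z, hz, hz1, -⟩ := IsK0.of_one h1 hW.1
  exact ⟨z, (K0s.addKid (τ := []) hz (K0s.zero.2 h2)).perm hp.symm, hz1⟩

theorem two_of_wt {F : Fo} (h : F.wt = 2) :
    (∃ (e : Dat) (L F0 : Fo), Fp F (.cons e L F0) ∧ e.st + L.wt = 2 ∧ F0.wt = 0) ∨
    (∃ (e e' : Dat) (L L' F0 : Fo), Fp F (.cons e L (.cons e' L' F0)) ∧ e.st + L.wt = 1 ∧
      e'.st + L'.wt = 1 ∧ F0.wt = 0) := by
  obtain ⟨e, L, F0, hp, hw⟩ := exists_tree (F := F) (by omega)
  have h1 := hp.wt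
  simp only [Fo.wt] at h1
  by_cases h2 : e.st + L.wt = 2
  · exact Or.inl ⟨e, L, F0, hp, h2, by omega⟩
  · obtain ⟨e', L', F1, hp', h3, h4⟩ := one_of_wt (F := F0) (by omega)
    exact Or.inr ⟨e, e', L, L', F1, hp.trans (.cons e L hp'), by omega, h3, h4⟩

private theorem mk_end {p : Lab} {g : Dat} {N : Fo} (h : g.st + N.wt = 2) (hg : g.w = 0)
    (hv : BV p g N) {l : List K0} (hl : K0s (l : Multiset K0) N) (h1 : ∀ z ∈ l, z.One) :
    ∃ E : St, IsEnd E p g N := by
  have hR : RS ⟨g.lab.cls, mask g.S, 0, g.q, l.map K0.up⟩ g N :=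
    ⟨rfl, rfl, hg, rfl, hl.up⟩
  refine ⟨_, hR, ⟨?_, rfl, ?_⟩, hR.V1 hv⟩
  · rw [← hR.wt]
    exact h
  · intro k hk
    obtain ⟨z, hz, rfl⟩ := List.mem_map.1 hk
    exact ⟨rfl, h1 z hz⟩

/-- a branch of weight `2`: all weight is near the vertex `g`, or in one tree below `g` -/
theorem exists_end {p : Lab} {g : Dat} {N : Fo} (h : g.st + N.wt = 2) (hg : g.w = 0)
    (hN : N.NW) (hv : BV p g N) :
    (∃ E : St, IsEnd E p g N) ∨
      (g.st = 0 ∧ ∃ (h : Dat) (H N0 : Fo), Fp N (.cons h H N0) ∧ h.st + H.wt = 2 ∧ N0.wt = 0) := by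
  have _ := hN
  have hW : N.W := hv.2.2.2
  have hcases : g.st = 2 ∨ g.st = 1 ∨ g.st = 0 := by omega
  rcases hcases with h0 | h0 | h0
  · exact Or.inl (mk_end h hg hv (l := []) (K0s.zero.2 (by omega)) (by simp))
  · obtain ⟨z, hz, hz1⟩ := K0s.of_one (F := N) (by omega) hW
    refine Or.inl (mk_end h hg hv hz ?_)
    intro y hy
    rw [List.mem_singleton.1 hy]
    exact hz1
  · rcases two_of_wt (F := N) (by omega) with
      ⟨e, L, F0, hp, h1, h2⟩ | ⟨e, e', L, L', F0, hp, h1, h2, h3⟩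
    · exact Or.inr ⟨h0, e, L, F0, hp, h1, h2⟩
    · have hW' := hp.W hW
      simp only [Fo.W] at hW'
      obtain ⟨z, hz, hz1, -⟩ := IsK0.of_one h1 hW'.1
      obtain ⟨z', hz', hz1', -⟩ := IsK0.of_one h2 hW'.2.2.1
      have hs := (K0s.addKid hz (K0s.addKid (τ := []) hz' (K0s.zero.2 h3))).perm hp.symm
      refine Or.inl (mk_end h hg hv hs ?_)
      intro y hy
      rcases List.mem_cons.1 hy with rfl | hy
      · exact hz1
      · rw [List.mem_singleton.1 hy]
        exact hz1'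

/-- a branch which was clean before Bob coloured an edge in it -/
theorem K0.new_of {e e' : Dat} {L' : Fo} {a : Fin 5} (he : e.W0) (h0 : e.st = 0)
    (h : (e' = e.add a ∧ L'.wt = 0) ∨ (e' = e ∧ L'.wt = 1)) :
    ∃ n : K0, IsK0 n e' L' ∧ n.New ∧ n.l = e.lab.cls := by
  obtain ⟨hS, hw, hq⟩ := Dat.clean_of_st he h0
  rcases h with ⟨rfl, h1⟩ | ⟨rfl, h1⟩
  · have hm : mask (insert a e.S) = mask {a} := by rw [hS]; rfl
    have hp : pc (mask {a}) = 1 := by rw [pc_mask, Finset.card_singleton]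
    have hne : mask {a} ≠ 0 := fun h => by
      rw [h, pc_zero] at hp
      omega
    refine ⟨⟨e.lab.cls, mask {a}, 0⟩, ⟨rfl, hm, hw, hq, ?_⟩, ⟨rfl, Or.inr hp⟩, rfl⟩
    show L'.wt = if mask {a} = 0 then 1 else 0
    rw [if_neg hne, h1]
  · refine ⟨⟨e'.lab.cls, 0, 0⟩, ⟨rfl, mask_eq_zero.2 hS, hw, hq, ?_⟩, ⟨rfl, Or.inl rfl⟩, rfl⟩
    show L'.wt = if (0 : ℕ) = 0 then 1 else 0
    rw [if_pos rfl, h1]

end Pool.Agent.GCI
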