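import Pool.Agent.GCI.LDef

/-!
# MP_f1ab9c: package LEqv. Permutations of forests and change of the root

Proofs.
* `fp_iff`: `→` by induction on `Fp` (`swap`: `List.Perm.swap`). `←` by induction on `F.trees.Perm F'.trees`
  generalised over the forests; every list of trees is `F.trees` for exactly one `F`: first show for the
  function `ofTrees : List (Dat × Fo) → Fo` that `ofTrees F.trees = F`, then `l.Perm l' → Fp (ofTrees l)
  (ofTrees l')` by induction on `Perm`.
* `Fp.inv`: by `fp_iff` we have `((e, L) :: F.trees).Perm ((c, K) :: A.trees)`. If `(e, L) = (c, K)` then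
  `List.Perm.cons_inv`. Otherwise `(e, L) ∈ A.trees`; take `A'` with the trees `A.trees.erase (e, L)`, and
  cancel `(e, L)` (`List.perm_cons_erase`, `List.Perm.cons_inv`, `List.Perm.swap`).
* `Eqv` is symmetric: `Eqv.rr1` and `Fp.symm` for one step, then transitivity. For `symm` use induction on
  the derivation: `Eqv d F d' F'` and one step from `(d', F')` to `(d'', F'')`: the inverse of the step is
  one step, then transitivity. The step `rr` is its own inverse.
-/

set_option autoImplicit false

namespace Pool.Agent.GCI

/-- the forest with the given list of trees -/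
private def ofTrees : List (Dat × Fo) → Fo
  | [] => .nil
  | x :: l => .cons x.1 x.2 (ofTrees l)

private theorem ofTrees_trees : ∀ F : Fo, ofTrees F.trees = F
  | .nil => rfl
  | .cons d K F => by
      simp only [Fo.trees, ofTrees]
      rw [ofTrees_trees F]

private theorem trees_ofTrees : ∀ l : List (Dat × Fo), (ofTrees l).trees = l
  | [] => rfl
  | x :: l => by
      simp only [Fo.trees, ofTrees]
      rw [trees_ofTrees l]

private theorem fp_ofTrees {l l' : List (Dat × Fo)} (h : l.Perm l') :
    Fp (ofTrees l) (ofTrees l') := by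
  induction h with
  | nil => exact .refl _
  | cons x _ ih => exact .cons _ _ ih
  | swap x y l => exact .swap _ _ _ _ _
  | trans _ _ ih1 ih2 => exact .trans ih1 ih2

theorem fp_iff {F F' : Fo} : Fp F F' ↔ F.trees.Perm F'.trees := by
  constructor
  · intro h
    induction h with
    | refl F => exact .refl _
    | swap d e K L F => exact .swap _ _ _
    | cons d K _ ih => exact .cons _ ih
    | trans _ _ ih1 ih2 => exact ih1.trans ih2
  · intro h
    have h1 := fp_ofTrees h
    rwa [ofTrees_trees, ofTrees_trees] at h1

theorem Fp.inv {e c : Dat} {L K F A : Fo} (h : Fp (.cons e L F) (.cons c K A)) :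
    (e = c ∧ L = K ∧ Fp F A) ∨ ∃ A', Fp A (.cons e L A') ∧ Fp F (.cons c K A') := by
  classical
  have h1 : ((e, L) :: F.trees).Perm ((c, K) :: A.trees) := fp_iff.mp h
  by_cases hx : (e, L) = (c, K)
  · left
    rw [hx] at h1
    have h2 := List.Perm.cons_inv h1
    simp only [Prod.mk.injEq] at hx
    exact ⟨hx.1, hx.2, fp_iff.mpr h2⟩
  · right
    have h2 : (e, L) ∈ (c, K) :: A.trees := h1.subset List.mem_cons_self
    have h3 : (e, L) ∈ A.trees := by
      rcases List.mem_cons.mp h2 with h4 | h4
      · exact absurd h4 hx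
      · exact h4
    have h4 : A.trees.Perm ((e, L) :: A.trees.erase (e, L)) := List.perm_cons_erase h3
    refine ⟨ofTrees (A.trees.erase (e, L)), ?_, ?_⟩
    · rw [fp_iff]
      simp only [Fo.trees, trees_ofTrees]
      exact h4
    · rw [fp_iff]
      simp only [Fo.trees, trees_ofTrees]
      have h5 : ((e, L) :: F.trees).Perm ((e, L) :: (c, K) :: A.trees.erase (e, L)) :=
        (h1.trans (h4.cons _)).trans (List.Perm.swap _ _ _)
      exact List.Perm.cons_inv h5

theorem Fp.nil_left {F : Fo} (h : Fp .nil F) : F = .nil := by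
  have h1 := fp_iff.mp h
  cases F with
  | nil => rfl
  | cons d K F =>
      simp only [Fo.trees] at h1
      exact absurd h1.length_eq (by simp)

theorem Fp.nil_right {F : Fo} (h : Fp F .nil) : F = .nil := Fp.nil_left h.symm

theorem Fo.exists_cons {F : Fo} (h : F ≠ .nil) : ∃ e L F0, F = .cons e L F0 := by
  cases F with
  | nil => exact absurd rfl h
  | cons d K F => exact ⟨d, K, F, rfl⟩

theorem Fo.app_nil (F : Fo) : F.app .nil = F := by
  induction F with
  | nil => rfl
  | cons d K F _ ih => simp only [Fo.app, ih]

private theorem trees_app (F G : Fo) : (F.app G).trees = F.trees ++ G.trees := by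
  induction F with
  | nil => rfl
  | cons d K F _ ih => simp only [Fo.app, Fo.trees, ih, List.cons_append]

theorem Fp.app {F F' : Fo} (h : Fp F F') (G : Fo) : Fp (F.app G) (F'.app G) := by
  rw [fp_iff, trees_app, trees_app]
  exact (fp_iff.mp h).append_right _

theorem Fp.mid (e : Dat) (K F G : Fo) : Fp (F.app (.cons e K G)) (.cons e K (F.app G)) := by
  rw [fp_iff]
  simp only [trees_app, Fo.trees]
  exact List.perm_middle

theorem Fp.comm (F G : Fo) : Fp (F.app G) (G.app F) := by
  rw [fp_iff, trees_app, trees_app]
  exact List.perm_append_comm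

theorem Eqv.trans {d d' d'' : Dat} {F F' F'' : Fo} (h : Eqv d F d' F') (h' : Eqv d' F' d'' F'') :
    Eqv d F d'' F'' := by
  induction h' with
  | refl => exact h
  | perm _ hp ih => exact .perm (ih h) hp
  | rr _ ih => exact .rr (ih h)

theorem Eqv.ofFp {d : Dat} {F F' : Fo} (h : Fp F F') : Eqv d F d F' := .perm (.refl _ _) h

theorem Eqv.rr1 (d e : Dat) (F K : Fo) : Eqv d (.cons e K F) e (.cons d F K) := .rr (.refl _ _)

theorem Eqv.symm {d d' : Dat} {F F' : Fo} (h : Eqv d F d' F') : Eqv d' F' d F := by
  induction h with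
  | refl => exact .refl _ _
  | perm _ hp ih => exact (Eqv.ofFp hp.symm).trans ih
  | rr _ ih => exact (Eqv.rr1 _ _ _ _).trans ih

/-- The branch `(f, M)` below `(e, L)`: the piece seen from `e` and from `u`. -/
theorem Eqv.branch (u e f : Dat) (U M L0 : Fo) :
    Eqv e (.cons f M (.cons u U L0)) u (.cons e (.cons f M L0) U) :=
  .rr (.perm (.refl _ _) (.swap _ _ _ _ _))

end Pool.Agent.GCI
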