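import Pool.Agent.GCI.LThree

/-!
# MP_f1ab9c: package LSmall. Pieces of weight at most 2

Proofs.
* `small_bobE`: the parts have the weights `w1 + 1`, `w2 + 1` with `w1 + w2 ≤ 2` (`Dat.st_add`). At most one
  of them is `3` (then the other is `1`): `three`; all others `OK.small`. `WV.addl`, `WV.addr`.
* `small_bobQ`: the new weight is at most `3`.
* `small_rev`: the weight does not change (`Dat.st_reveal`).
* `small_neut`. The piece has an edge (`F ≠ nil`). If there is an edge such that for the parts before the
  move both have weight at most `1` and a colour is free at both ends, then Alice colours it (`Al.of`,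
  `OK.small`). (a) Weight at most `1`: any edge (`F = cons e L F0`); a colour exists by `exists_colour`
  (`d.S.card + e.S.card ≤ 1`). (b) Weight `2`. If `d.st = 1` or `d.st = 0`... use this claim, proved by
  induction on `F.size` (as in `star3`): either there is an edge with weights `1` and `1` on both sides,
  or there is a representation `(g, N)` (`Eqv`) with `g.st = 2`, `N.wt = 0`. [Root `d`: if some tree `(e, L)`
  has weight exactly `1` then the edge `d e` works. Otherwise all trees have weight `0` or `2`; if all have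
  weight `0` then `d.st = 2`; if one has weight `2` then `d.st = 0` and the other trees are clean: move the
  root to `e`; now the tree `(d, F0)` is clean; continue with the trees of `L`, which has smaller size.]
  In the first case `S.card` of both ends are at most `1`, colour both parts: weights `2` and `2`.
  In the second case `N ≠ nil` (the size is invariant), `N = cons e L N0`, clean, `e.S = ∅`; `g.S.card ≤ 2`, take
  a colour `a ∉ g.S`; the lower part `(e.add a, L)` has weight `1`; the upper part `(g.add a, N0)` has weight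
  `3`, `N0.wt = 0`. If `N0 = nil`: `OK.triv`. If `N0 ≠ nil`: `NodeOK g (e.lab :: N0.labs)` gives
  `2 + g.q + 1 + N0.labs.length = g.lab.deg` (`g.st = 2`, `N0.labs.length ≥ 1`), so the degree is `4`,
  `g.q = 0`, `g.w = 0` (`W0`), `g.S.card = 2`; the star is `⟨cls, mask (insert a g.S), 0, 0, []⟩`,
  `Tab.z3` and `OKs.sound`.
-/

set_option autoImplicit false

namespace Pool.Agent.GCI

private theorem card_le_LSmall (d : Dat) : d.S.card ≤ d.st := Nat.le_add_right _ _

theorem small_bobE {T : St → Prop} (hT : Tab T) {d e : Dat} {F K : Fo}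
    (hw : WV d (.cons e K F)) (h : d.st + (Fo.cons e K F).wt ≤ 2) {a : Fin 5} (hd : a ∉ d.S)
    (he : a ∉ e.S) : Ans2 (Gd T) (d.add a) F (e.add a) K := by
  have h0 : (Fo.cons e K F).wt = e.st + K.wt + F.wt := rfl
  have h1 := Dat.st_add hd
  have h2 := Dat.st_add he
  have hl := hw.addl hd
  have hr := hw.addr he
  by_cases c1 : d.st + F.wt = 2
  · have o2 : OK (Gd T) (e.add a) K := OK.small hr (by omega)
    rcases three hT hl (by omega) with o1 | o1
    · exact Or.inl ⟨o1, o2⟩
    · exact Or.inr (Or.inr ⟨o1, o2⟩)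
  · by_cases c2 : e.st + K.wt = 2
    · have o1 : OK (Gd T) (d.add a) F := OK.small hl (by omega)
      rcases three hT hr (by omega) with o2 | o2
      · exact Or.inl ⟨o1, o2⟩
      · exact Or.inr (Or.inl ⟨o1, o2⟩)
    · exact Or.inl ⟨OK.small hl (by omega), OK.small hr (by omega)⟩

theorem small_bobQ {T : St → Prop} (hT : Tab T) {d : Dat} {F : Fo}
    (hw : WV d F) (h : d.st + F.wt ≤ 2) {a : Fin 5} (hd : a ∉ d.S) (hq : 0 < d.q) :
    OK (Gd T) (d.answer a) F ∨ Al (Gd T) (d.answer a) F := by
  have h1 := Dat.st_answer hd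
  have h2 := hw.answer hd hq
  by_cases c : d.st + F.wt = 2
  · exact three hT h2 (by omega)
  · exact Or.inl (OK.small h2 (by omega))

theorem small_rev {T : St → Prop} {d : Dat} {F : Fo}
    (hw : WV d F) (h : d.st + F.wt ≤ 2) {a : Fin 5} (hd : a ∉ d.S) (hq : 0 < d.w) :
    OK (Gd T) (d.reveal a) F := by
  have h1 := Dat.st_reveal hd hq
  exact OK.small (hw.reveal hd hq) (by omega)

private theorem pos_tree_LSmall {F : Fo} (h : 0 < F.wt) : ∃ (f : Dat) (M L0 : Fo),
    Fp F (.cons f M L0) ∧ 0 < f.st + M.wt := by
  induction F with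
  | nil => exact absurd h (Nat.lt_irrefl 0)
  | cons e K F _ ih =>
    by_cases h1 : 0 < e.st + K.wt
    · exact ⟨e, K, F, .refl _, h1⟩
    · have h0 : (Fo.cons e K F).wt = e.st + K.wt + F.wt := rfl
      obtain ⟨f, M, L0, hp, h2⟩ := ih (by omega)
      exact ⟨f, M, .cons e K L0, (hp.cons e K).trans (.swap e f K M L0), h2⟩

private theorem split_LSmall (n : ℕ) : ∀ {e : Dat} {G : Fo}, e.st + G.wt = 2 →
    (∀ (f : Dat) (M L0 : Fo), Fp G (.cons f M L0) → f.st + M.wt = 2 → M.size < n) →
    (∃ (p c : Dat) (K A : Fo), Eqv e G p (.cons c K A) ∧ p.st + A.wt = 1 ∧ c.st + K.wt = 1) ∨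
      ∃ (g : Dat) (N : Fo), Eqv e G g N ∧ g.st = 2 ∧ N.wt = 0 := by
  induction n with
  | zero =>
    intro e G h hn
    by_cases h0 : 0 < G.wt
    · obtain ⟨f, M, L0, hp, hf⟩ := pos_tree_LSmall h0
      have h1 : G.wt = f.st + M.wt + L0.wt := hp.wt
      by_cases h2 : f.st + M.wt = 2
      · exact absurd (hn f M L0 hp h2) (Nat.not_lt_zero _)
      · exact Or.inl ⟨e, f, M, L0, Eqv.ofFp hp, by omega, by omega⟩
    · exact Or.inr ⟨e, G, .refl _ _, by omega, by omega⟩
  | succ n ih =>
    intro e G h hn
    by_cases h0 : 0 < G.wt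
    · obtain ⟨f, M, L0, hp, hf⟩ := pos_tree_LSmall h0
      have h1 : G.wt = f.st + M.wt + L0.wt := hp.wt
      by_cases h2 : f.st + M.wt = 2
      · have h3 := hn f M L0 hp h2
        have he : Eqv e G f (.cons e L0 M) := (Eqv.ofFp hp).rr
        have h4 : (Fo.cons e L0 M).wt = e.st + L0.wt + M.wt := rfl
        have h5 := ih (e := f) (G := .cons e L0 M) (by omega) fun f' M' L' hp' hf' => by
          rcases hp'.inv with ⟨rfl, rfl, _⟩ | ⟨A', _, h6⟩
          · omega
          · have h7 : M.size = M'.size + A'.size + 1 := h6.size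
            omega
        rcases h5 with ⟨p, c, K, A, hE, h6⟩ | ⟨g, N, hE, h6⟩
        · exact Or.inl ⟨p, c, K, A, he.trans hE, h6⟩
        · exact Or.inr ⟨g, N, he.trans hE, h6⟩
      · exact Or.inl ⟨e, f, M, L0, Eqv.ofFp hp, by omega, by omega⟩
    · exact Or.inr ⟨e, G, .refl _ _, by omega, by omega⟩

/-- an edge with one half of the weight on both sides, or all weight at one vertex -/
theorem two_split {d : Dat} {F : Fo} (h : d.st + F.wt = 2) :
    (∃ (p c : Dat) (K A : Fo), Eqv d F p (.cons c K A) ∧ p.st + A.wt = 1 ∧ c.st + K.wt = 1) ∨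
      ∃ (g : Dat) (N : Fo), Eqv d F g N ∧ g.st = 2 ∧ N.wt = 0 := by
  refine split_LSmall F.size h fun f M L0 hp _ => ?_
  have h1 : F.size = M.size + L0.size + 1 := hp.size
  omega

theorem small_neut {T : St → Prop} (hT : Tab T) {d : Dat} {F : Fo}
    (hw : WV d F) (h : d.st + F.wt ≤ 2) (hF : F ≠ .nil) : Al (Gd T) d F := by
  by_cases c : d.st + F.wt = 2
  · rcases two_split c with ⟨p, c, K, A, hE, h1, h2⟩ | ⟨g, N, hE, h1, h2⟩
    · have hw' := hw.eqv hE
      obtain ⟨a, ha, hb⟩ := exists_colour (S := p.S) (S' := c.S) (by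
        have := card_le_LSmall p
        have := card_le_LSmall c
        omega)
      have h3 := Dat.st_add ha
      have h4 := Dat.st_add hb
      exact Al.of a hE ha hb (OK.small (hw'.addl ha) (by omega))
        (OK.small (hw'.addr hb) (by omega))
    · have hw' := hw.eqv hE
      have hN : N ≠ .nil := fun hN => hF (Fo.size_eq_zero.1 (by
        rw [hE.size, hN]
        rfl))
      obtain ⟨e, L, N0, rfl⟩ := Fo.exists_cons hN
      have h3 : (Fo.cons e L N0).wt = e.st + L.wt + N0.wt := rfl
      obtain ⟨a, ha, hb⟩ := exists_colour (S := g.S) (S' := e.S) (by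
        have := card_le_LSmall g
        have := card_le_LSmall e
        omega)
      have h4 := Dat.st_add ha
      have h5 := Dat.st_add hb
      refine Al.of a hE ha hb ?_ (OK.small (hw'.addr hb) (by omega))
      by_cases hN0 : N0 = .nil
      · rw [hN0]
        exact .triv _
      · obtain ⟨e', L', N', rfl⟩ := Fo.exists_cons hN0
        have hn : g.S.card + g.w + g.q + (Fo.cons e L (.cons e' L' N')).labs.length =
          g.lab.deg := hw'.1.1.1
        have hl : (Fo.cons e L (.cons e' L' N')).labs.length = N'.labs.length + 1 + 1 := rfl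
        have hst : g.S.card + g.w = 2 := h1
        have hdeg : g.lab.deg ≤ 4 := by
          cases g.lab <;> decide
        have hdeg4 : g.lab.deg = 4 := by omega
        have hgw : g.w = 0 := hw'.2.1.1.1 hdeg4
        have hgq : g.q = 0 := by omega
        have hcl : g.lab.cls ≠ .m := by
          revert hdeg4
          cases g.lab <;> decide
        have hcard : (insert a g.S).card = 3 := by
          rw [Finset.card_insert_of_notMem ha]
          omega
        have hO := hT.z3 g.lab.cls (mask (insert a g.S)) hcl (mask_lt _) (by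
          rw [pc_mask, hcard])
        refine hO.sound (fun R hR => ⟨(hT.wf R hR).1, (hT.wf R hR).2.1⟩) ?_ (hw'.addl ha).wv1
        exact ⟨rfl, rfl, hgw, hgq, Ks.zero.2 (by omega)⟩
  · obtain ⟨e, L, F0, rfl⟩ := Fo.exists_cons hF
    have h3 : (Fo.cons e L F0).wt = e.st + L.wt + F0.wt := rfl
    obtain ⟨a, ha, hb⟩ := exists_colour (S := d.S) (S' := e.S) (by
      have := card_le_LSmall d
      have := card_le_LSmall e
      omega)
    have h4 := Dat.st_add ha
    have h5 := Dat.st_add hb
    exact Al.here a ha hb (OK.small (hw.addl ha) (by omega)) (OK.small (hw.addr hb) (by omega))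

end Pool.Agent.GCI
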