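import Pool.Agent.GCI.LCut
import Pool.Agent.GCI.LSmall

/-!
# MP_f1ab9c: package LNeut. Alice has a neutral move in every OK piece with an edge

Proofs.
* `cut_al`: the piece `(d, cons e K F)` is cut into `(d.star, F)`, `(e.quest, K)`, both OK, and in both parts
  Alice has a move if there is an edge. If `F ≠ nil`: `Al.cutl`; if `K ≠ nil`: `Al.cutr`. If `F = K = nil`: the
  piece is a single edge; `NodeOK d [e.lab]`, `NodeOK e [d.lab]` give `d.S.card ≤ d.lab.deg - 1`,
  `e.S.card ≤ e.lab.deg - 1`, and `Imm`: `|d.S ∪ e.S| ≤ (deg d - 1) + (deg e - 1) - |d.S ∩ e.S| ≤ 4`, so there is a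
  colour, and both parts are `OK.triv`.
* `neutral`: strong induction on `F.size` (the size of the piece is invariant under `Eqv`), inside it
  induction on `OK`.
  - `good`: `Gd T d F`. Weight at most `2`: `small_neut`. Otherwise `Eqv d F d' F'`, `RS R (d'.map π) (F'.map π)`,
    `T R`. Work with the mapped piece `(d'', F'') = (d'.map π, F'.map π)` (`Al.of_map`, `Al.eqv`; the size does
    not change under `map`). It has an edge, so `R.used < R.l.deg ∨ R.k ≠ []`: if `R.k = []` then `R.used =
    d''.S.card + d''.w + d''.q < d''.lab.deg ≤ R.l.deg` by `NodeOK` and `F''.labs ≠ []`. `Tab.neut` (`RS.V`):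
    `Mv`: `Mv.sound`. `Cmp`: `Cmp.sound`: either `Al`, or `Eqv` to `(d3, cons e K F3)`, `Imm d3 e`,
    `OK d3.star F3`, `OK e.quest K`: the sizes of the parts are smaller, so `cut_al` with the outer induction
    hypothesis (`Valid` of the parts: `Valid.star`, `Valid.quest`).
  - `triv`: no edge. `perm`, `rr`: `Al.perm`, `Al.rr` with the inner induction hypothesis (the size is
    invariant; generalise over the size bound). `cut`: `cut_al` with the outer induction hypothesis.
-/

set_option autoImplicit false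

namespace Pool.Agent.GCI

theorem Valid.star {d e : Dat} {F K : Fo} (h : Valid d (.cons e K F)) : Valid d.star F :=
  ⟨NodeOK.star h.1, h.2.2.2⟩

theorem Valid.quest {d e : Dat} {F K : Fo} (h : Valid d (.cons e K F)) : Valid e.quest K :=
  ⟨NodeOK.quest h.2.1, h.2.2.1⟩

theorem cut_al {Good : Dat → Fo → Prop} {d e : Dat} {F K : Fo} (hv : Valid d (.cons e K F))
    (hi : Imm d e) (h1 : OK Good d.star F) (h2 : OK Good e.quest K)
    (h3 : F ≠ .nil → Al Good d.star F) (h4 : K ≠ .nil → Al Good e.quest K) :
    Al Good d (.cons e K F) := by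
  by_cases hF : F = .nil
  · by_cases hK : K = .nil
    · subst hF
      subst hK
      have n1 : d.S.card + d.w + d.q + 1 = d.lab.deg := hv.1.1
      have n2 : e.S.card + e.w + e.q + 1 = e.lab.deg := hv.2.1.1
      have n3 : d.lab.deg + e.lab.deg ≤ 6 + (d.S ∩ e.S).card := hi
      have n4 := Finset.card_union_add_card_inter d.S e.S
      obtain ⟨a, ha⟩ : ∃ a, a ∉ d.S ∪ e.S := by
        by_contra hc
        have hc' : ∀ a, a ∈ d.S ∪ e.S := fun a => by
          by_contra hn
          exact hc ⟨a, hn⟩
        have h5 : d.S ∪ e.S = Finset.univ := Finset.eq_univ_of_forall hc'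
        rw [h5, Finset.card_univ, Fintype.card_fin] at n4
        omega
      rw [Finset.mem_union, not_or] at ha
      exact Al.here a ha.1 ha.2 (OK.triv _) (OK.triv _)
    · exact Al.cutr hi h1 (h4 hK)
  · exact Al.cutl hi (h3 hF) h2

private theorem deg_le_LNeut (l : Lab) : l.deg ≤ l.cls.deg := by
  cases l <;> decide

private theorem size_map_LNeut (π : Equiv.Perm (Fin 5)) (F : Fo) : (F.map π).size = F.size := by
  induction F with
  | nil => rfl
  | cons d K F ihK ihF => simp only [Fo.map, Fo.size, ihK, ihF]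

private theorem labs_pos_LNeut {F : Fo} (h : F ≠ .nil) : 0 < F.labs.length := by
  cases F with
  | nil => exact absurd rfl h
  | cons d K F => exact Nat.succ_pos _

private theorem good_LNeut {T : St → Prop} (hT : Tab T) {d : Dat} {F : Fo}
    (h : Gd T d F) (hF : F ≠ .nil)
    (ih : ∀ (d' : Dat) (F' : Fo), F'.size < F.size → Valid d' F' → OK (Gd T) d' F' →
      F' ≠ .nil → Al (Gd T) d' F') : Al (Gd T) d F := by
  obtain ⟨hw, h1 | ⟨π, d', F', R, he, hr, hTR⟩⟩ := h
  · exact small_neut hT hw h1 hF
  · have hT' : ∀ R : St, T R → R.w ≤ 1 ∧ R.q ≤ 1 := fun R hR => ⟨(hT.wf R hR).1, (hT.wf R hR).2.1⟩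
    have hw2 : WV (d'.map π) (F'.map π) := (hw.eqv he).map π
    have hs1 : F.size = (F'.map π).size := he.size.trans (size_map_LNeut π F').symm
    have hF2 : F'.map π ≠ .nil := fun h0 => hF (Fo.size_eq_zero.1 (by rw [hs1, h0]; rfl))
    suffices hA : Al (Gd T) (d'.map π) (F'.map π) from hA.of_map.eqv he.symm
    have hV := hr.V hw2
    have hne : R.used < R.l.deg ∨ R.k ≠ [] := by
      by_cases hk : R.k = []
      · left
        have n1 := hw2.1.1.1
        have n2 := labs_pos_LNeut hF2
        have n3 := deg_le_LNeut (d'.map π).lab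
        obtain ⟨r1, r2, r3, r4, -⟩ := hr
        rw [r1] at n3
        have n4 : pc R.s = (d'.map π).S.card := by rw [← r2, pc_mask]
        have n5 : R.used = pc R.s + R.w + R.q + R.k.length := rfl
        rw [hk, List.length_nil] at n5
        omega
      · exact Or.inr hk
    obtain ⟨R', hm, hR'⟩ := hT.neut R hTR hV hne
    rcases hm with hm | hm
    · exact hm.sound hT' hR' hr hw2.wv1
    · rcases hm.sound hT' hR' hr hw2.wv1 with hA | ⟨d3, e, F3, K, he3, hi, o1, o2⟩
      · exact hA
      · have hv3 : Valid d3 (.cons e K F3) := hw2.1.eqv he3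
        have hs3 : (F'.map π).size = K.size + F3.size + 1 := he3.size
        refine Al.eqv (cut_al hv3 hi o1 o2 ?_ ?_) he3.symm
        · exact fun hn => ih _ _ (by omega) hv3.star o1 hn
        · exact fun hn => ih _ _ (by omega) hv3.quest o2 hn

private theorem step_LNeut {T : St → Prop} (hT : Tab T) (n : ℕ)
    (ih : ∀ (d' : Dat) (F' : Fo), F'.size < n → Valid d' F' → OK (Gd T) d' F' →
      F' ≠ .nil → Al (Gd T) d' F') {d : Dat} {F : Fo} (h : OK (Gd T) d F) :
    F.size = n → Valid d F → F ≠ .nil → Al (Gd T) d F := by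
  induction h with
  | good hg =>
    intro hs _ hF
    subst hs
    exact good_LNeut hT hg hF ih
  | triv d => exact fun _ _ hF => absurd rfl hF
  | perm _ hp ih1 =>
    intro hs hv hF
    refine (ih1 (hp.size.trans hs) (hv.perm hp.symm) ?_).perm hp
    intro h0
    subst h0
    exact hF hp.nil_left
  | @rr d e F K _ ih1 =>
    intro hs hv hF
    refine Al.rr (ih1 ?_ hv.rr (fun h0 => Fo.noConfusion h0))
    have h1 : (Fo.cons d F K).size = F.size + K.size + 1 := rfl
    have h2 : (Fo.cons e K F).size = K.size + F.size + 1 := rfl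
    omega
  | @cut d e F K hi h1 h2 _ _ =>
    intro hs hv hF
    have h3 : (Fo.cons e K F).size = K.size + F.size + 1 := rfl
    exact cut_al hv hi h1 h2 (fun hn => ih _ _ (by omega) hv.star h1 hn)
      (fun hn => ih _ _ (by omega) hv.quest h2 hn)

theorem neutral {T : St → Prop} (hT : Tab T) {d : Dat} {F : Fo} (hv : Valid d F)
    (h : OK (Gd T) d F) (hF : F ≠ .nil) : Al (Gd T) d F := by
  have key : ∀ (n : ℕ) (d : Dat) (F : Fo), F.size = n → Valid d F → OK (Gd T) d F → F ≠ .nil →
      Al (Gd T) d F := by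
    intro n
    induction n using Nat.strong_induction_on with
    | _ n ih =>
      intro d F hs hv h hF
      exact step_LNeut hT n (fun d' F' hlt hv' h' hF' => ih _ hlt d' F' rfl hv' h' hF') h hs hv hF
  exact key _ d F rfl hv h hF

end Pool.Agent.GCI
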