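import Pool.Agent.GCI.LB0
import Pool.Agent.GCI.LHid
import Pool.Agent.GCI.LSHid

/-!
# MP_f1ab9c: package LQ. Bob colours an edge `?` of a piece with a star in the table

Bob colours an edge `?` at the vertex `p` (`0 < p.q`). Proof of `conv_star`: cases of `VLocR`.
* `root`, `p = d`: `R.q = d.q`, `d.q ≤ 1` (`W`), so `R.q = 1`: `Tab.conv`, description
  `{ R with s := ad R.s a, q := 0 }` of `(d.answer a, F)` (`d.q - 1 = 0`), `AnsS.sound` (`WV.answer`, `RS.V`).
* `down`, `Fp F (cons e L F0)`, `VLoc p d F0 e L X`; `Ks.perm`, `Ks.inv` for `cons e L F0`: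
  - clean: `VLoc.q0`: contradiction.
  - `IsK k e L`, `k` not far (`IsK.near`). Cases of `VLoc`: `here`, `p = e`: `k.q = e.q = 1`: `Tab.kconv`, the
    piece `(e.answer a, cons d F0 L)` is `Eqv` to `(d, cons (e.answer a) L F0)`, described by
    `{ R with k := { k with s := ad k.s a, q := 0 } :: κ }`. `down`, `Fp L (cons f M L0)`: `K0s.inv`: clean:
    `VLoc.q0`. `IsK0 z f M`, `k.t.Perm (z :: τ)`: `Tab.wf` gives `z.q = 0`, so `f.q = 0`. If `z.s ≠ 0` then
    `M.wt = 0`: cases of `VLoc`: `here`: `p = f`, `p.q = 0`; `down` to a clean branch: `VLoc.q0`: contradiction.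
    If `z.s = 0` then `f.st = 0`, `M.wt = 1`: `here`: `p.q = f.q = 0`; `down`, `Fp M (cons g N M0)`: if
    `g.st + N.wt = 0`: `VLoc.q0`, contradiction; else `g.st + N.wt = 1`, `M0.wt = 0`: `VLoc.gamma`: the weight
    of `(g', N')` is `2` (`Dat.st_answer`), `sfar_two` (`g'.w = g.w = 0`, `NW` by `Fo.NW_of_wt`), and `Eqv` as in
    package `LB3`.
  - `k` far (`IsK.far`): `here`: `e.q = 0` (`Dat.clean_of_st`). `down`, `Fp L (cons f M L0)`: `f.st + M.wt = 0`:
    `VLoc.q0`; `f.st + M.wt = 1`, `L0.wt = 0`: `VLoc.gamma`, weight `2`, `far_two`.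
`WV` of the new piece: `VLocR.eqv`, `WV.eqv`, `WV.answer`.
-/

set_option autoImplicit false

namespace Pool.Agent.GCI

private theorem back_LQ {T : St → Prop} {d d' : Dat} {F F' : Fo}
    (h : OK (Gd T) d' F' ∨ Al (Gd T) d' F') (he : Eqv d F d' F') :
    OK (Gd T) d F ∨ Al (Gd T) d F := by
  rcases h with h | h
  · exact Or.inl (h.eqv he.symm)
  · exact Or.inr (h.eqv he.symm)

/-- the branch with the new colour has weight `2` and no edge `*` -/
private theorem two_LQ {p f f' : Dat} {M M' : Fo} {a : Fin 5} (ha : a ∉ p.S) (hf : f.W)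
    (hM : M.W) (h1 : f.st + M.wt = 1)
    (h : (p = f ∧ f' = f.answer a ∧ M' = M) ∨ (f' = f ∧ M'.wt = M.wt + 1))
    (hn : M.NW → M'.NW) : f'.st + M'.wt = 2 ∧ f'.w = 0 ∧ M'.NW := by
  have hw0 : f.w = 0 := by
    by_contra hne
    have := Dat.st_of_w hf.1 (Nat.pos_of_ne_zero hne)
    omega
  have hN : M.NW := Fo.NW_of_wt (by omega) hM
  rcases h with ⟨h2, h3, h4⟩ | ⟨h2, h3⟩
  · subst h2
    subst h3
    subst h4
    refine ⟨?_, hw0, hN⟩
    rw [Dat.st_answer ha]
    omega
  · subst h2
    exact ⟨by omega, hw0, hn hN⟩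

theorem conv_star {T : St → Prop} (hT : Tab T) {R : St} (hR : T R) {d p : Dat} {F X : Fo}
    (h : RS R d F) (hw : WV d F) (hl : VLocR p d F X) {a : Fin 5} (hp : a ∉ p.S)
    (hq : 0 < p.q) : OK (Gd T) (p.answer a) X ∨ Al (Gd T) (p.answer a) X := by
  have hT' := Tab.wf' hT
  have hV : R.V [] := RS.V h hw
  have hwp : WV p X := hw.eqv hl.eqv.symm
  have hwa : WV (p.answer a) X := hwp.answer hp hq
  have hd : DS R d := ⟨h.1, h.2.1, h.2.2.1, h.2.2.2.1⟩
  cases hl with
  | root hF =>
    have h1 : d.q ≤ 1 := hw.2.1.2.2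
    have h2 : d.q = R.q := h.2.2.2.1
    have hans := hT.conv R a hR hV (by omega) ((hd.mem a).2 hp)
    have hRS : RS { R with s := ad R.s a, q := 0 } (d.answer a) X := by
      refine ⟨h.1, ?_, h.2.2.1, ?_, h.2.2.2.2.perm hF⟩
      · change mask (insert a d.S) = ad R.s a
        rw [← ad_mask, h.2.1]
      · change d.q - 1 = 0
        omega
    exact AnsS.sound hT' hans hRS hwa.wv1
  | @down _ e _ L F0 _ hF hl2 =>
    have hw1 : WV d (.cons e L F0) := hw.perm hF
    have hbv : BV d.lab e L := hw1.bv
    rcases (h.2.2.2.2.perm hF).inv with ⟨h1, h2, -⟩ | ⟨k, κ, hk, hIs, hκ⟩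
    · have := hl2.q0 hbv.2.2.1 hbv.2.2.2 (by omega)
      omega
    · by_cases hf : k.Far
      · obtain ⟨-, -, -, hst, hL1, -⟩ := hIs.far hf
        have hek : DK k e := ⟨hIs.1, hIs.2.1, hIs.2.2.1, hIs.2.2.2.1⟩
        cases hl2 with
        | here =>
          have := (Dat.clean_of_st hbv.2.2.1.1 hst).2.2
          omega
        | @down _ _ f _ _ M L0 _ hL hl3 =>
          have hLw := hL.wt
          simp only [Fo.wt] at hLw
          have hbf : BV e.lab f M := hbv.bv hL
          by_cases h0 : f.st + M.wt = 0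
          · have := hl3.q0 hbf.2.2.1 hbf.2.2.2 h0
            omega
          · obtain ⟨f', M', hE1, -, hcase, hnw⟩ := hl3.gamma hp
            obtain ⟨g1, g2, g3⟩ := two_LQ hp hbf.2.2.1 hbf.2.2.2 (by omega) hcase hnw
            have hE2 : Eqv (p.answer a) X d (.cons e (.cons f' M' L0) F0) :=
              hE1.trans (Eqv.branch d e f' F0 M' L0)
            exact back_LQ (Or.inr (far_two hT hR hk hf hd hκ hek (by omega) g1 g2 g3 hV
              (hwa.eqv hE2))) hE2
      · obtain ⟨he, ht⟩ := hIs.near hf
        cases hl2 with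
        | here =>
          have h1 : p.q ≤ 1 := hbv.2.2.1.2.2
          have h2 : p.q = k.q := he.2.2.2
          have hans := hT.kconv R k κ a hR hV hk (by omega) ((he.mem a).2 hp)
          have hE : Eqv (p.answer a) (.cons d F0 L) d (.cons (p.answer a) L F0) :=
            Eqv.rr1 _ _ _ _
          have hk2 : IsK { k with s := ad k.s a, q := 0 } (p.answer a) L := by
            refine IsK.of_near ⟨he.1, ?_, he.2.2.1, ?_⟩ ht ?_
            · change mask (insert a p.S) = ad k.s a
              rw [← ad_mask, he.2.1]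
            · change p.q - 1 = 0
              omega
            · rintro ⟨h3, -⟩
              exact ad_ne_zero _ _ h3
          have hRS : RS { R with k := { k with s := ad k.s a, q := 0 } :: κ } d
              (.cons (p.answer a) L F0) := RS.mk' hd (Ks.addKid hk2 hκ)
          exact back_LQ (AnsS.sound hT' hans hRS (hwa.eqv hE).wv1) hE
        | @down _ _ f _ _ M L0 _ hL hl3 =>
          have hbf : BV e.lab f M := hbv.bv hL
          rcases (ht.perm hL).inv with ⟨h1, h2, -⟩ | ⟨z, τ, htz, hz0, hτ⟩
          · have := hl3.q0 hbf.2.2.1 hbf.2.2.2 (by omega)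
            omega
          · have hnew : z.New :=
              (hT.wf R hR).2.2 k (hk.mem_iff.2 List.mem_cons_self) z
                (htz.mem_iff.2 List.mem_cons_self)
            have hfq : f.q = 0 := by
              rw [hz0.2.2.2.1]
              exact hnew.1
            by_cases hz : z.s = 0
            · obtain ⟨-, -, hfst, hM1, hfw, -⟩ := hz0.far hz
              have hfz : DK z.up f := ⟨hz0.1, hz0.2.1, hz0.2.2.1, hz0.2.2.2.1⟩
              cases hl3 with
              | here => omega
              | @down _ _ g _ _ N M0 _ hM hl4 =>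
                have hMw := hM.wt
                simp only [Fo.wt] at hMw
                have hbg : BV f.lab g N := hbf.bv hM
                by_cases h0 : g.st + N.wt = 0
                · have := hl4.q0 hbg.2.2.1 hbg.2.2.2 h0
                  omega
                · obtain ⟨g', N', hE1, -, hcase, hnw⟩ := hl4.gamma hp
                  obtain ⟨g1, g2, g3⟩ := two_LQ hp hbg.2.2.1 hbg.2.2.2 (by omega) hcase hnw
                  have hE2 : Eqv (p.answer a) X d
                      (.cons e (.cons f (.cons g' N' M0) L0) F0) :=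
                    ((hE1.perm (Fp.swap _ _ _ _ _)).trans (Eqv.rr1 _ _ _ _)).trans
                      (Eqv.branch d e f F0 (.cons g' N' M0) L0)
                  exact back_LQ (Or.inr (sfar_two hT hR hk htz hz hd hκ he hτ hfz (by omega)
                    g1 g2 g3 hV (hwa.eqv hE2))) hE2
            · have hM0 : M.wt = 0 := by
                have h1 := hz0.2.2.2.2
                rw [if_neg hz] at h1
                exact h1
              cases hl3 with
              | here => omega
              | @down _ _ g _ _ N M0 _ hM hl4 =>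
                have hMw := hM.wt
                simp only [Fo.wt] at hMw
                have hbg : BV f.lab g N := hbf.bv hM
                have := hl4.q0 hbg.2.2.1 hbg.2.2.2 (by omega)
                omega

end Pool.Agent.GCI
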