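import Pool.Agent.GCI.LB0

/-!
# MP_f1ab9c: package LRev. Edges `*` and dead edges in pieces with a star in the table

Proofs.
* `rev_star` (an edge `*` at `p` is coloured): cases of `VLocR`. `root`, `p = d`: `R.w = d.w ≤ 1`, so `R.w = 1`:
  `Tab.rev`, description `{ R with s := ad R.s a, w := 0 }`, `OKs.sound` (`WV.reveal`). `down`: all other
  vertices have `w = 0`, contradiction: clean branch or far branch: weight at most `1`, `Dat.st_of_w` and
  `VLoc.st_le` (`W` of the vertex: from `WV p X`, `VLocR.eqv`, `WV.eqv`). Explicit kid `e` (`DK`: `e.w = 0`):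
  `VLoc.here`: `w = 0`. `VLoc.down` to the branch `(f, M)`: clean: as before; `IsK0 z f M`: weight `z.wt = 1`
  (`Tab.wf`, `K0.New.wt`, `IsK0.wt`), so again `VLoc.st_le` and `Dat.st_of_w`.
* `live_star`: it is enough that `p.S.card + c.S.card ≤ 4` (`exists_colour`) or `Tab.live`. `p.S.card ≤ 3`,
  `c.S.card ≤ 3` by `NodeOK` (there is an uncoloured edge at both). Cases of `LocR`. `root` (`p = d`), the tree
  `(c, K)` is clean or far: `c.S = ∅`. `IsK k c K` not far: `Tab.live` with `k ∈ R.k` (`DS.mem`, `DK.mem`).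
  `down`: clean or far branch `(e, L)`: `p.st + c.st ≤ e.st + L.wt ≤ 1` (`Loc.p_st`). Explicit kid `e`: `here`:
  `p = e`, `c` is clean or a sub-branch with at most one colour (`Tab.wf`): `c.S.card ≤ 1`. `down` to `(f, M)`:
  `p.st + c.st ≤ f.st + M.wt ≤ 1`.
-/

set_option autoImplicit false

namespace Pool.Agent.GCI

/-- weight of the tree described by a sub-branch of the table -/
private theorem wt1_LRev {T : St → Prop} (hT : Tab T) {R : St} (hR : T R) {k : Kd} (hk : k ∈ R.k)
    {z : K0} (hz : z ∈ k.t) {f : Dat} {M : Fo} (h : IsK0 z f M) : f.st + M.wt = 1 :=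
  h.wt.trans (((hT.wf R hR).2.2 k hk z hz).wt)

private theorem ds_LRev {R : St} {d : Dat} {F : Fo} (h : RS R d F) : DS R d :=
  ⟨h.1, h.2.1, h.2.2.1, h.2.2.2.1⟩

private theorem card_LRev (d : Dat) : d.S.card ≤ d.st := Nat.le_add_right _ _

theorem rev_star {T : St → Prop} (hT : Tab T) {R : St} (hR : T R) {d p : Dat} {F X : Fo}
    (h : RS R d F) (hw : WV d F) (hl : VLocR p d F X) {a : Fin 5} (hp : a ∉ p.S)
    (hq : 0 < p.w) : OK (Gd T) (p.reveal a) X := by
  have hwp : WV p X := hw.eqv hl.eqv.symm
  cases hl with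
  | root hX =>
    have hw1 : d.w ≤ 1 := hw.2.1.2.1
    have hRw : R.w = 1 := by
      have := h.2.2.1
      omega
    have h1 := hT.rev R a hR (h.V hw) hRw (((ds_LRev h).mem a).2 hp)
    have h2 : RS { R with s := ad R.s a, w := 0 } (d.reveal a) F := by
      refine ⟨h.1, ?_, ?_, h.2.2.2.1, h.2.2.2.2⟩
      · change mask (insert a d.S) = ad R.s a
        rw [← ad_mask, h.2.1]
      · change d.w - 1 = 0
        omega
    exact OK.perm (h1.sound hT.wf' h2 (hw.reveal hp hq).wv1) hX
  | down hF hv =>
    exfalso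
    have h2 : 2 ≤ p.st := Dat.st_of_w hwp.2.1.1 hq
    have hle := hv.st_le
    rcases (h.2.2.2.2.perm hF).inv with ⟨h3, h4, _⟩ | ⟨k, κ, hk, hK, _⟩
    · omega
    · by_cases hf : k.Far
      · obtain ⟨_, _, _, h5, h6, _⟩ := hK.far hf
        omega
      · obtain ⟨h5, h6⟩ := hK.near hf
        cases hv with
        | here =>
          have := h5.2.2.1
          omega
        | down hL hv' =>
          have hle' := hv'.st_le
          rcases (h6.perm hL).inv with ⟨h3, h4, _⟩ | ⟨z, τ, hz, hZ, _⟩
          · omega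
          · have h7 := wt1_LRev hT hR (hk.mem_iff.2 List.mem_cons_self)
              (hz.mem_iff.2 List.mem_cons_self) hZ
            omega

theorem live_star {T : St → Prop} (hT : Tab T) {R : St} (hR : T R) {d p c : Dat}
    {F K A : Fo} (h : RS R d F) (hw : WV d F) (hl : LocR p c K d F A) :
    ∃ a, a ∉ p.S ∧ a ∉ c.S := by
  have hwp : WV p (.cons c K A) := hw.eqv hl.eqv.symm
  have hp3 : p.S.card ≤ 3 := by
    have h1 := hwp.1.1.1
    have h2 : p.lab.deg ≤ 4 := by cases p.lab <;> simp [Lab.deg]
    simp only [Fo.labs, List.length_cons] at h1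
    omega
  have hc3 : c.S.card ≤ 3 := by
    have h1 := hwp.rr.1.1.1
    have h2 : c.lab.deg ≤ 4 := by cases c.lab <;> simp [Lab.deg]
    simp only [Fo.labs, List.length_cons] at h1
    omega
  have hpc := card_LRev p
  have hcc := card_LRev c
  cases hl with
  | root hF =>
    rcases (h.2.2.2.2.perm hF).inv with ⟨h3, h4, _⟩ | ⟨k, κ, hk, hK, _⟩
    · exact exists_colour (by omega)
    · by_cases hf : k.Far
      · obtain ⟨_, _, _, h5, h6, _⟩ := hK.far hf
        exact exists_colour (by omega)
      · obtain ⟨h5, h6⟩ := hK.near hf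
        obtain ⟨a, h7, h8⟩ := (hT.live R k hR (h.V hw) (hk.mem_iff.2 List.mem_cons_self)).1
        exact ⟨a, ((ds_LRev h).mem a).1 h7, (h5.mem a).1 h8⟩
  | down hF hv =>
    have hle := hv.p_st
    rcases (h.2.2.2.2.perm hF).inv with ⟨h3, h4, _⟩ | ⟨k, κ, hk, hK, _⟩
    · exact exists_colour (by omega)
    · by_cases hf : k.Far
      · obtain ⟨_, _, _, h5, h6, _⟩ := hK.far hf
        exact exists_colour (by omega)
      · obtain ⟨h5, h6⟩ := hK.near hf
        cases hv with
        | here hL =>
          rcases (h6.perm hL).inv with ⟨h3, h4, _⟩ | ⟨z, τ, hz, hZ, _⟩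
          · exact exists_colour (by omega)
          · have h7 := wt1_LRev hT hR (hk.mem_iff.2 List.mem_cons_self)
              (hz.mem_iff.2 List.mem_cons_self) hZ
            exact exists_colour (by omega)
        | down hL hv' =>
          have hle' := hv'.p_st
          rcases (h6.perm hL).inv with ⟨h3, h4, _⟩ | ⟨z, τ, hz, hZ, _⟩
          · exact exists_colour (by omega)
          · have h7 := wt1_LRev hT hR (hk.mem_iff.2 List.mem_cons_self)
              (hz.mem_iff.2 List.mem_cons_self) hZ
            exact exists_colour (by omega)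

end Pool.Agent.GCI
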