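import Pool.Agent.GCI.LFeq

/-!
# MP_f1ab9c: package LVLoc. Location of a vertex in a rooted piece

Proofs (as for edges in `LLoc`, but easier).
* `VLoc.mono`: induction; `here`: `X' = cons u U' L`.
* `VLocR.rr`: the root moves from `d` to the child `e` (branch `(e, L)`, other branches `F0`). Cases:
  - `root`, `p = d`, `Fp (cons e L F0) X`: now `p = d` is a child of the new root: `VLocR.down (Fp.refl _)
    VLoc.here` with `X' = cons e L F0`.
  - `down`, `Fp (cons e L F0) (cons e1 L1 F1)`, by `Fp.inv`: (i) `e = e1`, `L = L1`, `Fp F0 F1`: cases of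
    `VLoc`: `here`: `p = e` is the new root, `X = cons d F1 L`, `X' = cons d F0 L`. `down`: `Fp L (cons f M
    L0)`, the branch `(f, M)` is at the new root: `VLocR.down` with `VLoc.mono`. (ii) `Fp F1 (cons e L F1')`,
    `Fp F0 (cons e1 L1 F1')`: `VLocR.down (Fp.refl _) (VLoc.down _ _)` with `VLoc.mono`.
* `vdescend`: induction on `Eqv`.
-/

set_option autoImplicit false

namespace Pool.Agent.GCI

theorem VLoc.mono {p u : Dat} {U : Fo} {e : Dat} {L X : Fo}
    (h : VLoc p u U e L X) {U' : Fo} (hU : Feq U U') :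
    ∃ X', VLoc p u U' e L X' ∧ Feq X X' := by
  induction h generalizing U' with
  | here => exact ⟨_, VLoc.here, Feq.cons hU (Feq.refl _)⟩
  | down hp _ ih =>
    obtain ⟨X', h1, h2⟩ := ih (Feq.cons hU (Feq.refl _))
    exact ⟨X', VLoc.down hp h1, h2⟩

theorem VLocR.perm {p d : Dat} {F F' X : Fo} (h : VLocR p d F X)
    (hp : Fp F F') : VLocR p d F' X := by
  cases h with
  | root h1 => exact VLocR.root (hp.symm.trans h1)
  | down h1 h2 => exact VLocR.down (hp.symm.trans h1) h2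

theorem VLocR.rr {p d e : Dat} {L F0 X : Fo}
    (h : VLocR p d (.cons e L F0) X) : ∃ X', VLocR p e (.cons d F0 L) X' ∧ Feq X' X := by
  cases h with
  | root h1 =>
    exact ⟨_, VLocR.down (Fp.refl _) VLoc.here, Feq.of_fp h1⟩
  | down h1 h2 =>
    rcases Fp.inv h1 with ⟨rfl, rfl, h3⟩ | ⟨F1', h3, h4⟩
    · cases h2 with
      | here =>
        exact ⟨_, VLocR.root (Fp.refl _), Feq.cons (Feq.of_fp h3) (Feq.refl _)⟩
      | down h5 h6 =>
        obtain ⟨X', h7, h8⟩ := h6.mono (Feq.cons (Feq.of_fp h3.symm) (Feq.refl _))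
        exact ⟨X', VLocR.down ((Fp.cons d F0 h5).trans (Fp.swap _ _ _ _ _)) h7, h8.symm⟩
    · obtain ⟨X', h7, h8⟩ := h2.mono (Feq.of_fp h3)
      exact ⟨X', VLocR.down (Fp.refl _) (VLoc.down h4 h7), h8.symm⟩

/-- every vertex of a piece is a vertex of the rooted piece -/
theorem vdescend {p d : Dat} {X F : Fo} (h : Eqv p X d F) :
    ∃ X', VLocR p d F X' ∧ Feq X' X := by
  induction h with
  | refl F => exact ⟨F, VLocR.root (Fp.refl _), Feq.refl _⟩
  | perm _ hp ih =>
    obtain ⟨X', h1, h2⟩ := ih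
    exact ⟨X', h1.perm hp, h2⟩
  | rr _ ih =>
    obtain ⟨X', h1, h2⟩ := ih
    obtain ⟨X'', h3, h4⟩ := h1.rr
    exact ⟨X'', h3, h4.trans h2⟩

end Pool.Agent.GCI
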