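import Pool.Agent.GCI.Red

/-!
# MP_f1ab9c: the start of the game and the class of trees
-/

set_option autoImplicit false
set_option linter.unusedSectionVars false

namespace Pool.Agent.GCI

open Relation Pos

variable {V : Type} [Fintype V] [DecidableEq V] {G : SimpleGraph V} {lab : V → Lab}

/-! ### Existence of the representation -/

open Classical in
/-- the vertices beyond `u` seen from `v` -/
noncomputable def sd (G : SimpleGraph V) (v u : V) : Finset V :=
  Finset.univ.filter fun x => G.dist x u < G.dist x v

theorem sd_lt (hG : G.IsTree) {v u w : V} (h1 : G.Adj v u) (h2 : G.Adj u w) (h3 : w ≠ v) :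
    (sd G u w).card < (sd G v u).card := by
  classical
  refine Finset.card_lt_card ⟨?_, ?_⟩
  · intro x hx
    simp only [sd, Finset.mem_filter, Finset.mem_univ, true_and] at hx ⊢
    exact side_step hG h1 h2 h3 hx
  · intro hs
    have h4 : u ∈ sd G v u := by
      simp only [sd, Finset.mem_filter, Finset.mem_univ, true_and]
      exact side_self h1
    have h5 := hs h4
    simp [sd] at h5

theorem exists_rf_list {P : Pos V} {v : V} : ∀ us : List V,
    (∀ u ∈ us, ∃ (kus : List V) (K : Fo), kus.Nodup ∧ (∀ x, x ∈ kus ↔ P.H G u x ∧ x ≠ v) ∧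
      RF G lab P u kus K) → ∃ F, RF G lab P v us F := by
  intro us
  induction us with
  | nil => exact fun _ => ⟨.nil, .nil v⟩
  | cons u us ih =>
    intro h
    obtain ⟨kus, K, hn, hk, hK⟩ := h u List.mem_cons_self
    obtain ⟨F, hF⟩ := ih fun w hw => h w (List.mem_cons_of_mem _ hw)
    exact ⟨_, .cons v u us kus K F hn hk hK hF⟩

theorem exists_kids (hG : G.IsTree) {P : Pos V} : ∀ (n : ℕ) (v u : V), G.Adj v u →
    (sd G v u).card ≤ n → ∃ (kus : List V) (K : Fo), kus.Nodup ∧
      (∀ x, x ∈ kus ↔ P.H G u x ∧ x ≠ v) ∧ RF G lab P u kus K := by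
  classical
  intro n
  induction n with
  | zero =>
    intro v u h hc
    have h4 : u ∈ sd G v u := by
      simp only [sd, Finset.mem_filter, Finset.mem_univ, true_and]
      exact side_self h
    have := Finset.card_pos.2 ⟨u, h4⟩
    omega
  | succ n ih =>
    intro v u h hc
    have hk : ∀ x, x ∈ (Finset.univ.filter fun x => P.H G u x ∧ x ≠ v).toList ↔
        P.H G u x ∧ x ≠ v := by
      intro x
      simp
    obtain ⟨K, hK⟩ := exists_rf_list (G := G) (lab := lab) (P := P) (v := u)
      (Finset.univ.filter fun x => P.H G u x ∧ x ≠ v).toList (by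
        intro w hw
        have hw' := (hk w).1 hw
        have := sd_lt hG h hw'.1.1 hw'.2
        exact ih u w hw'.1.1 (by omega))
    exact ⟨_, K, Finset.nodup_toList _, hk, hK⟩

theorem exists_rep (hG : G.IsTree) (P : Pos V) (v : V) : ∃ d F, Rep G lab P v d F := by
  classical
  have hk : ∀ x, x ∈ (Finset.univ.filter fun x => P.H G v x).toList ↔ P.H G v x := by
    intro x
    simp
  obtain ⟨F, hF⟩ := exists_rf_list (G := G) (lab := lab) (P := P) (v := v)
    (Finset.univ.filter fun x => P.H G v x).toList (by
      intro w hw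
      exact exists_kids hG _ v w ((hk w).1 hw).1 le_rfl)
  exact ⟨_, F, rfl, _, Finset.nodup_toList _, hk, hF⟩

/-! ### The first position -/

/-- the first position -/
def start : Pos V := ⟨fun _ => none, fun _ _ => False⟩

theorem start_dat (x : V) : ((start : Pos V).dat G lab x).Clean := by
  refine ⟨?_, ?_, ?_⟩
  · simp [Pos.dat, Pos.S, start]
  · simp [Pos.dat, Pos.wn, start]
  · simp [Pos.dat, Pos.qn, start]

theorem RF.clean {v : V} {us : List V} {F : Fo} (h : RF G lab start v us F) : F.Clean := by
  induction h with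
  | nil v => trivial
  | cons v u us kus K F _ _ _ _ ihK ihF => exact ⟨start_dat u, ihK, ihF⟩

/-- A good family gives a winning strategy on every labelled tree. -/
theorem alice_wins (hG : G.IsTree) (hl : LabOK G lab) {Good : Dat → Fo → Prop}
    (hF : Fam Good) : Wins G true (fun _ => none : Col V 5) := by
  have hcut : CutOK G lab start := fun x y _ _ ho => absurd ho (by simp [start])
  have hprop : Proper G (start : Pos V).c := by
    intro x y z a _ _ h
    simp [start] at h
  refine (wins_aux hG hl hF _ start ⟨hcut, hprop, fun z _ => ?_⟩ le_rfl).1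
  obtain ⟨d, F, hR⟩ := exists_rep (lab := lab) hG start z
  refine ⟨z, d, F, .refl, hR, .good (hF.init (hR.valid hl hprop hcut) ?_ ?_)⟩
  · rw [hR.1]
    exact start_dat z
  · obtain ⟨-, us, -, -, hF'⟩ := hR
    exact hF'.clean

/-! ### The class of trees -/

/-- Every component is a star `K_{1,m}`, `m ≥ 0`. -/
def IsForestOfStars {W : Type} (H : SimpleGraph W) : Prop :=
  ∀ C : H.ConnectedComponent, ∃ m : ℕ,
    Nonempty (C.toSimpleGraph ≃g completeBipartiteGraph (Fin 1) (Fin m))

/-- In a forest of stars there is a set of centres. -/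
theorem exists_centres {W : Type} {H : SimpleGraph W} (h : IsForestOfStars H) :
    ∃ c : W → Bool, (∀ x y, H.Adj x y → c x ≠ c y) ∧
      ∀ x y z, H.Adj x y → H.Adj x z → c y = true → c z = true → y = z := by
  classical
  choose m hm using h
  let f : ∀ C : H.ConnectedComponent,
    C.toSimpleGraph ≃g completeBipartiteGraph (Fin 1) (Fin (m C)) := fun C => (hm C).some
  let c : W → Bool := fun x => (f (H.connectedComponentMk x) ⟨x, rfl⟩).isLeft
  have hc : ∀ (C : H.ConnectedComponent) (x : W) (hx : H.connectedComponentMk x = C),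
      c x = (f C ⟨x, hx⟩).isLeft := by
    intro C x hx
    subst hx
    rfl
  refine ⟨c, ?_, ?_⟩
  · intro x y hxy
    have hy : H.connectedComponentMk y = H.connectedComponentMk x :=
      (SimpleGraph.ConnectedComponent.connectedComponentMk_eq_of_adj hxy).symm
    rw [hc _ x rfl, hc _ y hy]
    have hadj : (H.connectedComponentMk x).toSimpleGraph.Adj ⟨x, rfl⟩ ⟨y, hy⟩ := hxy
    have h2 := (f _).map_rel_iff.2 hadj
    revert h2
    cases f (H.connectedComponentMk x) ⟨x, rfl⟩ <;>
      cases f (H.connectedComponentMk x) ⟨y, hy⟩ <;> simp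
  · intro x y z hxy hxz h1 h2
    have hy : H.connectedComponentMk y = H.connectedComponentMk x :=
      (SimpleGraph.ConnectedComponent.connectedComponentMk_eq_of_adj hxy).symm
    have hz : H.connectedComponentMk z = H.connectedComponentMk x :=
      (SimpleGraph.ConnectedComponent.connectedComponentMk_eq_of_adj hxz).symm
    rw [hc _ y hy] at h1
    rw [hc _ z hz] at h2
    have h3 : f (H.connectedComponentMk x) ⟨y, hy⟩ = f (H.connectedComponentMk x) ⟨z, hz⟩ := by
      revert h1 h2
      cases f (H.connectedComponentMk x) ⟨y, hy⟩ <;>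
        cases f (H.connectedComponentMk x) ⟨z, hz⟩ <;> simp
      exact Subsingleton.elim _ _
    have h4 := (f (H.connectedComponentMk x)).injective h3
    exact congrArg Subtype.val h4

theorem exists_lab [DecidableRel G.Adj] (hG : G.IsTree) (hd : G.maxDegree = 4)
    (hs : IsForestOfStars (G.induce {v | G.degree v = 4})) :
    ∃ lab : V → Lab, LabOK G lab := by
  classical
  obtain ⟨c, hc1, hc2⟩ := exists_centres hs
  have hnb : ∀ x, (nb G x).card = G.degree x := by
    intro x
    rw [← SimpleGraph.card_neighborFinset_eq_degree]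
    congr 1
    ext y
    simp [nb]
  have hle : ∀ x, G.degree x ≤ 4 := fun x => hd ▸ G.degree_le_maxDegree x
  have hpos : ∀ x, 0 < G.degree x := by
    have hne : Nonempty V := hG.connected.nonempty
    obtain ⟨z, hz⟩ := G.exists_maximal_degree_vertex
    intro x
    rw [hd] at hz
    obtain ⟨y, hy⟩ : ∃ y, G.Adj z y := by
      have : 0 < (G.neighborFinset z).card := by
        rw [SimpleGraph.card_neighborFinset_eq_degree]
        omega
      obtain ⟨y, hy⟩ := Finset.card_pos.1 this
      exact ⟨y, (G.mem_neighborFinset z y).1 hy⟩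
    have : Nontrivial V := ⟨z, y, hy.ne⟩
    exact hG.connected.preconnected.degree_pos_of_nontrivial x
  let lab : V → Lab := fun x => if h : G.degree x = 4 then
    (if c ⟨x, h⟩ = true then .ctr else .leaf) else
    (if G.degree x = 3 then .three else if G.degree x = 2 then .two else .one)
  have h4 : ∀ x (h : G.degree x = 4), lab x = if c ⟨x, h⟩ = true then .ctr else .leaf := by
    intro x h
    simp only [lab]
    rw [dif_pos h]
  have hn4 : ∀ x, lab x = .ctr ∨ lab x = .leaf → G.degree x = 4 := by
    intro x h
    by_contra hx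
    simp only [lab] at h
    rw [dif_neg hx] at h
    split_ifs at h <;> simp at h
  have hctr : ∀ x (h : G.degree x = 4), lab x = .ctr → c ⟨x, h⟩ = true := by
    intro x h hx
    rw [h4 x h] at hx
    by_contra hc
    rw [if_neg hc] at hx
    exact absurd hx (by decide)
  have hleaf : ∀ x (h : G.degree x = 4), lab x = .leaf → c ⟨x, h⟩ ≠ true := by
    intro x h hx
    rw [h4 x h] at hx
    intro hc
    rw [if_pos hc] at hx
    exact absurd hx (by decide)
  refine ⟨lab, ?_, ?_, ?_, ?_⟩
  · intro x
    rw [hnb]
    have h1 := hle x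
    have h2 := hpos x
    by_cases h : G.degree x = 4
    · rw [h4 x h, h]
      split_ifs <;> rfl
    · simp only [lab]
      rw [dif_neg h]
      split_ifs with h3 h3'
      · rw [h3]; rfl
      · rw [h3']; rfl
      · have : G.degree x = 1 := by omega
        rw [this]; rfl
  · intro x y hxy hx hy
    have dx := hn4 x (Or.inl hx)
    have dy := hn4 y (Or.inl hy)
    have := hc1 ⟨x, dx⟩ ⟨y, dy⟩ hxy
    rw [hctr x dx hx, hctr y dy hy] at this
    exact this rfl
  · intro x y hxy hx hy
    have dx := hn4 x (Or.inr hx)
    have dy := hn4 y (Or.inr hy)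
    have := hc1 ⟨x, dx⟩ ⟨y, dy⟩ hxy
    rw [Bool.eq_false_iff.2 (hleaf x dx hx), Bool.eq_false_iff.2 (hleaf y dy hy)] at this
    exact this rfl
  · intro x y z hx hxy hxz hy hz
    have dx := hn4 x (Or.inr hx)
    have dy := hn4 y (Or.inl hy)
    have dz := hn4 z (Or.inl hz)
    have := hc2 ⟨x, dx⟩ ⟨y, dy⟩ ⟨z, dz⟩ hxy hxz (hctr y dy hy) (hctr z dz hz)
    exact congrArg Subtype.val this

/-- The reduction of the problem to the existence of a good family. -/
theorem gameIndex_le [DecidableRel G.Adj] {Good : Dat → Fo → Prop} (hF : Fam Good)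
    (hG : G.IsTree) (hd : G.maxDegree = 4)
    (hs : IsForestOfStars (G.induce {v | G.degree v = 4})) : gameIndex G ≤ 5 := by
  obtain ⟨lab, hl⟩ := exists_lab hG hd hs
  exact Nat.sInf_le (alice_wins hG hl hF)

end Pool.Agent.GCI
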