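import Pool.Agent.GCI.LBob
import Pool.Agent.GCI.LQ
import Pool.Agent.GCI.LRev
import Pool.Agent.GCI.LVLoc
import Pool.Agent.GCI.LNeut
import Pool.Agent.GCI.Start

/-!
# MP_f1ab9c: package LFam. The good pieces of a table form a good family

Proof. `perm`, `rr`: `Gd.eqv`. In all other fields: `Gd T` gives `WV`, and either weight at most `2`
(`small_rev`, `small_bobE`, `small_bobQ`; `live`: `exists_colour`; ) or `π`, `Eqv d F d' F'`, `RS R (d'.map π)
(F'.map π)`, `T R`. By `Eqv.map` the mapped pieces are `Eqv`; `descend` / `vdescend` locate the mapped edge or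
vertex in the mapped star (`WV.map`, `WV.eqv`), `bob_star`, `conv_star`, `rev_star`, `live_star` with the
colour `π a` (`Dat.mem_map`), then `Ans2.feq`, `OK.feq`, `Al.feq`, and back with `Ans2.of_map`, `OK.of_map`,
`Al.of_map` (`Dat.add_map`, `Dat.answer_map`, `Dat.reveal_map`). In the second case of `descend` use
`Ans2.swap`. `live`: a colour `b` outside of both mapped sets, take `π⁻¹ b`. `neut`: `neutral` with `OK.good`.
`init`: weight `0` and the conditions `W` for clean data (induction).
-/

set_option autoImplicit false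

namespace Pool.Agent.GCI

private theorem clean_LFam {F : Fo} (h : F.Clean) : F.wt = 0 ∧ F.W := by
  induction F with
  | nil => exact ⟨rfl, trivial⟩
  | cons d K F ihK ihF =>
    obtain ⟨⟨h1, h2, h3⟩, hK, hF⟩ := h
    obtain ⟨a1, a2⟩ := ihK hK
    obtain ⟨b1, b2⟩ := ihF hF
    refine ⟨?_, ?_, a2, b2⟩
    · simp [Fo.wt, Dat.st, h1, h2, a1, b1]
    · refine ⟨⟨fun _ => h2, fun _ => h3, fun _ => ⟨h2, h3⟩, fun _ h => ?_⟩, by omega, by omega⟩
      omega

theorem fam {T : St → Prop} (hT : Tab T) : Fam (Gd T) where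
  perm h hp := h.eqv (.ofFp hp)
  rr h := h.eqv (.rr1 _ _ _ _)
  rev {d F} a _ hg hw ha := by
    obtain ⟨hwv, h | ⟨π, d', F', R, he, hR, hTR⟩⟩ := hg
    · exact small_rev hwv h ha hw
    · have he' := he.map π
      obtain ⟨X', hl, hX⟩ := vdescend he'
      have hw' : WV (d'.map π) (F'.map π) := (hwv.map π).eqv he'
      have ha' : π a ∉ (d.map π).S := fun h => ha ((Dat.mem_map π d a).1 h)
      have h1 := (rev_star hT hTR hR hw' hl ha' hw).feq hX
      rw [← Dat.reveal_map] at h1
      exact h1.of_map π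
  live {d e F K} _ hg := by
    obtain ⟨hwv, h | ⟨π, d', F', R, he, hR, hTR⟩⟩ := hg
    · refine exists_colour ?_
      simp only [Fo.wt, Dat.st] at h
      omega
    · have he' := he.map π
      have hw' : WV (d'.map π) (F'.map π) := (hwv.map π).eqv he'
      have key : ∃ b, b ∉ (d.map π).S ∧ b ∉ (e.map π).S := by
        rcases descend he' with ⟨A', K', hl, _, _⟩ | ⟨A', K', hl, _, _⟩
        · exact live_star hT hTR hR hw' hl
        · obtain ⟨b, h1, h2⟩ := live_star hT hTR hR hw' hl
          exact ⟨b, h2, h1⟩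
      obtain ⟨b, h1, h2⟩ := key
      refine ⟨π⁻¹ b, fun h => h1 ?_, fun h => h2 ?_⟩
      · have := (Dat.mem_map π d (π⁻¹ b)).2 h
        simpa using this
      · have := (Dat.mem_map π e (π⁻¹ b)).2 h
        simpa using this
  bobE {d e F K} a _ hg hd he0 := by
    obtain ⟨hwv, h | ⟨π, d', F', R, he, hR, hTR⟩⟩ := hg
    · exact small_bobE hT hwv h hd he0
    · have he' := he.map π
      have hw' : WV (d'.map π) (F'.map π) := (hwv.map π).eqv he'
      have hd' : π a ∉ (d.map π).S := fun h => hd ((Dat.mem_map π d a).1 h)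
      have he'' : π a ∉ (e.map π).S := fun h => he0 ((Dat.mem_map π e a).1 h)
      have key : Ans2 (Gd T) ((d.map π).add (π a)) (F.map π) ((e.map π).add (π a)) (K.map π) := by
        rcases descend he' with ⟨A', K', hl, hA, hK⟩ | ⟨A', K', hl, hA, hK⟩
        · exact (bob_star hT hTR hR hw' hl hd' he'').feq hA hK
        · exact ((bob_star hT hTR hR hw' hl he'' hd').feq hK hA).swap
      rw [← Dat.add_map, ← Dat.add_map] at key
      exact key.of_map π
  bobQ {d F} a _ hg hq ha := by
    obtain ⟨hwv, h | ⟨π, d', F', R, he, hR, hTR⟩⟩ := hg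
    · exact small_bobQ hT hwv h ha hq
    · have he' := he.map π
      obtain ⟨X', hl, hX⟩ := vdescend he'
      have hw' : WV (d'.map π) (F'.map π) := (hwv.map π).eqv he'
      have ha' : π a ∉ (d.map π).S := fun h => ha ((Dat.mem_map π d a).1 h)
      rcases conv_star hT hTR hR hw' hl ha' hq with h1 | h1
      · have h2 := h1.feq hX
        rw [← Dat.answer_map] at h2
        exact Or.inl (h2.of_map π)
      · have h2 := h1.feq hX
        rw [← Dat.answer_map] at h2
        exact Or.inr (h2.of_map π)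
  neut {d e F K} hv hg := neutral hT hv (.good hg) (by simp)
  init {d F} hv hd hF := by
    obtain ⟨h1, h2⟩ := clean_LFam hF
    obtain ⟨a1, a2, a3⟩ := hd
    refine ⟨⟨hv, ⟨⟨fun _ => a2, fun _ => a3, fun _ => ⟨a2, a3⟩, fun _ h => ?_⟩, by omega, by omega⟩, h2⟩,
      Or.inl ?_⟩
    · omega
    · simp [Dat.st, a1, a2, h1]

end Pool.Agent.GCI
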