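import Pool.Agent.GCI.LEqv

/-!
# MP_f1ab9c: package LFeq. The relation `Feq`

Proofs. `refl`, `symm`, `trans` from `Eqv`. `of_fp`: `Fp.app`. `cons`: for the tail: the forest
`(cons e K F).app G` is `cons e K (F.app G)` by definition, it is a permutation of `F.app (cons e K G)`
(`Fp.mid`), now use the assumption for `F` with `cons e K G` instead of `G`. For the branch: `(x, cons e K Y)`
is `Eqv` to `(e, cons x Y K)`, then to `(e, K.app (cons x Y nil))` (`Fp.mid` and `app_nil`), then to
`(e, K'.app (cons x Y nil))` by the assumption for `K`, and back.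
-/

set_option autoImplicit false

namespace Pool.Agent.GCI

theorem Feq.refl (F : Fo) : Feq F F := by
  intro x G
  exact .refl _ _

theorem Feq.symm {F F' : Fo} (h : Feq F F') : Feq F' F := by
  intro x G
  exact (h x G).symm

theorem Feq.trans {F F' F'' : Fo} (h : Feq F F') (h' : Feq F' F'') : Feq F F'' := by
  intro x G
  exact (h x G).trans (h' x G)

theorem Feq.of_fp {F F' : Fo} (h : Fp F F') : Feq F F' := by
  intro x G
  exact Eqv.ofFp (h.app G)

theorem Feq.cons {e : Dat} {K K' F F' : Fo} (hK : Feq K K') (hF : Feq F F') :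
    Feq (.cons e K F) (.cons e K' F') := by
  intro x G
  have h1 : Eqv x (.cons e K (F.app G)) x (.cons e K (F'.app G)) :=
    ((Eqv.ofFp (Fp.mid e K F G).symm).trans (hF x (.cons e K G))).trans
      (Eqv.ofFp (Fp.mid e K F' G))
  have hm : ∀ (J Y : Fo), Eqv x (.cons e J Y) e (J.app (.cons x Y .nil)) := by
    intro J Y
    have h2 : Fp (.cons x Y J) (J.app (.cons x Y .nil)) := by
      have h3 := (Fp.mid x Y J .nil).symm
      rwa [Fo.app_nil] at h3
    exact .perm (Eqv.rr1 x e Y J) h2
  exact h1.trans (((hm K _).trans (hK e (.cons x (F'.app G) .nil))).trans (hm K' _).symm)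

theorem Feq.eqv {F F' : Fo} (h : Feq F F') (x : Dat) : Eqv x F x F' := by
  have h1 := h x .nil
  rwa [Fo.app_nil, Fo.app_nil] at h1

end Pool.Agent.GCI
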