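import Pool.Agent.GCI.LEqv

/-!
# MP_f1ab9c: package LInv. Invariants of `Fp` and `Eqv`

Proofs. Everything by induction on `Fp` (for all forests and labels) and then by induction on `Eqv`. The
conditions `Valid`, `W`, weight and size are sums or conjunctions over all vertices; for `rr` compare
`Valid d (cons e K F)`, that is `NodeOK d (e.lab :: F.labs) ∧ NodeOK e (d.lab :: K.labs) ∧ K.Val e.lab ∧
F.Val d.lab`, with `Valid e (cons d F K)`. `NodeOK d L` depends only on `L` up to permutations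
(`List.Perm.length_eq`, `List.Perm.count_eq`, `List.Perm.mem_iff`).
-/

set_option autoImplicit false

namespace Pool.Agent.GCI

theorem Fp.labs {F F' : Fo} (h : Fp F F') : F.labs.Perm F'.labs := by
  induction h with
  | refl F => exact List.Perm.refl _
  | swap d e K L F => exact List.Perm.swap _ _ _
  | cons d K _ ih => exact ih.cons _
  | trans _ _ ih1 ih2 => exact ih1.trans ih2

theorem NodeOK.perm {d : Dat} {L L' : List Lab} (h : NodeOK d L) (hp : L.Perm L') :
    NodeOK d L' := by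
  obtain ⟨h1, h2, h3⟩ := h
  refine ⟨?_, fun hd hm => h2 hd (hp.mem_iff.2 hm),
    fun hd => ⟨fun hm => (h3 hd).1 (hp.mem_iff.2 hm), ?_⟩⟩
  · rw [← hp.length_eq]; exact h1
  · rw [← hp.count_eq]; exact (h3 hd).2

theorem Fp.wt {F F' : Fo} (h : Fp F F') : F.wt = F'.wt := by
  induction h with
  | refl F => rfl
  | swap d e K L F => simp only [Fo.wt]; omega
  | cons d K _ ih => simp only [Fo.wt]; omega
  | trans _ _ ih1 ih2 => exact ih1.trans ih2

theorem Fp.size {F F' : Fo} (h : Fp F F') : F.size = F'.size := by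
  induction h with
  | refl F => rfl
  | swap d e K L F => simp only [Fo.size]; omega
  | cons d K _ ih => simp only [Fo.size]; omega
  | trans _ _ ih1 ih2 => exact ih1.trans ih2

theorem Fp.W {F F' : Fo} (h : Fp F F') (hF : F.W) : F'.W := by
  induction h with
  | refl F => exact hF
  | swap d e K L F =>
    obtain ⟨h1, h2, h3, h4, h5⟩ := hF
    exact ⟨h3, h4, h1, h2, h5⟩
  | cons d K _ ih => exact ⟨hF.1, hF.2.1, ih hF.2.2⟩
  | trans _ _ ih1 ih2 => exact ih2 (ih1 hF)

theorem Fp.NW {F F' : Fo} (h : Fp F F') (hF : F.NW) : F'.NW := by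
  induction h with
  | refl F => exact hF
  | swap d e K L F =>
    obtain ⟨h1, h2, h3, h4, h5⟩ := hF
    exact ⟨h3, h4, h1, h2, h5⟩
  | cons d K _ ih => exact ⟨hF.1, hF.2.1, ih hF.2.2⟩
  | trans _ _ ih1 ih2 => exact ih2 (ih1 hF)

theorem Fp.Val {F F' : Fo} (h : Fp F F') {p : Lab} (hF : F.Val p) : F'.Val p := by
  induction h with
  | refl F => exact hF
  | swap d e K L F =>
    obtain ⟨h1, h2, h3, h4, h5⟩ := hF
    exact ⟨h3, h4, h1, h2, h5⟩
  | cons d K _ ih => exact ⟨hF.1, hF.2.1, ih hF.2.2⟩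
  | trans _ _ ih1 ih2 => exact ih2 (ih1 hF)

theorem Valid.perm {d : Dat} {F F' : Fo} (h : Valid d F) (hp : Fp F F') : Valid d F' :=
  ⟨h.1.perm hp.labs, hp.Val h.2⟩

theorem Valid.rr {d e : Dat} {F K : Fo} (h : Valid d (.cons e K F)) : Valid e (.cons d F K) := by
  obtain ⟨h1, h2, h3, h4⟩ := h
  exact ⟨h2, h1, h4, h3⟩

theorem Valid.eqv {d d' : Dat} {F F' : Fo} (h : Valid d F) (he : Eqv d F d' F') :
    Valid d' F' := by
  induction he with
  | refl => exact h
  | perm _ hp ih => exact (ih h).perm hp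
  | rr _ ih => exact (ih h).rr

theorem WV.perm {d : Dat} {F F' : Fo} (h : WV d F) (hp : Fp F F') : WV d F' :=
  ⟨h.1.perm hp, h.2.1, hp.W h.2.2⟩

theorem WV.rr {d e : Dat} {F K : Fo} (h : WV d (.cons e K F)) : WV e (.cons d F K) := by
  obtain ⟨h1, h2, h3, h4, h5⟩ := h
  exact ⟨h1.rr, h3, h2, h5, h4⟩

theorem WV.eqv {d d' : Dat} {F F' : Fo} (h : WV d F) (he : Eqv d F d' F') : WV d' F' := by
  induction he with
  | refl => exact h
  | perm _ hp ih => exact (ih h).perm hp
  | rr _ ih => exact (ih h).rr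

theorem Eqv.wt {d d' : Dat} {F F' : Fo} (h : Eqv d F d' F') :
    d.st + F.wt = d'.st + F'.wt := by
  induction h with
  | refl => rfl
  | perm _ hp ih => rw [ih, hp.wt]
  | rr _ ih => simp only [Fo.wt] at ih ⊢; omega

theorem Eqv.size {d d' : Dat} {F F' : Fo} (h : Eqv d F d' F') : F.size = F'.size := by
  induction h with
  | refl => rfl
  | perm _ hp ih => rw [ih, hp.size]
  | rr _ ih => simp only [Fo.size] at ih ⊢; omega

theorem Fo.size_eq_zero {F : Fo} : F.size = 0 ↔ F = .nil := by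
  cases F with
  | nil => simp [Fo.size]
  | cons d K F => simp [Fo.size]

/-- A forest of weight at most `1` has no edges `*`, since a vertex with `*` also has a coloured edge. -/
theorem Fo.NW_of_wt {F : Fo} (h : F.wt ≤ 1) (hF : F.W) : F.NW := by
  induction F with
  | nil => trivial
  | cons d K F ihK ihF =>
    obtain ⟨h1, h2, h3⟩ := hF
    simp only [Fo.wt, Dat.st] at h
    refine ⟨?_, ihK (by omega) h2, ihF (by omega) h3⟩
    by_contra hw
    have hS : d.S.card ≠ 0 := fun hc => hw (h1.1.2.2.1 (Finset.card_eq_zero.1 hc)).1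
    omega

end Pool.Agent.GCI
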