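import Pool.Agent.GCI.LDef

/-!
# MP_f1ab9c: package LMask. Masks of sets of colours

Proofs. There are 32 subsets of `Fin 5`, so all statements can be decided (`decide` over all `S`,
`revert`, possibly after writing `S` with `Finset.univ` or `fin_cases`), `mask_image` also with the
general formula `mask S = ∑ i ∈ S, 2 ^ i`: `hs_mask` gives `Finset.univ.filter (fun i => hs (mask S) i) = S`.
-/

set_option autoImplicit false

namespace Pool.Agent.GCI

theorem pc_mask (S : Finset (Fin 5)) : pc (mask S) = S.card := by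
  revert S; decide

theorem hs_mask (S : Finset (Fin 5)) (a : Fin 5) : hs (mask S) a = true ↔ a ∈ S := by
  revert S a; decide

theorem ad_mask (S : Finset (Fin 5)) (a : Fin 5) : ad (mask S) a = mask (insert a S) := by
  revert S a; decide

theorem mask_lt (S : Finset (Fin 5)) : mask S < 32 := by
  revert S; decide

theorem mask_eq_zero {S : Finset (Fin 5)} : mask S = 0 ↔ S = ∅ := by
  revert S; decide

theorem mask_empty : mask ∅ = 0 := by
  decide

theorem mask_inj {S S' : Finset (Fin 5)} (h : mask S = mask S') : S = S' := by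
  ext a
  rw [← hs_mask, ← hs_mask, h]

theorem mask_single (a : Fin 5) : mask {a} = 2 ^ a.1 := by
  revert a; decide

theorem ad_zero (a : Fin 5) : ad 0 a = 2 ^ a.1 := by
  revert a; decide

theorem ad_ne_zero (n : ℕ) (a : Fin 5) : ad n a ≠ 0 := by
  intro h
  have h2 : (n ||| 2 ^ (a : ℕ)).testBit a = true := by
    simp [Nat.testBit_or, Nat.testBit_two_pow_self]
  have h3 : n ||| 2 ^ (a : ℕ) = 0 := h
  rw [h3] at h2
  simp at h2

theorem pc_pow (a : Fin 5) : pc (2 ^ a.1) = 1 := by
  revert a; decide

theorem pc_zero : pc 0 = 0 := by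
  decide

theorem pmask_mask (π : Equiv.Perm (Fin 5)) (S : Finset (Fin 5)) :
    pmask π (mask S) = mask (S.image π) := by
  have h : (Finset.univ.filter fun i => hs (mask S) i = true) = S := by
    ext i
    simp [hs_mask]
  unfold pmask
  rw [h]

theorem exists_mask {n : ℕ} (h : n < 32) : ∃ S : Finset (Fin 5), mask S = n := by
  have : ∀ n : Fin 32, ∃ S : Finset (Fin 5), mask S = n.1 := by decide +kernel
  exact this ⟨n, h⟩

theorem mask_single_of_card {S : Finset (Fin 5)} (h : S.card = 1) : ∃ a, S = {a} :=
  Finset.card_eq_one.1 h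

theorem exists_colour {S S' : Finset (Fin 5)} (h : S.card + S'.card ≤ 4) :
    ∃ a, a ∉ S ∧ a ∉ S' := by
  have h1 : (S ∪ S').card < (Finset.univ : Finset (Fin 5)).card := by
    refine lt_of_le_of_lt (Finset.card_union_le S S') ?_
    simp
    omega
  obtain ⟨a, -, ha⟩ := Finset.exists_mem_notMem_of_card_lt_card h1
  rw [Finset.mem_union, not_or] at ha
  exact ⟨a, ha.1, ha.2⟩

end Pool.Agent.GCI
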