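import Pool.Agent.GCI.LInv
import Pool.Agent.GCI.LMask
import Pool.Agent.GCI.LPart

/-!
# MP_f1ab9c: package LKs. Lemmas on the descriptions `K0s`, `Ks`, `RS`

Proofs.
* `perm`: induction on `Fp`; for `swap` do cases twice and use `Multiset.cons_swap` (`trans`
  trivial).
* `inv`: cases; a multiset `(l : Multiset _) = k ::ₘ κ'` gives `k ∈ l`, `κ' = l.erase k` and
  `l.Perm (k :: l.erase k)` (`Multiset.coe_eq_coe`, `Multiset.coe_erase`, `List.perm_cons_erase`).
* `get`: induction on the description of `F` (for all lists), or on `F`: if the first tree is clean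
  or described by another element then use the induction hypothesis for the rest of the forest and a
  swap. It is convenient to prove first the version with `k ::ₘ κ` for multisets.
* `clean`: induction: if the first tree is clean we are done, otherwise the first tree takes one
  element of `κ` and one of the trees (`labs.length`), use the induction hypothesis and a swap.
* `wt`: induction, with `pc_mask`, `Dat.st`, and for `IsK0`: `e.w = 0` so `e.st = e.S.card = pc
  z.s`, and `z.s = 0` gives `e.S = ∅`.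
* `up`, `down`: a branch described by `z.up = ⟨z.l, z.s, z.q, []⟩` is far if and only if `z.s = 0`,
  and otherwise `K0s 0 K`, that is `K.wt = 0`. -/

set_option autoImplicit false

namespace Pool.Agent.GCI

theorem K0s.perm {κ : Multiset K0} {F F' : Fo} (h : K0s κ F) (hp : Fp F F') : K0s κ F' := by
  induction hp generalizing κ with
  | refl F => exact h
  | swap d e K L F =>
    cases h with
    | cln h1 h2 h3 =>
      cases h3 with
      | cln g1 g2 g3 => exact .cln g1 g2 (.cln h1 h2 g3)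
      | kid g1 g3 => exact .kid g1 (.cln h1 h2 g3)
    | kid h1 h3 =>
      cases h3 with
      | cln g1 g2 g3 => exact .cln g1 g2 (.kid h1 g3)
      | kid g1 g3 =>
        rw [Multiset.cons_swap]
        exact .kid g1 (.kid h1 g3)
  | cons d K _ ih =>
    cases h with
    | cln h1 h2 h3 => exact .cln h1 h2 (ih h3)
    | kid h1 h3 => exact .kid h1 (ih h3)
  | trans _ _ ih1 ih2 => exact ih2 (ih1 h)

theorem Ks.perm {κ : Multiset Kd} {F F' : Fo} (h : Ks κ F) (hp : Fp F F') : Ks κ F' := by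
  induction hp generalizing κ with
  | refl F => exact h
  | swap d e K L F =>
    cases h with
    | cln h1 h2 h3 =>
      cases h3 with
      | cln g1 g2 g3 => exact .cln g1 g2 (.cln h1 h2 g3)
      | kid g1 g3 => exact .kid g1 (.cln h1 h2 g3)
    | kid h1 h3 =>
      cases h3 with
      | cln g1 g2 g3 => exact .cln g1 g2 (.kid h1 g3)
      | kid g1 g3 =>
        rw [Multiset.cons_swap]
        exact .kid g1 (.kid h1 g3)
  | cons d K _ ih =>
    cases h with
    | cln h1 h2 h3 => exact .cln h1 h2 (ih h3)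
    | kid h1 h3 => exact .kid h1 (ih h3)
  | trans _ _ ih1 ih2 => exact ih2 (ih1 h)

private theorem K0s_zero_LKs {κ : Multiset K0} {F : Fo} (h : K0s κ F) (h0 : κ = 0) :
    F.wt = 0 := by
  induction h with
  | nil => rfl
  | cln h1 h2 _ ih =>
    have := ih h0
    simp only [Fo.wt]
    omega
  | kid _ _ _ => exact absurd h0 (Multiset.cons_ne_zero)

private theorem Ks_zero_LKs {κ : Multiset Kd} {F : Fo} (h : Ks κ F) (h0 : κ = 0) :
    F.wt = 0 := by
  induction h with
  | nil => rfl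
  | cln h1 h2 _ ih =>
    have := ih h0
    simp only [Fo.wt]
    omega
  | kid _ _ _ => exact absurd h0 (Multiset.cons_ne_zero)

theorem K0s.zero {F : Fo} : K0s 0 F ↔ F.wt = 0 := by
  constructor
  · intro h
    exact K0s_zero_LKs h rfl
  · intro h
    induction F with
    | nil => exact .nil
    | cons d K F _ ihF =>
      simp only [Fo.wt] at h
      exact .cln (by omega) (by omega) (ihF (by omega))

theorem Ks.zero {F : Fo} : Ks 0 F ↔ F.wt = 0 := by
  constructor
  · intro h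
    exact Ks_zero_LKs h rfl
  · intro h
    induction F with
    | nil => exact .nil
    | cons d K F _ ihF =>
      simp only [Fo.wt] at h
      exact .cln (by omega) (by omega) (ihF (by omega))

/-- the description of the first tree -/
theorem K0s.inv {l : List K0} {e : Dat} {K F : Fo} (h : K0s (l : Multiset K0) (.cons e K F)) :
    (e.st = 0 ∧ K.wt = 0 ∧ K0s (l : Multiset K0) F) ∨
      ∃ (z : K0) (τ : List K0), l.Perm (z :: τ) ∧ IsK0 z e K ∧ K0s (τ : Multiset K0) F := by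
  generalize hm : (l : Multiset K0) = m at h
  cases h with
  | cln h1 h2 h3 => exact Or.inl ⟨h1, h2, h3⟩
  | @kid μ x _ _ _ h1 h3 =>
    right
    obtain ⟨τ, rfl⟩ := Quot.exists_rep μ
    refine ⟨x, τ, ?_, h1, h3⟩
    exact Multiset.coe_eq_coe.1 hm

theorem Ks.inv {l : List Kd} {e : Dat} {K F : Fo} (h : Ks (l : Multiset Kd) (.cons e K F)) :
    (e.st = 0 ∧ K.wt = 0 ∧ Ks (l : Multiset Kd) F) ∨
      ∃ (k : Kd) (κ : List Kd), l.Perm (k :: κ) ∧ IsK k e K ∧ Ks (κ : Multiset Kd) F := by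
  generalize hm : (l : Multiset Kd) = m at h
  cases h with
  | cln h1 h2 h3 => exact Or.inl ⟨h1, h2, h3⟩
  | @kid μ x _ _ _ h1 h3 =>
    right
    obtain ⟨τ, rfl⟩ := Quot.exists_rep μ
    refine ⟨x, τ, ?_, h1, h3⟩
    exact Multiset.coe_eq_coe.1 hm

private theorem K0s_get_LKs {κ : Multiset K0} {F : Fo} (h : K0s κ F) : ∀ (z : K0) (τ : Multiset K0),
    κ = z ::ₘ τ → ∃ (e : Dat) (K F0 : Fo), Fp F (.cons e K F0) ∧ IsK0 z e K ∧ K0s τ F0 := by
  induction h with
  | nil =>
    intro z τ h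
    exact absurd h.symm Multiset.cons_ne_zero
  | @cln κ e K F h1 h2 h3 ih =>
    intro z τ h
    obtain ⟨e', K', F0, g1, g2, g3⟩ := ih z τ h
    exact ⟨e', K', .cons e K F0, (Fp.cons e K g1).trans (.swap _ _ _ _ _), g2, .cln h1 h2 g3⟩
  | @kid κ k e K F h1 h3 ih =>
    intro z τ h
    rcases Multiset.cons_eq_cons.1 h with ⟨rfl, rfl⟩ | ⟨_, cs, rfl, rfl⟩
    · exact ⟨e, K, F, .refl _, h1, h3⟩
    · obtain ⟨e', K', F0, g1, g2, g3⟩ := ih z cs rfl
      exact ⟨e', K', .cons e K F0, (Fp.cons e K g1).trans (.swap _ _ _ _ _), g2, .kid h1 g3⟩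

private theorem Ks_get_LKs {κ : Multiset Kd} {F : Fo} (h : Ks κ F) : ∀ (z : Kd) (τ : Multiset Kd),
    κ = z ::ₘ τ → ∃ (e : Dat) (K F0 : Fo), Fp F (.cons e K F0) ∧ IsK z e K ∧ Ks τ F0 := by
  induction h with
  | nil =>
    intro z τ h
    exact absurd h.symm Multiset.cons_ne_zero
  | @cln κ e K F h1 h2 h3 ih =>
    intro z τ h
    obtain ⟨e', K', F0, g1, g2, g3⟩ := ih z τ h
    exact ⟨e', K', .cons e K F0, (Fp.cons e K g1).trans (.swap _ _ _ _ _), g2, .cln h1 h2 g3⟩
  | @kid κ k e K F h1 h3 ih =>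
    intro z τ h
    rcases Multiset.cons_eq_cons.1 h with ⟨rfl, rfl⟩ | ⟨_, cs, rfl, rfl⟩
    · exact ⟨e, K, F, .refl _, h1, h3⟩
    · obtain ⟨e', K', F0, g1, g2, g3⟩ := ih z cs rfl
      exact ⟨e', K', .cons e K F0, (Fp.cons e K g1).trans (.swap _ _ _ _ _), g2, .kid h1 g3⟩

private theorem K0s_card_LKs {κ : Multiset K0} {F : Fo} (h : K0s κ F) :
    κ.card ≤ F.labs.length := by
  induction h with
  | nil => simp [Fo.labs]
  | cln h1 h2 _ ih =>
    simp only [Fo.labs, List.length_cons]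
    omega
  | kid _ _ ih =>
    simp only [Fo.labs, List.length_cons, Multiset.card_cons]
    omega

private theorem Ks_card_LKs {κ : Multiset Kd} {F : Fo} (h : Ks κ F) :
    κ.card ≤ F.labs.length := by
  induction h with
  | nil => simp [Fo.labs]
  | cln h1 h2 _ ih =>
    simp only [Fo.labs, List.length_cons]
    omega
  | kid _ _ ih =>
    simp only [Fo.labs, List.length_cons, Multiset.card_cons]
    omega

private theorem K0s_clean_LKs {κ : Multiset K0} {F : Fo} (h : K0s κ F)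
    (hl : κ.card < F.labs.length) : ∃ (e : Dat) (K F0 : Fo), Fp F (.cons e K F0) ∧ e.st = 0 ∧
      K.wt = 0 ∧ K0s κ F0 := by
  induction h with
  | nil => simp [Fo.labs] at hl
  | @cln κ e K F h1 h2 h3 ih => exact ⟨e, K, F, .refl _, h1, h2, h3⟩
  | @kid κ k e K F h1 h3 ih =>
    simp only [Fo.labs, List.length_cons, Multiset.card_cons] at hl
    obtain ⟨e', K', F0, g1, g2, g3, g4⟩ := ih (by omega)
    exact ⟨e', K', .cons e K F0, (Fp.cons e K g1).trans (.swap _ _ _ _ _), g2, g3, .kid h1 g4⟩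

private theorem Ks_clean_LKs {κ : Multiset Kd} {F : Fo} (h : Ks κ F)
    (hl : κ.card < F.labs.length) : ∃ (e : Dat) (K F0 : Fo), Fp F (.cons e K F0) ∧ e.st = 0 ∧
      K.wt = 0 ∧ Ks κ F0 := by
  induction h with
  | nil => simp [Fo.labs] at hl
  | @cln κ e K F h1 h2 h3 ih => exact ⟨e, K, F, .refl _, h1, h2, h3⟩
  | @kid κ k e K F h1 h3 ih =>
    simp only [Fo.labs, List.length_cons, Multiset.card_cons] at hl
    obtain ⟨e', K', F0, g1, g2, g3, g4⟩ := ih (by omega)
    exact ⟨e', K', .cons e K F0, (Fp.cons e K g1).trans (.swap _ _ _ _ _), g2, g3, .kid h1 g4⟩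

/-- the tree which is described by an element of the list -/
theorem K0s.get {l : List K0} {z : K0} {τ : List K0} {F : Fo} (h : K0s (l : Multiset K0) F)
    (hl : l.Perm (z :: τ)) : ∃ (e : Dat) (K F0 : Fo), Fp F (.cons e K F0) ∧ IsK0 z e K ∧
      K0s (τ : Multiset K0) F0 := by
  exact K0s_get_LKs h _ _ (Multiset.coe_eq_coe.2 hl)

theorem Ks.get {l : List Kd} {k : Kd} {κ : List Kd} {F : Fo} (h : Ks (l : Multiset Kd) F)
    (hl : l.Perm (k :: κ)) : ∃ (e : Dat) (K F0 : Fo), Fp F (.cons e K F0) ∧ IsK k e K ∧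
      Ks (κ : Multiset Kd) F0 := by
  exact Ks_get_LKs h _ _ (Multiset.coe_eq_coe.2 hl)

theorem K0s.len {l : List K0} {F : Fo} (h : K0s (l : Multiset K0) F) :
    l.length ≤ F.labs.length := by
  exact K0s_card_LKs h

theorem Ks.len {l : List Kd} {F : Fo} (h : Ks (l : Multiset Kd) F) :
    l.length ≤ F.labs.length := by
  exact Ks_card_LKs h

/-- a clean tree -/
theorem K0s.clean {l : List K0} {F : Fo} (h : K0s (l : Multiset K0) F)
    (hl : l.length < F.labs.length) : ∃ (e : Dat) (K F0 : Fo), Fp F (.cons e K F0) ∧ e.st = 0 ∧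
      K.wt = 0 ∧ K0s (l : Multiset K0) F0 := by
  exact K0s_clean_LKs h hl

theorem Ks.clean {l : List Kd} {F : Fo} (h : Ks (l : Multiset Kd) F)
    (hl : l.length < F.labs.length) : ∃ (e : Dat) (K F0 : Fo), Fp F (.cons e K F0) ∧ e.st = 0 ∧
      K.wt = 0 ∧ Ks (l : Multiset Kd) F0 := by
  exact Ks_clean_LKs h hl

theorem K0s.permList {l l' : List K0} {F : Fo} (h : K0s (l : Multiset K0) F) (hl : l.Perm l') :
    K0s (l' : Multiset K0) F := by
  rw [← Multiset.coe_eq_coe.2 hl]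
  exact h

theorem Ks.permList {l l' : List Kd} {F : Fo} (h : Ks (l : Multiset Kd) F) (hl : l.Perm l') :
    Ks (l' : Multiset Kd) F := by
  rw [← Multiset.coe_eq_coe.2 hl]
  exact h

theorem K0s.addKid {τ : List K0} {z : K0} {e : Dat} {K F : Fo} (hz : IsK0 z e K)
    (h : K0s (τ : Multiset K0) F) : K0s ((z :: τ : List K0) : Multiset K0) (.cons e K F) := by
  exact K0s.kid hz h

theorem Ks.addKid {κ : List Kd} {k : Kd} {e : Dat} {K F : Fo} (hk : IsK k e K)
    (h : Ks (κ : Multiset Kd) F) : Ks ((k :: κ : List Kd) : Multiset Kd) (.cons e K F) := by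
  exact Ks.kid hk h

/-- the trees are clean if the list is shorter than the weight -/
theorem IsK0.wt {z : K0} {e : Dat} {K : Fo} (h : IsK0 z e K) : e.st + K.wt = z.wt := by
  obtain ⟨h1, h2, h3, h4, h5⟩ := h
  unfold Dat.st K0.wt
  rw [h3, h5]
  by_cases hs : z.s = 0
  · have : e.S = ∅ := mask_eq_zero.1 (h2.trans hs)
    simp [hs, this]
  · rw [if_neg hs, if_neg hs, ← h2, pc_mask]
    rfl

private theorem K0s_wt_LKs {κ : Multiset K0} {F : Fo} (h : K0s κ F) :
    F.wt = (κ.map K0.wt).sum := by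
  induction h with
  | nil => rfl
  | cln h1 h2 _ ih =>
    simp only [Fo.wt]
    omega
  | kid h1 _ ih =>
    have := IsK0.wt h1
    simp only [Fo.wt, Multiset.map_cons, Multiset.sum_cons]
    omega

theorem K0s.wt {l : List K0} {F : Fo} (h : K0s (l : Multiset K0) F) :
    F.wt = (l.map K0.wt).sum := by
  rw [K0s_wt_LKs h, Multiset.map_coe, Multiset.sum_coe]

theorem IsK.wt {k : Kd} {e : Dat} {K : Fo} (h : IsK k e K) : e.st + K.wt = k.wt := by
  obtain ⟨h1, h2, h3, h4, h5⟩ := h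
  unfold Dat.st Kd.wt
  rw [h3]
  rcases h5 with ⟨h5, h6, h7⟩ | ⟨h5, h6⟩
  · have : e.S = ∅ := mask_eq_zero.1 (h2.trans h5)
    rw [if_pos ⟨h5, h6⟩, h7, this]
    rfl
  · have h7 : ¬ (k.s = 0 ∧ k.t = []) := h5
    rw [if_neg h7, K0s.wt h6, ← h2, pc_mask]
    rfl

private theorem Ks_wt_LKs {κ : Multiset Kd} {F : Fo} (h : Ks κ F) :
    F.wt = (κ.map Kd.wt).sum := by
  induction h with
  | nil => rfl
  | cln h1 h2 _ ih =>
    simp only [Fo.wt]
    omega
  | kid h1 _ ih =>
    have := IsK.wt h1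
    simp only [Fo.wt, Multiset.map_cons, Multiset.sum_cons]
    omega

theorem Ks.wt {l : List Kd} {F : Fo} (h : Ks (l : Multiset Kd) F) :
    F.wt = (l.map Kd.wt).sum := by
  rw [Ks_wt_LKs h, Multiset.map_coe, Multiset.sum_coe]

theorem RS.wt {R : St} {d : Dat} {F : Fo} (h : RS R d F) : d.st + F.wt = R.wt := by
  obtain ⟨h1, h2, h3, h4, h5⟩ := h
  unfold Dat.st St.wt
  rw [Ks.wt h5, h3, ← h2, pc_mask]

theorem IsK0.up {z : K0} {e : Dat} {K : Fo} : IsK z.up e K ↔ IsK0 z e K := by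
  unfold IsK IsK0
  have h0 : K0s ((z.up.t : List K0) : Multiset K0) K ↔ K.wt = 0 := K0s.zero
  have h1 : z.up.Far ↔ z.s = 0 := by
    constructor
    · exact fun h => h.1
    · exact fun h => ⟨h, rfl⟩
  rw [h0, h1]
  by_cases hs : z.s = 0
  · simp [K0.up, hs]
  · simp [K0.up, hs]

private theorem K0s_up_LKs {κ : Multiset K0} {F : Fo} (h : K0s κ F) :
    Ks (κ.map K0.up) F := by
  induction h with
  | nil => exact .nil
  | cln h1 h2 _ ih => exact .cln h1 h2 ih
  | kid h1 _ ih =>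
    rw [Multiset.map_cons]
    exact .kid (IsK0.up.2 h1) ih

private theorem Ks_down_LKs {κ' : Multiset Kd} {F : Fo} (h : Ks κ' F) :
    ∀ κ : Multiset K0, κ.map K0.up = κ' → K0s κ F := by
  induction h with
  | nil =>
    intro κ h
    rw [Multiset.map_eq_zero] at h
    rw [h]
    exact .nil
  | cln h1 h2 _ ih =>
    intro κ h
    exact .cln h1 h2 (ih κ h)
  | kid h1 _ ih =>
    intro κ h
    obtain ⟨a, ha, rfl, h3⟩ := (Multiset.map_eq_cons _ _ _ _).2 h
    rw [← Multiset.cons_erase ha]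
    exact .kid (IsK0.up.1 h1) (ih _ h3)

theorem K0s.up {l : List K0} {F : Fo} (h : K0s (l : Multiset K0) F) :
    Ks ((l.map K0.up : List Kd) : Multiset Kd) F := by
  have := K0s_up_LKs h
  rwa [Multiset.map_coe] at this

theorem Ks.down {l : List K0} {F : Fo} (h : Ks ((l.map K0.up : List Kd) : Multiset Kd) F) :
    K0s (l : Multiset K0) F := by
  exact Ks_down_LKs h _ (Multiset.map_coe _ _)

/-- the branch `(e, K)` of the star as a star -/
theorem IsK.near {k : Kd} {e : Dat} {K : Fo} (h : IsK k e K) (hf : ¬ k.Far) :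
    DK k e ∧ K0s (k.t : Multiset K0) K := by
  obtain ⟨h1, h2, h3, h4, h5⟩ := h
  rcases h5 with ⟨h5, h6, h7⟩ | ⟨h5, h6⟩
  · exact absurd ⟨h5, h6⟩ hf
  · exact ⟨⟨h1, h2, h3, h4⟩, h6⟩

/-- a far branch -/
theorem IsK.far {k : Kd} {e : Dat} {K : Fo} (h : IsK k e K) (hf : k.Far) :
    e.lab.cls = k.l ∧ e.S = ∅ ∧ e.w = 0 ∧ e.st = 0 ∧ K.wt = 1 ∧ e.q = k.q := by
  obtain ⟨h1, h2, h3, h4, h5⟩ := h
  rcases h5 with ⟨h5, h6, h7⟩ | ⟨h5, h6⟩
  · have h8 : e.S = ∅ := mask_eq_zero.1 (h2.trans h5)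
    refine ⟨h1, h8, h3, ?_, h7, h4⟩
    unfold Dat.st
    rw [h8, h3]
    rfl
  · exact absurd hf h5

theorem IsK.of_near {k : Kd} {e : Dat} {K : Fo} (he : DK k e) (hK : K0s (k.t : Multiset K0) K)
    (hf : ¬ k.Far) : IsK k e K := by
  obtain ⟨h1, h2, h3, h4⟩ := he
  exact ⟨h1, h2, h3, h4, Or.inr ⟨hf, hK⟩⟩

theorem IsK.of_far {k : Kd} {e : Dat} {K : Fo} (he : DK k e) (hf : k.Far) (hK : K.wt = 1) :
    IsK k e K := by
  obtain ⟨h1, h2, h3, h4⟩ := he
  exact ⟨h1, h2, h3, h4, Or.inl ⟨hf.1, hf.2, hK⟩⟩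

/-- the root of a sub-branch without colours is clean -/
theorem IsK0.far {z : K0} {e : Dat} {K : Fo} (h : IsK0 z e K) (hz : z.s = 0) :
    e.lab.cls = z.l ∧ e.S = ∅ ∧ e.st = 0 ∧ K.wt = 1 ∧ e.w = 0 ∧ e.q = z.q := by
  obtain ⟨h1, h2, h3, h4, h5⟩ := h
  have h8 : e.S = ∅ := mask_eq_zero.1 (h2.trans hz)
  rw [if_pos hz] at h5
  refine ⟨h1, h8, ?_, h5, h3, h4⟩
  unfold Dat.st
  rw [h8, h3]
  rfl

theorem RS.mk' {R : St} {d : Dat} {F : Fo} (h : DS R d) (hF : Ks (R.k : Multiset Kd) F) :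
    RS R d F := by
  obtain ⟨h1, h2, h3, h4⟩ := h
  exact ⟨h1, h2, h3, h4, hF⟩

/-- the description of the root after the colouring of an edge -/
theorem DS.add {R : St} {d : Dat} (h : DS R d) (a : Fin 5) (κ : List Kd) :
    DS { R with s := ad R.s a, k := κ } (d.add a) := by
  obtain ⟨h1, h2, h3, h4⟩ := h
  refine ⟨h1, ?_, h3, h4⟩
  show mask (insert a d.S) = ad R.s a
  rw [← ad_mask, h2]

theorem DK.add {k : Kd} {e : Dat} (h : DK k e) (a : Fin 5) (τ : List K0) :
    DK { k with s := ad k.s a, t := τ } (e.add a) := by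
  obtain ⟨h1, h2, h3, h4⟩ := h
  refine ⟨h1, ?_, h3, h4⟩
  show mask (insert a e.S) = ad k.s a
  rw [← ad_mask, h2]

/-- the root of a branch as the root of a star -/
theorem DK.ds {k : Kd} {e : Dat} (h : DK k e) (a : Fin 5) (κ : List Kd) :
    DS ⟨k.l, ad k.s a, 0, k.q, κ⟩ (e.add a) := by
  obtain ⟨h1, h2, h3, h4⟩ := h
  refine ⟨h1, ?_, h3, h4⟩
  show mask (insert a e.S) = ad k.s a
  rw [← ad_mask, h2]

theorem DS.mem {R : St} {d : Dat} (h : DS R d) (a : Fin 5) : ¬ hs R.s a ↔ a ∉ d.S := by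
  rw [← h.2.1, hs_mask]

theorem DK.mem {k : Kd} {e : Dat} (h : DK k e) (a : Fin 5) : ¬ hs k.s a ↔ a ∉ e.S := by
  rw [← h.2.1, hs_mask]

end Pool.Agent.GCI
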