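import Pool.Agent.GCI.LFeq

/-!
# MP_f1ab9c: package LLoc. Location of an edge in a rooted piece

Proofs.
* `Loc.mono`: induction on `Loc` (for all `U'`). `here`: `A' = cons u U' B`. `down`: the environment is
  `cons u U L0`, resp. `cons u U' L0`, use `Feq.cons`.
* `LocR.perm`: change the first `Fp`.
* `LocR.rr`: the root moves from `d` to the child `e` with the branch `(e, L)`; the other branches at `d`
  are `F0`, so the new piece is `(e, cons d F0 L)`. Cases for `LocR p c K d (cons e L F0) A`: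
  - `root`, `p = d`: `Fp (cons e L F0) (cons c K A)`; by `Fp.inv`:
    (i) `e = c`, `L = K`, `Fp F0 A`: the edge goes from the new root `c` to its child `d`: second
    alternative, `LocR c d F0 c (cons d F0 K) K` by `root`, with `Feq F0 A`.
    (ii) `Fp A (cons e L A')`, `Fp F0 (cons c K A')`: the edge is below the child `d` of the new root:
    `LocR.down (Fp.refl _) (Loc.here _)` with the rest `cons e L A'`, `Feq` to `A`.
  - `down`: `Fp (cons e L F0) (cons e1 L1 F1)`, `Loc p c K d F1 e1 L1 A`; by `Fp.inv`: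
    (i) `e = e1`, `L = L1`, `Fp F0 F1`. Cases of `Loc`: `here`: `p = e`, `Fp L (cons c K B)`,
    `A = cons d F1 B`: now the edge is at the root: `LocR.root` for `cons d F0 L`, which is a permutation of
    `cons c K (cons d F0 B)`. `down`: `Fp L (cons f M L0)`, `Loc p c K e (cons d F1 L0) f M A`: now the
    branch `(f, M)` is at the root `e` with the other branches `cons d F0 L0`: `LocR.down` with `Loc.mono`
    (`Feq` of `cons d F1 L0` and `cons d F0 L0`).
    (ii) `Fp F1 (cons e L F1')`, `Fp F0 (cons e1 L1 F1')`: now the branch `(e1, L1)` is below the child `d`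
    of the new root `e`: `LocR.down (Fp.refl _) (Loc.down _ _)` with `Loc.mono` (environment
    `cons e L F1'` instead of `F1`).
* `descend`: induction on `Eqv` (the first arguments `p`, `cons c K A` are fixed; use a generalised
  statement `∀ X, X = cons c K A → ...`). `refl`: `LocR.root`. `perm`: `LocR.perm`. `rr`: `LocR.rr` for each
  of the two alternatives (the second alternative is the same statement with `p`, `c` exchanged) and
  transitivity of `Feq`.
-/

set_option autoImplicit false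

namespace Pool.Agent.GCI

theorem Loc.mono {p c : Dat} {K : Fo} {u : Dat} {U : Fo} {e : Dat} {L A : Fo}
    (h : Loc p c K u U e L A) {U' : Fo} (hU : Feq U U') :
    ∃ A', Loc p c K u U' e L A' ∧ Feq A A' := by
  induction h generalizing U' with
  | here hL => exact ⟨_, Loc.here hL, Feq.cons hU (Feq.refl _)⟩
  | down hL _ ih =>
    obtain ⟨A', h1, h2⟩ := ih (Feq.cons hU (Feq.refl _))
    exact ⟨A', Loc.down hL h1, h2⟩

theorem LocR.perm {p c : Dat} {K : Fo} {d : Dat} {F F' A : Fo} (h : LocR p c K d F A)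
    (hp : Fp F F') : LocR p c K d F' A := by
  have hs : Fp F' F := by
    rw [fp_iff] at hp ⊢
    exact hp.symm
  cases h with
  | root h1 => exact LocR.root (hs.trans h1)
  | down h1 h2 => exact LocR.down (hs.trans h1) h2

private theorem fp_symm {F F' : Fo} (hp : Fp F F') : Fp F' F := by
  rw [fp_iff] at hp ⊢
  exact hp.symm

theorem LocR.rr {p c : Dat} {K : Fo} {d e : Dat} {L F0 A : Fo}
    (h : LocR p c K d (.cons e L F0) A) :
    (∃ A', LocR p c K e (.cons d F0 L) A' ∧ Feq A' A) ∨
      ∃ A', LocR c p A' e (.cons d F0 L) K ∧ Feq A' A := by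
  cases h with
  | root h1 =>
    rcases h1.inv with ⟨rfl, rfl, h2⟩ | ⟨A', h2, h3⟩
    · exact Or.inr ⟨F0, LocR.root (Fp.refl _), Feq.of_fp h2⟩
    · exact Or.inl ⟨_, LocR.down (Fp.refl _) (Loc.here h3), Feq.of_fp (fp_symm h2)⟩
  | down h1 h4 =>
    rcases h1.inv with ⟨rfl, rfl, h2⟩ | ⟨A', h2, h3⟩
    · left
      cases h4 with
      | here h5 =>
        exact ⟨_, LocR.root ((Fp.cons _ _ h5).trans (Fp.swap _ _ _ _ _)),
          Feq.cons (Feq.of_fp h2) (Feq.refl _)⟩
      | down h5 h6 =>
        obtain ⟨A'', h7, h8⟩ := h6.mono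
          (Feq.cons (Feq.of_fp (fp_symm h2)) (Feq.refl _))
        exact ⟨A'', LocR.down ((Fp.cons _ _ h5).trans (Fp.swap _ _ _ _ _)) h7, h8.symm⟩
    · left
      obtain ⟨A'', h7, h8⟩ := h4.mono (Feq.of_fp h2)
      exact ⟨A'', LocR.down (Fp.refl _) (Loc.down h3 h7), h8.symm⟩

private theorem descend_aux {p d : Dat} {X F : Fo} (h : Eqv p X d F) :
    ∀ (c : Dat) (K A : Fo), X = .cons c K A →
      (∃ A' K', LocR p c K' d F A' ∧ Feq A' A ∧ Feq K' K) ∨
        ∃ A' K', LocR c p A' d F K' ∧ Feq A' A ∧ Feq K' K := by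
  induction h with
  | refl =>
    intro c K A hX
    subst hX
    exact Or.inl ⟨A, K, LocR.root (Fp.refl _), Feq.refl _, Feq.refl _⟩
  | perm _ hp ih =>
    intro c K A hX
    rcases ih c K A hX with ⟨A', K', h1, h2, h3⟩ | ⟨A', K', h1, h2, h3⟩
    · exact Or.inl ⟨A', K', h1.perm hp, h2, h3⟩
    · exact Or.inr ⟨A', K', h1.perm hp, h2, h3⟩
  | rr _ ih =>
    intro c K A hX
    rcases ih c K A hX with ⟨A', K', h1, h2, h3⟩ | ⟨A', K', h1, h2, h3⟩
    · rcases h1.rr with ⟨A'', h4, h5⟩ | ⟨A'', h4, h5⟩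
      · exact Or.inl ⟨A'', K', h4, h5.trans h2, h3⟩
      · exact Or.inr ⟨A'', K', h4, h5.trans h2, h3⟩
    · rcases h1.rr with ⟨A'', h4, h5⟩ | ⟨A'', h4, h5⟩
      · exact Or.inr ⟨A', A'', h4, h2, h5.trans h3⟩
      · exact Or.inl ⟨A', A'', h4, h2, h5.trans h3⟩

/-- every edge of a piece is an edge of the rooted piece -/
theorem descend {p c d : Dat} {K A F : Fo} (h : Eqv p (.cons c K A) d F) :
    (∃ A' K', LocR p c K' d F A' ∧ Feq A' A ∧ Feq K' K) ∨
      ∃ A' K', LocR c p A' d F K' ∧ Feq A' A ∧ Feq K' K :=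
  descend_aux h c K A rfl

end Pool.Agent.GCI
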