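import Pool.Agent.GCI.LTra
import Pool.Agent.GCI.LMask

/-!
# MP_f1ab9c: package LMap. Permutations of the colours

Proofs. Simple inductions. `Gd.map`: the permutation in `Gd` for the new piece is `σ * π⁻¹` if `σ` is the
one of the old piece, since `(d.map π).map (σ * π⁻¹) = d.map σ` (`map_map`: `(d.map π).map σ =
d.map (σ * π)`). `OK.map`, `Al.map`: induction; `(d.add a).map π = (d.map π).add (π a)`, `d.star.map π =
(d.map π).star`, `Imm (d.map π) (e.map π) ↔ Imm d e` (the cardinality of the image of an intersection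
under an injective map). The reverse implications follow with `π⁻¹` and `map_map`.
-/

set_option autoImplicit false

namespace Pool.Agent.GCI

theorem Dat.map_map (π σ : Equiv.Perm (Fin 5)) (d : Dat) : (d.map π).map σ = d.map (σ * π) := by
  simp only [Dat.map, Finset.image_image, Equiv.Perm.coe_mul]

theorem Dat.map_one (d : Dat) : d.map 1 = d := by
  simp only [Dat.map, Equiv.Perm.coe_one, Finset.image_id]

theorem Fo.map_map (π σ : Equiv.Perm (Fin 5)) (F : Fo) : (F.map π).map σ = F.map (σ * π) := by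
  induction F with
  | nil => rfl
  | cons d K F ihK ihF => simp only [Fo.map, Dat.map_map, ihK, ihF]

theorem Fo.map_one (F : Fo) : F.map 1 = F := by
  induction F with
  | nil => rfl
  | cons d K F ihK ihF => simp only [Fo.map, Dat.map_one, ihK, ihF]

private theorem card_LMap (π : Equiv.Perm (Fin 5)) (d : Dat) : (d.map π).S.card = d.S.card :=
  Finset.card_image_of_injective _ π.injective

private theorem empty_LMap (π : Equiv.Perm (Fin 5)) (d : Dat) : (d.map π).S = ∅ ↔ d.S = ∅ :=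
  Finset.image_eq_empty

private theorem image_empty_LMap (π : Equiv.Perm (Fin 5)) (S : Finset (Fin 5)) :
    S.image π = ∅ ↔ S = ∅ :=
  Finset.image_eq_empty

theorem Dat.st_map (π : Equiv.Perm (Fin 5)) (d : Dat) : (d.map π).st = d.st := by
  unfold Dat.st
  rw [card_LMap]
  rfl

theorem Dat.mem_map (π : Equiv.Perm (Fin 5)) (d : Dat) (a : Fin 5) : π a ∈ (d.map π).S ↔ a ∈ d.S := by
  change π a ∈ d.S.image π ↔ a ∈ d.S
  simp

theorem Dat.add_map (π : Equiv.Perm (Fin 5)) (d : Dat) (a : Fin 5) :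
    (d.add a).map π = (d.map π).add (π a) := by
  simp only [Dat.map, Dat.add, Finset.image_insert]

theorem Dat.star_map (π : Equiv.Perm (Fin 5)) (d : Dat) : d.star.map π = (d.map π).star := by
  rfl

theorem Dat.quest_map (π : Equiv.Perm (Fin 5)) (d : Dat) : d.quest.map π = (d.map π).quest := by
  rfl

theorem Dat.reveal_map (π : Equiv.Perm (Fin 5)) (d : Dat) (a : Fin 5) :
    (d.reveal a).map π = (d.map π).reveal (π a) := by
  simp only [Dat.map, Dat.reveal, Finset.image_insert]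

theorem Dat.answer_map (π : Equiv.Perm (Fin 5)) (d : Dat) (a : Fin 5) :
    (d.answer a).map π = (d.map π).answer (π a) := by
  simp only [Dat.map, Dat.answer, Finset.image_insert]

theorem Fo.wt_map (π : Equiv.Perm (Fin 5)) (F : Fo) : (F.map π).wt = F.wt := by
  induction F with
  | nil => rfl
  | cons d K F ihK ihF => simp only [Fo.map, Fo.wt, Dat.st_map, ihK, ihF]

theorem Fo.labs_map (π : Equiv.Perm (Fin 5)) (F : Fo) : (F.map π).labs = F.labs := by
  induction F with
  | nil => rfl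
  | cons d K F ihK ihF => simp only [Fo.map, Fo.labs, Dat.map, ihF]

private theorem node_LMap (π : Equiv.Perm (Fin 5)) {d : Dat} {L : List Lab} (h : NodeOK d L) :
    NodeOK (d.map π) L := by
  obtain ⟨h1, h2⟩ := h
  refine ⟨?_, h2⟩
  rw [card_LMap]
  exact h1

private theorem val_LMap (π : Equiv.Perm (Fin 5)) {F : Fo} {p : Lab} (h : F.Val p) :
    (F.map π).Val p := by
  induction F generalizing p with
  | nil => trivial
  | cons d K F ihK ihF =>
    obtain ⟨h1, h2, h3⟩ := h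
    refine ⟨?_, ihK h2, ihF h3⟩
    rw [Fo.labs_map]
    exact node_LMap π h1

private theorem valid_LMap (π : Equiv.Perm (Fin 5)) {d : Dat} {F : Fo} (h : Valid d F) :
    Valid (d.map π) (F.map π) := by
  refine ⟨?_, val_LMap π h.2⟩
  rw [Fo.labs_map]
  exact node_LMap π h.1

private theorem w0_LMap (π : Equiv.Perm (Fin 5)) {d : Dat} (h : d.W0) : (d.map π).W0 := by
  obtain ⟨h1, h2, h3, h4⟩ := h
  refine ⟨h1, h2, fun hS => h3 ((empty_LMap π d).1 hS), fun hl hq => ?_⟩
  rw [card_LMap]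
  exact h4 hl hq

private theorem fw_LMap (π : Equiv.Perm (Fin 5)) {F : Fo} (h : F.W) : (F.map π).W := by
  induction F with
  | nil => trivial
  | cons d K F ihK ihF =>
    obtain ⟨h1, h2, h3⟩ := h
    exact ⟨⟨w0_LMap π h1.1, h1.2⟩, ihK h2, ihF h3⟩

theorem WV.map (π : Equiv.Perm (Fin 5)) {d : Dat} {F : Fo} (h : WV d F) :
    WV (d.map π) (F.map π) :=
  ⟨valid_LMap π h.1, ⟨w0_LMap π h.2.1.1, h.2.1.2⟩, fw_LMap π h.2.2⟩

theorem WV1.map (π : Equiv.Perm (Fin 5)) {d : Dat} {F : Fo} (h : WV1 d F) :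
    WV1 (d.map π) (F.map π) :=
  ⟨valid_LMap π h.1, w0_LMap π h.2.1, h.2.2.1, fw_LMap π h.2.2.2⟩

theorem Imm.map (π : Equiv.Perm (Fin 5)) {d e : Dat} (h : Imm d e) :
    Imm (d.map π) (e.map π) := by
  change d.lab.deg + e.lab.deg ≤ 6 + (d.S.image π ∩ e.S.image π).card
  rw [← Finset.image_inter _ _ π.injective, Finset.card_image_of_injective _ π.injective]
  exact h

theorem Fp.map (π : Equiv.Perm (Fin 5)) {F F' : Fo} (h : Fp F F') : Fp (F.map π) (F'.map π) := by
  induction h with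
  | refl F => exact Fp.refl _
  | swap d e K L F => exact Fp.swap _ _ _ _ _
  | cons d K _ ih => exact Fp.cons _ _ ih
  | trans _ _ ih1 ih2 => exact ih1.trans ih2

theorem Eqv.map (π : Equiv.Perm (Fin 5)) {d d' : Dat} {F F' : Fo} (h : Eqv d F d' F') :
    Eqv (d.map π) (F.map π) (d'.map π) (F'.map π) := by
  induction h with
  | refl => exact Eqv.refl _ _
  | perm _ hp ih => exact Eqv.perm ih (hp.map π)
  | rr _ ih => exact Eqv.rr ih

theorem Gd.map {T : St → Prop} (π : Equiv.Perm (Fin 5)) {d : Dat} {F : Fo} (h : Gd T d F) :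
    Gd T (d.map π) (F.map π) := by
  obtain ⟨hw, h1 | ⟨σ, d', F', R, he, hr, hT⟩⟩ := h
  · refine ⟨hw.map π, Or.inl ?_⟩
    rw [Dat.st_map, Fo.wt_map]
    exact h1
  · refine ⟨hw.map π, Or.inr ⟨σ * π⁻¹, d'.map π, F'.map π, R, he.map π, ?_, hT⟩⟩
    rw [Dat.map_map, Fo.map_map, inv_mul_cancel_right]
    exact hr

theorem OK.map {T : St → Prop} (π : Equiv.Perm (Fin 5)) {d : Dat} {F : Fo}
    (h : OK (Gd T) d F) : OK (Gd T) (d.map π) (F.map π) := by
  induction h with
  | good hg => exact OK.good (hg.map π)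
  | triv d => exact OK.triv _
  | perm _ hp ih => exact OK.perm ih (hp.map π)
  | rr _ ih => exact OK.rr ih
  | cut hi _ _ ih1 ih2 => exact OK.cut (hi.map π) ih1 ih2

theorem Al.map {T : St → Prop} (π : Equiv.Perm (Fin 5)) {d : Dat} {F : Fo}
    (h : Al (Gd T) d F) : Al (Gd T) (d.map π) (F.map π) := by
  induction h with
  | here a ha hb h1 h2 =>
    refine Al.here (π a) (mt (Dat.mem_map π _ a).1 ha) (mt (Dat.mem_map π _ a).1 hb) ?_ ?_
    · rw [← Dat.add_map]
      exact h1.map π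
    · rw [← Dat.add_map]
      exact h2.map π
  | perm _ hp ih => exact Al.perm ih (hp.map π)
  | rr _ ih => exact Al.rr ih

theorem OK.of_map {T : St → Prop} (π : Equiv.Perm (Fin 5)) {d : Dat} {F : Fo}
    (h : OK (Gd T) (d.map π) (F.map π)) : OK (Gd T) d F := by
  have h1 := h.map π⁻¹
  rwa [Dat.map_map, Fo.map_map, inv_mul_cancel, Dat.map_one, Fo.map_one] at h1

theorem Al.of_map {T : St → Prop} (π : Equiv.Perm (Fin 5)) {d : Dat} {F : Fo}
    (h : Al (Gd T) (d.map π) (F.map π)) : Al (Gd T) d F := by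
  have h1 := h.map π⁻¹
  rwa [Dat.map_map, Fo.map_map, inv_mul_cancel, Dat.map_one, Fo.map_one] at h1

theorem Ans2.of_map {T : St → Prop} (π : Equiv.Perm (Fin 5)) {d e : Dat} {F K : Fo}
    (h : Ans2 (Gd T) (d.map π) (F.map π) (e.map π) (K.map π)) : Ans2 (Gd T) d F e K := by
  rcases h with ⟨h1, h2⟩ | ⟨h1, h2⟩ | ⟨h1, h2⟩
  · exact Or.inl ⟨h1.of_map, h2.of_map⟩
  · exact Or.inr (Or.inl ⟨h1.of_map, h2.of_map⟩)
  · exact Or.inr (Or.inr ⟨h1.of_map, h2.of_map⟩)

private def c0_LMap (π : Equiv.Perm (Fin 5)) (z : K0) : K0 := { z with s := pmask π z.s }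

private def cd_LMap (π : Equiv.Perm (Fin 5)) (k : Kd) : Kd :=
  { k with s := pmask π k.s, t := k.t.map (c0_LMap π) }

private theorem pz_LMap (π : Equiv.Perm (Fin 5)) {S : Finset (Fin 5)} {s : ℕ} (h : mask S = s) :
    mask (S.image π) = pmask π s ∧ (pmask π s = 0 ↔ s = 0) := by
  subst h
  refine ⟨(pmask_mask π S).symm, ?_⟩
  rw [pmask_mask, mask_eq_zero, mask_eq_zero, image_empty_LMap]

private theorem isK0_LMap (π : Equiv.Perm (Fin 5)) {z : K0} {e : Dat} {K : Fo} (h : IsK0 z e K) :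
    IsK0 (c0_LMap π z) (e.map π) (K.map π) := by
  obtain ⟨h1, h2, h3, h4, h5⟩ := h
  obtain ⟨p1, p2⟩ := pz_LMap π h2
  refine ⟨h1, p1, h3, h4, ?_⟩
  rw [Fo.wt_map, h5]
  change _ = if pmask π z.s = 0 then 1 else 0
  by_cases hz : z.s = 0
  · rw [if_pos hz, if_pos (p2.2 hz)]
  · rw [if_neg hz, if_neg fun h => hz (p2.1 h)]

private theorem k0s_LMap (π : Equiv.Perm (Fin 5)) {κ : Multiset K0} {F : Fo} (h : K0s κ F) :
    K0s (κ.map (c0_LMap π)) (F.map π) := by
  induction h with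
  | nil => exact K0s.nil
  | cln h1 h2 _ ih => exact K0s.cln ((Dat.st_map π _).trans h1) ((Fo.wt_map π _).trans h2) ih
  | kid h1 _ ih =>
    rw [Multiset.map_cons]
    exact K0s.kid (isK0_LMap π h1) ih

private theorem far_LMap (π : Equiv.Perm (Fin 5)) {S : Finset (Fin 5)} {k : Kd}
    (h : mask S = k.s) : (cd_LMap π k).Far ↔ k.Far := by
  obtain ⟨p1, p2⟩ := pz_LMap π h
  change (pmask π k.s = 0 ∧ k.t.map (c0_LMap π) = []) ↔ (k.s = 0 ∧ k.t = [])
  rw [p2, List.map_eq_nil_iff]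

private theorem isK_LMap (π : Equiv.Perm (Fin 5)) {k : Kd} {e : Dat} {K : Fo} (h : IsK k e K) :
    IsK (cd_LMap π k) (e.map π) (K.map π) := by
  obtain ⟨h1, h2, h3, h4, h5⟩ := h
  obtain ⟨p1, p2⟩ := pz_LMap π h2
  refine ⟨h1, p1, h3, h4, ?_⟩
  rcases h5 with ⟨a1, a2, a3⟩ | ⟨a1, a2⟩
  · refine Or.inl ⟨p2.2 a1, ?_, (Fo.wt_map π _).trans a3⟩
    change k.t.map (c0_LMap π) = []
    rw [a2]
    rfl
  · refine Or.inr ⟨fun h => a1 ((far_LMap π h2).1 h), ?_⟩
    change K0s ((k.t.map (c0_LMap π) : List K0) : Multiset K0) (K.map π)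
    rw [← Multiset.map_coe]
    exact k0s_LMap π a2

private theorem ks_LMap (π : Equiv.Perm (Fin 5)) {κ : Multiset Kd} {F : Fo} (h : Ks κ F) :
    Ks (κ.map (cd_LMap π)) (F.map π) := by
  induction h with
  | nil => exact Ks.nil
  | cln h1 h2 _ ih => exact Ks.cln ((Dat.st_map π _).trans h1) ((Fo.wt_map π _).trans h2) ih
  | kid h1 _ ih =>
    rw [Multiset.map_cons]
    exact Ks.kid (isK_LMap π h1) ih

/-- the colours of a star are permuted -/
theorem RS.col {R : St} (π : Equiv.Perm (Fin 5)) {d : Dat} {F : Fo} (h : RS R d F) :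
    RS (R.col π) (d.map π) (F.map π) := by
  obtain ⟨h1, h2, h3, h4, h5⟩ := h
  refine ⟨h1, (pz_LMap π h2).1, h3, h4, ?_⟩
  change Ks ((R.k.map (cd_LMap π) : List Kd) : Multiset Kd) (F.map π)
  rw [← Multiset.map_coe]
  exact ks_LMap π h5

end Pool.Agent.GCI
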