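import Pool.Agent.GCI.LOKs

/-!
# MP_f1ab9c: package LMv. Soundness of `Mv`

Proofs. In all cases use `Ks.get` (and `K0s.get`) to bring the branch to the front, `Al.here`, and
`OK.perm`/`Al.perm`/`Eqv` to go back.
* `Mv.sound`. `near`: colour the edge `d e` with `a`; upper part `(d.add a, F0)` described by
  `{ R with s := ad R.s a, k := κ }` (this is `R'`, `OKs.sound`), lower part by the second star of the
  constructor (`K0s.up`, `DK.ds`). `far`: the lower part `(e.add a, K)` has weight `1 + 1` (`OK.small`).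
  `free`: `d.lab.deg = 4` (class `c` or `x`), `used < 4` and `NodeOK` give `R.k.length < F.labs.length`,
  `Ks.clean`: a clean branch, lower part of weight `1`. `fkid`: `e.lab.deg = 4`, `NodeOK e (d.lab ::
  K.labs)` gives `k.t.length < K.labs.length`, `K0s.clean`; the piece is `Eqv` to
  `(e, cons f M (cons d F0 L0))`; colour `e f`; the upper part `(e.add a, cons d F0 L0)` is `Eqv` to
  `(d, cons (e.add a) L0 F0)`. `sub`: the same with the branch of `z`; lower part: if `z.s ≠ 0`: described by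
  `⟨z.l, ad z.s a, 0, z.q, []⟩`, if `z.s = 0`: weight `1 + 1`.
-/

set_option autoImplicit false

namespace Pool.Agent.GCI

private theorem deg_of_cls_LMv {l : Lab} (h : l.cls ≠ .m) : l.deg = 4 := by
  revert h
  cases l <;> decide

private theorem empty_LMv {e : Dat} (h : e.st = 0) : e.S = ∅ := by
  have h1 : e.S.card + e.w = 0 := h
  exact Finset.card_eq_zero.1 (by omega)

private theorem notMem_LMv {e : Dat} (h : e.st = 0) (a : Fin 5) : a ∉ e.S := by
  rw [empty_LMv h]
  exact Finset.notMem_empty a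

/-- The branch below a child, seen from the child. -/
private theorem eqv_LMv {d e f : Dat} {F L F0 M L0 : Fo} (hp : Fp F (.cons e L F0))
    (hp2 : Fp L (.cons f M L0)) : Eqv d F e (.cons f M (.cons d F0 L0)) :=
  .perm (.perm (.rr (Eqv.ofFp hp)) (hp2.cons d F0)) (.swap _ _ _ _ _)

/-- The common part of the cases `fkid` and `sub`: the edge `e f` below the child `e` is coloured. -/
private theorem lower_LMv {T : St → Prop} (hT : ∀ R : St, T R → R.w ≤ 1 ∧ R.q ≤ 1) {R : St}
    {k : Kd} {κ : List Kd} {τ : List K0} {a : Fin 5}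
    (hR' : OKs T { R with k := { k with s := ad k.s a, t := τ } :: κ }) {d e f : Dat}
    {F L F0 M L0 : Fo} (hR : RS R d F) (hw : WV1 d F) (hp : Fp F (.cons e L F0))
    (hp2 : Fp L (.cons f M L0)) (he : DK k e) (hF0 : Ks (κ : Multiset Kd) F0)
    (hL0 : K0s (τ : Multiset K0) L0) (hka : ¬ hs k.s a) (hf : a ∉ f.S)
    (hlow : WV (f.add a) M → OK (Gd T) (f.add a) M) : Al (Gd T) d F := by
  have E := eqv_LMv (d := d) hp hp2
  have hwE := hw.eqv E
  have hea : a ∉ e.S := (he.mem a).1 hka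
  refine Al.of a E hea hf ?_ (hlow (hwE.addr hf))
  have hw1 : WV1 d (.cons (e.add a) L0 F0) := (hwE.addl hea).eqv (Eqv.rr1 _ _ _ _)
  have hk' : IsK { k with s := ad k.s a, t := τ } (e.add a) L0 :=
    IsK.of_near (he.add a τ) hL0 fun h => ad_ne_zero _ _ h.1
  refine OK.rr (hR'.sound hT ?_ hw1)
  exact ⟨hR.1, hR.2.1, hR.2.2.1, hR.2.2.2.1, Ks.addKid hk' hF0⟩

theorem Mv.sound {T : St → Prop} (hT : ∀ R : St, T R → R.w ≤ 1 ∧ R.q ≤ 1) {R R' : St}
    (h : Mv T R R') (hR' : OKs T R') {d : Dat} {F : Fo} (hR : RS R d F) (hw : WV1 d F) :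
    Al (Gd T) d F := by
  have hds : DS R d := ⟨hR.1, hR.2.1, hR.2.2.1, hR.2.2.2.1⟩
  have hks : Ks (R.k : Multiset Kd) F := hR.2.2.2.2
  cases h with
  | near a hk hfar hRa hka hO =>
    obtain ⟨e, K, F0, hp, hie, hF0⟩ := hks.get hk
    obtain ⟨hdk, hK0⟩ := hie.near hfar
    have hda := (hds.mem a).1 hRa
    have hea := (hdk.mem a).1 hka
    have hwp := hw.perm hp
    refine Al.of a (Eqv.ofFp hp) hda hea ?_ ?_
    · exact hR'.sound hT (RS.mk' (hds.add a _) hF0) (hwp.addl hda)
    · exact hO.sound hT (RS.mk' (hdk.ds a _) hK0.up) (hwp.addr hea).wv1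
  | far a hk hfar hRa =>
    obtain ⟨e, K, F0, hp, hie, hF0⟩ := hks.get hk
    obtain ⟨_, _, _, hst, hKw, _⟩ := hie.far hfar
    have hda := (hds.mem a).1 hRa
    have hea := notMem_LMv hst a
    have hwp := hw.perm hp
    refine Al.of a (Eqv.ofFp hp) hda hea ?_ ?_
    · exact hR'.sound hT (RS.mk' (hds.add a _) hF0) (hwp.addl hda)
    · refine OK.small (hwp.addr hea) ?_
      rw [Dat.st_add hea, hst, hKw]
  | free a hl hu hRa =>
    have hdeg : d.lab.deg = 4 := deg_of_cls_LMv (by rw [hR.1]; exact hl)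
    have hn : d.S.card + d.w + d.q + F.labs.length = d.lab.deg := hw.1.1.1
    have hpc : pc R.s = d.S.card := by rw [← hR.2.1, pc_mask]
    have hu' : pc R.s + R.w + R.q + R.k.length < 4 := hu
    have hlen : R.k.length < F.labs.length := by
      have h1 := hR.2.2.1
      have h2 := hR.2.2.2.1
      omega
    obtain ⟨e, K, F0, hp, hst, hKw, hF0⟩ := hks.clean hlen
    have hda := (hds.mem a).1 hRa
    have hea := notMem_LMv hst a
    have hwp := hw.perm hp
    refine Al.of a (Eqv.ofFp hp) hda hea ?_ ?_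
    · exact hR'.sound hT (RS.mk' (hds.add a R.k) hF0) (hwp.addl hda)
    · refine OK.small (hwp.addr hea) ?_
      rw [Dat.st_add hea, hst, hKw]
      omega
  | @fkid k κ a hk hfar hkl hlt hka =>
    obtain ⟨e, L, F0, hp, hie, hF0⟩ := hks.get hk
    obtain ⟨hdk, hK0⟩ := hie.near hfar
    have hwp := hw.perm hp
    have hdeg : e.lab.deg = 4 := deg_of_cls_LMv (by rw [hdk.1]; exact hkl)
    have hn : e.S.card + e.w + e.q + (d.lab :: L.labs).length = e.lab.deg := hwp.1.2.1.1
    have hpc : pc k.s = e.S.card := by rw [← hdk.2.1, pc_mask]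
    have hlen : k.t.length < L.labs.length := by
      have h1 := hdk.2.2.1
      have h2 := hdk.2.2.2
      rw [List.length_cons] at hn
      omega
    obtain ⟨f, M, L0, hp2, hst, hMw, hL0⟩ := hK0.clean hlen
    have hfa := notMem_LMv hst a
    refine lower_LMv hT (τ := k.t) hR' hR hw hp hp2 hdk hF0 hL0 hka hfa fun hwf => ?_
    refine OK.small hwf ?_
    rw [Dat.st_add hfa, hst, hMw]
    omega
  | @sub k κ z τ a hk ht hka hza hO =>
    obtain ⟨e, L, F0, hp, hie, hF0⟩ := hks.get hk
    have hfar : ¬ k.Far := fun h => by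
      have h1 := ht.length_eq
      rw [h.2] at h1
      exact absurd h1 (by simp)
    obtain ⟨hdk, hK0⟩ := hie.near hfar
    obtain ⟨f, M, L0, hp2, hz, hL0⟩ := hK0.get ht
    have hdz : DK z.up f := ⟨hz.1, hz.2.1, hz.2.2.1, hz.2.2.2.1⟩
    have hfa : a ∉ f.S := (hdz.mem a).1 hza
    refine lower_LMv hT hR' hR hw hp hp2 hdk hF0 hL0 hka hfa fun hwf => ?_
    by_cases hzs : z.s = 0
    · obtain ⟨_, _, hst, hMw, _⟩ := hz.far hzs
      refine OK.small hwf ?_
      rw [Dat.st_add hfa, hst, hMw]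
    · refine (hO hzs).sound hT (RS.mk' (hdz.ds a []) ?_) hwf.wv1
      have h1 := hz.2.2.2.2
      rw [if_neg hzs] at h1
      exact Ks.zero.2 h1

end Pool.Agent.GCI
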