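import Pool.Agent.GCI.LMap
import Pool.Agent.GCI.LDes

/-!
# MP_f1ab9c: package LOKs. Soundness of `OKs`

Proof of `OKs.sound`: induction on `OKs` (for all `d`, `F`).
* `small`: `RS.wt`, `WV1.wv` (`d.w = R.w ≤ 1`), `OK.small`.
* `full`: `used = pc R.s + R.w + R.q = R.l.deg` and `NodeOK d F.labs`: `d.S.card + d.w + d.q + F.labs.length =
  d.lab.deg ≤ d.lab.cls.deg`, so `F.labs = []`, `F = nil`, `OK.triv`.
* `tab`: `Gd` with the identity permutation (`Dat.map_one`, `Fo.map_one`) and `Eqv.refl`, `WV1.wv`.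
* `perm`: `Ks.permList`.
* `permt`: `IsK k e K` depends on `k.t` only up to permutations (`K0s.permList`, `Far`).
* `col`: `RS.col`, `OK.of_map`. (`WV1.map`).
* `cutm`: `Ks.get` gives `Fp F (cons e K F0)` with `IsK k e K` (near, since `k.s ≠ 0` by the common colour),
  `Ks κ F0`. `OK.cut'` (`Imm.of_cls`) with `WV1.questl`, `WV1.starr`; the descriptions: `RS { R with q := 1,
  k := κ } d.quest F0` (`R.q = 0`), `RS ⟨.m, k.s, 1, 0, k.t.map up⟩ e.star K` (`K0s.up`; `e.w = 0`, `e.q = 0`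
  by `W0`, since the degree is not `4`). Then `OK.perm` with `Fp.symm`.
* `cutv`: the same with `OK.cut` and `WV1.starl`, `WV1.questr`.
* `cutk`: `Ks.get`, then `K0s.get` for the branch: `Fp F (cons e L F0)`, `Fp L (cons f M L0)`, `IsK0 z f M`,
  `z.s ≠ 0` so `M.wt = 0`. The piece is `Eqv` to `(e, cons f M (cons d F0 L0))`, cut the edge `e f` with `?` at
  `e`: the upper part `(e.quest, cons d F0 L0)` is `Eqv` to `(d, cons e.quest L0 F0)`, described by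
  `{ R with k := { k with q := 1, t := τ } :: κ }` (`WV1`: `e.quest.q = 1`), the lower part by `⟨.m, z.s, 1, 0, []⟩`.
* `fold`: the branch `(e, L)` has `e.st = 0` and `L.wt = z.wt = 1` (`K0s.wt`), so it is also described by the
  far kid.
* `rr`: `Ks.get`: `Fp F (cons e L F0)`, `IsK k e L` near, `Ks (κ.map up) F0`. The piece is `Eqv` to
  `(e, cons d F0 L)`; description: `L` by `Ks (k.t.map up)` (`K0s.up`), the new kid `(d, F0)` by
  `⟨R.l, R.s, R.q, κ⟩` (`Ks.down`; `d.w = R.w = 0`; not far since `R.s ≠ 0` or `κ ≠ []`). `WV1.rr`.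
If `F = cons ...` then `d.w ≤ 1` (`WV1.wle`), so `WV1` is also kept by changes of the root (`WV1.eqv`).
-/

set_option autoImplicit false

namespace Pool.Agent.GCI

private theorem deg_le_LOKs (l : Lab) : l.deg ≤ l.cls.deg := by
  cases l <;> simp [Lab.cls, Lab.deg, L3.deg]

private theorem cls_m_LOKs {l : Lab} (h : l.cls = .m) : l.deg ≠ 4 := by
  cases l <;> simp_all [Lab.cls, Lab.deg]

private theorem nil_LOKs {F : Fo} (h : F.labs.length = 0) : F = .nil := by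
  cases F with
  | nil => rfl
  | cons d K F => simp [Fo.labs] at h

private theorem mem_LOKs {S : Finset (Fin 5)} {n : ℕ} (h : mask S = n) {a : Fin 5}
    (ha : hs n a = true) : a ∈ S := by
  rw [← h] at ha
  exact (hs_mask S a).1 ha

private theorem ne_LOKs {S : Finset (Fin 5)} {a : Fin 5} (ha : a ∈ S) : S ≠ ∅ :=
  Finset.ne_empty_of_mem ha

private theorem snz_LOKs {S : Finset (Fin 5)} {n : ℕ} (h : mask S = n) {a : Fin 5}
    (ha : hs n a = true) : n ≠ 0 := by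
  intro h0
  rw [h0] at h
  exact ne_LOKs (mem_LOKs (h.trans h0.symm) ha) (mask_eq_zero.1 h)

private theorem card_LOKs {l : L3} {S : Finset (Fin 5)} {n : ℕ} (h : mask S = n) (hq : qNew l n)
    (hl : l = .x) : 2 ≤ S.card := by
  rw [← pc_mask, h]
  exact hq.2 hl

theorem OKs.sound {T : St → Prop} (hT : ∀ R : St, T R → R.w ≤ 1 ∧ R.q ≤ 1) {R : St}
    (h : OKs T R) {d : Dat} {F : Fo} (hR : RS R d F) (hw : WV1 d F) : OK (Gd T) d F := by
  induction h generalizing d F with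
  | small h1 h2 h3 =>
    refine OK.small (hw.wv ?_) ?_
    · rw [hR.2.2.1]
      exact h2
    · rw [hR.wt]
      exact h1
  | @full R h1 h2 =>
    obtain ⟨r1, r2, r3, r4, r5⟩ := hR
    have h3 := hw.1.1.1
    have h4 := deg_le_LOKs d.lab
    rw [r1] at h4
    have h5 : pc R.s = d.S.card := by rw [← r2, pc_mask]
    unfold St.used at h1
    rw [h2, h5, ← r3, ← r4] at h1
    have h6 : F.labs.length = 0 := by
      simp only [List.length_nil] at h1
      omega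
    rw [nil_LOKs h6]
    exact OK.triv d
  | @tab R h1 =>
    refine OK.good ⟨hw.wv ?_, Or.inr ⟨1, d, F, R, Eqv.refl _ _, ?_, h1⟩⟩
    · rw [hR.2.2.1]
      exact (hT R h1).1
    · rw [Dat.map_one, Fo.map_one]
      exact hR
  | @perm R k' hp _ ih =>
    exact ih ⟨hR.1, hR.2.1, hR.2.2.1, hR.2.2.2.1, Ks.permList hR.2.2.2.2 hp⟩ hw
  | @permt R k κ t' hk ht _ ih =>
    obtain ⟨r1, r2, r3, r4, r5⟩ := hR
    obtain ⟨e, K, F0, hp, hK, hF0⟩ := Ks.get r5 (List.Perm.of_eq hk)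
    refine ih ⟨r1, r2, r3, r4, (Ks.addKid ?_ hF0).perm hp.symm⟩ hw
    obtain ⟨k1, k2, k3, k4, k5⟩ := hK
    refine ⟨k1, k2, k3, k4, ?_⟩
    rcases k5 with ⟨a1, a2, a3⟩ | ⟨a1, a2⟩
    · refine Or.inl ⟨a1, ?_, a3⟩
      rw [a2] at ht
      exact ht.nil_eq.symm
    · refine Or.inr ⟨fun hf => a1 ⟨hf.1, ?_⟩, a2.permList ht⟩
      have hf2 : t' = [] := hf.2
      rw [hf2] at ht
      exact ht.eq_nil
  | @col R π _ ih => exact OK.of_map π (ih (hR.col π) (hw.map π))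
  | @cutm R k κ hk hq hq0 hm ha _ _ ih1 ih2 =>
    obtain ⟨r1, r2, r3, r4, r5⟩ := hR
    obtain ⟨a, ha1, ha2⟩ := ha
    obtain ⟨e, K, F0, hp, hK, hF0⟩ := Ks.get r5 (List.Perm.of_eq hk)
    have hw' := hw.perm hp
    have hd : a ∈ d.S := mem_LOKs r2 ha1
    have he : a ∈ e.S := mem_LOKs hK.2.1 ha2
    have hnf : ¬ k.Far := fun hf => snz_LOKs hK.2.1 ha2 hf.1
    have hem : e.lab.cls = .m := hK.1.trans hm
    have hdq : d.q = 0 := r4.trans hq0
    obtain ⟨hDK, hK0⟩ := hK.near hnf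
    refine OK.perm (OK.cut' (Imm.of_cls hem hd he).symm ?_ ?_) hp.symm
    · refine ih1 ⟨r1, r2, r3, ?_, hF0⟩ (hw'.questl ?_ (ne_LOKs hd) hdq ?_)
      · show d.q + 1 = 1
        rw [hdq]
      · rw [r1]
        exact hq.1
      · intro hx
        exact card_LOKs r2 hq (r1.symm.trans hx)
    · refine ih2 ⟨hem, hK.2.1, ?_, ?_, hK0.up⟩ (hw'.starr hem (ne_LOKs he))
      · show e.w + 1 = 1
        rw [hK.2.2.1]
      · exact hw'.2.2.2.1.1.2.1 (cls_m_LOKs hem)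
  | @cutv R k κ hk hm hq hkq ha _ _ ih1 ih2 =>
    obtain ⟨r1, r2, r3, r4, r5⟩ := hR
    obtain ⟨a, ha1, ha2⟩ := ha
    obtain ⟨e, K, F0, hp, hK, hF0⟩ := Ks.get r5 (List.Perm.of_eq hk)
    have hw' := hw.perm hp
    have hd : a ∈ d.S := mem_LOKs r2 ha1
    have he : a ∈ e.S := mem_LOKs hK.2.1 ha2
    have hnf : ¬ k.Far := fun hf => snz_LOKs hK.2.1 ha2 hf.1
    have hdm : d.lab.cls = .m := r1.trans hm
    have heq : e.q = 0 := hK.2.2.2.1.trans hkq
    obtain ⟨hDK, hK0⟩ := hK.near hnf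
    refine OK.perm (OK.cut (Imm.of_cls hdm he hd).symm ?_ ?_) hp.symm
    · refine ih1 ⟨r1, r2, ?_, r4, hF0⟩ (hw'.starl hdm (ne_LOKs hd))
      show d.w + 1 = R.w + 1
      rw [r3]
    · refine ih2 ⟨hK.1, hK.2.1, hK.2.2.1, ?_, hK0.up⟩ (hw'.questr ?_ (ne_LOKs he) heq ?_)
      · show e.q + 1 = 1
        rw [heq]
      · rw [hK.1]
        exact hq.1
      · intro hx
        exact card_LOKs hK.2.1 hq (hK.1.symm.trans hx)
  | @cutk R k κ z τ hk ht hq hkq hz ha _ _ ih1 ih2 =>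
    obtain ⟨r1, r2, r3, r4, r5⟩ := hR
    obtain ⟨a, ha1, ha2⟩ := ha
    obtain ⟨e, L, F0, hp, hL, hF0⟩ := Ks.get r5 (List.Perm.of_eq hk)
    have he : a ∈ e.S := mem_LOKs hL.2.1 ha1
    have hks : k.s ≠ 0 := snz_LOKs hL.2.1 ha1
    have hnf : ¬ k.Far := fun hf => hks hf.1
    obtain ⟨hDK, hL0'⟩ := hL.near hnf
    obtain ⟨f, M, L0, hpL, hM, hL0⟩ := K0s.get hL0' (List.Perm.of_eq ht)
    have hf : a ∈ f.S := mem_LOKs hM.2.1 ha2
    have hzs : z.s ≠ 0 := snz_LOKs hM.2.1 ha2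
    have hfm : f.lab.cls = .m := hM.1.trans hz
    have heq : e.q = 0 := hL.2.2.2.1.trans hkq
    have hE : Eqv d F e (.cons f M (.cons d F0 L0)) :=
      Eqv.perm (Eqv.rr (Eqv.perm (Eqv.refl _ _) hp))
        ((Fp.cons d F0 hpL).trans (Fp.swap _ _ _ _ _))
    have hwE := hw.eqv hE
    have hMw : M.wt = 0 := by
      have := hM.2.2.2.2
      rwa [if_neg hzs] at this
    have hwq : WV1 e.quest (.cons d F0 L0) := by
      refine hwE.questl ?_ (ne_LOKs he) heq ?_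
      · rw [hL.1]
        exact hq.1
      · intro hx
        exact card_LOKs hL.2.1 hq (hL.1.symm.trans hx)
    refine OK.eqv (OK.cut' (Imm.of_cls hfm he hf).symm ?_ ?_) hE.symm
    · refine OK.rr (ih1 ⟨r1, r2, r3, r4, Ks.addKid (IsK.of_near ⟨hL.1, hL.2.1, hL.2.2.1, ?_⟩ hL0
        (fun hf' => hks hf'.1)) hF0⟩ hwq.rr)
      show e.q + 1 = 1
      rw [heq]
    · refine ih2 ⟨hfm, hM.2.1, ?_, ?_, Ks.zero.2 hMw⟩ (hwE.starr hfm (ne_LOKs hf))
      · show f.w + 1 = 1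
        rw [hM.2.2.1]
      · exact hwE.2.2.2.1.1.2.1 (cls_m_LOKs hfm)
  | @fold R k κ z hk hs0 ht hz _ ih =>
    obtain ⟨r1, r2, r3, r4, r5⟩ := hR
    obtain ⟨e, L, F0, hp, hL, hF0⟩ := Ks.get r5 (List.Perm.of_eq hk)
    have hnf : ¬ k.Far := by
      intro hf
      have := hf.2
      rw [ht] at this
      simp at this
    obtain ⟨hDK, hL0⟩ := hL.near hnf
    have hwt := hL0.wt
    rw [ht] at hwt
    simp only [List.map_cons, List.map_nil, List.sum_cons, List.sum_nil, hz] at hwt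
    have hK : IsK ⟨k.l, 0, k.q, []⟩ e L :=
      ⟨hL.1, hL.2.1.trans hs0, hL.2.2.1, hL.2.2.2.1, Or.inl ⟨rfl, rfl, by omega⟩⟩
    exact ih ⟨r1, r2, r3, r4, (Ks.addKid hK hF0).perm hp.symm⟩ hw
  | @rr R k κ hk hnf hne hw0 _ ih =>
    obtain ⟨r1, r2, r3, r4, r5⟩ := hR
    obtain ⟨e, L, F0, hp, hL, hF0⟩ := Ks.get r5 (List.Perm.of_eq hk)
    obtain ⟨hDK, hL0⟩ := hL.near hnf
    have hw' := hw.perm hp
    refine OK.perm (OK.rr (ih ⟨hL.1, hL.2.1, hL.2.2.1, hL.2.2.2.1, ?_⟩ hw'.rr)) hp.symm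
    refine Ks.addKid (IsK.of_near ⟨r1, r2, r3.trans hw0, r4⟩ hF0.down ?_) hL0.up
    intro hf
    rcases hne with h1 | h1
    · exact h1 hf.1
    · exact h1 hf.2

end Pool.Agent.GCI
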