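import Pool.Agent.GCI.LCmp

/-!
# MP_f1ab9c: package LThree. Pieces of weight 3

Proofs.
* `star_of_light`: if all trees of `F` have weight at most `1` (in the form `Light F`) then `(d, F)` is
  described by the star with the kids `h.up`, `h` from `IsK0.of_one`, one for every tree of weight `1`
  (induction on `F`).
* `star3`: the weight is `3`. If all trees at the root are light, we are done. Otherwise there is a tree
  `(e, L)` with `e.st + L.wt ≥ 2`, the rest `d.st + F0.wt ≤ 1`, and we move the root to `e`: the piece is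
  `(e, cons d F0 L)`, the branch `(d, F0)` is light. Claim by strong induction on `L.size`: if
  `u.st + U.wt ≤ 1` and the weight of `(e, cons u U L)` is `3` then this piece has a star. If all trees of `L`
  are light: `star_of_light`. Otherwise `Fp L (cons f M L0)` with `f.st + M.wt ≥ 2`, move the root to `f`:
  `(f, cons e (cons u U L0) M)`, the branch `(e, cons u U L0)` has weight at most `1`, `M.size < L.size`.
* `three`: `star3`, `WV.eqv`, `RS.V`, `Tab.g1`, `AnsS.sound`, `OK.eqv`, `Al.eqv`.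
-/

set_option autoImplicit false

namespace Pool.Agent.GCI

/-- all trees have weight at most `1` -/
def Light : Fo → Prop
  | .nil => True
  | .cons e K F => e.st + K.wt ≤ 1 ∧ Light F

theorem light_or {F : Fo} : Light F ∨ ∃ (e : Dat) (L F0 : Fo), Fp F (.cons e L F0) ∧
    2 ≤ e.st + L.wt := by
  induction F with
  | nil => exact Or.inl trivial
  | cons d K F _ ih =>
    by_cases h : 2 ≤ d.st + K.wt
    · exact Or.inr ⟨d, K, F, .refl _, h⟩
    · rcases ih with h1 | ⟨e, L, F0, hp, h1⟩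
      · exact Or.inl ⟨by omega, h1⟩
      · exact Or.inr ⟨e, L, .cons d K F0, (Fp.cons d K hp).trans (.swap d e K L F0), h1⟩

private theorem k0s_of_light_LThree {F : Fo} (hF : Light F) (hW : F.W) :
    ∃ l : List K0, K0s (l : Multiset K0) F ∧ ∀ z ∈ l, z.One := by
  induction F with
  | nil => exact ⟨[], K0s.nil, fun z hz => absurd hz List.not_mem_nil⟩
  | cons e K F _ ih =>
    obtain ⟨l, hl, h1⟩ := ih hF.2 hW.2.2
    by_cases h : e.st + K.wt = 1
    · obtain ⟨z, hz, hz1, -⟩ := IsK0.of_one h hW.1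
      refine ⟨z :: l, K0s.addKid hz hl, fun y hy => ?_⟩
      rcases List.mem_cons.1 hy with rfl | hy
      · exact hz1
      · exact h1 y hy
    · have h2 := hF.1
      exact ⟨l, K0s.cln (by omega) (by omega) hl, h1⟩

theorem star_of_light {d : Dat} {F : Fo} (hF : Light F) (hw : WV d F) :
    ∃ R : St, RS R d F ∧ ∀ k ∈ R.k, k.t = [] ∧ (⟨k.l, k.s, k.q⟩ : K0).One := by
  obtain ⟨l, hl, h1⟩ := k0s_of_light_LThree hF hw.2.2
  refine ⟨⟨d.lab.cls, mask d.S, d.w, d.q, l.map K0.up⟩, ⟨rfl, rfl, rfl, rfl, hl.up⟩,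
    fun k hk => ?_⟩
  obtain ⟨z, hz, rfl⟩ := List.mem_map.1 hk
  exact ⟨rfl, h1 z hz⟩

private theorem star3_LThree (n : ℕ) : ∀ (L : Fo), L.size < n → ∀ (e u : Dat) (U : Fo),
    u.st + U.wt ≤ 1 → e.st + (Fo.cons u U L).wt = 3 → WV e (.cons u U L) →
    ∃ (d' : Dat) (F' : Fo) (R : St), Eqv e (.cons u U L) d' F' ∧ RS R d' F' ∧ R.wt = 3 ∧
      ∀ k ∈ R.k, k.t = [] ∧ (⟨k.l, k.s, k.q⟩ : K0).One := by
  induction n with
  | zero => exact fun L h => absurd h (Nat.not_lt_zero _)
  | succ n ih =>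
    intro L hn e u U hU h hw
    rcases light_or (F := L) with hL | ⟨f, M, L0, hp, h1⟩
    · obtain ⟨R, hR, h2⟩ := star_of_light (F := .cons u U L) ⟨hU, hL⟩ hw
      exact ⟨e, _, R, .refl _ _, hR, by rw [← hR.wt, h], h2⟩
    · have e1 : Eqv e (.cons u U L) f (.cons e (.cons u U L0) M) :=
        .rr (.perm (.refl _ _) ((Fp.cons u U hp).trans (.swap u f U M L0)))
      have hs := hp.size
      have hwt := e1.wt
      simp only [Fo.wt, Fo.size] at h hs hwt
      obtain ⟨d', F', R, hE, hR, h2, h3⟩ := ih M (by omega) f e (.cons u U L0)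
        (by simp only [Fo.wt]; omega) (by simp only [Fo.wt]; omega) (hw.eqv e1)
      exact ⟨d', F', R, e1.trans hE, hR, h2, h3⟩

theorem star3 {d : Dat} {F : Fo} (h : d.st + F.wt = 3) (hw : WV d F) :
    ∃ (d' : Dat) (F' : Fo) (R : St), Eqv d F d' F' ∧ RS R d' F' ∧ R.wt = 3 ∧
      ∀ k ∈ R.k, k.t = [] ∧ (⟨k.l, k.s, k.q⟩ : K0).One := by
  rcases light_or (F := F) with hF | ⟨e, L, F0, hp, h1⟩
  · obtain ⟨R, hR, h2⟩ := star_of_light hF hw
    exact ⟨d, F, R, .refl _ _, hR, by rw [← hR.wt, h], h2⟩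
  · have e1 : Eqv d F e (.cons d F0 L) := .rr (.perm (.refl _ _) hp)
    have hwt := e1.wt
    simp only [Fo.wt] at h hwt
    obtain ⟨d', F', R, hE, hR, h2, h3⟩ := star3_LThree (L.size + 1) L (Nat.lt_succ_self _) e d F0
      (by omega) (by simp only [Fo.wt]; omega) (hw.eqv e1)
    exact ⟨d', F', R, e1.trans hE, hR, h2, h3⟩

theorem three {T : St → Prop} (hT : Tab T) {d : Dat} {F : Fo} (hw : WV d F)
    (h : d.st + F.wt = 3) : OK (Gd T) d F ∨ Al (Gd T) d F := by
  obtain ⟨d', F', R, hE, hR, h2, h3⟩ := star3 h hw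
  have hw' := hw.eqv hE
  have hT' : ∀ R : St, T R → R.w ≤ 1 ∧ R.q ≤ 1 := fun R hR => ⟨(hT.wf R hR).1, (hT.wf R hR).2.1⟩
  rcases AnsS.sound hT' (hT.g1 R (hR.V hw') h2 h3) hR hw'.wv1 with h4 | h4
  · exact Or.inl (h4.eqv hE.symm)
  · exact Or.inr (h4.eqv hE.symm)

end Pool.Agent.GCI
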