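import Pool.Agent.GCI.LFeq
import Pool.Agent.GCI.LInv

/-!
# MP_f1ab9c: package LTra. `OK`, `Al` and `Gd` depend only on the piece

Proofs. `OK.eqv`, `Al.eqv`: induction on `Eqv` with the constructors `perm` and `rr`. `Gd.eqv`: `WV.eqv`,
`Eqv.wt`, and `Eqv.symm`, `Eqv.trans` for the table part. `Al.nf`: induction on `Al` (for `perm` and `rr`
compose with `Eqv.symm` of the step). `Al.of`: `Al.here` and `Al.eqv` with `Eqv.symm`.
`OK.feq`, `Al.feq`: `Feq.eqv`.
-/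

set_option autoImplicit false

namespace Pool.Agent.GCI

theorem OK.eqv {Good : Dat → Fo → Prop} {d d' : Dat} {F F' : Fo} (h : OK Good d F)
    (he : Eqv d F d' F') : OK Good d' F' := by
  induction he with
  | refl => exact h
  | perm _ hp ih => exact .perm (ih h) hp
  | rr _ ih => exact .rr (ih h)

theorem Al.eqv {Good : Dat → Fo → Prop} {d d' : Dat} {F F' : Fo} (h : Al Good d F)
    (he : Eqv d F d' F') : Al Good d' F' := by
  induction he with
  | refl => exact h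
  | perm _ hp ih => exact .perm (ih h) hp
  | rr _ ih => exact .rr (ih h)

theorem OK.feq {Good : Dat → Fo → Prop} {d : Dat} {F F' : Fo} (h : OK Good d F)
    (he : Feq F F') : OK Good d F' := by
  exact h.eqv (he.eqv d)

theorem Al.feq {Good : Dat → Fo → Prop} {d : Dat} {F F' : Fo} (h : Al Good d F)
    (he : Feq F F') : Al Good d F' := by
  exact h.eqv (he.eqv d)

theorem Ans2.feq {Good : Dat → Fo → Prop} {d e : Dat} {F F' K K' : Fo}
    (h : Ans2 Good d F e K) (hF : Feq F F') (hK : Feq K K') : Ans2 Good d F' e K' := by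
  rcases h with ⟨h1, h2⟩ | ⟨h1, h2⟩ | ⟨h1, h2⟩
  · exact .inl ⟨h1.feq hF, h2.feq hK⟩
  · exact .inr (.inl ⟨h1.feq hF, h2.feq hK⟩)
  · exact .inr (.inr ⟨h1.feq hF, h2.feq hK⟩)

theorem Ans2.swap {Good : Dat → Fo → Prop} {d e : Dat} {F K : Fo}
    (h : Ans2 Good d F e K) : Ans2 Good e K d F := by
  rcases h with ⟨h1, h2⟩ | ⟨h1, h2⟩ | ⟨h1, h2⟩
  · exact .inl ⟨h2, h1⟩
  · exact .inr (.inr ⟨h2, h1⟩)
  · exact .inr (.inl ⟨h2, h1⟩)

theorem Al.nf {Good : Dat → Fo → Prop} {d : Dat} {F : Fo} (h : Al Good d F) :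
    ∃ (p c : Dat) (K A : Fo) (a : Fin 5), Eqv d F p (.cons c K A) ∧ a ∉ p.S ∧ a ∉ c.S ∧
      OK Good (p.add a) A ∧ OK Good (c.add a) K := by
  induction h with
  | @here d e F K a h1 h2 h3 h4 => exact ⟨d, e, K, F, a, .refl _ _, h1, h2, h3, h4⟩
  | perm _ hp ih =>
    obtain ⟨p, c, K, A, a, h1, h2⟩ := ih
    exact ⟨p, c, K, A, a, (Eqv.ofFp hp).symm.trans h1, h2⟩
  | rr _ ih =>
    obtain ⟨p, c, K, A, a, h1, h2⟩ := ih
    exact ⟨p, c, K, A, a, (Eqv.rr1 _ _ _ _).trans h1, h2⟩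

theorem Al.of {Good : Dat → Fo → Prop} {d p c : Dat} {F K A : Fo} (a : Fin 5)
    (he : Eqv d F p (.cons c K A)) (hp : a ∉ p.S) (hc : a ∉ c.S) (h1 : OK Good (p.add a) A)
    (h2 : OK Good (c.add a) K) : Al Good d F := by
  exact (Al.here a hp hc h1 h2).eqv he.symm

/-- cut an immune edge, `?` at the upper vertex -/
theorem OK.cut' {Good : Dat → Fo → Prop} {d e : Dat} {F K : Fo} (hi : Imm e d)
    (h1 : OK Good d.quest F) (h2 : OK Good e.star K) : OK Good d (.cons e K F) := by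
  exact .rr (.cut hi h2 h1)

theorem Gd.eqv {T : St → Prop} {d d' : Dat} {F F' : Fo} (h : Gd T d F)
    (he : Eqv d F d' F') : Gd T d' F' := by
  obtain ⟨h1, h2⟩ := h
  refine ⟨h1.eqv he, ?_⟩
  rcases h2 with h2 | ⟨π, e, G, R, h3, h4, h5⟩
  · left
    rw [← he.wt]
    exact h2
  · exact .inr ⟨π, e, G, R, he.symm.trans h3, h4, h5⟩

/-- pieces of weight at most `2` -/
theorem OK.small {T : St → Prop} {d : Dat} {F : Fo} (h : WV d F) (hw : d.st + F.wt ≤ 2) :
    OK (Gd T) d F := by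
  exact .good ⟨h, .inl hw⟩

end Pool.Agent.GCI
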