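import Pool.Agent.GCI.LKs

/-!
# MP_f1ab9c: package LV. The stars of valid pieces are possible

Proofs.
* `RS.V1`: `BV p d F` and the description: `used + 1 ≤ deg`: `d.S.card + d.w + d.q + (1 + F.labs.length) =
  d.lab.deg ≤ cls.deg` and `R.k.length ≤ F.labs.length` (`Ks.len`). `nbOK`: the labels of the kids are a
  sublist (up to permutations) of the classes of `F.labs` (prove: `Ks l F → (l.map Kd.l).Subperm
  (F.labs.map Lab.cls)`), and `nbOK` is monotone under `Subperm`; `NodeOK` gives the rest, `Lab.cls l = c ↔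
  l = ctr`, `Lab.cls l = x ↔ l = leaf`, counts are preserved (`List.count_map_of_injective` does not apply,
  but `count .c (L.map cls) = count ctr L` by induction). The kids: `Kd.V_of`.
* `Kd.V_of`, `K0.V_of`: the same one level lower; `pc k.s + k.q + k.t.length < k.l.deg`:
  `e.S.card + e.w + e.q + (1 + K.labs.length) = e.lab.deg` (for a far kid: `k.t = []`).
* `nbOK_two`: `NodeOK e (d.lab :: f.lab :: L0.labs)`.
-/

set_option autoImplicit false

namespace Pool.Agent.GCI

private theorem lv_cls_c {l : Lab} : l.cls = .c ↔ l = .ctr := by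
  cases l <;> simp [Lab.cls]

private theorem lv_cls_x {l : Lab} : l.cls = .x ↔ l = .leaf := by
  cases l <;> simp [Lab.cls]

private theorem lv_deg_le (l : Lab) : l.deg ≤ l.cls.deg := by
  cases l <;> simp [Lab.cls, Lab.deg, L3.deg]

private theorem lv_mem_c {L : List Lab} : L3.c ∈ L.map Lab.cls ↔ Lab.ctr ∈ L := by
  simp only [List.mem_map, lv_cls_c, exists_eq_right]

private theorem lv_mem_x {L : List Lab} : L3.x ∈ L.map Lab.cls ↔ Lab.leaf ∈ L := by
  simp only [List.mem_map, lv_cls_x, exists_eq_right]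

private theorem lv_count_c (L : List Lab) : (L.map Lab.cls).count .c = L.count .ctr := by
  induction L with
  | nil => rfl
  | cons a L ih => cases a <;> simp [Lab.cls, ih]

/-- the conditions on the neighbours in terms of classes -/
private theorem lv_nb_of_node {d : Dat} {L : List Lab} (h : NodeOK d L) :
    nbOK d.lab.cls (L.map Lab.cls) := by
  refine ⟨?_, fun hc hm => ?_, fun hx => ⟨fun hm => ?_, ?_⟩⟩
  · rw [List.length_map]
    have h1 := h.1
    have h2 := lv_deg_le d.lab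
    omega
  · exact h.2.1 (lv_cls_c.1 hc) (lv_mem_c.1 hm)
  · exact (h.2.2 (lv_cls_x.1 hx)).1 (lv_mem_x.1 hm)
  · rw [lv_count_c]
    exact (h.2.2 (lv_cls_x.1 hx)).2

private theorem lv_nb_mono {l : L3} {A B : List L3} (h : nbOK l B) (hs : A.Subperm B) :
    nbOK l A :=
  ⟨hs.length_le.trans h.1, fun e hm => h.2.1 e (hs.subset hm),
    fun e => ⟨fun hm => (h.2.2 e).1 (hs.subset hm), (hs.count_le _).trans (h.2.2 e).2⟩⟩

private theorem lv_k0s_le {κ : Multiset K0} {F : Fo} (h : K0s κ F) :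
    κ.map K0.l ≤ ((F.labs.map Lab.cls : List L3) : Multiset L3) := by
  induction h with
  | nil => simp
  | cln _ _ _ ih => exact ih.trans (Multiset.le_cons_self _ _)
  | kid hk _ ih =>
    rw [Multiset.map_cons, ← hk.1]
    exact Multiset.cons_le_cons _ ih

private theorem lv_ks_le {κ : Multiset Kd} {F : Fo} (h : Ks κ F) :
    κ.map Kd.l ≤ ((F.labs.map Lab.cls : List L3) : Multiset L3) := by
  induction h with
  | nil => simp
  | cln _ _ _ ih => exact ih.trans (Multiset.le_cons_self _ _)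
  | kid hk _ ih =>
    rw [Multiset.map_cons, ← hk.1]
    exact Multiset.cons_le_cons _ ih

private theorem lv_k0s_sub {l : List K0} {F : Fo} (h : K0s (l : Multiset K0) F) :
    (l.map K0.l).Subperm (F.labs.map Lab.cls) := by
  have h1 := lv_k0s_le h
  rwa [Multiset.map_coe, Multiset.coe_le] at h1

private theorem lv_ks_sub {l : List Kd} {F : Fo} (h : Ks (l : Multiset Kd) F) :
    (l.map Kd.l).Subperm (F.labs.map Lab.cls) := by
  have h1 := lv_ks_le h
  rwa [Multiset.map_coe, Multiset.coe_le] at h1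

/-- the number of edges `?` -/
private theorem lv_q {d : Dat} (h : d.W) : qOK d.lab.cls (mask d.S) d.q := by
  obtain ⟨⟨_, h2, h3, h4⟩, _, h6⟩ := h
  refine ⟨h6, fun hq => ⟨fun hm => ?_, fun hs => ?_, fun hx => ?_⟩⟩
  · have h7 : d.lab.deg ≠ 4 := by
      cases hl : d.lab <;> rw [hl] at hm <;> simp [Lab.cls] at hm <;> simp [Lab.deg]
    have := h2 h7
    omega
  · have := (h3 (mask_eq_zero.1 hs)).2
    omega
  · rw [pc_mask]
    exact h4 (lv_cls_x.1 hx) (by omega)

theorem K0.V_of {p : Lab} {z : K0} {e : Dat} {K : Fo} (h : BV p e K) (hz : IsK0 z e K) :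
    z.V p.cls := by
  obtain ⟨h1, h2, h3, h4, h5⟩ := hz
  obtain ⟨hn, -, hw, -⟩ := h
  have hnb := lv_nb_of_node hn
  refine ⟨?_, ?_, ?_, ?_⟩
  · rw [← h1]
    refine lv_nb_mono hnb ?_
    rw [List.map_cons]
    exact (List.Sublist.cons_cons _ (List.nil_sublist _)).subperm
  · rw [← h1, ← h2, ← h4]
    exact lv_q hw
  · rw [← h1, ← h2, ← h4, pc_mask]
    have h6 := hn.1
    have h7 := lv_deg_le e.lab
    rw [List.length_cons] at h6
    omega
  · rw [← h2]
    exact mask_lt _

private theorem lv_k0s_V {p : Lab} {κ : Multiset K0} {F : Fo} (h : K0s κ F) (hv : F.Val p)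
    (hw : F.W) : ∀ z ∈ κ, z.V p.cls := by
  induction h with
  | nil => intro z hz; simp at hz
  | cln _ _ _ ih => exact ih hv.2.2 hw.2.2
  | kid hk _ ih =>
    intro z hz
    rcases Multiset.mem_cons.1 hz with rfl | hz
    · exact K0.V_of ⟨hv.1, hv.2.1, hw.1, hw.2.1⟩ hk
    · exact ih hv.2.2 hw.2.2 z hz

theorem Kd.V_of {p : Lab} {k : Kd} {e : Dat} {K : Fo} (h : BV p e K) (hk : IsK k e K) :
    k.V p.cls := by
  obtain ⟨h1, h2, h3, h4, h5⟩ := hk
  obtain ⟨hn, hv, hw, hW⟩ := h
  have hnb := lv_nb_of_node hn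
  have hlen : k.t.length ≤ K.labs.length := by
    rcases h5 with ⟨_, h6, _⟩ | ⟨_, h6⟩
    · rw [h6]
      exact Nat.zero_le _
    · exact K0s.len h6
  refine ⟨?_, ?_, ?_, ?_, ?_⟩
  · rw [← h1]
    refine lv_nb_mono hnb ?_
    rw [List.map_cons]
    refine (List.subperm_cons _).2 ?_
    rcases h5 with ⟨_, h6, _⟩ | ⟨_, h6⟩
    · rw [h6]
      exact List.nil_subperm
    · exact lv_k0s_sub h6
  · rw [← h1, ← h2, ← h4]
    exact lv_q hw
  · rw [← h1, ← h2, ← h4, pc_mask]
    have h6 := hn.1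
    have h7 := lv_deg_le e.lab
    rw [List.length_cons] at h6
    omega
  · rw [← h2]
    exact mask_lt _
  · rcases h5 with ⟨_, h6, _⟩ | ⟨_, h6⟩
    · rw [h6]
      intro z hz
      simp at hz
    · intro z hz
      rw [← h1]
      exact lv_k0s_V h6 hv hW z (Multiset.mem_coe.2 hz)

private theorem lv_ks_V {p : Lab} {κ : Multiset Kd} {F : Fo} (h : Ks κ F) (hv : F.Val p)
    (hw : F.W) : ∀ k ∈ κ, k.V p.cls := by
  induction h with
  | nil => intro z hz; simp at hz
  | cln _ _ _ ih => exact ih hv.2.2 hw.2.2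
  | kid hk _ ih =>
    intro z hz
    rcases Multiset.mem_cons.1 hz with rfl | hz
    · exact Kd.V_of ⟨hv.1, hv.2.1, hw.1, hw.2.1⟩ hk
    · exact ih hv.2.2 hw.2.2 z hz

private theorem lv_star {R : St} {d : Dat} {F : Fo} (P : List Lab) (h : RS R d F)
    (hn : NodeOK d (P ++ F.labs)) (hv : F.Val d.lab) (hw : d.W) (hW : F.W) :
    R.V (P.map Lab.cls) := by
  obtain ⟨h1, h2, h3, h4, h5⟩ := h
  have hnb := lv_nb_of_node hn
  have hlen := Ks.len h5
  refine ⟨?_, ?_, ?_, fun hw1 => ⟨?_, fun hs => ?_⟩, ?_, ?_, ?_⟩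
  · unfold St.used
    rw [← h1, ← h2, ← h3, ← h4, pc_mask, List.length_map]
    have h6 := hn.1
    have h7 := lv_deg_le d.lab
    rw [List.length_append] at h6
    omega
  · rw [← h1]
    refine lv_nb_mono hnb ?_
    rw [List.map_append]
    exact (List.subperm_append_left _).2 (lv_ks_sub h5)
  · rw [← h3]
    exact hw.2.1
  · rw [← h1]
    have h6 : d.lab.deg ≠ 4 := by
      intro h7
      have := hw.1.1 h7
      omega
    cases hl : d.lab <;> rw [hl] at h6 <;> simp [Lab.deg] at h6 <;> rfl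
  · rw [← h2] at hs
    have := (hw.1.2.2.1 (mask_eq_zero.1 hs)).1
    omega
  · rw [← h1, ← h2, ← h4]
    exact lv_q hw
  · rw [← h2]
    exact mask_lt _
  · intro k hk
    rw [← h1]
    exact lv_ks_V h5 hv hW k (Multiset.mem_coe.2 hk)

theorem RS.V {R : St} {d : Dat} {F : Fo} (h : RS R d F) (hw : WV d F) : R.V [] :=
  lv_star [] h hw.1.1 hw.1.2 hw.2.1 hw.2.2

theorem RS.V1 {p : Lab} {R : St} {d : Dat} {F : Fo} (h : RS R d F) (hw : BV p d F) :
    R.V [p.cls] :=
  lv_star [p] h hw.1 hw.2.1 hw.2.2.1 hw.2.2.2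

/-- two neighbours of a vertex -/
theorem nbOK_two {d e f : Dat} {M L0 F0 : Fo} (h : WV d (.cons e (.cons f M L0) F0)) :
    nbOK e.lab.cls [d.lab.cls, f.lab.cls] := by
  refine lv_nb_mono (lv_nb_of_node h.1.2.1) ?_
  rw [List.map_cons]
  refine (List.subperm_cons _).2 ?_
  change [f.lab.cls].Subperm (f.lab.cls :: L0.labs.map Lab.cls)
  exact (List.Sublist.cons_cons _ (List.nil_sublist _)).subperm

end Pool.Agent.GCI
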