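import Pool.Agent.GCI.Res

/-!
# MP_f1ab9c: the reduction of the game to families of pieces
-/

set_option autoImplicit false
set_option linter.unusedSectionVars false

namespace Pool.Agent.GCI

open Relation Pos

variable {V : Type} [Fintype V] [DecidableEq V] {G : SimpleGraph V} {lab : V → Lab}

open Classical in
/-- the neighbours of a vertex -/
noncomputable def nb (G : SimpleGraph V) (x : V) : Finset V :=
  Finset.univ.filter fun y => G.Adj x y

/-- the conditions on the labels -/
structure LabOK (G : SimpleGraph V) (lab : V → Lab) : Prop where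
  deg : ∀ x, (lab x).deg = (nb G x).card
  ctr : ∀ x y, G.Adj x y → lab x = .ctr → lab y ≠ .ctr
  leaf : ∀ x y, G.Adj x y → lab x = .leaf → lab y ≠ .leaf
  leaf1 : ∀ x y z, lab x = .leaf → G.Adj x y → G.Adj x z → lab y = .ctr → lab z = .ctr → y = z

/-- the colouring is proper -/
def Proper (G : SimpleGraph V) (c : Col V 5) : Prop :=
  ∀ x y z a, G.Adj x y → G.Adj x z → c s(x, y) = some a → c s(x, z) = some a → y = z

theorem mem_S {P : Pos V} {x : V} {a : Fin 5} :
    a ∈ P.S G x ↔ ∃ y, G.Adj x y ∧ P.c s(x, y) = some a := by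
  simp [Pos.S]

theorem legal_iff {P : Pos V} {x y : V} {a : Fin 5} :
    Legal G P.c s(x, y) a ↔ G.Adj x y ∧ P.c s(x, y) = none ∧ a ∉ P.S G x ∧ a ∉ P.S G y := by
  unfold Legal
  rw [mem_S, mem_S, SimpleGraph.mem_edgeSet]
  refine and_congr_right fun hxy => and_congr_right fun hn => ?_
  constructor
  · intro h
    refine ⟨?_, ?_⟩
    · rintro ⟨z, hz, hc⟩
      exact h s(x, z) hz ⟨x, Sym2.mem_mk_left _ _, Sym2.mem_mk_left _ _⟩ hc
    · rintro ⟨z, hz, hc⟩
      exact h s(y, z) hz ⟨y, Sym2.mem_mk_right _ _, Sym2.mem_mk_left _ _⟩ hc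
  · rintro ⟨h1, h2⟩ e' he' ⟨v, hv, hv'⟩ hc
    obtain ⟨z, rfl⟩ := Sym2.mem_iff_exists.1 hv'
    rcases Sym2.mem_iff.1 hv with rfl | rfl
    · exact h1 ⟨z, he', hc⟩
    · exact h2 ⟨z, he', hc⟩

theorem Proper.col {P : Pos V} (h : Proper G P.c) {e : Sym2 V} {a : Fin 5}
    (hl : Legal G P.c e a) : Proper G (P.col e a).c := by
  obtain ⟨-, -, h3⟩ := hl
  intro x y z b hy hz h1 h2
  by_cases ey : s(x, y) = e
  · by_cases ez : s(x, z) = e
    · rw [← ez, Sym2.eq_iff] at ey
      rcases ey with ⟨-, ey⟩ | ⟨e1, e2⟩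
      · exact ey
      · rw [e2, ← e1]
    · rw [ey, col_c_self] at h1
      rw [col_c_of_ne ez, ← h1] at h2
      exact absurd h2 (h3 _ hz ⟨x, ey ▸ Sym2.mem_mk_left _ _, Sym2.mem_mk_left _ _⟩)
  · by_cases ez : s(x, z) = e
    · rw [ez, col_c_self] at h2
      rw [col_c_of_ne ey, ← h2] at h1
      exact absurd h1 (h3 _ hy ⟨x, ez ▸ Sym2.mem_mk_left _ _, Sym2.mem_mk_left _ _⟩)
    · rw [col_c_of_ne ey] at h1
      rw [col_c_of_ne ez] at h2
      exact h x y z b hy hz h1 h2

/-! ### Counting edges at a vertex -/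

theorem card_le_of_none {P : Pos V} {x y : V} (hxy : G.Adj x y) (hn : P.c s(x, y) = none) :
    (P.S G x).card + 1 ≤ (nb G x).card := by
  classical
  have h1 : P.S G x ⊆ ((nb G x).erase y).image fun z => (P.c s(x, z)).getD 0 := by
    intro a ha
    obtain ⟨z, hz, hc⟩ := mem_S.1 ha
    refine Finset.mem_image.2 ⟨z, Finset.mem_erase.2 ⟨?_, by simp [nb, hz]⟩, by simp [hc]⟩
    rintro rfl
    rw [hn] at hc
    simp at hc
  have h2 := (Finset.card_le_card h1).trans Finset.card_image_le
  have h3 : y ∈ nb G x := by simp [nb, hxy]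
  have h4 := Finset.card_erase_add_one h3
  omega

theorem count_le_one {f : V → Lab} : ∀ {us : List V}, us.Nodup →
    (∀ y ∈ us, ∀ z ∈ us, f y = .ctr → f z = .ctr → y = z) →
    (us.map f).count Lab.ctr ≤ 1 := by
  intro us
  induction us with
  | nil => intro _ _; simp
  | cons y us ih =>
    intro hn h
    rw [List.map_cons]
    by_cases hy : f y = .ctr
    · have h0 : (us.map f).count Lab.ctr = 0 := by
        rw [List.count_eq_zero]
        intro hm
        obtain ⟨z, hz, hz'⟩ := List.mem_map.1 hm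
        have := h y List.mem_cons_self z (List.mem_cons_of_mem _ hz) hy hz'
        subst this
        exact (List.nodup_cons.1 hn).1 hz
      rw [List.count_cons, h0, hy]
      simp
    · rw [List.count_cons_of_ne hy]
      exact ih (List.nodup_cons.1 hn).2 fun y hy z hz =>
        h y (List.mem_cons_of_mem _ hy) z (List.mem_cons_of_mem _ hz)

theorem card_S (hl : LabOK G lab) {P : Pos V} (hp : Proper G P.c) (hc : CutOK G lab P) {x : V}
    {us : List V} (hn : us.Nodup) (hu : ∀ y, y ∈ us ↔ P.H G x y) :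
    (P.S G x).card + P.wn G x + P.qn G x + us.length = (lab x).deg := by
  classical
  rw [hl.deg]
  have e0 : (P.S G x).card = ((nb G x).filter fun y => P.c s(x, y) ≠ none).card := by
    symm
    refine Finset.card_bij (fun z _ => (P.c s(x, z)).getD 0) ?_ ?_ ?_
    · intro z hz
      simp only [nb, Finset.mem_filter, Finset.mem_univ, true_and] at hz
      obtain ⟨b, hb⟩ := Option.ne_none_iff_exists'.1 hz.2
      exact mem_S.2 ⟨z, hz.1, by simp [hb]⟩
    · intro z hz z' hz' he
      simp only [nb, Finset.mem_filter, Finset.mem_univ, true_and] at hz hz'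
      obtain ⟨b, hb⟩ := Option.ne_none_iff_exists'.1 hz.2
      obtain ⟨b', hb'⟩ := Option.ne_none_iff_exists'.1 hz'.2
      rw [hb, hb'] at he
      simp only [Option.getD_some] at he
      subst he
      exact hp x z z' b hz.1 hz'.1 hb hb'
    · intro b hb
      obtain ⟨z, hz, hz'⟩ := mem_S.1 hb
      exact ⟨z, by simp [nb, hz, hz'], by simp [hz']⟩
  have e1 : us.length = us.toFinset.card := (List.toFinset_card_of_nodup hn).symm
  have e2 : us.toFinset = (((nb G x).filter fun y => ¬ P.c s(x, y) ≠ none).filter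
      fun y => ¬ P.o x y).filter fun y => ¬ P.o y x := by
    ext y
    simp only [List.mem_toFinset, hu, Pos.H, nb, Finset.mem_filter, Finset.mem_univ, true_and]
    tauto
  have e3 : P.wn G x = (((nb G x).filter fun y => ¬ P.c s(x, y) ≠ none).filter
      fun y => P.o x y).card := by
    unfold Pos.wn
    congr 1
    ext y
    simp only [nb, Finset.mem_filter, Finset.mem_univ, true_and]
    tauto
  have e4 : P.qn G x = ((((nb G x).filter fun y => ¬ P.c s(x, y) ≠ none).filter
      fun y => ¬ P.o x y).filter fun y => P.o y x).card := by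
    unfold Pos.qn
    congr 1
    ext y
    simp only [nb, Finset.mem_filter, Finset.mem_univ, true_and]
    constructor
    · rintro ⟨h1, h2, h3⟩
      refine ⟨⟨⟨h1, by tauto⟩, ?_⟩, h3⟩
      have h2' : P.c s(y, x) = none := by rw [Sym2.eq_swap]; exact h2
      exact (hc y x h1.symm h2' h3).1
    · tauto
  rw [e0, e1, e2, e3, e4]
  have f1 := Finset.card_filter_add_card_filter_not (s := nb G x)
    (fun y => P.c s(x, y) ≠ none)
  have f2 := Finset.card_filter_add_card_filter_not
    (s := (nb G x).filter fun y => ¬ P.c s(x, y) ≠ none) (fun y => P.o x y)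
  have f3 := Finset.card_filter_add_card_filter_not
    (s := ((nb G x).filter fun y => ¬ P.c s(x, y) ≠ none).filter fun y => ¬ P.o x y)
    (fun y => P.o y x)
  omega

theorem node_ok (hl : LabOK G lab) {P : Pos V} (hp : Proper G P.c) (hc : CutOK G lab P) {x : V}
    {us : List V} (hn : us.Nodup) (hu : ∀ y, y ∈ us ↔ P.H G x y) :
    NodeOK (P.dat G lab x) (us.map lab) := by
  refine ⟨?_, ?_, ?_⟩
  · rw [List.length_map]
    exact card_S hl hp hc hn hu
  · intro hx hm
    obtain ⟨y, hy, hy'⟩ := List.mem_map.1 hm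
    exact hl.ctr x y ((hu y).1 hy).1 hx hy'
  · intro hx
    refine ⟨fun hm => ?_, count_le_one hn fun y hy z hz h1 h2 => ?_⟩
    · obtain ⟨y, hy, hy'⟩ := List.mem_map.1 hm
      exact hl.leaf x y ((hu y).1 hy).1 hx hy'
    · exact hl.leaf1 x y z hx ((hu y).1 hy).1 ((hu z).1 hz).1 h1 h2

theorem RF.labs {P : Pos V} {v : V} {us : List V} {F : Fo} (h : RF G lab P v us F) :
    F.labs = us.map lab := by
  induction h with
  | nil v => rfl
  | cons v u us kus K F _ _ _ _ _ ihF =>
    rw [List.map_cons, ← ihF]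
    rfl

theorem RF.val (hl : LabOK G lab) {P : Pos V} (hp : Proper G P.c) (hc : CutOK G lab P) {v : V}
    {us : List V} {F : Fo} (h : RF G lab P v us F) (hus : ∀ u ∈ us, P.H G v u) :
    F.Val (lab v) := by
  induction h with
  | nil v => trivial
  | cons v u us kus K F hn hk hK hF ihK ihF =>
    have huv : P.H G v u := hus u List.mem_cons_self
    refine ⟨?_, ihK fun x hx => ((hk x).1 hx).1, ihF fun x hx => hus x (List.mem_cons_of_mem _ hx)⟩
    rw [hK.labs, ← List.map_cons (f := lab)]
    refine node_ok hl hp hc (List.nodup_cons.2 ⟨fun hv => ((hk v).1 hv).2 rfl, hn⟩) fun y => ?_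
    rw [List.mem_cons, hk]
    constructor
    · rintro (rfl | ht)
      · exact huv.symm
      · exact ht.1
    · intro ht
      by_cases hty : y = v
      · exact Or.inl hty
      · exact Or.inr ⟨ht, hty⟩

theorem Rep.valid (hl : LabOK G lab) {P : Pos V} (hp : Proper G P.c) (hc : CutOK G lab P) {v : V}
    {d : Dat} {F : Fo} (h : Rep G lab P v d F) : Valid d F := by
  obtain ⟨rfl, us, hn, hu, hF⟩ := h
  refine ⟨?_, hF.val hl hp hc fun x hx => (hu x).1 hx⟩
  rw [hF.labs]
  exact node_ok hl hp hc hn hu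

/-! ### Invariants -/

/-- the invariant: all pieces are OK -/
structure InvOK (G : SimpleGraph V) (lab : V → Lab) (Good : Dat → Fo → Prop) (P : Pos V) :
    Prop where
  cut : CutOK G lab P
  proper : Proper G P.c
  ok : ∀ z, (∃ y, P.H G z y) → Has G lab (OK Good) P z

/-- all pieces are good -/
structure InvG (G : SimpleGraph V) (lab : V → Lab) (Good : Dat → Fo → Prop) (P : Pos V) :
    Prop where
  cut : CutOK G lab P
  proper : Proper G P.c
  good : ∀ z, (∃ y, P.H G z y) → Has G lab Good P z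

theorem normalize (hG : G.IsTree) {Good : Dat → Fo → Prop} {P : Pos V}
    (h : InvOK G lab Good P) : ∃ Q : Pos V, Q.c = P.c ∧ InvG G lab Good Q := by
  classical
  obtain ⟨n, hn⟩ : ∃ n, (Finset.univ.filter fun z => (∃ y, P.H G z y) ∧
      ¬ Has G lab Good P z).card = n := ⟨_, rfl⟩
  induction n using Nat.strong_induction_on generalizing P with
  | _ n ih =>
    by_cases hz : ∃ z, (∃ y, P.H G z y) ∧ ¬ Has G lab Good P z
    · obtain ⟨z, hz1, hz2⟩ := hz
      obtain ⟨r, d, F, hr, hR, hOK⟩ := h.ok z hz1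
      obtain ⟨Q, q1, q2, q3, q4, q5⟩ := resolve hG hOK P r hR h.cut
      have hAx : ∀ x, ¬ Reach G P r x → ∀ t, Reach G P x t → Agree G lab P Q t :=
        fun x hx t ht => q3 t fun h' => hx (h'.trans (Reach.symm ht))
      have hQ : InvOK G lab Good Q := by
        refine ⟨q2, q1 ▸ h.proper, fun x hx => ?_⟩
        by_cases hxr : Reach G P r x
        · exact (q5 x hxr hx).mono fun d F h => OK.good h
        · have hA := hAx x hxr
          refine (h.ok x ?_).congr hG hA
          obtain ⟨y, hy⟩ := hx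
          exact ⟨y, ((hA x .refl).2 y).2 hy⟩
      have hlt : (Finset.univ.filter fun z => (∃ y, Q.H G z y) ∧
          ¬ Has G lab Good Q z).card < n := by
        rw [← hn]
        refine Finset.card_lt_card ⟨?_, ?_⟩
        · intro x hx
          simp only [Finset.mem_filter, Finset.mem_univ, true_and] at hx ⊢
          obtain ⟨⟨y, hy⟩, hx2⟩ := hx
          refine ⟨⟨y, q4 _ _ hy⟩, fun hg => ?_⟩
          by_cases hxr : Reach G P r x
          · exact hx2 (q5 x hxr ⟨y, hy⟩)
          · exact hx2 (hg.congr hG (hAx x hxr))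
        · intro hs
          have hz' : z ∈ Finset.univ.filter fun z => (∃ y, P.H G z y) ∧ ¬ Has G lab Good P z := by
            simp [hz1, hz2]
          have := hs hz'
          simp only [Finset.mem_filter, Finset.mem_univ, true_and] at this
          exact this.2 (q5 z (Reach.symm hr) this.1)
      obtain ⟨Q', h1, h2⟩ := ih _ hlt hQ rfl
      exact ⟨Q', h1.trans q1, h2⟩
    · push Not at hz
      exact ⟨P, rfl, h.cut, h.proper, hz⟩

/-! ### The moves of Alice -/

theorem al_move (hG : G.IsTree) {Good : Dat → Fo → Prop} {d : Dat} {F : Fo}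
    (h : Al Good d F) : ∀ (P : Pos V) (u : V), Rep G lab P u d F →
      ∃ x y a, P.H G x y ∧ Reach G P u x ∧ a ∉ P.S G x ∧ a ∉ P.S G y ∧
        ∀ z, Reach G P u z → Has G lab (OK Good) (P.col s(x, y) a) z := by
  induction h with
  | @here d e F K a ha hb hF hK =>
    intro P u hR
    obtain ⟨v, hv, rfl, rfl, hsp⟩ := hR.split hG
    obtain ⟨hrem, hdu, hdv⟩ := rem_col (lab := lab) (a := a) hv
    obtain ⟨hR1, hR2⟩ := hsp _ hrem
    rw [hdu] at hR1
    rw [hdv] at hR2
    refine ⟨u, v, a, hv, .refl, ha, hb, fun z hz => ?_⟩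
    rcases hrem.reach hz with h | h
    · exact ⟨u, _, _, Reach.symm h, hR1, hF⟩
    · exact ⟨v, _, _, Reach.symm h, hR2, hK⟩
  | perm _ hp ih =>
    intro P u hR
    exact ih P u (hR.perm hp.symm)
  | rr _ ih =>
    intro P u hR
    obtain ⟨v, hv, hR'⟩ := hR.rr
    obtain ⟨x, y, a, h1, h2, h3, h4, h5⟩ := ih P v hR'
    have huv : Reach G P u v := .single hv
    exact ⟨x, y, a, h1, huv.trans h2, h3, h4, fun z hz => h5 z ((Reach.symm huv).trans hz)⟩

theorem al_step (hG : G.IsTree) {Good : Dat → Fo → Prop} {d : Dat} {F : Fo}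
    (h : Al Good d F) {P : Pos V} {u : V} (hR : Rep G lab P u d F) (hC : CutOK G lab P)
    (hp : Proper G P.c)
    (hO : ∀ z, ¬ Reach G P u z → (∃ y, P.H G z y) → Has G lab (OK Good) P z) :
    ∃ e a, Legal G P.c e a ∧ InvOK G lab Good (P.col e a) := by
  obtain ⟨x, y, a, h1, h2, h3, h4, h5⟩ := al_move hG h P u hR
  have hleg : Legal G P.c s(x, y) a := legal_iff.2 ⟨h1.1, h1.2.1, h3, h4⟩
  refine ⟨s(x, y), a, hleg, hC.col h1.2.1, hp.col hleg, fun z hz => ?_⟩
  by_cases hzu : Reach G P u z
  · exact h5 z hzu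
  · have hA : ∀ t, Reach G P z t → Agree G lab P (P.col s(x, y) a) t := by
      intro t ht
      refine agree_col_ne ?_ ?_
      · rintro rfl
        exact hzu (h2.trans (Reach.symm ht))
      · rintro rfl
        exact hzu ((h2.tail h1).trans (Reach.symm ht))
    refine (hO z hzu ?_).congr hG hA
    obtain ⟨w, hw⟩ := hz
    exact ⟨w, ((hA z .refl).2 w).2 hw⟩

/-! ### No edge is dead -/

theorem exists_free (hl : LabOK G lab) {P : Pos V} {x y : V} (hxy : G.Adj x y)
    (hn : P.c s(x, y) = none) (hi : Imm (P.dat G lab x) (P.dat G lab y)) :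
    ∃ a, a ∉ P.S G x ∧ a ∉ P.S G y := by
  have h1 := card_le_of_none hxy hn
  have h2 := card_le_of_none hxy.symm (by rw [Sym2.eq_swap]; exact hn)
  rw [← hl.deg] at h1 h2
  have h3 : (lab x).deg + (lab y).deg ≤ 6 + (P.S G x ∩ P.S G y).card := hi
  have h4 := Finset.card_union_add_card_inter (P.S G x) (P.S G y)
  have h5 : (P.S G x ∪ P.S G y).card < Finset.card (Finset.univ : Finset (Fin 5)) := by
    rw [Finset.card_univ, Fintype.card_fin]
    omega
  obtain ⟨a, -, ha⟩ := Finset.exists_mem_notMem_of_card_lt_card h5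
  rw [Finset.mem_union, not_or] at ha
  exact ⟨a, ha.1, ha.2⟩

theorem InvG.root (hG : G.IsTree) {Good : Dat → Fo → Prop} (hF : Fam Good) {P : Pos V}
    (h : InvG G lab Good P) {x y : V} (hxy : P.H G x y) :
    ∃ K F, Rep G lab P x (P.dat G lab x) (.cons (P.dat G lab y) K F) ∧
      Good (P.dat G lab x) (.cons (P.dat G lab y) K F) ∧
      ∀ Q, Rem G lab P Q x y →
        Rep G lab Q x (Q.dat G lab x) F ∧ Rep G lab Q y (Q.dat G lab y) K := by
  obtain ⟨d, F, hR, hg⟩ := (h.good x ⟨y, hxy⟩).root (X := Good) hF.perm hF.rr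
  obtain ⟨K, F', us, kus, hp, hn, hu, hk, hk', hK, hF'⟩ := hR.front hxy
  have hR' := hR.perm hp
  have hd := hR.1
  subst hd
  exact ⟨K, F', hR', hF.perm hg hp, fun Q hQ => hQ.rep hG hn hu hk hk' hK hF'⟩

theorem InvG.live (hG : G.IsTree) (hl : LabOK G lab) {Good : Dat → Fo → Prop} (hF : Fam Good)
    {P : Pos V} (h : InvG G lab Good P) : Live G P.c := by
  intro e he hn
  induction e using Sym2.ind with
  | _ x y =>
    have hxy : G.Adj x y := he
    have key : ∃ a, a ∉ P.S G x ∧ a ∉ P.S G y := by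
      by_cases h1 : P.o x y
      · exact exists_free hl hxy hn (h.cut x y hxy hn h1).2
      · by_cases h2 : P.o y x
        · have hn' : P.c s(y, x) = none := by rw [Sym2.eq_swap]; exact hn
          obtain ⟨a, ha, hb⟩ := exists_free hl hxy.symm hn' (h.cut y x hxy.symm hn' h2).2
          exact ⟨a, hb, ha⟩
        · obtain ⟨K, F, hR, hg, -⟩ := h.root hG hF ⟨hxy, hn, h1, h2⟩
          exact hF.live (hR.valid hl h.proper h.cut) hg
    obtain ⟨a, ha, hb⟩ := key
    exact ⟨a, legal_iff.2 ⟨hxy, hn, ha, hb⟩⟩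

/-! ### Colouring a cut edge -/

/-- `x` and `y` are in different pieces if the edge `x y` is not in a piece. -/
theorem side_of_not_H (hG : G.IsTree) {P : Pos V} {x y z : V} (hxy : G.Adj x y)
    (hn : ¬ P.H G x y) (hz : Reach G P x z) : G.dist z x < G.dist z y := by
  induction hz with
  | refl => exact side_self hxy.symm
  | @tail s t hs hst ih =>
    by_contra ht
    obtain ⟨rfl, rfl⟩ := cross hG hxy hst.1 ih ht
    exact hn hst

theorem H_colcut {P : Pos V} {x y : V} {a : Fin 5} (ho : P.o x y) (s t : V) :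
    (P.col s(x, y) a).H G s t ↔ P.H G s t := by
  unfold Pos.H
  rw [none_col]
  simp only [Pos.col]
  constructor
  · rintro ⟨h1, h2, h3, h4⟩
    exact ⟨h1, h2.1, h3, h4⟩
  · rintro ⟨h1, h2, h3, h4⟩
    refine ⟨h1, ⟨h2, ?_⟩, h3, h4⟩
    intro he
    rw [Sym2.eq_iff] at he
    rcases he with ⟨rfl, rfl⟩ | ⟨rfl, rfl⟩
    · exact h3 ho
    · exact h4 ho

theorem dat_colcut {P : Pos V} {x y : V} {a : Fin 5} (hxy : G.Adj x y)
    (hn : P.c s(x, y) = none) (ho : P.o x y) (ho' : ¬ P.o y x) :
    0 < P.wn G x ∧ 0 < P.qn G y ∧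
    (P.col s(x, y) a).dat G lab x = (P.dat G lab x).reveal a ∧
      (P.col s(x, y) a).dat G lab y = (P.dat G lab y).answer a := by
  classical
  have hne : x ≠ y := hxy.ne
  have hn' : P.c s(y, x) = none := by rw [Sym2.eq_swap]; exact hn
  have m1 : y ∈ Finset.univ.filter fun t => G.Adj x t ∧ P.c s(x, t) = none ∧ P.o x t := by
    simp [hxy, hn, ho]
  have m2 : x ∈ Finset.univ.filter fun t => G.Adj y t ∧ P.c s(y, t) = none ∧ P.o t y := by
    simp [hxy.symm, hn', ho]
  have e1 : P.wn G x = (Finset.univ.filter fun t => G.Adj x t ∧ P.c s(x, t) = none ∧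
      P.o x t).card := by
    unfold Pos.wn
    congr 1
  have e2 : P.qn G y = (Finset.univ.filter fun t => G.Adj y t ∧ P.c s(y, t) = none ∧
      P.o t y).card := by
    unfold Pos.qn
    congr 1
  have f1 : (P.col s(x, y) a).wn G x = P.wn G x - 1 := by
    rw [e1, ← Finset.card_erase_of_mem m1]
    unfold Pos.wn
    congr 1
    ext t
    rw [Finset.mem_erase, Finset.mem_filter, Finset.mem_filter, none_col]
    simp only [Finset.mem_univ, true_and, Pos.col]
    constructor
    · rintro ⟨h1, h2, h3⟩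
      exact ⟨fun ht => h2.2 (ht ▸ rfl), h1, h2.1, h3⟩
    · rintro ⟨h0, h1, h2, h3⟩
      refine ⟨h1, ⟨h2, fun ht => ?_⟩, h3⟩
      rw [Sym2.eq_iff] at ht
      rcases ht with ⟨-, ht⟩ | ⟨ht, -⟩
      · exact h0 ht
      · exact hne ht
  have f2 : (P.col s(x, y) a).qn G y = P.qn G y - 1 := by
    rw [e2, ← Finset.card_erase_of_mem m2]
    unfold Pos.qn
    congr 1
    ext t
    rw [Finset.mem_erase, Finset.mem_filter, Finset.mem_filter, none_col]
    simp only [Finset.mem_univ, true_and, Pos.col]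
    constructor
    · rintro ⟨h1, h2, h3⟩
      exact ⟨fun ht => h2.2 (ht ▸ Sym2.eq_swap), h1, h2.1, h3⟩
    · rintro ⟨h0, h1, h2, h3⟩
      refine ⟨h1, ⟨h2, fun ht => ?_⟩, h3⟩
      rw [Sym2.eq_iff] at ht
      rcases ht with ⟨ht, -⟩ | ⟨-, ht⟩
      · exact hne ht.symm
      · exact h0 ht
  have f3 : (P.col s(x, y) a).qn G x = P.qn G x := by
    refine qn_congr fun t => ?_
    rw [none_col]
    simp only [Pos.col]
    constructor
    · rintro ⟨h1, h2, h3⟩
      exact ⟨h1, h2.1, h3⟩
    · rintro ⟨h1, h2, h3⟩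
      refine ⟨h1, ⟨h2, fun ht => ?_⟩, h3⟩
      rw [Sym2.eq_iff] at ht
      rcases ht with ⟨-, rfl⟩ | ⟨ht, -⟩
      · exact ho' h3
      · exact hne ht
  have f4 : (P.col s(x, y) a).wn G y = P.wn G y := by
    refine wn_congr fun t => ?_
    rw [none_col]
    simp only [Pos.col]
    constructor
    · rintro ⟨h1, h2, h3⟩
      exact ⟨h1, h2.1, h3⟩
    · rintro ⟨h1, h2, h3⟩
      refine ⟨h1, ⟨h2, fun ht => ?_⟩, h3⟩
      rw [Sym2.eq_iff] at ht
      rcases ht with ⟨ht, -⟩ | ⟨-, rfl⟩
      · exact hne ht.symm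
      · exact ho' h3
  refine ⟨?_, ?_, ?_, ?_⟩
  · rw [e1]
    exact Finset.card_pos.2 ⟨y, m1⟩
  · rw [e2]
    exact Finset.card_pos.2 ⟨x, m2⟩
  · unfold Pos.dat Dat.reveal
    rw [f1, f3, S_col_self hxy hn]
  · unfold Pos.dat Dat.answer
    have hS : (P.col s(x, y) a).S G y = insert a (P.S G y) := by
      rw [Sym2.eq_swap]
      exact S_col_self hxy.symm hn'
    rw [f2, f4, hS]

theorem Rep.root_change (hG : G.IsTree) {P Q : Pos V} {v : V} {d : Dat} {F : Fo}
    (h : Rep G lab P v d F) (hv : ∀ t, P.H G v t ↔ Q.H G v t)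
    (hA : ∀ x, x ≠ v → Reach G P v x → Agree G lab P Q x) :
    Rep G lab Q v (Q.dat G lab v) F := by
  obtain ⟨-, us, hn, hu, hF⟩ := h
  refine ⟨rfl, us, hn, fun x => ?_, hF.congr hG (fun u hx => (hu u).1 hx) ?_⟩
  · rw [hu, hv]
  · rintro x ⟨u, -, hx⟩ hr
    refine hA x ?_ hr
    rintro rfl
    exact not_side_self hx

/-! ### The moves of Bob -/

/-- After a move of Bob all pieces are OK, or Alice has an answer after which they are. -/
def Ans (G : SimpleGraph V) (lab : V → Lab) (Good : Dat → Fo → Prop) (Q : Pos V) : Prop :=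
  InvOK G lab Good Q ∨ ∃ e a, Legal G Q.c e a ∧ InvOK G lab Good (Q.col e a)

theorem bob_H (hG : G.IsTree) (hl : LabOK G lab) {Good : Dat → Fo → Prop} (hF : Fam Good)
    {P : Pos V} (h : InvG G lab Good P) {x y : V} {a : Fin 5} (hxy : P.H G x y)
    (hx : a ∉ P.S G x) (hy : a ∉ P.S G y) : Ans G lab Good (P.col s(x, y) a) := by
  obtain ⟨K, F, hR, hg, hQ⟩ := h.root hG hF hxy
  have hleg : Legal G P.c s(x, y) a := legal_iff.2 ⟨hxy.1, hxy.2.1, hx, hy⟩
  obtain ⟨hrem, hdx, hdy⟩ := rem_col (lab := lab) (a := a) hxy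
  obtain ⟨hR1, hR2⟩ := hQ _ hrem
  rw [hdx] at hR1
  rw [hdy] at hR2
  have hcut := h.cut.col (a := a) hxy.2.1
  have hprop := h.proper.col hleg
  have hout : ∀ z, ¬ Reach G P x z → (∃ t, (P.col s(x, y) a).H G z t) →
      Has G lab (OK Good) (P.col s(x, y) a) z := by
    intro z hz ht
    have hA : ∀ t, Reach G P z t → Agree G lab P (P.col s(x, y) a) t := by
      intro t ht'
      refine agree_col_ne ?_ ?_
      · rintro rfl
        exact hz (Reach.symm ht')
      · rintro rfl
        exact hz ((ReflTransGen.single hxy).trans (Reach.symm ht'))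
    refine ((h.good z ?_).mono fun _ _ h => OK.good h).congr hG hA
    obtain ⟨w, hw⟩ := ht
    exact ⟨w, ((hA z .refl).2 w).2 hw⟩
  rcases hF.bobE a (hR.valid hl h.proper h.cut) hg hx hy with ⟨h1, h2⟩ | ⟨h1, h2⟩ | ⟨h1, h2⟩
  · refine Or.inl ⟨hcut, hprop, fun z hz => ?_⟩
    by_cases hxz : Reach G P x z
    · rcases hrem.reach hxz with h3 | h3
      · exact ⟨x, _, _, Reach.symm h3, hR1, h1⟩
      · exact ⟨y, _, _, Reach.symm h3, hR2, h2⟩
    · exact hout z hxz hz
  · refine Or.inr (al_step hG h2 hR2 hcut hprop fun z hyz hz => ?_)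
    by_cases hxz : Reach G P x z
    · rcases hrem.reach hxz with h3 | h3
      · exact ⟨x, _, _, Reach.symm h3, hR1, h1⟩
      · exact absurd h3 hyz
    · exact hout z hxz hz
  · refine Or.inr (al_step hG h1 hR1 hcut hprop fun z hyz hz => ?_)
    by_cases hxz : Reach G P x z
    · rcases hrem.reach hxz with h3 | h3
      · exact absurd h3 hyz
      · exact ⟨y, _, _, Reach.symm h3, hR2, h2⟩
    · exact hout z hxz hz

theorem bob_cut (hG : G.IsTree) (hl : LabOK G lab) {Good : Dat → Fo → Prop} (hF : Fam Good)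
    {P : Pos V} (h : InvG G lab Good P) {x y : V} {a : Fin 5} (hxy : G.Adj x y)
    (hn : P.c s(x, y) = none) (ho : P.o x y)
    (hx : a ∉ P.S G x) (hy : a ∉ P.S G y) : Ans G lab Good (P.col s(x, y) a) := by
  have hleg : Legal G P.c s(x, y) a := legal_iff.2 ⟨hxy, hn, hx, hy⟩
  obtain ⟨ho', -⟩ := h.cut x y hxy hn ho
  obtain ⟨hw, hq, hdx, hdy⟩ := dat_colcut (lab := lab) (a := a) hxy hn ho ho'
  have hH : ∀ s t, P.H G s t ↔ (P.col s(x, y) a).H G s t := fun s t => (H_colcut ho s t).symm
  have hcut := h.cut.col (a := a) hn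
  have hprop := h.proper.col hleg
  have hne : x ≠ y := hxy.ne
  have hnH : ¬ P.H G x y := fun h => h.2.2.1 ho
  have hnH' : ¬ P.H G y x := fun h => h.2.2.2 ho
  have hxy' : ∀ {t : V}, Reach G P x t → t ≠ y := by
    rintro t ht rfl
    have := side_of_not_H hG hxy hnH ht
    simp at this
  have hyx' : ∀ {t : V}, Reach G P y t → t ≠ x := by
    rintro t ht rfl
    have := side_of_not_H hG hxy.symm hnH' ht
    simp at this
  have hrQ : ∀ {s t : V}, Reach G P s t → Reach G (P.col s(x, y) a) s t :=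
    fun h => Reach.mono (fun _ _ h' => (hH _ _).1 h') h
  have hrP : ∀ {s t : V}, Reach G (P.col s(x, y) a) s t → Reach G P s t :=
    fun h => Reach.mono (fun _ _ h' => (hH _ _).2 h') h
  -- the pieces containing neither end
  have hout : ∀ z, ¬ Reach G P x z → ¬ Reach G P y z → (∃ t, P.H G z t) →
      Has G lab (OK Good) (P.col s(x, y) a) z := by
    intro z hz hz' ht
    refine ((h.good z ht).mono fun _ _ h => OK.good h).congr hG fun t ht => agree_col_ne ?_ ?_
    · rintro rfl
      exact hz (Reach.symm ht)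
    · rintro rfl
      exact hz' (Reach.symm ht)
  -- the piece of `x`
  have hinx : ∀ z, Reach G P x z → (∃ t, P.H G z t) →
      Has G lab (OK Good) (P.col s(x, y) a) z := by
    intro z hz ht
    have hxn : ∃ t, P.H G x t := by
      rcases ReflTransGen.cases_head hz with rfl | ⟨w, hw, -⟩
      · exact ht
      · exact ⟨w, hw⟩
    obtain ⟨d, F, hR, hg⟩ := (h.good x hxn).root (X := Good) hF.perm hF.rr
    have hd := hR.1
    subst hd
    have h1 := hF.rev a (hR.valid hl h.proper h.cut) hg hw hx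
    have h2 := hR.root_change hG (hH x) fun t htx ht => agree_col_ne htx (hxy' ht)
    rw [hdx] at h2
    exact ⟨x, _, _, hrQ (Reach.symm hz), h2, h1⟩
  by_cases hyn : ∃ t, P.H G y t
  · obtain ⟨d, F, hR, hg⟩ := (h.good y hyn).root (X := Good) hF.perm hF.rr
    have hd := hR.1
    subst hd
    have h2 := hR.root_change hG (hH y) fun t hty ht => agree_col_ne (hyx' ht) hty
    rw [hdy] at h2
    rcases hF.bobQ a (hR.valid hl h.proper h.cut) hg hq hy with h1 | h1
    · refine Or.inl ⟨hcut, hprop, fun z hz => ?_⟩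
      have hz' : ∃ t, P.H G z t := hz.imp fun t ht => (hH _ _).2 ht
      by_cases hxz : Reach G P x z
      · exact hinx z hxz hz'
      · by_cases hyz : Reach G P y z
        · exact ⟨y, _, _, hrQ (Reach.symm hyz), h2, h1⟩
        · exact hout z hxz hyz hz'
    · refine Or.inr (al_step hG h1 h2 hcut hprop fun z hyz hz => ?_)
      have hz' : ∃ t, P.H G z t := hz.imp fun t ht => (hH _ _).2 ht
      by_cases hxz : Reach G P x z
      · exact hinx z hxz hz'
      · exact hout z hxz (fun h => hyz (hrQ h)) hz'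
  · refine Or.inl ⟨hcut, hprop, fun z hz => ?_⟩
    have hz' : ∃ t, P.H G z t := hz.imp fun t ht => (hH _ _).2 ht
    by_cases hxz : Reach G P x z
    · exact hinx z hxz hz'
    · refine hout z hxz (fun hyz => ?_) hz'
      rcases ReflTransGen.cases_head hyz with rfl | ⟨w, hw, -⟩
      · exact hyn hz'
      · exact hyn ⟨w, hw⟩

theorem bob_step (hG : G.IsTree) (hl : LabOK G lab) {Good : Dat → Fo → Prop} (hF : Fam Good)
    {P : Pos V} (h : InvG G lab Good P) {e : Sym2 V} {a : Fin 5} (hleg : Legal G P.c e a) :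
    Ans G lab Good (P.col e a) := by
  induction e using Sym2.ind with
  | _ x y =>
    obtain ⟨hxy, hn, hx, hy⟩ := legal_iff.1 hleg
    by_cases h1 : P.o x y
    · exact bob_cut hG hl hF h hxy hn h1 hx hy
    · by_cases h2 : P.o y x
      · rw [Sym2.eq_swap]
        exact bob_cut hG hl hF h hxy.symm (by rw [Sym2.eq_swap]; exact hn) h2 hy hx
      · exact bob_H hG hl hF h ⟨hxy, hn, h1, h2⟩ hx hy

theorem alice_step (hG : G.IsTree) (hl : LabOK G lab) {Good : Dat → Fo → Prop} (hF : Fam Good)
    {P : Pos V} (h : InvG G lab Good P) {e : Sym2 V} (he : e ∈ G.edgeSet) (hn : P.c e = none) :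
    ∃ e a, Legal G P.c e a ∧ InvOK G lab Good (P.col e a) := by
  by_cases hH : ∃ x y, P.H G x y
  · obtain ⟨x, y, hxy⟩ := hH
    obtain ⟨K, F, hR, hg, -⟩ := h.root hG hF hxy
    exact al_step hG (hF.neut (hR.valid hl h.proper h.cut) hg) hR h.cut h.proper
      fun z _ hz => (h.good z hz).mono fun _ _ h => OK.good h
  · obtain ⟨a, ha⟩ := h.live hG hl hF e he hn
    refine ⟨e, a, ha, h.cut.col hn, h.proper.col ha, ?_⟩
    rintro z ⟨t, ht⟩
    refine absurd ⟨z, t, ?_⟩ hH
    exact ⟨ht.1, (none_col.1 ht.2.1).1, ht.2.2.1, ht.2.2.2⟩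

/-! ### Alice wins -/

theorem Wins.live {k : ℕ} {b : Bool} {c : Col V k} (h : Wins G b c) : Live G c := by
  cases h with
  | full _ _ h => exact fun e he hn => absurd hn (h e he)
  | alice _ _ _ hl => exact hl
  | bob _ hl => exact hl

theorem live_back {k : ℕ} {c : Col V k} {e : Sym2 V} {a : Fin k} (h : Legal G c e a)
    (hL : Live G (Function.update c e (some a))) : Live G c := by
  intro e' he' hn
  by_cases hee : e' = e
  · subst hee
    exact ⟨a, h⟩
  · obtain ⟨b, h1, h2, h3⟩ := hL e' he' (by rw [Function.update_of_ne hee]; exact hn)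
    refine ⟨b, h1, hn, fun e'' he'' hv hc => ?_⟩
    refine h3 e'' he'' hv ?_
    rw [Function.update_of_ne, hc]
    rintro rfl
    rw [h.2.1] at hc
    simp at hc

theorem alice_of_wins {k : ℕ} {c : Col V k} {e : Sym2 V} {a : Fin k} (h : Legal G c e a)
    (hw : Wins G false (Function.update c e (some a))) : Wins G true c :=
  .alice c e a (live_back h hw.live) h hw

open Classical in
/-- the uncoloured edges -/
noncomputable def unc (G : SimpleGraph V) (c : Col V 5) : Finset (Sym2 V) :=
  Finset.univ.filter fun e => e ∈ G.edgeSet ∧ c e = none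

theorem unc_lt {c : Col V 5} {e : Sym2 V} {a : Fin 5} (h : Legal G c e a) :
    (unc G (Function.update c e (some a))).card < (unc G c).card := by
  classical
  refine Finset.card_lt_card ⟨?_, ?_⟩
  · intro e' he'
    simp only [unc, Finset.mem_filter, Finset.mem_univ, true_and] at he' ⊢
    refine ⟨he'.1, ?_⟩
    by_cases hee : e' = e
    · subst hee
      exact h.2.1
    · have := he'.2
      rwa [Function.update_of_ne hee] at this
  · intro hs
    have h1 : e ∈ unc G c := by simp [unc, h.1, h.2.1]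
    have h2 := hs h1
    simp [unc] at h2

theorem wins_aux (hG : G.IsTree) (hl : LabOK G lab) {Good : Dat → Fo → Prop} (hF : Fam Good) :
    ∀ (n : ℕ) (P : Pos V), InvOK G lab Good P → (unc G P.c).card ≤ n →
      Wins G true P.c ∧ Wins G false P.c := by
  intro n
  induction n with
  | zero =>
    intro P _ hn
    have h0 : ∀ e ∈ G.edgeSet, P.c e ≠ none := by
      intro e he hc
      have h1 : e ∈ unc G P.c := by simp [unc, he, hc]
      have h2 := Finset.card_pos.2 ⟨e, h1⟩
      omega
    exact ⟨.full _ _ h0, .full _ _ h0⟩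
  | succ n ih =>
    intro P hP hn
    obtain ⟨Q, hQ, hI⟩ := normalize hG hP
    rw [← hQ] at hn ⊢
    by_cases hfull : ∀ e ∈ G.edgeSet, Q.c e ≠ none
    · exact ⟨.full _ _ hfull, .full _ _ hfull⟩
    push Not at hfull
    obtain ⟨e0, he0, hn0⟩ := hfull
    have hL := hI.live hG hl hF
    constructor
    · obtain ⟨e, a, hleg, hinv⟩ := alice_step hG hl hF hI he0 hn0
      have hlt := unc_lt hleg
      exact .alice _ e a hL hleg (ih _ hinv (by
        have : (Q.col e a).c = Function.update Q.c e (some a) := rfl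
        rw [this]
        omega)).2
    · refine .bob _ hL fun e a hleg => ?_
      have hlt := unc_lt hleg
      rcases bob_step hG hl hF hI hleg with hinv | ⟨e', a', hleg', hinv⟩
      · exact (ih _ hinv (by
          have : (Q.col e a).c = Function.update Q.c e (some a) := rfl
          rw [this]
          omega)).1
      · have hlt' := unc_lt hleg'
        refine alice_of_wins hleg' (ih _ hinv ?_).2
        have e1 : ((Q.col e a).col e' a').c = Function.update (Q.col e a).c e' (some a') := rfl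
        have e2 : (Q.col e a).c = Function.update Q.c e (some a) := rfl
        rw [e1]
        rw [e2] at hlt' ⊢
        omega

end Pool.Agent.GCI
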