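import Pool.Agent.GCI.Rep

/-!
# MP_f1ab9c: splitting pieces, cutting immune edges
-/

set_option autoImplicit false
set_option linter.unusedSectionVars false

namespace Pool.Agent.GCI

open Relation Pos

variable {V : Type} [Fintype V] [DecidableEq V] {G : SimpleGraph V} {lab : V → Lab}

/-- two vertices are in the same piece -/
abbrev Reach (G : SimpleGraph V) (P : Pos V) : V → V → Prop := ReflTransGen (P.H G)

theorem Reach.symm {P : Pos V} {x y : V} (h : Reach G P x y) : Reach G P y x := by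
  induction h with
  | refl => exact .refl
  | tail _ hbc ih => exact ReflTransGen.head (Pos.H.symm hbc) ih

theorem Reach.mono {P Q : Pos V} {x y : V} (hPQ : ∀ x y, P.H G x y → Q.H G x y)
    (h : Reach G P x y) : Reach G Q x y := by
  induction h with
  | refl => exact .refl
  | tail _ hbc ih => exact ih.tail (hPQ _ _ hbc)

/-- the piece of `z` has the property `X` for some root -/
def Has (G : SimpleGraph V) (lab : V → Lab) (X : Dat → Fo → Prop) (P : Pos V) (z : V) : Prop :=
  ∃ r d F, Reach G P z r ∧ Rep G lab P r d F ∧ X d F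

theorem Reach.congr {P Q : Pos V} {z x : V} (h : Reach G P z x)
    (hA : ∀ x, Reach G P z x → Agree G lab P Q x) : Reach G Q z x := by
  induction h with
  | refl => exact .refl
  | tail hzy hyx ih => exact ih.tail (((hA _ hzy).2 _).1 hyx)

theorem Has.congr (hG : G.IsTree) {X : Dat → Fo → Prop} {P Q : Pos V} {z : V}
    (h : Has G lab X P z) (hA : ∀ x, Reach G P z x → Agree G lab P Q x) : Has G lab X Q z := by
  obtain ⟨r, d, F, hr, hR, hX⟩ := h
  exact ⟨r, d, F, Reach.congr hr hA, hR.congr hG fun x hx => hA x (hr.trans hx), hX⟩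

theorem Has.mono {X Y : Dat → Fo → Prop} (hXY : ∀ d F, X d F → Y d F) {P : Pos V} {z : V}
    (h : Has G lab X P z) : Has G lab Y P z := by
  obtain ⟨r, d, F, hr, hR, hX⟩ := h
  exact ⟨r, d, F, hr, hR, hXY d F hX⟩

theorem Has.move {X : Dat → Fo → Prop} {P : Pos V} {z z' : V}
    (h : Has G lab X P z) (hz : Reach G P z' z) : Has G lab X P z' := by
  obtain ⟨r, d, F, hr, hR, hX⟩ := h
  exact ⟨r, d, F, hz.trans hr, hR, hX⟩

/-- A property which does not depend on the root holds for the root `z`. -/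
theorem Has.root {X : Dat → Fo → Prop} (hp : ∀ {d : Dat} {F F' : Fo}, X d F → Fp F F' → X d F')
    (hr : ∀ {d e : Dat} {F K : Fo}, X d (.cons e K F) → X e (.cons d F K)) {P : Pos V} {z : V}
    (h : Has G lab X P z) : ∃ d F, Rep G lab P z d F ∧ X d F := by
  obtain ⟨r, d, F, hz, hR, hX⟩ := h
  have hz' := Reach.symm hz
  clear hz
  induction hz' with
  | refl => exact ⟨d, F, hR, hX⟩
  | @tail y x hy hyx ih =>
    obtain ⟨d', F', hR', hX'⟩ := ih
    obtain ⟨K, F'', us, kus, hpF, hn, hu, hk, hk', hK, hF⟩ := hR'.front hyx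
    have h1 := hR'.perm hpF
    have h2 := hp hX' hpF
    have hd := hR'.1
    subst hd
    refine ⟨_, _, ⟨rfl, y :: kus, ?_, ?_, ?_⟩, hr h2⟩
    · exact List.nodup_cons.2 ⟨fun hv => ((hk' y).1 hv).2 rfl, hk⟩
    · intro t
      rw [List.mem_cons, hk']
      constructor
      · rintro (rfl | ht)
        · exact hyx.symm
        · exact ht.1
      · intro ht
        by_cases hty : t = y
        · exact Or.inl hty
        · exact Or.inr ⟨ht, hty⟩
    · refine .cons x y kus us F'' K (List.nodup_cons.1 hn).2 (fun t => ?_) hF hK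
      rw [← hu, List.mem_cons]
      constructor
      · intro ht
        exact ⟨Or.inr ht, fun htx => (List.nodup_cons.1 hn).1 (htx ▸ ht)⟩
      · rintro ⟨ht | ht, htx⟩
        · exact absurd ht htx
        · exact ht

/-! ### Trees -/

theorem closer_unique (hG : G.IsTree) {v t u x : V} (h1 : G.Adj v t) (h2 : G.Adj v u)
    (h3 : G.dist x t < G.dist x v) (h4 : G.dist x u < G.dist x v) : t = u := by
  by_contra h
  have := side_step hG h2.symm h1 h h3
  omega

/-- the only edge between the two sides of the edge `u v` is `u v` -/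
theorem cross (hG : G.IsTree) {u v x y : V} (huv : G.Adj u v) (hxy : G.Adj x y)
    (hx : G.dist x u < G.dist x v) (hy : ¬ G.dist y u < G.dist y v) : x = u ∧ y = v := by
  have e1 := hG.dist_eq_dist_add_one_of_adj x huv
  have e2 := hG.dist_eq_dist_add_one_of_adj y huv
  have e3 := hG.dist_eq_dist_add_one_of_adj u hxy
  have e4 := hG.dist_eq_dist_add_one_of_adj v hxy
  rw [G.dist_comm (u := u) (v := x), G.dist_comm (u := u) (v := y)] at e3
  rw [G.dist_comm (u := v) (v := x), G.dist_comm (u := v) (v := y)] at e4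
  have ha : G.dist x u = G.dist y v := by omega
  have h0 : G.dist x u = 0 := by
    by_contra h0
    have hyv : G.dist y v ≠ 0 := by omega
    obtain ⟨p, hp, hl⟩ := hG.connected.exists_path_of_dist y v
    have hnil : ¬ p.Nil := by
      intro hn
      have := SimpleGraph.Walk.length_eq_zero_iff.2 hn
      omega
    have hadj : G.Adj p.penultimate v := p.adj_penultimate hnil
    have hd1 : G.dist y p.penultimate ≤ p.length - 1 := by
      have h5 := SimpleGraph.dist_le p.dropLast
      rw [SimpleGraph.Walk.length_dropLast] at h5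
      exact h5
    have hd2 : G.dist x p.penultimate ≤ G.dist x y + G.dist y p.penultimate :=
      hG.connected.dist_triangle
    rw [SimpleGraph.dist_eq_one_iff_adj.2 hxy] at hd2
    have h6 : p.penultimate = u := by
      refine closer_unique hG (x := x) hadj.symm huv.symm ?_ hx
      omega
    rw [h6] at hd1
    omega
  constructor
  · exact (hG.connected.dist_eq_zero_iff).1 h0
  · exact (hG.connected.dist_eq_zero_iff).1 (ha ▸ h0)

/-! ### Removing an edge -/

/-- `Q` is obtained from `P` by removing the edge `u v`; the data change only at `u` and `v`. -/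
structure Rem (G : SimpleGraph V) (lab : V → Lab) (P Q : Pos V) (u v : V) : Prop where
  huv : P.H G u v
  agree : ∀ x, x ≠ u → x ≠ v → Agree G lab P Q x
  hu : ∀ y, Q.H G u y ↔ P.H G u y ∧ y ≠ v
  hv : ∀ y, Q.H G v y ↔ P.H G v y ∧ y ≠ u

theorem Rem.symm {P Q : Pos V} {u v : V} (h : Rem G lab P Q u v) : Rem G lab P Q v u :=
  ⟨h.huv.symm, fun x h1 h2 => h.agree x h2 h1, h.hv, h.hu⟩

theorem Rem.sub {P Q : Pos V} {u v : V} (h : Rem G lab P Q u v) {x y : V} (hxy : Q.H G x y) :
    P.H G x y := by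
  by_cases h1 : x = u
  · subst h1
    exact ((h.hu y).1 hxy).1
  · by_cases h2 : x = v
    · subst h2
      exact ((h.hv y).1 hxy).1
    · exact ((h.agree x h1 h2).2 y).2 hxy

theorem Rem.keep {P Q : Pos V} {u v : V} (h : Rem G lab P Q u v) {x y : V} (hxy : P.H G x y) :
    Q.H G x y ∨ (x = u ∧ y = v) ∨ (x = v ∧ y = u) := by
  by_cases h1 : x = u
  · subst h1
    by_cases h3 : y = v
    · exact Or.inr (Or.inl ⟨rfl, h3⟩)
    · exact Or.inl ((h.hu y).2 ⟨hxy, h3⟩)
  · by_cases h2 : x = v
    · subst h2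
      by_cases h3 : y = u
      · exact Or.inr (Or.inr ⟨rfl, h3⟩)
      · exact Or.inl ((h.hv y).2 ⟨hxy, h3⟩)
    · exact Or.inl (((h.agree x h1 h2).2 y).1 hxy)

theorem Rem.reach {P Q : Pos V} {u v : V} (h : Rem G lab P Q u v) {z : V}
    (hz : Reach G P u z) : Reach G Q u z ∨ Reach G Q v z := by
  induction hz with
  | refl => exact Or.inl .refl
  | @tail y x hy hyx ih =>
    rcases h.keep hyx with h1 | ⟨-, rfl⟩ | ⟨-, rfl⟩
    · exact ih.imp (fun h2 => h2.tail h1) fun h2 => h2.tail h1
    · exact Or.inr .refl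
    · exact Or.inl .refl

theorem Rem.reach_sub {P Q : Pos V} {u v : V} (h : Rem G lab P Q u v) {x y : V}
    (hxy : Reach G Q x y) : Reach G P x y :=
  Reach.mono (fun _ _ h' => h.sub h') hxy

theorem Rem.side (hG : G.IsTree) {P Q : Pos V} {u v : V} (h : Rem G lab P Q u v) {z : V}
    (hz : Reach G Q u z) : G.dist z u < G.dist z v := by
  induction hz with
  | refl => exact side_self h.huv.1.symm
  | @tail y x hy hyx ih =>
    by_contra hx
    obtain ⟨rfl, rfl⟩ := cross hG h.huv.1 hyx.1 ih hx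
    exact ((h.hu _).1 hyx).2 rfl

theorem Rem.disj (hG : G.IsTree) {P Q : Pos V} {u v : V} (h : Rem G lab P Q u v) {z : V}
    (hz : Reach G Q u z) (hz' : Reach G Q v z) : False := by
  have h1 := h.side hG hz
  have h2 := h.symm.side hG hz'
  omega

theorem Rem.rep (hG : G.IsTree) {P Q : Pos V} {u v : V} (h : Rem G lab P Q u v)
    {K F : Fo} {us kus : List V} (hn : (v :: us).Nodup) (hu : ∀ x, x ∈ v :: us ↔ P.H G u x)
    (hk : kus.Nodup) (hk' : ∀ x, x ∈ kus ↔ P.H G v x ∧ x ≠ u) (hK : RF G lab P v kus K)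
    (hF : RF G lab P u us F) : Rep G lab Q u (Q.dat G lab u) F ∧ Rep G lab Q v (Q.dat G lab v) K := by
  have hvu := h.huv
  constructor
  · refine ⟨rfl, us, (List.nodup_cons.1 hn).2, fun x => ?_, hF.congr hG
      (fun x hx => (hu x).1 (List.mem_cons_of_mem _ hx)) ?_⟩
    · rw [h.hu, ← hu, List.mem_cons]
      constructor
      · intro hx
        exact ⟨Or.inr hx, fun hxv => (List.nodup_cons.1 hn).1 (hxv ▸ hx)⟩
      · rintro ⟨hx | hx, hxv⟩
        · exact absurd hx hxv
        · exact hx
    · rintro x ⟨w, hw, hx⟩ -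
      have hw' : P.H G u w := (hu w).1 (List.mem_cons_of_mem _ hw)
      have hwv : w ≠ v := fun hwv => (List.nodup_cons.1 hn).1 (hwv ▸ hw)
      refine h.agree x ?_ ?_
      · rintro rfl
        exact not_side_self hx
      · rintro rfl
        exact not_side_nbr hG hvu.1.symm hw'.1 hwv hx
  · refine ⟨rfl, kus, hk, fun x => ?_, hK.congr hG (fun x hx => ((hk' x).1 hx).1) ?_⟩
    · rw [h.hv, hk']
    · rintro x ⟨w, hw, hx⟩ -
      have hw' := (hk' w).1 hw
      refine h.agree x ?_ ?_
      · rintro rfl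
        exact not_side_nbr hG hvu.1 hw'.1.1 hw'.2 hx
      · rintro rfl
        exact not_side_self hx

/-- a piece, its front child, and its parts after removing the edge -/
theorem Rep.split (hG : G.IsTree) {P : Pos V} {u : V} {d e : Dat} {K F : Fo}
    (h : Rep G lab P u d (.cons e K F)) : ∃ v, P.H G u v ∧ d = P.dat G lab u ∧
      e = P.dat G lab v ∧ ∀ Q, Rem G lab P Q u v →
        Rep G lab Q u (Q.dat G lab u) F ∧ Rep G lab Q v (Q.dat G lab v) K := by
  obtain ⟨hd, us, hn, hus, hF⟩ := h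
  cases hF with
  | cons v u us kus K F hn' hk hK hF =>
    exact ⟨u, (hus u).1 List.mem_cons_self, hd, rfl,
      fun Q hQ => hQ.rep hG hn hus hn' hk hK hF⟩

/-! ### Colouring and cutting -/

/-- colour an edge -/
def Pos.col (P : Pos V) (e : Sym2 V) (a : Fin 5) : Pos V := ⟨Function.update P.c e (some a), P.o⟩

/-- cut an edge, `*` at `u` and `?` at `v` -/
def Pos.cutE (P : Pos V) (u v : V) : Pos V := ⟨P.c, fun x y => P.o x y ∨ (x = u ∧ y = v)⟩

theorem wn_congr {P Q : Pos V} {x : V} (h : ∀ t, (G.Adj x t ∧ P.c s(x, t) = none ∧ P.o x t) ↔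
    (G.Adj x t ∧ Q.c s(x, t) = none ∧ Q.o x t)) : P.wn G x = Q.wn G x := by
  classical
  unfold Pos.wn
  congr 1
  ext t
  rw [Finset.mem_filter, Finset.mem_filter, h]

theorem qn_congr {P Q : Pos V} {x : V} (h : ∀ t, (G.Adj x t ∧ P.c s(x, t) = none ∧ P.o t x) ↔
    (G.Adj x t ∧ Q.c s(x, t) = none ∧ Q.o t x)) : P.qn G x = Q.qn G x := by
  classical
  unfold Pos.qn
  congr 1
  ext t
  rw [Finset.mem_filter, Finset.mem_filter, h]

theorem col_c_of_ne {P : Pos V} {e e' : Sym2 V} {a : Fin 5} (h : e' ≠ e) :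
    (P.col e a).c e' = P.c e' := by
  simp [Pos.col, h]

theorem col_c_self {P : Pos V} {e : Sym2 V} {a : Fin 5} : (P.col e a).c e = some a := by
  simp [Pos.col]

theorem S_mono {P : Pos V} {e : Sym2 V} {a : Fin 5} (he : P.c e = none) (x : V) :
    P.S G x ⊆ (P.col e a).S G x := by
  intro b hb
  simp only [Pos.S, Finset.mem_filter, Finset.mem_univ, true_and] at hb ⊢
  obtain ⟨y, hy, hc⟩ := hb
  refine ⟨y, hy, ?_⟩
  rw [col_c_of_ne, hc]
  rintro rfl
  rw [he] at hc
  simp at hc

theorem S_col_self {P : Pos V} {x y : V} {a : Fin 5} (hxy : G.Adj x y)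
    (he : P.c s(x, y) = none) : (P.col s(x, y) a).S G x = insert a (P.S G x) := by
  ext b
  simp only [Pos.S, Finset.mem_filter, Finset.mem_univ, true_and, Finset.mem_insert]
  constructor
  · rintro ⟨z, hz, hc⟩
    by_cases hzy : s(x, z) = s(x, y)
    · rw [hzy, col_c_self] at hc
      exact Or.inl (Option.some.inj hc).symm
    · rw [col_c_of_ne hzy] at hc
      exact Or.inr ⟨z, hz, hc⟩
  · rintro (rfl | ⟨z, hz, hc⟩)
    · exact ⟨y, hxy, col_c_self⟩
    · refine ⟨z, hz, ?_⟩
      rw [col_c_of_ne, hc]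
      intro h
      rw [h, he] at hc
      simp at hc

theorem S_col_ne {P : Pos V} {x y z : V} {a : Fin 5} (h1 : z ≠ x) (h2 : z ≠ y) :
    (P.col s(x, y) a).S G z = P.S G z := by
  ext b
  simp only [Pos.S, Finset.mem_filter, Finset.mem_univ, true_and]
  refine exists_congr fun t => and_congr_right fun _ => ?_
  rw [col_c_of_ne]
  intro h
  rw [Sym2.eq_iff] at h
  rcases h with ⟨h, -⟩ | ⟨h, -⟩
  · exact h1 h
  · exact h2 h

theorem none_col {P : Pos V} {e e' : Sym2 V} {a : Fin 5} :
    (P.col e a).c e' = none ↔ P.c e' = none ∧ e' ≠ e := by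
  by_cases h : e' = e
  · subst h
    simp [col_c_self]
  · simp [col_c_of_ne h, h]

theorem agree_col_ne {P : Pos V} {x y z : V} {a : Fin 5} (h1 : z ≠ x) (h2 : z ≠ y) :
    Agree G lab P (P.col s(x, y) a) z := by
  have hne : ∀ t, s(z, t) ≠ s(x, y) := by
    intro t h
    rw [Sym2.eq_iff] at h
    rcases h with ⟨h, -⟩ | ⟨h, -⟩
    · exact h1 h
    · exact h2 h
  refine ⟨?_, fun t => ?_⟩
  · unfold Pos.dat
    rw [S_col_ne h1 h2]
    have e1 : P.wn G z = (P.col s(x, y) a).wn G z := by
      refine wn_congr fun t => ?_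
      rw [none_col]
      simp only [hne t, Pos.col, ne_eq, not_false_eq_true, and_true]
    have e2 : P.qn G z = (P.col s(x, y) a).qn G z := by
      refine qn_congr fun t => ?_
      rw [none_col]
      simp only [hne t, Pos.col, ne_eq, not_false_eq_true, and_true]
    rw [e1, e2]
  · unfold Pos.H
    rw [none_col]
    simp [hne t, Pos.col]

/-- colouring an uncut edge -/
theorem rem_col {P : Pos V} {u v : V} {a : Fin 5} (h : P.H G u v) :
    Rem G lab P (P.col s(u, v) a) u v ∧
      (P.col s(u, v) a).dat G lab u = (P.dat G lab u).add a ∧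
      (P.col s(u, v) a).dat G lab v = (P.dat G lab v).add a := by
  have huv : u ≠ v := h.1.ne
  have key : ∀ {x y : V}, P.H G x y → s(x, y) = s(u, v) →
      (∀ t, (P.col s(u, v) a).H G x t ↔ P.H G x t ∧ t ≠ y) ∧
      (P.col s(u, v) a).dat G lab x = (P.dat G lab x).add a := by
    intro x y hxy he
    have hne : ∀ t, s(x, t) ≠ s(u, v) ↔ t ≠ y := by
      intro t
      rw [← he, Ne, Sym2.eq_iff]
      constructor
      · rintro h1 rfl
        exact h1 (Or.inl ⟨rfl, rfl⟩)
      · rintro h1 (⟨-, h2⟩ | ⟨h2, -⟩)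
        · exact h1 h2
        · exact hxy.1.ne h2
    refine ⟨fun t => ?_, ?_⟩
    · unfold Pos.H
      rw [none_col, hne]
      simp only [Pos.col]
      tauto
    · have e1 : (P.col s(u, v) a).wn G x = P.wn G x := by
        refine wn_congr fun t => ?_
        rw [none_col, hne]
        simp only [Pos.col]
        constructor
        · rintro ⟨h1, h2, h3⟩
          exact ⟨h1, h2.1, h3⟩
        · rintro ⟨h1, h2, h3⟩
          exact ⟨h1, ⟨h2, fun ht => hxy.2.2.1 (ht ▸ h3)⟩, h3⟩
      have e2 : (P.col s(u, v) a).qn G x = P.qn G x := by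
        refine qn_congr fun t => ?_
        rw [none_col, hne]
        simp only [Pos.col]
        constructor
        · rintro ⟨h1, h2, h3⟩
          exact ⟨h1, h2.1, h3⟩
        · rintro ⟨h1, h2, h3⟩
          exact ⟨h1, ⟨h2, fun ht => hxy.2.2.2 (ht ▸ h3)⟩, h3⟩
      unfold Pos.dat Dat.add
      rw [e1, e2, ← he, S_col_self hxy.1 hxy.2.1]
  obtain ⟨h1, h2⟩ := key h rfl
  obtain ⟨h3, h4⟩ := key h.symm Sym2.eq_swap
  exact ⟨⟨h, fun x hx hx' => agree_col_ne hx hx', h1, h3⟩, h2, h4⟩

/-- cutting an uncut edge -/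
theorem rem_cut {P : Pos V} {u v : V} (h : P.H G u v) :
    Rem G lab P (P.cutE u v) u v ∧
      (P.cutE u v).dat G lab u = (P.dat G lab u).star ∧
      (P.cutE u v).dat G lab v = (P.dat G lab v).quest := by
  classical
  have huv : u ≠ v := h.1.ne
  have hS : ∀ x, (P.cutE u v).S G x = P.S G x := fun x => rfl
  refine ⟨⟨h, ?_, ?_, ?_⟩, ?_, ?_⟩
  · intro x hxu hxv
    refine ⟨?_, fun t => ?_⟩
    · unfold Pos.dat
      rw [hS]
      simp only [Dat.mk.injEq, true_and]
      unfold Pos.wn Pos.qn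
      constructor
      · congr 1
        ext t
        simp [Pos.cutE, hxu]
      · congr 1
        ext t
        simp [Pos.cutE, hxv]
    · unfold Pos.H
      simp [Pos.cutE, hxu, hxv]
  · intro y
    unfold Pos.H
    simp only [Pos.cutE, true_and]
    constructor
    · rintro ⟨h1, h2, h3, h4⟩
      push Not at h3 h4
      exact ⟨⟨h1, h2, h3.1, h4.1⟩, h3.2⟩
    · rintro ⟨⟨h1, h2, h3, h4⟩, h5⟩
      refine ⟨h1, h2, ?_, ?_⟩
      · push Not
        exact ⟨h3, h5⟩
      · push Not
        exact ⟨h4, fun _ h' => huv h'⟩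
  · intro y
    unfold Pos.H
    simp only [Pos.cutE]
    constructor
    · rintro ⟨h1, h2, h3, h4⟩
      push Not at h3 h4
      exact ⟨⟨h1, h2, h3.1, h4.1⟩, fun h' => h4.2 h'⟩
    · rintro ⟨⟨h1, h2, h3, h4⟩, h5⟩
      refine ⟨h1, h2, ?_, ?_⟩
      · push Not
        exact ⟨h3, fun h' => absurd h' huv.symm⟩
      · push Not
        exact ⟨h4, fun h' => absurd h' h5⟩
  · unfold Pos.dat Dat.star
    rw [hS]
    simp only [Dat.mk.injEq, true_and]
    unfold Pos.wn Pos.qn
    constructor
    · have hins : (Finset.univ.filter fun y => G.Adj u y ∧ (P.cutE u v).c s(u, y) = none ∧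
          (P.cutE u v).o u y) = insert v (Finset.univ.filter fun y => G.Adj u y ∧
          P.c s(u, y) = none ∧ P.o u y) := by
        ext y
        simp only [Pos.cutE, Finset.mem_filter, Finset.mem_univ, true_and, Finset.mem_insert]
        constructor
        · rintro ⟨h1, h2, h3 | h3⟩
          · exact Or.inr ⟨h1, h2, h3⟩
          · exact Or.inl h3
        · rintro (rfl | ⟨h1, h2, h3⟩)
          · exact ⟨h.1, h.2.1, Or.inr rfl⟩
          · exact ⟨h1, h2, Or.inl h3⟩
      rw [hins, Finset.card_insert_of_notMem]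
      simp [h.2.2.1]
    · congr 1
      ext y
      simp [Pos.cutE, huv]
  · unfold Pos.dat Dat.quest
    rw [hS]
    simp only [Dat.mk.injEq, true_and]
    unfold Pos.wn Pos.qn
    constructor
    · congr 1
      ext y
      simp [Pos.cutE, huv.symm]
    · have hins : (Finset.univ.filter fun y => G.Adj v y ∧ (P.cutE u v).c s(v, y) = none ∧
          (P.cutE u v).o y v) = insert u (Finset.univ.filter fun y => G.Adj v y ∧
          P.c s(v, y) = none ∧ P.o y v) := by
        ext y
        simp only [Pos.cutE, Finset.mem_filter, Finset.mem_univ, true_and, Finset.mem_insert,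
          and_true]
        constructor
        · rintro ⟨h1, h2, h3 | h3⟩
          · exact Or.inr ⟨h1, h2, h3⟩
          · exact Or.inl h3
        · rintro (rfl | ⟨h1, h2, h3⟩)
          · exact ⟨h.1.symm, h.symm.2.1, Or.inr rfl⟩
          · exact ⟨h1, h2, Or.inl h3⟩
      rw [hins, Finset.card_insert_of_notMem]
      simp [h.2.2.1]

/-- The cut edges are immune. -/
def CutOK (G : SimpleGraph V) (lab : V → Lab) (P : Pos V) : Prop :=
  ∀ x y, G.Adj x y → P.c s(x, y) = none → P.o x y →
    ¬ P.o y x ∧ Imm (P.dat G lab x) (P.dat G lab y)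

theorem CutOK.col {P : Pos V} (h : CutOK G lab P) {e : Sym2 V} {a : Fin 5} (he : P.c e = none) :
    CutOK G lab (P.col e a) := by
  intro x y hxy hc ho
  rw [none_col] at hc
  obtain ⟨h1, h2⟩ := h x y hxy hc.1 ho
  refine ⟨h1, ?_⟩
  unfold Imm at h2 ⊢
  refine h2.trans (Nat.add_le_add_left (Finset.card_le_card ?_) 6)
  exact Finset.inter_subset_inter (S_mono he x) (S_mono he y)

theorem CutOK.cut {P : Pos V} (h : CutOK G lab P) {u v : V} (huv : P.H G u v)
    (hi : Imm (P.dat G lab u) (P.dat G lab v)) : CutOK G lab (P.cutE u v) := by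
  intro x y hxy hc ho
  rcases ho with ho | ⟨rfl, rfl⟩
  · obtain ⟨h1, h2⟩ := h x y hxy hc ho
    refine ⟨?_, h2⟩
    rintro (h3 | ⟨rfl, rfl⟩)
    · exact h1 h3
    · exact huv.2.2.2 ho
  · refine ⟨?_, hi⟩
    rintro (h3 | ⟨h3, -⟩)
    · exact huv.2.2.2 h3
    · exact huv.1.ne h3.symm

/-- Cut edges until all parts of the piece of `u` are good or have no edge. -/
theorem resolve (hG : G.IsTree) {Good : Dat → Fo → Prop} {d : Dat} {F : Fo}
    (h : OK Good d F) : ∀ (P : Pos V) (u : V), Rep G lab P u d F → CutOK G lab P →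
      ∃ Q : Pos V, Q.c = P.c ∧ CutOK G lab Q ∧ (∀ x, ¬ Reach G P u x → Agree G lab P Q x) ∧
        (∀ x y, Q.H G x y → P.H G x y) ∧
        ∀ z, Reach G P u z → (∃ y, Q.H G z y) → Has G lab Good Q z := by
  induction h with
  | good hg =>
    intro P u hR hC
    exact ⟨P, rfl, hC, fun x _ => ⟨rfl, fun _ => Iff.rfl⟩, fun _ _ h => h,
      fun z hz _ => ⟨u, _, _, Reach.symm hz, hR, hg⟩⟩
  | triv d =>
    intro P u hR hC
    refine ⟨P, rfl, hC, fun x _ => ⟨rfl, fun _ => Iff.rfl⟩, fun _ _ h => h, ?_⟩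
    rintro z hz ⟨y, hy⟩
    rcases ReflTransGen.cases_head hz with rfl | ⟨w, hw, -⟩
    · exact absurd hy (hR.nil_iff y)
    · exact absurd hw (hR.nil_iff w)
  | perm _ hp ih =>
    intro P u hR hC
    exact ih P u (hR.perm hp.symm) hC
  | @rr d e F K _ ih =>
    intro P u hR hC
    obtain ⟨v, hv, hR'⟩ := hR.rr
    obtain ⟨Q, h1, h2, h3, h4, h5⟩ := ih P v hR' hC
    have huv : Reach G P u v := .single hv
    refine ⟨Q, h1, h2, fun x hx => h3 x fun hx' => hx (huv.trans hx'), h4,
      fun z hz => h5 z ((Reach.symm huv).trans hz)⟩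
  | @cut d e F K hi _ _ ih1 ih2 =>
    intro P u hR hC
    obtain ⟨v, hv, rfl, rfl, hsp⟩ := hR.split hG
    obtain ⟨hrem, hdu, hdv⟩ := rem_cut (lab := lab) hv
    obtain ⟨hR1, hR2⟩ := hsp _ hrem
    rw [hdu] at hR1
    rw [hdv] at hR2
    have hC1 := hC.cut hv hi
    obtain ⟨Q1, a1, a2, a3, a4, a5⟩ := ih1 _ u hR1 hC1
    have hvu : ∀ x, Reach G (P.cutE u v) v x → ¬ Reach G (P.cutE u v) u x :=
      fun x hx hx' => hrem.disj hG hx' hx
    have hR2' := hR2.congr hG fun x hx => a3 x (hvu x hx)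
    obtain ⟨Q2, b1, b2, b3, b4, b5⟩ := ih2 Q1 v hR2' a2
    have hr1 : ∀ {x y : V}, Reach G Q1 x y → Reach G (P.cutE u v) x y :=
      fun h => Reach.mono (fun _ _ h' => a4 _ _ h') h
    refine ⟨Q2, b1.trans a1, b2, ?_, fun x y h => hrem.sub (a4 _ _ (b4 _ _ h)), ?_⟩
    · intro x hx
      have hx1 : Agree G lab P (P.cutE u v) x := by
        refine hrem.agree x ?_ ?_
        · rintro rfl
          exact hx .refl
        · rintro rfl
          exact hx (.single hv)
      refine (hx1.trans (a3 x fun h => hx (hrem.reach_sub h))).trans (b3 x fun h => ?_)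
      exact hx ((ReflTransGen.single hv).trans (hrem.reach_sub (hr1 h)))
    · intro z hz hy
      by_cases hz1 : Reach G Q1 v z
      · exact b5 z hz1 hy
      · have hA : ∀ x, Reach G Q1 z x → Agree G lab Q1 Q2 x :=
          fun x hx => b3 x fun h => hz1 (h.trans (Reach.symm hx))
        have hzu : Reach G (P.cutE u v) u z := by
          rcases hrem.reach hz with h | h
          · exact h
          · exfalso
            apply hz1
            exact Reach.congr h fun x hx => a3 x (hvu x hx)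
        refine (a5 z hzu ?_).congr hG hA
        obtain ⟨y, hy⟩ := hy
        exact ⟨y, ((hA z .refl).2 y).2 hy⟩

end Pool.Agent.GCI
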