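import Pool.Agent.GCI.Game

/-!
# MP_f1ab9c: stars and tables (definitions)

* `Fo.wt`: the number of coloured edges and edges `*` in a forest; `WV`: conditions which hold for all
  pieces in the game.
* `St`: stars. A star describes a vertex together with its children, where a child branch is *near*
  (the root of the branch has coloured edges, everything below is clean), *far* (exactly one coloured
  edge in the branch, not at the root of the branch), or clean. `RS R d F`: the piece `(d, F)` is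
  described by the star `R`.
* `Gd T`: the pieces of weight at most `2` and the pieces with a description in `T`.
* `OKs T`, `Mv T`, `AnsS T`, `AnsD T`: sufficient conditions for `OK` and `Al` in terms of stars.
* `Tab T`: the conditions on the table `T`.
-/

set_option autoImplicit false

namespace Pool.Agent.GCI

/-! ### Weights -/

/-- the number of coloured edges and edges `*` at a vertex -/
def Dat.st (d : Dat) : ℕ := d.S.card + d.w

/-- the number of coloured edges and edges `*` in a forest -/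
def Fo.wt : Fo → ℕ
  | .nil => 0
  | .cons d K F => d.st + K.wt + F.wt

/-- The weak conditions at a vertex: edges `*` only at vertices of degree at most `3` and edges `?` only
at vertices of degree `4`, and such a vertex also has a coloured edge. -/
def Dat.W0 (d : Dat) : Prop :=
  (d.lab.deg = 4 → d.w = 0) ∧ (d.lab.deg ≠ 4 → d.q = 0) ∧ (d.S = ∅ → d.w = 0 ∧ d.q = 0)

/-- the conditions at a vertex of a piece with an edge -/
def Dat.W (d : Dat) : Prop := d.W0 ∧ d.w ≤ 1 ∧ d.q ≤ 1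

/-- the conditions at all vertices of a forest -/
def Fo.W : Fo → Prop
  | .nil => True
  | .cons d K F => d.W ∧ K.W ∧ F.W

/-- the conditions for all pieces in the game -/
def WV (d : Dat) (F : Fo) : Prop := Valid d F ∧ d.W ∧ F.W

/-! ### Equivalence and permutations of the colours -/

/-- the same piece with another root and another order of the children -/
inductive Eqv : Dat → Fo → Dat → Fo → Prop
  | refl (d : Dat) (F : Fo) : Eqv d F d F
  | perm {d d' : Dat} {F F' F'' : Fo} : Eqv d F d' F' → Fp F' F'' → Eqv d F d' F''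
  | rr {d d' e : Dat} {F F' K : Fo} : Eqv d F d' (.cons e K F') → Eqv d F e (.cons d' F' K)

/-- permutation of the colours -/
def Dat.map (π : Equiv.Perm (Fin 5)) (d : Dat) : Dat := { d with S := d.S.image π }

/-- permutation of the colours -/
def Fo.map (π : Equiv.Perm (Fin 5)) : Fo → Fo
  | .nil => .nil
  | .cons d K F => .cons (d.map π) (K.map π) (F.map π)

/-! ### Stars -/

/-- classes of labels: degree at most `3`, centre, leaf -/
inductive L3
  | m | c | x
  deriving DecidableEq, Repr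

/-- the class of a label -/
def Lab.cls : Lab → L3
  | .one => .m
  | .two => .m
  | .three => .m
  | .ctr => .c
  | .leaf => .x

/-- the maximal degree -/
def L3.deg : L3 → ℕ
  | .m => 3
  | .c => 4
  | .x => 4

/-- the mask of a set of colours -/
def mask (S : Finset (Fin 5)) : ℕ := ∑ i ∈ S, 2 ^ (i : ℕ)

/-- number of colours of a mask -/
def pc (n : ℕ) : ℕ := n % 2 + n / 2 % 2 + n / 4 % 2 + n / 8 % 2 + n / 16 % 2

/-- the mask with a further colour -/
def ad (n : ℕ) (a : Fin 5) : ℕ := n ||| 2 ^ (a : ℕ)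

/-- the colour belongs to the mask -/
def hs (n : ℕ) (a : Fin 5) : Bool := n.testBit a

/-- permutation of the colours of a mask -/
def pmask (π : Equiv.Perm (Fin 5)) (n : ℕ) : ℕ := mask ((Finset.univ.filter fun i => hs n i).image π)

/-- Child branches: label, mask of the colours at the root of the branch (`0` for a far branch), number
of edges `?`. -/
structure Kd where
  l : L3
  s : ℕ
  q : ℕ
  deriving DecidableEq, Repr

/-- Stars: label, mask of the colours, number of edges `*`, number of edges `?`, children. -/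
structure St where
  l : L3
  s : ℕ
  w : ℕ
  q : ℕ
  k : List Kd
  deriving DecidableEq, Repr

/-- the weight of a child -/
def Kd.wt (k : Kd) : ℕ := if k.s = 0 then 1 else pc k.s

/-- the weight of a star -/
def St.wt (R : St) : ℕ := pc R.s + R.w + (R.k.map Kd.wt).sum

/-- the number of used directions -/
def St.used (R : St) : ℕ := pc R.s + R.w + R.q + R.k.length

/-- the branch `(e, K)` is described by `k` -/
def IsK (k : Kd) (e : Dat) (K : Fo) : Prop :=
  e.lab.cls = k.l ∧ mask e.S = k.s ∧ e.w = 0 ∧ e.q = k.q ∧ K.wt = if k.s = 0 then 1 else 0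

/-- the non-clean branches of the forest are described by the multiset -/
inductive Ks : Multiset Kd → Fo → Prop
  | nil : Ks 0 .nil
  | cln {κ : Multiset Kd} {e : Dat} {K F : Fo} : e.st = 0 → K.wt = 0 → Ks κ F → Ks κ (.cons e K F)
  | kid {κ : Multiset Kd} {k : Kd} {e : Dat} {K F : Fo} : IsK k e K → Ks κ F →
      Ks (k ::ₘ κ) (.cons e K F)

/-- the piece `(d, F)` is described by the star -/
def RS (R : St) (d : Dat) (F : Fo) : Prop :=
  d.lab.cls = R.l ∧ mask d.S = R.s ∧ d.w = R.w ∧ d.q = R.q ∧ Ks (R.k : Multiset Kd) F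

/-- The good pieces. -/
def Gd (T : St → Prop) (d : Dat) (F : Fo) : Prop :=
  WV d F ∧ (d.st + F.wt ≤ 2 ∨
    ∃ (π : Equiv.Perm (Fin 5)) (d' : Dat) (F' : Fo) (R : St),
      Eqv d F d' F' ∧ RS R (d'.map π) (F'.map π) ∧ T R)

/-- the sum of answers -/
def Ans2 (Good : Dat → Fo → Prop) (d : Dat) (F : Fo) (e : Dat) (K : Fo) : Prop :=
  (OK Good d F ∧ OK Good e K) ∨ (OK Good d F ∧ Al Good e K) ∨ (Al Good d F ∧ OK Good e K)

/-! ### Conditions in terms of stars -/

variable (T : St → Prop)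

/-- a sufficient condition for `OK` -/
inductive OKs : St → Prop
  | small {R : St} : R.wt ≤ 2 → R.w ≤ 1 → R.q ≤ 1 → OKs R
  | full {R : St} : R.used = R.l.deg → R.k = [] → OKs R
  | tab {R : St} : T R → OKs R
  | perm {R : St} (k' : List Kd) : R.k.Perm k' → OKs { R with k := k' } → OKs R
  | col {R : St} (π : Equiv.Perm (Fin 5)) :
      OKs ⟨R.l, pmask π R.s, R.w, R.q, R.k.map fun k => { k with s := pmask π k.s }⟩ → OKs R
  | cutm {R : St} {k : Kd} {κ : List Kd} : R.k = k :: κ → R.l ≠ .m → k.l = .m → k.s ≠ 0 →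
      (∃ a, hs R.s a ∧ hs k.s a) → OKs { R with q := R.q + 1, k := κ } → OKs R
  | cutv {R : St} {k : Kd} {κ : List Kd} : R.k = k :: κ → R.l = .m → k.l ≠ .m → k.s ≠ 0 →
      ¬ (pc k.s = 1 ∧ k.q = 1) → (∃ a, hs R.s a ∧ hs k.s a) →
      OKs { R with w := R.w + 1, k := κ } → OKs R
  | rr1 {R : St} {k : Kd} : R.k = [k] → k.s ≠ 0 → R.s ≠ 0 → R.w = 0 → R.q ≤ 1 →
      OKs ⟨k.l, k.s, 0, k.q, [⟨R.l, R.s, R.q⟩]⟩ → OKs R
  | rr2 {R : St} {k k' : Kd} : R.k = [k, k'] → k.s ≠ 0 → k'.wt = 1 → R.s = 0 → R.w = 0 → R.q = 0 →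
      OKs ⟨k.l, k.s, 0, k.q, [⟨R.l, 0, 0⟩]⟩ → OKs R

/-- A move of Alice at the star `R`; all parts except the one of the root, which is then described by
the second star, are OK. The number `n` is the number of further directions used at the root. -/
inductive Mv : ℕ → St → St → Prop
  | near {n : ℕ} {R : St} {k : Kd} {κ : List Kd} (a : Fin 5) : R.k.Perm (k :: κ) → k.s ≠ 0 →
      ¬ hs R.s a → ¬ hs k.s a → OKs T ⟨k.l, ad k.s a, 0, k.q, []⟩ →
      Mv n R { R with s := ad R.s a, k := κ }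
  | far {n : ℕ} {R : St} {k : Kd} {κ : List Kd} (a : Fin 5) : R.k.Perm (k :: κ) → k.s = 0 →
      ¬ hs R.s a → Mv n R { R with s := ad R.s a, k := κ }
  | free {n : ℕ} {R : St} (a : Fin 5) : R.l ≠ .m → R.used + n < 4 → ¬ hs R.s a →
      Mv n R { R with s := ad R.s a }
  | fkid {n : ℕ} {R : St} {k : Kd} {κ : List Kd} (a : Fin 5) : R.k.Perm (k :: κ) → k.s ≠ 0 →
      k.l ≠ .m → pc k.s + k.q < 3 → ¬ hs k.s a →
      Mv n R { R with k := { k with s := ad k.s a } :: κ }

/-- The completion of a near vertex of degree at most `3`. -/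
def Cmp (R R' : St) : Prop :=
  ∃ (k : Kd) (κ : List Kd) (a : Fin 5), R.k.Perm (k :: κ) ∧ R.l ≠ .m ∧ k.l = .m ∧ pc k.s = 1 ∧
    hs R.s a ∧ ¬ hs k.s a ∧ R' = { R with q := R.q + 1, k := κ }

/-- a sufficient condition for `OK ∨ Al` -/
def AnsS (R : St) : Prop :=
  OKs T R ∨ (∃ R', Mv T 0 R R' ∧ OKs T R') ∨ ∃ R', Cmp R R' ∧ OKs T R'

/-- the edge between two stars can be cut -/
def OkD (u y : St) : Prop :=
  (∃ a, hs u.s a ∧ hs y.s a) ∧
    ((u.l ≠ .m ∧ y.l = .m ∧ OKs T { u with q := u.q + 1 } ∧ OKs T { y with w := y.w + 1 }) ∨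
      (u.l = .m ∧ y.l ≠ .m ∧ OKs T { u with w := u.w + 1 } ∧ OKs T { y with q := y.q + 1 }))

/-- a sufficient condition for `OK ∨ Al` for a piece composed of two stars joined by an edge -/
def AnsD (u y : St) : Prop :=
  (∃ a, ¬ hs u.s a ∧ ¬ hs y.s a ∧ OKs T { u with s := ad u.s a } ∧ OKs T { y with s := ad y.s a }) ∨
    OkD T u y ∨ (∃ u', (Mv T 1 u u' ∨ Cmp u u') ∧ OkD T u' y) ∨
    ∃ y', (Mv T 1 y y' ∨ Cmp y y') ∧ OkD T u y'

/-- the vertex with the label `l` may have neighbours in the piece with the labels `L` -/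
def nbOK (l : L3) (L : List L3) : Prop :=
  L.length ≤ l.deg ∧ (l = .c → .c ∉ L) ∧ (l = .x → .x ∉ L ∧ L.count .c ≤ 1)

instance (l : L3) (L : List L3) : Decidable (nbOK l L) := by unfold nbOK; infer_instance

/-- The star is possible; the list contains the labels of further neighbours of the root. -/
def St.V (P : List L3) (R : St) : Prop :=
  R.used + P.length ≤ R.l.deg ∧ nbOK R.l (P ++ R.k.map Kd.l) ∧ R.w ≤ 1 ∧ R.q ≤ 1 ∧
    (R.l = .m → R.q = 0) ∧ (R.l ≠ .m → R.w = 0) ∧ (R.s = 0 → R.w = 0 ∧ R.q = 0) ∧ R.s < 32 ∧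
    ∀ k ∈ R.k, nbOK k.l [R.l] ∧ k.q ≤ 1 ∧ (k.l = .m → k.q = 0) ∧ (k.s = 0 → k.q = 0) ∧
      pc k.s + k.q < k.l.deg ∧ k.s < 32

instance (P : List L3) (R : St) : Decidable (R.V P) := by unfold St.V; infer_instance

/-- A new branch. -/
def Kd.New (k : Kd) : Prop := k.q = 0 ∧ (k.s = 0 ∨ pc k.s = 1) ∧ k.s < 32

/-- A branch of weight `1`. -/
def Kd.One (k : Kd) : Prop := k.q ≤ 1 ∧ (k.l = .m → k.q = 0) ∧ (k.s = 0 → k.q = 0) ∧
  (k.s = 0 ∨ pc k.s = 1) ∧ k.s < 32

/-- The star of an attacked vertex on a far branch. -/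
def St.End (R : St) : Prop := R.wt = 2 ∧ R.w = 0 ∧ ∀ k ∈ R.k, k.One

/-- The conditions on the table. -/
structure Tab : Prop where
  wf : ∀ R : St, T R → R.w ≤ 1 ∧ R.q ≤ 1
  /-- all pieces of weight `3` are OK or can be answered -/
  g1 : ∀ R : St, R.V [] → R.wt = 3 → (∀ k ∈ R.k, k.One) → AnsS T R
  z3 : ∀ (l : L3) (s : ℕ), l ≠ L3.m → s < 32 → pc s = 3 → OKs T ⟨l, s, 0, 0, []⟩
  /-- an edge `*` at the root is coloured -/
  rev : ∀ (R : St) (a : Fin 5), T R → R.V [] → R.w = 1 → ¬ hs R.s a → OKs T { R with s := ad R.s a, w := 0 }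
  /-- Bob colours an edge `?` at the root. -/
  conv : ∀ (R : St) (a : Fin 5), T R → R.V [] → R.q = 1 → ¬ hs R.s a → AnsS T { R with s := ad R.s a, q := 0 }
  /-- Bob colours an edge `?` at a near vertex. -/
  kconv : ∀ (R : St) (k : Kd) (κ : List Kd) (a : Fin 5), T R → R.V [] → R.k.Perm (k :: κ) → k.q = 1 → ¬ hs k.s a →
    AnsS T { R with k := { k with s := ad k.s a, q := 0 } :: κ }
  /-- Bob colours an edge from the root to a clean branch. -/
  free : ∀ (R : St) (a : Fin 5), T R → R.V [] → R.used < R.l.deg → ¬ hs R.s a → AnsS T { R with s := ad R.s a }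
  /-- Bob colours an edge in a clean branch at the root. -/
  new : ∀ (R : St) (k : Kd), T R → ({ R with k := k :: R.k } : St).V [] → k.New → AnsS T { R with k := k :: R.k }
  /-- Bob colours the edge from the root to a near vertex. -/
  near : ∀ (R : St) (k : Kd) (κ : List Kd) (a : Fin 5), T R → R.V [] → R.k.Perm (k :: κ) → k.s ≠ 0 → ¬ hs R.s a → ¬ hs k.s a →
    (OKs T { R with s := ad R.s a, k := κ } ∧ AnsS T ⟨k.l, ad k.s a, 0, k.q, []⟩) ∨
      (AnsS T { R with s := ad R.s a, k := κ } ∧ OKs T ⟨k.l, ad k.s a, 0, k.q, []⟩)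
  /-- Bob colours the edge from the root to a far branch. -/
  far : ∀ (R : St) (k : Kd) (κ : List Kd) (a : Fin 5), T R → R.V [] → R.k.Perm (k :: κ) → k.s = 0 → ¬ hs R.s a →
    AnsS T { R with s := ad R.s a, k := κ }
  /-- Bob colours an edge from a near vertex to a clean branch. -/
  kfree : ∀ (R : St) (k : Kd) (κ : List Kd) (a : Fin 5), T R → R.V [] → R.k.Perm (k :: κ) → k.s ≠ 0 → pc k.s + k.q + 1 < k.l.deg →
    ¬ hs k.s a → AnsS T { R with k := { k with s := ad k.s a } :: κ }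
  /-- Bob colours an edge in a clean branch at a near vertex. -/
  att : ∀ (R : St) (k : Kd) (κ : List Kd) (n : Kd), T R → R.V [] → R.k.Perm (k :: κ) → k.s ≠ 0 → n.New →
    (⟨k.l, k.s, 0, k.q, [n]⟩ : St).V [R.l] → AnsD T { R with k := κ } ⟨k.l, k.s, 0, k.q, [n]⟩
  /-- Bob colours the lower edge at the root of a far branch. -/
  low : ∀ (R : St) (k : Kd) (κ : List Kd) (a : Fin 5), T R → R.V [] → R.k.Perm (k :: κ) → k.s = 0 →
    AnsS T { R with k := ⟨k.l, 2 ^ a.1, 0⟩ :: κ }
  /-- Bob colours an edge from the root of a far branch to a clean branch. -/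
  atf1 : ∀ (R : St) (k : Kd) (κ : List Kd) (h : Kd) (a : Fin 5), T R → R.V [] → R.k.Perm (k :: κ) → k.s = 0 → h.One →
    (⟨k.l, 2 ^ a.1, 0, 0, [h]⟩ : St).V [R.l] → AnsD T { R with k := κ } ⟨k.l, 2 ^ a.1, 0, 0, [h]⟩
  /-- Bob colours an edge in a clean branch at the root of a far branch. -/
  atf2 : ∀ (R : St) (k : Kd) (κ : List Kd) (h n : Kd), T R → R.V [] → R.k.Perm (k :: κ) → k.s = 0 → h.One → n.New →
    (⟨k.l, 0, 0, 0, [h, n]⟩ : St).V [R.l] → AnsD T { R with k := κ } ⟨k.l, 0, 0, 0, [h, n]⟩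
  /-- Bob attacks the second vertex of a far branch. -/
  hid1 : ∀ (R : St) (k : Kd) (κ : List Kd) (E : St), T R → R.V [] → R.k.Perm (k :: κ) → k.s = 0 → E.End → E.V [k.l] →
    nbOK k.l [R.l, E.l] →
    (∃ a : Fin 5, ¬ hs E.s a ∧ OKs T { R with k := ⟨k.l, 2 ^ a.1, 0⟩ :: κ } ∧
      OKs T { E with s := ad E.s a }) ∨
    ∃ a : Fin 5, ¬ hs R.s a ∧ OKs T { R with s := ad R.s a, k := κ } ∧
      OKs T { E with k := ⟨k.l, 2 ^ a.1, 0⟩ :: E.k }
  /-- Bob attacks a later vertex of a far branch. -/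
  hid2 : ∀ (E : St) (l : L3), E.End → E.V [l] →
    (∃ a : Fin 5, ¬ hs E.s a ∧ OKs T { E with s := ad E.s a }) ∨
      ∀ a : Fin 5, OKs T { E with k := ⟨l, 2 ^ a.1, 0⟩ :: E.k }
  hid3 : ∀ (R : St) (k : Kd) (κ : List Kd), T R → R.V [] → R.k.Perm (k :: κ) → k.s = 0 →
    ∃ a : Fin 5, OKs T { R with k := ⟨k.l, 2 ^ a.1, 0⟩ :: κ }
  /-- no dead edges -/
  live : ∀ (R : St) (k : Kd), T R → R.V [] → k ∈ R.k → ∃ a : Fin 5, ¬ hs R.s a ∧ ¬ hs k.s a
  /-- Alice has a neutral move. -/
  neut : ∀ R : St, T R → R.V [] → R.used < R.l.deg ∨ R.k ≠ [] → ∃ R', Mv T 0 R R' ∧ OKs T R'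

end Pool.Agent.GCI
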