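import Pool.Agent.GCI.Game

/-!
# MP_f1ab9c: stars with sub-children and tables (definitions)

* `Fo.wt`: the number of coloured edges and edges `*` in a forest; `WV`: conditions which hold for all
  pieces in the game.
* `St`: stars. A star describes a vertex together with its children, where a child branch is *far*
  (nothing at its root, exactly one coloured edge below), or *explicit* (the label and the colours at
  the root of the branch and its non-clean sub-branches are given; the sub-branches are *near*, with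
  colours at the root and nothing below, or *far*), or clean (not recorded). `RS R d F`: the piece
  `(d, F)` is described by the star `R`.
* `Gd T`: the pieces of weight at most `2` and the pieces with a description in `T`.
* `OKs T`, `Mv T`, `Cmp`, `AnsS T`: sufficient conditions for `OK` and `Al` in terms of stars.
* `Tab T`: the conditions on the table `T`.
-/

set_option autoImplicit false

namespace Pool.Agent.GCI

/-! ### Weights -/

/-- the number of coloured edges and edges `*` at a vertex -/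
def Dat.st (d : Dat) : ℕ := d.S.card + d.w

/-- the number of coloured edges and edges `*` in a forest -/
def Fo.wt : Fo → ℕ
  | .nil => 0
  | .cons d K F => d.st + K.wt + F.wt

/-- The weak conditions at a vertex: edges `*` only at vertices of degree at most `3`, edges `?` only
at vertices of degree `4`, such a vertex also has a coloured edge, and a leaf with `?` has two. -/
def Dat.W0 (d : Dat) : Prop :=
  (d.lab.deg = 4 → d.w = 0) ∧ (d.lab.deg ≠ 4 → d.q = 0) ∧ (d.S = ∅ → d.w = 0 ∧ d.q = 0) ∧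
    (d.lab = .leaf → 0 < d.q → 2 ≤ d.S.card)

/-- the conditions at a vertex of a piece with an edge -/
def Dat.W (d : Dat) : Prop := d.W0 ∧ d.w ≤ 1 ∧ d.q ≤ 1

/-- the conditions at all vertices of a forest -/
def Fo.W : Fo → Prop
  | .nil => True
  | .cons d K F => d.W ∧ K.W ∧ F.W

/-- the conditions for all pieces in the game -/
def WV (d : Dat) (F : Fo) : Prop := Valid d F ∧ d.W ∧ F.W

/-! ### Equivalence and permutations of the colours -/

/-- the same piece with another root and another order of the children -/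
inductive Eqv : Dat → Fo → Dat → Fo → Prop
  | refl (d : Dat) (F : Fo) : Eqv d F d F
  | perm {d d' : Dat} {F F' F'' : Fo} : Eqv d F d' F' → Fp F' F'' → Eqv d F d' F''
  | rr {d d' e : Dat} {F F' K : Fo} : Eqv d F d' (.cons e K F') → Eqv d F e (.cons d' F' K)

/-- permutation of the colours -/
def Dat.map (π : Equiv.Perm (Fin 5)) (d : Dat) : Dat := { d with S := d.S.image π }

/-- permutation of the colours -/
def Fo.map (π : Equiv.Perm (Fin 5)) : Fo → Fo
  | .nil => .nil
  | .cons d K F => .cons (d.map π) (K.map π) (F.map π)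

/-! ### Stars -/

/-- classes of labels: degree at most `3`, centre, leaf -/
inductive L3
  | m | c | x
  deriving DecidableEq, Repr

/-- the class of a label -/
def Lab.cls : Lab → L3
  | .one => .m
  | .two => .m
  | .three => .m
  | .ctr => .c
  | .leaf => .x

/-- the maximal degree -/
def L3.deg : L3 → ℕ
  | .m => 3
  | .c => 4
  | .x => 4

/-- the mask of a set of colours -/
def mask (S : Finset (Fin 5)) : ℕ := ∑ i ∈ S, 2 ^ (i : ℕ)

/-- number of colours of a mask -/
def pc (n : ℕ) : ℕ := n % 2 + n / 2 % 2 + n / 4 % 2 + n / 8 % 2 + n / 16 % 2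

/-- the mask with a further colour -/
def ad (n : ℕ) (a : Fin 5) : ℕ := n ||| 2 ^ (a : ℕ)

/-- the colour belongs to the mask -/
def hs (n : ℕ) (a : Fin 5) : Bool := n.testBit a

/-- permutation of the colours of a mask -/
def pmask (π : Equiv.Perm (Fin 5)) (n : ℕ) : ℕ := mask ((Finset.univ.filter fun i => hs n i).image π)

/-- Sub-branches: label, mask of the colours at the root (`0` for a far branch), number of edges `?`. -/
structure K0 where
  l : L3
  s : ℕ
  q : ℕ
  deriving DecidableEq, Repr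

/-- Child branches: label, mask of the colours, number of edges `?`, sub-branches. The branch is far
if the mask is `0` and there are no sub-branches. -/
structure Kd where
  l : L3
  s : ℕ
  q : ℕ
  t : List K0
  deriving DecidableEq, Repr

/-- Stars: label, mask of the colours, number of edges `*`, number of edges `?`, children. -/
structure St where
  l : L3
  s : ℕ
  w : ℕ
  q : ℕ
  k : List Kd
  deriving DecidableEq, Repr

/-- a sub-branch as a child branch -/
def K0.up (z : K0) : Kd := ⟨z.l, z.s, z.q, []⟩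

/-- the branch is far -/
def Kd.Far (k : Kd) : Prop := k.s = 0 ∧ k.t = []

instance (k : Kd) : Decidable k.Far := by unfold Kd.Far; infer_instance

/-- the weight of a sub-branch -/
def K0.wt (z : K0) : ℕ := if z.s = 0 then 1 else pc z.s

/-- the weight of a child -/
def Kd.wt (k : Kd) : ℕ := if k.s = 0 ∧ k.t = [] then 1 else pc k.s + (k.t.map K0.wt).sum

/-- the weight of a star -/
def St.wt (R : St) : ℕ := pc R.s + R.w + (R.k.map Kd.wt).sum

/-- the number of used directions -/
def St.used (R : St) : ℕ := pc R.s + R.w + R.q + R.k.length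

/-- the branch `(e, K)` is described by `z` -/
def IsK0 (z : K0) (e : Dat) (K : Fo) : Prop :=
  e.lab.cls = z.l ∧ mask e.S = z.s ∧ e.w = 0 ∧ e.q = z.q ∧ K.wt = if z.s = 0 then 1 else 0

/-- the non-clean branches of the forest are described by the multiset -/
inductive K0s : Multiset K0 → Fo → Prop
  | nil : K0s 0 .nil
  | cln {κ : Multiset K0} {e : Dat} {K F : Fo} : e.st = 0 → K.wt = 0 → K0s κ F → K0s κ (.cons e K F)
  | kid {κ : Multiset K0} {k : K0} {e : Dat} {K F : Fo} : IsK0 k e K → K0s κ F →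
      K0s (k ::ₘ κ) (.cons e K F)

/-- the branch `(e, K)` is described by `k` -/
def IsK (k : Kd) (e : Dat) (K : Fo) : Prop :=
  e.lab.cls = k.l ∧ mask e.S = k.s ∧ e.w = 0 ∧ e.q = k.q ∧
    ((k.s = 0 ∧ k.t = [] ∧ K.wt = 1) ∨ (¬ k.Far ∧ K0s (k.t : Multiset K0) K))

/-- the non-clean branches of the forest are described by the multiset -/
inductive Ks : Multiset Kd → Fo → Prop
  | nil : Ks 0 .nil
  | cln {κ : Multiset Kd} {e : Dat} {K F : Fo} : e.st = 0 → K.wt = 0 → Ks κ F → Ks κ (.cons e K F)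
  | kid {κ : Multiset Kd} {k : Kd} {e : Dat} {K F : Fo} : IsK k e K → Ks κ F →
      Ks (k ::ₘ κ) (.cons e K F)

/-- the piece `(d, F)` is described by the star -/
def RS (R : St) (d : Dat) (F : Fo) : Prop :=
  d.lab.cls = R.l ∧ mask d.S = R.s ∧ d.w = R.w ∧ d.q = R.q ∧ Ks (R.k : Multiset Kd) F

/-- The good pieces. -/
def Gd (T : St → Prop) (d : Dat) (F : Fo) : Prop :=
  WV d F ∧ (d.st + F.wt ≤ 2 ∨
    ∃ (π : Equiv.Perm (Fin 5)) (d' : Dat) (F' : Fo) (R : St),
      Eqv d F d' F' ∧ RS R (d'.map π) (F'.map π) ∧ T R)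

/-- the sum of answers -/
def Ans2 (Good : Dat → Fo → Prop) (d : Dat) (F : Fo) (e : Dat) (K : Fo) : Prop :=
  (OK Good d F ∧ OK Good e K) ∨ (OK Good d F ∧ Al Good e K) ∨ (Al Good d F ∧ OK Good e K)

/-! ### Conditions in terms of stars -/

/-- An edge `?` may be created at a vertex with the label `l` and the mask `s`. -/
def qNew (l : L3) (s : ℕ) : Prop := l ≠ .m ∧ (l = .x → 2 ≤ pc s)

/-- the permutation of the colours of a star -/
def St.col (π : Equiv.Perm (Fin 5)) (R : St) : St :=
  ⟨R.l, pmask π R.s, R.w, R.q, R.k.map fun k =>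
    { k with s := pmask π k.s, t := k.t.map fun z => { z with s := pmask π z.s } }⟩

variable (T : St → Prop)

/-- a sufficient condition for `OK` -/
inductive OKs : St → Prop
  | small {R : St} : R.wt ≤ 2 → R.w ≤ 1 → R.q ≤ 1 → OKs R
  | full {R : St} : R.used = R.l.deg → R.k = [] → OKs R
  | tab {R : St} : T R → OKs R
  | perm {R : St} (k' : List Kd) : R.k.Perm k' → OKs { R with k := k' } → OKs R
  | permt {R : St} {k : Kd} {κ : List Kd} (t' : List K0) : R.k = k :: κ → k.t.Perm t' →
      OKs { R with k := { k with t := t' } :: κ } → OKs R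
  | col {R : St} (π : Equiv.Perm (Fin 5)) : OKs (R.col π) → OKs R
  | cutm {R : St} {k : Kd} {κ : List Kd} : R.k = k :: κ → qNew R.l R.s → R.q = 0 → k.l = .m →
      (∃ a, hs R.s a ∧ hs k.s a) → OKs { R with q := 1, k := κ } →
      OKs ⟨.m, k.s, 1, 0, k.t.map K0.up⟩ → OKs R
  | cutv {R : St} {k : Kd} {κ : List Kd} : R.k = k :: κ → R.l = .m → qNew k.l k.s → k.q = 0 →
      (∃ a, hs R.s a ∧ hs k.s a) → OKs { R with w := R.w + 1, k := κ } →
      OKs ⟨k.l, k.s, 0, 1, k.t.map K0.up⟩ → OKs R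
  | cutk {R : St} {k : Kd} {κ : List Kd} {z : K0} {τ : List K0} : R.k = k :: κ → k.t = z :: τ →
      qNew k.l k.s → k.q = 0 → z.l = .m → (∃ a, hs k.s a ∧ hs z.s a) →
      OKs { R with k := { k with q := 1, t := τ } :: κ } → OKs ⟨.m, z.s, 1, 0, []⟩ → OKs R
  | fold {R : St} {k : Kd} {κ : List Kd} {z : K0} : R.k = k :: κ → k.s = 0 → k.t = [z] → z.wt = 1 →
      OKs { R with k := ⟨k.l, 0, k.q, []⟩ :: κ } → OKs R
  | rr {R : St} {k : Kd} {κ : List K0} : R.k = k :: κ.map K0.up → ¬ k.Far → (R.s ≠ 0 ∨ κ ≠ []) →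
      R.w = 0 → OKs ⟨k.l, k.s, 0, k.q, ⟨R.l, R.s, R.q, κ⟩ :: k.t.map K0.up⟩ → OKs R

/-- A move of Alice in the star `R`; the part which contains the root is then described by the second
star, the other part is OK. -/
inductive Mv : St → St → Prop
  | near {R : St} {k : Kd} {κ : List Kd} (a : Fin 5) : R.k.Perm (k :: κ) → ¬ k.Far →
      ¬ hs R.s a → ¬ hs k.s a → OKs T ⟨k.l, ad k.s a, 0, k.q, k.t.map K0.up⟩ →
      Mv R { R with s := ad R.s a, k := κ }
  | far {R : St} {k : Kd} {κ : List Kd} (a : Fin 5) : R.k.Perm (k :: κ) → k.Far →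
      ¬ hs R.s a → Mv R { R with s := ad R.s a, k := κ }
  | free {R : St} (a : Fin 5) : R.l ≠ .m → R.used < 4 → ¬ hs R.s a → Mv R { R with s := ad R.s a }
  | fkid {R : St} {k : Kd} {κ : List Kd} (a : Fin 5) : R.k.Perm (k :: κ) → ¬ k.Far →
      k.l ≠ .m → pc k.s + k.q + k.t.length < 3 → ¬ hs k.s a →
      Mv R { R with k := { k with s := ad k.s a } :: κ }
  | sub {R : St} {k : Kd} {κ : List Kd} {z : K0} {τ : List K0} (a : Fin 5) : R.k.Perm (k :: κ) →
      k.t.Perm (z :: τ) → ¬ hs k.s a → ¬ hs z.s a →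
      (z.s ≠ 0 → OKs T ⟨z.l, ad z.s a, 0, z.q, []⟩) →
      Mv R { R with k := { k with s := ad k.s a, t := τ } :: κ }

/-- The completion of a near vertex of degree at most `3` with one coloured edge. -/
inductive Cmp : St → St → Prop
  | root {R : St} {k : Kd} {κ : List Kd} {a : Fin 5} : R.k.Perm (k :: κ) → qNew R.l R.s → R.q = 0 →
      k.l = .m → pc k.s = 1 → k.t = [] → hs R.s a → ¬ hs k.s a → Cmp R { R with q := 1, k := κ }
  | sub {R : St} {k : Kd} {κ : List Kd} {z : K0} {τ : List K0} {a : Fin 5} : R.k.Perm (k :: κ) →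
      k.t.Perm (z :: τ) → qNew k.l k.s → k.q = 0 → z.l = .m → pc z.s = 1 → hs k.s a → ¬ hs z.s a →
      Cmp R { R with k := { k with q := 1, t := τ } :: κ }

/-- Alice has a move -/
def MvS (R : St) : Prop := ∃ R', (Mv T R R' ∨ Cmp R R') ∧ OKs T R'

/-- a sufficient condition for `OK ∨ Al` -/
def AnsS (R : St) : Prop := OKs T R ∨ MvS T R

/-- the vertex with the label `l` may have neighbours in the piece with the labels `L` -/
def nbOK (l : L3) (L : List L3) : Prop :=
  L.length ≤ l.deg ∧ (l = .c → .c ∉ L) ∧ (l = .x → .x ∉ L ∧ L.count .c ≤ 1)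

instance (l : L3) (L : List L3) : Decidable (nbOK l L) := by unfold nbOK; infer_instance

/-- the number of edges `?` is possible -/
def qOK (l : L3) (s q : ℕ) : Prop := q ≤ 1 ∧ (q = 1 → l ≠ .m ∧ s ≠ 0 ∧ (l = .x → 2 ≤ pc s))

instance (l : L3) (s q : ℕ) : Decidable (qOK l s q) := by unfold qOK; infer_instance

/-- the sub-branch is possible at a vertex with the label `l` -/
def K0.V (l : L3) (z : K0) : Prop :=
  nbOK z.l [l] ∧ qOK z.l z.s z.q ∧ pc z.s + z.q < z.l.deg ∧ z.s < 32

instance (l : L3) (z : K0) : Decidable (z.V l) := by unfold K0.V; infer_instance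

/-- the branch is possible at a vertex with the label `l` -/
def Kd.V (l : L3) (k : Kd) : Prop :=
  nbOK k.l (l :: k.t.map K0.l) ∧ qOK k.l k.s k.q ∧ pc k.s + k.q + k.t.length < k.l.deg ∧
    k.s < 32 ∧ ∀ z ∈ k.t, z.V k.l

instance (l : L3) (k : Kd) : Decidable (k.V l) := by unfold Kd.V; infer_instance

/-- The star is possible; the list contains the labels of further neighbours of the root. -/
def St.V (P : List L3) (R : St) : Prop :=
  R.used + P.length ≤ R.l.deg ∧ nbOK R.l (P ++ R.k.map Kd.l) ∧ R.w ≤ 1 ∧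
    (R.w = 1 → R.l = .m ∧ R.s ≠ 0) ∧ qOK R.l R.s R.q ∧ R.s < 32 ∧ ∀ k ∈ R.k, k.V R.l

instance (P : List L3) (R : St) : Decidable (R.V P) := by unfold St.V; infer_instance

/-- A new branch. -/
def K0.New (k : K0) : Prop := k.q = 0 ∧ (k.s = 0 ∨ pc k.s = 1)

/-- A branch of weight `1`. -/
def K0.One (k : K0) : Prop := qOK k.l k.s k.q ∧ (k.s = 0 ∨ pc k.s = 1)

instance (k : K0) : Decidable k.New := by unfold K0.New; infer_instance

instance (k : K0) : Decidable k.One := by unfold K0.One; infer_instance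

/-- The star of an attacked vertex on a far branch: weight `2`, all children of weight `1` and without
sub-branches. -/
def St.End (R : St) : Prop := R.wt = 2 ∧ R.w = 0 ∧ ∀ k ∈ R.k, k.t = [] ∧ (⟨k.l, k.s, k.q⟩ : K0).One

/-- the edge from a child `k` of the root to the root of the star `Z` is coloured or cut; the first
star is the piece at the root without this edge -/
def Path (R : St) (κ : List Kd) (k : Kd) (τ : List K0) (Z : St) : Prop :=
  (∃ a : Fin 5, ¬ hs k.s a ∧ ¬ hs Z.s a ∧
    OKs T { R with k := { k with s := ad k.s a, t := τ } :: κ } ∧ OKs T { Z with s := ad Z.s a }) ∨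
  (qNew k.l k.s ∧ k.q = 0 ∧ Z.l = .m ∧ (∃ a, hs k.s a ∧ hs Z.s a) ∧
    OKs T { R with k := { k with q := 1, t := τ } :: κ } ∧ OKs T { Z with w := Z.w + 1 })

/-- The conditions on the table. -/
structure Tab : Prop where
  wf : ∀ R : St, T R → R.w ≤ 1 ∧ R.q ≤ 1 ∧ ∀ k ∈ R.k, ∀ z ∈ k.t, z.New
  /-- all pieces of weight `3` are OK or can be answered -/
  g1 : ∀ R : St, R.V [] → R.wt = 3 → (∀ k ∈ R.k, k.t = [] ∧ (⟨k.l, k.s, k.q⟩ : K0).One) → AnsS T R
  z3 : ∀ (l : L3) (s : ℕ), l ≠ L3.m → s < 32 → pc s = 3 → OKs T ⟨l, s, 0, 0, []⟩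
  /-- an edge `*` at the root is coloured -/
  rev : ∀ (R : St) (a : Fin 5), T R → R.V [] → R.w = 1 → ¬ hs R.s a → OKs T { R with s := ad R.s a, w := 0 }
  /-- Bob colours an edge `?` at the root. -/
  conv : ∀ (R : St) (a : Fin 5), T R → R.V [] → R.q = 1 → ¬ hs R.s a → AnsS T { R with s := ad R.s a, q := 0 }
  /-- Bob colours an edge `?` at a child. -/
  kconv : ∀ (R : St) (k : Kd) (κ : List Kd) (a : Fin 5), T R → R.V [] → R.k.Perm (k :: κ) → k.q = 1 → ¬ hs k.s a →
    AnsS T { R with k := { k with s := ad k.s a, q := 0 } :: κ }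
  /-- Bob colours an edge from the root to a clean branch. -/
  free : ∀ (R : St) (a : Fin 5), T R → R.V [] → R.used < R.l.deg → ¬ hs R.s a → AnsS T { R with s := ad R.s a }
  /-- Bob colours an edge in a clean branch at the root. -/
  new : ∀ (R : St) (n : K0), T R → ({ R with k := n.up :: R.k } : St).V [] → n.New → AnsS T { R with k := n.up :: R.k }
  /-- Bob colours the edge from the root to a child. -/
  near : ∀ (R : St) (k : Kd) (κ : List Kd) (a : Fin 5), T R → R.V [] → R.k.Perm (k :: κ) → ¬ k.Far → ¬ hs R.s a → ¬ hs k.s a →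
    (OKs T { R with s := ad R.s a, k := κ } ∧ AnsS T ⟨k.l, ad k.s a, 0, k.q, k.t.map K0.up⟩) ∨
      (AnsS T { R with s := ad R.s a, k := κ } ∧ OKs T ⟨k.l, ad k.s a, 0, k.q, k.t.map K0.up⟩)
  /-- Bob colours the edge from the root to a far branch. -/
  far : ∀ (R : St) (k : Kd) (κ : List Kd) (a : Fin 5), T R → R.V [] → R.k.Perm (k :: κ) → k.Far → ¬ hs R.s a →
    AnsS T { R with s := ad R.s a, k := κ }
  /-- Bob colours an edge from a child to a clean branch. -/
  kfree : ∀ (R : St) (k : Kd) (κ : List Kd) (a : Fin 5), T R → R.V [] → R.k.Perm (k :: κ) → ¬ k.Far →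
    pc k.s + k.q + k.t.length + 1 < k.l.deg → ¬ hs k.s a → AnsS T { R with k := { k with s := ad k.s a } :: κ }
  /-- Bob colours an edge in a clean branch at a child. -/
  att : ∀ (R : St) (k : Kd) (κ : List Kd) (n : K0), T R → R.V [] → R.k.Perm (k :: κ) → ¬ k.Far → n.New →
    ({ k with t := n :: k.t } : Kd).V R.l → AnsS T { R with k := { k with t := n :: k.t } :: κ }
  /-- Bob colours the edge from a child to a sub-branch. -/
  scol : ∀ (R : St) (k : Kd) (κ : List Kd) (z : K0) (τ : List K0) (a : Fin 5), T R → R.V [] → R.k.Perm (k :: κ) → k.t.Perm (z :: τ) →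
    ¬ hs k.s a → ¬ hs z.s a → AnsS T { R with k := { k with s := ad k.s a, t := τ } :: κ }
  /-- Bob colours an edge from the root of a near sub-branch to a clean branch. -/
  sfree : ∀ (R : St) (k : Kd) (κ : List Kd) (z : K0) (τ : List K0) (a : Fin 5), T R → R.V [] → R.k.Perm (k :: κ) → k.t.Perm (z :: τ) →
    z.s ≠ 0 → pc z.s + z.q + 1 < z.l.deg → ¬ hs z.s a → AnsS T { R with k := { k with t := { z with s := ad z.s a } :: τ } :: κ }
  /-- Bob colours an edge in a clean branch at the root of a near sub-branch. -/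
  satt : ∀ (R : St) (k : Kd) (κ : List Kd) (z : K0) (τ : List K0) (n : K0), T R → R.V [] → R.k.Perm (k :: κ) → k.t.Perm (z :: τ) →
    z.s ≠ 0 → n.New → (⟨z.l, z.s, 0, z.q, [n.up]⟩ : St).V [k.l] → Path T R κ k τ ⟨z.l, z.s, 0, z.q, [n.up]⟩
  /-- Bob colours the lower edge at the root of a far branch. -/
  low : ∀ (R : St) (k : Kd) (κ : List Kd) (a : Fin 5), T R → R.V [] → R.k.Perm (k :: κ) → k.Far →
    AnsS T { R with k := ⟨k.l, 2 ^ a.1, 0, []⟩ :: κ }
  /-- Bob colours an edge from the root of a far branch to a clean branch. -/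
  atf1 : ∀ (R : St) (k : Kd) (κ : List Kd) (h : K0) (a : Fin 5), T R → R.V [] → R.k.Perm (k :: κ) → k.Far → h.One →
    (⟨k.l, 2 ^ a.1, 0, [h]⟩ : Kd).V R.l → AnsS T { R with k := ⟨k.l, 2 ^ a.1, 0, [h]⟩ :: κ }
  /-- Bob colours an edge in a clean branch at the root of a far branch. -/
  atf2 : ∀ (R : St) (k : Kd) (κ : List Kd) (h n : K0), T R → R.V [] → R.k.Perm (k :: κ) → k.Far → h.One → n.New →
    (⟨k.l, 0, 0, [h, n]⟩ : Kd).V R.l → AnsS T { R with k := ⟨k.l, 0, 0, [h, n]⟩ :: κ }
  /-- Bob attacks the second vertex of a far branch. -/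
  hid1 : ∀ (R : St) (k : Kd) (κ : List Kd) (E : St), T R → R.V [] → R.k.Perm (k :: κ) → k.Far → E.End → E.V [k.l] →
    nbOK k.l [R.l, E.l] →
    (∃ a : Fin 5, ¬ hs E.s a ∧ OKs T { R with k := ⟨k.l, 2 ^ a.1, 0, []⟩ :: κ } ∧
      OKs T { E with s := ad E.s a }) ∨
    ∃ a : Fin 5, ¬ hs R.s a ∧ OKs T { R with s := ad R.s a, k := κ } ∧
      OKs T { E with k := ⟨k.l, 2 ^ a.1, 0, []⟩ :: E.k }
  /-- Bob colours the lower edge at the root of a far sub-branch. -/
  slow : ∀ (R : St) (k : Kd) (κ : List Kd) (z : K0) (τ : List K0) (a : Fin 5), T R → R.V [] → R.k.Perm (k :: κ) → k.t.Perm (z :: τ) →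
    z.s = 0 → AnsS T { R with k := { k with t := ⟨z.l, 2 ^ a.1, 0⟩ :: τ } :: κ }
  /-- Bob colours an edge from the root of a far sub-branch to a clean branch. -/
  satf1 : ∀ (R : St) (k : Kd) (κ : List Kd) (z : K0) (τ : List K0) (h : K0) (a : Fin 5), T R → R.V [] → R.k.Perm (k :: κ) →
    k.t.Perm (z :: τ) → z.s = 0 → h.One → (⟨z.l, 2 ^ a.1, 0, 0, [h.up]⟩ : St).V [k.l] →
    Path T R κ k τ ⟨z.l, 2 ^ a.1, 0, 0, [h.up]⟩
  /-- Bob colours an edge in a clean branch at the root of a far sub-branch. -/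
  satf2 : ∀ (R : St) (k : Kd) (κ : List Kd) (z : K0) (τ : List K0) (h n : K0), T R → R.V [] → R.k.Perm (k :: κ) →
    k.t.Perm (z :: τ) → z.s = 0 → h.One → n.New → (⟨z.l, 0, 0, 0, [h.up, n.up]⟩ : St).V [k.l] →
    Path T R κ k τ ⟨z.l, 0, 0, 0, [h.up, n.up]⟩
  /-- Bob attacks the second vertex of a far sub-branch. -/
  shid1 : ∀ (R : St) (k : Kd) (κ : List Kd) (z : K0) (τ : List K0) (E : St), T R → R.V [] → R.k.Perm (k :: κ) →
    k.t.Perm (z :: τ) → z.s = 0 → E.End → E.V [z.l] → nbOK z.l [k.l, E.l] →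
    (∃ a : Fin 5, ¬ hs E.s a ∧ OKs T { R with k := { k with t := ⟨z.l, 2 ^ a.1, 0⟩ :: τ } :: κ } ∧
      OKs T { E with s := ad E.s a }) ∨
    ∃ a : Fin 5, ¬ hs k.s a ∧ OKs T { R with k := { k with s := ad k.s a, t := τ } :: κ } ∧
      OKs T { E with k := ⟨z.l, 2 ^ a.1, 0, []⟩ :: E.k }
  /-- Bob attacks a later vertex of a far branch. -/
  hid2 : ∀ (E : St) (l : L3), E.End → E.V [l] → ∃ a : Fin 5, ¬ hs E.s a ∧ OKs T { E with s := ad E.s a }
  /-- no dead edges -/
  live : ∀ (R : St) (k : Kd), T R → R.V [] → k ∈ R.k → (∃ a : Fin 5, ¬ hs R.s a ∧ ¬ hs k.s a) ∧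
    ∀ z ∈ k.t, ∃ a : Fin 5, ¬ hs k.s a ∧ ¬ hs z.s a
  /-- Alice has a neutral move. -/
  neut : ∀ R : St, T R → R.V [] → R.used < R.l.deg ∨ R.k ≠ [] → MvS T R

end Pool.Agent.GCI
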